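import Pool.Agent.Lib.HLT.Defs

/-!
# The additive energy on a grid

PROOF SKETCH (`energy_pars`). `WW T α ^ s = ∑ u ∈ T^s, ex ((∑ u_i) α)` (private lemma `WW_pow` in `HLT/FourierOne.lean`, copy it), so
`‖WW T (ζ/N)‖^(2s) = ∑ (u, v), ex ((∑ u - ∑ v) ζ/N)`; sum over `ζ < N` (orthogonality: copy `sum_ex` of `HLT/Fourier.lean`): `N` times the number of
pairs with `N ∣ ∑ u - ∑ v`, and both sums are in `[0, s H]`, `s H < N`, so `∑ u = ∑ v`. (`energy_mono`): `Fintype.piFinset` is monotone.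
-/

set_option autoImplicit false

open Finset Filter

namespace Pool.Agent.VK

open Pool.Agent.HLT

namespace EnergyAux

lemma ex_eq_one_iff {N : ℕ} (hN : 0 < N) (k : ℤ) : ex (k / N) = 1 ↔ (N : ℤ) ∣ k := by
  unfold ex
  rw [Complex.exp_eq_one_iff]
  have hN' : (N : ℂ) ≠ 0 := by exact_mod_cast hN.ne'
  have hpi : (2 * (Real.pi : ℂ) * Complex.I) ≠ 0 := Complex.two_pi_I_ne_zero
  constructor
  · rintro ⟨m, hm⟩
    refine ⟨m, ?_⟩
    have h1 : ((k : ℂ) / N) * (2 * (Real.pi : ℂ) * Complex.I) = m * (2 * (Real.pi : ℂ) * Complex.I) := by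
      rw [← hm]
      push_cast
      ring
    have h2 := mul_right_cancel₀ hpi h1
    rw [div_eq_iff hN'] at h2
    have h3 : ((k : ℤ) : ℂ) = ((N * m : ℤ) : ℂ) := by
      rw [h2]
      push_cast
      ring
    exact_mod_cast h3
  · rintro ⟨m, rfl⟩
    refine ⟨m, ?_⟩
    push_cast
    field_simp

lemma sum_ex {N : ℕ} (hN : 0 < N) (k : ℤ) :
    ∑ ξ ∈ range N, ex (k * (ξ / N)) = if (N : ℤ) ∣ k then (N : ℂ) else 0 := by
  have h1 : ∀ ξ : ℕ, ex (k * (ξ / N)) = ex (k / N) ^ ξ := by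
    intro ξ
    rw [← ex_nat_mul]
    congr 1
    ring
  simp_rw [h1]
  split_ifs with h
  · rw [(ex_eq_one_iff hN k).2 h]
    simp
  · have hne : ex (k / N) ≠ 1 := fun h' => h ((ex_eq_one_iff hN k).1 h')
    rw [geom_sum_eq hne]
    have h2 : ex (k / N) ^ N = 1 := by
      rw [← ex_nat_mul]
      have h3 : ((N : ℝ) * ((k : ℝ) / N)) = ((k : ℤ) : ℝ) := by
        have : (N : ℝ) ≠ 0 := by exact_mod_cast hN.ne'
        field_simp
      rw [h3]
      exact ex_int k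
    rw [h2, sub_self, zero_div]

lemma ex_sum {ι : Type*} (s : Finset ι) (f : ι → ℝ) :
    ex (∑ i ∈ s, f i) = ∏ i ∈ s, ex (f i) := by
  classical
  induction s using Finset.induction_on with
  | empty => simp
  | insert a s ha ih => rw [Finset.sum_insert ha, Finset.prod_insert ha, ex_add, ih]

lemma WW_pow (T : Finset ℕ) (α : ℝ) (s : ℕ) :
    WW T α ^ s = ∑ u ∈ Fintype.piFinset (fun _ : Fin s => T), ex (((∑ i, u i : ℕ) : ℝ) * α) := by
  have h1 : WW T α ^ s = ∏ _i : Fin s, ∑ t ∈ T, ex (t * α) := by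
    rw [Finset.prod_const, Finset.card_univ, Fintype.card_fin]
    rfl
  rw [h1, Finset.prod_univ_sum]
  refine Finset.sum_congr rfl fun u _ => ?_
  rw [← ex_sum]
  congr 1
  push_cast
  rw [Finset.sum_mul]

end EnergyAux

open EnergyAux

theorem energy_pars (N H s : ℕ) (hN : s * H < N) (T : Finset ℕ) (hT : T ⊆ range (H + 1)) :
    (N : ℝ) * energy s T = ∑ ζ ∈ range N, ‖WW T ((ζ : ℝ) / N)‖ ^ (2 * s) := by
  have hN0 : 0 < N := by omega
  set P := Fintype.piFinset (fun _ : Fin s => T) with hP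
  have hsum : ∀ u ∈ P, ∑ i, u i ≤ s * H := by
    intro u hu
    rw [hP, Fintype.mem_piFinset] at hu
    calc ∑ i, u i ≤ ∑ _i : Fin s, H := Finset.sum_le_sum fun i _ => by
          have := Finset.mem_range.1 (hT (hu i))
          omega
      _ = s * H := by simp
  have h1 : ∀ ζ : ℕ, ((‖WW T ((ζ : ℝ) / N)‖ ^ (2 * s) : ℝ) : ℂ) =
      ∑ u ∈ P, ∑ v ∈ P, ex ((((∑ i, u i : ℕ) : ℤ) - ((∑ i, v i : ℕ) : ℤ) : ℤ) * ((ζ : ℝ) / N)) := by
    intro ζ
    have h2 : ((‖WW T ((ζ : ℝ) / N)‖ ^ (2 * s) : ℝ) : ℂ) =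
        WW T ((ζ : ℝ) / N) ^ s * (starRingEnd ℂ) (WW T ((ζ : ℝ) / N) ^ s) := by
      rw [Complex.mul_conj, Complex.normSq_eq_norm_sq, norm_pow]
      push_cast
      ring
    rw [h2, WW_pow, map_sum, Finset.sum_mul_sum]
    refine Finset.sum_congr rfl fun u _ => Finset.sum_congr rfl fun v _ => ?_
    rw [← ex_neg, ← ex_add]
    congr 1
    push_cast
    ring
  have h3 : ((∑ ζ ∈ range N, ‖WW T ((ζ : ℝ) / N)‖ ^ (2 * s) : ℝ) : ℂ) =
      ((N * energy s T : ℝ) : ℂ) := by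
    push_cast
    have h4 : ∑ ζ ∈ range N, (‖WW T ((ζ : ℝ) / N)‖ : ℂ) ^ (2 * s) =
        ∑ ζ ∈ range N, ∑ u ∈ P, ∑ v ∈ P,
          ex ((((∑ i, u i : ℕ) : ℤ) - ((∑ i, v i : ℕ) : ℤ) : ℤ) * ((ζ : ℝ) / N)) := by
      refine Finset.sum_congr rfl fun ζ _ => ?_
      rw [← h1]
      push_cast
      rfl
    rw [h4, Finset.sum_comm]
    have h5 : ∀ u ∈ P, ∑ ζ ∈ range N, ∑ v ∈ P,
          ex ((((∑ i, u i : ℕ) : ℤ) - ((∑ i, v i : ℕ) : ℤ) : ℤ) * ((ζ : ℝ) / N)) =
        ∑ v ∈ P, if ∑ i, u i = ∑ i, v i then (N : ℂ) else 0 := by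
      intro u hu
      rw [Finset.sum_comm]
      refine Finset.sum_congr rfl fun v hv => ?_
      rw [sum_ex hN0]
      have h6 := hsum u hu
      have h7 := hsum v hv
      have h8 : (N : ℤ) ∣ ((∑ i, u i : ℕ) : ℤ) - ((∑ i, v i : ℕ) : ℤ) ↔
          ∑ i, u i = ∑ i, v i := by
        constructor
        · intro h
          have h9 := Int.eq_zero_of_abs_lt_dvd h (by
            rw [abs_lt]
            constructor <;> omega)
          omega
        · intro h
          rw [h, sub_self]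
          exact dvd_zero _
      by_cases h9 : ∑ i, u i = ∑ i, v i
      · rw [if_pos (h8.2 h9), if_pos h9]
      · rw [if_neg fun h => h9 (h8.1 h), if_neg h9]
    rw [Finset.sum_congr rfl h5, ← Finset.sum_product', ← Finset.sum_filter, Finset.sum_const,
      nsmul_eq_mul, mul_comm]
    rfl
  exact_mod_cast h3.symm

theorem energy_mono (s : ℕ) {U T : Finset ℕ} (h : U ⊆ T) : energy s U ≤ energy s T := by
  unfold energy
  refine Finset.card_le_card ?_
  intro x hx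
  rw [Finset.mem_filter, Finset.mem_product, Fintype.mem_piFinset, Fintype.mem_piFinset] at hx ⊢
  exact ⟨⟨fun i => h (hx.1.1 i), fun i => h (hx.1.2 i)⟩, hx.2⟩

end Pool.Agent.VK
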