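import Pool.Agent.Lib.VK.NuSmooth
import Pool.Agent.Lib.BV.Main
import Pool.Agent.Lib.HLT.TauPow

/-!
# `lp - nuz` in progressions to smooth moduli, weighted mean over the moduli

PROOF SKETCH. `L = log x`, `z = zA A x`. `E0 d` from `BV.bv_weak A1` (applied at `2x`, `A1` large in terms of `k, B`): `|thetaAP y d a - y/φ(d)| ≤ E0 d` for coprime `a`, `y ≤ 2x`, `∑_(d ≤ (2x)^(1/20)) E0 d ≤ C x/L^A1`. Put
`E d = min (E0 d) (8 x L^2/d) + x/(d L^B2) + x^(1/10) + z L·...`, (trivially `|thetaAP y d a - y/φ(d)| ≤ (2x/d + 1) 2L + 2x/φ(d) ≤ 8 x L^2/d`.)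
* Claim for coprime classes: `|∑_(n ≤ y, n ≡ b) ff z n| ≤ E d` (`nu_smooth A B2`); for a class with `gcd(b, d) > 1`: `nuz z n = 0` (`nu_zero`-like: the common prime is `≤ z`), and `lp n ≠ 0` only for primes `n ∣ d`, `n ≤ z`:
  `≤ z L`-type bound `∑_(p ≤ z) log p ≤ z L`. So add `z L` to `E d`.
* `∑_(d ≤ Q) τ(d)^k E d ≤ x/L^B`, `Q = x^(1/20)`: for the first part by Cauchy-Schwarz `(∑ τ^(2k) 8 x L^2/d)^(1/2) (∑ E0)^(1/2)`, `HLT.sum_tau_pow_div`; the second `x L^(-B2) (1+L)^(2^k)`, the rest `Q·Q·x^(1/10) L..`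
  (`τ(d) ≤ d`... use `∑_(d ≤ Q) τ(d)^k ≤ Q (1+log Q)^(2^k)`).
-/

set_option autoImplicit false

open Finset Filter

namespace Pool.Agent.VK

open Pool.Agent.HLT

private lemma bw_totient {d : ℕ} (hd : 1 ≤ d) :
    (1 : ℝ) / d.totient ≤ (d.divisors.card : ℝ) / d := by
  have hφ : 0 < d.totient := Nat.totient_pos.mpr hd
  have h1 : d ≤ d.divisors.card * d.totient := by
    have h2 : ∑ m ∈ d.divisors, m.totient ≤ ∑ _m ∈ d.divisors, d.totient := by
      refine Finset.sum_le_sum fun m hm => ?_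
      exact Nat.le_of_dvd hφ (Nat.totient_dvd_of_dvd (Nat.dvd_of_mem_divisors hm))
    rw [Nat.sum_totient, Finset.sum_const, smul_eq_mul] at h2
    exact h2
  have h3 : (d : ℝ) ≤ d.divisors.card * d.totient := by exact_mod_cast h1
  have hd0 : (0 : ℝ) < d := by exact_mod_cast hd
  have hφ0 : (0 : ℝ) < d.totient := by exact_mod_cast hφ
  rw [div_le_div_iff₀ hφ0 hd0]
  linarith

private lemma bw_lp (y d b : ℕ) :
    ∑ n ∈ (Icc 1 y).filter (fun n => n % d = b % d), lp n =
      Pool.Agent.Lib.SW.thetaAP (y : ℝ) d b := by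
  classical
  unfold Pool.Agent.Lib.SW.thetaAP Pool.Agent.HLT.lp
  rw [Nat.floor_natCast, ← Finset.sum_filter, Finset.filter_filter]
  apply Finset.sum_congr _ (fun _ _ => rfl)
  apply Finset.filter_congr
  intro n _
  constructor
  · rintro ⟨h1, h2⟩
    exact ⟨h2, h1⟩
  · rintro ⟨h1, h2⟩
    exact ⟨h2, h1⟩

private lemma bw_card (y d b : ℕ) (hd : 1 ≤ d) :
    ((Icc 1 y).filter (fun n => n % d = b % d)).card ≤ y / d + 1 := by
  have h : ((Icc 1 y).filter (fun n => n % d = b % d)).card ≤ (range (y / d + 1)).card := by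
    apply Finset.card_le_card_of_injOn (fun n => n / d)
    · intro n hn
      rw [Finset.mem_coe, Finset.mem_filter, Finset.mem_Icc] at hn
      rw [Finset.mem_coe, Finset.mem_range]
      have := Nat.div_le_div_right (c := d) hn.1.2
      show n / d < y / d + 1
      omega
    · intro a ha c hc hac
      rw [Finset.mem_coe, Finset.mem_filter] at ha hc
      have h1 := Nat.div_add_mod a d
      have h2 := Nat.div_add_mod c d
      have h3 : a / d = c / d := hac
      rw [ha.2, h3] at h1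
      rw [hc.2] at h2
      omega
  rwa [Finset.card_range] at h

/-- trivial bound -/
private lemma bw_triv {x y d b : ℕ} (hx : 2 ≤ x) (hL : 1 ≤ Real.log x) (hy : y ≤ 2 * x) (hd : 1 ≤ d)
    (hdx : d ≤ x) :
    |∑ n ∈ (Icc 1 y).filter (fun n => n % d = b % d), lp n - y / (d.totient : ℝ)| ≤
      8 * x * Real.log x * ((d.divisors.card : ℝ) / d) := by
  set L := Real.log x with hLdef
  have hx0 : (0 : ℝ) < x := by
    have : 0 < x := by omega
    exact_mod_cast this
  have hd0 : (0 : ℝ) < d := by exact_mod_cast hd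
  have hτ : (1 : ℝ) ≤ d.divisors.card := by
    have : 1 ≤ d.divisors.card := Finset.card_pos.2 ⟨1, Nat.one_mem_divisors.2 (by omega)⟩
    exact_mod_cast this
  have hlog2 : Real.log (2 * x) ≤ 2 * L := by
    have h1 : Real.log (2 * x) ≤ Real.log (x ^ 2) := by
      apply Real.log_le_log (by positivity)
      have : (2 : ℝ) ≤ x := by exact_mod_cast hx
      nlinarith only [this]
    rw [Real.log_pow] at h1
    push_cast at h1
    exact h1
  have h1 : ∑ n ∈ (Icc 1 y).filter (fun n => n % d = b % d), lp n ≤ 6 * x * L / d := by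
    have h2 : ∀ n ∈ (Icc 1 y).filter (fun n => n % d = b % d), lp n ≤ 2 * L := by
      intro n hn
      rw [Finset.mem_filter, Finset.mem_Icc] at hn
      refine (lp_le n).trans (le_trans (Real.log_le_log ?_ ?_) hlog2)
      · have : 0 < n := by omega
        exact_mod_cast this
      · have : n ≤ 2 * x := by omega
        exact_mod_cast this
    have h3 := Finset.sum_le_card_nsmul _ _ _ h2
    rw [nsmul_eq_mul] at h3
    refine h3.trans ?_
    have h4 : (((Icc 1 y).filter (fun n => n % d = b % d)).card : ℝ) ≤ 3 * x / d := by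
      have h5 : ((((Icc 1 y).filter (fun n => n % d = b % d)).card : ℕ) : ℝ) ≤
          ((y / d + 1 : ℕ) : ℝ) := by exact_mod_cast bw_card y d b hd
      refine h5.trans ?_
      push_cast
      have h6 : ((y / d : ℕ) : ℝ) ≤ (y : ℝ) / d := Nat.cast_div_le
      have h7 : (y : ℝ) ≤ 2 * x := by exact_mod_cast hy
      have h8 : (d : ℝ) ≤ x := by exact_mod_cast hdx
      have h9 : (y : ℝ) / d + 1 ≤ 3 * x / d := by
        rw [div_add_one hd0.ne']
        apply div_le_div_of_nonneg_right _ hd0.le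
        linarith only [h7, h8]
      linarith only [h6, h9]
    calc (((Icc 1 y).filter (fun n => n % d = b % d)).card : ℝ) * (2 * L) ≤
          3 * x / d * (2 * L) := mul_le_mul_of_nonneg_right h4 (by linarith only [hL])
      _ = 6 * x * L / d := by ring
  have h2 : 0 ≤ ∑ n ∈ (Icc 1 y).filter (fun n => n % d = b % d), lp n :=
    Finset.sum_nonneg fun n _ => lp_nonneg n
  have h3 : (y : ℝ) / d.totient ≤ 2 * x * (d.divisors.card / d) := by
    have h7 : (y : ℝ) ≤ 2 * x := by exact_mod_cast hy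
    have h8 := bw_totient hd
    have h9 : (0 : ℝ) ≤ 1 / d.totient := by positivity
    calc (y : ℝ) / d.totient = y * (1 / d.totient) := by ring
      _ ≤ 2 * x * (1 / d.totient) := mul_le_mul_of_nonneg_right h7 h9
      _ ≤ 2 * x * (d.divisors.card / d) := mul_le_mul_of_nonneg_left h8 (by positivity)
  have h4 : (0 : ℝ) ≤ y / d.totient := by positivity
  have h5 : 6 * x * L / d ≤ 6 * x * L * (d.divisors.card / d) := by
    rw [mul_div_assoc']
    apply div_le_div_of_nonneg_right _ hd0.le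
    have : 0 ≤ 6 * x * L := by positivity
    nlinarith only [hτ, this]
  have h6 : 2 * x * ((d.divisors.card : ℝ) / d) ≤ 2 * x * L * (d.divisors.card / d) := by
    have h7 : (0 : ℝ) ≤ 2 * x * (d.divisors.card / d) := by positivity
    nlinarith only [hL, h3, h4]
  have h7 : 8 * x * L * ((d.divisors.card : ℝ) / d) =
      6 * x * L * (d.divisors.card / d) + 2 * x * L * (d.divisors.card / d) := by ring
  rw [abs_le, h7]
  constructor <;> linarith only [h1, h2, h3, h5, h6, h4]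

/-- classes not coprime to the modulus -/
private lemma bw_ncop {z x y d b : ℕ} (hd : 1 ≤ d) (hdx : d ≤ x)
    (hsm : ∀ p : ℕ, p.Prime → p ∣ d → p ≤ z) (hb : ¬ b.Coprime d) :
    |∑ n ∈ (Icc 1 y).filter (fun n => n % d = b % d), ff z n| ≤ Real.log x := by
  have hx1 : 1 ≤ x := hd.trans hdx
  have hL0 : 0 ≤ Real.log x := Real.log_natCast_nonneg x
  obtain ⟨p, hp, hpb, hpd⟩ := Nat.Prime.not_coprime_iff_dvd.mp hb
  have hpz := hsm p hp hpd
  have hdvd : ∀ n : ℕ, n % d = b % d → p ∣ n := by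
    intro n hn
    have h1 : n ≡ b [MOD p] := Nat.ModEq.of_dvd hpd hn
    exact (h1.dvd_iff (dvd_refl p)).mpr hpb
  have h1 : ∀ n ∈ (Icc 1 y).filter (fun n => n % d = b % d), ff z n =
      if n = p then Real.log p else 0 := by
    intro n hn
    rw [Finset.mem_filter] at hn
    have hpn := hdvd n hn.2
    have h2 : nuz z n = 0 := by
      unfold nuz Pool.Agent.HLB.ic
      rw [if_neg, mul_zero]
      intro h
      exact h p (Nat.mem_primesLE.2 ⟨hpz, hp⟩) hpn
    unfold ff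
    rw [h2, sub_zero]
    unfold Pool.Agent.HLT.lp
    by_cases hnp : n.Prime
    · have h3 : n = p := ((Nat.prime_dvd_prime_iff_eq hp hnp).1 hpn).symm
      rw [if_pos hnp, if_pos h3, h3]
    · rw [if_neg hnp, if_neg]
      intro h3
      exact hnp (h3 ▸ hp)
  rw [Finset.sum_congr rfl h1, Finset.sum_ite_eq']
  have hpx : Real.log p ≤ Real.log x := by
    apply Real.log_le_log (by exact_mod_cast hp.pos)
    have : p ≤ x := (Nat.le_of_dvd hd hpd).trans hdx
    exact_mod_cast this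
  have hp0 : 0 ≤ Real.log p := Real.log_natCast_nonneg p
  split_ifs
  · rw [abs_of_nonneg hp0]
    exact hpx
  · rw [abs_zero]
    exact hL0

private lemma bw_event (C K' B : ℕ) : ∀ᶠ x : ℕ in atTop, (C : ℝ) ≤ Real.log x ∧
    Real.log x ≤ (x : ℝ) ^ (1 / 10 : ℝ) ∧
    8 * (2 * Real.log x) ^ K' * Real.log x ^ B ≤ (x : ℝ) ^ (17 / 20 : ℝ) ∧ 2 ≤ x := by
  have hc : Tendsto (fun x : ℕ => (x : ℝ)) atTop atTop := tendsto_natCast_atTop_atTop
  have hl : Tendsto (fun x : ℕ => Real.log x) atTop atTop := Real.tendsto_log_atTop.comp hc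
  have h1 : ∀ᶠ x : ℕ in atTop, Real.log x ≤ (x : ℝ) ^ (1 / 10 : ℝ) := by
    have h2 := (isLittleO_log_rpow_atTop (show (0 : ℝ) < 1 / 10 by norm_num)).bound
      (show (0 : ℝ) < 1 by norm_num)
    filter_upwards [hc.eventually h2, hl.eventually_ge_atTop 0] with x hx hx0
    rw [Real.norm_eq_abs, Real.norm_eq_abs, abs_of_nonneg hx0,
      abs_of_nonneg (by positivity), one_mul] at hx
    exact hx
  have h3 : ∀ᶠ x : ℕ in atTop, 8 * (2 * Real.log x) ^ K' * Real.log x ^ B ≤
      (x : ℝ) ^ (17 / 20 : ℝ) := by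
    have h4 : (fun x : ℝ => Real.log x ^ ((K' + B : ℕ) : ℝ)) =o[atTop]
        (fun x : ℝ => x ^ (17 / 20 : ℝ)) :=
      isLittleO_log_rpow_rpow_atTop _ (by norm_num)
    have h5 := h4.bound (show (0 : ℝ) < 1 / (8 * 2 ^ K') by positivity)
    filter_upwards [hc.eventually h5, hl.eventually_ge_atTop 0] with x hx hx0
    rw [Real.norm_eq_abs, Real.norm_eq_abs, abs_of_nonneg (by positivity),
      abs_of_nonneg (by positivity), Real.rpow_natCast] at hx
    have h6 : 8 * (2 * Real.log x) ^ K' * Real.log x ^ B =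
        (8 * 2 ^ K') * Real.log x ^ (K' + B) := by
      rw [mul_pow, pow_add]; ring
    rw [h6]
    calc (8 * 2 ^ K') * Real.log x ^ (K' + B) ≤
          (8 * 2 ^ K') * (1 / (8 * 2 ^ K') * (x : ℝ) ^ (17 / 20 : ℝ)) :=
          mul_le_mul_of_nonneg_left hx (by positivity)
      _ = (x : ℝ) ^ (17 / 20 : ℝ) := by field_simp
  filter_upwards [hl.eventually_ge_atTop (C : ℝ), h1, h3, eventually_ge_atTop 2] with x a1 a2 a3 a4
  exact ⟨a1, a2, a3, a4⟩

theorem bv_weighted (A k B : ℕ) : ∀ᶠ x : ℕ in atTop, ∃ E : ℕ → ℝ, (∀ d, 0 ≤ E d) ∧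
    (∀ Q : ℕ, (Q : ℝ) ≤ (x : ℝ) ^ (1 / 20 : ℝ) → ∑ d ∈ Icc 1 Q, (d.divisors.card : ℝ) ^ k * E d ≤ x / Real.log x ^ B) ∧
    ∀ d : ℕ, 1 ≤ d → (d : ℝ) ≤ (x : ℝ) ^ (1 / 20 : ℝ) → (∀ p : ℕ, p.Prime → p ∣ d → p ≤ zA A x) → ∀ b y : ℕ, y ≤ 2 * x →
      |∑ n ∈ (Icc 1 y).filter (fun n => n % d = b % d), ff (zA A x) n| ≤ E d := by
  classical
  set K : ℕ := 2 ^ (2 * k + 1) with hK
  set K' : ℕ := 2 ^ k with hK'
  set D : ℕ := K + B + 2 with hD
  set A1 : ℕ := D + B + 1 with hA1
  set B2 : ℕ := K' + B + 1 with hB2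
  obtain ⟨C, x₀, hC, hbv⟩ := Pool.Agent.Lib.BV.bv_weak A1
  obtain ⟨C1, hC1⟩ := exists_nat_ge (4 * (2 * C + 8 * 2 ^ K + 2 ^ K' + 1))
  have hc : Tendsto (fun x : ℕ => (x : ℝ)) atTop atTop := tendsto_natCast_atTop_atTop
  filter_upwards [nu_smooth A B2, bw_event C1 K' B, hc.eventually_ge_atTop x₀]
    with x hnu hev hx0
  obtain ⟨hLC, hL10, hx17, hx2⟩ := hev
  set L : ℝ := Real.log x with hL
  set z : ℕ := zA A x with hz
  have hxpos : (0 : ℝ) < x := by
    have : 0 < x := by omega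
    exact_mod_cast this
  have hx1 : (1 : ℝ) ≤ x := by
    have : 1 ≤ x := by omega
    exact_mod_cast this
  have hLbig : 4 * (2 * C + 8 * 2 ^ K + 2 ^ K' + 1) ≤ L := hC1.trans hLC
  have hp1 : (0 : ℝ) < 2 ^ K := by positivity
  have hp2 : (0 : ℝ) < 2 ^ K' := by positivity
  have hL1 : 1 ≤ L := by linarith only [hC, hC1, hLC, hp1, hp2]
  have hL0 : 0 < L := by linarith only [hC, hC1, hLC, hp1, hp2]
  obtain ⟨E0, hE0, hsumE0, hbound⟩ := hbv (2 * x) (by linarith only [hx0, hxpos])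
  have hfl : ∀ q : ℕ, (q : ℝ) ≤ (x : ℝ) ^ (1 / 20 : ℝ) → q ≤ ⌊(2 * (x : ℝ)) ^ (1 / 20 : ℝ)⌋₊ := by
    intro q hq
    apply Nat.le_floor
    refine hq.trans (Real.rpow_le_rpow hxpos.le (by linarith only [hxpos]) (by norm_num))
  have hx20 : (x : ℝ) ^ (1 / 20 : ℝ) ≤ x := by
    calc (x : ℝ) ^ (1 / 20 : ℝ) ≤ (x : ℝ) ^ (1 : ℝ) :=
          Real.rpow_le_rpow_of_exponent_le hx1 (by norm_num)
      _ = x := Real.rpow_one _
  set T : ℕ → ℝ := fun d => 8 * x * L * ((d.divisors.card : ℝ) / d) with hT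
  have hT0 : ∀ d, 0 ≤ T d := fun d => by simp only [hT]; (clear * - hx2 hL1; positivity)
  refine ⟨fun d => min (E0 d) (T d) + x / (d * L ^ B2) + ((x : ℝ) ^ (1 / 10 : ℝ) + L), ?_, ?_, ?_⟩
  · intro d
    have h1 : 0 ≤ min (E0 d) (T d) := le_min (hE0 d) (hT0 d)
    have h2 : (0 : ℝ) ≤ x / (d * L ^ B2) := by (clear * - hx2 hL1; positivity)
    have h3 : (0 : ℝ) ≤ (x : ℝ) ^ (1 / 10 : ℝ) := by (clear * - hx2; positivity)
    simp only
    linarith only [hC, hC1, hLC, hL10, hp1, hp2, h1, h2]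
  · intro Q hQ
    have hlogQ0 : 0 ≤ Real.log Q := Real.log_natCast_nonneg Q
    have hlogQ : 1 + Real.log Q ≤ 2 * L := by
      rcases Nat.eq_zero_or_pos Q with h0 | h0
      · rw [h0, Nat.cast_zero, Real.log_zero]; linarith only [hC, hC1, hLC, hp1, hp2]
      · have h1 : Real.log Q ≤ L := by
          apply Real.log_le_log (by exact_mod_cast h0)
          exact hQ.trans hx20
        linarith only [hC, hC1, hLC, hp1, hp2, h1]
    -- part 1
    have hmain : ∀ d ∈ Icc 1 Q, (d.divisors.card : ℝ) ^ k * min (E0 d) (T d) ≤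
        L ^ D * E0 d + 8 * x * L * ((d.divisors.card : ℝ) ^ (2 * k + 1) / d) / L ^ D := by
      intro d hd
      rw [Finset.mem_Icc] at hd
      have hd0 : (0 : ℝ) < d := by
        have : 0 < d := by omega
        exact_mod_cast this
      have hτ0 : (0 : ℝ) ≤ (d.divisors.card : ℝ) ^ k := by (clear * -; positivity)
      have hm0 : 0 ≤ min (E0 d) (T d) := le_min (hE0 d) (hT0 d)
      have hLD : 0 < L ^ D := by (clear * - hL1; positivity)
      have e1 : 0 ≤ L ^ D * E0 d := mul_nonneg hLD.le (hE0 d)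
      have e2 : 0 ≤ 8 * x * L * ((d.divisors.card : ℝ) ^ (2 * k + 1) / d) / L ^ D := by (clear * - hx2 hL1 hd0; positivity)
      rcases le_or_gt ((d.divisors.card : ℝ) ^ k) (L ^ D) with h1 | h1
      · have h2 : (d.divisors.card : ℝ) ^ k * min (E0 d) (T d) ≤ L ^ D * E0 d :=
          mul_le_mul h1 (min_le_left _ _) hm0 hLD.le
        linarith only [e2, h2]
      · have h2 : (d.divisors.card : ℝ) ^ k * min (E0 d) (T d) ≤
            (d.divisors.card : ℝ) ^ k * T d :=
          mul_le_mul_of_nonneg_left (min_le_right _ _) hτ0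
        have h3 : (d.divisors.card : ℝ) ^ k * T d ≤
            8 * x * L * ((d.divisors.card : ℝ) ^ (2 * k + 1) / d) / L ^ D := by
          rw [le_div_iff₀ hLD]
          calc (d.divisors.card : ℝ) ^ k * T d * L ^ D ≤
              (d.divisors.card : ℝ) ^ k * T d * (d.divisors.card : ℝ) ^ k :=
                mul_le_mul_of_nonneg_left h1.le (mul_nonneg hτ0 (hT0 d))
            _ = 8 * x * L * ((d.divisors.card : ℝ) ^ (2 * k + 1) / d) := by
                simp only [hT]
                rw [pow_succ, pow_mul', sq]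
                ring
        linarith only [e1, h2, h3]
    have hs1 : ∑ d ∈ Icc 1 Q, (d.divisors.card : ℝ) ^ k * min (E0 d) (T d) ≤
        x / L ^ B * ((2 * C + 8 * 2 ^ K) / L) := by
      refine (Finset.sum_le_sum hmain).trans ?_
      rw [Finset.sum_add_distrib, ← Finset.mul_sum, ← Finset.sum_div, ← Finset.mul_sum]
      have a1 : ∑ d ∈ Icc 1 Q, E0 d ≤ 2 * C * x / L ^ A1 := by
        have a2 : ∑ d ∈ Icc 1 Q, E0 d ≤
            ∑ d ∈ Icc 1 ⌊(2 * (x : ℝ)) ^ (1 / 20 : ℝ)⌋₊, E0 d := by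
          apply Finset.sum_le_sum_of_subset_of_nonneg
          · exact Finset.Icc_subset_Icc_right (hfl Q hQ)
          · intro d _ _
            exact hE0 d
        refine a2.trans (hsumE0.trans ?_)
        have a3 : L ≤ Real.log (2 * x) := Real.log_le_log hxpos (by linarith only [hxpos])
        have a4 : L ^ A1 ≤ Real.log (2 * x) ^ A1 := pow_le_pow_left₀ hL0.le a3 _
        have a5 : C * (2 * (x : ℝ)) = 2 * C * x := by ring
        rw [a5]
        exact div_le_div_of_nonneg_left (by (clear * - hC hx2; positivity)) (by (clear * - hL1; positivity)) a4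
      have a6 := sum_tau_pow_div (2 * k + 1) Q
      have a7 : (1 + Real.log Q) ^ (2 ^ (2 * k + 1)) ≤ (2 * L) ^ K :=
        pow_le_pow_left₀ (by linarith only [hlogQ0]) hlogQ _
      have a8 : L ^ D * ∑ d ∈ Icc 1 Q, E0 d ≤ x / L ^ B * (2 * C / L) := by
        calc L ^ D * ∑ d ∈ Icc 1 Q, E0 d ≤ L ^ D * (2 * C * x / L ^ A1) :=
              mul_le_mul_of_nonneg_left a1 (by (clear * - hL1; positivity))
          _ = x / L ^ B * (2 * C / L) := by
              have e1 : L ^ A1 = L ^ D * L ^ B * L := by rw [hA1, pow_succ, pow_add]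
              have e2 : L ^ D ≠ 0 := by (clear * - hL1; positivity)
              rw [e1]
              generalize L ^ D = W at e2
              field_simp
      have a9 : 8 * x * L * ∑ d ∈ Icc 1 Q, (d.divisors.card : ℝ) ^ (2 * k + 1) / d ≤
          8 * x * L * (2 * L) ^ K := mul_le_mul_of_nonneg_left (a6.trans a7) (by (clear * - hx2 hL1; positivity))
      have a10 : (8 * x * L * ∑ d ∈ Icc 1 Q, (d.divisors.card : ℝ) ^ (2 * k + 1) / d) / L ^ D ≤
          x / L ^ B * (8 * 2 ^ K / L) := by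
        refine (div_le_div_of_nonneg_right a9 (by (clear * - hL1; positivity))).trans (le_of_eq ?_)
        rw [hD, mul_pow, show K + B + 2 = K + B + 1 + 1 from rfl, pow_succ, pow_succ, pow_add]
        field_simp
      calc _ ≤ x / L ^ B * (2 * C / L) + x / L ^ B * (8 * 2 ^ K / L) := add_le_add a8 a10
        _ = _ := by ring
    -- part 2
    have hs2 : ∑ d ∈ Icc 1 Q, (d.divisors.card : ℝ) ^ k * (x / (d * L ^ B2)) ≤
        x / L ^ B * (2 ^ K' / L) := by
      have b1 : ∀ d ∈ Icc 1 Q, (d.divisors.card : ℝ) ^ k * (x / (d * L ^ B2)) =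
          x / L ^ B2 * ((d.divisors.card : ℝ) ^ k / d) := by
        intro d hd
        rw [Finset.mem_Icc] at hd
        have hd0 : (0 : ℝ) < d := by
          have : 0 < d := by omega
          exact_mod_cast this
        field_simp
      rw [Finset.sum_congr rfl b1, ← Finset.mul_sum]
      have b2 := sum_tau_pow_div k Q
      have b3 : (1 + Real.log Q) ^ (2 ^ k) ≤ (2 * L) ^ K' :=
        pow_le_pow_left₀ (by linarith only [hlogQ0]) hlogQ _
      calc x / L ^ B2 * ∑ d ∈ Icc 1 Q, (d.divisors.card : ℝ) ^ k / d ≤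
            x / L ^ B2 * (2 * L) ^ K' := mul_le_mul_of_nonneg_left (b2.trans b3) (by (clear * - hx2 hL1; positivity))
        _ = x / L ^ B * (2 ^ K' / L) := by
            rw [hB2, mul_pow, pow_succ, pow_add]
            field_simp
    -- part 3
    have hs3 : ∑ d ∈ Icc 1 Q, (d.divisors.card : ℝ) ^ k * ((x : ℝ) ^ (1 / 10 : ℝ) + L) ≤
        x / L ^ B * (1 / 4) := by
      rw [← Finset.sum_mul]
      have c1 := sum_tau_pow k Q
      have c2 : (1 + Real.log Q) ^ (2 ^ k) ≤ (2 * L) ^ K' :=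
        pow_le_pow_left₀ (by linarith only [hlogQ0]) hlogQ _
      have c3 : (Q : ℝ) * (1 + Real.log Q) ^ (2 ^ k) ≤ (x : ℝ) ^ (1 / 20 : ℝ) * (2 * L) ^ K' :=
        mul_le_mul hQ c2 (by (clear * -; positivity)) (by (clear * - hx2; positivity))
      have c4 : (x : ℝ) ^ (1 / 10 : ℝ) + L ≤ 2 * (x : ℝ) ^ (1 / 10 : ℝ) := by linarith only [hL10]
      have c5 : (x : ℝ) = (x : ℝ) ^ (1 / 20 : ℝ) * (x : ℝ) ^ (1 / 10 : ℝ) *
          (x : ℝ) ^ (17 / 20 : ℝ) := by
        rw [← Real.rpow_add hxpos, ← Real.rpow_add hxpos]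
        norm_num
      have hLB : 0 < L ^ B := by (clear * - hL1; positivity)
      calc (∑ d ∈ Icc 1 Q, (d.divisors.card : ℝ) ^ k) * ((x : ℝ) ^ (1 / 10 : ℝ) + L) ≤
            ((x : ℝ) ^ (1 / 20 : ℝ) * (2 * L) ^ K') * (2 * (x : ℝ) ^ (1 / 10 : ℝ)) :=
            mul_le_mul (c1.trans c3) c4 (by (clear * - hx2 hL1; positivity)) (by (clear * - hx2 hL1; positivity))
        _ = (x : ℝ) ^ (1 / 20 : ℝ) * (x : ℝ) ^ (1 / 10 : ℝ) *
            (8 * (2 * L) ^ K' * L ^ B) / L ^ B * (1 / 4) := by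
            field_simp
            ring
        _ ≤ (x : ℝ) ^ (1 / 20 : ℝ) * (x : ℝ) ^ (1 / 10 : ℝ) *
            (x : ℝ) ^ (17 / 20 : ℝ) / L ^ B * (1 / 4) := by gcongr
        _ = x / L ^ B * (1 / 4) := by rw [← c5]
    have hsum : ∑ d ∈ Icc 1 Q, (d.divisors.card : ℝ) ^ k *
        (min (E0 d) (T d) + x / (d * L ^ B2) + ((x : ℝ) ^ (1 / 10 : ℝ) + L)) =
        ∑ d ∈ Icc 1 Q, (d.divisors.card : ℝ) ^ k * min (E0 d) (T d) +
        ∑ d ∈ Icc 1 Q, (d.divisors.card : ℝ) ^ k * (x / (d * L ^ B2)) +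
        ∑ d ∈ Icc 1 Q, (d.divisors.card : ℝ) ^ k * ((x : ℝ) ^ (1 / 10 : ℝ) + L) := by
      rw [← Finset.sum_add_distrib, ← Finset.sum_add_distrib]
      refine Finset.sum_congr rfl fun d _ => ?_
      ring
    simp only
    rw [hsum]
    have hfin : (2 * C + 8 * 2 ^ K) / L + 2 ^ K' / L + 1 / 4 ≤ 1 := by
      rw [← add_div]
      have : (2 * C + 8 * 2 ^ K + 2 ^ K') / L ≤ 1 / 4 := by
        rw [div_le_iff₀ hL0]
        linarith only [hC1, hLC]
      linarith only [this]
    have hxL : 0 ≤ x / L ^ B := by (clear * - hx2 hL1; positivity)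
    calc _ ≤ x / L ^ B * ((2 * C + 8 * 2 ^ K) / L) + x / L ^ B * (2 ^ K' / L) +
          x / L ^ B * (1 / 4) := add_le_add (add_le_add hs1 hs2) hs3
      _ = x / L ^ B * ((2 * C + 8 * 2 ^ K) / L + 2 ^ K' / L + 1 / 4) := by ring
      _ ≤ x / L ^ B * 1 := mul_le_mul_of_nonneg_left hfin hxL
      _ = x / L ^ B := mul_one _
  · intro d hd1 hdx hsm b y hy
    have hdxn : d ≤ x := by
      have : (d : ℝ) ≤ x := hdx.trans hx20
      exact_mod_cast this
    have h10 : (0 : ℝ) ≤ (x : ℝ) ^ (1 / 10 : ℝ) := by (clear * - hx2; positivity)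
    have hmin0 : 0 ≤ min (E0 d) (T d) := le_min (hE0 d) (hT0 d)
    have hdiv0 : (0 : ℝ) ≤ x / (d * L ^ B2) := by (clear * - hx2 hL1 hd1; positivity)
    simp only
    by_cases hb : b.Coprime d
    · have h1 : |∑ n ∈ (Icc 1 y).filter (fun n => n % d = b % d), lp n -
          y / (d.totient : ℝ)| ≤ min (E0 d) (T d) := by
        apply le_min
        · rcases Nat.eq_zero_or_pos y with h0 | h0
          · rw [h0]
            simp [hE0 d]
          · rw [bw_lp]
            exact hbound d (Finset.mem_Icc.2 ⟨hd1, hfl d hdx⟩) b hb y (by exact_mod_cast h0)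
              (by exact_mod_cast hy)
        · exact bw_triv hx2 hL1 hy hd1 hdxn
      have h2 := hnu y d b hy hd1 hdx hsm hb
      have h3 : ∑ n ∈ (Icc 1 y).filter (fun n => n % d = b % d), ff z n =
          (∑ n ∈ (Icc 1 y).filter (fun n => n % d = b % d), lp n - y / (d.totient : ℝ)) -
          (∑ n ∈ (Icc 1 y).filter (fun n => n % d = b % d), nuz z n - y / (d.totient : ℝ)) := by
        unfold ff
        rw [Finset.sum_sub_distrib]
        ring
      rw [h3]
      have h4 := abs_sub (∑ n ∈ (Icc 1 y).filter (fun n => n % d = b % d), lp n -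
        y / (d.totient : ℝ)) (∑ n ∈ (Icc 1 y).filter (fun n => n % d = b % d), nuz z n -
          y / (d.totient : ℝ))
      linarith only [hC, hC1, hLC, hp1, hp2, h1, h2, h4]
    · have h1 := bw_ncop (z := z) (x := x) (y := y) hd1 hdxn hsm hb
      linarith only [hC, hC1, hLC, hL10, hp1, hp2, hmin0, hdiv0, h1]

end Pool.Agent.VK
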