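import Pool.Agent.Lib.HLT.Correl
import Pool.Agent.Lib.HLU.Base
import Pool.Agent.Lib.VK.BVW

/-!
# The fixed shift `c`: ALL tuples `t`

PROOF SKETCH. `z = zA A' x`, `L = log x`. `pn z univ t n = (DZ z)^(-m) [∀ p ≤ z, n % p ∉ F p]`, `F p = exres t p` (see `HLT/Correl.lean`), `(F p).card ≤ m`. With `k` even from `brun_fine m A' (A + m + 10)` and
`TT`, `EE` as in `HLT/BrunDet.lean` (`brunH F n p` the indicator of `n % p ∈ F p`): `|[∀ p, n % p ∉ F p] - TT P (brunH F n) k| ≤ EE P (brunH F n) (k+1)`.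
* Error: `∑_n |ff z (n+c)| EE ≤ L^2 ∑_(n ≤ y) EE ≤ L^2 (x/L^(A+m+10) + x^(1/20))` (as in the proof of `brun_det`: `brun_EE`, `brun_err`).
* Main: `TT = ∑_(s ⊆ P, |s| ≤ k) (-1)^|s| ∏_(p ∈ s) [n % p ∈ F p]`. For fixed `s`, `d = ∏ p ∈ s` (squarefree, all primes `≤ z`, `d ≤ (1+z)^k ≤ x^(1/20)`), the set of `n` with `n % p ∈ F p` for all `p ∈ s` is a union of at most
  `m^|s| ≤ τ(d)^m` classes modulo `d` (`m ≤ 2^m`, `τ(d) = 2^|s|`; CRT: as in `HLB.hits_eq_sum_classes`), and in each class `|∑_(n ≤ y) ff z (n+c)| ≤ 2 E d` (difference of the sums over `n ≤ y + c` and `n ≤ c`, `y + c ≤ 2x`).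
  Different `s` give different `d`: total `≤ 2 ∑_(d ≤ Q) τ(d)^m E d ≤ 2 x/L^(A+m+2)` by `bv_weighted A' m (A + m + 2)`.
* Multiply by `(DZ z)^(-m) ≤ L^m`.
-/

set_option autoImplicit false

open Finset Filter

namespace Pool.Agent.VK

open Pool.Agent.HLT Pool.Agent.HLU

namespace FirstAllAux

open Pool.Agent.HLB

lemma tau_prod (s : Finset ℕ) (hs : ∀ p ∈ s, p.Prime) :
    (∏ p ∈ s, p).divisors.card = 2 ^ s.card := by
  induction s using Finset.induction_on with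
  | empty => simp
  | insert p s hp ih =>
    have hpp : p.Prime := hs p (Finset.mem_insert_self p s)
    have hs' : ∀ q ∈ s, q.Prime := fun q hq => hs q (Finset.mem_insert_of_mem hq)
    have hcop : p.Coprime (∏ q ∈ s, q) := by
      refine Nat.Coprime.prod_right fun q hq => ?_
      rw [Nat.coprime_primes hpp (hs' q hq)]
      rintro rfl
      exact hp hq
    rw [Finset.prod_insert hp, hcop.card_divisors_mul, ih hs', Finset.card_insert_of_notMem hp,
      hpp.divisors, Finset.card_pair hpp.one_lt.ne, pow_succ, mul_comm]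

lemma sum_shift (g : ℕ → ℝ) (c y : ℕ) :
    ∑ n ∈ Icc 1 (y + c), g n = ∑ n ∈ Icc 1 c, g n + ∑ n ∈ Icc 1 y, g (n + c) := by
  induction y with
  | zero => simp
  | succ y ih =>
    rw [show y + 1 + c = y + c + 1 by ring, Finset.sum_Icc_succ_top (by omega), ih,
      Finset.sum_Icc_succ_top (by omega), show y + 1 + c = y + c + 1 by ring]
    ring

lemma class_shift (w : ℕ → ℝ) (y c d b : ℕ) :
    ∑ n ∈ (Icc 1 y).filter (fun n => n % d = b % d), w (n + c) =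
      ∑ n ∈ (Icc 1 (y + c)).filter (fun n => n % d = (b + c) % d), w n -
      ∑ n ∈ (Icc 1 c).filter (fun n => n % d = (b + c) % d), w n := by
  rw [Finset.sum_filter, Finset.sum_filter, Finset.sum_filter,
    sum_shift (fun n => if n % d = (b + c) % d then w n else 0), add_sub_cancel_left]
  refine Finset.sum_congr rfl fun n _ => ?_
  have h : n % d = b % d ↔ (n + c) % d = (b + c) % d :=
    ⟨fun h => Nat.ModEq.add_right c h, fun h => Nat.ModEq.add_right_cancel' c h⟩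
  by_cases h1 : n % d = b % d
  · rw [if_pos h1, if_pos (h.1 h1)]
  · rw [if_neg h1, if_neg (fun h2 => h1 (h.2 h2))]

lemma prod_brunH (F : ℕ → Finset ℕ) (s : Finset ℕ) (n : ℕ) :
    ∏ p ∈ s, brunH F n p = if (∀ q ∈ s, n % q ∈ F q) then (1 : ℝ) else 0 := by
  unfold brunH
  rw [Finset.prod_ite_zero]
  simp

/-- one set of primes -/
lemma one_set {w E : ℕ → ℝ} {F : ℕ → Finset ℕ} {s : Finset ℕ} {m c y z : ℕ}
    (hs : ∀ p ∈ s, p.Prime) (hz : ∀ p ∈ s, p ≤ z)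
    (hF : ∀ p ∈ s, F p ⊆ range p ∧ (F p).card ≤ m)
    (hE : ∀ b y', y' ≤ y + c →
      |∑ n ∈ (Icc 1 y').filter (fun n => n % (∏ p ∈ s, p) = b % (∏ p ∈ s, p)), w n| ≤
        E (∏ p ∈ s, p)) :
    |∑ n ∈ Icc 1 y, w (n + c) * ∏ p ∈ s, brunH F n p| ≤
      ((∏ p ∈ s, p).divisors.card : ℝ) ^ m * (2 * E (∏ p ∈ s, p)) := by
  set d := ∏ p ∈ s, p with hd
  have hE0 : 0 ≤ E d := (abs_nonneg _).trans (hE 0 0 (Nat.zero_le _))
  have h1 : ∑ n ∈ Icc 1 y, w (n + c) * ∏ p ∈ s, brunH F n p =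
      ∑ n ∈ (Icc 1 y).filter (fun n => ∀ q ∈ s, n % q ∈ F q), w (n + c) := by
    rw [Finset.sum_filter]
    refine Finset.sum_congr rfl fun n _ => ?_
    rw [prod_brunH]
    split_ifs <;> ring
  rw [h1, hits_eq_sum_classes s hs F (Icc 1 y) (fun n => w (n + c)), ← hd]
  refine (Finset.abs_sum_le_sum_abs _ _).trans ?_
  have h2 : ∀ b ∈ (range d).filter (fun b => ∀ q ∈ s, b % q ∈ F q),
      |∑ n ∈ (Icc 1 y).filter (fun n => n % d = b % d), w (n + c)| ≤ 2 * E d := by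
    intro b _
    rw [class_shift]
    have h3 := hE (b + c) (y + c) le_rfl
    have h4 := hE (b + c) c (by omega)
    refine (abs_sub _ _).trans ?_
    linarith
  refine (Finset.sum_le_sum h2).trans ?_
  rw [Finset.sum_const, nsmul_eq_mul]
  have h5 := card_hits s hs F (fun p hp => (hF p hp).1)
  rw [← hd] at h5
  rw [h5]
  refine mul_le_mul_of_nonneg_right ?_ (by linarith)
  rw [tau_prod s hs]
  calc ∏ q ∈ s, ((F q).card : ℝ) ≤ ∏ _q ∈ s, (2 : ℝ) ^ m := by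
        refine Finset.prod_le_prod (fun _ _ => Nat.cast_nonneg _) fun q hq => ?_
        have e1 : ((F q).card : ℝ) ≤ m := by exact_mod_cast (hF q hq).2
        have e2 : (m : ℝ) ≤ 2 ^ m := by exact_mod_cast (Nat.lt_two_pow_self (n := m)).le
        exact e1.trans e2
    _ = _ := by
        rw [Finset.prod_const, ← pow_mul, mul_comm m s.card]
        push_cast
        rw [← pow_mul]

lemma prod_le_pow (s : Finset ℕ) (z k : ℕ) (hs : ∀ p ∈ s, p ≤ z) (hk : s.card ≤ k) :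
    ∏ p ∈ s, p ≤ (1 + z) ^ k := by
  calc ∏ p ∈ s, p ≤ ∏ _p ∈ s, (1 + z) := Finset.prod_le_prod' fun p hp => by
        have := hs p hp
        omega
    _ = (1 + z) ^ s.card := by rw [Finset.prod_const]
    _ ≤ (1 + z) ^ k := Nat.pow_le_pow_right (by omega) hk

/-- the main sum -/
lemma main_sum {w E : ℕ → ℝ} {F : ℕ → Finset ℕ} {m c y z k Q : ℕ}
    (hF : ∀ p ∈ Nat.primesLE z, F p ⊆ range p ∧ (F p).card ≤ m) (hE0 : ∀ d, 0 ≤ E d)
    (hQ : (1 + z) ^ k ≤ Q)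
    (hE : ∀ d, 1 ≤ d → d ≤ Q → (∀ p : ℕ, p.Prime → p ∣ d → p ≤ z) → ∀ b y', y' ≤ y + c →
      |∑ n ∈ (Icc 1 y').filter (fun n => n % d = b % d), w n| ≤ E d) :
    |∑ n ∈ Icc 1 y, w (n + c) * TT (Nat.primesLE z) (brunH F n) k| ≤
      2 * ∑ d ∈ Icc 1 Q, (d.divisors.card : ℝ) ^ m * E d := by
  classical
  set P := Nat.primesLE z with hP
  have hPp : ∀ p ∈ P, p.Prime := fun p hp => (Nat.mem_primesLE.1 hp).2
  have hPz : ∀ p ∈ P, p ≤ z := fun p hp => (Nat.mem_primesLE.1 hp).1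
  set S := P.powerset.filter (fun s => s.card ≤ k) with hS
  have hSm : ∀ s ∈ S, s ⊆ P ∧ s.card ≤ k := by
    intro s hs
    rw [hS, Finset.mem_filter, Finset.mem_powerset] at hs
    exact hs
  have h1 : ∑ n ∈ Icc 1 y, w (n + c) * TT P (brunH F n) k =
      ∑ s ∈ S, (-1) ^ s.card * ∑ n ∈ Icc 1 y, w (n + c) * ∏ p ∈ s, brunH F n p := by
    unfold TT
    rw [← hS]
    simp_rw [Finset.mul_sum]
    rw [Finset.sum_comm]
    refine Finset.sum_congr rfl fun s _ => Finset.sum_congr rfl fun n _ => ?_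
    ring
  rw [h1]
  refine (Finset.abs_sum_le_sum_abs _ _).trans ?_
  have h2 : ∀ s ∈ S, |(-1) ^ s.card * ∑ n ∈ Icc 1 y, w (n + c) * ∏ p ∈ s, brunH F n p| ≤
      2 * (((∏ p ∈ s, p).divisors.card : ℝ) ^ m * E (∏ p ∈ s, p)) := by
    intro s hs
    obtain ⟨hs1, hs2⟩ := hSm s hs
    rw [abs_mul, abs_pow, abs_neg, abs_one, one_pow, one_mul]
    have hsp : ∀ p ∈ s, p.Prime := fun p hp => hPp p (hs1 hp)
    have h3 := one_set (w := w) (E := E) (F := F) (m := m) (c := c) (y := y) (z := z) hsp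
      (fun p hp => hPz p (hs1 hp)) (fun p hp => hF p (hs1 hp)) (fun b y' hy' => by
        refine hE _ (Finset.prod_pos fun p hp => (hsp p hp).pos)
          ((prod_le_pow s z k (fun p hp => hPz p (hs1 hp)) hs2).trans hQ) ?_ b y' hy'
        intro p hp hpd
        obtain ⟨q, hq, hpq⟩ := (Prime.dvd_finsetProd_iff hp.prime _).1 hpd
        rw [(Nat.prime_dvd_prime_iff_eq hp (hsp q hq)).1 hpq]
        exact hPz q (hs1 hq))
    linarith only [h3]
  refine (Finset.sum_le_sum h2).trans ?_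
  rw [← Finset.mul_sum]
  refine mul_le_mul_of_nonneg_left ?_ (by norm_num)
  have hinj : Set.InjOn (fun s : Finset ℕ => ∏ p ∈ s, p) (S : Set (Finset ℕ)) := by
    intro s hs t ht hst
    have e1 := Nat.primeFactors_prod (fun p hp => hPp p ((hSm s hs).1 hp))
    have e2 := Nat.primeFactors_prod (fun p hp => hPp p ((hSm t ht).1 hp))
    simp only at hst
    rw [← e1, ← e2, hst]
  have h4 : ∑ s ∈ S, ((∏ p ∈ s, p).divisors.card : ℝ) ^ m * E (∏ p ∈ s, p) =
      ∑ d ∈ S.image (fun s => ∏ p ∈ s, p), (d.divisors.card : ℝ) ^ m * E d := by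
    rw [Finset.sum_image hinj]
  rw [h4]
  refine Finset.sum_le_sum_of_subset_of_nonneg ?_ fun d _ _ => by
    have := hE0 d
    positivity
  intro d hd
  obtain ⟨s, hs, rfl⟩ := Finset.mem_image.1 hd
  obtain ⟨hs1, hs2⟩ := hSm s hs
  rw [Finset.mem_Icc]
  exact ⟨Finset.prod_pos fun p hp => (hPp p (hs1 hp)).pos,
    (prod_le_pow s z k (fun p hp => hPz p (hs1 hp)) hs2).trans hQ⟩

/-- the deterministic estimate -/
lemma det {w E : ℕ → ℝ} {F : ℕ → Finset ℕ} {m c y z k Q : ℕ} {W : ℝ} (hk : Even k)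
    (hF : ∀ p ∈ Nat.primesLE z, F p ⊆ range p ∧ (F p).card ≤ m) (hE0 : ∀ d, 0 ≤ E d)
    (hQ : (1 + z) ^ k ≤ Q) (hW : ∀ n ∈ Icc 1 y, |w (n + c)| ≤ W) (hW0 : 0 ≤ W)
    (hE : ∀ d, 1 ≤ d → d ≤ Q → (∀ p : ℕ, p.Prime → p ∣ d → p ≤ z) → ∀ b y', y' ≤ y + c →
      |∑ n ∈ (Icc 1 y').filter (fun n => n % d = b % d), w n| ≤ E d) :
    |∑ n ∈ Icc 1 y, w (n + c) * (if ∀ p ∈ Nat.primesLE z, n % p ∉ F p then 1 else 0)| ≤
      W * (y * ((m * ∑ p ∈ Nat.primesLE z, 1 / (p : ℝ)) ^ (k + 1) / ((k + 1).factorial : ℝ)) +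
        (k + 2) * ((1 + (z : ℝ)) * (1 + m)) ^ (k + 1)) +
      2 * ∑ d ∈ Icc 1 Q, (d.divisors.card : ℝ) ^ m * E d := by
  set P := Nat.primesLE z with hPdef
  have hP : ∀ p ∈ P, p.Prime := fun p hp => (Nat.mem_primesLE.1 hp).2
  have hFs : ∀ p ∈ P, F p ⊆ range p := fun p hp => (hF p hp).1
  set g : ℕ → ℝ := fun p => ((F p).card : ℝ) / p with hg
  have hh01 : ∀ n : ℕ, ∀ p ∈ P, 0 ≤ brunH F n p ∧ brunH F n p ≤ 1 := fun n p _ =>
    ⟨brunH_nonneg F n p, brunH_le F n p⟩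
  have hind : ∀ n : ℕ, (if ∀ p ∈ P, n % p ∉ F p then (1 : ℝ) else 0) =
      ∏ p ∈ P, (1 - brunH F n p) := by
    intro n
    have h2 : ∀ p ∈ P, (1 - brunH F n p) = if n % p ∉ F p then (1 : ℝ) else 0 := by
      intro p _
      unfold brunH
      by_cases h : n % p ∈ F p
      · rw [if_pos h, if_neg (not_not.mpr h)]; ring
      · rw [if_neg h, if_pos h]; ring
    rw [Finset.prod_congr rfl h2, Finset.prod_ite_zero]
    simp
  simp_rw [hind]
  have hmain := main_sum (w := w) (E := E) (F := F) (m := m) (c := c) (y := y) (z := z) (k := k)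
    (Q := Q) hF hE0 hQ hE
  rw [← hPdef] at hmain
  have hdiff : |∑ n ∈ Icc 1 y, w (n + c) * ∏ p ∈ P, (1 - brunH F n p) -
      ∑ n ∈ Icc 1 y, w (n + c) * TT P (brunH F n) k| ≤
      W * ∑ n ∈ Icc 1 y, EE P (brunH F n) (k + 1) := by
    rw [← Finset.sum_sub_distrib, Finset.mul_sum]
    refine (Finset.abs_sum_le_sum_abs _ _).trans (Finset.sum_le_sum fun n hn => ?_)
    rw [← mul_sub, abs_mul]
    have h1 := prod_le_TT P (brunH F n) (hh01 n) k hk
    have h2 := TT_sub_le_prod P (brunH F n) (hh01 n) k hk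
    refine mul_le_mul (hW n hn) ?_ (abs_nonneg _) hW0
    rw [abs_le]
    constructor <;> linarith only [h2, h1]
  have hE' := brun_EE P hP F hFs y (k + 1)
  have herr := brun_err P F m z (fun p hp => (hF p hp).2) (brun_card_primesLE_le z) (k + 1)
  have hsub : ∑ s ∈ P.powerset.filter (fun s => s.card = k + 1), ∏ p ∈ s, ((F p).card : ℝ) ≤
      ∑ s ∈ P.powerset.filter (fun s => s.card ≤ k + 1), ∏ p ∈ s, ((F p).card : ℝ) := by
    refine Finset.sum_le_sum_of_subset_of_nonneg ?_ fun s _ _ =>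
      Finset.prod_nonneg fun p _ => Nat.cast_nonneg _
    intro s hs
    rw [Finset.mem_filter] at hs ⊢
    exact ⟨hs.1, hs.2.le⟩
  have hg0 : ∀ p ∈ P, 0 ≤ g p := fun p hp => by
    rw [hg]
    positivity
  have hEg : EE P g (k + 1) ≤
      (m * ∑ p ∈ P, 1 / (p : ℝ)) ^ (k + 1) / ((k + 1).factorial : ℝ) := by
    refine (EE_le P g hg0 (k + 1)).trans ?_
    have h0 : 0 ≤ ∑ p ∈ P, g p := Finset.sum_nonneg fun p hp => hg0 p hp
    have h1 : ∑ p ∈ P, g p ≤ m * ∑ p ∈ P, 1 / (p : ℝ) := by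
      rw [Finset.mul_sum]
      refine Finset.sum_le_sum fun p hp => ?_
      have hp0 : (0 : ℝ) < p := by exact_mod_cast (hP p hp).pos
      rw [hg]
      simp only
      rw [mul_one_div]
      apply div_le_div_of_nonneg_right _ hp0.le
      exact_mod_cast (hF p hp).2
    exact div_le_div_of_nonneg_right (pow_le_pow_left₀ h0 h1 _) (by positivity)
  have hyE : (y : ℝ) * EE P g (k + 1) ≤
      y * ((m * ∑ p ∈ P, 1 / (p : ℝ)) ^ (k + 1) / ((k + 1).factorial : ℝ)) :=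
    mul_le_mul_of_nonneg_left hEg (Nat.cast_nonneg _)
  push_cast at herr
  have e2 : ((k : ℝ) + 1 + 1) = k + 2 := by ring
  rw [e2] at herr
  have hsum : ∑ n ∈ Icc 1 y, EE P (brunH F n) (k + 1) ≤
      y * ((m * ∑ p ∈ P, 1 / (p : ℝ)) ^ (k + 1) / ((k + 1).factorial : ℝ)) +
        (k + 2) * ((1 + (z : ℝ)) * (1 + m)) ^ (k + 1) := by
    have := (abs_le.1 hE').2
    linarith only [hsub, hyE, herr, this]
  have hfin := mul_le_mul_of_nonneg_left hsum hW0
  have habs : |∑ n ∈ Icc 1 y, w (n + c) * ∏ p ∈ P, (1 - brunH F n p)| ≤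
      |∑ n ∈ Icc 1 y, w (n + c) * ∏ p ∈ P, (1 - brunH F n p) -
      ∑ n ∈ Icc 1 y, w (n + c) * TT P (brunH F n) k| +
      |∑ n ∈ Icc 1 y, w (n + c) * TT P (brunH F n) k| := by
    have := abs_add_le (∑ n ∈ Icc 1 y, w (n + c) * ∏ p ∈ P, (1 - brunH F n p) -
      ∑ n ∈ Icc 1 y, w (n + c) * TT P (brunH F n) k)
      (∑ n ∈ Icc 1 y, w (n + c) * TT P (brunH F n) k)
    rwa [sub_add_cancel] at this
  linarith only [hmain, hdiff, hfin, habs]

lemma ev_half (N : ℕ) : ∀ᶠ x : ℕ in atTop, Real.log x ^ N ≤ (x : ℝ) ^ (1 / 2 : ℝ) := by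
  have h1 : (fun x : ℝ => Real.log x ^ N) =o[atTop] (fun x : ℝ => x ^ (1 / 2 : ℝ)) := by
    have h := isLittleO_log_rpow_rpow_atTop (N : ℝ) (show (0:ℝ) < 1 / 2 by norm_num)
    simp only [Real.rpow_natCast] at h
    exact h
  have h2 := (h1.comp_tendsto tendsto_natCast_atTop_atTop).bound (show (0:ℝ) < 1 by norm_num)
  filter_upwards [h2, ev_log 1, eventually_ge_atTop 1] with x hx hL hx1
  have hL0 : 0 < Real.log x := by linarith
  simp only [Function.comp_def, one_mul] at hx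
  rw [Real.norm_of_nonneg (by positivity), Real.norm_of_nonneg (by positivity)] at hx
  exact hx

end FirstAllAux

open FirstAllAux Pool.Agent.HLB in
theorem first_all (m A A' : ℕ) : ∀ᶠ x : ℕ in atTop, ∀ c : ℕ, c ≤ x → ∀ t : Fin m → ℕ, (∀ i, t i ≤ x) → ∀ y : ℕ, y ≤ x →
    |∑ n ∈ Icc 1 y, ff (zA A' x) (n + c) * pn (zA A' x) univ t n| ≤ x / Real.log x ^ A := by
  filter_upwards [brun_fine m A' (A + m + 4), bv_weighted A' m (A + m + 2), DZ_inv_le A',
    ev_log 2, ev_half (A + m + 4), eventually_ge_atTop 3] with x hbr hbv hD hL hlog hx c hc t _ y hy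
  obtain ⟨k, hk, hk1, hk2⟩ := hbr
  obtain ⟨E, hE0, hE1, hE2⟩ := hbv
  set L := Real.log x with hLd
  set z := zA A' x with hz
  have hx0 : (0 : ℝ) < x := by exact_mod_cast (by omega : 0 < x)
  have hx1 : (1 : ℝ) ≤ x := by exact_mod_cast (by omega : 1 ≤ x)
  have hL0 : 0 < L := by linarith only [hL]
  have hD0 : 0 ≤ (DZ z)⁻¹ := inv_nonneg.mpr (DZ_pos _).le
  set Q := ⌊(x : ℝ) ^ (1 / 20 : ℝ)⌋₊ with hQ
  have hQx : (Q : ℝ) ≤ (x : ℝ) ^ (1 / 20 : ℝ) := Nat.floor_le (by positivity)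
  have hzk : (1 + z) ^ k ≤ Q := by
    apply Nat.le_floor
    refine le_trans ?_ hk2
    push_cast
    have hz0 : (0 : ℝ) ≤ z := Nat.cast_nonneg _
    have hm0 : (0 : ℝ) ≤ m := Nat.cast_nonneg _
    have hk0 : (0 : ℝ) ≤ k := Nat.cast_nonneg _
    have h1 : (1 : ℝ) ≤ 1 + z := by linarith
    have h2 : (1 + (z : ℝ)) ≤ (1 + (z : ℝ)) * (1 + m) := le_mul_of_one_le_right (by linarith) (by linarith)
    calc (1 + (z : ℝ)) ^ k ≤ (1 + (z : ℝ)) ^ (k + 1) := pow_le_pow_right₀ h1 (by omega)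
      _ ≤ ((1 + (z : ℝ)) * (1 + m)) ^ (k + 1) := pow_le_pow_left₀ (by linarith) h2 _
      _ ≤ (k + 2) * ((1 + (z : ℝ)) * (1 + m)) ^ (k + 1) :=
          le_mul_of_one_le_left (by (clear * -; positivity)) (by linarith)
  have hF : ∀ p ∈ Nat.primesLE z, exres t p ⊆ range p ∧ (exres t p).card ≤ m := by
    intro p hp
    have hp0 : 0 < p := (Nat.mem_primesLE.1 hp).2.pos
    refine ⟨exres_subset t hp0, ?_⟩
    rw [card_exres t hp0]
    have := nuI_le t p
    rwa [Fintype.card_fin] at this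
  have hW : ∀ n ∈ Icc 1 y, |ff z (n + c)| ≤ L ^ 2 := by
    intro n hn
    have hn2 : n ≤ y := (Finset.mem_Icc.1 hn).2
    have h1 := lp_le_sq hL (show n + c ≤ 2 * x by omega)
    have h2 := lp_nonneg (n + c)
    have h3 := nuz_nonneg z (n + c)
    have h4 : nuz z (n + c) ≤ L ^ 2 := (nuz_le z (n + c)).trans (hD.trans (by nlinarith only [hL]))
    unfold ff
    rw [abs_le]
    constructor <;> linarith only [h2, h4, h1, h3]
  have hdet := det (w := ff z) (E := E) (F := exres t) (m := m) (c := c) (y := y) (z := z) (k := k)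
    (Q := Q) (W := L ^ 2) hk hF hE0 hzk hW (by positivity) (fun d hd1 hdQ hdp b y' hy' => by
      refine hE2 d hd1 ?_ hdp b y' (by omega)
      refine le_trans ?_ hQx
      exact_mod_cast hdQ)
  have hsum : ∑ n ∈ Icc 1 y, ff z (n + c) * pn z univ t n = (DZ z)⁻¹ ^ m *
      ∑ n ∈ Icc 1 y, ff z (n + c) *
        (if ∀ p ∈ Nat.primesLE z, n % p ∉ exres t p then 1 else 0) := by
    rw [Finset.mul_sum]
    refine Finset.sum_congr rfl fun n _ => ?_
    unfold pn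
    rw [prod_nuz]
    ring
  rw [hsum, abs_mul, abs_of_nonneg (pow_nonneg hD0 m)]
  have hS2 := hE1 Q hQx
  have hyx : (y : ℝ) ≤ x := by exact_mod_cast hy
  have h20 : (x : ℝ) ^ (1 / 20 : ℝ) * L ^ (A + m + 4) ≤ x := by
    calc (x : ℝ) ^ (1 / 20 : ℝ) * L ^ (A + m + 4) ≤ (x : ℝ) ^ (1 / 2 : ℝ) * (x : ℝ) ^ (1 / 2 : ℝ) := by
          refine mul_le_mul ?_ hlog (by (clear * - hL; positivity)) (by (clear * - hx; positivity))
          exact Real.rpow_le_rpow_of_exponent_le hx1 (by norm_num)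
      _ = x := by
          rw [← Real.rpow_add hx0]
          norm_num
  have h21 : (x : ℝ) ^ (1 / 20 : ℝ) ≤ x / L ^ (A + m + 4) := (le_div_iff₀ (by (clear * - hL; positivity))).2 h20
  have hB : L ^ 2 * (y * ((m * ∑ p ∈ Nat.primesLE z, 1 / (p : ℝ)) ^ (k + 1) / ((k + 1).factorial : ℝ)) +
        (k + 2) * ((1 + (z : ℝ)) * (1 + m)) ^ (k + 1)) ≤ L ^ 2 * (2 * (x / L ^ (A + m + 4))) := by
    refine mul_le_mul_of_nonneg_left ?_ (by (clear * - hL; positivity))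
    have e1 : y * ((m * ∑ p ∈ Nat.primesLE z, 1 / (p : ℝ)) ^ (k + 1) / ((k + 1).factorial : ℝ)) ≤
        x * (1 / L ^ (A + m + 4)) :=
      mul_le_mul hyx hk1 (by (clear * -; positivity)) hx0.le
    have e2 : x * (1 / L ^ (A + m + 4)) = x / L ^ (A + m + 4) := by ring
    linarith only [hk2, h21, e1, e2, hk2, h21]
  have htot : |∑ n ∈ Icc 1 y, ff z (n + c) *
      (if ∀ p ∈ Nat.primesLE z, n % p ∉ exres t p then 1 else 0)| ≤ 4 * (x / L ^ (A + m + 2)) := by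
    have e1 : L ^ 2 * (2 * (x / L ^ (A + m + 4))) = 2 * (x / L ^ (A + m + 2)) := by
      rw [show A + m + 4 = (A + m + 2) + 2 by ring, pow_add L (A + m + 2) 2]
      field_simp
    linarith only [hdet, hS2, hB, e1]
  calc (DZ z)⁻¹ ^ m * |∑ n ∈ Icc 1 y, ff z (n + c) *
      (if ∀ p ∈ Nat.primesLE z, n % p ∉ exres t p then 1 else 0)| ≤
      L ^ m * (4 * (x / L ^ (A + m + 2))) :=
        mul_le_mul (pow_le_pow_left₀ hD0 hD m) htot (abs_nonneg _) (by (clear * - hL; positivity))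
    _ = 4 * x / (L ^ A * L ^ 2) := by
        rw [pow_add, pow_add]
        field_simp
    _ ≤ x / L ^ A := by
        rw [div_le_div_iff₀ (by (clear * - hL; positivity)) (by (clear * - hL; positivity))]
        have e1 : (4 : ℝ) ≤ L ^ 2 := by nlinarith only [hL]
        calc 4 * x * L ^ A = 4 * (x * L ^ A) := by ring
          _ ≤ L ^ 2 * (x * L ^ A) := mul_le_mul_of_nonneg_right e1 (by (clear * - hx hL; positivity))
          _ = _ := by ring

end Pool.Agent.VK
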