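import Mathlib

/-!
# Landau's lemma on the logarithmic derivative

PROOF SKETCH. Translate to `z0 = 0`. Auxiliary statement for `n : ℕ`: for all `M ≤ n log 2` the first theorem holds (with
`4 M / R`). Induction on `n`.
* If `f` has no zero in `closedBall 0 (R/2)`: `f = f 0 * exp h` on `ball 0 (R/2)`, `h` analytic, `h 0 = 0` (primitive of `f'/f` on a
  ball), `Re h ≤ M`, so `|h' 0| ≤ 2 M/(R/2)` by Borel-Caratheodory (`Complex.borelCaratheodory_zero`: `|h z| ≤ 2 M |z|/(r - |z|)`, let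
  `z → 0`; if `M = 0` use `M + ε`), and `f'/f (0) = h' 0`.
* If `f ρ = 0` with `0 < |ρ| ≤ R/2`: let `f1 z = dslope f ρ z * (R^2 - conj ρ * z) / R`, analytic on the closed ball,
  `f z * (R^2 - conj ρ z) = f1 z * R (z - ρ)`. On `|z| = R`: `|R^2 - conj ρ z| = R |z - ρ|`, so `|f1| = |f|`; by the maximum principle
  `|f1| ≤ exp M |f 0|` on the ball. `|f1 0| = |f 0| R/|ρ| ≥ 2 |f 0|`, so `|f1 z| ≤ exp (M - log 2) |f1 0|` (in particular `M ≥ log 2`),
  `f1` has no zeros with `Re z ≥ 0` (`R^2 - conj ρ z ≠ 0` for `|z| ≤ R`, `|ρ| < R`; at `z = ρ` with `Re ρ < 0` nothing to check), and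
  `f'/f (0) = f1'/f1 (0) + (-1/ρ + conj ρ/R^2)`, `Re (-1/ρ + conj ρ/R^2) = - (Re ρ) (1/|ρ|^2 - 1/R^2) ≥ 0` as `Re ρ < 0`.
* Second theorem: divide by the zero `ρ = -β` in the same way and use the first theorem for `f1`:
  `Re (-1/ρ + conj ρ/R^2) = 1/β - β/R^2 ≥ 1/β - 1/R`.
-/

set_option autoImplicit false

open Metric

namespace Pool.Agent.VK

open ComplexConjugate in
/-- the function with one zero divided out -/
noncomputable def ldF (f : ℂ → ℂ) (ρ : ℂ) (R : ℝ) (z : ℂ) : ℂ :=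
  dslope f ρ z * (((R : ℂ) ^ 2 - conj ρ * z) / (R : ℂ))

theorem ld_analytic_dslope {f : ℂ → ℂ} {s : Set ℂ} {ρ : ℂ} (hf : AnalyticOnNhd ℂ f s)
    (hρ : ρ ∈ s) : AnalyticOnNhd ℂ (dslope f ρ) s := by
  intro z hz
  by_cases h : z = ρ
  · subst h
    obtain ⟨p, hp⟩ := hf z hz
    exact ⟨_, hp.has_fpower_series_dslope_fslope⟩
  · have h1 : dslope f ρ =ᶠ[nhds z] slope f ρ := dslope_eventuallyEq_slope_of_ne f h
    refine AnalyticAt.congr ?_ h1.symm
    have h2 : slope f ρ = fun z => (z - ρ)⁻¹ * (f z - f ρ) := by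
      funext w
      rw [slope_def_field, div_eq_inv_mul]
    rw [h2]
    exact ((analyticAt_id.sub analyticAt_const).inv (sub_ne_zero.2 h)).mul
      ((hf z hz).sub analyticAt_const)

open ComplexConjugate in
theorem ld_identity {f : ℂ → ℂ} {ρ : ℂ} {R : ℝ} (hR : 0 < R) (hρ : f ρ = 0) (z : ℂ) :
    f z * ((R : ℂ) ^ 2 - conj ρ * z) = ldF f ρ R z * ((R : ℂ) * (z - ρ)) := by
  have h1 := sub_smul_dslope_of_zero hρ z
  have hR0 : (R : ℂ) ≠ 0 := by exact_mod_cast hR.ne'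
  unfold ldF
  rw [← h1, smul_eq_mul]
  field_simp

open ComplexConjugate in
theorem ld_analytic {f : ℂ → ℂ} {ρ : ℂ} {R : ℝ}
    (hf : AnalyticOnNhd ℂ f (closedBall 0 R)) (hρ : ρ ∈ closedBall (0 : ℂ) R) :
    AnalyticOnNhd ℂ (ldF f ρ R) (closedBall 0 R) := by
  intro z hz
  unfold ldF
  refine (ld_analytic_dslope hf hρ z hz).mul ?_
  exact (analyticAt_const.sub (analyticAt_const.mul analyticAt_id)).div_const

open ComplexConjugate in
theorem ld_den_ne {ρ z : ℂ} {R : ℝ} (hρ : ‖ρ‖ < R) (hz : ‖z‖ ≤ R) :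
    (R : ℂ) ^ 2 - conj ρ * z ≠ 0 := by
  intro h
  have hR : 0 < R := (norm_nonneg ρ).trans_lt hρ
  have h1 : (R : ℂ) ^ 2 = conj ρ * z := sub_eq_zero.1 h
  have h2 : R ^ 2 = ‖ρ‖ * ‖z‖ := by
    have := congrArg norm h1
    rw [norm_pow, norm_mul, RCLike.norm_conj, Complex.norm_real, Real.norm_eq_abs,
      abs_of_pos hR] at this
    exact this
  have h3 : ‖ρ‖ * ‖z‖ ≤ ‖ρ‖ * R := mul_le_mul_of_nonneg_left hz (norm_nonneg _)
  nlinarith

open ComplexConjugate in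
theorem ld_bound {f : ℂ → ℂ} {ρ : ℂ} {R C : ℝ} (hρR : ‖ρ‖ < R)
    (hf : AnalyticOnNhd ℂ f (closedBall 0 R)) (hρ : f ρ = 0)
    (hb : ∀ z ∈ closedBall (0 : ℂ) R, ‖f z‖ ≤ C) :
    ∀ z ∈ closedBall (0 : ℂ) R, ‖ldF f ρ R z‖ ≤ C := by
  have hR : 0 < R := (norm_nonneg ρ).trans_lt hρR
  have hρb : ρ ∈ closedBall (0 : ℂ) R := by
    rw [mem_closedBall_zero_iff]
    exact hρR.le
  have hA := ld_analytic hf hρb
  have hd : DiffContOnCl ℂ (ldF f ρ R) (ball 0 R) := by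
    refine DifferentiableOn.diffContOnCl ?_
    rw [closure_ball (0 : ℂ) hR.ne']
    exact hA.differentiableOn
  intro z hz
  refine Complex.norm_le_of_forall_mem_frontier_norm_le isBounded_ball hd ?_
    (by rw [closure_ball (0 : ℂ) hR.ne']; exact hz)
  intro w hw
  rw [frontier_ball (0 : ℂ) hR.ne', mem_sphere_zero_iff_norm] at hw
  have hid := congrArg norm (ld_identity (f := f) hR hρ w)
  rw [norm_mul, norm_mul, norm_mul, Complex.norm_real, Real.norm_eq_abs, abs_of_pos hR] at hid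
  have hwn : ‖(R : ℂ) ^ 2 - conj ρ * w‖ = R * ‖w - ρ‖ := by
    have h1 : (R : ℂ) ^ 2 = w * conj w := by
      rw [Complex.mul_conj, Complex.normSq_eq_norm_sq, hw]
      push_cast
      ring
    have h2 : (R : ℂ) ^ 2 - conj ρ * w = w * conj (w - ρ) := by
      rw [h1, map_sub]
      ring
    rw [h2, norm_mul, RCLike.norm_conj, hw]
  rw [hwn] at hid
  have hpos : 0 < R * ‖w - ρ‖ := by
    have hne : w ≠ ρ := by
      intro h
      rw [h] at hw
      linarith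
    exact mul_pos hR (norm_pos_iff.2 (sub_ne_zero.2 hne))
  have h3 : ‖f w‖ = ‖ldF f ρ R w‖ := mul_right_cancel₀ hpos.ne' hid
  rw [← h3]
  exact hb w (by rw [mem_closedBall_zero_iff, hw])

theorem ld_zero {f : ℂ → ℂ} {ρ : ℂ} {R : ℝ} (hR : 0 < R) (hρ0 : ρ ≠ 0) (hρ : f ρ = 0) :
    ldF f ρ R 0 = -f 0 * (R / ρ) := by
  have h := ld_identity hR hρ 0
  have hR0 : (R : ℂ) ≠ 0 := by exact_mod_cast hR.ne'
  simp only [mul_zero, sub_zero, zero_sub] at h
  field_simp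
  have h2 : ldF f ρ R 0 * ρ * R = -(f 0 * R) * R := by linear_combination h
  exact mul_right_cancel₀ hR0 h2

open ComplexConjugate in
theorem ld_logderiv {f : ℂ → ℂ} {ρ : ℂ} {R : ℝ} (hR : 0 < R) (hρ0 : ρ ≠ 0)
    (hρR : ‖ρ‖ < R) (hf : AnalyticOnNhd ℂ f (closedBall 0 R)) (h0 : f 0 ≠ 0) (hρ : f ρ = 0) :
    deriv f 0 / f 0 = deriv (ldF f ρ R) 0 / ldF f ρ R 0 + (-1 / ρ + conj ρ / (R : ℂ) ^ 2) := by
  have hR0 : (R : ℂ) ≠ 0 := by exact_mod_cast hR.ne'
  have h0b : (0 : ℂ) ∈ closedBall (0 : ℂ) R := by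
    rw [mem_closedBall_zero_iff, norm_zero]
    exact hR.le
  have hρb : ρ ∈ closedBall (0 : ℂ) R := by
    rw [mem_closedBall_zero_iff]
    exact hρR.le
  have d1 : HasDerivAt f (deriv f 0) 0 := (hf 0 h0b).differentiableAt.hasDerivAt
  have d2 : HasDerivAt (ldF f ρ R) (deriv (ldF f ρ R) 0) 0 :=
    (ld_analytic hf hρb 0 h0b).differentiableAt.hasDerivAt
  have e1 : HasDerivAt (fun z : ℂ => (R : ℂ) ^ 2 - conj ρ * z) (-(conj ρ)) 0 := by
    have := ((hasDerivAt_id (0 : ℂ)).const_mul (conj ρ)).const_sub ((R : ℂ) ^ 2)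
    simpa using this
  have e2 : HasDerivAt (fun z : ℂ => (R : ℂ) * (z - ρ)) (R : ℂ) 0 := by
    have := ((hasDerivAt_id (0 : ℂ)).sub_const ρ).const_mul (R : ℂ)
    simpa using this
  have g1 := d1.mul e1
  have g2 := d2.mul e2
  have hfun : (f * fun z : ℂ => (R : ℂ) ^ 2 - conj ρ * z) =
      (ldF f ρ R * fun z : ℂ => (R : ℂ) * (z - ρ)) := by
    funext z
    exact ld_identity hR hρ z
  rw [hfun] at g1
  have h1 := g1.unique g2
  have hz := ld_zero hR hρ0 hρ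
  simp only [mul_zero, sub_zero, zero_sub] at h1
  have hz0 : ldF f ρ R 0 ≠ 0 := by
    rw [hz]
    exact mul_ne_zero (neg_ne_zero.2 h0) (div_ne_zero hR0 hρ0)
  have h2 : deriv f 0 * (R : ℂ) ^ 2 = deriv (ldF f ρ R) 0 * ((R : ℂ) * -ρ) +
      ldF f ρ R 0 * R + f 0 * conj ρ := by
    linear_combination h1
  have h3 : f 0 = -(ldF f ρ R 0) * (ρ / R) := by
    rw [hz]
    field_simp
  have h4 : deriv f 0 / f 0 = (deriv f 0 * (R : ℂ) ^ 2) / (f 0 * (R : ℂ) ^ 2) := by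
    field_simp
  rw [h4, h2]
  have h5 : ρ ≠ 0 := hρ0
  rw [add_div, add_div]
  have h6 : f 0 * conj ρ / (f 0 * (R : ℂ) ^ 2) = conj ρ / (R : ℂ) ^ 2 := by
    field_simp
  have h7 : ldF f ρ R 0 * R / (f 0 * (R : ℂ) ^ 2) = -1 / ρ := by
    rw [h3]
    field_simp
  have h8 : deriv (ldF f ρ R) 0 * ((R : ℂ) * -ρ) / (f 0 * (R : ℂ) ^ 2) =
      deriv (ldF f ρ R) 0 / ldF f ρ R 0 := by
    rw [h3]
    field_simp
  rw [h6, h7, h8]
  ring

theorem ld_nozero {f : ℂ → ℂ} {R M : ℝ} (hR : 0 < R) (hM : 0 ≤ M)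
    (hf : AnalyticOnNhd ℂ f (closedBall 0 R)) (h0 : ∀ z ∈ ball (0 : ℂ) (R / 2), f z ≠ 0)
    (hb : ∀ z ∈ closedBall (0 : ℂ) R, ‖f z‖ ≤ Real.exp M * ‖f 0‖) :
    ‖deriv f 0 / f 0‖ ≤ 4 * M / R := by
  have hR2 : 0 < R / 2 := half_pos hR
  have hsub : ball (0 : ℂ) (R / 2) ⊆ closedBall 0 R := by
    intro z hz
    rw [mem_ball_zero_iff] at hz
    rw [mem_closedBall_zero_iff]
    linarith
  have hd : DifferentiableOn ℂ (fun z => deriv f z / f z) (ball 0 (R / 2)) := fun z hz =>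
    ((hf.deriv z (hsub hz)).div (hf z (hsub hz)) (h0 z hz)).differentiableAt.differentiableWithinAt
  obtain ⟨h, hh0, hh⟩ := (hd.isExactOn_ball).with_val_at 0 0
  have h00 : (0 : ℂ) ∈ ball (0 : ℂ) (R / 2) := mem_ball_self hR2
  have hg : ∀ z ∈ ball (0 : ℂ) (R / 2), HasDerivAt (fun z => f z * Complex.exp (-h z)) 0 z := by
    intro z hz
    have h1 : HasDerivAt f (deriv f z) z := (hf z (hsub hz)).differentiableAt.hasDerivAt
    have h2 := h1.mul ((hh z hz).neg.cexp)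
    refine h2.congr_deriv ?_
    have h3 := h0 z hz
    field_simp
    ring
  have hconst : ∀ z ∈ ball (0 : ℂ) (R / 2), f z = f 0 * Complex.exp (h z) := by
    intro z hz
    have h1 : (fun z => f z * Complex.exp (-h z)) z = (fun z => f z * Complex.exp (-h z)) 0 :=
      isOpen_ball.is_const_of_deriv_eq_zero (convex_ball (0 : ℂ) (R / 2)).isPreconnected
        (fun w hw => (hg w hw).differentiableAt.differentiableWithinAt)
        (fun w hw => (hg w hw).deriv) hz h00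
    simp only [hh0, neg_zero, Complex.exp_zero, mul_one] at h1
    rw [← h1, mul_assoc, ← Complex.exp_add, neg_add_cancel, Complex.exp_zero, mul_one]
  have hre : ∀ z ∈ ball (0 : ℂ) (R / 2), (h z).re ≤ M := by
    intro z hz
    have h1 := hb z (hsub hz)
    rw [hconst z hz, norm_mul, Complex.norm_exp, mul_comm] at h1
    have h2 : 0 < ‖f 0‖ := norm_pos_iff.2 (h0 0 h00)
    exact Real.exp_le_exp.1 (le_of_mul_le_mul_right h1 h2)
  have hdiff : DifferentiableOn ℂ h (ball 0 (R / 2)) := fun z hz =>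
    (hh z hz).differentiableAt.differentiableWithinAt
  refine le_of_forall_gt_imp_ge_of_dense fun C hC => ?_
  -- choose M'
  obtain ⟨C', hC1, hC2⟩ := exists_between hC
  set M' : ℝ := C' * R / 4 with hM'
  have hMM : M < M' := by
    rw [hM']
    rw [div_lt_iff₀ hR] at hC1
    linarith
  have hM'0 : 0 < M' := hM.trans_lt hMM
  have hev : ∀ᶠ z : ℂ in nhds 0, ‖h z - h 0‖ ≤ C * ‖z - 0‖ := by
    have hcont : Filter.Tendsto (fun z : ℂ => 2 * M' / (R / 2 - ‖z‖)) (nhds 0)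
        (nhds (2 * M' / (R / 2 - ‖(0 : ℂ)‖))) := by
      refine Filter.Tendsto.div tendsto_const_nhds ?_ (by rw [norm_zero]; linarith)
      exact (continuous_const.sub continuous_norm).tendsto 0
    have hlim : 2 * M' / (R / 2 - ‖(0 : ℂ)‖) < C := by
      rw [norm_zero, sub_zero, hM']
      have : 2 * (C' * R / 4) / (R / 2) = C' := by
        field_simp
        ring
      rw [this]
      exact hC2
    filter_upwards [hcont.eventually_lt_const hlim, ball_mem_nhds (0 : ℂ) hR2] with z hz1 hz2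
    rw [hh0, sub_zero, sub_zero]
    have h1 := Complex.borelCaratheodory_zero hM'0 hdiff
      (fun w hw => (hre w hw).trans hMM.le) hR2 hz2 hh0
    refine h1.trans ?_
    have h2 : 2 * M' * ‖z‖ / (R / 2 - ‖z‖) = 2 * M' / (R / 2 - ‖z‖) * ‖z‖ := by ring
    rw [h2]
    exact mul_le_mul_of_nonneg_right hz1.le (norm_nonneg _)
  have hC0 : 0 ≤ C := by
    have : 0 ≤ 4 * M / R := by positivity
    linarith
  exact (hh 0 h00).le_of_lip' hC0 hev

open ComplexConjugate in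
theorem ld_re_pos {ρ : ℂ} {R : ℝ} (_hR : 0 < R) (hρre : ρ.re < 0) (hρR : ‖ρ‖ < R) :
    0 ≤ (-1 / ρ + conj ρ / (R : ℂ) ^ 2).re := by
  have hρ0 : 0 < ‖ρ‖ := by
    rw [norm_pos_iff]
    intro h
    rw [h, Complex.zero_re] at hρre
    exact lt_irrefl _ hρre
  have h1 : (-1 / ρ + conj ρ / (R : ℂ) ^ 2).re = -ρ.re / ‖ρ‖ ^ 2 + ρ.re / R ^ 2 := by
    have e1 : (-1 / ρ).re = -ρ.re / ‖ρ‖ ^ 2 := by
      rw [neg_div, Complex.neg_re, one_div, Complex.inv_re, Complex.normSq_eq_norm_sq]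
      ring
    have e2 : (conj ρ / (R : ℂ) ^ 2).re = ρ.re / R ^ 2 := by
      rw [← Complex.ofReal_pow, Complex.div_ofReal_re, Complex.conj_re]
    rw [Complex.add_re, e1, e2]
  rw [h1]
  have h2 : 1 / R ^ 2 ≤ 1 / ‖ρ‖ ^ 2 := by
    apply one_div_le_one_div_of_le (by positivity)
    exact pow_le_pow_left₀ hρ0.le hρR.le 2
  have h3 : -ρ.re / ‖ρ‖ ^ 2 + ρ.re / R ^ 2 = -ρ.re * (1 / ‖ρ‖ ^ 2 - 1 / R ^ 2) := by ring
  rw [h3]
  exact mul_nonneg (by linarith) (by linarith)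

theorem ld_translate {f : ℂ → ℂ} {z0 : ℂ} {R : ℝ} (hf : AnalyticOnNhd ℂ f (closedBall z0 R)) :
    AnalyticOnNhd ℂ (fun z => f (z + z0)) (closedBall 0 R) ∧
      deriv (fun z => f (z + z0)) 0 = deriv f z0 ∧
      ∀ z ∈ closedBall (0 : ℂ) R, z + z0 ∈ closedBall z0 R := by
  have hmem : ∀ z ∈ closedBall (0 : ℂ) R, z + z0 ∈ closedBall z0 R := by
    intro z hz
    rw [mem_closedBall_zero_iff] at hz
    rw [mem_closedBall, dist_eq_norm, add_sub_cancel_right]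
    exact hz
  refine ⟨fun z hz => ?_, ?_, hmem⟩
  · exact (hf (z + z0) (hmem z hz)).comp_of_eq (analyticAt_id.add analyticAt_const) rfl
  · rw [deriv_comp_add_const, zero_add]

theorem ld_main (n : ℕ) : ∀ (f : ℂ → ℂ) (R M : ℝ), 0 < R → 0 ≤ M → M ≤ n * Real.log 2 →
    AnalyticOnNhd ℂ f (closedBall 0 R) → f 0 ≠ 0 →
    (∀ z ∈ closedBall (0 : ℂ) R, ‖f z‖ ≤ Real.exp M * ‖f 0‖) →
    (∀ z ∈ closedBall (0 : ℂ) R, 0 ≤ z.re → f z ≠ 0) →
    -(deriv f 0 / f 0).re ≤ 4 * M / R := by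
  induction n with
  | zero =>
    intro f R M hR hM hMn hf h0 hb hz
    have hM0 : M = 0 := by
      simp only [CharP.cast_eq_zero, zero_mul] at hMn
      exact le_antisymm hMn hM
    have hne : ∀ z ∈ ball (0 : ℂ) (R / 2), f z ≠ 0 := by
      intro ρ hρ hfρ
      rw [mem_ball_zero_iff] at hρ
      have hρ0 : ρ ≠ 0 := fun h => h0 (h ▸ hfρ)
      have hρR : ‖ρ‖ < R := by linarith
      have h1 := ld_bound hρR hf hfρ hb 0 (by
        rw [mem_closedBall_zero_iff, norm_zero]; exact hR.le)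
      rw [ld_zero hR hρ0 hfρ, hM0, Real.exp_zero, one_mul, norm_mul, norm_neg, norm_div,
        Complex.norm_real, Real.norm_eq_abs, abs_of_pos hR] at h1
      have h2 : 0 < ‖f 0‖ := norm_pos_iff.2 h0
      have h3 : 0 < ‖ρ‖ := norm_pos_iff.2 hρ0
      have h4 : 1 < R / ‖ρ‖ := by
        rw [one_lt_div h3]
        exact hρR
      nlinarith
    refine le_trans ?_ (ld_nozero hR hM hf hne hb)
    exact (neg_le_abs _).trans (Complex.abs_re_le_norm _)
  | succ n ih =>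
    intro f R M hR hM hMn hf h0 hb hz
    by_cases hex : ∃ ρ ∈ ball (0 : ℂ) (R / 2), f ρ = 0
    · obtain ⟨ρ, hρ, hfρ⟩ := hex
      rw [mem_ball_zero_iff] at hρ
      have hρ0 : ρ ≠ 0 := fun h => h0 (h ▸ hfρ)
      have hρR : ‖ρ‖ < R := by linarith
      have hρb : ρ ∈ closedBall (0 : ℂ) R := by
        rw [mem_closedBall_zero_iff]
        exact hρR.le
      have h2 : 0 < ‖f 0‖ := norm_pos_iff.2 h0
      have h3 : 0 < ‖ρ‖ := norm_pos_iff.2 hρ0
      have hρre : ρ.re < 0 := by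
        by_contra hcon
        exact hz ρ hρb (not_lt.1 hcon) hfρ
      have hn1 : ‖ldF f ρ R 0‖ = ‖f 0‖ * (R / ‖ρ‖) := by
        rw [ld_zero hR hρ0 hfρ, norm_mul, norm_neg, norm_div,
        Complex.norm_real, Real.norm_eq_abs, abs_of_pos hR]
      have h4 : 2 ≤ R / ‖ρ‖ := by
        rw [le_div_iff₀ h3]
        linarith
      have hb1 : ∀ z ∈ closedBall (0 : ℂ) R,
          ‖ldF f ρ R z‖ ≤ Real.exp (M - Real.log 2) * ‖ldF f ρ R 0‖ := by
        intro z hz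
        refine (ld_bound hρR hf hfρ hb z hz).trans ?_
        rw [hn1, Real.exp_sub, Real.exp_log (by norm_num)]
        have h5 := Real.exp_pos M
        have h6 : 0 < Real.exp M * ‖f 0‖ := mul_pos h5 h2
        calc Real.exp M * ‖f 0‖ = Real.exp M * ‖f 0‖ * 1 := by ring
          _ ≤ Real.exp M * ‖f 0‖ * ((R / ‖ρ‖) / 2) :=
              mul_le_mul_of_nonneg_left (by linarith) h6.le
          _ = _ := by ring
      have hl10 : ldF f ρ R 0 ≠ 0 := by
        rw [← norm_pos_iff, hn1]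
        positivity
      have hM1 : 0 ≤ M - Real.log 2 := by
        have h5 := hb1 0 (by rw [mem_closedBall_zero_iff, norm_zero]; exact hR.le)
        have h6 : 0 < ‖ldF f ρ R 0‖ := norm_pos_iff.2 hl10
        by_contra hcon
        have h7 : Real.exp (M - Real.log 2) < 1 := by
          rw [Real.exp_lt_one_iff]
          exact not_le.1 hcon
        nlinarith
      have hMn1 : M - Real.log 2 ≤ n * Real.log 2 := by
        push_cast at hMn
        linarith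
      have hz1 : ∀ z ∈ closedBall (0 : ℂ) R, 0 ≤ z.re → ldF f ρ R z ≠ 0 := by
        intro z hzb hzre h5
        have h6 := ld_identity hR hfρ z
        rw [h5, zero_mul] at h6
        rcases mul_eq_zero.1 h6 with h7 | h7
        · exact hz z hzb hzre h7
        · rw [mem_closedBall_zero_iff] at hzb
          exact ld_den_ne hρR hzb h7
      have h5 := ih (ldF f ρ R) R (M - Real.log 2) hR hM1 hMn1 (ld_analytic hf hρb) hl10 hb1 hz1
      rw [ld_logderiv hR hρ0 hρR hf h0 hfρ, Complex.add_re]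
      have h6 := ld_re_pos hR hρre hρR
      have h7 : 4 * (M - Real.log 2) / R ≤ 4 * M / R := by
        apply div_le_div_of_nonneg_right _ hR.le
        have := Real.log_pos (show (1 : ℝ) < 2 by norm_num)
        linarith
      linarith
    · push Not at hex
      refine le_trans ?_ (ld_nozero hR hM hf hex hb)
      exact (neg_le_abs _).trans (Complex.abs_re_le_norm _)

theorem landau (f : ℂ → ℂ) (z0 : ℂ) (R M : ℝ) (hR : 0 < R) (hM : 0 ≤ M)
    (hf : AnalyticOnNhd ℂ f (closedBall z0 R)) (h0 : f z0 ≠ 0)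
    (hb : ∀ z ∈ closedBall z0 R, ‖f z‖ ≤ Real.exp M * ‖f z0‖)
    (hz : ∀ z ∈ closedBall z0 R, z0.re ≤ z.re → f z ≠ 0) :
    -(deriv f z0 / f z0).re ≤ 8 * M / R := by
  obtain ⟨hf', hd, hmem⟩ := ld_translate hf
  obtain ⟨n, hn⟩ := exists_nat_ge (M / Real.log 2)
  have hlog : 0 < Real.log 2 := Real.log_pos (by norm_num)
  rw [div_le_iff₀ hlog] at hn
  have h := ld_main n (fun z => f (z + z0)) R M hR hM hn hf' (by simpa using h0)
    (fun z hz' => by simpa using hb (z + z0) (hmem z hz'))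
    (fun z hz' hre => hz (z + z0) (hmem z hz') (by rw [Complex.add_re]; linarith))
  rw [hd] at h
  simp only [zero_add] at h
  refine h.trans ?_
  apply div_le_div_of_nonneg_right _ hR.le
  linarith

theorem landau_zero (f : ℂ → ℂ) (z0 : ℂ) (R M : ℝ) (hR : 0 < R) (hM : 0 ≤ M)
    (hf : AnalyticOnNhd ℂ f (closedBall z0 R)) (h0 : f z0 ≠ 0)
    (hb : ∀ z ∈ closedBall z0 R, ‖f z‖ ≤ Real.exp M * ‖f z0‖)
    (hz : ∀ z ∈ closedBall z0 R, z0.re ≤ z.re → f z ≠ 0)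
    (β : ℝ) (hβ : 0 < β) (hβR : β ≤ R / 4) (hzero : f (z0 - (β : ℂ)) = 0) :
    -(deriv f z0 / f z0).re ≤ 8 * (M + 1) / R - 1 / β := by
  obtain ⟨hf', hd, hmem⟩ := ld_translate hf
  obtain ⟨n, hn⟩ := exists_nat_ge (M / Real.log 2)
  have hlog : 0 < Real.log 2 := Real.log_pos (by norm_num)
  rw [div_le_iff₀ hlog] at hn
  set F : ℂ → ℂ := fun z => f (z + z0) with hF
  set ρ : ℂ := ((-β : ℝ) : ℂ) with hρ
  have hF0 : F 0 = f z0 := by simp [hF]
  have hF00 : F 0 ≠ 0 := by rw [hF0]; exact h0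
  have hFρ : F ρ = 0 := by
    rw [hF, hρ]
    show f (((-β : ℝ) : ℂ) + z0) = 0
    rw [← hzero]
    congr 1
    push_cast
    ring
  have hρn : ‖ρ‖ = β := by
    rw [hρ, Complex.norm_real, Real.norm_eq_abs, abs_neg, abs_of_pos hβ]
  have hρR : ‖ρ‖ < R := by
    rw [hρn]
    linarith
  have hρ0 : ρ ≠ 0 := by
    rw [← norm_pos_iff, hρn]
    exact hβ
  have hρb : ρ ∈ closedBall (0 : ℂ) R := by
    rw [mem_closedBall_zero_iff]
    exact hρR.le
  have hbF : ∀ z ∈ closedBall (0 : ℂ) R, ‖F z‖ ≤ Real.exp M * ‖F 0‖ := by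
    intro z hz'
    rw [hF0]
    exact hb (z + z0) (hmem z hz')
  have hn1 : ‖ldF F ρ R 0‖ = ‖F 0‖ * (R / β) := by
    rw [ld_zero hR hρ0 hFρ, norm_mul, norm_neg, norm_div,
      Complex.norm_real, Real.norm_eq_abs, abs_of_pos hR, hρn]
  have h2 : 0 < ‖F 0‖ := norm_pos_iff.2 hF00
  have h4 : 1 ≤ R / β := by
    rw [le_div_iff₀ hβ]
    linarith
  have hb1 : ∀ z ∈ closedBall (0 : ℂ) R, ‖ldF F ρ R z‖ ≤ Real.exp M * ‖ldF F ρ R 0‖ := by
    intro z hz'
    refine (ld_bound hρR hf' hFρ hbF z hz').trans ?_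
    rw [hn1]
    have h6 : 0 < Real.exp M * ‖F 0‖ := mul_pos (Real.exp_pos M) h2
    calc Real.exp M * ‖F 0‖ = Real.exp M * ‖F 0‖ * 1 := by ring
      _ ≤ Real.exp M * ‖F 0‖ * (R / β) := mul_le_mul_of_nonneg_left h4 h6.le
      _ = _ := by ring
  have hl10 : ldF F ρ R 0 ≠ 0 := by
    rw [← norm_pos_iff, hn1]
    positivity
  have hz1 : ∀ z ∈ closedBall (0 : ℂ) R, 0 ≤ z.re → ldF F ρ R z ≠ 0 := by
    intro z hzb hzre h5
    have h6 := ld_identity hR hFρ z
    rw [h5, zero_mul] at h6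
    rcases mul_eq_zero.1 h6 with h7 | h7
    · exact hz (z + z0) (hmem z hzb) (by rw [Complex.add_re]; linarith) h7
    · rw [mem_closedBall_zero_iff] at hzb
      exact ld_den_ne hρR hzb h7
  have h5 := ld_main n (ldF F ρ R) R M hR hM hn (ld_analytic hf' hρb) hl10 hb1 hz1
  have h6 := ld_logderiv hR hρ0 hρR hf' hF00 hFρ
  rw [hd, hF0] at h6
  rw [h6, Complex.add_re]
  have h7 : (-1 / ρ + (starRingEnd ℂ) ρ / (R : ℂ) ^ 2).re = 1 / β - β / R ^ 2 := by
    rw [hρ, Complex.conj_ofReal]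
    have : (-1 / ((-β : ℝ) : ℂ) + ((-β : ℝ) : ℂ) / (R : ℂ) ^ 2) =
        ((1 / β - β / R ^ 2 : ℝ) : ℂ) := by
      have hβ0 : (β : ℂ) ≠ 0 := by exact_mod_cast hβ.ne'
      push_cast
      field_simp
      ring
    rw [this, Complex.ofReal_re]
  rw [h7]
  have h8 : β / R ^ 2 ≤ 1 / (4 * R) := by
    rw [div_le_div_iff₀ (by positivity) (by positivity)]
    nlinarith
  have h9 : 4 * M / R + 1 / (4 * R) ≤ 8 * (M + 1) / R := by
    have e : 8 * (M + 1) / R - (4 * M / R + 1 / (4 * R)) = (4 * M + 31 / 4) / R := by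
      field_simp
      ring
    have e2 : 0 ≤ (4 * M + 31 / 4) / R := by positivity
    linarith
  linarith

end Pool.Agent.VK
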