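import Pool.Agent.Lib.VK.LUpper
import Pool.Agent.Lib.VK.Landau

/-!
# The zero free region

PROOF SKETCH. `ℓ = log T`, `B` = one more than the `B` of `l_upper A` (at least `1`). Suppose `L(β + iγ, χ) = 0` with
`ℓ^B ≤ |γ| ≤ T/4` and `β ≥ 1 - ℓ^(-19/20)`. By `DirichletCharacter.LFunction_ne_zero_of_one_le_re` `β < 1` (`γ ≠ 0`). Put
`R = ℓ^(-9/10)/2`, `M = 6 log ℓ`, `δ = R/(200 (M+1))`, `s1 = 1 + δ + iγ`, `s2 = 1 + δ + 2iγ`. On the closed balls of radius `R` about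
`s1` (for `χ`) and `s2` (for `χ^2`) the L-functions are analytic (`s ≠ 1`) and `≤ ℓ^2` by `l_upper` (the heights are between
`ℓ^B - 1` and `T`), and `|L(s_i)| ≥ δ/2` since for `Re s > 1`:
`1/|L(s,χ)| = |sum μ(n) χ(n) n^(-s)| ≤ sum n^(-σ) ≤ 1 + 1/(σ-1)` (compare `SW` library, `DirichletCharacter.LSeries_mul_mu_eq_one`). As
`ℓ^2 · 2/δ ≤ exp M` (`δ ≥ ℓ^(-2)`), `landau` applies to `χ^2` at `s2` and `landau_zero` to `χ` at `s1` with `1+δ-β` in place of `β`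
(`≤ R/4`); no zeros with `Re ≥ 1`. For real `σ = 1 + δ`, by `3 + 4 cos θ + cos 2θ ≥ 0` and `Λ ≥ 0`:
`0 ≤ 3 sum Λ(n) n^(-σ) + 4 Re sum Λ(n) χ(n) n^(-s1) + Re sum Λ(n) χ(n)^2 n^(-s2)`
(for `(n,q) > 1` the last two vanish; for others `χ(n) n^(-iγ) = e^(iθ)`; Mathlib:
`DirichletCharacter.LSeries_twist_vonMangoldt_eq`: these series are `-L'/L`), and `sum Λ(n) n^(-σ) ≤ 1/(σ-1) + C0` (e.g. from
`ArithmeticFunction.LSeries_vonMangoldt_eq_deriv_riemannZeta_div` and the pole, or `SW.ZetaF`, `SW.ZetaUpper`). So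
`0 ≤ 3/δ + 3 C0 + 4 (8 (M+1)/R - 1/(1+δ-β)) + 8 M/R`. But `1 - β ≤ ℓ^(-19/20) ≤ δ/10`, `4/(1+δ-β) ≥ (40/11)/δ`, and
`(40/11 - 3)/δ > 0.6 · 200 (M+1)/R > 40 (M+1)/R + 3 C0`. Contradiction.
-/

set_option autoImplicit false

open Finset Filter

namespace Pool.Agent.VK

namespace ZF

open Complex

lemma zeta_sum_le {x : ℝ} (hx : 0 < x) (hx1 : x ≤ 1) :
    ∑' n : ℕ, 1 / (n + 1 : ℝ) ^ (1 + x) ≤ 2 / x := by
  have h := ZetaAsymptotics.zeta_limit_aux1 (s := 1 + x) (by linarith)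
  have h2 : 0 ≤ ZetaAsymptotics.termTSum (1 + x) :=
    tsum_nonneg fun n => ZetaAsymptotics.term_nonneg _ _
  have h3 : 1 + x - 1 = x := by ring
  rw [h3] at h
  have h4 : (2 : ℝ) / x = 1 / x + 1 / x := by ring
  have h5 : (1 : ℝ) ≤ 1 / x := by rw [le_div_iff₀ hx]; linarith
  have h6 : 0 ≤ (1 + x) * ZetaAsymptotics.termTSum (1 + x) := mul_nonneg (by linarith) h2
  linarith

lemma norm_series_le {f : ℕ → ℂ} (hf : ∀ n, ‖f n‖ ≤ 1) {s : ℂ} {x : ℝ} (hx : 0 < x)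
    (hx1 : x ≤ 1) (hs : s.re = 1 + x) : ‖LSeries f s‖ ≤ 2 / x := by
  refine le_trans ?_ (zeta_sum_le hx hx1)
  have hsum : LSeriesSummable f s := by
    refine LSeriesSummable_of_bounded_of_one_lt_re (m := 1) (fun n _ => hf n) ?_
    rw [hs]
    linarith
  have h1 : Summable fun n : ℕ => 1 / (n + 1 : ℝ) ^ (1 + x) := by
    have := (Real.summable_one_div_nat_rpow (p := 1 + x)).mpr (by linarith)
    have h2 := (summable_nat_add_iff 1).mpr this
    simpa using h2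
  have h0 : ‖LSeries.term f s 0‖ = 0 := by simp
  unfold LSeries
  refine (norm_tsum_le_tsum_norm hsum.norm).trans ?_
  rw [hsum.norm.tsum_eq_zero_add, h0, zero_add]
  refine ((summable_nat_add_iff 1).mpr hsum.norm).tsum_le_tsum (fun n => ?_) h1
  rw [LSeries.term_of_ne_zero (Nat.succ_ne_zero n), norm_div]
  have h3 : ‖((n + 1 : ℕ) : ℂ) ^ s‖ = (n + 1 : ℝ) ^ (1 + x) := by
    rw [Complex.norm_natCast_cpow_of_pos (Nat.succ_pos n), hs]
    push_cast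
    rfl
  rw [h3]
  gcongr
  exact hf _

/-- lower bound to the right of the line -/
lemma lower {q : ℕ} [NeZero q] (χ : DirichletCharacter ℂ q) {s : ℂ} {x : ℝ} (hx : 0 < x)
    (hx1 : x ≤ 1) (hs : s.re = 1 + x) : x / 2 ≤ ‖χ.LFunction s‖ := by
  have hs1 : 1 < s.re := by
    rw [hs]
    linarith
  have h1 := DirichletCharacter.LSeries.mul_mu_eq_one χ hs1
  rw [← DirichletCharacter.LFunction_eq_LSeries χ hs1] at h1
  have h2 := norm_series_le (f := (fun n : ℕ => χ (n : ZMod q)) *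
    (fun n : ℕ => ((ArithmeticFunction.moebius n : ℤ) : ℂ))) (fun n => by
      rw [Pi.mul_apply, norm_mul]
      have h3 : ‖χ (n : ZMod q)‖ ≤ 1 := χ.norm_le_one _
      have h4 : ‖((ArithmeticFunction.moebius n : ℤ) : ℂ)‖ ≤ 1 := by
        rw [Complex.norm_intCast]
        have := ArithmeticFunction.abs_moebius_le_one (n := n)
        exact_mod_cast this
      calc ‖χ (n : ZMod q)‖ * ‖((ArithmeticFunction.moebius n : ℤ) : ℂ)‖ ≤ 1 * 1 :=
            mul_le_mul h3 h4 (norm_nonneg _) zero_le_one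
        _ = 1 := by norm_num) hx hx1 hs
  have h5 := congrArg norm h1
  rw [norm_mul, norm_one] at h5
  have h6 : 0 ≤ ‖χ.LFunction s‖ := norm_nonneg _
  have h7 : 1 ≤ ‖χ.LFunction s‖ * (2 / x) := by
    rw [← h5]
    exact mul_le_mul_of_nonneg_left h2 h6
  have h8 : ‖χ.LFunction s‖ * (2 / x) = ‖χ.LFunction s‖ * 2 / x := by ring
  rw [h8, le_div_iff₀ hx] at h7
  linarith

/-- the von Mangoldt series near one -/
lemma mangoldt_le : ∃ C : ℝ, 0 ≤ C ∧ ∀ x : ℝ, 0 < x → x ≤ 1 →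
    (LSeries (fun n : ℕ => ((ArithmeticFunction.vonMangoldt n : ℝ) : ℂ)) ((1 + x : ℝ) : ℂ)).re ≤
      1 / x + C := by
  have hcont := DirichletCharacter.continuousOn_neg_logDeriv_LFunctionTrivChar₁ 1
  set F := DirichletCharacter.LFunctionTrivChar₁ 1 with hF
  have hz : ∀ s : ℂ, DirichletCharacter.LFunctionTrivChar 1 s = riemannZeta s := fun s => by
    show DirichletCharacter.LFunction (1 : DirichletCharacter ℂ 1) s = riemannZeta s
    rw [DirichletCharacter.LFunction_modOne_eq]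
  have hpath : ContinuousOn (fun x : ℝ => -deriv F ((1 + x : ℝ) : ℂ) / F ((1 + x : ℝ) : ℂ))
      (Set.Icc 0 1) := by
    have h1 : ContinuousOn (fun x : ℝ => ((1 + x : ℝ) : ℂ)) (Set.Icc 0 1) := by fun_prop
    refine ContinuousOn.comp (t := {s | s = 1 ∨ DirichletCharacter.LFunctionTrivChar 1 s ≠ 0})
      hcont h1 ?_
    intro x hx
    rcases hx.1.eq_or_lt with h | h
    · left
      rw [← h]
      simp
    · right
      rw [hz]
      apply riemannZeta_ne_zero_of_one_lt_re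
      rw [Complex.ofReal_re]
      linarith
  obtain ⟨C, hC⟩ := (isCompact_Icc.exists_bound_of_continuousOn hpath)
  refine ⟨max C 0, le_max_right _ _, fun x hx hx1 => ?_⟩
  have hb := hC x ⟨hx.le, hx1⟩
  set s : ℂ := ((1 + x : ℝ) : ℂ) with hs
  have hsre : 1 < s.re := by
    rw [hs, Complex.ofReal_re]
    linarith
  have hs1 : s ≠ 1 := by
    intro h
    rw [h] at hsre
    simp at hsre
  have hζ : riemannZeta s ≠ 0 := riemannZeta_ne_zero_of_one_lt_re hsre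
  have hFs : F s = (s - 1) * riemannZeta s := by
    rw [hF, DirichletCharacter.LFunctionTrivChar₁, Function.update_of_ne hs1, hz]
  have hdF : deriv F s = (s - 1) * deriv riemannZeta s + riemannZeta s := by
    have h2 := DirichletCharacter.deriv_LFunctionTrivChar₁_apply_of_ne_one 1 hs1
    have h3 : DirichletCharacter.LFunctionTrivChar 1 = riemannZeta := funext hz
    rw [h3] at h2
    exact h2
  have hs10 : s - 1 ≠ 0 := sub_ne_zero.2 hs1
  have hx' : s - 1 = (x : ℂ) := by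
    rw [hs]
    push_cast
    ring
  have key : LSeries (fun n : ℕ => ((ArithmeticFunction.vonMangoldt n : ℝ) : ℂ)) s =
      ((1 / x : ℝ) : ℂ) + -deriv F s / F s := by
    rw [ArithmeticFunction.LSeries_vonMangoldt_eq_deriv_riemannZeta_div hsre, hdF, hFs]
    have h4 : ((1 / x : ℝ) : ℂ) = 1 / (s - 1) := by
      rw [hx']
      push_cast
      ring
    rw [h4]
    field_simp
    ring
  rw [key, Complex.add_re, Complex.ofReal_re]
  have h5 := (Complex.re_le_norm (-deriv F s / F s)).trans hb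
  have h6 := le_max_left C 0
  linarith only [h5, h6]

/-- the 3-4-1 inequality for logarithmic derivatives -/
lemma three_four_one {q : ℕ} [NeZero q] (χ : DirichletCharacter ℂ q) {x : ℝ} (hx : 0 < x)
    (y : ℝ) :
    0 ≤ 3 * (LSeries (fun n : ℕ => ((ArithmeticFunction.vonMangoldt n : ℝ) : ℂ))
        ((1 + x : ℝ) : ℂ)).re
      + 4 * (-deriv χ.LFunction ((1 + x : ℝ) + y * I) / χ.LFunction ((1 + x : ℝ) + y * I)).re
      + (-deriv (χ ^ 2).LFunction ((1 + x : ℝ) + (2 * y : ℝ) * I) /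
          (χ ^ 2).LFunction ((1 + x : ℝ) + (2 * y : ℝ) * I)).re := by
  set s0 : ℂ := ((1 + x : ℝ) : ℂ) with hs0
  set s1 : ℂ := ((1 + x : ℝ) : ℂ) + y * I with hs1
  set s2 : ℂ := ((1 + x : ℝ) : ℂ) + (2 * y : ℝ) * I with hs2
  have h0 : 1 < s0.re := by
    rw [hs0, Complex.ofReal_re]
    linarith
  have h1 : 1 < s1.re := by
    simp [hs1]
    linarith
  have h2 : 1 < s2.re := by
    simp [hs2]
    linarith
  set Λ : ℕ → ℂ := fun n => ((ArithmeticFunction.vonMangoldt n : ℝ) : ℂ) with hΛ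
  have e1 : -deriv χ.LFunction s1 / χ.LFunction s1 =
      LSeries ((fun n : ℕ => χ (n : ZMod q)) * Λ) s1 := by
    rw [DirichletCharacter.LFunction_eq_LSeries χ h1,
      DirichletCharacter.deriv_LFunction_eq_deriv_LSeries χ h1]
    exact (DirichletCharacter.LSeries_twist_vonMangoldt_eq χ h1).symm
  have e2 : -deriv (χ ^ 2).LFunction s2 / (χ ^ 2).LFunction s2 =
      LSeries ((fun n : ℕ => (χ ^ 2) (n : ZMod q)) * Λ) s2 := by
    rw [DirichletCharacter.LFunction_eq_LSeries (χ ^ 2) h2,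
      DirichletCharacter.deriv_LFunction_eq_deriv_LSeries (χ ^ 2) h2]
    exact (DirichletCharacter.LSeries_twist_vonMangoldt_eq (χ ^ 2) h2).symm
  rw [e1, e2]
  have S0 : LSeriesSummable Λ s0 := ArithmeticFunction.LSeriesSummable_vonMangoldt h0
  have S1 : LSeriesSummable ((fun n : ℕ => χ (n : ZMod q)) * Λ) s1 :=
    DirichletCharacter.LSeriesSummable_twist_vonMangoldt χ h1
  have S2 : LSeriesSummable ((fun n : ℕ => (χ ^ 2) (n : ZMod q)) * Λ) s2 :=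
    DirichletCharacter.LSeriesSummable_twist_vonMangoldt (χ ^ 2) h2
  unfold LSeries
  rw [Complex.re_tsum S0, Complex.re_tsum S1, Complex.re_tsum S2, ← tsum_mul_left,
    ← tsum_mul_left, ← Summable.tsum_add, ← Summable.tsum_add]
  rotate_left
  · exact ((Complex.hasSum_re S0.hasSum).summable.mul_left 3).add
      ((Complex.hasSum_re S1.hasSum).summable.mul_left 4)
  · exact (Complex.hasSum_re S2.hasSum).summable
  · exact (Complex.hasSum_re S0.hasSum).summable.mul_left 3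
  · exact (Complex.hasSum_re S1.hasSum).summable.mul_left 4
  refine tsum_nonneg fun n => ?_
  rcases Nat.eq_zero_or_pos n with hn | hn
  · subst hn
    simp
  have hn0 : n ≠ 0 := hn.ne'
  have hnC : (n : ℂ) ≠ 0 := by exact_mod_cast hn0
  rw [LSeries.term_of_ne_zero hn0, LSeries.term_of_ne_zero hn0, LSeries.term_of_ne_zero hn0]
  set a : ℝ := ArithmeticFunction.vonMangoldt n / (n : ℝ) ^ (1 + x) with ha
  have ha0 : 0 ≤ a := div_nonneg ArithmeticFunction.vonMangoldt_nonneg (by positivity)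
  set z : ℂ := χ (n : ZMod q) * (n : ℂ) ^ (-(y * I)) with hz
  have hznorm : ‖z‖ ≤ 1 := by
    rw [hz, norm_mul]
    have h3 : ‖(n : ℂ) ^ (-(y * I) : ℂ)‖ = 1 := by
      rw [Complex.norm_natCast_cpow_of_pos hn]
      simp
    rw [h3, mul_one]
    exact χ.norm_le_one _
  have hn1 : (n : ℂ) ^ s0 = (((n : ℝ) ^ (1 + x) : ℝ) : ℂ) := by
    rw [hs0, Complex.ofReal_cpow (Nat.cast_nonneg _)]
    simp
  have t0 : Λ n / (n : ℂ) ^ s0 = (a : ℂ) := by
    rw [hn1, ha]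
    push_cast
    rfl
  have t1 : ((fun n : ℕ => χ (n : ZMod q)) * Λ) n / (n : ℂ) ^ s1 = (a : ℂ) * z := by
    have h4 : s1 = s0 + y * I := rfl
    rw [h4, Complex.cpow_add _ _ hnC, hn1, hz, Complex.cpow_neg, Pi.mul_apply, ha]
    push_cast
    rw [hΛ]
    field_simp
  have t2 : ((fun n : ℕ => (χ ^ 2) (n : ZMod q)) * Λ) n / (n : ℂ) ^ s2 = (a : ℂ) * z ^ 2 := by
    have h4 : s2 = s0 + (y * I + y * I) := by
      rw [hs2, hs0]
      push_cast
      ring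
    rw [h4, Complex.cpow_add _ _ hnC, Complex.cpow_add _ _ hnC, hn1, hz, Complex.cpow_neg,
      Pi.mul_apply, ha]
    have h5 : (χ ^ 2) (n : ZMod q) = χ (n : ZMod q) ^ 2 := by
      rw [MulChar.pow_apply' χ two_ne_zero]
    rw [h5, hΛ]
    push_cast
    field_simp
  rw [t0, t1, t2, Complex.ofReal_re, Complex.re_ofReal_mul, Complex.re_ofReal_mul]
  have h6 : (z ^ 2).re = z.re ^ 2 - z.im ^ 2 := by
    rw [sq, Complex.mul_re]
    ring
  have h7 : z.re ^ 2 + z.im ^ 2 ≤ 1 := by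
    have h8 : z.re ^ 2 + z.im ^ 2 = ‖z‖ ^ 2 := by
      rw [← Complex.normSq_eq_norm_sq, Complex.normSq_apply]
      ring
    rw [h8]
    exact pow_le_one₀ (norm_nonneg _) hznorm
  have h9 : 0 ≤ 3 + 4 * z.re + (z ^ 2).re := by
    rw [h6]
    nlinarith only [h7, sq_nonneg (1 + z.re)]
  have h10 := mul_nonneg ha0 h9
  linarith only [h10]

/-- the hypotheses of the lemma of Landau -/
lemma ball {q : ℕ} [NeZero q] (χ : DirichletCharacter ℂ q) {ℓ T : ℝ} {B0 : ℕ} (hℓ : 2 ≤ ℓ)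
    (hup : ∀ s : ℂ, 1 - ℓ ^ (-(9 / 10) : ℝ) ≤ s.re → s.re ≤ 3 → ℓ ^ B0 ≤ |s.im| → |s.im| ≤ T →
      ‖χ.LFunction s‖ ≤ ℓ ^ 2)
    {z0 : ℂ} {δ R M : ℝ} (hre : z0.re = 1 + δ) (hδ : 0 < δ) (hδ1 : δ ≤ 1)
    (hR1 : R ≤ ℓ ^ (-(9 / 10) : ℝ)) (hR2 : R ≤ 1)
    (him : ℓ ^ B0 + 1 ≤ |z0.im|) (him2 : |z0.im| + 1 ≤ T) (hM : ℓ ^ 2 * (2 / δ) ≤ Real.exp M) :
    AnalyticOnNhd ℂ χ.LFunction (Metric.closedBall z0 R) ∧ χ.LFunction z0 ≠ 0 ∧
    (∀ z ∈ Metric.closedBall z0 R, ‖χ.LFunction z‖ ≤ Real.exp M * ‖χ.LFunction z0‖) ∧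
    (∀ z ∈ Metric.closedBall z0 R, z0.re ≤ z.re → χ.LFunction z ≠ 0) := by
  have hB : 0 < ℓ ^ B0 := by positivity
  have hmem : ∀ z ∈ Metric.closedBall z0 R, 1 + δ - R ≤ z.re ∧ z.re ≤ 3 ∧ ℓ ^ B0 ≤ |z.im| ∧
      |z.im| ≤ T := by
    intro z hz
    rw [mem_closedBall_iff_norm] at hz
    have h1 := (Complex.abs_re_le_norm (z - z0)).trans hz
    have h2 := (Complex.abs_im_le_norm (z - z0)).trans hz
    rw [Complex.sub_re, abs_le] at h1
    rw [Complex.sub_im] at h2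
    have h3 : |z0.im| - |z.im| ≤ |z.im - z0.im| := by
      rw [abs_sub_comm]
      exact abs_sub_abs_le_abs_sub _ _
    have h4 : |z.im| - |z0.im| ≤ |z.im - z0.im| := abs_sub_abs_le_abs_sub _ _
    refine ⟨by linarith only [hre, h1, h1.1], by linarith only [hre, hδ1, hR2, h1, h1.2], by linarith only [hR2, him, h2, h3], by linarith only [hR2, him2, h2, h4]⟩
  have hne1 : ∀ z ∈ Metric.closedBall z0 R, z ≠ 1 := by
    intro z hz h
    have := (hmem z hz).2.2.1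
    rw [h] at this
    simp at this
    linarith only [hB, this]
  have hlow : δ / 2 ≤ ‖χ.LFunction z0‖ := lower χ hδ hδ1 hre
  have hz0 : χ.LFunction z0 ≠ 0 := by
    intro h
    rw [h, norm_zero] at hlow
    linarith only [hδ, hlow]
  refine ⟨?_, hz0, ?_, ?_⟩
  · intro z hz
    have hd : DifferentiableOn ℂ χ.LFunction {w | w ≠ 1} := fun w hw =>
      (DirichletCharacter.differentiableAt_LFunction χ w (Or.inl hw)).differentiableWithinAt
    exact hd.analyticAt (isOpen_ne.mem_nhds (hne1 z hz))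
  · intro z hz
    obtain ⟨h1, h2, h3, h4⟩ := hmem z hz
    have h5 := hup z (by linarith only [hδ, hR1, h1]) h2 h3 h4
    refine h5.trans ?_
    have h6 : ℓ ^ 2 = ℓ ^ 2 * (2 / δ) * (δ / 2) := by
      field_simp
    rw [h6]
    exact mul_le_mul hM hlow (by positivity) (Real.exp_pos _).le
  · intro z hz hre'
    refine DirichletCharacter.LFunction_ne_zero_of_one_le_re χ (Or.inr (hne1 z hz)) ?_
    linarith only [hre, hδ, hre']

/-- the contradiction, for fixed parameters -/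
lemma final {q : ℕ} [NeZero q] (χ : DirichletCharacter ℂ q) {ℓ T C : ℝ} {B0 : ℕ} (hℓ : 2 ≤ ℓ)
    (hC : ∀ x : ℝ, 0 < x → x ≤ 1 →
      (LSeries (fun n : ℕ => ((ArithmeticFunction.vonMangoldt n : ℝ) : ℂ)) ((1 + x : ℝ) : ℂ)).re ≤
      1 / x + C)
    (hup : ∀ χ : DirichletCharacter ℂ q, ∀ s : ℂ, 1 - ℓ ^ (-(9 / 10) : ℝ) ≤ s.re → s.re ≤ 3 →
      ℓ ^ B0 ≤ |s.im| → |s.im| ≤ T → ‖χ.LFunction s‖ ≤ ℓ ^ 2)
    (c1 : ℓ ^ (-(19 / 20) : ℝ) * (4000 * (6 * Real.log ℓ + 1)) ≤ ℓ ^ (-(9 / 10) : ℝ))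
    (c2 : 800 * (6 * Real.log ℓ + 1) * ℓ ^ 2 ≤ ℓ ^ (-(9 / 10) : ℝ) * ℓ ^ 6)
    (c3 : C * ℓ ^ (-(9 / 10) : ℝ) ≤ 1) (hT : 4 ≤ T) {s : ℂ}
    (hs1 : 1 - ℓ ^ (-(19 / 20) : ℝ) ≤ s.re) (hs2 : ℓ ^ (B0 + 1) ≤ |s.im|) (hs3 : |s.im| ≤ T / 4) :
    χ.LFunction s ≠ 0 := by
  intro hzero
  have hℓ0 : 0 < ℓ := by linarith only [hℓ]
  set a := ℓ ^ (-(9 / 10) : ℝ) with ha
  have ha0 : 0 < a := Real.rpow_pos_of_pos hℓ0 _
  have ha1 : a ≤ 1 := Real.rpow_le_one_of_one_le_of_nonpos (by linarith only [hℓ]) (by norm_num)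
  set b := ℓ ^ (-(19 / 20) : ℝ) with hb
  have hb0 : 0 < b := Real.rpow_pos_of_pos hℓ0 _
  set G := 6 * Real.log ℓ + 1 with hG
  have hG1 : 1 ≤ G := by
    have := Real.log_nonneg (by linarith only [hℓ] : (1:ℝ) ≤ ℓ)
    linarith only [this]
  set R := a / 2 with hR
  set δ := a / (400 * G) with hδ
  have hδ0 : 0 < δ := by positivity
  have hδR : δ * 200 ≤ R := by
    rw [hδ, hR, div_mul_eq_mul_div, div_le_div_iff₀ (by positivity) (by norm_num)]
    nlinarith only [ha0, hG1]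
  have hR1 : R ≤ a := by linarith only [hR, hδ0, hδR]
  have hbδ : b * 10 ≤ δ := by
    rw [hδ, le_div_iff₀ (by (clear * - hG1; positivity))]
    linarith only [c1]
  have hexp : Real.exp (6 * Real.log ℓ) = ℓ ^ 6 := by
    rw [show 6 * Real.log ℓ = Real.log (ℓ ^ 6) by rw [Real.log_pow]; norm_num,
      Real.exp_log (by (clear * - hℓ; positivity))]
  have hM : ℓ ^ 2 * (2 / δ) ≤ Real.exp (6 * Real.log ℓ) := by
    rw [hexp, hδ]
    have h1 : ℓ ^ 2 * (2 / (a / (400 * G))) = 800 * G * ℓ ^ 2 / a := by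
      field_simp
      ring
    rw [h1, div_le_iff₀ ha0]
    linarith only [c2]
  -- heights
  have hpow : ℓ ^ B0 + 1 ≤ ℓ ^ (B0 + 1) := by
    have h1 : 1 ≤ ℓ ^ B0 := one_le_pow₀ (by linarith only [hℓ])
    rw [pow_succ]
    nlinarith only [hℓ, h1]
  set y := s.im with hy
  set s1 : ℂ := ((1 + δ : ℝ) : ℂ) + y * I with hs1'
  set s2 : ℂ := ((1 + δ : ℝ) : ℂ) + (2 * y : ℝ) * I with hs2'
  have r1 : s1.re = 1 + δ := by simp [hs1']
  have i1 : s1.im = y := by simp [hs1']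
  have r2 : s2.re = 1 + δ := by simp [hs2']
  have i2 : s2.im = 2 * y := by simp [hs2']
  have ab2 : |2 * y| = 2 * |y| := by
    rw [abs_mul, abs_of_pos (by norm_num : (0:ℝ) < 2)]
  have hy0 : 0 ≤ |y| := abs_nonneg _
  obtain ⟨an1, nz1, bd1, nv1⟩ := ball χ hℓ (hup χ) (z0 := s1) (R := R) r1 hδ0 (by linarith only [ha1, hb0, hR, hδR, hbδ]) hR1
    (by linarith only [ha1, hb0, hR, hδR, hbδ]) (by rw [i1]; linarith only [hpow, hs2]) (by rw [i1]; linarith only [hT, hs3]) hM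
  obtain ⟨an2, nz2, bd2, nv2⟩ := ball (χ ^ 2) hℓ (hup (χ ^ 2)) (z0 := s2) (R := R) r2 hδ0
    (by linarith only [ha1, hb0, hR, hδR, hbδ]) hR1 (by linarith only [ha1, hb0, hR, hδR, hbδ]) (by rw [i2, ab2]; linarith only [hpow, hs2, hy0]) (by rw [i2, ab2]; linarith only [hT, hs3]) hM
  have hR0 : 0 < R := by (clear * - hℓ; positivity)
  have hM0 : 0 ≤ 6 * Real.log ℓ := by linarith only [hG1]
  -- the zero
  have hslt : s.re < 1 := by
    by_contra hcon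
    push Not at hcon
    have hne : s ≠ 1 := by
      intro h
      have h1 : 0 < ℓ ^ (B0 + 1) := by (clear * - hℓ; positivity)
      rw [hy, h, Complex.one_im, abs_zero] at hs2
      linarith only [hs2, h1]
    exact DirichletCharacter.LFunction_ne_zero_of_one_le_re χ (Or.inr hne) hcon hzero
  set β := 1 + δ - s.re with hβ
  have hβ0 : 0 < β := by linarith only [hb0, hbδ, hslt]
  have hβ1 : β * 10 ≤ 11 * δ := by linarith only [hs1, hbδ]
  have hβR : β ≤ R / 4 := by linarith only [hs1, hb0, hδR, hbδ]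
  have hsβ : s1 - (β : ℂ) = s := by
    apply Complex.ext
    · rw [Complex.sub_re, r1, Complex.ofReal_re, hβ]
      ring
    · rw [Complex.sub_im, i1, Complex.ofReal_im, sub_zero]
  have L1 := landau_zero χ.LFunction s1 R (6 * Real.log ℓ) hR0 hM0 an1 nz1 bd1 nv1 β hβ0 hβR
    (by rw [hsβ]; exact hzero)
  have L2 := landau (χ ^ 2).LFunction s2 R (6 * Real.log ℓ) hR0 hM0 an2 nz2 bd2 nv2
  have T1 := three_four_one χ hδ0 y
  rw [neg_div, neg_div, Complex.neg_re, Complex.neg_re] at T1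
  have H1 := hC δ hδ0 (by linarith only [ha1, hb0, hR, hδR, hbδ])
  -- numbers
  have hG' : 6 * Real.log ℓ = G - 1 := by rw [hG]; ring
  rw [hG'] at L1 L2
  have e1 : G - 1 + 1 = G := by ring
  rw [e1] at L1
  have n1 : 1 / R = 2 / a := by
    rw [hR]
    field_simp
  have n2 : 8 * G / R = 16 * (G / a) := by
    rw [hR]
    field_simp
    ring
  have n3 : 8 * (G - 1) / R = 16 * (G / a) - 16 * (1 / a) := by
    rw [hR]
    field_simp
    ring
  have n4 : 1 / δ = 400 * (G / a) := by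
    rw [hδ]
    field_simp
  have n5 : (10 / 11) * (1 / δ) ≤ 1 / β := by
    rw [mul_one_div, div_le_div_iff₀ hδ0 hβ0]
    linarith only [hs1, hbδ]
  have n6 : C ≤ 1 / a := by
    rw [le_div_iff₀ ha0]
    exact c3
  have n7 : 1 / a ≤ G / a := div_le_div_of_nonneg_right hG1 ha0.le
  have n8 : 0 < 1 / a := by (clear * - hℓ; positivity)
  rw [n2] at L1
  rw [n3] at L2
  rw [n4] at n5 H1
  linarith

end ZF

open ZF in
theorem zero_free (A : ℕ) : ∃ B : ℕ, ∀ᶠ T : ℝ in atTop, ∀ (q : ℕ) [NeZero q] (χ : DirichletCharacter ℂ q),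
    (q : ℝ) ≤ Real.log T ^ A → ∀ s : ℂ, 1 - Real.log T ^ (-(19 / 20) : ℝ) ≤ s.re →
    Real.log T ^ B ≤ |s.im| → |s.im| ≤ T / 4 → χ.LFunction s ≠ 0 := by
  obtain ⟨B0, hB0⟩ := l_upper A
  obtain ⟨C, hC0, hC⟩ := mangoldt_le
  refine ⟨B0 + 1, ?_⟩
  have hlog : Tendsto Real.log atTop atTop := Real.tendsto_log_atTop
  have c1 : ∀ᶠ ℓ : ℝ in atTop,
      ℓ ^ (-(19 / 20) : ℝ) * (4000 * (6 * Real.log ℓ + 1)) ≤ ℓ ^ (-(9 / 10) : ℝ) := by
    have h1 : ∀ᶠ ℓ : ℝ in atTop, ‖Real.log ℓ‖ ≤ (1 / 28000 : ℝ) * ‖ℓ ^ (1 / 20 : ℝ)‖ :=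
      (isLittleO_log_rpow_atTop (by norm_num : (0:ℝ) < 1 / 20)).bound (by norm_num)
    filter_upwards [h1, eventually_ge_atTop (Real.exp 1)] with ℓ h2 h3
    have h4 : 0 < ℓ := lt_of_lt_of_le (Real.exp_pos 1) h3
    have h5 : 1 ≤ Real.log ℓ := by
      rw [Real.le_log_iff_exp_le h4]
      exact h3
    rw [Real.norm_eq_abs, abs_of_nonneg (by linarith), Real.norm_eq_abs,
      abs_of_nonneg (Real.rpow_nonneg h4.le _)] at h2
    have h6 : ℓ ^ (-(9 / 10) : ℝ) = ℓ ^ (-(19 / 20) : ℝ) * ℓ ^ (1 / 20 : ℝ) := by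
      rw [← Real.rpow_add h4]
      norm_num
    rw [h6]
    refine mul_le_mul_of_nonneg_left ?_ (Real.rpow_nonneg h4.le _)
    linarith
  have c3 : ∀ᶠ ℓ : ℝ in atTop, C * ℓ ^ (-(9 / 10) : ℝ) ≤ 1 := by
    have h1 : Tendsto (fun ℓ : ℝ => C * ℓ ^ (-(9 / 10) : ℝ)) atTop (nhds (C * 0)) :=
      (tendsto_rpow_neg_atTop (by norm_num : (0:ℝ) < 9 / 10)).const_mul C
    rw [mul_zero] at h1
    exact h1.eventually_le_const (by norm_num : (0:ℝ) < 1)
  filter_upwards [hB0, hlog.eventually c1, hlog.eventually c3, hlog.eventually_ge_atTop 2,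
    eventually_ge_atTop 4] with T hT h1 h3 h4 h5 q _ χ hq s hs1 hs2 hs3
  refine final χ (B0 := B0) (T := T) (C := C) h4 hC (fun χ' s' a1 a2 a3 a4 => hT q χ' hq s' a1 a2
    a3 a4) h1 ?_ h3 h5 hs1 hs2 hs3
  set ℓ := Real.log T with hℓ
  have hℓ0 : 0 < ℓ := by linarith only [h4]
  have k1 : 4000 * (6 * Real.log ℓ + 1) ≤ ℓ ^ (-(9 / 10) : ℝ) * ℓ := by
    have k2 : ℓ ^ (-(19 / 20) : ℝ) * (ℓ ^ (19 / 20 : ℝ)) = 1 := by
      rw [← Real.rpow_add hℓ0]
      norm_num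
    have k3 : ℓ ^ (19 / 20 : ℝ) ≤ ℓ := by
      calc ℓ ^ (19 / 20 : ℝ) ≤ ℓ ^ (1 : ℝ) :=
            Real.rpow_le_rpow_of_exponent_le (by linarith only [h4]) (by norm_num)
        _ = ℓ := Real.rpow_one _
    have k4 : 0 ≤ ℓ ^ (19 / 20 : ℝ) := Real.rpow_nonneg hℓ0.le _
    have k5 : 0 ≤ ℓ ^ (-(9 / 10) : ℝ) := Real.rpow_nonneg hℓ0.le _
    calc 4000 * (6 * Real.log ℓ + 1) =
          ℓ ^ (-(19 / 20) : ℝ) * (4000 * (6 * Real.log ℓ + 1)) * ℓ ^ (19 / 20 : ℝ) := by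
            rw [mul_right_comm, k2, one_mul]
      _ ≤ ℓ ^ (-(9 / 10) : ℝ) * ℓ ^ (19 / 20 : ℝ) := mul_le_mul_of_nonneg_right h1 k4
      _ ≤ ℓ ^ (-(9 / 10) : ℝ) * ℓ := mul_le_mul_of_nonneg_left k3 k5
  have k6 : ℓ * ℓ ^ 2 ≤ ℓ ^ 6 := by
    rw [← pow_succ']
    exact pow_le_pow_right₀ (by linarith only [h4]) (by norm_num)
  have k7 : 0 ≤ ℓ ^ (-(9 / 10) : ℝ) := Real.rpow_nonneg hℓ0.le _
  have k8 : 0 ≤ ℓ ^ 2 := by positivity
  calc 800 * (6 * Real.log ℓ + 1) * ℓ ^ 2 ≤ 4000 * (6 * Real.log ℓ + 1) * ℓ ^ 2 := by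
        have : 0 ≤ Real.log ℓ := Real.log_nonneg (by linarith only [h4])
        nlinarith only [this]
    _ ≤ ℓ ^ (-(9 / 10) : ℝ) * ℓ * ℓ ^ 2 := mul_le_mul_of_nonneg_right k1 k8
    _ = ℓ ^ (-(9 / 10) : ℝ) * (ℓ * ℓ ^ 2) := by ring
    _ ≤ ℓ ^ (-(9 / 10) : ℝ) * ℓ ^ 6 := mul_le_mul_of_nonneg_left k6 k7

end Pool.Agent.VK
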