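import Pool.Agent.Lib.SW.HalfPlane

/-!
# Approximation of L-functions by partial sums to the right of `Re s = 1/2`

PROOF SKETCH. Let `c = (sum_a Φ a)/q`, `S(u) = sum_(1 ≤ n ≤ u) Φ n = c u + R(u)` with `|R(u)| ≤ 2 q` (period `q`:
`SW.sum_period`). For `Re s > 1` (`ZMod.LFunction_eq_LSeries`) partial summation gives
`L(s) - sum_(n ≤ N) Φ(n) n^(-s) = -S(N) N^(-s) + s ∫_N^∞ S(u) u^(-s-1) du
 = c N^(1-s)/(s-1) - R(N) N^(-s) + s ∫_N^∞ R(u) u^(-s-1) du`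
and the last two terms are `≤ 2 q N^(-σ) (1 + |s|/σ)`. The right hand side is analytic in `Re s > 0` except at `s = 1`
(for the integral: `hasDerivAt_integral_of_dominated_loc_of_deriv_le` or the Mellin transform as in `SW.HalfPlane`), so by the
identity theorem (`AnalyticOnNhd.eqOn_of_preconnected_of_eventuallyEq` on `{Re s > 0} \ {1}`, connected) the formula holds
there (`ZMod.differentiableAt_LFunction`). Alternative without integrals: for `N' > N` the difference of the expressions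
`A_N(s) = sum_(n ≤ N) Φ(n) n^(-s) + c N^(1-s)/(s-1)` is `≤ 8 q |s| N^(-σ)` for all `σ ≥ 1/2` (finite Abel summation) so `A_N` converges locally
uniformly on `{Re s > 1/2 - δ} \ {1}` to an analytic function, equal to `L(s)` for `Re s > 1`.
-/

set_option autoImplicit false

open Finset
open Complex MeasureTheory Filter Topology

namespace Pool.Agent.VK

namespace ApproxAux

lemma norm_avg_le {q : ℕ} [NeZero q] (Φ : ZMod q → ℂ) (hΦ : ∀ a, ‖Φ a‖ ≤ 1) :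
    ‖(∑ a, Φ a) / q‖ ≤ 1 := by
  have hq : (0 : ℝ) < q := Nat.cast_pos.2 (NeZero.pos q)
  rw [norm_div, Complex.norm_natCast, div_le_one hq]
  refine (norm_sum_le _ _).trans ((Finset.sum_le_sum fun a _ => hΦ a).trans ?_)
  rw [Finset.sum_const, Finset.card_univ, ZMod.card, nsmul_eq_mul, mul_one]

lemma period_bound {q : ℕ} [NeZero q] (Φ : ZMod q → ℂ) (hΦ : ∀ a, ‖Φ a‖ ≤ 1) (m : ℕ) : ∀ N : ℕ,
    ‖∑ k ∈ range m, (Φ ((N + k : ℕ) : ZMod q) - (∑ a, Φ a) / q)‖ ≤ 2 * q := by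
  have hq : (0 : ℝ) < q := Nat.cast_pos.2 (NeZero.pos q)
  induction m using Nat.strong_induction_on with
  | _ m ih =>
    intro N
    by_cases hm : m < q
    · have h1 : ∀ k ∈ range m, ‖Φ ((N + k : ℕ) : ZMod q) - (∑ a, Φ a) / q‖ ≤ 2 := by
        intro k _
        refine (norm_sub_le _ _).trans ?_
        have h2 := hΦ ((N + k : ℕ) : ZMod q)
        have h3 := norm_avg_le Φ hΦ
        linarith
      refine (norm_sum_le_of_le _ h1).trans ?_
      rw [Finset.sum_const, card_range, nsmul_eq_mul, mul_comm]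
      have h4 : (m : ℝ) ≤ q := by exact_mod_cast hm.le
      linarith
    · push Not at hm
      obtain ⟨m', rfl⟩ : ∃ m', m = q + m' := ⟨m - q, by omega⟩
      rw [Finset.sum_range_add]
      have h1 : ∑ k ∈ range q, (Φ ((N + k : ℕ) : ZMod q) - (∑ a, Φ a) / q) = 0 := by
        rw [Finset.sum_sub_distrib, Pool.Agent.Lib.SW.sum_period, Finset.sum_const, card_range,
          nsmul_eq_mul, mul_div_cancel₀, sub_self]
        exact Nat.cast_ne_zero.2 (NeZero.ne q)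
      rw [h1, zero_add]
      have h2 : ∀ k ∈ range m', (Φ ((N + (q + k) : ℕ) : ZMod q) - (∑ a, Φ a) / q) =
          Φ ((N + k : ℕ) : ZMod q) - (∑ a, Φ a) / q := by
        intro k _
        congr 2
        push_cast
        rw [ZMod.natCast_self]
        ring
      rw [Finset.sum_congr rfl h2]
      exact ih m' (by have := NeZero.pos q; omega) N

/-- the coefficients after `N` -/
noncomputable def fN {q : ℕ} (Φ : ZMod q → ℂ) (N : ℕ) : ℕ → ℂ :=
  fun n => if N < n then Φ (n : ZMod q) else 0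

lemma sum_fN_le {q : ℕ} (Φ : ZMod q → ℂ) {N M : ℕ} (h : M ≤ N) :
    ∑ k ∈ Icc 1 M, fN Φ N k = 0 := by
  refine Finset.sum_eq_zero fun k hk => ?_
  have := (Finset.mem_Icc.1 hk).2
  unfold fN
  rw [if_neg (by omega)]

lemma sum_fN_ge {q : ℕ} (Φ : ZMod q → ℂ) {N M : ℕ} (h : N ≤ M) :
    ∑ k ∈ Icc 1 M, fN Φ N k = ∑ k ∈ range (M - N), Φ ((N + 1 + k : ℕ) : ZMod q) := by
  have h1 : ∑ k ∈ Icc 1 M, fN Φ N k = ∑ k ∈ Ico (N + 1) (M + 1), Φ (k : ZMod q) := by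
    unfold fN
    rw [← Finset.sum_filter]
    refine Finset.sum_congr ?_ fun _ _ => rfl
    ext k
    simp only [Finset.mem_filter, Finset.mem_Icc, Finset.mem_Ico]
    omega
  rw [h1, Finset.sum_Ico_eq_sum_range, Nat.add_sub_add_right]

lemma dev_bound {q : ℕ} [NeZero q] (Φ : ZMod q → ℂ) (hΦ : ∀ a, ‖Φ a‖ ≤ 1) {N M : ℕ} (h : N ≤ M) :
    ‖∑ k ∈ Icc 1 M, fN Φ N k - (∑ a, Φ a) / q * ((M : ℂ) - N)‖ ≤ 2 * q := by
  have h1 := period_bound Φ hΦ (M - N) (N + 1)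
  rw [Finset.sum_sub_distrib, Finset.sum_const, card_range, nsmul_eq_mul] at h1
  rw [sum_fN_ge Φ h]
  have h2 : ((M : ℂ) - N) = ((M - N : ℕ) : ℂ) := by rw [Nat.cast_sub h]
  rw [h2, mul_comm ((∑ a, Φ a) / (q : ℂ))]
  exact h1

/-- the remainder -/
noncomputable def RR {q : ℕ} [NeZero q] (Φ : ZMod q → ℂ) (N : ℕ) : ℝ → ℂ :=
  Set.indicator (Set.Ioi (N : ℝ)) (fun t => ∑ k ∈ Icc 1 ⌊t⌋₊, fN Φ N k -
    (∑ a, Φ a) / q * ((t : ℂ) - N))

lemma measurable_RR {q : ℕ} [NeZero q] (Φ : ZMod q → ℂ) (N : ℕ) : Measurable (RR Φ N) := by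
  refine Measurable.indicator ?_ measurableSet_Ioi
  refine Measurable.sub ?_ ?_
  · exact (measurable_from_nat (f := fun n : ℕ => ∑ k ∈ Icc 1 n, fN Φ N k)).comp
      Nat.measurable_floor
  · exact Measurable.const_mul (Complex.measurable_ofReal.sub_const _) _

lemma norm_RR_le {q : ℕ} [NeZero q] (Φ : ZMod q → ℂ) (hΦ : ∀ a, ‖Φ a‖ ≤ 1) (N : ℕ) (t : ℝ) :
    ‖RR Φ N t‖ ≤ 3 * q := by
  have hq : (1 : ℝ) ≤ q := by exact_mod_cast NeZero.pos q
  unfold RR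
  by_cases ht : t ∈ Set.Ioi (N : ℝ)
  · rw [Set.indicator_of_mem ht]
    have ht' : (N : ℝ) < t := ht
    have ht0 : 0 ≤ t := (Nat.cast_nonneg N).trans ht'.le
    have hNt : N ≤ ⌊t⌋₊ := Nat.le_floor ht'.le
    have h1 := dev_bound Φ hΦ hNt
    have h2 : ∑ k ∈ Icc 1 ⌊t⌋₊, fN Φ N k - (∑ a, Φ a) / q * ((t : ℂ) - N) =
        (∑ k ∈ Icc 1 ⌊t⌋₊, fN Φ N k - (∑ a, Φ a) / q * ((⌊t⌋₊ : ℂ) - N)) -
        (∑ a, Φ a) / q * ((t : ℂ) - (⌊t⌋₊ : ℂ)) := by ring
    rw [h2]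
    refine (norm_sub_le _ _).trans ?_
    have h3 : ‖(∑ a, Φ a) / q * ((t : ℂ) - (⌊t⌋₊ : ℂ))‖ ≤ 1 := by
      rw [norm_mul]
      have h4 : ‖(t : ℂ) - (⌊t⌋₊ : ℂ)‖ ≤ 1 := by
        rw [show (t : ℂ) - (⌊t⌋₊ : ℂ) = ((t - ⌊t⌋₊ : ℝ) : ℂ) by push_cast; ring,
          Complex.norm_real, Real.norm_eq_abs, abs_le]
        have h5 := Nat.floor_le ht0
        have h6 := Nat.lt_floor_add_one t
        constructor <;> linarith
      calc ‖(∑ a, Φ a) / (q : ℂ)‖ * ‖(t : ℂ) - (⌊t⌋₊ : ℂ)‖ ≤ 1 * 1 :=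
            mul_le_mul (norm_avg_le Φ hΦ) h4 (norm_nonneg _) zero_le_one
        _ = 1 := one_mul 1
    linarith
  · rw [Set.indicator_of_notMem ht, norm_zero]
    positivity

lemma locInt_RR {q : ℕ} [NeZero q] (Φ : ZMod q → ℂ) (hΦ : ∀ a, ‖Φ a‖ ≤ 1) (N : ℕ) :
    LocallyIntegrable (RR Φ N) := by
  refine (locallyIntegrable_const (3 * q : ℝ)).mono (measurable_RR Φ N).aestronglyMeasurable ?_
  refine Filter.Eventually.of_forall fun t => ?_
  rw [Real.norm_of_nonneg (by positivity)]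
  exact norm_RR_le Φ hΦ N t

lemma mellin_RR {q : ℕ} [NeZero q] (Φ : ZMod q → ℂ) (N : ℕ) (s : ℂ) :
    mellin (RR Φ N) (-s) = ∫ t in Set.Ioi (N : ℝ), (∑ k ∈ Icc 1 ⌊t⌋₊, fN Φ N k -
      (∑ a, Φ a) / q * ((t : ℂ) - N)) * (t : ℂ) ^ (-(s + 1)) := by
  unfold mellin RR
  have h1 : ∀ t : ℝ, (t : ℂ) ^ (-s - 1) • Set.indicator (Set.Ioi (N : ℝ)) (fun t : ℝ =>
      ∑ k ∈ Icc 1 ⌊t⌋₊, fN Φ N k - (∑ a, Φ a) / q * ((t : ℂ) - N)) t =
      Set.indicator (Set.Ioi (N : ℝ)) (fun t : ℝ => (∑ k ∈ Icc 1 ⌊t⌋₊, fN Φ N k -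
        (∑ a, Φ a) / q * ((t : ℂ) - N)) * (t : ℂ) ^ (-(s + 1))) t := by
    intro t
    by_cases ht : t ∈ Set.Ioi (N : ℝ)
    · rw [Set.indicator_of_mem ht, Set.indicator_of_mem ht, smul_eq_mul, mul_comm, neg_add']
    · rw [Set.indicator_of_notMem ht, Set.indicator_of_notMem ht, smul_zero]
  simp_rw [h1]
  rw [setIntegral_indicator measurableSet_Ioi]
  congr 2
  rw [Set.inter_eq_self_of_subset_right]
  exact Set.Ioi_subset_Ioi (Nat.cast_nonneg N)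

lemma RR_top {q : ℕ} [NeZero q] (Φ : ZMod q → ℂ) (hΦ : ∀ a, ‖Φ a‖ ≤ 1) (N : ℕ) :
    (RR Φ N) =O[atTop] (fun t : ℝ => t ^ (-(0 : ℝ))) := by
  refine Asymptotics.IsBigO.of_bound (3 * q) (Filter.Eventually.of_forall fun t => ?_)
  simpa using norm_RR_le Φ hΦ N t

lemma RR_bot {q : ℕ} [NeZero q] (Φ : ZMod q → ℂ) {N : ℕ} (hN : 1 ≤ N) (b : ℝ) :
    (RR Φ N) =O[𝓝[>] 0] (fun t : ℝ => t ^ (-b)) := by
  refine Asymptotics.IsBigO.of_bound 1 ?_
  have : Set.Ioo (0 : ℝ) 1 ∈ 𝓝[>] (0 : ℝ) := Ioo_mem_nhdsGT one_pos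
  filter_upwards [this] with t ht
  have h1 : t ∉ Set.Ioi (N : ℝ) := by
    simp only [Set.mem_Ioi, not_lt]
    have : (1 : ℝ) ≤ N := by exact_mod_cast hN
    linarith [ht.2]
  simp [RR, Set.indicator_of_notMem h1]

lemma mellin_RR_diff {q : ℕ} [NeZero q] (Φ : ZMod q → ℂ) (hΦ : ∀ a, ‖Φ a‖ ≤ 1) {N : ℕ}
    (hN : 1 ≤ N) {s : ℂ} (hs : s.re < 0) : DifferentiableAt ℂ (mellin (RR Φ N)) s :=
  mellin_differentiableAt_of_isBigO_rpow (a := 0) (b := s.re - 1)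
    ((locInt_RR Φ hΦ N).locallyIntegrableOn _) (RR_top Φ hΦ N) hs (RR_bot Φ hN _) (by linarith)

/-- identity theorem in the right half plane without `1` -/
lemma continuation {f g : ℂ → ℂ} (hf : ∀ s : ℂ, 0 < s.re → s ≠ 1 → DifferentiableAt ℂ f s)
    (hg : ∀ s : ℂ, 0 < s.re → s ≠ 1 → DifferentiableAt ℂ g s) (h : ∀ s : ℂ, 1 < s.re → f s = g s) :
    ∀ s : ℂ, 0 < s.re → s ≠ 1 → f s = g s := by
  have key : ∀ (U : Set ℂ), IsOpen U → Convex ℝ U → (∀ s ∈ U, 0 < s.re ∧ s ≠ 1) →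
      (∃ z ∈ U, f =ᶠ[𝓝 z] g) → ∀ s ∈ U, f s = g s := by
    intro U hU hc h0 hz s hs
    obtain ⟨z, hz, hev⟩ := hz
    have h1 : AnalyticOnNhd ℂ f U := DifferentiableOn.analyticOnNhd
      (fun x hx => (hf x (h0 x hx).1 (h0 x hx).2).differentiableWithinAt) hU
    have h2 : AnalyticOnNhd ℂ g U := DifferentiableOn.analyticOnNhd
      (fun x hx => (hg x (h0 x hx).1 (h0 x hx).2).differentiableWithinAt) hU
    exact h1.eqOn_of_preconnected_of_eventuallyEq h2 hc.isPreconnected hz hev hs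
  have hright : ∀ z : ℂ, 1 < z.re → f =ᶠ[𝓝 z] g := by
    intro z hz
    have : {s : ℂ | 1 < s.re} ∈ 𝓝 z := (isOpen_lt continuous_const continuous_re).mem_nhds hz
    filter_upwards [this] with x hx
    exact h x hx
  have hup : ∀ s : ℂ, 0 < s.re → 0 < s.im → f s = g s := by
    intro s h1 h2
    refine key ({s : ℂ | 0 < s.re} ∩ {s : ℂ | 0 < s.im})
      ((isOpen_lt continuous_const continuous_re).inter
        (isOpen_lt continuous_const continuous_im))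
      ((convex_halfSpace_re_gt 0).inter (convex_halfSpace_im_gt 0)) ?_ ?_ s ⟨h1, h2⟩
    · rintro x ⟨hx1, hx2⟩
      refine ⟨hx1, ?_⟩
      rintro rfl
      simp at hx2
    · refine ⟨⟨2, 1⟩, ⟨?_, ?_⟩, hright _ ?_⟩ <;> norm_num
  have hdown : ∀ s : ℂ, 0 < s.re → s.im < 0 → f s = g s := by
    intro s h1 h2
    refine key ({s : ℂ | 0 < s.re} ∩ {s : ℂ | s.im < 0})
      ((isOpen_lt continuous_const continuous_re).inter
        (isOpen_lt continuous_im continuous_const))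
      ((convex_halfSpace_re_gt 0).inter (convex_halfSpace_im_lt 0)) ?_ ?_ s ⟨h1, h2⟩
    · rintro x ⟨hx1, hx2⟩
      refine ⟨hx1, ?_⟩
      rintro rfl
      simp at hx2
    · refine ⟨⟨2, -1⟩, ⟨?_, ?_⟩, hright _ ?_⟩ <;> norm_num
  intro s hs hs1
  rcases lt_trichotomy s.im 0 with h1 | h1 | h1
  · exact hdown s hs h1
  · rcases lt_trichotomy s.re 1 with h2 | h2 | h2
    · refine key ({s : ℂ | 0 < s.re} ∩ {s : ℂ | s.re < 1})
        ((isOpen_lt continuous_const continuous_re).inter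
          (isOpen_lt continuous_re continuous_const))
        ((convex_halfSpace_re_gt 0).inter (convex_halfSpace_re_lt 1)) ?_ ?_ s ⟨hs, h2⟩
      · rintro x ⟨hx1, hx2⟩
        refine ⟨hx1, ?_⟩
        rintro rfl
        simp at hx2
      · refine ⟨⟨1 / 2, 1⟩, ⟨?_, ?_⟩, ?_⟩
        · norm_num
        · norm_num
        · have : {s : ℂ | 0 < s.re} ∩ {s : ℂ | 0 < s.im} ∈ 𝓝 (⟨1 / 2, 1⟩ : ℂ) :=
            ((isOpen_lt continuous_const continuous_re).inter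
              (isOpen_lt continuous_const continuous_im)).mem_nhds ⟨by norm_num, by norm_num⟩
          filter_upwards [this] with x hx
          exact hup x hx.1 hx.2
    · exact absurd (Complex.ext h2 h1) hs1
    · exact h s h2
  · exact hup s hs h1

lemma formula_right {q : ℕ} [NeZero q] (Φ : ZMod q → ℂ) (hΦ : ∀ a, ‖Φ a‖ ≤ 1) {N : ℕ}
    (hN : 1 ≤ N) (s : ℂ) (hs : 1 < s.re) :
    ZMod.LFunction Φ s - ∑ n ∈ Icc 1 N, Φ (n : ZMod q) * (n : ℂ) ^ (-s) -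
        (∑ a, Φ a) / q * ((N : ℂ) ^ (1 - s) / (s - 1)) = s * mellin (RR Φ N) (-s) := by
  have hN0 : (0 : ℝ) < N := by exact_mod_cast hN
  have hs0 : s ≠ 0 := by rintro rfl; simp at hs; linarith
  have hs1 : s - 1 ≠ 0 := by
    intro h0
    rw [sub_eq_zero] at h0
    rw [h0] at hs
    simp at hs
  set c : ℂ := (∑ a, Φ a) / q with hc
  have hsum : LSeriesSummable (fun n : ℕ => Φ (n : ZMod q)) s :=
    ZMod.LSeriesSummable_of_one_lt_re Φ hs
  have hfN : ∀ n, ‖fN Φ N n‖ ≤ 1 := by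
    intro n
    unfold fN
    split_ifs
    · exact hΦ _
    · simp
  have hsN : LSeriesSummable (fN Φ N) s :=
    LSeriesSummable_of_bounded_of_one_lt_re (m := 1) (fun n _ => hfN n) hs
  -- the tail
  have h1 : LSeries (fN Φ N) s = ZMod.LFunction Φ s -
      ∑ n ∈ Icc 1 N, Φ (n : ZMod q) * (n : ℂ) ^ (-s) := by
    rw [ZMod.LFunction_eq_LSeries Φ hs]
    have h2 : LSeries (fun n : ℕ => Φ (n : ZMod q)) s - LSeries (fN Φ N) s =
        ∑ n ∈ Icc 1 N, Φ (n : ZMod q) * (n : ℂ) ^ (-s) := by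
      unfold LSeries
      rw [← Summable.tsum_sub hsum hsN, tsum_eq_sum (s := Icc 1 N)]
      · refine Finset.sum_congr rfl fun n hn => ?_
        have hn1 := Finset.mem_Icc.1 hn
        have hn0 : n ≠ 0 := by omega
        rw [LSeries.term_of_ne_zero hn0, LSeries.term_of_ne_zero hn0]
        unfold fN
        rw [if_neg (by omega), zero_div, sub_zero, Complex.cpow_neg, div_eq_mul_inv]
      · intro n hn
        by_cases hn0 : n = 0
        · subst hn0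
          simp
        · rw [LSeries.term_of_ne_zero hn0, LSeries.term_of_ne_zero hn0]
          unfold fN
          rw [if_pos (by
            by_contra h3
            exact hn (Finset.mem_Icc.2 ⟨by omega, by omega⟩)), sub_self]
    rw [← h2]
    ring
  have h2 : LSeries (fN Φ N) s = s * ∫ t in Set.Ioi (1 : ℝ), (∑ k ∈ Icc 1 ⌊t⌋₊, fN Φ N k) *
      (t : ℂ) ^ (-(s + 1)) := by
    refine LSeries_eq_mul_integral (fN Φ N) (r := 1) zero_le_one hs hsN ?_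
    refine Asymptotics.IsBigO.of_bound 1 (Filter.Eventually.of_forall fun n => ?_)
    rw [Real.rpow_one, one_mul, Real.norm_of_nonneg (Nat.cast_nonneg n)]
    refine (norm_sum_le_of_le _ fun k _ => hfN k).trans ?_
    simp
  have h3 : ∫ t in Set.Ioi (1 : ℝ), (∑ k ∈ Icc 1 ⌊t⌋₊, fN Φ N k) * (t : ℂ) ^ (-(s + 1)) =
      ∫ t in Set.Ioi (N : ℝ), (∑ k ∈ Icc 1 ⌊t⌋₊, fN Φ N k) * (t : ℂ) ^ (-(s + 1)) := by
    refine (setIntegral_eq_of_subset_of_forall_sdiff_eq_zero measurableSet_Ioi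
      (Set.Ioi_subset_Ioi (by exact_mod_cast hN)) ?_)
    rintro t ⟨_, ht⟩
    have ht' : t ≤ N := not_lt.1 ht
    have h4 : ⌊t⌋₊ ≤ N := by
      calc ⌊t⌋₊ ≤ ⌊(N : ℝ)⌋₊ := Nat.floor_le_floor ht'
        _ = N := Nat.floor_natCast N
    rw [sum_fN_le Φ h4, zero_mul]
  have i1 : IntegrableOn (fun t : ℝ => (t : ℂ) ^ (-s)) (Set.Ioi (N : ℝ)) :=
    integrableOn_Ioi_cpow_of_lt (by rw [neg_re]; linarith) hN0
  have i2 : IntegrableOn (fun t : ℝ => (t : ℂ) ^ (-(s + 1))) (Set.Ioi (N : ℝ)) :=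
    integrableOn_Ioi_cpow_of_lt (by rw [neg_re, add_re, one_re]; linarith) hN0
  have i3 : IntegrableOn (fun t : ℝ => c * ((t : ℂ) ^ (-s) - N * (t : ℂ) ^ (-(s + 1))))
      (Set.Ioi (N : ℝ)) := (i1.sub (i2.const_mul _)).const_mul _
  have i4 : IntegrableOn (fun t : ℝ => (∑ k ∈ Icc 1 ⌊t⌋₊, fN Φ N k - c * ((t : ℂ) - N)) *
      (t : ℂ) ^ (-(s + 1))) (Set.Ioi (N : ℝ)) := by
    have h5 : IntegrableOn (fun t : ℝ => RR Φ N t * (t : ℂ) ^ (-(s + 1))) (Set.Ioi (N : ℝ)) := by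
      refine Integrable.bdd_mul (c := 3 * q) i2 (measurable_RR Φ N).aestronglyMeasurable ?_
      exact Filter.Eventually.of_forall fun t => norm_RR_le Φ hΦ N t
    refine h5.congr_fun (fun t ht => ?_) measurableSet_Ioi
    simp only [RR]
    rw [Set.indicator_of_mem ht]
  have h4 : ∫ t in Set.Ioi (N : ℝ), (∑ k ∈ Icc 1 ⌊t⌋₊, fN Φ N k) * (t : ℂ) ^ (-(s + 1)) =
      mellin (RR Φ N) (-s) + c * ((N : ℂ) ^ (1 - s) / (s - 1) - N * ((N : ℂ) ^ (-s) / s)) := by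
    rw [mellin_RR]
    have h5 : ∫ t in Set.Ioi (N : ℝ), c * ((t : ℂ) ^ (-s) - N * (t : ℂ) ^ (-(s + 1))) =
        c * ((N : ℂ) ^ (1 - s) / (s - 1) - N * ((N : ℂ) ^ (-s) / s)) := by
      rw [integral_const_mul, integral_sub i1 (i2.const_mul _), integral_const_mul,
        integral_Ioi_cpow_of_lt (by rw [neg_re]; linarith) hN0,
        integral_Ioi_cpow_of_lt (by rw [neg_re, add_re, one_re]; linarith) hN0]
      have e1 : -s + 1 = 1 - s := by ring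
      have e2 : -(s + 1) + 1 = -s := by ring
      rw [e1, e2, neg_div_neg_eq, Complex.ofReal_natCast]
      have e3 : -((N : ℂ) ^ (1 - s)) / (1 - s) = (N : ℂ) ^ (1 - s) / (s - 1) := by
        rw [← neg_div_neg_eq, neg_neg, neg_sub]
      rw [e3]
    rw [← h5, ← hc, ← integral_add i4 i3]
    refine setIntegral_congr_fun measurableSet_Ioi fun t ht => ?_
    have ht0 : (t : ℂ) ≠ 0 := by
      have : (0 : ℝ) < t := hN0.trans ht
      exact_mod_cast this.ne'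
    have h6 : (t : ℂ) ^ (-s) = t * (t : ℂ) ^ (-(s + 1)) := by
      have e4 : -s = 1 + -(s + 1) := by ring
      rw [e4, Complex.cpow_add _ _ ht0, Complex.cpow_one]
    rw [h6]
    ring
  have h5 : (N : ℂ) ^ (1 - s) = N * (N : ℂ) ^ (-s) := by
    have hN0' : (N : ℂ) ≠ 0 := by exact_mod_cast hN0.ne'
    rw [sub_eq_add_neg, Complex.cpow_add _ _ hN0', Complex.cpow_one]
  rw [← h1, h2, h3, h4, h5]
  field_simp
  ring

end ApproxAux

open ApproxAux in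
theorem approx : ∃ C : ℝ, 1 ≤ C ∧ ∀ (q : ℕ) [NeZero q] (Φ : ZMod q → ℂ) (N : ℕ) (s : ℂ), (∀ a, ‖Φ a‖ ≤ 1) →
    1 ≤ N → 1 / 2 ≤ s.re → s ≠ 1 →
    ‖ZMod.LFunction Φ s - ∑ n ∈ Icc 1 N, Φ (n : ZMod q) * (n : ℂ) ^ (-s) -
        (∑ a, Φ a) / q * ((N : ℂ) ^ (1 - s) / (s - 1))‖ ≤
      C * q * ‖s‖ * (N : ℝ) ^ (-s.re) := by
  refine ⟨6, by norm_num, ?_⟩
  intro q _ Φ N s hΦ hN hs hs1
  have hN0 : (0 : ℝ) < N := by exact_mod_cast hN
  have hs0 : 0 < s.re := by linarith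
  have hf : ∀ z : ℂ, 0 < z.re → z ≠ 1 → DifferentiableAt ℂ (fun z => ZMod.LFunction Φ z -
      ∑ n ∈ Icc 1 N, Φ (n : ZMod q) * (n : ℂ) ^ (-z) -
        (∑ a, Φ a) / q * ((N : ℂ) ^ (1 - z) / (z - 1))) z := by
    intro z hz hz1
    have hN' : (N : ℂ) ≠ 0 := by exact_mod_cast hN0.ne'
    refine (DifferentiableAt.sub (ZMod.differentiableAt_LFunction Φ z (Or.inl hz1)) ?_).sub ?_
    · refine DifferentiableAt.fun_sum fun n hn => ?_
      have hn0 : (n : ℂ) ≠ 0 := by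
        have := (Finset.mem_Icc.1 hn).1
        exact_mod_cast (by omega : n ≠ 0)
      exact (DifferentiableAt.const_cpow differentiableAt_id.neg (Or.inl hn0)).const_mul _
    · refine DifferentiableAt.const_mul ?_ _
      refine DifferentiableAt.div ?_ (differentiableAt_id.sub_const 1) (sub_ne_zero.2 hz1)
      exact DifferentiableAt.const_cpow ((differentiableAt_const _).sub differentiableAt_id)
        (Or.inl hN')
  have hg : ∀ z : ℂ, 0 < z.re → z ≠ 1 →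
      DifferentiableAt ℂ (fun z => z * mellin (RR Φ N) (-z)) z := by
    intro z hz _
    have h1 : DifferentiableAt ℂ (fun z => mellin (RR Φ N) (-z)) z := by
      have := mellin_RR_diff Φ hΦ hN (s := -z) (by simpa using hz)
      exact DifferentiableAt.comp (g := mellin (RR Φ N)) z this (differentiableAt_id.neg)
    exact differentiableAt_id.mul h1
  have h1 := continuation hf hg (fun z hz => formula_right Φ hΦ hN z hz) s hs0 hs1
  rw [h1, mellin_RR, norm_mul]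
  have hint : IntegrableOn (fun t : ℝ => (3 * q : ℝ) * t ^ (-(s.re + 1))) (Set.Ioi (N : ℝ)) :=
    Integrable.const_mul (integrableOn_Ioi_rpow_of_lt (by linarith) hN0) _
  have hle : ∀ᵐ (t : ℝ) ∂(volume.restrict (Set.Ioi (N : ℝ))),
      ‖(∑ k ∈ Icc 1 ⌊t⌋₊, fN Φ N k - (∑ a, Φ a) / q * ((t : ℂ) - N)) * (t : ℂ) ^ (-(s + 1))‖ ≤
        (3 * q : ℝ) * t ^ (-(s.re + 1)) := by
    refine (ae_restrict_iff' measurableSet_Ioi).2 (Filter.Eventually.of_forall fun t ht => ?_)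
    have ht0 : (0 : ℝ) < t := hN0.trans ht
    rw [norm_mul, Complex.norm_cpow_eq_rpow_re_of_pos ht0]
    simp only [neg_re, add_re, one_re]
    refine mul_le_mul_of_nonneg_right ?_ (Real.rpow_nonneg ht0.le _)
    have h2 := norm_RR_le Φ hΦ N t
    unfold RR at h2
    rwa [Set.indicator_of_mem ht] at h2
  have h2 := norm_integral_le_of_norm_le hint hle
  rw [integral_const_mul, integral_Ioi_rpow_of_lt (by linarith) hN0] at h2
  have h3 : -(N : ℝ) ^ (-(s.re + 1) + 1) / (-(s.re + 1) + 1) = (N : ℝ) ^ (-s.re) / s.re := by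
    rw [show -(s.re + 1) + 1 = -s.re by ring, neg_div_neg_eq]
  rw [h3] at h2
  have h4 : (N : ℝ) ^ (-s.re) / s.re ≤ 2 * (N : ℝ) ^ (-s.re) := by
    rw [div_le_iff₀ hs0]
    have := Real.rpow_nonneg hN0.le (-s.re)
    nlinarith
  calc ‖s‖ * ‖∫ t in Set.Ioi (N : ℝ), (∑ k ∈ Icc 1 ⌊t⌋₊, fN Φ N k -
        (∑ a, Φ a) / q * ((t : ℂ) - N)) * (t : ℂ) ^ (-(s + 1))‖
      ≤ ‖s‖ * (3 * q * ((N : ℝ) ^ (-s.re) / s.re)) :=
        mul_le_mul_of_nonneg_left h2 (norm_nonneg _)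
    _ ≤ ‖s‖ * (3 * q * (2 * (N : ℝ) ^ (-s.re))) :=
        mul_le_mul_of_nonneg_left (mul_le_mul_of_nonneg_left h4 (by positivity)) (norm_nonneg _)
    _ = 6 * q * ‖s‖ * (N : ℝ) ^ (-s.re) := by ring

end Pool.Agent.VK
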