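import Mathlib

/-!
# Derivatives of the logarithmic derivative of a zero free function

PROOF SKETCH. `f = f z0 * exp h` on `ball z0 (2 r)` with `h` analytic, `h z0 = 0`, `Re h ≤ M` (if `M = 0` then use `M + ε`, or note
`h` is constant). Borel-Caratheodory (`Complex.borelCaratheodory_zero`): `|h z| ≤ 2 M (3r/2)/(2r - 3r/2) = 6 M` for `|z - z0| ≤ 3r/2`. For
`|z - z0| ≤ r` Cauchy's estimate on the circle of radius `r/2` about `z` gives `|h^(m+1) z| ≤ (m+1)! 6 M (2/r)^(m+1)`
(`Complex.norm_iteratedDeriv_le_of_forall_mem_sphere_norm_le`), and `h' = f'/f` near `z`.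
-/

set_option autoImplicit false

open Metric

namespace Pool.Agent.VK

namespace LogDerAux

/-- holomorphic logarithm of `f / f c` on a ball -/
theorem exists_log {c : ℂ} {r : ℝ} (hr : 0 < r) {f : ℂ → ℂ}
    (hf : DifferentiableOn ℂ f (ball c r)) (h0 : ∀ z ∈ ball c r, f z ≠ 0) :
    ∃ g : ℂ → ℂ, g c = 0 ∧ (∀ z ∈ ball c r, HasDerivAt g (deriv f z / f z) z) ∧
      ∀ z ∈ ball c r, f z = f c * Complex.exp (g z) := by
  have hd : DifferentiableOn ℂ (fun z => deriv f z / f z) (ball c r) :=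
    (hf.deriv isOpen_ball).div hf h0
  obtain ⟨g, hgc, hg⟩ := (hd.isExactOn_ball).with_val_at c 0
  refine ⟨g, hgc, hg, fun z hz => ?_⟩
  have hcmem : c ∈ ball c r := mem_ball_self hr
  have hF : ∀ w ∈ ball c r, HasDerivAt (fun w => Complex.exp (-g w) * f w) 0 w := by
    intro w hw
    have h1 : HasDerivAt f (deriv f w) w :=
      (hf.differentiableAt (isOpen_ball.mem_nhds hw)).hasDerivAt
    have h2 := ((hg w hw).neg.cexp).mul h1
    refine h2.congr_deriv ?_
    have := h0 w hw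
    field_simp
    ring
  have hconst := isOpen_ball.is_const_of_deriv_eq_zero (convex_ball c r).isPreconnected
    (f := fun w => Complex.exp (-g w) * f w)
    (fun w hw => (hF w hw).differentiableAt.differentiableWithinAt)
    (fun w hw => (hF w hw).deriv) hz hcmem
  rw [hgc, neg_zero, Complex.exp_zero, one_mul, Complex.exp_neg] at hconst
  have he := Complex.exp_ne_zero (g z)
  rw [← hconst]
  field_simp

theorem key (m : ℕ) (f : ℂ → ℂ) (z0 : ℂ) (r M : ℝ) (hr : 0 < r) (hM : 0 < M)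
    (hf : AnalyticOnNhd ℂ f (closedBall z0 (2 * r))) (h0 : ∀ z ∈ closedBall z0 (2 * r), f z ≠ 0)
    (hb : ∀ z ∈ closedBall z0 (2 * r), ‖f z‖ ≤ Real.exp M * ‖f z0‖) (z : ℂ)
    (hz : z ∈ closedBall z0 r) :
    ‖iteratedDeriv m (fun w => deriv f w / f w) z‖ ≤
      (m + 1).factorial * (6 * M) / (r / 2) ^ (m + 1) := by
  have hsub : ball z0 (2 * r) ⊆ closedBall z0 (2 * r) := ball_subset_closedBall
  have h2r : 0 < 2 * r := by positivity
  obtain ⟨g, hg0, hg, hfg⟩ := exists_log h2r
    (hf.differentiableOn.mono hsub) (fun z hz => h0 z (hsub hz))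
  have hgd : DifferentiableOn ℂ g (ball z0 (2 * r)) :=
    fun z hz => (hg z hz).differentiableAt.differentiableWithinAt
  have hz0 : 0 < ‖f z0‖ := norm_pos_iff.2 (h0 z0 (mem_closedBall_self h2r.le))
  have hre : ∀ w ∈ ball z0 (2 * r), (g w).re ≤ M := by
    intro w hw
    have h1 := hb w (hsub hw)
    rw [hfg w hw, norm_mul, Complex.norm_exp, mul_comm] at h1
    exact Real.exp_le_exp.1 (le_of_mul_le_mul_right h1 hz0)
  -- Borel-Caratheodory
  have hshift : ∀ w ∈ ball (0 : ℂ) (2 * r), z0 + w ∈ ball z0 (2 * r) := by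
    intro w hw
    rw [mem_ball, dist_eq_norm, add_sub_cancel_left]
    exact mem_ball_zero_iff.1 hw
  have hGd : DifferentiableOn ℂ (fun w => g (z0 + w)) (ball 0 (2 * r)) :=
    hgd.comp (differentiableOn_const z0 |>.add differentiableOn_id) hshift
  have hbc : ∀ w : ℂ, ‖w - z0‖ ≤ 3 * r / 2 → ‖g w‖ ≤ 6 * M := by
    intro w hw
    have hw' : w - z0 ∈ ball (0 : ℂ) (2 * r) := by
      rw [mem_ball_zero_iff]
      linarith
    have h1 := Complex.borelCaratheodory_zero hM hGd
      (fun x hx => hre _ (hshift x hx)) h2r hw' (by simp only [add_zero]; exact hg0)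
    simp only [add_sub_cancel] at h1
    refine h1.trans ?_
    rw [div_le_iff₀ (by linarith)]
    nlinarith [norm_nonneg (w - z0)]
  -- Cauchy
  have hz' : ‖z - z0‖ ≤ r := by
    rw [← dist_eq_norm]
    exact mem_closedBall.1 hz
  have hr2 : 0 < r / 2 := by positivity
  have hcl : closedBall z (r / 2) ⊆ ball z0 (2 * r) := by
    intro w hw
    rw [mem_closedBall, dist_eq_norm] at hw
    rw [mem_ball, dist_eq_norm]
    have : ‖w - z0‖ ≤ ‖w - z‖ + ‖z - z0‖ := by
      have := norm_add_le (w - z) (z - z0)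
      simpa using this
    linarith
  have hdc : DiffContOnCl ℂ g (ball z (r / 2)) := by
    apply DifferentiableOn.diffContOnCl
    rw [closure_ball z hr2.ne']
    exact hgd.mono hcl
  have h3 := Complex.norm_iteratedDeriv_le_of_forall_mem_sphere_norm_le (m + 1) hr2 hdc
    (C := 6 * M) (fun w hw => by
      apply hbc
      have h1 : ‖w - z‖ = r / 2 := by
        rw [← dist_eq_norm]
        exact mem_sphere.1 hw
      have : ‖w - z0‖ ≤ ‖w - z‖ + ‖z - z0‖ := by
        have := norm_add_le (w - z) (z - z0)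
        simpa using this
      linarith)
  have hzb : z ∈ ball z0 (2 * r) := hcl (mem_closedBall_self hr2.le)
  have h4 : deriv g =ᶠ[nhds z] fun w => deriv f w / f w := by
    filter_upwards [isOpen_ball.mem_nhds hzb] with w hw
    exact (hg w hw).deriv
  rw [iteratedDeriv_succ', h4.iteratedDeriv_eq] at h3
  exact h3

end LogDerAux

open LogDerAux

theorem logder (m : ℕ) : ∃ C : ℝ, 0 < C ∧ ∀ (f : ℂ → ℂ) (z0 : ℂ) (r M : ℝ), 0 < r → 0 ≤ M →
    AnalyticOnNhd ℂ f (closedBall z0 (2 * r)) → (∀ z ∈ closedBall z0 (2 * r), f z ≠ 0) →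
    (∀ z ∈ closedBall z0 (2 * r), ‖f z‖ ≤ Real.exp M * ‖f z0‖) →
    ∀ z ∈ closedBall z0 r, ‖iteratedDeriv m (fun w => deriv f w / f w) z‖ ≤ C * M * (1 / r) ^ (m + 1) := by
  set C : ℝ := (m + 1).factorial * 6 * 2 ^ (m + 1) with hC
  have hC0 : 0 < C := by positivity
  refine ⟨C, hC0, fun f z0 r M hr hM hf h0 hb z hz => ?_⟩
  have hr1 : 0 < (1 / r) ^ (m + 1) := by positivity
  have hK : 0 < C * (1 / r) ^ (m + 1) := by positivity
  refine le_of_forall_pos_le_add fun δ hδ => ?_
  set ε : ℝ := δ / (C * (1 / r) ^ (m + 1)) with hε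
  have hε0 : 0 < ε := by positivity
  have h1 := key m f z0 r (M + ε) hr (by linarith) hf h0 (fun w hw => (hb w hw).trans
    (mul_le_mul_of_nonneg_right (Real.exp_le_exp.2 (by linarith)) (norm_nonneg _))) z hz
  refine h1.trans (le_of_eq ?_)
  have e1 : ((m + 1).factorial : ℝ) * (6 * (M + ε)) / (r / 2) ^ (m + 1) =
      C * (M + ε) * (1 / r) ^ (m + 1) := by
    rw [hC, div_pow, div_div_eq_mul_div, one_div, inv_pow]
    field_simp
  rw [e1]
  have e2 : ε * (C * (1 / r) ^ (m + 1)) = δ := by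
    rw [hε]
    exact div_mul_cancel₀ _ hK.ne'
  linear_combination e2

end Pool.Agent.VK
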