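import Pool.Agent.Lib.VK.HLShort

/-!
# Short ranges: final forms

`SpA F b0 H T`: the spectral hypothesis in terms of the scale `H` alone.
-/

set_option autoImplicit false

open Finset Filter

namespace Pool.Agent.VK

open Pool.Agent.HLB Pool.Agent.HL Pool.Agent.HLT Pool.Agent.HLU

/-- The spectral hypothesis at scale `H`. -/
def SpA (F : ℕ → ℕ) (b0 H : ℕ) (T : Finset ℕ) : Prop :=
  T ⊆ range (H + 1) ∧ ∀ b ≤ b0, ∀ Θ : Finset ℝ, Sep H Θ →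
    (∀ θ ∈ Θ, (T.card : ℝ) ≤ Real.log H ^ b * ‖WW T θ‖) → (Θ.card : ℝ) ≤ Real.log H ^ F b

lemma SpA.mono {F : ℕ → ℕ} {b0 b1 H : ℕ} {T : Finset ℕ} (h : SpA F b1 H T) (hb : b0 ≤ b1) :
    SpA F b0 H T := ⟨h.1, fun b hb' => h.2 b (hb'.trans hb)⟩

/-- The input on short windows, for ranges `H ≥ x ^ κ`, `κ > κ0`. -/
def WNE (κ0 : ℝ) : Prop := ∀ κ : ℝ, κ0 < κ → ∀ A0 B : ℕ, ∃ A : ℕ, A0 ≤ A ∧ ∀ᶠ x : ℕ in atTop, ∀ H : ℕ,
    (x : ℝ) ^ κ ≤ H → H ≤ x → WN A B x H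

lemma spa_sps (F : ℕ → ℕ) (b0 : ℕ) : ∃ H0 : ℕ, ∀ H : ℕ, H0 ≤ H → ∀ x : ℕ, H ≤ x → x ≤ H ^ 6 →
    ∀ T : Finset ℕ, SpA F (b0 + 1) H T → SpS (fun b => F (b + 1)) b0 x H T := by
  obtain ⟨H0, hH0⟩ := eventually_atTop.mp (ev_log ((6 : ℝ) ^ b0))
  refine ⟨max H0 3, fun H hH x hHx hxH T hT => ⟨hT.1, fun b hb Θ hΘ h => ?_⟩⟩
  have hH3 : 3 ≤ H := le_trans (le_max_right _ _) hH
  have hlog : (6 : ℝ) ^ b0 ≤ Real.log H := hH0 H (le_trans (le_max_left _ _) hH)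
  have hHpos : (0 : ℝ) < H := by
    have : (3 : ℝ) ≤ H := by exact_mod_cast hH3
    linarith
  have hlog1 : 1 ≤ Real.log H := by
    rw [Real.le_log_iff_exp_le hHpos]
    have h3 : (3 : ℝ) ≤ H := by exact_mod_cast hH3
    linarith only [h3, Real.exp_one_lt_d9]
  have hxpos : (0 : ℝ) < x := by
    have : (H : ℝ) ≤ x := by exact_mod_cast hHx
    linarith only [hHpos, this]
  have hl1 : Real.log H ≤ Real.log x := Real.log_le_log hHpos (by exact_mod_cast hHx)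
  have hl2 : Real.log x ≤ 6 * Real.log H := by
    have h1 : Real.log x ≤ Real.log ((H : ℝ) ^ 6) := Real.log_le_log hxpos (by exact_mod_cast hxH)
    rwa [Real.log_pow] at h1
  have hpow : Real.log x ^ b ≤ Real.log H ^ (b + 1) := by
    calc Real.log x ^ b ≤ (6 * Real.log H) ^ b := pow_le_pow_left₀ (by linarith only [hlog1, hl1]) hl2 b
      _ = 6 ^ b * Real.log H ^ b := by rw [mul_pow]
      _ ≤ 6 ^ b0 * Real.log H ^ b := by
          refine mul_le_mul_of_nonneg_right ?_ (by positivity)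
          exact pow_le_pow_right₀ (by norm_num) hb
      _ ≤ Real.log H * Real.log H ^ b := mul_le_mul_of_nonneg_right hlog (by positivity)
      _ = Real.log H ^ (b + 1) := by rw [pow_succ]; ring
  refine (hT.2 (b + 1) (by omega) Θ hΘ fun θ hθ => ?_).trans ?_
  · exact (h θ hθ).trans (mul_le_mul_of_nonneg_right hpow (norm_nonneg _))
  · exact pow_le_pow_left₀ (by linarith only [hlog1]) hl1 _

/-- Large scales: `x ^ κ ≤ H`, `κ ≥ 1/6`, implies `x ≤ H ^ 6`. -/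
lemma le_six_of_rpow {x H : ℕ} {κ : ℝ} (hκ : 1 / 6 ≤ κ) (hx : 1 ≤ x) (h : (x : ℝ) ^ κ ≤ H) : x ≤ H ^ 6 := by
  have hx1 : (1 : ℝ) ≤ x := by exact_mod_cast hx
  have h1 : (x : ℝ) ^ (1 / 6 : ℝ) ≤ H :=
    (Real.rpow_le_rpow_of_exponent_le hx1 hκ).trans h
  have h2 : ((x : ℝ) ^ (1 / 6 : ℝ)) ^ 6 = x := by
    rw [← Real.rpow_natCast, ← Real.rpow_mul (by linarith)]
    norm_num
  have h3 : (x : ℝ) ≤ (H : ℝ) ^ 6 := by
    rw [← h2]
    exact pow_le_pow_left₀ (by positivity) h1 6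
  exact_mod_cast h3

/-- If `x` is large then so is `H`. -/
lemma large_of_rpow (H0 : ℕ) : ∃ x0 : ℕ, ∀ x H : ℕ, x0 ≤ x → x ≤ H ^ 6 → H0 ≤ H := by
  refine ⟨H0 ^ 6, fun x H hx hH => ?_⟩
  have : H0 ^ 6 ≤ H ^ 6 := hx.trans hH
  exact (Nat.pow_le_pow_iff_left (by norm_num)).mp this

/-- Independence with weights, short ranges, one weight. -/
theorem indep_w (κ0 κ : ℝ) (h6 : 1 / 6 ≤ κ0) (hW : WNE κ0) (hκ : κ0 < κ) (m K A : ℕ) (F : ℕ → ℕ) : ∃ b0 B : ℕ, ∀ᶠ x : ℕ in atTop,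
    ∀ H : Fin m → ℕ, (∀ i, (x : ℝ) ^ κ ≤ H i ∧ H i ≤ x) →
    ∀ T : Fin m → Finset ℕ, (∀ i, SpA F b0 (H i) (T i)) → ∀ w : ℕ → ℂ,
    (∀ n ∈ Icc 1 x, ‖w n‖ ≤ Real.log x ^ K) →
    ∃ E ⊆ Fintype.piFinset T, (E.card : ℝ) ≤ (∏ i, ((T i).card : ℝ)) / Real.log x ^ A ∧
      ∀ t ∈ Fintype.piFinset T, t ∉ E → ∀ y : ℕ, y ≤ x →
        ‖∑ n ∈ Icc 1 y, w n * ((∏ i, G0 (n + t i) - ∏ i, G1 (zA B x) (n + t i) : ℝ) : ℂ)‖ ≤
          x / Real.log x ^ A := by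
  obtain ⟨b0, B, h1⟩ := weights_prime_short m K A (fun b => F (b + 1))
  obtain ⟨A', _, h2⟩ := hW κ hκ 0 B
  obtain ⟨H0, hH0⟩ := spa_sps F b0
  obtain ⟨x1, hx1⟩ := large_of_rpow H0
  refine ⟨b0 + 1, A', ?_⟩
  filter_upwards [h1 A', h2, eventually_ge_atTop x1, eventually_ge_atTop 1] with x h1 h2 hxx1 hx0
  intro H hH T hT w hw
  have hsq : ∀ i, x ≤ H i ^ 6 := fun i => le_six_of_rpow (h6.trans hκ.le) hx0 (hH i).1
  refine h1 H (fun i => ⟨?_, (hH i).2⟩) (fun i => h2 (H i) (hH i).1 (hH i).2) T (fun i => ?_) univ w hw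
  · have := hsq i
    rcases Nat.eq_zero_or_pos (H i) with h | h
    · rw [h] at this
      omega
    · exact h
  · exact hH0 (H i) (hx1 x (H i) hxx1 (hsq i)) x (hH i).2 (hsq i) (T i) (hT i)

/-- Hardy-Littlewood for one `x`. -/
theorem hl_one (κ0 κ : ℝ) (h6 : 1 / 6 ≤ κ0) (hW : WNE κ0) (hκ : κ0 < κ) (m A : ℕ) (F : ℕ → ℕ) : ∃ b0 : ℕ, ∀ᶠ x : ℕ in atTop,
    ∀ H : Fin m → ℕ, (∀ i, (x : ℝ) ^ κ ≤ H i ∧ H i ≤ x) →
    ∀ T : Fin m → Finset ℕ, (∀ i, SpA F b0 (H i) (T i)) → ∀ c : ℕ, c ≤ x →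
    ∃ E ⊆ Fintype.piFinset T, (E.card : ℝ) ≤ (∏ i, ((T i).card : ℝ)) / Real.log x ^ A ∧
      ∀ t ∈ Fintype.piFinset T, t ∉ E → Function.Injective (Fin.cons c t : Fin (m + 1) → ℕ) →
        ∀ y : ℕ, y ≤ x →
        |(((Icc 1 y).filter
            (fun n : ℕ => ∀ i, (n + (Fin.cons c t : Fin (m + 1) → ℕ) i).Prime)).card : ℝ) -
          SI (Fin.cons c t : Fin (m + 1) → ℕ) *
            ∑ n ∈ Icc 2 y, hl univ (Fin.cons c t : Fin (m + 1) → ℕ) n| ≤ x / Real.log x ^ A := by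
  have hWN : ∀ A0 B : ℕ, ∃ A : ℕ, A0 ≤ A ∧ ∀ᶠ x : ℕ in atTop, ∀ H : ℕ,
      (x : ℝ) ^ (1 / 2 + (κ - 1 / 2)) ≤ H → H ≤ x → WN A B x H := by
    rw [add_sub_cancel]
    exact fun A0 B => hW κ hκ A0 B
  obtain ⟨b0, h1⟩ := hl_short m A (fun b => F (b + 1)) (κ - 1 / 2) hWN
  rw [add_sub_cancel] at h1
  obtain ⟨H0, hH0⟩ := spa_sps F b0
  obtain ⟨x1, hx1⟩ := large_of_rpow H0
  refine ⟨b0 + 1, ?_⟩
  filter_upwards [h1, eventually_ge_atTop x1, eventually_ge_atTop 1] with x h1 hxx1 hx0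
  intro H hH T hT c hc
  have hsq : ∀ i, x ≤ H i ^ 6 := fun i => le_six_of_rpow (h6.trans hκ.le) hx0 (hH i).1
  exact h1 H hH T (fun i => hH0 (H i) (hx1 x (H i) hxx1 (hsq i)) x (hH i).2 (hsq i) (T i) (hT i)) c hc

lemma sq_mul_div (P L : ℝ) (hL : 0 < L) (A : ℕ) : L ^ 2 * (P / L ^ (A + 2)) = P / L ^ A := by
  rw [pow_add L A 2]
  field_simp

/-- Choice of a dyadic scale. -/
lemma scale_exists (X0 x : ℕ) (hX0 : 1 ≤ X0) (hx : X0 ≤ x) : ∃ k : ℕ, x ≤ 2 ^ k * X0 ∧ 2 ^ k * X0 ≤ 2 * x := by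
  have hex : ∃ k : ℕ, x ≤ 2 ^ k * X0 := by
    obtain ⟨k, hk⟩ := pow_unbounded_of_one_lt x (show (1 : ℕ) < 2 by norm_num)
    exact ⟨k, hk.le.trans (Nat.le_mul_of_pos_right _ (by omega))⟩
  classical
  obtain ⟨k, hk1, hk2⟩ : ∃ k : ℕ, x ≤ 2 ^ k * X0 ∧ ∀ j < k, ¬ x ≤ 2 ^ j * X0 :=
    ⟨Nat.find hex, Nat.find_spec hex, fun j hj => Nat.find_min hex hj⟩
  refine ⟨k, hk1, ?_⟩
  rcases k with _ | k
  · rw [pow_zero, one_mul]
    omega
  · have h2 := hk2 k (Nat.lt_succ_self k)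
    rw [pow_succ']
    rw [mul_assoc]
    omega

lemma scale_bound (k X0 x : ℕ) (hX0 : 3 ≤ X0) (hx : x ≤ X0 ^ 6) (hk : 2 ^ k * X0 ≤ 2 * x) :
    k ≤ ⌊8 * Real.log X0⌋₊ + 1 := by
  have hX0R : (3 : ℝ) ≤ X0 := by exact_mod_cast hX0
  have h4 : 2 ^ k ≤ 2 * X0 ^ 5 := by
    have h5 : 2 ^ k * X0 ≤ (2 * X0 ^ 5) * X0 := by
      calc 2 ^ k * X0 ≤ 2 * x := hk
        _ ≤ 2 * X0 ^ 6 := Nat.mul_le_mul_left 2 hx
        _ = (2 * X0 ^ 5) * X0 := by ring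
    exact Nat.le_of_mul_le_mul_right h5 (by omega)
  have h5 : (k : ℝ) * Real.log 2 ≤ Real.log 2 + 5 * Real.log X0 := by
    have h6 : ((2 : ℝ) ^ k) ≤ 2 * X0 ^ 5 := by exact_mod_cast h4
    have h7 := Real.log_le_log (by positivity) h6
    rw [Real.log_pow, Real.log_mul (by norm_num) (by positivity), Real.log_pow] at h7
    exact h7
  have hl2 := Real.log_two_gt_d9
  have hL1 : 0 ≤ Real.log X0 := Real.log_nonneg (by linarith)
  have hk : (k : ℝ) ≤ 8 * Real.log X0 + 1 := by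
    have h8 : (k : ℝ) ≤ (Real.log 2 + 5 * Real.log X0) / Real.log 2 := by
      rw [le_div_iff₀ (by linarith)]
      exact h5
    refine h8.trans ?_
    rw [div_le_iff₀ (by linarith)]
    nlinarith only [hl2, hL1]
  rcases k with _ | k
  · omega
  · have h10 : (k : ℝ) ≤ 8 * Real.log X0 := by
      push_cast at hk
      linarith
    have := Nat.le_floor h10
    omega

/-- Hardy-Littlewood for all `x` in a long range at once. -/
theorem hl_simul (κ0 κ : ℝ) (h6 : 1 / 6 ≤ κ0) (hW : WNE κ0) (hκ : κ0 < κ) (m A : ℕ) (hm : 1 ≤ m) (F : ℕ → ℕ) : ∃ b0 x0 : ℕ, ∀ X0 : ℕ, x0 ≤ X0 →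
    ∀ H : Fin m → ℕ, (∀ i, H i ≤ X0) →
    ∀ T : Fin m → Finset ℕ, (∀ i, SpA F b0 (H i) (T i)) → ∀ c : ℕ, c ≤ X0 →
    ∃ E ⊆ Fintype.piFinset T, (E.card : ℝ) ≤ (∏ i, ((T i).card : ℝ)) / Real.log X0 ^ A ∧
      ∀ t ∈ Fintype.piFinset T, t ∉ E → Function.Injective (Fin.cons c t : Fin (m + 1) → ℕ) →
        ∀ x : ℕ, X0 ≤ x → (∀ i, (x : ℝ) ^ κ ≤ H i) → ∀ y : ℕ, y ≤ x →
        |(((Icc 1 y).filter
            (fun n : ℕ => ∀ i, (n + (Fin.cons c t : Fin (m + 1) → ℕ) i).Prime)).card : ℝ) -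
          SI (Fin.cons c t : Fin (m + 1) → ℕ) *
            ∑ n ∈ Icc 2 y, hl univ (Fin.cons c t : Fin (m + 1) → ℕ) n| ≤ x / Real.log x ^ A := by
  classical
  obtain ⟨κ1, hκ1, hκ2⟩ := exists_between hκ
  obtain ⟨b0, h1⟩ := hl_one κ0 κ1 h6 hW hκ1 m (A + 2) F
  obtain ⟨x1, hx1⟩ := eventually_atTop.mp h1
  obtain ⟨x2, hx2⟩ := eventually_atTop.mp (ev_log 10)
  -- `(4 x) ^ κ1 ≤ x ^ κ` for large `x`
  have hlim : ∀ᶠ x : ℕ in atTop, (4 : ℝ) ^ κ1 ≤ (x : ℝ) ^ (κ - κ1) := by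
    have := (tendsto_rpow_atTop (show (0 : ℝ) < κ - κ1 by linarith)).comp
      (tendsto_natCast_atTop_atTop (R := ℝ))
    exact this.eventually_ge_atTop _
  obtain ⟨x3, hx3⟩ := eventually_atTop.mp hlim
  refine ⟨b0, max (max x1 x2) (max x3 3), fun X0 hX0 H hH T hT c hc => ?_⟩
  have hX1 : x1 ≤ X0 := le_trans (le_trans (le_max_left _ _) (le_max_left _ _)) hX0
  have hX2 : x2 ≤ X0 := le_trans (le_trans (le_max_right _ _) (le_max_left _ _)) hX0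
  have hX3 : x3 ≤ X0 := le_trans (le_trans (le_max_left _ _) (le_max_right _ _)) hX0
  have hX4 : 3 ≤ X0 := le_trans (le_trans (le_max_right _ _) (le_max_right _ _)) hX0
  have hX0R : (3 : ℝ) ≤ X0 := by exact_mod_cast hX4
  set L : ℝ := Real.log X0 with hL
  have hL8 : 10 ≤ L := hx2 X0 hX2
  have hL0 : 0 < L := by linarith only [hL8]
  have hP0 : 0 ≤ ∏ i, ((T i).card : ℝ) := Finset.prod_nonneg fun _ _ => Nat.cast_nonneg _
  -- the scales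
  have key : ∀ k : ℕ, ∃ E ⊆ Fintype.piFinset T,
      (E.card : ℝ) ≤ (∏ i, ((T i).card : ℝ)) / L ^ (A + 2) ∧
      ((∀ i, ((2 ^ k * X0 : ℕ) : ℝ) ^ κ1 ≤ H i) →
      ∀ t ∈ Fintype.piFinset T, t ∉ E → Function.Injective (Fin.cons c t : Fin (m + 1) → ℕ) →
        ∀ y : ℕ, y ≤ 2 ^ k * X0 →
        |(((Icc 1 y).filter
            (fun n : ℕ => ∀ i, (n + (Fin.cons c t : Fin (m + 1) → ℕ) i).Prime)).card : ℝ) -
          SI (Fin.cons c t : Fin (m + 1) → ℕ) *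
            ∑ n ∈ Icc 2 y, hl univ (Fin.cons c t : Fin (m + 1) → ℕ) n| ≤
          ((2 ^ k * X0 : ℕ) : ℝ) / Real.log ((2 ^ k * X0 : ℕ) : ℝ) ^ (A + 2)) := by
    intro k
    have hXk : X0 ≤ 2 ^ k * X0 := Nat.le_mul_of_pos_left _ (by positivity)
    by_cases hcond : ∀ i, ((2 ^ k * X0 : ℕ) : ℝ) ^ κ1 ≤ H i
    · obtain ⟨E, hE1, hE2, hE3⟩ := hx1 (2 ^ k * X0) (hX1.trans hXk) H
        (fun i => ⟨hcond i, (hH i).trans hXk⟩) T hT c (hc.trans hXk)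
      refine ⟨E, hE1, hE2.trans ?_, fun _ => hE3⟩
      refine div_le_div_of_nonneg_left hP0 (by (clear * - hL8; positivity)) (pow_le_pow_left₀ hL0.le ?_ _)
      exact Real.log_le_log (by linarith only [hX0R]) (by exact_mod_cast hXk)
    · refine ⟨∅, Finset.empty_subset _, ?_, fun h => absurd h hcond⟩
      rw [Finset.card_empty, Nat.cast_zero]
      (clear * - hL8; positivity)
  choose E hE1 hE2 hE3 using key
  set M : ℕ := ⌊8 * L⌋₊ + 1 with hM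
  refine ⟨(range (M + 1)).biUnion E, ?_, ?_, ?_⟩
  · intro t ht
    obtain ⟨k, _, hk⟩ := Finset.mem_biUnion.mp ht
    exact hE1 k hk
  · have hc1 : (((range (M + 1)).biUnion E).card : ℝ) ≤ ∑ k ∈ range (M + 1), ((E k).card : ℝ) := by
      exact_mod_cast Finset.card_biUnion_le
    refine hc1.trans ((Finset.sum_le_sum fun k _ => hE2 k).trans ?_)
    rw [Finset.sum_const, Finset.card_range, nsmul_eq_mul]
    have hM2 : ((M + 1 : ℕ) : ℝ) ≤ L ^ 2 := by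
      rw [hM]
      push_cast
      have := Nat.floor_le (show 0 ≤ 8 * L by linarith only [hL8])
      nlinarith only [hL8, this]
    refine (mul_le_mul_of_nonneg_right hM2 (div_nonneg hP0 (pow_nonneg hL0.le _))).trans ?_
    exact (sq_mul_div _ L hL0 A).le
  · intro t ht htE hinj x hx hxH y hy
    obtain ⟨k, hk1, hk2⟩ := scale_exists X0 x (by omega) hx
    have hx1' : 1 ≤ x := by omega
    have hxR : (3 : ℝ) ≤ x := by
      have : (X0 : ℝ) ≤ x := by exact_mod_cast hx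
      linarith only [hX0R, this]
    have hx0R : (0 : ℝ) < x := by linarith only [hxR]
    set X : ℕ := 2 ^ k * X0 with hX
    have hXR : (x : ℝ) ≤ X := by exact_mod_cast hk1
    have hXR2 : (X : ℝ) ≤ 2 * x := by exact_mod_cast hk2
    have hcond : ∀ i, (X : ℝ) ^ κ1 ≤ H i := by
      intro i
      refine le_trans ?_ (hxH i)
      have e1 : (X : ℝ) ^ κ1 ≤ (4 * x : ℝ) ^ κ1 :=
        Real.rpow_le_rpow (Nat.cast_nonneg _) (by linarith only [hxR, hXR2]) (by linarith only [h6, hκ1])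
      refine e1.trans ?_
      rw [Real.mul_rpow (by norm_num) hx0R.le]
      have e2 : (4 : ℝ) ^ κ1 ≤ (x : ℝ) ^ (κ - κ1) := hx3 x (hX3.trans hx)
      calc (4 : ℝ) ^ κ1 * (x : ℝ) ^ κ1
          ≤ (x : ℝ) ^ (κ - κ1) * (x : ℝ) ^ κ1 :=
            mul_le_mul_of_nonneg_right e2 (by (clear * - hx1'; positivity))
        _ = (x : ℝ) ^ κ := by
            rw [← Real.rpow_add hx0R]
            congr 1
            ring
    have hkM : k ∈ range (M + 1) := by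
      have i0 : Fin m := ⟨0, hm⟩
      have h1 : x ≤ H i0 ^ 6 := le_six_of_rpow (h6.trans hκ.le) hx1' (hxH i0)
      have h2 : x ≤ X0 ^ 6 := h1.trans (Nat.pow_le_pow_left (hH i0) 6)
      have h5 := scale_bound k X0 x hX4 h2 hk2
      rw [Finset.mem_range]
      exact Nat.lt_succ_of_le h5
    have htk : t ∉ E k := fun h => htE (Finset.mem_biUnion.mpr ⟨k, hkM, h⟩)
    have h1 := hE3 k hcond t ht htk hinj y (hy.trans hk1)
    refine h1.trans ?_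
    have hlx : 10 ≤ Real.log x := hx2 x (hX2.trans hx)
    have hlX : Real.log x ≤ Real.log X := Real.log_le_log hx0R hXR
    calc (X : ℝ) / Real.log X ^ (A + 2) ≤ (2 * x) / Real.log x ^ (A + 2) := by
          refine div_le_div₀ (by (clear * - hx1'; positivity)) hXR2 (by (clear * - hlx; positivity)) ?_
          exact pow_le_pow_left₀ (by linarith only [hlx]) hlX _
      _ ≤ x / Real.log x ^ A := by
          rw [div_le_div_iff₀ (by (clear * - hlx; positivity)) (by (clear * - hlx; positivity)), pow_add]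
          have : 2 ≤ Real.log x ^ 2 := by nlinarith only [hlx]
          have h0 : 0 ≤ (x : ℝ) * Real.log x ^ A := by (clear * - hx1' hlx; positivity)
          nlinarith only [this, h0]

end Pool.Agent.VK
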