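import Pool.Agent.Lib.HLT.Defs

/-!
# Shifts from short ranges: definitions

`Sep H Θ`: the points of `Θ` are `1/H`-separated modulo one. `SpS F b0 x H T`: `T ⊆ [0, H]` and for `b ≤ b0` a set of
`1/H`-separated frequencies with `|∑ t ∈ T, e(t θ)| ≥ |T| / (log x)^b` has at most `(log x)^(F b)` elements.
`WN A B x H`: the mean square of the exponential sum of `ff (zA A x)` over each window of length `1/H` of the
frequencies `k/(4 x + 1)`.
-/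

set_option autoImplicit false

open Finset Filter

namespace Pool.Agent.VK

open Pool.Agent.HLT

/-- `1/H`-separated modulo one. -/
def Sep (H : ℕ) (Θ : Finset ℝ) : Prop := ∀ θ ∈ Θ, ∀ θ' ∈ Θ, θ ≠ θ' → 1 / (H : ℝ) ≤ nrm (θ - θ')

/-- The spectral hypothesis at scale `H`. -/
def SpS (F : ℕ → ℕ) (b0 x H : ℕ) (T : Finset ℕ) : Prop :=
  T ⊆ range (H + 1) ∧ ∀ b ≤ b0, ∀ Θ : Finset ℝ, Sep H Θ →
    (∀ θ ∈ Θ, (T.card : ℝ) ≤ Real.log x ^ b * ‖WW T θ‖) → (Θ.card : ℝ) ≤ Real.log x ^ F b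

/-- The window of radius `2/H` about `k0/(4x+1)`. -/
noncomputable def wdw (x H k0 : ℕ) : Finset ℕ :=
  (range (4 * x + 1)).filter (fun k : ℕ => nrm (((k : ℝ) - k0) / ((4 * x + 1 : ℕ) : ℝ)) ≤ 2 / (H : ℝ))

/-- Windowed mean squares. -/
def WN (A B x H : ℕ) : Prop := ∀ k0 : ℕ,
  ∑ k ∈ wdw x H k0, ‖esum (ff (zA A x)) (2 * x) (k / ((4 * x + 1 : ℕ) : ℝ))‖ ^ 2 ≤
    (x : ℝ) ^ 2 / Real.log x ^ B

lemma SpS.mono {F : ℕ → ℕ} {b0 b1 x H : ℕ} {T : Finset ℕ} (h : SpS F b1 x H T) (hb : b0 ≤ b1) :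
    SpS F b0 x H T := ⟨h.1, fun b hb' => h.2 b (hb'.trans hb)⟩

lemma WN.mono {A B B' x H : ℕ} (h : WN A B' x H) (hB : B ≤ B') (hL : 1 ≤ Real.log x) : WN A B x H := by
  intro k0
  refine (h k0).trans ?_
  have h0 : 0 < Real.log x := by linarith
  exact div_le_div_of_nonneg_left (by positivity) (pow_pos h0 _) (pow_le_pow_right₀ hL hB)

end Pool.Agent.VK
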