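import Pool.Agent.Lib.HLT.Fourier
import Pool.Agent.Lib.VK.ShortDefs

/-!
# The basic mean square estimate for short ranges

PROOF SKETCH. As in `HLT/FourierOne.lean` (`fourier_one`, copy the beginning of its proof; private lemmas can be copied): `N = 4x+1`, `Hh ξ`, `Gg ξ` the two transforms, `A ξ = Hh ξ conj (Gg ξ)`:
`sum_(t ∈ T) |.|^2 ≤ N^(-2) sum_(ξ, η) |A ξ| |A η| |WW T ((ξ-η)/N)|`. The pairs with `|WW| < |T|/L1` contribute at most the first term. For the others (`T.card ≤ L1 |WW T ((ξ - η)/N)|`):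
`|WW| ≤ |T|`, `|A ξ||A η| ≤ (|Hh ξ|^2 |Gg η|^2 + |Hh η|^2 |Gg ξ|^2)/2`, the relation is symmetric in `ξ, η` (`|WW T (-θ)| = |WW T θ|`), so the contribution is at most
`|T| N^(-2) sum_ξ |Hh ξ|^2 sum_(η : (ξ, η) large) |Gg η|^2`. Claim: for fixed `ξ` the inner sum is at most `R W`. Let `Z` be the set of the real numbers `ζ/N`, `ζ ∈ range N`, with `T.card ≤ L1 |WW T (ζ/N)|`; take a subset `Θ ⊆ Z` maximal
with `Sep H Θ` (maximal cardinality among the `Sep` subsets): `Θ.card ≤ R` and every point of `Z` is within `nrm < 1/H` of a point of `Θ`. For a large pair, with `ζ ≡ ξ - η mod N`, `ζ/N` is near some `ζ_i/N ∈ Θ`, so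
`nrm ((η - k_i)/N) ≤ 1/H ≤ 2/H` with `k_i : ℕ` the residue of `ξ - ζ_i` modulo `N`, i.e. `η ∈ wdw x H k_i`. Finally `sum_ξ |Hh ξ|^2 = N sum |h n|^2` (`parseval`).
-/

set_option autoImplicit false

open Finset Filter

namespace Pool.Agent.VK

open Pool.Agent.HLT

private lemma fs_WW_add_int (T : Finset ℕ) (α : ℝ) (k : ℤ) : WW T (α + k) = WW T α := by
  unfold WW
  refine Finset.sum_congr rfl fun t _ => ?_
  have h : (t : ℝ) * (α + k) = (t:ℝ) * α + (((t:ℤ) * k : ℤ) : ℝ) := by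
    push_cast
    ring
  rw [h, ex_add_int]

private lemma fs_WW_neg (T : Finset ℕ) (α : ℝ) : ‖WW T (-α)‖ = ‖WW T α‖ := by
  have h : WW T (-α) = (starRingEnd ℂ) (WW T α) := by
    unfold WW
    rw [map_sum]
    refine Finset.sum_congr rfl fun t _ => ?_
    rw [← ex_neg]
    congr 1
    ring
  rw [h, Complex.norm_conj]

private lemma fs_nrm_add_int (α : ℝ) (k : ℤ) : nrm (α + k) = nrm α := by
  unfold nrm
  rw [round_add_intCast]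
  congr 1
  push_cast
  ring

private lemma fs_nrm_neg (α : ℝ) : nrm (-α) = nrm α := by
  unfold nrm
  rw [abs_sub_round_eq_min, abs_sub_round_eq_min]
  by_cases h : Int.fract α = 0
  · rw [Int.fract_neg_eq_zero.mpr h, h]
  · rw [Int.fract_neg h, sub_sub_cancel, min_comm]

/-- residues -/
private lemma fs_res {N : ℕ} (hN : 0 < N) (ξ η : ℤ) :
    ∃ ζ : ℕ, ζ < N ∧ ∃ q : ℤ, (ζ : ℝ) = (ξ : ℝ) - η + q * N := by
  have hN' : (N : ℤ) ≠ 0 := by exact_mod_cast hN.ne'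
  have hNp : (0 : ℤ) < N := by exact_mod_cast hN
  refine ⟨((ξ - η) % N).toNat, ?_, -((ξ - η) / N), ?_⟩
  · have h1 := Int.emod_lt_of_pos (ξ - η) hNp
    have h2 := Int.emod_nonneg (ξ - η) hN'
    omega
  · have h2 := Int.emod_nonneg (ξ - η) hN'
    have h3 : ((((ξ - η) % N).toNat : ℕ) : ℤ) = (ξ - η) % N := Int.toNat_of_nonneg h2
    have h4 : ((((ξ - η) % N).toNat : ℕ) : ℝ) = (((ξ - η) % N : ℤ) : ℝ) := by exact_mod_cast h3
    rw [h4]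
    have h5 := Int.emod_add_mul_ediv (ξ - η) N
    have h6 : (((ξ - η) % N : ℤ) : ℝ) + (N : ℝ) * (((ξ - η) / N : ℤ) : ℝ) = (ξ : ℝ) - η := by
      exact_mod_cast h5
    push_cast
    linarith

private lemma fs_sum_biUnion (s : Finset ℝ) (t : ℝ → Finset ℕ) (f : ℕ → ℝ) (hf : ∀ i, 0 ≤ f i) :
    ∑ i ∈ s.biUnion t, f i ≤ ∑ a ∈ s, ∑ i ∈ t a, f i := by
  classical
  induction s using Finset.induction_on with
  | empty => simp
  | insert a s ha ih =>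
    rw [Finset.biUnion_insert, Finset.sum_insert ha]
    have h1 := Finset.sum_union_inter (s₁ := t a) (s₂ := s.biUnion t) (f := f)
    have h2 : 0 ≤ ∑ i ∈ t a ∩ s.biUnion t, f i := Finset.sum_nonneg fun i _ => hf i
    linarith

/-- the sum over the large pairs with one fixed frequency -/
private lemma fs_inner (x H : ℕ) (T : Finset ℕ) (L1 R W : ℝ) (hH : 1 ≤ H) (hW0 : 0 ≤ W)
    (b : ℕ → ℝ)
    (hsp : ∀ Θ : Finset ℝ, Sep H Θ → (∀ θ ∈ Θ, (T.card : ℝ) ≤ L1 * ‖WW T θ‖) → (Θ.card : ℝ) ≤ R)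
    (hW : ∀ k0 : ℕ, ∑ k ∈ wdw x H k0, b k ^ 2 ≤ W) (ξ : ℕ)
    (P : ℕ → Prop) [DecidablePred P]
    (hP : ∀ η, P η → (T.card : ℝ) ≤ L1 * ‖WW T (((ξ:ℝ) - η) / ((4 * x + 1 : ℕ) : ℝ))‖) :
    ∑ η ∈ (range (4 * x + 1)).filter P, b η ^ 2 ≤ R * W := by
  classical
  set N : ℕ := 4 * x + 1 with hNdef
  have hN0 : 0 < N := by omega
  have hNR : (0:ℝ) < N := by exact_mod_cast hN0
  have hHR : (0:ℝ) < H := by exact_mod_cast hH
  set Z : Finset ℝ := ((range N).filter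
    (fun ζ : ℕ => (T.card : ℝ) ≤ L1 * ‖WW T ((ζ : ℝ) / N)‖)).image (fun ζ : ℕ => (ζ : ℝ) / N)
    with hZ
  obtain ⟨Θ, hΘ, hmax⟩ := Finset.exists_max_image (Z.powerset.filter (fun Θ => Sep H Θ))
    Finset.card ⟨∅, by
      rw [Finset.mem_filter]
      refine ⟨Finset.empty_mem_powerset _, ?_⟩
      intro θ hθ
      exact absurd hθ (Finset.notMem_empty _)⟩
  rw [Finset.mem_filter, Finset.mem_powerset] at hΘ
  have hZT : ∀ θ ∈ Z, (T.card : ℝ) ≤ L1 * ‖WW T θ‖ := by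
    intro θ hθ
    rw [hZ, Finset.mem_image] at hθ
    obtain ⟨ζ, hζ, rfl⟩ := hθ
    exact (Finset.mem_filter.mp hζ).2
  have hcard : (Θ.card : ℝ) ≤ R := hsp Θ hΘ.2 fun θ hθ => hZT θ (hΘ.1 hθ)
  have hnear : ∀ z ∈ Z, ∃ θ ∈ Θ, nrm (z - θ) < 1 / (H : ℝ) := by
    intro z hz
    by_contra hcon
    push Not at hcon
    have hzΘ : z ∉ Θ := by
      intro hzz
      have h1 := hcon z hzz
      rw [sub_self] at h1
      have h2 : nrm 0 = 0 := by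
        unfold nrm
        simp
      rw [h2] at h1
      have h3 : 0 < 1 / (H : ℝ) := by positivity
      linarith only [h1, h3]
    have h1 := hmax (insert z Θ) (by
      rw [Finset.mem_filter, Finset.mem_powerset]
      refine ⟨Finset.insert_subset hz hΘ.1, ?_⟩
      intro θ hθ θ' hθ' hne
      rw [Finset.mem_insert] at hθ hθ'
      rcases hθ with rfl | hθ
      · rcases hθ' with rfl | hθ'
        · exact absurd rfl hne
        · exact hcon θ' hθ'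
      · rcases hθ' with rfl | hθ'
        · rw [← fs_nrm_neg, neg_sub]
          exact hcon θ hθ
        · exact hΘ.2 θ hθ θ' hθ' hne)
    rw [Finset.card_insert_of_notMem hzΘ] at h1
    omega
  -- the residues
  have hk : ∀ θ : ℝ, ∃ k : ℕ, θ ∈ Θ → ∃ q : ℤ, (k : ℝ) = (ξ : ℝ) - θ * N + q * N := by
    intro θ
    by_cases hθ : θ ∈ Θ
    · have h1 := hΘ.1 hθ
      rw [hZ, Finset.mem_image] at h1
      obtain ⟨ζ, _, hζ⟩ := h1
      obtain ⟨k, _, q, hq⟩ := fs_res hN0 (ξ : ℤ) (ζ : ℤ)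
      refine ⟨k, fun _ => ⟨q, ?_⟩⟩
      rw [hq, ← hζ]
      push_cast
      field_simp
    · exact ⟨0, fun h => absurd h hθ⟩
  choose k hk using hk
  have hsub : (range N).filter P ⊆ Θ.biUnion (fun θ => wdw x H (k θ)) := by
    intro η hη
    rw [Finset.mem_filter, Finset.mem_range] at hη
    rw [Finset.mem_biUnion]
    obtain ⟨ζ, hζN, q, hq⟩ := fs_res hN0 (ξ : ℤ) (η : ℤ)
    have hz : (ζ : ℝ) / N ∈ Z := by
      rw [hZ, Finset.mem_image]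
      refine ⟨ζ, ?_, rfl⟩
      rw [Finset.mem_filter, Finset.mem_range]
      refine ⟨hζN, ?_⟩
      have h1 := hP η hη.2
      have h2 : (ζ : ℝ) / N = ((ξ:ℝ) - η) / N + (q : ℤ) := by
        rw [hq]
        push_cast
        field_simp
      rw [h2, fs_WW_add_int]
      exact h1
    obtain ⟨θ, hθ, hnr⟩ := hnear _ hz
    refine ⟨θ, hθ, ?_⟩
    obtain ⟨q', hq'⟩ := hk θ hθ
    unfold wdw
    rw [Finset.mem_filter, Finset.mem_range]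
    refine ⟨hη.1, ?_⟩
    have h3 : ((η : ℝ) - k θ) / N = -((ζ : ℝ) / N - θ) + ((q - q' : ℤ) : ℝ) := by
      have h4 : (η : ℝ) = (ξ : ℝ) - ζ + q * N := by
        push_cast at hq
        linarith only [hq]
      rw [hq', h4]
      push_cast
      field_simp
      ring
    have h5 : nrm (((η : ℝ) - k θ) / N) < 1 / (H : ℝ) := by
      rw [h3, fs_nrm_add_int, fs_nrm_neg]
      exact hnr
    have h6 : 1 / (H : ℝ) ≤ 2 / (H : ℝ) := by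
      apply div_le_div_of_nonneg_right _ hHR.le
      norm_num
    exact (h5.le).trans h6
  calc ∑ η ∈ (range N).filter P, b η ^ 2
      ≤ ∑ η ∈ Θ.biUnion (fun θ => wdw x H (k θ)), b η ^ 2 :=
        Finset.sum_le_sum_of_subset_of_nonneg hsub fun _ _ _ => sq_nonneg _
    _ ≤ ∑ θ ∈ Θ, ∑ η ∈ wdw x H (k θ), b η ^ 2 :=
        fs_sum_biUnion Θ (fun θ => wdw x H (k θ)) (fun η => b η ^ 2) fun _ => sq_nonneg _
    _ ≤ ∑ θ ∈ Θ, W := Finset.sum_le_sum fun θ _ => hW (k θ)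
    _ = Θ.card * W := by rw [Finset.sum_const, nsmul_eq_mul]
    _ ≤ R * W := mul_le_mul_of_nonneg_right hcard hW0

/-- the real estimate -/
private lemma fs_real_est {N : ℕ} (T : Finset ℕ) (L1 Q : ℝ) (hL1 : 0 < L1)
    (a b : ℕ → ℝ) (ha : ∀ ξ, 0 ≤ a ξ) (hb : ∀ ξ, 0 ≤ b ξ)
    (hQ : ∀ ξ : ℕ, ∀ (P : ℕ → Prop) [DecidablePred P],
      (∀ η, P η → (T.card : ℝ) ≤ L1 * ‖WW T (((ξ:ℝ) - η) / N)‖) →
        ∑ η ∈ (range N).filter P, b η ^ 2 ≤ Q) :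
    ∑ ξ ∈ range N, ∑ η ∈ range N, (a ξ * b ξ) * (a η * b η) * ‖WW T (((ξ:ℝ) - η) / N)‖ ≤
      (T.card / L1) * (∑ ξ ∈ range N, a ξ * b ξ) ^ 2 +
        T.card * Q * ∑ ξ ∈ range N, a ξ ^ 2 := by
  classical
  have hcard : (0:ℝ) ≤ T.card := Nat.cast_nonneg _
  set P : ℕ → ℕ → Prop := fun ξ η => (T.card : ℝ) ≤ L1 * ‖WW T (((ξ:ℝ) - η) / N)‖ with hPdef
  have hsymm : ∀ ξ η, P ξ η ↔ P η ξ := by
    intro ξ η
    simp only [hPdef]
    have h1 : ((ξ:ℝ) - η) / N = -(((η:ℝ) - ξ) / N) := by ring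
    rw [h1, fs_WW_neg]
  have hpt : ∀ ξ ∈ range N, ∀ η ∈ range N,
      (a ξ * b ξ) * (a η * b η) * ‖WW T (((ξ:ℝ) - η) / N)‖ ≤
      (T.card / L1) * ((a ξ * b ξ) * (a η * b η)) +
        ((if P ξ η then T.card * (a ξ ^ 2 * b η ^ 2 / 2) else 0) +
          (if P ξ η then T.card * (a η ^ 2 * b ξ ^ 2 / 2) else 0)) := by
    intro ξ _ η _
    have h0 : 0 ≤ (a ξ * b ξ) * (a η * b η) :=
      mul_nonneg (mul_nonneg (ha _) (hb _)) (mul_nonneg (ha _) (hb _))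
    by_cases hPP : P ξ η
    · rw [if_pos hPP, if_pos hPP]
      have h1 := norm_WW_le T (((ξ:ℝ) - η) / N)
      have h2 := mul_le_mul_of_nonneg_left h1 h0
      have h3 : (a ξ * b ξ) * (a η * b η) ≤ a ξ ^ 2 * b η ^ 2 / 2 + a η ^ 2 * b ξ ^ 2 / 2 := by
        nlinarith only [sq_nonneg (a ξ * b η - a η * b ξ)]
      have h4 := mul_le_mul_of_nonneg_right h3 hcard
      have h5 : 0 ≤ (T.card / L1) * ((a ξ * b ξ) * (a η * b η)) := by positivity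
      nlinarith only [h2, h4, h5]
    · rw [if_neg hPP, if_neg hPP]
      have h1 : ¬ ((T.card : ℝ) ≤ L1 * ‖WW T (((ξ:ℝ) - η) / N)‖) := hPP
      have h2 : ‖WW T (((ξ:ℝ) - η) / N)‖ ≤ T.card / L1 := by
        rw [le_div_iff₀ hL1]
        linarith only [hPP, not_le.mp h1]
      have h3 := mul_le_mul_of_nonneg_left h2 h0
      linarith only [h3]
  have hsum := Finset.sum_le_sum fun ξ hξ => Finset.sum_le_sum fun η hη => hpt ξ hξ η hη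
  refine hsum.trans ?_
  simp only [Finset.sum_add_distrib]
  have e1 : ∑ ξ ∈ range N, ∑ η ∈ range N, (T.card / L1) * ((a ξ * b ξ) * (a η * b η)) =
      (T.card / L1) * (∑ ξ ∈ range N, a ξ * b ξ) ^ 2 := by
    rw [sq, Finset.sum_mul_sum, Finset.mul_sum]
    refine Finset.sum_congr rfl fun ξ _ => ?_
    rw [Finset.mul_sum]
  have e2 : ∑ ξ ∈ range N, ∑ η ∈ range N,
      (if P ξ η then T.card * (a ξ ^ 2 * b η ^ 2 / 2) else 0) ≤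
      ∑ ξ ∈ range N, T.card * Q * (a ξ ^ 2 / 2) := by
    refine Finset.sum_le_sum fun ξ _ => ?_
    rw [← Finset.sum_filter]
    have h1 : ∑ η ∈ (range N).filter (fun η => P ξ η), T.card * (a ξ ^ 2 * b η ^ 2 / 2) =
        T.card * (a ξ ^ 2 / 2) * ∑ η ∈ (range N).filter (fun η => P ξ η), b η ^ 2 := by
      rw [Finset.mul_sum]
      refine Finset.sum_congr rfl fun η _ => ?_
      ring
    rw [h1]
    have h2 := hQ ξ (fun η => P ξ η) (fun η h => h)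
    have h3 : 0 ≤ (T.card : ℝ) * (a ξ ^ 2 / 2) := by positivity
    have h4 := mul_le_mul_of_nonneg_left h2 h3
    linarith only [h4]
  have e3 : ∑ ξ ∈ range N, ∑ η ∈ range N,
      (if P ξ η then T.card * (a η ^ 2 * b ξ ^ 2 / 2) else 0) =
      ∑ ξ ∈ range N, ∑ η ∈ range N,
      (if P ξ η then T.card * (a ξ ^ 2 * b η ^ 2 / 2) else 0) := by
    rw [Finset.sum_comm]
    refine Finset.sum_congr rfl fun ξ _ => Finset.sum_congr rfl fun η _ => ?_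
    by_cases h : P ξ η
    · rw [if_pos h, if_pos ((hsymm ξ η).1 h)]
    · rw [if_neg h, if_neg (fun h' => h ((hsymm ξ η).2 h'))]
  have e4 : ∑ ξ ∈ range N, T.card * Q * (a ξ ^ 2 / 2) =
      T.card * Q * (∑ ξ ∈ range N, a ξ ^ 2) / 2 := by
    rw [mul_div_assoc, Finset.sum_div, Finset.mul_sum]
  rw [e1, e3]
  linarith only [e2, e4]

/-- The set of the shifts lies anywhere in `[0, x]`. -/
theorem fourier_any (x H : ℕ) (hx : 1 ≤ x) (hH : 1 ≤ H) (T : Finset ℕ) (hT : T ⊆ range (x + 1))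
    (h : ℕ → ℂ) (g : ℕ → ℝ) (K L1 R W : ℝ) (hK : 0 ≤ K) (hL1 : 0 < L1) (hR : 0 ≤ R) (hW0 : 0 ≤ W)
    (hg : ∀ n ∈ Icc 1 (2 * x), |g n| ≤ K)
    (hsp : ∀ Θ : Finset ℝ, Sep H Θ → (∀ θ ∈ Θ, (T.card : ℝ) ≤ L1 * ‖WW T θ‖) → (Θ.card : ℝ) ≤ R)
    (hW : ∀ k0 : ℕ, ∑ k ∈ wdw x H k0,
      ‖∑ m ∈ Icc 1 (2 * x), (g m : ℂ) * ex (m * (k / ((4 * x + 1 : ℕ) : ℝ)))‖ ^ 2 ≤ W) :
    ∑ t ∈ T, ‖∑ n ∈ Icc 1 x, h n * (g (n + t) : ℂ)‖ ^ 2 ≤
      (T.card / L1) * ((∑ n ∈ Icc 1 x, ‖h n‖ ^ 2) * (2 * x * K ^ 2)) +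
        T.card * (R * W / ((4 * x + 1 : ℕ) : ℝ)) * ∑ n ∈ Icc 1 x, ‖h n‖ ^ 2 := by
  have _ := hR
  have _ := hK
  have _ := hx
  set N : ℕ := 4 * x + 1 with hNdef
  have hN : 4 * x < N := by omega
  have hN0 : 0 < N := by omega
  have hNR : (0:ℝ) < N := by exact_mod_cast hN0
  set Hh : ℕ → ℂ := fun ξ => ∑ n ∈ Icc 1 x, h n * ex (n * (ξ / N)) with hHh
  set Gg : ℕ → ℂ := fun ξ => ∑ m ∈ Icc 1 (2 * x), (g m : ℂ) * ex (m * (ξ / N)) with hGg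
  set A : ℕ → ℂ := fun ξ => Hh ξ * (starRingEnd ℂ) (Gg ξ) with hA
  set S : ℕ → ℂ := fun t => ∑ ξ ∈ range N, A ξ * ex (t * (ξ / N)) with hS
  have hcorr : ∀ t ∈ T, ‖∑ n ∈ Icc 1 x, h n * (g (n + t) : ℂ)‖ ^ 2 =
      (1 / (N:ℝ) ^ 2) * ‖S t‖ ^ 2 := by
    intro t ht
    have ht' : t ≤ x := by
      have := Finset.mem_range.mp (hT ht)
      omega
    rw [corr_formula N x hN h g t ht', norm_mul, norm_div, norm_one, Complex.norm_natCast, mul_pow,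
      div_pow, one_pow]
  rw [Finset.sum_congr rfl hcorr, ← Finset.mul_sum]
  -- the square
  have hkey : ((∑ t ∈ T, ‖S t‖ ^ 2 : ℝ) : ℂ) =
      ∑ ξ ∈ range N, ∑ η ∈ range N, A ξ * (starRingEnd ℂ) (A η) *
        WW T (((ξ:ℝ) - η) / N) := by
    have h1 : ∀ t ∈ T, ((‖S t‖ ^ 2 : ℝ) : ℂ) = ∑ ξ ∈ range N, ∑ η ∈ range N,
        A ξ * (starRingEnd ℂ) (A η) * ex (t * (((ξ:ℝ) - η) / N)) := by
      intro t _
      push_cast
      rw [← Complex.mul_conj', hS, map_sum, Finset.sum_mul_sum]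
      refine Finset.sum_congr rfl fun ξ _ => Finset.sum_congr rfl fun η _ => ?_
      rw [map_mul, ← ex_neg]
      have e1 : (t:ℝ) * (((ξ:ℝ) - η) / N) = (t:ℝ) * ((ξ:ℝ) / N) + -((t:ℝ) * ((η:ℝ) / N)) := by
        ring
      rw [e1, ex_add]
      ring
    push_cast at h1 ⊢
    rw [Finset.sum_congr rfl h1, Finset.sum_comm]
    refine Finset.sum_congr rfl fun ξ _ => ?_
    rw [Finset.sum_comm]
    refine Finset.sum_congr rfl fun η _ => ?_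
    unfold WW
    rw [Finset.mul_sum]
  have hnormA : ∀ ξ, ‖A ξ‖ = ‖Hh ξ‖ * ‖Gg ξ‖ := by
    intro ξ
    rw [hA, norm_mul, Complex.norm_conj]
  have hbound : ∑ t ∈ T, ‖S t‖ ^ 2 ≤
      ∑ ξ ∈ range N, ∑ η ∈ range N, (‖Hh ξ‖ * ‖Gg ξ‖) * (‖Hh η‖ * ‖Gg η‖) *
        ‖WW T (((ξ:ℝ) - η) / N)‖ := by
    have hnn : 0 ≤ ∑ t ∈ T, ‖S t‖ ^ 2 := Finset.sum_nonneg fun _ _ => by (clear * -; positivity)
    have h1 : ∑ t ∈ T, ‖S t‖ ^ 2 = ‖((∑ t ∈ T, ‖S t‖ ^ 2 : ℝ) : ℂ)‖ := by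
      rw [Complex.norm_real, Real.norm_of_nonneg hnn]
    rw [h1, hkey]
    refine (norm_sum_le _ _).trans (Finset.sum_le_sum fun ξ _ => ?_)
    refine (norm_sum_le _ _).trans (Finset.sum_le_sum fun η _ => ?_)
    rw [norm_mul, norm_mul, Complex.norm_conj, hnormA, hnormA]
  have hreal := fs_real_est (N := N) T L1 (R * W) hL1 (fun ξ => ‖Hh ξ‖) (fun ξ => ‖Gg ξ‖)
    (fun ξ => norm_nonneg _) (fun ξ => norm_nonneg _)
    (fun ξ P _ hP => fs_inner x H T L1 R W hH hW0 (fun k => ‖Gg k‖) hsp hW ξ P hP)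
  have p1 := parseval N x (by omega) hN0 h
  have p2 := parseval N (2 * x) (by omega) hN0 (fun m => (g m : ℂ))
  have p1' : ∑ ξ ∈ range N, ‖Hh ξ‖ ^ 2 = N * ∑ n ∈ Icc 1 x, ‖h n‖ ^ 2 := p1
  have p2' : ∑ ξ ∈ range N, ‖Gg ξ‖ ^ 2 = N * ∑ n ∈ Icc 1 (2 * x), ‖(g n : ℂ)‖ ^ 2 := p2
  have hCS : (∑ ξ ∈ range N, ‖Hh ξ‖ * ‖Gg ξ‖) ^ 2 ≤
      (N:ℝ) ^ 2 * ((∑ n ∈ Icc 1 x, ‖h n‖ ^ 2) * (2 * x * K ^ 2)) := by
    have h2 := Finset.sum_mul_sq_le_sq_mul_sq (range N) (fun ξ => ‖Hh ξ‖) (fun ξ => ‖Gg ξ‖)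
    refine h2.trans ?_
    rw [p1', p2']
    have h3 : ∑ n ∈ Icc 1 (2 * x), ‖(g n : ℂ)‖ ^ 2 ≤ 2 * x * K ^ 2 := by
      calc ∑ n ∈ Icc 1 (2 * x), ‖(g n : ℂ)‖ ^ 2 ≤ ∑ n ∈ Icc 1 (2 * x), K ^ 2 := by
            refine Finset.sum_le_sum fun n hn => ?_
            rw [Complex.norm_real, Real.norm_eq_abs]
            exact pow_le_pow_left₀ (abs_nonneg _) (hg n hn) 2
        _ = 2 * x * K ^ 2 := by
            rw [Finset.sum_const, Nat.card_Icc, nsmul_eq_mul, Nat.add_sub_cancel]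
            push_cast
            ring
    have h4 : 0 ≤ ∑ n ∈ Icc 1 x, ‖h n‖ ^ 2 := Finset.sum_nonneg fun _ _ => by (clear * -; positivity)
    have h5 : (∑ n ∈ Icc 1 x, ‖h n‖ ^ 2) * ∑ n ∈ Icc 1 (2 * x), ‖(g n : ℂ)‖ ^ 2 ≤
        (∑ n ∈ Icc 1 x, ‖h n‖ ^ 2) * (2 * x * K ^ 2) := mul_le_mul_of_nonneg_left h3 h4
    have h6 := mul_le_mul_of_nonneg_left h5 (sq_nonneg (N:ℝ))
    calc (N:ℝ) * (∑ n ∈ Icc 1 x, ‖h n‖ ^ 2) * (N * ∑ n ∈ Icc 1 (2 * x), ‖(g n : ℂ)‖ ^ 2)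
        = (N:ℝ) ^ 2 * ((∑ n ∈ Icc 1 x, ‖h n‖ ^ 2) * ∑ n ∈ Icc 1 (2 * x), ‖(g n : ℂ)‖ ^ 2) := by
          ring
      _ ≤ _ := h6
  have hcard : (0:ℝ) ≤ T.card := Nat.cast_nonneg _
  have hfin : (1 / (N:ℝ) ^ 2) * ∑ t ∈ T, ‖S t‖ ^ 2 ≤ (1 / (N:ℝ) ^ 2) *
      ((T.card / L1) * ((N:ℝ) ^ 2 * ((∑ n ∈ Icc 1 x, ‖h n‖ ^ 2) * (2 * x * K ^ 2))) +
        T.card * (R * W) * (N * ∑ n ∈ Icc 1 x, ‖h n‖ ^ 2)) := by
    apply mul_le_mul_of_nonneg_left _ (by (clear * - hx; positivity))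
    refine hbound.trans (hreal.trans ?_)
    rw [p1']
    have h7 : (T.card / L1) * (∑ ξ ∈ range N, ‖Hh ξ‖ * ‖Gg ξ‖) ^ 2 ≤ (T.card / L1) *
        ((N:ℝ) ^ 2 * ((∑ n ∈ Icc 1 x, ‖h n‖ ^ 2) * (2 * x * K ^ 2))) :=
      mul_le_mul_of_nonneg_left hCS (by (clear * - hL1; positivity))
    linarith only [h7]
  refine hfin.trans (le_of_eq ?_)
  generalize (∑ n ∈ Icc 1 x, ‖h n‖ ^ 2) = B
  field_simp

theorem fourier_short (x H : ℕ) (hx : 1 ≤ x) (hH : 1 ≤ H) (hHx : H ≤ x) (T : Finset ℕ) (hT : T ⊆ range (H + 1))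
    (h : ℕ → ℂ) (g : ℕ → ℝ) (K L1 R W : ℝ) (hK : 0 ≤ K) (hL1 : 0 < L1) (hR : 0 ≤ R) (hW0 : 0 ≤ W)
    (hg : ∀ n ∈ Icc 1 (2 * x), |g n| ≤ K)
    (hsp : ∀ Θ : Finset ℝ, Sep H Θ → (∀ θ ∈ Θ, (T.card : ℝ) ≤ L1 * ‖WW T θ‖) → (Θ.card : ℝ) ≤ R)
    (hW : ∀ k0 : ℕ, ∑ k ∈ wdw x H k0,
      ‖∑ m ∈ Icc 1 (2 * x), (g m : ℂ) * ex (m * (k / ((4 * x + 1 : ℕ) : ℝ)))‖ ^ 2 ≤ W) :
    ∑ t ∈ T, ‖∑ n ∈ Icc 1 x, h n * (g (n + t) : ℂ)‖ ^ 2 ≤
      (T.card / L1) * ((∑ n ∈ Icc 1 x, ‖h n‖ ^ 2) * (2 * x * K ^ 2)) +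
        T.card * (R * W / ((4 * x + 1 : ℕ) : ℝ)) * ∑ n ∈ Icc 1 x, ‖h n‖ ^ 2 :=
  fourier_any x H hx hH T (hT.trans (Finset.range_mono (by omega))) h g K L1 R W hK hL1 hR hW0 hg
    hsp hW

end Pool.Agent.VK
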