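import Pool.Agent.Lib.HLT.Fourier
import Pool.Agent.Lib.HLT.Geom

/-!
# Local mean squares of the Fourier transform: Gallagher's lemma

Proof: see the sketch in `VK/WinSup.lean`.
-/

set_option autoImplicit false

open Finset Filter Pool.Agent.HLT

namespace Pool.Agent.VK

namespace WinSupAux

open Pool.Agent.HLB

theorem D_lower {h : ℕ} (hh : 1 ≤ h) {β : ℝ} (hβ : nrm β ≤ 1 / (2 * (h : ℝ))) :
    (h : ℝ) / 2 ≤ ‖∑ r ∈ range h, ex (r * β)‖ := by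
  obtain ⟨δ, hδ⟩ : ∃ δ, δ = β - round β := ⟨_, rfl⟩
  have hh0 : (0 : ℝ) < h := by exact_mod_cast hh
  have hβ' : |δ| ≤ 1 / (2 * (h : ℝ)) := by
    rw [hδ]
    exact hβ
  have he : ∀ r : ℕ, ex (r * β) = ex δ ^ r := by
    intro r
    rw [ex_nat_mul, ex_sub_round β, hδ]
  simp_rw [he]
  rcases eq_or_ne δ 0 with h0 | h0
  · rw [h0, ex_zero]
    simp only [one_pow, sum_const, card_range, nsmul_eq_mul, mul_one]
    rw [Complex.norm_natCast]
    linarith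
  have h1 := geom_sum_mul (ex δ) h
  rw [← ex_nat_mul] at h1
  have h2 : ‖∑ i ∈ range h, ex δ ^ i‖ * ‖ex δ - 1‖ = ‖ex (h * δ) - 1‖ := by
    rw [← norm_mul, h1]
  rw [norm_ex_sub_one, norm_ex_sub_one] at h2
  have hpi := Real.pi_pos
  have h3 : |Real.sin (Real.pi * δ)| ≤ Real.pi * |δ| := by
    refine Real.abs_sin_le_abs.trans (le_of_eq ?_)
    rw [abs_mul, abs_of_pos hpi]
  have h4 : 2 * h * |δ| ≤ |Real.sin (Real.pi * (h * δ))| := by
    have h5 : |Real.pi * (h * δ)| = Real.pi * (h * |δ|) := by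
      rw [abs_mul, abs_mul, abs_of_pos hpi, abs_of_pos hh0]
    have h6 : (h : ℝ) * |δ| ≤ 1 / 2 := by
      calc (h : ℝ) * |δ| ≤ h * (1 / (2 * (h : ℝ))) := by gcongr
        _ = 1 / 2 := by field_simp
    have h7 := Real.mul_abs_le_abs_sin (x := Real.pi * (h * δ)) (by
      rw [h5]
      nlinarith only [hpi, h6])
    rw [h5] at h7
    refine le_trans (le_of_eq ?_) h7
    field_simp
  have hd : 0 < |δ| := abs_pos.2 h0
  have hS : 0 ≤ ‖∑ i ∈ range h, ex δ ^ i‖ := norm_nonneg _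
  have h8 : 2 * (2 * h * |δ|) ≤ ‖∑ i ∈ range h, ex δ ^ i‖ * (2 * (Real.pi * |δ|)) := by
    calc 2 * (2 * h * |δ|) ≤ 2 * |Real.sin (Real.pi * (h * δ))| := by linarith only [h4]
      _ = ‖∑ i ∈ range h, ex δ ^ i‖ * (2 * |Real.sin (Real.pi * δ)|) := h2.symm
      _ ≤ _ := by gcongr
  have h9 : 2 * (h : ℝ) ≤ ‖∑ i ∈ range h, ex δ ^ i‖ * Real.pi := by
    refine le_of_mul_le_mul_right ?_ hd
    nlinarith only [h8]
  have h10 := Real.pi_le_four
  nlinarith only [hpi, h9, h10]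

/-- the window ending at `v` -/
noncomputable def Fv (x h : ℕ) (f : ℕ → ℝ) (θ : ℝ) (v : ℕ) : ℂ :=
  ∑ n ∈ (Ioc (v - h) v).filter (fun n => n ≤ 2 * x), (f n : ℂ) * ex (n * θ)

theorem window_sum (x h : ℕ) (f : ℕ → ℝ) (θ γ : ℝ) :
    ∑ v ∈ Icc 1 (2 * x + h), Fv x h f θ v * ex (-(v * θ)) * ex (v * γ) =
      esum f (2 * x) γ * ∑ r ∈ range h, ex (r * (γ - θ)) := by
  have h1 : ∀ v ∈ Icc 1 (2 * x + h), Fv x h f θ v * ex (-(v * θ)) * ex (v * γ) =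
      ∑ n ∈ (Ioc (v - h) v).filter (fun n => n ≤ 2 * x),
        (f n : ℂ) * ex (n * θ) * ex (v * (γ - θ)) := by
    intro v _
    unfold Fv
    rw [mul_assoc, ← ex_add, sum_mul]
    refine sum_congr rfl fun n _ => ?_
    congr 2
    ring
  rw [sum_congr rfl h1, sum_comm' (s' := fun n => Ico n (n + h)) (t' := Icc 1 (2 * x))]
  · unfold esum
    rw [sum_mul]
    refine sum_congr rfl fun n _ => ?_
    rw [sum_Ico_eq_sum_range, Nat.add_sub_cancel_left, mul_sum, ]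
    refine sum_congr rfl fun r _ => ?_
    rw [mul_assoc, mul_assoc, ← ex_add, ← ex_add]
    congr 2
    push_cast
    ring
  · intro v n
    simp only [mem_Icc, mem_filter, mem_Ioc, mem_Ico]
    omega

end WinSupAux

open WinSupAux

theorem gallagher (x H : ℕ) (hH : 4 ≤ H) (hHx : H ≤ x) (f : ℕ → ℝ) (K : ℝ) (hK : ∀ n ∈ Icc 1 (2 * x), |f n| ≤ K) (k0 : ℕ)
    (W : ℝ) (hW : ∑ u ∈ range (2 * x + 1), ‖∑ n ∈ (Ioc u (u + H / 4)).filter (fun n => n ≤ 2 * x), (f n : ℂ) *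
      ex (n * (k0 / ((4 * x + 1 : ℕ) : ℝ)))‖ ^ 2 ≤ W) :
    ∑ k ∈ (range (4 * x + 1)).filter (fun k : ℕ => nrm (((k : ℝ) - k0) / ((4 * x + 1 : ℕ) : ℝ)) ≤ 2 / (H : ℝ)),
        ‖esum f (2 * x) (k / ((4 * x + 1 : ℕ) : ℝ))‖ ^ 2 ≤
      256 / (H : ℝ) ^ 2 * ((4 * x + 1 : ℕ) : ℝ) * (W + (H : ℝ) ^ 3 * K ^ 2) := by
  have hH0 : (0 : ℝ) < H := by exact_mod_cast (by omega : 0 < H)
  obtain ⟨h, hh⟩ : ∃ h, h = H / 4 := ⟨_, rfl⟩
  rw [← hh] at hW
  have h1 : 1 ≤ h := by omega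
  have hh0 : (0 : ℝ) < h := by exact_mod_cast h1
  have h8 : (H : ℝ) ≤ 8 * h := by exact_mod_cast (by omega : H ≤ 8 * h)
  have h4 : 4 * (h : ℝ) ≤ H := by exact_mod_cast (by omega : 4 * h ≤ H)
  have hhH : (h : ℝ) ≤ H := by linarith
  obtain ⟨N, hN⟩ : ∃ N, N = 4 * x + 1 := ⟨_, rfl⟩
  rw [← hN] at hW ⊢
  have hN0 : 0 < N := by omega
  have hN0' : (0 : ℝ) < (N : ℝ) := by exact_mod_cast hN0
  obtain ⟨θ, hθ⟩ : ∃ θ : ℝ, θ = k0 / (N : ℝ) := ⟨_, rfl⟩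
  rw [← hθ] at hW
  have hK0 : 0 ≤ K := (abs_nonneg _).trans (hK 1 (by rw [mem_Icc]; omega))
  -- Parseval
  have hP := parseval N (2 * x + h) (by omega) hN0 (fun v => Fv x h f θ v * ex (-(v * θ)))
  have hQ : ∀ k : ℕ, ∑ v ∈ Icc 1 (2 * x + h), Fv x h f θ v * ex (-(v * θ)) * ex (v * (k / (N : ℝ))) =
      esum f (2 * x) (k / (N : ℝ)) * ∑ r ∈ range h, ex (r * ((k : ℝ) / (N : ℝ) - θ)) := fun k =>
    window_sum x h f θ _
  -- the windows
  have hF : ∀ v, ‖Fv x h f θ v * ex (-(v * θ))‖ ^ 2 = ‖Fv x h f θ v‖ ^ 2 := by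
    intro v
    rw [norm_mul, norm_ex, mul_one]
  have hF0 : ∀ v, v < h → ‖Fv x h f θ v‖ ^ 2 ≤ (h * K) ^ 2 := by
    intro v hv
    refine pow_le_pow_left₀ (norm_nonneg _) ?_ 2
    unfold Fv
    refine (norm_sum_le _ _).trans ?_
    calc ∑ n ∈ (Ioc (v - h) v).filter (fun n => n ≤ 2 * x), ‖(f n : ℂ) * ex (n * θ)‖ ≤
        ∑ n ∈ (Ioc (v - h) v).filter (fun n => n ≤ 2 * x), K := by
          refine sum_le_sum fun n hn => ?_
          rw [mem_filter, mem_Ioc] at hn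
          rw [norm_mul, norm_ex, mul_one, Complex.norm_real, Real.norm_eq_abs]
          exact hK n (by rw [mem_Icc]; omega)
      _ = ((Ioc (v - h) v).filter (fun n => n ≤ 2 * x)).card * K := by
          rw [sum_const, nsmul_eq_mul]
      _ ≤ h * K := by
          refine mul_le_mul_of_nonneg_right ?_ hK0
          have : ((Ioc (v - h) v).filter (fun n => n ≤ 2 * x)).card ≤ h := by
            refine (card_filter_le _ _).trans ?_
            rw [Nat.card_Ioc]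
            omega
          exact_mod_cast this
  have hsumF : ∑ v ∈ Icc 1 (2 * x + h), ‖Fv x h f θ v‖ ^ 2 ≤ W + (H : ℝ) ^ 3 * K ^ 2 := by
    have e1 : Icc 1 (2 * x + h) ⊆ range h ∪ (range (2 * x + 1)).image (fun u => u + h) := by
      intro v hv
      rw [mem_Icc] at hv
      rw [mem_union, mem_range, mem_image]
      rcases lt_or_ge v h with h' | h'
      · exact Or.inl h'
      · exact Or.inr ⟨v - h, by rw [mem_range]; omega, by omega⟩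
    calc ∑ v ∈ Icc 1 (2 * x + h), ‖Fv x h f θ v‖ ^ 2 ≤
        ∑ v ∈ range h ∪ (range (2 * x + 1)).image (fun u => u + h), ‖Fv x h f θ v‖ ^ 2 :=
          sum_le_sum_of_subset_of_nonneg e1 fun _ _ _ => by positivity
      _ ≤ ∑ v ∈ range h, ‖Fv x h f θ v‖ ^ 2 +
          ∑ v ∈ (range (2 * x + 1)).image (fun u => u + h), ‖Fv x h f θ v‖ ^ 2 := by
          have e2 := sum_union_inter (s₁ := range h)
            (s₂ := (range (2 * x + 1)).image (fun u => u + h)) (f := fun v => ‖Fv x h f θ v‖ ^ 2)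
          have e3 : 0 ≤ ∑ v ∈ range h ∩ (range (2 * x + 1)).image (fun u => u + h),
            ‖Fv x h f θ v‖ ^ 2 := sum_nonneg fun _ _ => by positivity
          linarith only [e2, e3]
      _ ≤ (H : ℝ) ^ 3 * K ^ 2 + W := by
          refine add_le_add ?_ ?_
          · calc ∑ v ∈ range h, ‖Fv x h f θ v‖ ^ 2 ≤ ∑ v ∈ range h, (h * K) ^ 2 :=
                  sum_le_sum fun v hv => hF0 v (mem_range.1 hv)
              _ = h * (h * K) ^ 2 := by rw [sum_const, card_range, nsmul_eq_mul]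
              _ = (h : ℝ) ^ 3 * K ^ 2 := by ring
              _ ≤ (H : ℝ) ^ 3 * K ^ 2 := by gcongr
          · rw [sum_image (by
              intro u _ u' _ huu
              simpa using huu)]
            refine le_trans (le_of_eq ?_) hW
            refine sum_congr rfl fun u _ => ?_
            unfold Fv
            rw [Nat.add_sub_cancel]
      _ = W + (H : ℝ) ^ 3 * K ^ 2 := add_comm _ _
  -- conclusion
  have hkey : ∀ k ∈ (range N).filter (fun k : ℕ => nrm (((k : ℝ) - k0) / (N : ℝ)) ≤ 2 / (H : ℝ)),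
      ‖esum f (2 * x) (k / (N : ℝ))‖ ^ 2 ≤ 256 / (H : ℝ) ^ 2 *
        ‖∑ v ∈ Icc 1 (2 * x + h), Fv x h f θ v * ex (-(v * θ)) * ex (v * (k / (N : ℝ)))‖ ^ 2 := by
    intro k hk
    rw [mem_filter] at hk
    have hk2 : nrm ((k : ℝ) / (N : ℝ) - θ) ≤ 1 / (2 * (h : ℝ)) := by
      have e1 : ((k : ℝ) - k0) / (N : ℝ) = (k : ℝ) / (N : ℝ) - θ := by
        rw [hθ, sub_div]
      rw [e1] at hk
      refine hk.2.trans ?_
      rw [div_le_div_iff₀ hH0 (by positivity)]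
      linarith only [h4]
    have hD := D_lower h1 hk2
    rw [hQ k, norm_mul, mul_pow]
    obtain ⟨D, hDd⟩ : ∃ D, D = ‖∑ r ∈ range h, ex (r * ((k : ℝ) / (N : ℝ) - θ))‖ := ⟨_, rfl⟩
    rw [← hDd] at hD ⊢
    have hD2 : (H : ℝ) / 16 ≤ D := by linarith only [h8, hD]
    have hD3 : ((H : ℝ) / 16) ^ 2 ≤ D ^ 2 := pow_le_pow_left₀ (by (clear * - hH; positivity)) hD2 2
    have hE : 0 ≤ ‖esum f (2 * x) (k / (N : ℝ))‖ ^ 2 := by (clear * -; positivity)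
    calc ‖esum f (2 * x) (k / (N : ℝ))‖ ^ 2 =
        256 / (H : ℝ) ^ 2 * (‖esum f (2 * x) (k / (N : ℝ))‖ ^ 2 * ((H : ℝ) / 16) ^ 2) := by
          field_simp
          ring
      _ ≤ 256 / (H : ℝ) ^ 2 * (‖esum f (2 * x) (k / (N : ℝ))‖ ^ 2 * D ^ 2) := by
          gcongr
  calc _ ≤ ∑ k ∈ (range N).filter (fun k : ℕ => nrm (((k : ℝ) - k0) / (N : ℝ)) ≤ 2 / (H : ℝ)),
        256 / (H : ℝ) ^ 2 *
        ‖∑ v ∈ Icc 1 (2 * x + h), Fv x h f θ v * ex (-(v * θ)) * ex (v * (k / (N : ℝ)))‖ ^ 2 :=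
        sum_le_sum hkey
    _ ≤ ∑ k ∈ range N, 256 / (H : ℝ) ^ 2 *
        ‖∑ v ∈ Icc 1 (2 * x + h), Fv x h f θ v * ex (-(v * θ)) * ex (v * (k / (N : ℝ)))‖ ^ 2 :=
        sum_le_sum_of_subset_of_nonneg (filter_subset _ _) fun _ _ _ => by positivity
    _ = 256 / (H : ℝ) ^ 2 * ((N : ℝ) * ∑ v ∈ Icc 1 (2 * x + h), ‖Fv x h f θ v‖ ^ 2) := by
        rw [← mul_sum, hP]
        simp only [hF]
    _ ≤ 256 / (H : ℝ) ^ 2 * ((N : ℝ) * (W + (H : ℝ) ^ 3 * K ^ 2)) := by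
        gcongr
    _ = 256 / (H : ℝ) ^ 2 * (N : ℝ) * (W + (H : ℝ) ^ 3 * K ^ 2) := by ring

end Pool.Agent.VK
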