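import Pool.Agent.Lib.HLT.GeomSum

/-!
# Bilinear exponential sums in short windows, mean square over the windows

PROOF SKETCH. For `u` fixed, Cauchy-Schwarz over `m`: `|S_u|^2 ≤ (sum |a m|^2) sum_m |sum_(u < m n ≤ u + H) b n ex (m n α)|^2`. (`n ∈ Ioc (u/m) ((u+H)/m)` iff `u < m n ≤ u + H`; only
`n ≤ (x + H)/M =: Y` occur.) Sum over all integers `u ≥ -H` (more than `range (x+1)`; all terms are nonnegative; `b` cut off at `Y`) and expand: for `n1, n2 ≤ Y` the number of `u` is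
`max 0 (H - m |n1 - n2|)`, so the sum over `u` is at most
`sum_(n1, n2) b n1 conj (b n2) sum_(m ∈ (M, 2M], m |n1-n2| < H) (H - m |n1 - n2|) ex (m (n1 - n2) α)`.
The weight in `m` is decreasing, nonnegative, at most `H`: by Abel summation and `geom_Ioc` the inner sum is at most `H mn M ((n1-n2) α)`, zero if `|n1 - n2| ≥ H/M`. With
`|b n1 b n2| ≤ (|b n1|^2 + |b n2|^2)/2` the total is `≤ H (sum |b n|^2) (M + 2 sum_(1 ≤ d ≤ H/M) mn M (α d))`, and `sum_mn_const` (with its `M` our `H / M`, `X` our `M`) gives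
`≤ C (H/(M q) + 1) (M + q log 2q)`. Product: `C (H/q + (H/M) log 2q + M + q log 2q)`. (Since the exact sum over all `u` in `ℤ` is used, it is convenient to
define `f u = sum_(n ≤ Y) [u < m n ≤ u + H] b n ex (m n α)` for `u : ℤ` in `Icc (-H) (2 (x + H))`.)
-/

set_option autoImplicit false

open Finset

namespace Pool.Agent.VK

open Pool.Agent.HLT

namespace WinBilinAux

open scoped ComplexConjugate

lemma nrm_neg' (α : ℝ) : nrm (-α) = nrm α := by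
  unfold nrm
  rw [abs_sub_round_eq_min, abs_sub_round_eq_min]
  by_cases h : Int.fract α = 0
  · have h2 : Int.fract (-α) = 0 := Int.fract_neg_eq_zero.mpr h
    rw [h, h2]
  · rw [Int.fract_neg h, min_comm]
    congr 1
    ring

lemma mn_neg' (X α : ℝ) : mn X (-α) = mn X α := by
  unfold mn
  rw [nrm_neg']

lemma mn_sub_comm (X α : ℝ) (a b : ℝ) : mn X ((a - b) * α) = mn X ((b - a) * α) := by
  rw [← mn_neg']
  congr 1
  ring

/-- the weight of a pair -/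
noncomputable def WW (M H : ℕ) (α : ℝ) (n1 n2 : ℕ) : ℂ :=
  ∑ m ∈ Ioc M (2 * M), ((H - m * ((n1 : ℤ) - n2).natAbs : ℕ) : ℂ) * ex (m * (((n1 : ℝ) - n2) * α))

/-- the bound for the weight -/
noncomputable def vv (M H : ℕ) (α : ℝ) (n1 n2 : ℕ) : ℝ :=
  if ((n1 : ℤ) - n2).natAbs ≤ H / M then H * mn M (((n1 : ℝ) - n2) * α) else 0

/-- the terms of a window -/
noncomputable def tt (H : ℕ) (α : ℝ) (b : ℕ → ℂ) (m : ℕ) (u : ℤ) (n : ℕ) : ℂ :=
  if u < (m : ℤ) * n ∧ (m : ℤ) * n ≤ u + H then b n * ex (m * n * α) else 0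

lemma vv_nonneg (M H : ℕ) (α : ℝ) (n1 n2 : ℕ) : 0 ≤ vv M H α n1 n2 := by
  unfold vv
  split_ifs
  · exact mul_nonneg (Nat.cast_nonneg _) (mn_nonneg (Nat.cast_nonneg _) _)
  · exact le_rfl

lemma vv_comm (M H : ℕ) (α : ℝ) (n1 n2 : ℕ) : vv M H α n1 n2 = vv M H α n2 n1 := by
  unfold vv
  have h1 : ((n1 : ℤ) - n2).natAbs = ((n2 : ℤ) - n1).natAbs := by omega
  rw [h1, mn_sub_comm]

/-- weighted geometric sum -/
lemma wgeom (M H k : ℕ) (θ : ℝ) :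
    ‖∑ m ∈ Ioc M (2 * M), ((H - m * k : ℕ) : ℂ) * ex (m * θ)‖ ≤ H * mn M θ := by
  have h1 : ∀ m ∈ Ioc M (2 * M), ((H - m * k : ℕ) : ℂ) * ex (m * θ) =
      ∑ h ∈ range H, if m * k ≤ h then ex (m * θ) else 0 := by
    intro m _
    rw [← Finset.sum_filter, Finset.sum_const, nsmul_eq_mul]
    congr 2
    have : (range H).filter (fun h => m * k ≤ h) = Ico (m * k) H := by
      ext h
      simp only [mem_filter, mem_range, mem_Ico]
      omega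
    rw [this, Nat.card_Ico]
  rw [Finset.sum_congr rfl h1, Finset.sum_comm]
  refine (norm_sum_le _ _).trans ?_
  have h2 : ∀ h ∈ range H, ‖∑ m ∈ Ioc M (2 * M), (if m * k ≤ h then ex (m * θ) else 0)‖ ≤ mn M θ := by
    intro h _
    rw [← Finset.sum_filter]
    obtain ⟨N', hN', hset⟩ : ∃ N' ≤ 2 * M, (Ioc M (2 * M)).filter (fun m => m * k ≤ h) = Ioc M N' := by
      rcases Nat.eq_zero_or_pos k with hk | hk
      · refine ⟨2 * M, le_rfl, ?_⟩
        ext m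
        simp [hk]
      · refine ⟨min (2 * M) (h / k), min_le_left _ _, ?_⟩
        ext m
        simp only [mem_filter, mem_Ioc, le_min_iff, Nat.le_div_iff_mul_le hk]
        tauto
    rw [hset]
    by_cases hMN : M ≤ N'
    · refine (geom_Ioc M N' hMN θ).trans ?_
      have e1 : (M : ℝ) ≤ N' := by exact_mod_cast hMN
      have e2 : (N' : ℝ) ≤ 2 * M := by exact_mod_cast hN'
      exact mn_mono (by linarith) (by linarith) _
    · have : Ioc M N' = ∅ := by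
        rw [Finset.Ioc_eq_empty_iff]
        omega
      rw [this, Finset.sum_empty, norm_zero]
      exact mn_nonneg (Nat.cast_nonneg _) _
  refine (Finset.sum_le_sum h2).trans (le_of_eq ?_)
  rw [Finset.sum_const, card_range, nsmul_eq_mul]

lemma WW_le {M : ℕ} (hM : 1 ≤ M) (H : ℕ) (α : ℝ) (n1 n2 : ℕ) :
    ‖WW M H α n1 n2‖ ≤ vv M H α n1 n2 := by
  unfold vv
  split_ifs with h
  · exact wgeom M H _ _
  · push Not at h
    have h1 : WW M H α n1 n2 = 0 := by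
      unfold WW
      refine Finset.sum_eq_zero fun m hm => ?_
      rw [mem_Ioc] at hm
      have h2 : H < ((n1 : ℤ) - n2).natAbs * M := (Nat.div_lt_iff_lt_mul (by omega)).1 h
      have h3 : ((n1 : ℤ) - n2).natAbs * M ≤ m * ((n1 : ℤ) - n2).natAbs := by
        rw [mul_comm]
        exact Nat.mul_le_mul_right _ hm.1.le
      have h4 : H - m * ((n1 : ℤ) - n2).natAbs = 0 := by omega
      rw [h4, Nat.cast_zero, zero_mul]
    rw [h1, norm_zero]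

lemma sum_shift_lt (N n1 : ℕ) (hn1 : n1 ∈ Icc 1 N) (g : ℕ → ℝ) (hg : ∀ h, 0 ≤ g h) :
    ∑ n2 ∈ (Icc 1 N).filter (fun n2 => n2 < n1), g (n1 - n2) ≤ ∑ h ∈ Icc 1 N, g h := by
  rw [← Finset.sum_image (f := g) (s := (Icc 1 N).filter (fun n2 => n2 < n1))
    (g := fun n2 => n1 - n2)]
  · apply Finset.sum_le_sum_of_subset_of_nonneg
    · intro h hh
      rw [Finset.mem_image] at hh
      obtain ⟨n2, hn2, rfl⟩ := hh
      simp only [mem_filter, mem_Icc] at hn2 hn1 ⊢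
      omega
    · intro h _ _
      exact hg h
  · intro a ha b hb hab
    simp only [coe_filter, mem_Icc, Set.mem_ofPred_eq] at ha hb hab
    omega

lemma sum_shift_gt (N n1 : ℕ) (hn1 : n1 ∈ Icc 1 N) (g : ℕ → ℝ) (hg : ∀ h, 0 ≤ g h) :
    ∑ n2 ∈ (Icc 1 N).filter (fun n2 => n1 < n2), g (n2 - n1) ≤ ∑ h ∈ Icc 1 N, g h := by
  rw [← Finset.sum_image (f := g) (s := (Icc 1 N).filter (fun n2 => n1 < n2))
    (g := fun n2 => n2 - n1)]
  · apply Finset.sum_le_sum_of_subset_of_nonneg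
    · intro h hh
      rw [Finset.mem_image] at hh
      obtain ⟨n2, hn2, rfl⟩ := hh
      simp only [mem_filter, mem_Icc] at hn2 hn1 ⊢
      omega
    · intro h _ _
      exact hg h
  · intro a ha b hb hab
    simp only [coe_filter, mem_Icc, Set.mem_ofPred_eq] at ha hb hab
    omega

lemma sum_vv_le (M H N n1 : ℕ) (hn1 : n1 ∈ Icc 1 N) (α : ℝ) :
    ∑ n2 ∈ Icc 1 N, vv M H α n1 n2 ≤ H * (M + 2 * ∑ h ∈ Icc 1 (H / M), mn M (α * h)) := by
  obtain ⟨g, hg⟩ : ∃ g : ℕ → ℝ, g = fun h => if h ≤ H / M then H * mn M (α * h) else 0 := ⟨_, rfl⟩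
  have hg0 : ∀ h, 0 ≤ g h := by
    intro h
    rw [hg]
    dsimp only
    split_ifs
    · exact mul_nonneg (Nat.cast_nonneg _) (mn_nonneg (Nat.cast_nonneg _) _)
    · exact le_rfl
  have key : ∀ n2 ∈ Icc 1 N, vv M H α n1 n2 =
      (if n2 < n1 then g (n1 - n2) else 0) + (if n1 < n2 then g (n2 - n1) else 0) +
      (if n1 = n2 then H * mn M 0 else 0) := by
    intro n2 _
    unfold vv
    rcases lt_trichotomy n2 n1 with h | h | h
    · have e : ((n1 : ℤ) - n2).natAbs = n1 - n2 := by omega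
      rw [if_pos h, if_neg (show ¬ n1 < n2 by omega), if_neg (show ¬ n1 = n2 by omega), add_zero, add_zero, hg, e]
      dsimp only
      rw [Nat.cast_sub h.le, mul_comm α]
    · subst h
      simp
    · have e : ((n1 : ℤ) - n2).natAbs = n2 - n1 := by omega
      rw [if_neg (show ¬ n2 < n1 by omega), if_pos h, if_neg (show ¬ n1 = n2 by omega), add_zero, zero_add, hg, e]
      dsimp only
      rw [Nat.cast_sub h.le, mn_sub_comm, mul_comm α]
  rw [Finset.sum_congr rfl key, Finset.sum_add_distrib, Finset.sum_add_distrib,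
    ← Finset.sum_filter, ← Finset.sum_filter, Finset.sum_ite_eq, if_pos hn1]
  have h1 := sum_shift_lt N n1 hn1 g hg0
  have h2 := sum_shift_gt N n1 hn1 g hg0
  have h3 := mn_le_left (Nat.cast_nonneg M) (0 : ℝ)
  have h4 : ∑ h ∈ Icc 1 N, g h ≤ H * ∑ h ∈ Icc 1 (H / M), mn M (α * h) := by
    rw [Finset.mul_sum, hg, ← Finset.sum_filter]
    apply Finset.sum_le_sum_of_subset_of_nonneg
    · intro h hh
      rw [mem_filter, mem_Icc] at hh
      rw [mem_Icc]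
      exact ⟨hh.1.1, hh.2⟩
    · intro h _ _
      exact mul_nonneg (Nat.cast_nonneg _) (mn_nonneg (Nat.cast_nonneg _) _)
  have h5 : (H : ℝ) * mn M 0 ≤ H * M := mul_le_mul_of_nonneg_left h3 (Nat.cast_nonneg _)
  calc _ ≤ H * ∑ h ∈ Icc 1 (H / M), mn M (α * h) + H * ∑ h ∈ Icc 1 (H / M), mn M (α * h) + H * M :=
        add_le_add (add_le_add (h1.trans h4) (h2.trans h4)) h5
    _ = _ := by ring

lemma card_win (M Y H x m n1 n2 : ℕ) (hm : m ≤ 2 * M) (h1 : n1 ≤ Y) (h2 : n2 ≤ Y)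
    (hY : M * Y ≤ x + H) :
    ((Icc (-(H : ℤ)) (2 * ((x : ℤ) + H))).filter (fun u : ℤ => (u < (m : ℤ) * n1 ∧ (m : ℤ) * n1 ≤ u + H) ∧
      (u < (m : ℤ) * n2 ∧ (m : ℤ) * n2 ≤ u + H))).card = H - m * ((n1 : ℤ) - n2).natAbs := by
  have b1 : m * n1 ≤ 2 * (x + H) := by
    calc m * n1 ≤ (2 * M) * Y := Nat.mul_le_mul hm h1
      _ = 2 * (M * Y) := by ring
      _ ≤ _ := Nat.mul_le_mul_left _ hY
  have b2 : m * n2 ≤ 2 * (x + H) := by
    calc m * n2 ≤ (2 * M) * Y := Nat.mul_le_mul hm h2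
      _ = 2 * (M * Y) := by ring
      _ ≤ _ := Nat.mul_le_mul_left _ hY
  rcases le_total n1 n2 with h | h
  · have e : ((n1 : ℤ) - n2).natAbs = n2 - n1 := by omega
    have e2 : m * (n2 - n1) = m * n2 - m * n1 := Nat.mul_sub m n2 n1
    have e3 : m * n1 ≤ m * n2 := Nat.mul_le_mul_left _ h
    have e4 : ((m : ℤ) * n1) = ((m * n1 : ℕ) : ℤ) := by push_cast; ring
    have e5 : ((m : ℤ) * n2) = ((m * n2 : ℕ) : ℤ) := by push_cast; ring
    rw [e, e2, e4, e5]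
    have hset : (Icc (-(H : ℤ)) (2 * ((x : ℤ) + H))).filter (fun u : ℤ => (u < ((m * n1 : ℕ) : ℤ) ∧
        ((m * n1 : ℕ) : ℤ) ≤ u + H) ∧ (u < ((m * n2 : ℕ) : ℤ) ∧ ((m * n2 : ℕ) : ℤ) ≤ u + H)) =
        Icc (((m * n2 : ℕ) : ℤ) - H) (((m * n1 : ℕ) : ℤ) - 1) := by
      ext u
      simp only [mem_filter, mem_Icc]
      omega
    rw [hset, Int.card_Icc]
    omega
  · have e : ((n1 : ℤ) - n2).natAbs = n1 - n2 := by omega
    have e2 : m * (n1 - n2) = m * n1 - m * n2 := Nat.mul_sub m n1 n2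
    have e3 : m * n2 ≤ m * n1 := Nat.mul_le_mul_left _ h
    have e4 : ((m : ℤ) * n1) = ((m * n1 : ℕ) : ℤ) := by push_cast; ring
    have e5 : ((m : ℤ) * n2) = ((m * n2 : ℕ) : ℤ) := by push_cast; ring
    rw [e, e2, e4, e5]
    have hset : (Icc (-(H : ℤ)) (2 * ((x : ℤ) + H))).filter (fun u : ℤ => (u < ((m * n1 : ℕ) : ℤ) ∧
        ((m * n1 : ℕ) : ℤ) ≤ u + H) ∧ (u < ((m * n2 : ℕ) : ℤ) ∧ ((m * n2 : ℕ) : ℤ) ≤ u + H)) =
        Icc (((m * n1 : ℕ) : ℤ) - H) (((m * n2 : ℕ) : ℤ) - 1) := by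
      ext u
      simp only [mem_filter, mem_Icc]
      omega
    rw [hset, Int.card_Icc]
    omega

lemma tt_sum (M Y H x : ℕ) (α : ℝ) (b : ℕ → ℂ) (hY : M * Y ≤ x + H) {m n1 n2 : ℕ} (hm : m ≤ 2 * M)
    (h1 : n1 ≤ Y) (h2 : n2 ≤ Y) :
    ∑ u ∈ Icc (-(H : ℤ)) (2 * ((x : ℤ) + H)), tt H α b m u n1 * conj (tt H α b m u n2) =
      b n1 * conj (b n2) * (((H - m * ((n1 : ℤ) - n2).natAbs : ℕ) : ℂ) *
        ex (m * (((n1 : ℝ) - n2) * α))) := by
  have hterm : ∀ u ∈ Icc (-(H : ℤ)) (2 * ((x : ℤ) + H)), tt H α b m u n1 * conj (tt H α b m u n2) =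
      if (u < (m : ℤ) * n1 ∧ (m : ℤ) * n1 ≤ u + H) ∧ (u < (m : ℤ) * n2 ∧ (m : ℤ) * n2 ≤ u + H) then
        b n1 * conj (b n2) * ex (m * (((n1 : ℝ) - n2) * α)) else 0 := by
    intro u _
    unfold tt
    by_cases c1 : u < (m : ℤ) * n1 ∧ (m : ℤ) * n1 ≤ u + H
    · by_cases c2 : u < (m : ℤ) * n2 ∧ (m : ℤ) * n2 ≤ u + H
      · rw [if_pos c1, if_pos c2, if_pos ⟨c1, c2⟩, map_mul, ← ex_neg]
        have e : (m : ℝ) * (((n1 : ℝ) - n2) * α) = m * n1 * α + -(m * n2 * α) := by ring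
        rw [e, ex_add]
        ring
      · have hn : ¬ ((u < (m : ℤ) * n1 ∧ (m : ℤ) * n1 ≤ u + H) ∧
            (u < (m : ℤ) * n2 ∧ (m : ℤ) * n2 ≤ u + H)) := fun h => c2 h.2
        rw [if_neg c2, if_neg hn, map_zero, mul_zero]
    · have hn : ¬ ((u < (m : ℤ) * n1 ∧ (m : ℤ) * n1 ≤ u + H) ∧
          (u < (m : ℤ) * n2 ∧ (m : ℤ) * n2 ≤ u + H)) := fun h => c1 h.1
      rw [if_neg c1, if_neg hn, zero_mul]
  rw [Finset.sum_congr rfl hterm, ← Finset.sum_filter, Finset.sum_const,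
    card_win M Y H x m n1 n2 hm h1 h2 hY, nsmul_eq_mul]
  ring

lemma mean_sq (M Y H x : ℕ) (α : ℝ) (b : ℕ → ℂ) (hM : 1 ≤ M) (hY : M * Y ≤ x + H) (G : ℝ)
    (hG : ∀ n1 ∈ Icc 1 Y, ∑ n2 ∈ Icc 1 Y, vv M H α n1 n2 ≤ G) :
    ∑ m ∈ Ioc M (2 * M), ∑ u ∈ Icc (-(H : ℤ)) (2 * ((x : ℤ) + H)), ‖∑ n ∈ Icc 1 Y, tt H α b m u n‖ ^ 2 ≤
      G * ∑ n ∈ Icc 1 Y, ‖b n‖ ^ 2 := by
  set S : ℝ := ∑ m ∈ Ioc M (2 * M), ∑ u ∈ Icc (-(H : ℤ)) (2 * ((x : ℤ) + H)),
    ‖∑ n ∈ Icc 1 Y, tt H α b m u n‖ ^ 2 with hS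
  have hS0 : 0 ≤ S := Finset.sum_nonneg fun m _ => Finset.sum_nonneg fun u _ => by positivity
  have hSc : (S : ℂ) = ∑ n1 ∈ Icc 1 Y, ∑ n2 ∈ Icc 1 Y, b n1 * conj (b n2) * WW M H α n1 n2 := by
    rw [hS]
    push_cast
    have e1 : ∀ m ∈ Ioc M (2 * M), ∑ u ∈ Icc (-(H : ℤ)) (2 * ((x : ℤ) + H)),
        ((‖∑ n ∈ Icc 1 Y, tt H α b m u n‖ : ℝ) : ℂ) ^ 2 =
        ∑ n1 ∈ Icc 1 Y, ∑ n2 ∈ Icc 1 Y, b n1 * conj (b n2) *
          (((H - m * ((n1 : ℤ) - n2).natAbs : ℕ) : ℂ) * ex (m * (((n1 : ℝ) - n2) * α))) := by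
      intro m hm
      rw [mem_Ioc] at hm
      have e2 : ∀ u ∈ Icc (-(H : ℤ)) (2 * ((x : ℤ) + H)),
          ((‖∑ n ∈ Icc 1 Y, tt H α b m u n‖ : ℝ) : ℂ) ^ 2 =
          ∑ n1 ∈ Icc 1 Y, ∑ n2 ∈ Icc 1 Y, tt H α b m u n1 * conj (tt H α b m u n2) := by
        intro u _
        rw [← Complex.mul_conj', map_sum, Finset.sum_mul_sum]
      rw [Finset.sum_congr rfl e2, Finset.sum_comm]
      refine Finset.sum_congr rfl fun n1 hn1 => ?_
      rw [Finset.sum_comm]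
      refine Finset.sum_congr rfl fun n2 hn2 => ?_
      rw [mem_Icc] at hn1 hn2
      exact tt_sum M Y H x α b hY hm.2 hn1.2 hn2.2
    rw [Finset.sum_congr rfl e1, Finset.sum_comm]
    refine Finset.sum_congr rfl fun n1 hn1 => ?_
    rw [Finset.sum_comm]
    refine Finset.sum_congr rfl fun n2 hn2 => ?_
    unfold WW
    rw [Finset.mul_sum]
  have h1 : S ≤ ∑ n1 ∈ Icc 1 Y, ∑ n2 ∈ Icc 1 Y, ‖b n1‖ * ‖b n2‖ * vv M H α n1 n2 := by
    have h2 : S = ‖(S : ℂ)‖ := by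
      rw [Complex.norm_real, Real.norm_of_nonneg hS0]
    rw [h2, hSc]
    refine (norm_sum_le _ _).trans (Finset.sum_le_sum fun n1 _ => ?_)
    refine (norm_sum_le _ _).trans (Finset.sum_le_sum fun n2 _ => ?_)
    rw [norm_mul, norm_mul, RCLike.norm_conj]
    exact mul_le_mul_of_nonneg_left (WW_le hM H α n1 n2) (by positivity)
  refine h1.trans ?_
  have h6 : ∑ n1 ∈ Icc 1 Y, ∑ n2 ∈ Icc 1 Y, ‖b n1‖ * ‖b n2‖ * vv M H α n1 n2 ≤
      ∑ n1 ∈ Icc 1 Y, ∑ n2 ∈ Icc 1 Y, ((‖b n1‖ ^ 2 / 2) * vv M H α n1 n2 +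
        (‖b n2‖ ^ 2 / 2) * vv M H α n2 n1) := by
    refine Finset.sum_le_sum fun n1 _ => Finset.sum_le_sum fun n2 _ => ?_
    rw [vv_comm M H α n2 n1, ← add_mul]
    apply mul_le_mul_of_nonneg_right _ (vv_nonneg _ _ _ _ _)
    have := two_mul_le_add_sq ‖b n1‖ ‖b n2‖
    linarith
  refine h6.trans ?_
  simp only [Finset.sum_add_distrib]
  have h7 : ∑ n1 ∈ Icc 1 Y, ∑ n2 ∈ Icc 1 Y, (‖b n2‖ ^ 2 / 2) * vv M H α n2 n1 =
      ∑ n1 ∈ Icc 1 Y, ∑ n2 ∈ Icc 1 Y, (‖b n1‖ ^ 2 / 2) * vv M H α n1 n2 :=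
    Finset.sum_comm
  rw [h7, ← two_mul, Finset.mul_sum, Finset.mul_sum]
  refine Finset.sum_le_sum fun n1 hn1 => ?_
  rw [← Finset.mul_sum]
  have := hG n1 hn1
  have h8 : 0 ≤ ‖b n1‖ ^ 2 := by positivity
  nlinarith

/-- The inner sum over a window. -/
lemma win_eq (M x H : ℕ) (hM : 1 ≤ M) (α : ℝ) (b : ℕ → ℂ) {u m : ℕ} (hu : u ≤ x) (hm : M < m) :
    ∑ n ∈ Ioc (u / m) ((u + H) / m), b n * ex (m * n * α) =
      ∑ n ∈ Icc 1 ((x + H) / M), tt H α b m (u : ℤ) n := by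
  have hm0 : 0 < m := by omega
  unfold tt
  rw [← Finset.sum_filter]
  refine Finset.sum_congr ?_ fun _ _ => rfl
  ext n
  rw [mem_Ioc, mem_filter, mem_Icc, Nat.div_lt_iff_lt_mul hm0, Nat.le_div_iff_mul_le hm0,
    Nat.le_div_iff_mul_le (by omega : 0 < M)]
  have e4 : ((m : ℤ) * n) = ((n * m : ℕ) : ℤ) := by push_cast; ring
  rw [e4]
  constructor
  · rintro ⟨h1, h2⟩
    refine ⟨⟨?_, ?_⟩, ?_, ?_⟩
    · rcases Nat.eq_zero_or_pos n with h | h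
      · subst h
        simp at h1
      · exact h
    · calc n * M ≤ n * m := Nat.mul_le_mul_left _ hm.le
        _ ≤ u + H := h2
        _ ≤ x + H := by omega
    · exact_mod_cast h1
    · exact_mod_cast h2
  · rintro ⟨_, h1, h2⟩
    exact ⟨by exact_mod_cast h1, by exact_mod_cast h2⟩

end WinBilinAux

open WinBilinAux

theorem win_bilin : ∃ C : ℝ, 1 ≤ C ∧ ∀ (M x H q : ℕ) (a0 : ℤ) (α : ℝ) (a b : ℕ → ℂ), 1 ≤ M → 1 ≤ H → 1 ≤ q →
    IsCoprime a0 (q : ℤ) → |α - a0 / q| ≤ 1 / (q : ℝ) ^ 2 →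
    ∑ u ∈ range (x + 1), ‖∑ m ∈ Ioc M (2 * M), ∑ n ∈ Ioc (u / m) ((u + H) / m), a m * b n * ex (m * n * α)‖ ^ 2 ≤
      C * H * (∑ m ∈ Ioc M (2 * M), ‖a m‖ ^ 2) * (∑ n ∈ Icc 1 ((x + H) / M), ‖b n‖ ^ 2) *
        ((M + H / q + H / M + q) * (1 + Real.log q)) := by
  obtain ⟨C1, hC1, hsum⟩ := sum_mn_const
  refine ⟨1 + 2 * C1, by linarith, ?_⟩
  intro M x H q a0 α a b hM hH hq hcop hα
  set Y := (x + H) / M with hYdef
  have hMY : M * Y ≤ x + H := Nat.mul_div_le _ _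
  have hM1 : (1 : ℝ) ≤ M := by exact_mod_cast hM
  have hq1 : (1 : ℝ) ≤ q := by exact_mod_cast hq
  have hH1 : (1 : ℝ) ≤ H := by exact_mod_cast hH
  set A : ℝ := ∑ m ∈ Ioc M (2 * M), ‖a m‖ ^ 2 with hA
  set B : ℝ := ∑ n ∈ Icc 1 Y, ‖b n‖ ^ 2 with hB
  have hA0 : 0 ≤ A := Finset.sum_nonneg fun _ _ => by positivity
  have hB0 : 0 ≤ B := Finset.sum_nonneg fun _ _ => by positivity
  set G : ℝ := H * (M + 2 * (C1 * (((H / M : ℕ) : ℝ) / q + 1) * (M + q * Real.log (2 * q)))) with hG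
  have hGb : ∀ n1 ∈ Icc 1 Y, ∑ n2 ∈ Icc 1 Y, vv M H α n1 n2 ≤ G := by
    intro n1 hn1
    refine (sum_vv_le M H Y n1 hn1 α).trans ?_
    have := hsum q (H / M) a0 α M hq hcop hα (Nat.cast_nonneg M)
    rw [hG]
    gcongr
  have hms := mean_sq M Y H x α b hM hMY G hGb
  -- Cauchy-Schwarz
  have hCS : ∀ u ∈ range (x + 1), ‖∑ m ∈ Ioc M (2 * M), ∑ n ∈ Ioc (u / m) ((u + H) / m),
      a m * b n * ex (m * n * α)‖ ^ 2 ≤
      A * ∑ m ∈ Ioc M (2 * M), ‖∑ n ∈ Icc 1 Y, tt H α b m (u : ℤ) n‖ ^ 2 := by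
    intro u hu
    rw [mem_range] at hu
    have h1 : ‖∑ m ∈ Ioc M (2 * M), ∑ n ∈ Ioc (u / m) ((u + H) / m), a m * b n * ex (m * n * α)‖ ≤
        ∑ m ∈ Ioc M (2 * M), ‖a m‖ * ‖∑ n ∈ Icc 1 Y, tt H α b m (u : ℤ) n‖ := by
      refine (norm_sum_le _ _).trans (Finset.sum_le_sum fun m hm => ?_)
      rw [mem_Ioc] at hm
      rw [← win_eq M x H hM α b (by omega : u ≤ x) hm.1, ← norm_mul, Finset.mul_sum]
      refine le_of_eq ?_
      congr 1
      refine Finset.sum_congr rfl fun n _ => ?_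
      ring
    refine (pow_le_pow_left₀ (norm_nonneg _) h1 2).trans ?_
    exact Finset.sum_mul_sq_le_sq_mul_sq _ _ _
  have hstep : ∑ u ∈ range (x + 1), ∑ m ∈ Ioc M (2 * M), ‖∑ n ∈ Icc 1 Y, tt H α b m (u : ℤ) n‖ ^ 2 ≤
      ∑ m ∈ Ioc M (2 * M), ∑ u ∈ Icc (-(H : ℤ)) (2 * ((x : ℤ) + H)), ‖∑ n ∈ Icc 1 Y, tt H α b m u n‖ ^ 2 := by
    rw [Finset.sum_comm]
    refine Finset.sum_le_sum fun m _ => ?_
    rw [← Finset.sum_image (f := fun u : ℤ => ‖∑ n ∈ Icc 1 Y, tt H α b m u n‖ ^ 2)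
      (s := range (x + 1)) (g := fun u : ℕ => (u : ℤ))]
    · apply Finset.sum_le_sum_of_subset_of_nonneg
      · intro u hu
        rw [Finset.mem_image] at hu
        obtain ⟨v, hv, rfl⟩ := hu
        rw [mem_range] at hv
        rw [mem_Icc]
        constructor <;> omega
      · intro u _ _
        positivity
    · intro v _ w _ hvw
      exact Int.ofNat_inj.1 hvw
  -- the final numerical inequality
  have hlog : 0 ≤ Real.log q := Real.log_nonneg hq1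
  set L : ℝ := 1 + Real.log q with hL
  have hL1 : 1 ≤ L := by rw [hL]; linarith
  have hlog2 : Real.log (2 * q) ≤ L := by
    rw [Real.log_mul (by norm_num) (by linarith), hL]
    have := Real.log_two_lt_d9
    linarith
  have hlog20 : 0 ≤ Real.log (2 * q) := Real.log_nonneg (by linarith)
  have hdiv : ((H / M : ℕ) : ℝ) ≤ H / M := Nat.cast_div_le
  have hK : 0 ≤ (M : ℝ) + H / q + H / M + q := by positivity
  have hGle : G ≤ (1 + 2 * C1) * H * (((M : ℝ) + H / q + H / M + q) * L) := by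
    have e1 : (((H / M : ℕ) : ℝ) / q + 1) * (M + q * Real.log (2 * q)) ≤
        ((M : ℝ) + H / q + H / M + q) * L := by
      calc (((H / M : ℕ) : ℝ) / q + 1) * (M + q * Real.log (2 * q))
          ≤ (((H : ℝ) / M) / q + 1) * (M + q * L) := by gcongr
        _ = H / q + H / M * L + M + q * L := by
            field_simp
            ring
        _ ≤ H / q * L + H / M * L + M * L + q * L := by
            have t1 : (H : ℝ) / q ≤ H / q * L := le_mul_of_one_le_right (by positivity) hL1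
            have t2 : (M : ℝ) ≤ M * L := le_mul_of_one_le_right (by positivity) hL1
            linarith
        _ = _ := by ring
    have e2 : (M : ℝ) ≤ ((M : ℝ) + H / q + H / M + q) * L := by
      have t1 : 0 ≤ (H : ℝ) / q := by positivity
      have t2 : 0 ≤ (H : ℝ) / M := by positivity
      calc (M : ℝ) ≤ (M : ℝ) + H / q + H / M + q := by linarith
        _ ≤ _ := le_mul_of_one_le_right hK hL1
    rw [hG]
    calc (H : ℝ) * (M + 2 * (C1 * (((H / M : ℕ) : ℝ) / q + 1) * (M + q * Real.log (2 * q))))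
        = H * (M + 2 * (C1 * ((((H / M : ℕ) : ℝ) / q + 1) * (M + q * Real.log (2 * q))))) := by ring
      _ ≤ H * (((M : ℝ) + H / q + H / M + q) * L + 2 * (C1 * (((M : ℝ) + H / q + H / M + q) * L))) := by
          gcongr
      _ = _ := by ring
  calc ∑ u ∈ range (x + 1), ‖∑ m ∈ Ioc M (2 * M), ∑ n ∈ Ioc (u / m) ((u + H) / m),
        a m * b n * ex (m * n * α)‖ ^ 2
      ≤ ∑ u ∈ range (x + 1), A * ∑ m ∈ Ioc M (2 * M), ‖∑ n ∈ Icc 1 Y, tt H α b m (u : ℤ) n‖ ^ 2 :=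
        Finset.sum_le_sum hCS
    _ = A * ∑ u ∈ range (x + 1), ∑ m ∈ Ioc M (2 * M), ‖∑ n ∈ Icc 1 Y, tt H α b m (u : ℤ) n‖ ^ 2 := by
        rw [Finset.mul_sum]
    _ ≤ A * (G * B) := mul_le_mul_of_nonneg_left (hstep.trans hms) hA0
    _ ≤ A * (((1 + 2 * C1) * H * (((M : ℝ) + H / q + H / M + q) * L)) * B) := by gcongr
    _ = _ := by ring

end Pool.Agent.VK
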