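import Pool.Agent.Lib.VK.ShortDefs
import Pool.Agent.Lib.BV.LargeSieve
import Pool.Agent.Lib.HLT.Geom

/-!
# The large sieve for separated points, and the energy criterion at scale `H`

PROOF SKETCH (`large_sieve_sep`). By duality it suffices that `∑_(n ≤ M) |∑_(θ ∈ Θ) b θ ex (n θ)|^2 ≤ C (M + 1 + H) ∑ |b θ|^2`. (Duality: for a finite matrix the norm of the transpose is the same; direct proof: let `S = ∑_θ |f θ|^2`, `f θ = ∑ a n ex (n θ)`,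
`S = ∑_n a n conj (∑_θ ...) ≤ (∑|a n|^2)^(1/2) (∑_n |∑_θ conj(f θ) ex (n θ)|^2)^(1/2) ≤ (∑ |a|^2)^(1/2) (C (M+1+H) S)^(1/2)`.)
Majorize the indicator of `[0, M]` by `4 × Fejer`-type weight: with `N = M + 1`, `w n = max 0 (1 - |n - M/2|/N)·2 ≥ 1` on `[0, M]`, whose transform is `≤ C min (N, 1/(N nrm(θ)^2))` (e.g. `2N-1`-term Fejer kernel: `∑_(|n| < N) (1 - |n|/N) ex (n θ) = (1/N) |∑_(j<N) ex (j θ)|^2 ≤ min N (1/(4 N nrm^2 θ))`,
`Geom.lean`: `geom`, `mn`). Then `∑_θ,θ' |b θ||b θ'| K(θ - θ') ≤ ∑ |b θ|^2 max_θ ∑_θ' K(θ - θ')` and for fixed `θ` the points `θ'` are `1/H`-separated modulo one: `∑ ≤ C N + 2·∑_(j ≥ 1) 1/(4 N (j/H)^2)·2 ≤ C (N + H^2/N)`; if `N < H` enlarge `N` to `H` first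
(the sum over `n ≤ M` is at most the sum over `n ≤ max(M, H)`). The counting of separated points near a given point: at most two points have `j/H ≤ nrm (θ - θ') < (j+1)/H` for each `j` (one on each side; the representatives in `(-1/2, 1/2]` of `θ' - θ` are `1/H` separated reals).
PROOF SKETCH (`sps_of_energy`). As in `HLT/EnC.lean`: for `Θ` as in `SpS`: `∑_θ |WW T θ|^(2s) ≥ Θ.card (|T|/L^b)^(2s)`, and `WW T θ ^ s = ∑_(n ≤ s H) r n ex (n θ)`, `r n = #{u ∈ T^s : ∑ u = n}`, `∑ r n^2 = energy s T`: by `large_sieve_sep`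
`Θ.card ≤ C (s H + 1 + H) energy L^(2sb)/|T|^(2s) ≤ C (s + 2) L^(2sb+C0) ≤ L^(2sb + C0 + 1)`.
-/

set_option autoImplicit false

open Finset Filter

namespace Pool.Agent.VK

open Pool.Agent.HLT

private lemma nrm_sq_le_int (α : ℝ) (m : ℤ) : nrm α ≤ |α - m| := by
  unfold nrm
  exact round_le α m

private lemma ss_norm_sq_bound (N2 : ℕ) (H : ℕ) (hH : 1 ≤ H) (α : ℝ) :
    ‖∑ n ∈ Icc 1 N2, ex (n * α)‖ ^ 2 ≤
      (if ⌊(H : ℝ) * nrm α⌋₊ = 0 then (N2 : ℝ) ^ 2 else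
        (H : ℝ) ^ 2 / 4 * (((⌊(H : ℝ) * nrm α⌋₊ : ℕ) : ℝ) ^ 2)⁻¹) := by
  have h1 := geom N2 α
  have hH0 : (0 : ℝ) < H := by exact_mod_cast hH
  split_ifs with h
  · have h2 := h1.trans (mn_le_left (Nat.cast_nonneg N2) α)
    exact pow_le_pow_left₀ (norm_nonneg _) h2 2
  · have hj : 1 ≤ ⌊(H : ℝ) * nrm α⌋₊ := Nat.one_le_iff_ne_zero.2 h
    have hj0 : (0 : ℝ) < ((⌊(H : ℝ) * nrm α⌋₊ : ℕ) : ℝ) := by exact_mod_cast hj
    have hn0 := nrm_nonneg α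
    have h3 : ((⌊(H : ℝ) * nrm α⌋₊ : ℕ) : ℝ) ≤ (H : ℝ) * nrm α :=
      Nat.floor_le (by positivity)
    have hpos : 0 < nrm α := by
      by_contra hcon
      push Not at hcon
      have h4 : nrm α = 0 := le_antisymm hcon hn0
      rw [h4, mul_zero] at h3
      rw [h4, mul_zero] at hj0
      linarith
    have h2 := h1.trans (mn_le_right (Nat.cast_nonneg N2) hpos)
    have h5 : 1 / (2 * nrm α) ≤ H / 2 * (((⌊(H : ℝ) * nrm α⌋₊ : ℕ) : ℝ))⁻¹ := by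
      rw [div_mul_eq_mul_div, ← div_eq_mul_inv, div_div, div_le_div_iff₀ (by positivity)
        (by positivity)]
      nlinarith only [h3]
    calc ‖∑ n ∈ Icc 1 N2, ex (n * α)‖ ^ 2 ≤
        (H / 2 * (((⌊(H : ℝ) * nrm α⌋₊ : ℕ) : ℝ))⁻¹) ^ 2 :=
          pow_le_pow_left₀ (norm_nonneg _) (h2.trans h5) 2
      _ = _ := by rw [mul_pow, div_pow, inv_pow]; norm_num

private lemma ss_half (N2 H : ℕ) (hH : 1 ≤ H) (Θ : Finset ℝ) (hinj : ∀ a ∈ Θ, ∀ b ∈ Θ,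
    ⌊(H : ℝ) * nrm a⌋₊ = ⌊(H : ℝ) * nrm b⌋₊ → a = b) :
    ∑ α ∈ Θ, ‖∑ n ∈ Icc 1 N2, ex (n * α)‖ ^ 2 ≤ (N2 : ℝ) ^ 2 + (H : ℝ) ^ 2 / 2 := by
  classical
  set w : ℕ → ℝ := fun j => if j = 0 then (N2 : ℝ) ^ 2 else
    (H : ℝ) ^ 2 / 4 * ((j : ℝ) ^ 2)⁻¹ with hw
  have hw0 : ∀ j, 0 ≤ w j := by
    intro j
    simp only [hw]
    split_ifs <;> positivity
  have h1 : ∑ α ∈ Θ, ‖∑ n ∈ Icc 1 N2, ex (n * α)‖ ^ 2 ≤ ∑ α ∈ Θ, w ⌊(H : ℝ) * nrm α⌋₊ :=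
    Finset.sum_le_sum fun α _ => ss_norm_sq_bound N2 H hH α
  have h2 : ∑ α ∈ Θ, w ⌊(H : ℝ) * nrm α⌋₊ =
      ∑ j ∈ Θ.image (fun α => ⌊(H : ℝ) * nrm α⌋₊), w j := by
    rw [Finset.sum_image]
    intro a ha b hb hab
    exact hinj a ha b hb hab
  have h3 : Θ.image (fun α => ⌊(H : ℝ) * nrm α⌋₊) ⊆ range (H + 1) := by
    intro j hj
    rw [Finset.mem_image] at hj
    obtain ⟨α, _, rfl⟩ := hj
    rw [Finset.mem_range]
    have h4 : (H : ℝ) * nrm α ≤ H := by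
      have := nrm_le_half α
      have := nrm_nonneg α
      have hH0 : (0 : ℝ) ≤ H := Nat.cast_nonneg _
      nlinarith
    have h5 : ⌊(H : ℝ) * nrm α⌋₊ ≤ H := by
      have := Nat.floor_le_floor h4
      rwa [Nat.floor_natCast] at this
    omega
  have h4 : ∑ j ∈ range (H + 1), w j ≤ (N2 : ℝ) ^ 2 + (H : ℝ) ^ 2 / 2 := by
    rw [Finset.sum_range_succ']
    have h5 : w 0 = (N2 : ℝ) ^ 2 := by simp [hw]
    have h6 : ∑ j ∈ range H, w (j + 1) ≤ (H : ℝ) ^ 2 / 4 * 2 := by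
      have h7 : ∀ j ∈ range H, w (j + 1) = (H : ℝ) ^ 2 / 4 * (((j + 1 : ℕ) : ℝ) ^ 2)⁻¹ := by
        intro j _
        simp only [hw]
        rw [if_neg (Nat.succ_ne_zero j)]
      rw [Finset.sum_congr rfl h7, ← Finset.mul_sum]
      apply mul_le_mul_of_nonneg_left _ (by positivity)
      have h8 := sum_Ioo_inv_sq_le (α := ℝ) 0 (H + 1)
      have h9 : ∑ j ∈ range H, (((j + 1 : ℕ) : ℝ) ^ 2)⁻¹ = ∑ i ∈ Ioo 0 (H + 1), ((i : ℝ) ^ 2)⁻¹ := by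
        rw [Finset.range_eq_Ico, Finset.sum_Ico_add' (fun i : ℕ => ((i : ℝ) ^ 2)⁻¹) 0 H 1]
        apply Finset.sum_congr _ (fun _ _ => rfl)
        ext i
        simp only [Finset.mem_Ico, Finset.mem_Ioo]
        omega
      rw [h9]
      refine h8.trans (le_of_eq ?_)
      norm_num
    rw [h5]
    linarith
  calc ∑ α ∈ Θ, ‖∑ n ∈ Icc 1 N2, ex (n * α)‖ ^ 2 ≤ ∑ α ∈ Θ, w ⌊(H : ℝ) * nrm α⌋₊ := h1
    _ = ∑ j ∈ Θ.image (fun α => ⌊(H : ℝ) * nrm α⌋₊), w j := h2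
    _ ≤ ∑ j ∈ range (H + 1), w j :=
        Finset.sum_le_sum_of_subset_of_nonneg h3 fun j _ _ => hw0 j
    _ ≤ _ := h4

private lemma ss_inj (H : ℕ) (hH : 1 ≤ H) (Θ : Finset ℝ) (hΘ : Sep H Θ) (θ0 : ℝ) {θ θ' : ℝ}
    (h : θ ∈ Θ) (h' : θ' ∈ Θ)
    (hs : 0 ≤ ((θ0 - θ) - round (θ0 - θ)) * ((θ0 - θ') - round (θ0 - θ')))
    (hf : ⌊(H : ℝ) * nrm (θ0 - θ)⌋₊ = ⌊(H : ℝ) * nrm (θ0 - θ')⌋₊) : θ = θ' := by
  by_contra hne
  have h1 := hΘ θ h θ' h' hne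
  have hH0 : (0 : ℝ) < H := by exact_mod_cast hH
  set u := (θ0 - θ) - round (θ0 - θ) with hu
  set u' := (θ0 - θ') - round (θ0 - θ') with hu'
  have e1 : nrm (θ0 - θ) = |u| := rfl
  have e2 : nrm (θ0 - θ') = |u'| := rfl
  rw [e1, e2] at hf
  have h2 : abs ((H : ℝ) * abs u - (H : ℝ) * abs u') < 1 := by
    have f1 := Nat.floor_le (a := (H : ℝ) * |u|) (by positivity)
    have f2 := Nat.lt_floor_add_one ((H : ℝ) * |u|)
    have f3 := Nat.floor_le (a := (H : ℝ) * |u'|) (by positivity)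
    have f4 := Nat.lt_floor_add_one ((H : ℝ) * |u'|)
    rw [hf] at f1 f2
    rw [abs_lt]
    constructor <;> linarith only [f1, f4, f2, f3]
  have h3 : abs (abs u - abs u') = abs (u' - u) := by
    rcases abs_cases u with ⟨a1, a2⟩ | ⟨a1, a2⟩ <;> rcases abs_cases u' with ⟨b1, b2⟩ | ⟨b1, b2⟩
    · rw [a1, b1, abs_sub_comm]
    · have : u = 0 := by nlinarith only [hs, a2, b2]
      rw [a1, b1, this]
      simp
    · have : u' = 0 := by nlinarith only [hs, a2, b2]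
      rw [a1, b1, this]
      simp
    · rw [a1, b1]
      congr 1
      ring
  have h4 : (H : ℝ) * |u' - u| < 1 := by
    rw [← mul_sub, abs_mul, abs_of_pos hH0, h3] at h2
    exact h2
  have h5 : nrm (θ - θ') ≤ |u' - u| := by
    have h6 := nrm_sq_le_int (θ - θ') (round (θ0 - θ') - round (θ0 - θ))
    have h7 : θ - θ' - ((round (θ0 - θ') - round (θ0 - θ) : ℤ) : ℝ) = u' - u := by
      rw [hu, hu']
      push_cast
      ring
    rwa [h7] at h6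
  have h8 : 1 ≤ (H : ℝ) * |u' - u| := by
    rw [div_le_iff₀ hH0] at h1
    nlinarith only [h1, h4, h5]
  linarith only [h4, h8]

private lemma ss_col (N2 H : ℕ) (hH : 1 ≤ H) (Θ : Finset ℝ) (hΘ : Sep H Θ) (θ0 : ℝ) :
    ∑ θ ∈ Θ, ‖∑ n ∈ Icc 1 N2, ex (n * (θ0 - θ))‖ ^ 2 ≤ 2 * (N2 : ℝ) ^ 2 + (H : ℝ) ^ 2 := by
  classical
  set P : ℝ → Prop := fun θ => 0 ≤ (θ0 - θ) - round (θ0 - θ) with hP
  have key : ∀ Θ' : Finset ℝ, Θ' ⊆ Θ → (∀ θ ∈ Θ', ∀ θ' ∈ Θ',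
      0 ≤ ((θ0 - θ) - round (θ0 - θ)) * ((θ0 - θ') - round (θ0 - θ'))) →
      ∑ θ ∈ Θ', ‖∑ n ∈ Icc 1 N2, ex (n * (θ0 - θ))‖ ^ 2 ≤ (N2 : ℝ) ^ 2 + (H : ℝ) ^ 2 / 2 := by
    intro Θ' hsub hsg
    have h1 := ss_half N2 H hH (Θ'.image (fun θ => θ0 - θ)) (by
      intro a ha b hb hab
      rw [Finset.mem_image] at ha hb
      obtain ⟨θ, hθ, rfl⟩ := ha
      obtain ⟨θ', hθ', rfl⟩ := hb
      rw [ss_inj H hH Θ hΘ θ0 (hsub hθ) (hsub hθ') (hsg θ hθ θ' hθ') hab])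
    rw [Finset.sum_image (by
      intro a _ b _ hab
      simp only at hab
      linarith)] at h1
    exact h1
  rw [← Finset.sum_filter_add_sum_filter_not Θ P]
  have h1 := key (Θ.filter P) (Finset.filter_subset _ _) (by
    intro θ hθ θ' hθ'
    exact mul_nonneg (Finset.mem_filter.1 hθ).2 (Finset.mem_filter.1 hθ').2)
  have h2 := key (Θ.filter (fun θ => ¬ P θ)) (Finset.filter_subset _ _) (by
    intro θ hθ θ' hθ'
    have a1 := (Finset.mem_filter.1 hθ).2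
    have a2 := (Finset.mem_filter.1 hθ').2
    simp only [hP, not_le] at a1 a2
    exact (mul_pos_of_neg_of_neg a1 a2).le)
  linarith

private lemma ss_dual (M H : ℕ) (Θ : Finset ℝ) (hH : 1 ≤ H) (hΘ : Sep H Θ) (c : ℝ → ℂ) :
    ∑ n ∈ range (M + 1), ‖∑ θ ∈ Θ, c θ * ex (n * θ)‖ ^ 2 ≤
      9 * ((M : ℝ) + 1 + H) * ∑ θ ∈ Θ, ‖c θ‖ ^ 2 := by
  set N : ℕ := M + 1 + H with hN
  have hN0 : (0 : ℝ) < N := by
    have : 0 < N := by omega
    exact_mod_cast this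
  set D : ℝ → ℂ := fun α => ∑ j ∈ Icc 1 (2 * N), ex (j * α) with hD
  set g : ℕ → ℕ → ℂ := fun j k => ∑ θ ∈ Θ, c θ * (ex (j * θ) * ex (-(k * θ))) with hg
  -- the double sum
  have h1 : ((∑ k ∈ Icc 1 (2 * N), ∑ j ∈ Icc 1 (2 * N), ‖g j k‖ ^ 2 : ℝ) : ℂ) =
      ∑ θ ∈ Θ, ∑ θ' ∈ Θ, c θ * (starRingEnd ℂ) (c θ') *
        (D (θ - θ') * (starRingEnd ℂ) (D (θ - θ'))) := by
    push_cast
    have e1 : ∀ k ∈ Icc 1 (2 * N), ∀ j ∈ Icc 1 (2 * N), ((‖g j k‖ : ℝ) : ℂ) ^ 2 =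
        ∑ θ ∈ Θ, ∑ θ' ∈ Θ, c θ * (starRingEnd ℂ) (c θ') *
          (ex (j * (θ - θ')) * (starRingEnd ℂ) (ex (k * (θ - θ')))) := by
      intro k _ j _
      rw [← Complex.mul_conj', hg]
      simp only
      rw [map_sum, Finset.sum_mul_sum]
      refine Finset.sum_congr rfl fun θ _ => Finset.sum_congr rfl fun θ' _ => ?_
      rw [map_mul, map_mul, ← ex_neg, ← ex_neg, ← ex_neg]
      have a1 : ex ((j : ℝ) * (θ - θ')) = ex (j * θ) * ex (-(j * θ')) := by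
        rw [← ex_add]; congr 1; ring
      have a2 : ex (-((k : ℝ) * (θ - θ'))) = ex (-(k * θ)) * ex (- -(k * θ')) := by
        rw [← ex_add]; congr 1; ring
      rw [a1, a2]
      ring
    rw [Finset.sum_congr rfl fun k hk => Finset.sum_congr rfl fun j hj => e1 k hk j hj]
    have e2 : ∀ θ ∈ Θ, ∀ θ' ∈ Θ, c θ * (starRingEnd ℂ) (c θ') *
        (D (θ - θ') * (starRingEnd ℂ) (D (θ - θ'))) =
        ∑ k ∈ Icc 1 (2 * N), ∑ j ∈ Icc 1 (2 * N), c θ * (starRingEnd ℂ) (c θ') *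
          (ex (j * (θ - θ')) * (starRingEnd ℂ) (ex (k * (θ - θ')))) := by
      intro θ _ θ' _
      rw [hD]
      simp only
      rw [map_sum, Finset.sum_mul_sum, Finset.sum_comm, Finset.mul_sum]
      refine Finset.sum_congr rfl fun k _ => ?_
      rw [Finset.mul_sum]
    rw [Finset.sum_congr rfl fun θ hθ => Finset.sum_congr rfl fun θ' hθ' => e2 θ hθ θ' hθ']
    calc ∑ k ∈ Icc 1 (2 * N), ∑ j ∈ Icc 1 (2 * N), ∑ θ ∈ Θ, ∑ θ' ∈ Θ,
          c θ * (starRingEnd ℂ) (c θ') *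
            (ex (j * (θ - θ')) * (starRingEnd ℂ) (ex (k * (θ - θ'))))
        = ∑ k ∈ Icc 1 (2 * N), ∑ θ ∈ Θ, ∑ j ∈ Icc 1 (2 * N), ∑ θ' ∈ Θ,
          c θ * (starRingEnd ℂ) (c θ') *
            (ex (j * (θ - θ')) * (starRingEnd ℂ) (ex (k * (θ - θ')))) :=
          Finset.sum_congr rfl fun k _ => Finset.sum_comm
      _ = ∑ θ ∈ Θ, ∑ k ∈ Icc 1 (2 * N), ∑ j ∈ Icc 1 (2 * N), ∑ θ' ∈ Θ,
          c θ * (starRingEnd ℂ) (c θ') *
            (ex (j * (θ - θ')) * (starRingEnd ℂ) (ex (k * (θ - θ')))) := Finset.sum_comm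
      _ = ∑ θ ∈ Θ, ∑ k ∈ Icc 1 (2 * N), ∑ θ' ∈ Θ, ∑ j ∈ Icc 1 (2 * N),
          c θ * (starRingEnd ℂ) (c θ') *
            (ex (j * (θ - θ')) * (starRingEnd ℂ) (ex (k * (θ - θ')))) :=
          Finset.sum_congr rfl fun θ _ => Finset.sum_congr rfl fun k _ => Finset.sum_comm
      _ = _ := Finset.sum_congr rfl fun θ _ => Finset.sum_comm
  have h2 : ∑ k ∈ Icc 1 (2 * N), ∑ j ∈ Icc 1 (2 * N), ‖g j k‖ ^ 2 ≤
      9 * (N : ℝ) ^ 2 * ∑ θ ∈ Θ, ‖c θ‖ ^ 2 := by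
    have hnn : 0 ≤ ∑ k ∈ Icc 1 (2 * N), ∑ j ∈ Icc 1 (2 * N), ‖g j k‖ ^ 2 :=
      Finset.sum_nonneg fun _ _ => Finset.sum_nonneg fun _ _ => by positivity
    have e1 : ∑ k ∈ Icc 1 (2 * N), ∑ j ∈ Icc 1 (2 * N), ‖g j k‖ ^ 2 =
        ‖((∑ k ∈ Icc 1 (2 * N), ∑ j ∈ Icc 1 (2 * N), ‖g j k‖ ^ 2 : ℝ) : ℂ)‖ := by
      rw [Complex.norm_real, Real.norm_of_nonneg hnn]
    have e2 : ∑ k ∈ Icc 1 (2 * N), ∑ j ∈ Icc 1 (2 * N), ‖g j k‖ ^ 2 ≤
        ∑ θ ∈ Θ, ∑ θ' ∈ Θ, ‖c θ‖ * ‖c θ'‖ * ‖D (θ - θ')‖ ^ 2 := by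
      rw [e1, h1]
      refine (norm_sum_le _ _).trans (Finset.sum_le_sum fun θ _ => ?_)
      refine (norm_sum_le _ _).trans (Finset.sum_le_sum fun θ' _ => ?_)
      rw [norm_mul, norm_mul, norm_mul, Complex.norm_conj, Complex.norm_conj]
      exact le_of_eq (by ring)
    have hDsymm : ∀ α, ‖D (-α)‖ = ‖D α‖ := by
      intro α
      have : D (-α) = (starRingEnd ℂ) (D α) := by
        rw [hD]
        simp only
        rw [map_sum]
        refine Finset.sum_congr rfl fun j _ => ?_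
        rw [← ex_neg]
        congr 1
        ring
      rw [this, Complex.norm_conj]
    have hcol : ∀ θ0, ∑ θ ∈ Θ, ‖D (θ0 - θ)‖ ^ 2 ≤ 9 * (N : ℝ) ^ 2 := by
      intro θ0
      have h3 := ss_col (2 * N) H hH Θ hΘ θ0
      have h4 : (H : ℝ) ≤ N := by
        have : H ≤ N := by omega
        exact_mod_cast this
      have h5 : (0 : ℝ) ≤ H := Nat.cast_nonneg _
      refine h3.trans ?_
      push_cast
      nlinarith only [h4]
    have e3 : ∀ θ ∈ Θ, ∀ θ' ∈ Θ, ‖c θ‖ * ‖c θ'‖ * ‖D (θ - θ')‖ ^ 2 ≤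
        ‖c θ‖ ^ 2 / 2 * ‖D (θ - θ')‖ ^ 2 + ‖c θ'‖ ^ 2 / 2 * ‖D (θ' - θ)‖ ^ 2 := by
      intro θ _ θ' _
      have h3 : ‖D (θ' - θ)‖ = ‖D (θ - θ')‖ := by
        rw [← hDsymm (θ - θ')]
        congr 2
        ring
      rw [h3, ← add_mul]
      apply mul_le_mul_of_nonneg_right _ (by positivity)
      nlinarith only [sq_nonneg (‖c θ‖ - ‖c θ'‖)]
    have e4 : ∑ θ ∈ Θ, ∑ θ' ∈ Θ, ‖c θ‖ * ‖c θ'‖ * ‖D (θ - θ')‖ ^ 2 ≤
        ∑ θ ∈ Θ, ‖c θ‖ ^ 2 * ∑ θ' ∈ Θ, ‖D (θ - θ')‖ ^ 2 := by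
      refine (Finset.sum_le_sum fun θ hθ => Finset.sum_le_sum fun θ' hθ' => e3 θ hθ θ' hθ').trans ?_
      simp only [Finset.sum_add_distrib]
      have e5 : ∑ θ ∈ Θ, ∑ θ' ∈ Θ, ‖c θ'‖ ^ 2 / 2 * ‖D (θ' - θ)‖ ^ 2 =
          ∑ θ ∈ Θ, ∑ θ' ∈ Θ, ‖c θ‖ ^ 2 / 2 * ‖D (θ - θ')‖ ^ 2 := Finset.sum_comm
      rw [e5, ← Finset.sum_add_distrib]
      refine le_of_eq (Finset.sum_congr rfl fun θ _ => ?_)
      rw [← Finset.mul_sum]
      ring
    refine e2.trans (e4.trans ?_)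
    rw [Finset.mul_sum]
    refine Finset.sum_le_sum fun θ _ => ?_
    rw [mul_comm (9 * (N : ℝ) ^ 2)]
    exact mul_le_mul_of_nonneg_left (hcol θ) (by positivity)
  -- lower bound for the double sum
  have h3 : (N : ℝ) * ∑ n ∈ range (M + 1), ‖∑ θ ∈ Θ, c θ * ex (n * θ)‖ ^ 2 ≤
      ∑ k ∈ Icc 1 (2 * N), ∑ j ∈ Icc 1 (2 * N), ‖g j k‖ ^ 2 := by
    have e1 : ∀ k ∈ Icc 1 N, ∑ n ∈ range (M + 1), ‖∑ θ ∈ Θ, c θ * ex (n * θ)‖ ^ 2 ≤
        ∑ j ∈ Icc 1 (2 * N), ‖g j k‖ ^ 2 := by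
      intro k hk
      rw [Finset.mem_Icc] at hk
      have e2 : ∀ n ∈ range (M + 1), ‖∑ θ ∈ Θ, c θ * ex (n * θ)‖ ^ 2 = ‖g (n + k) k‖ ^ 2 := by
        intro n _
        congr 2
        rw [hg]
        simp only
        refine Finset.sum_congr rfl fun θ _ => ?_
        rw [← ex_add]
        congr 2
        push_cast
        ring
      rw [Finset.sum_congr rfl e2,
        ← Finset.sum_image (s := range (M + 1)) (g := fun n => n + k)
          (f := fun j => ‖g j k‖ ^ 2) (by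
            intro a _ b _ hab
            simp only at hab
            omega)]
      apply Finset.sum_le_sum_of_subset_of_nonneg
      · intro j hj
        rw [Finset.mem_image] at hj
        obtain ⟨n, hn, rfl⟩ := hj
        rw [Finset.mem_range] at hn
        rw [Finset.mem_Icc]
        omega
      · intro _ _ _
        positivity
    have e3 : ∑ k ∈ Icc 1 N, ∑ n ∈ range (M + 1), ‖∑ θ ∈ Θ, c θ * ex (n * θ)‖ ^ 2 =
        (N : ℝ) * ∑ n ∈ range (M + 1), ‖∑ θ ∈ Θ, c θ * ex (n * θ)‖ ^ 2 := by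
      rw [Finset.sum_const, Nat.card_Icc, Nat.add_sub_cancel, nsmul_eq_mul]
    rw [← e3]
    refine (Finset.sum_le_sum e1).trans ?_
    apply Finset.sum_le_sum_of_subset_of_nonneg
    · intro k hk
      rw [Finset.mem_Icc] at hk ⊢
      omega
    · intro _ _ _
      exact Finset.sum_nonneg fun _ _ => by positivity
  have h4 : (N : ℝ) * ∑ n ∈ range (M + 1), ‖∑ θ ∈ Θ, c θ * ex (n * θ)‖ ^ 2 ≤
      N * (9 * (N : ℝ) * ∑ θ ∈ Θ, ‖c θ‖ ^ 2) := by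
    refine (h3.trans h2).trans (le_of_eq ?_)
    ring
  have h5 := le_of_mul_le_mul_left h4 hN0
  refine h5.trans (le_of_eq ?_)
  rw [hN]
  push_cast
  ring

private lemma ss_ex_sum {ι : Type*} (s : Finset ι) (f : ι → ℝ) :
    ex (∑ i ∈ s, f i) = ∏ i ∈ s, ex (f i) := by
  classical
  induction s using Finset.induction_on with
  | empty => simp
  | insert a s ha ih => rw [Finset.sum_insert ha, Finset.prod_insert ha, ex_add, ih]

private lemma ss_WW_pow (T : Finset ℕ) (α : ℝ) (s : ℕ) :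
    WW T α ^ s = ∑ u ∈ Fintype.piFinset (fun _ : Fin s => T), ex (((∑ i, u i : ℕ) : ℝ) * α) := by
  have h1 : WW T α ^ s = ∏ _i : Fin s, ∑ t ∈ T, ex (t * α) := by
    rw [Finset.prod_const, Finset.card_univ, Fintype.card_fin]
    rfl
  rw [h1, Finset.prod_univ_sum]
  refine Finset.sum_congr rfl fun u _ => ?_
  rw [← ss_ex_sum]
  congr 1
  push_cast
  rw [Finset.sum_mul]

theorem large_sieve_sep : ∃ C : ℝ, 1 ≤ C ∧ ∀ (M H : ℕ) (Θ : Finset ℝ) (a : ℕ → ℂ), 1 ≤ H → Sep H Θ →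
    ∑ θ ∈ Θ, ‖∑ n ∈ range (M + 1), a n * ex (n * θ)‖ ^ 2 ≤ C * (M + 1 + H) * ∑ n ∈ range (M + 1), ‖a n‖ ^ 2 := by
  refine ⟨9, by norm_num, fun M H Θ a hH hΘ => ?_⟩
  have h := Pool.Agent.Lib.BV.ls_duality Θ (range (M + 1)) (fun _ => 1) (fun _ _ => zero_le_one)
    (fun θ n => ex (n * θ)) (9 * ((M : ℝ) + 1 + H)) (by positivity) (by
      intro c
      simp only [one_mul]
      exact ss_dual M H Θ hH hΘ c) a
  simp only [Complex.ofReal_one, one_mul] at h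
  exact h

theorem sps_of_energy (s C : ℕ) (hs : 1 ≤ s) : ∀ᶠ x : ℕ in atTop, ∀ (H : ℕ) (T : Finset ℕ), 1 ≤ H → T.Nonempty →
    T ⊆ range (H + 1) → (H : ℝ) * energy s T ≤ (T.card : ℝ) ^ (2 * s) * Real.log x ^ C →
    ∀ b0 : ℕ, SpS (fun b => 2 * s * b + C + 1) b0 x H T := by
  obtain ⟨C0, hC0, hls⟩ := large_sieve_sep
  have hlog : Tendsto (fun x : ℕ => Real.log x) atTop atTop :=
    Real.tendsto_log_atTop.comp tendsto_natCast_atTop_atTop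
  filter_upwards [hlog.eventually_ge_atTop (C0 * (s + 2))] with x hx H T hH hT0 hT hE b0
  refine ⟨hT, fun b _ Θ hΘ hbig => ?_⟩
  set L : ℝ := Real.log x with hL
  have hs0 : (0 : ℝ) ≤ s := Nat.cast_nonneg s
  have hL1 : 1 ≤ L := by nlinarith only [hC0, hx]
  have hL0 : 0 < L := by linarith only [hL1]
  have hH1 : (1 : ℝ) ≤ H := by exact_mod_cast hH
  have hT1 : (0 : ℝ) < (T.card : ℝ) ^ (2 * s) := by
    have := Finset.card_pos.2 hT0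
    positivity
  set U := Fintype.piFinset (fun _ : Fin s => T) with hU
  set sg : (Fin s → ℕ) → ℕ := fun u => ∑ i, u i with hsg
  have hsg_le : ∀ u ∈ U, sg u ≤ s * H := by
    intro u hu
    rw [hU, Fintype.mem_piFinset] at hu
    calc sg u = ∑ i, u i := rfl
      _ ≤ ∑ _i : Fin s, H := Finset.sum_le_sum fun i _ => by
          have := Finset.mem_range.mp (hT (hu i))
          omega
      _ = s * H := by simp
  set r : ℕ → ℝ := fun n => ((U.filter (fun u => sg u = n)).card : ℝ) with hr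
  have hW : ∀ θ : ℝ, WW T θ ^ s = ∑ n ∈ range (s * H + 1), (r n : ℂ) * ex (n * θ) := by
    intro θ
    rw [ss_WW_pow, ← Finset.sum_fiberwise_of_maps_to (s := U) (t := range (s * H + 1))
      (g := fun u => sg u) (fun u hu => by
        rw [Finset.mem_range]
        have := hsg_le u hu
        omega)]
    refine Finset.sum_congr rfl fun m _ => ?_
    have e2 : ∀ u ∈ U.filter (fun u => sg u = m),
        ex (((∑ i, u i : ℕ) : ℝ) * θ) = ex ((m:ℝ) * θ) := by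
      intro u hu
      have hu2 := (Finset.mem_filter.mp hu).2
      rw [← hu2]
    rw [Finset.sum_congr rfl e2, Finset.sum_const, nsmul_eq_mul]
    simp only [hr, Complex.ofReal_natCast]
  have h5 : ∑ n ∈ range (s * H + 1), ‖(r n : ℂ)‖ ^ 2 = (energy s T : ℝ) := by
    have e0 : ∑ n ∈ range (s * H + 1), ‖(r n : ℂ)‖ ^ 2 = ∑ n ∈ range (s * H + 1), r n ^ 2 := by
      refine Finset.sum_congr rfl fun n _ => ?_
      rw [Complex.norm_real, Real.norm_eq_abs, sq_abs]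
    rw [e0]
    unfold energy
    rw [Finset.card_eq_sum_card_fiberwise (t := range (s * H + 1)) (f := fun u => sg u.1)]
    · rw [Nat.cast_sum]
      refine Finset.sum_congr rfl fun n _ => ?_
      have e1 : (((U ×ˢ U).filter (fun u => ∑ i, u.1 i = ∑ i, u.2 i)).filter
          (fun u => sg u.1 = n)) =
          (U.filter (fun u => sg u = n)) ×ˢ (U.filter (fun u => sg u = n)) := by
        ext u
        simp only [Finset.mem_filter, Finset.mem_product, hsg]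
        constructor
        · rintro ⟨⟨⟨a1, a2⟩, a3⟩, a4⟩
          exact ⟨⟨a1, a4⟩, a2, by rw [← a3]; exact a4⟩
        · rintro ⟨⟨a1, a4⟩, a2, a5⟩
          exact ⟨⟨⟨a1, a2⟩, by rw [a4, a5]⟩, a4⟩
      rw [e1, Finset.card_product, hr]
      push_cast
      ring
    · intro u hu
      rw [Finset.mem_coe, Finset.mem_filter, Finset.mem_product] at hu
      rw [Finset.mem_coe, Finset.mem_range]
      have := hsg_le u.1 hu.1.1
      show sg u.1 < s * H + 1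
      omega
  have hsieve := hls (s * H) H Θ (fun n => (r n : ℂ)) hH hΘ
  rw [h5] at hsieve
  have hen0 : (0 : ℝ) ≤ energy s T := by (clear * -; positivity)
  have h1 : (Θ.card : ℝ) * (T.card : ℝ) ^ (2 * s) ≤
      (L ^ b) ^ (2 * s) * ∑ θ ∈ Θ, ‖WW T θ ^ s‖ ^ 2 := by
    calc (Θ.card : ℝ) * (T.card : ℝ) ^ (2 * s)
        = ∑ θ ∈ Θ, (T.card : ℝ) ^ (2 * s) := by
          rw [Finset.sum_const, nsmul_eq_mul]
      _ ≤ ∑ θ ∈ Θ, (L ^ b) ^ (2 * s) * ‖WW T θ ^ s‖ ^ 2 := by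
          refine Finset.sum_le_sum fun θ hθ => ?_
          have h3 := pow_le_pow_left₀ (Nat.cast_nonneg _) (hbig θ hθ) (2 * s)
          refine h3.trans (le_of_eq ?_)
          rw [norm_pow, mul_pow, ← pow_mul ‖WW T θ‖ s 2, mul_comm s 2]
      _ = _ := by rw [Finset.mul_sum]
  have h2 : ∑ θ ∈ Θ, ‖WW T θ ^ s‖ ^ 2 ≤ C0 * ((s * H : ℕ) + 1 + H) * energy s T := by
    have e1 : ∀ θ ∈ Θ, ‖WW T θ ^ s‖ ^ 2 =
        ‖∑ n ∈ range (s * H + 1), (r n : ℂ) * ex (n * θ)‖ ^ 2 := by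
      intro θ _
      rw [hW θ]
    rw [Finset.sum_congr rfl e1]
    exact hsieve
  have h3 : C0 * (((s * H : ℕ) : ℝ) + 1 + H) * energy s T ≤ L * (H * energy s T) := by
    have e1 : C0 * (((s * H : ℕ) : ℝ) + 1 + H) ≤ L * H := by
      have e2 : ((s * H : ℕ) : ℝ) + 1 + H ≤ (s + 2) * H := by
        push_cast
        nlinarith only [hH1]
      calc C0 * (((s * H : ℕ) : ℝ) + 1 + H) ≤ C0 * ((s + 2) * H) :=
            mul_le_mul_of_nonneg_left e2 (by linarith only [hC0])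
        _ = C0 * (s + 2) * H := by ring
        _ ≤ L * H := mul_le_mul_of_nonneg_right hx (by linarith only [hH1])
    calc C0 * (((s * H : ℕ) : ℝ) + 1 + H) * energy s T ≤ L * H * energy s T :=
          mul_le_mul_of_nonneg_right e1 hen0
      _ = _ := by ring
  have h6 : (Θ.card : ℝ) * (T.card : ℝ) ^ (2 * s) ≤
      L ^ (2 * s * b + C + 1) * (T.card : ℝ) ^ (2 * s) := by
    calc (Θ.card : ℝ) * (T.card : ℝ) ^ (2 * s)
        ≤ (L ^ b) ^ (2 * s) * ∑ θ ∈ Θ, ‖WW T θ ^ s‖ ^ 2 := h1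
      _ ≤ (L ^ b) ^ (2 * s) * (L * (H * energy s T)) :=
          mul_le_mul_of_nonneg_left (h2.trans h3) (by (clear * - hL1; positivity))
      _ ≤ (L ^ b) ^ (2 * s) * (L * ((T.card : ℝ) ^ (2 * s) * L ^ C)) := by gcongr
      _ = L ^ (2 * s * b + C + 1) * (T.card : ℝ) ^ (2 * s) := by
          rw [← pow_mul, pow_succ, pow_add, mul_comm b (2 * s)]; ring
  exact le_of_mul_le_mul_right h6 hT1

end Pool.Agent.VK
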