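import Pool.Agent.Lib.VK.KL

/-!
# Type I sums on the imaginary axis

PROOF SKETCH. `sum_(k) (sum_(d n = k) c d g n) χ(k) k^(-iv) = sum_(d ≤ D) c d χ(d) d^(-iv) sum_(X/d < n ≤ 3X/d) g n χ(n) n^(-iv)` with `g = 1` or `g = log`.
For `g = 1`: `kl_sum` for `f = χ`, `N = X / d` (natural division) and then `2N`, (`3X/d ≤ 4N` if `N ≥ 3`..., split the interval in at most three dyadic pieces
starting at or above `X/d`): each is at most `C (X/d)/|v|`; condition `q |v| ≤ X/d` from `4 q |v| D ≤ X`. For `g = log` by partial summation: factor `2 log (3X)`.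
Sum over `d`: `sum_(d ≤ D) |c d|/d ≤ log (X+3) (1 + log D)`.
-/

set_option autoImplicit false

open Finset

namespace Pool.Agent.VK

namespace TypeOneAux

theorem nit_mul {m n : ℕ} (hm : 1 ≤ m) (hn : 1 ≤ n) (v : ℝ) : nit (m * n) v = nit m v * nit n v := by
  have hm0 : (0 : ℝ) < m := by exact_mod_cast hm
  have hn0 : (0 : ℝ) < n := by exact_mod_cast hn
  unfold nit
  push_cast
  have := Complex.mul_cpow_ofReal_nonneg hm0.le hn0.le (-((v : ℂ) * Complex.I))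
  push_cast at this
  exact this

/-- the rearrangement -/
theorem rearrange {q : ℕ} (χ : DirichletCharacter ℂ q) (c g : ℕ → ℝ) (v : ℝ) (X D : ℕ)
    (hD : D ≤ X) (hc : ∀ d, D < d → c d = 0) :
    ∑ k ∈ Ioc X (3 * X), ((∑ p ∈ k.divisorsAntidiagonal, c p.1 * g p.2 : ℝ) : ℂ) *
        (χ (k : ZMod q) * nit k v) =
      ∑ d ∈ Icc 1 D, (c d : ℂ) * (χ (d : ZMod q) * nit d v) *
        ∑ n ∈ Ioc (X / d) (3 * X / d), (g n : ℂ) * (χ (n : ZMod q) * nit n v) := by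
  have h1 : ∀ k ∈ Ioc X (3 * X), ((∑ p ∈ k.divisorsAntidiagonal, c p.1 * g p.2 : ℝ) : ℂ) *
      (χ (k : ZMod q) * nit k v) = ∑ d ∈ Icc 1 D, if d ∣ k then
        (c d : ℂ) * (g (k / d) : ℂ) * (χ (k : ZMod q) * nit k v) else 0 := by
    intro k hk
    rw [mem_Ioc] at hk
    have hk0 : k ≠ 0 := by omega
    rw [Nat.sum_divisorsAntidiagonal (f := fun d e => c d * g e), Complex.ofReal_sum, sum_mul,
      ← sum_filter]
    have h2 : ∑ d ∈ k.divisors, ((c d * g (k / d) : ℝ) : ℂ) * (χ (k : ZMod q) * nit k v) =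
        ∑ d ∈ k.divisors.filter (fun d => d ≤ D), ((c d * g (k / d) : ℝ) : ℂ) *
          (χ (k : ZMod q) * nit k v) := by
      symm
      refine sum_filter_of_ne fun d _ hne => ?_
      by_contra h
      rw [hc d (by omega)] at hne
      simp at hne
    rw [h2]
    refine sum_congr ?_ fun d _ => by push_cast; ring
    ext d
    rw [mem_filter, mem_filter, Nat.mem_divisors, mem_Icc]
    constructor
    · rintro ⟨⟨h3, _⟩, h4⟩
      exact ⟨⟨Nat.pos_of_dvd_of_pos h3 (by omega), h4⟩, h3⟩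
    · rintro ⟨⟨_, h4⟩, h3⟩
      exact ⟨⟨h3, hk0⟩, h4⟩
  rw [sum_congr rfl h1, sum_comm]
  refine sum_congr rfl fun d hd => ?_
  rw [mem_Icc] at hd
  have hd1 : 1 ≤ d := hd.1
  rw [← sum_filter, mul_sum]
  symm
  refine sum_nbij (fun n => d * n) ?_ ?_ ?_ ?_
  · intro n hn
    rw [mem_Ioc] at hn
    rw [mem_filter, mem_Ioc]
    refine ⟨⟨?_, ?_⟩, dvd_mul_right _ _⟩
    · have := (Nat.div_lt_iff_lt_mul hd1).1 hn.1
      rwa [mul_comm]
    · have := (Nat.le_div_iff_mul_le hd1).1 hn.2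
      rwa [mul_comm]
  · intro a _ b _ hab
    exact Nat.eq_of_mul_eq_mul_left hd1 hab
  · intro k hk
    rw [mem_coe, mem_filter, mem_Ioc] at hk
    obtain ⟨⟨h3, h4⟩, n, rfl⟩ := hk
    refine ⟨n, ?_, rfl⟩
    rw [mem_coe, mem_Ioc]
    constructor
    · rw [Nat.div_lt_iff_lt_mul hd1, mul_comm]
      exact h3
    · rw [Nat.le_div_iff_mul_le hd1, mul_comm]
      exact h4
  · intro n hn
    rw [mem_Ioc] at hn
    have hn1 : 1 ≤ n := lt_of_le_of_lt (Nat.zero_le _) hn.1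
    have e : d * n / d = n := Nat.mul_div_cancel_left _ hd1
    rw [e, nit_mul hd1 hn1]
    push_cast
    rw [map_mul]
    ring

/-- three dyadic pieces -/
theorem pieces {C : ℝ} (hC1 : 1 ≤ C) (hC : ∀ (q N N' : ℕ) (f : ZMod q → ℂ) (v : ℝ), 1 ≤ q →
    1 ≤ N → N' ≤ 2 * N → (∀ a, ‖f a‖ ≤ 1) → 1 ≤ |v| → q * |v| ≤ N →
    ‖∑ n ∈ Ioc N N', f (n : ZMod q) * nit n v‖ ≤ C * N / |v|) {q M M' : ℕ} {f : ZMod q → ℂ}
    {v : ℝ} (hq : 1 ≤ q) (hM : 1 ≤ M) (hM' : M' ≤ 8 * M) (hf : ∀ a, ‖f a‖ ≤ 1) (hv : 1 ≤ |v|)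
    (hqv : q * |v| ≤ M) :
    ‖∑ n ∈ Ioc M M', f (n : ZMod q) * nit n v‖ ≤ 7 * C * M / |v| := by
  have hv0 : 0 < |v| := by linarith
  have hM0 : (0 : ℝ) < M := by exact_mod_cast hM
  rcases Nat.lt_or_ge M' M with h | h
  · rw [Ioc_eq_empty_of_le h.le, sum_empty, norm_zero]
    positivity
  obtain ⟨a, ha⟩ : ∃ a, a = min M' (2 * M) := ⟨_, rfl⟩
  obtain ⟨b, hb⟩ : ∃ b, b = min M' (4 * M) := ⟨_, rfl⟩
  have h1 : M ≤ a := by omega
  have h2 : a ≤ b := by omega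
  have h3 : b ≤ M' := by omega
  have e : ∑ n ∈ Ioc M M', f (n : ZMod q) * nit n v =
      ∑ n ∈ Ioc M a, f (n : ZMod q) * nit n v + ∑ n ∈ Ioc a b, f (n : ZMod q) * nit n v +
      ∑ n ∈ Ioc b M', f (n : ZMod q) * nit n v := by
    rw [sum_Ioc_consecutive _ h1 h2, sum_Ioc_consecutive _ (h1.trans h2) h3]
  have ha' : (M : ℝ) ≤ a := by exact_mod_cast h1
  have hb' : (a : ℝ) ≤ b := by exact_mod_cast h2
  have ha2 : (a : ℝ) ≤ 2 * M := by
    have : a ≤ 2 * M := by omega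
    exact_mod_cast this
  have hb2 : (b : ℝ) ≤ 4 * M := by
    have : b ≤ 4 * M := by omega
    exact_mod_cast this
  have k1 := hC q M a f v hq hM (by omega) hf hv hqv
  have k2 := hC q a b f v hq (by omega) (by omega) hf hv (hqv.trans ha')
  have k3 := hC q b M' f v hq (by omega) (by omega) hf hv (hqv.trans (ha'.trans hb'))
  have k4 : C * a / |v| ≤ C * (2 * M) / |v| := by gcongr
  have k5 : C * b / |v| ≤ C * (4 * M) / |v| := by gcongr
  rw [e]
  refine (norm_add₃_le).trans ?_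
  have e2 : 7 * C * M / |v| = C * M / |v| + C * (2 * M) / |v| + C * (4 * M) / |v| := by ring
  rw [e2]
  linarith

/-- partial summation -/
theorem abel (g : ℕ → ℝ) (w : ℕ → ℂ) (hg : Monotone g) (h0 : ∀ n, 0 ≤ g n) {M M' : ℕ} {B : ℝ}
    (hB : ∀ m, ‖∑ n ∈ Ioc M m, w n‖ ≤ B) (hBm : M ≤ M') :
    ‖∑ n ∈ Ioc M M', (g n : ℂ) * w n‖ ≤ 2 * g M' * B := by
  have key : ∀ m, M ≤ m → ∑ n ∈ Ioc M m, (g n : ℂ) * w n = (g m : ℂ) * ∑ n ∈ Ioc M m, w n -
      ∑ n ∈ Ico M m, ((g (n + 1) - g n : ℝ) : ℂ) * ∑ i ∈ Ioc M n, w i := by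
    intro m hm
    induction m, hm using Nat.le_induction with
    | base => simp
    | succ m hm ih =>
      rw [sum_Ioc_succ_top (by omega), sum_Ioc_succ_top (by omega), sum_Ico_succ_top hm, ih]
      push_cast
      ring
  have hB0 : 0 ≤ B := (norm_nonneg _).trans (hB M)
  rw [key M' hBm]
  refine (norm_sub_le _ _).trans ?_
  have h1 : ‖(g M' : ℂ) * ∑ n ∈ Ioc M M', w n‖ ≤ g M' * B := by
    rw [norm_mul, Complex.norm_real, Real.norm_eq_abs, abs_of_nonneg (h0 _)]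
    exact mul_le_mul_of_nonneg_left (hB _) (h0 _)
  have h2 : ‖∑ n ∈ Ico M M', ((g (n + 1) - g n : ℝ) : ℂ) * ∑ i ∈ Ioc M n, w i‖ ≤ g M' * B := by
    refine (norm_sum_le _ _).trans ?_
    have h3 : ∀ n ∈ Ico M M', ‖((g (n + 1) - g n : ℝ) : ℂ) * ∑ i ∈ Ioc M n, w i‖ ≤
        (g (n + 1) - g n) * B := by
      intro n _
      have h4 : 0 ≤ g (n + 1) - g n := sub_nonneg.2 (hg (Nat.le_succ n))
      rw [norm_mul, Complex.norm_real, Real.norm_eq_abs, abs_of_nonneg h4]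
      exact mul_le_mul_of_nonneg_left (hB _) h4
    refine (sum_le_sum h3).trans ?_
    rw [← sum_mul, sum_Ico_sub g hBm]
    refine mul_le_mul_of_nonneg_right ?_ hB0
    linarith [h0 M]
  linarith

theorem harm (D : ℕ) : ∑ d ∈ Icc 1 D, (1 : ℝ) / d ≤ 1 + Real.log D := by
  have h := harmonic_le_one_add_log D
  rw [harmonic_eq_sum_Icc] at h
  push_cast at h
  simpa [one_div] using h

/-- the common estimate -/
theorem main {C : ℝ} (hC1 : 1 ≤ C) (hC : ∀ (q N N' : ℕ) (f : ZMod q → ℂ) (v : ℝ), 1 ≤ q →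
    1 ≤ N → N' ≤ 2 * N → (∀ a, ‖f a‖ ≤ 1) → 1 ≤ |v| → q * |v| ≤ N →
    ‖∑ n ∈ Ioc N N', f (n : ZMod q) * nit n v‖ ≤ C * N / |v|)
    {q X D : ℕ} [NeZero q] (χ : DirichletCharacter ℂ q) (c g : ℕ → ℝ) (v : ℝ)
    (hD1 : 1 ≤ D) (hDX : D ≤ X) (hv : 1 ≤ |v|) (hX : 4 * q * |v| * D ≤ X)
    (hc : ∀ d, |c d| ≤ Real.log (X + 3)) (hc0 : ∀ d, D < d → c d = 0)
    (hg : Monotone g) (hg0 : ∀ n, 0 ≤ g n) (hgX : g (3 * X) ≤ 2 * Real.log (X + 3)) :
    ‖∑ k ∈ Ioc X (3 * X), ((∑ p ∈ k.divisorsAntidiagonal, c p.1 * g p.2 : ℝ) : ℂ) *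
      (χ (k : ZMod q) * nit k v)‖ ≤ 56 * C * X / |v| * Real.log (X + 3) ^ 4 := by
  have hv0 : 0 < |v| := by linarith
  have hq : 1 ≤ q := Nat.one_le_iff_ne_zero.2 (NeZero.ne q)
  have hq0 : (1 : ℝ) ≤ q := by exact_mod_cast hq
  have hX1 : 1 ≤ X := hD1.trans hDX
  have hX0 : (1 : ℝ) ≤ X := by exact_mod_cast hX1
  have hD0 : (1 : ℝ) ≤ D := by exact_mod_cast hD1
  have hDX' : (D : ℝ) ≤ X := by exact_mod_cast hDX
  set L : ℝ := Real.log (X + 3) with hL
  have hL1 : 1 ≤ L := by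
    rw [hL, Real.le_log_iff_exp_le (by linarith)]
    have := Real.exp_one_lt_d9
    linarith
  rw [rearrange χ c g v X D hDX hc0]
  refine (norm_sum_le _ _).trans ?_
  have key : ∀ d ∈ Icc 1 D, ‖(c d : ℂ) * (χ (d : ZMod q) * nit d v) *
      ∑ n ∈ Ioc (X / d) (3 * X / d), (g n : ℂ) * (χ (n : ZMod q) * nit n v)‖ ≤
      28 * C * X / |v| * L ^ 2 * (1 / d) := by
    intro d hd
    rw [mem_Icc] at hd
    have hd0 : (0 : ℝ) < d := by exact_mod_cast hd.1
    have hdD : (d : ℝ) ≤ D := by exact_mod_cast hd.2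
    have hM1 : 1 ≤ X / d := by
      rw [Nat.le_div_iff_mul_le hd.1, one_mul]
      exact hd.2.trans hDX
    have hMM : X / d ≤ 3 * X / d := Nat.div_le_div_right (by omega)
    have hM8 : 3 * X / d ≤ 8 * (X / d) := by
      have h1 : 3 * X / d < 3 * (X / d + 1) := by
        rw [Nat.div_lt_iff_lt_mul hd.1]
        have h2 := Nat.lt_mul_div_succ X hd.1
        have h3 : d * (X / d + 1) * 3 = 3 * (X / d + 1) * d := by ring
        omega
      omega
    have hXd : 4 * (q * |v|) ≤ X / d := by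
      rw [le_div_iff₀ hd0]
      have h1 : 4 * (q * |v|) * d ≤ 4 * (q * |v|) * D :=
        mul_le_mul_of_nonneg_left hdD (by positivity)
      linarith
    have hqv1 : 1 ≤ q * |v| := by nlinarith
    have hMr : (q : ℝ) * |v| ≤ ((X / d : ℕ) : ℝ) := by
      have h1 : (X : ℝ) / d < ((X / d : ℕ) : ℝ) + 1 := by
        have := Nat.lt_floor_add_one ((X : ℝ) / d)
        rw [Nat.floor_div_eq_div] at this
        exact this
      linarith
    have hMr2 : ((X / d : ℕ) : ℝ) ≤ X / d := Nat.cast_div_le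
    have hP : ∀ m, ‖∑ n ∈ Ioc (X / d) m, χ (n : ZMod q) * nit n v‖ ≤
        7 * C * ((X : ℝ) / d) / |v| ∨ 3 * X / d < m := by
      intro m
      rcases Nat.lt_or_ge (3 * X / d) m with h | h
      · exact Or.inr h
      · refine Or.inl ((pieces hC1 hC hq hM1 (h.trans hM8) (fun a => χ.norm_le_one a) hv hMr).trans ?_)
        gcongr
    -- cut the weights beyond the range
    have hB : ∀ m, ‖∑ n ∈ Ioc (X / d) m, (if n ≤ 3 * X / d then χ (n : ZMod q) * nit n v else 0)‖ ≤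
        7 * C * ((X : ℝ) / d) / |v| := by
      intro m
      have e : ∑ n ∈ Ioc (X / d) m, (if n ≤ 3 * X / d then χ (n : ZMod q) * nit n v else 0) =
          ∑ n ∈ Ioc (X / d) (min m (3 * X / d)), χ (n : ZMod q) * nit n v := by
        rw [← sum_filter]
        refine sum_congr ?_ fun _ _ => rfl
        ext n
        rw [mem_filter, mem_Ioc, mem_Ioc, le_min_iff]
        tauto
      rw [e]
      exact (hP _).resolve_right (by omega)
    have hA := abel g (fun n => if n ≤ 3 * X / d then χ (n : ZMod q) * nit n v else 0) hg hg0 hB hMM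
    have e2 : ∑ n ∈ Ioc (X / d) (3 * X / d), (g n : ℂ) *
        (if n ≤ 3 * X / d then χ (n : ZMod q) * nit n v else 0) =
        ∑ n ∈ Ioc (X / d) (3 * X / d), (g n : ℂ) * (χ (n : ZMod q) * nit n v) := by
      refine sum_congr rfl fun n hn => ?_
      rw [if_pos (mem_Ioc.1 hn).2]
    rw [e2] at hA
    have hgM : g (3 * X / d) ≤ 2 * L := (hg (Nat.div_le_self _ _)).trans hgX
    have hn1 : ‖(c d : ℂ) * (χ (d : ZMod q) * nit d v)‖ ≤ L := by
      rw [norm_mul, norm_mul, norm_nit hd.1, mul_one, Complex.norm_real, Real.norm_eq_abs]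
      calc |c d| * ‖χ (d : ZMod q)‖ ≤ L * 1 :=
            mul_le_mul (hc d) (χ.norm_le_one _) (norm_nonneg _) (by linarith)
        _ = L := mul_one L
    rw [norm_mul]
    have hpos : 0 ≤ 7 * C * ((X : ℝ) / d) / |v| := by positivity
    calc ‖(c d : ℂ) * (χ (d : ZMod q) * nit d v)‖ *
          ‖∑ n ∈ Ioc (X / d) (3 * X / d), (g n : ℂ) * (χ (n : ZMod q) * nit n v)‖
        ≤ L * (2 * (2 * L) * (7 * C * ((X : ℝ) / d) / |v|)) := by
          refine mul_le_mul hn1 (hA.trans ?_) (norm_nonneg _) (by linarith)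
          exact mul_le_mul_of_nonneg_right (by linarith) hpos
      _ = 28 * C * X / |v| * L ^ 2 * (1 / d) := by ring
  refine (sum_le_sum key).trans ?_
  rw [← mul_sum]
  have hH : ∑ d ∈ Icc 1 D, (1 : ℝ) / d ≤ 2 * L := by
    have h1 := harm D
    have h2 : Real.log D ≤ L := Real.log_le_log (by linarith) (by linarith)
    linarith
  have hK : 0 ≤ 28 * C * X / |v| * L ^ 2 := by positivity
  calc 28 * C * X / |v| * L ^ 2 * ∑ d ∈ Icc 1 D, (1 : ℝ) / d
      ≤ 28 * C * X / |v| * L ^ 2 * (2 * L) := mul_le_mul_of_nonneg_left hH hK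
    _ = 56 * C * X / |v| * L ^ 3 := by ring
    _ ≤ 56 * C * X / |v| * L ^ 4 := by
        refine mul_le_mul_of_nonneg_left ?_ (by positivity)
        exact pow_le_pow_right₀ hL1 (by norm_num)

end TypeOneAux

open TypeOneAux

theorem type_one : ∃ C : ℝ, 1 ≤ C ∧ ∀ (q X D : ℕ) [NeZero q] (χ : DirichletCharacter ℂ q) (c : ℕ → ℝ) (v : ℝ),
    1 ≤ D → D ≤ X → 1 ≤ |v| → 4 * q * |v| * D ≤ X → (∀ d, |c d| ≤ Real.log (X + 3)) → (∀ d, D < d → c d = 0) →
    ‖∑ k ∈ Ioc X (3 * X), ((∑ p ∈ k.divisorsAntidiagonal, c p.1 : ℝ) : ℂ) * (χ (k : ZMod q) * nit k v)‖ ≤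
        C * X / |v| * Real.log (X + 3) ^ 4 ∧
    ‖∑ k ∈ Ioc X (3 * X), ((∑ p ∈ k.divisorsAntidiagonal, c p.1 * Real.log p.2 : ℝ) : ℂ) *
        (χ (k : ZMod q) * nit k v)‖ ≤ C * X / |v| * Real.log (X + 3) ^ 4 := by
  obtain ⟨C, hC1, hC⟩ := kl_sum
  refine ⟨56 * C, by linarith, ?_⟩
  intro q X D _ χ c v hD1 hDX hv hX hc hc0
  have hX1 : 1 ≤ X := hD1.trans hDX
  have hX0 : (1 : ℝ) ≤ X := by exact_mod_cast hX1
  have hL1 : 1 ≤ Real.log (X + 3) := by
    rw [Real.le_log_iff_exp_le (by linarith)]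
    have := Real.exp_one_lt_d9
    linarith
  constructor
  · have h := main hC1 hC χ c (fun _ => 1) v hD1 hDX hv hX hc hc0 (fun _ _ _ => le_rfl)
      (fun _ => zero_le_one) (by linarith)
    simp only [mul_one] at h
    exact h
  · refine main hC1 hC χ c (fun n => Real.log n) v hD1 hDX hv hX hc hc0 ?_
      (fun n => Real.log_natCast_nonneg n) ?_
    · intro a b hab
      rcases Nat.eq_zero_or_pos a with h0 | h0
      · subst h0
        simp only [Nat.cast_zero, Real.log_zero]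
        exact Real.log_natCast_nonneg b
      · exact Real.log_le_log (by exact_mod_cast h0) (by exact_mod_cast hab)
    · have h1 : 2 * Real.log ((X : ℝ) + 3) = Real.log (((X : ℝ) + 3) ^ 2) := by
        rw [Real.log_pow]
        push_cast
        ring
      rw [h1]
      push_cast
      refine Real.log_le_log (by linarith) ?_
      nlinarith

end Pool.Agent.VK
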