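import Pool.Agent.Lib.SW.Defs

/-!
# Short intervals: definitions

`nit n v = n^(-iv)`; `cc χ n = χ(n) Λ(n) - δ(χ)`; `gs σ` the Gaussian density of width `σ`.
-/

set_option autoImplicit false

open Finset Filter

namespace Pool.Agent.VK

open Pool.Agent.Lib.SW

/-- `n^(-iv)`. -/
noncomputable def nit (n : ℕ) (v : ℝ) : ℂ := ((n : ℝ) : ℂ) ^ (-((v : ℂ) * Complex.I))

/-- `χ(n) Λ(n)`, minus `1` if `χ` is principal. -/
noncomputable def cc {q : ℕ} (χ : DirichletCharacter ℂ q) (n : ℕ) : ℂ :=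
  open Classical in lam (chf χ) n - (if χ = 1 then 1 else 0)

/-- The Gaussian density. -/
noncomputable def gs (σ u : ℝ) : ℝ := Real.exp (-(u ^ 2 / (2 * σ ^ 2))) / (σ * Real.sqrt (2 * Real.pi))

lemma norm_nit {n : ℕ} (hn : 1 ≤ n) (v : ℝ) : ‖nit n v‖ = 1 := by
  unfold nit
  rw [Complex.norm_cpow_eq_rpow_re_of_pos (by exact_mod_cast hn)]
  simp

end Pool.Agent.VK
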