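import Mathlib

/-!
# Riesz means from bounds on one vertical line, two levels

PROOF SKETCH. Copy the proof of `SW.riesz_bound` (file `SW/Riesz.lean`; its private lemmas can be copied): with
`σ = 1 + 1/log x`, `sum_(n ≤ x) a(n) (1 - n/x) = (1/2π) ∫ LSeries a (σ+iy) x^(σ+iy) (1/(σ+iy) - 1/(σ+iy+1)) dy`, the norm of the
integrand is at most `e x ‖LSeries a (σ+iy)‖/(1+y^2)`, and `∫ 1/(1+y^2) = π`, `∫_(|y|>V) 1/(1+y^2) ≤ 2/V`.
So the sum is at most `(e/2π) x (π H1 + 2 H2/V) ≤ 2 x (H1 + H2/V)`. (It is enough to bound the integrand by the function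
`(H1 + H2 · 1_{|y| > V})/(1+y^2)`.)
-/

set_option autoImplicit false

open Finset

namespace Pool.Agent.VK

namespace RieszTwoAux

open Complex MeasureTheory Set Filter Topology

/-- The function `(1-u)_+` for positive `u`. -/
noncomputable def ff : ℝ → ℂ := fun u =>
  indicator (Ioc 0 1) (fun _ => (1:ℂ)) u - indicator (Ioc 0 1) (fun t : ℝ => (t : ℂ) ^ (1:ℂ)) u

theorem ff_mellin {s : ℂ} (hs : 0 < s.re) : HasMellin ff s (1 / s - 1 / (s + 1)) := by
  have h1 := hasMellin_one_Ioc hs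
  have h2 := hasMellin_cpow_Ioc 1 (s := s) (by simp; linarith)
  have h3 := hasMellin_sub h1.1 h2.1
  rw [h1.2, h2.2] at h3
  exact h3

theorem ff_apply {u : ℝ} (hu : 0 < u) : ff u = ((max (1-u) 0 : ℝ) : ℂ) := by
  unfold ff
  by_cases h : u ≤ 1
  · have hm : u ∈ Ioc (0:ℝ) 1 := ⟨hu, h⟩
    rw [indicator_of_mem hm, indicator_of_mem hm, cpow_one, max_eq_left (by linarith)]
    push_cast
    ring
  · have hm : u ∉ Ioc (0:ℝ) 1 := fun h' => h h'.2
    rw [indicator_of_notMem hm, indicator_of_notMem hm, max_eq_right (by linarith)]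
    simp

theorem ff_cont {u : ℝ} (hu : 0 < u) : ContinuousAt ff u := by
  have h1 : ff =ᶠ[𝓝 u] fun u => ((max (1-u) 0 : ℝ) : ℂ) := by
    filter_upwards [lt_mem_nhds hu] with v hv
    exact ff_apply hv
  refine ContinuousAt.congr ?_ h1.symm
  fun_prop

/-- The integrable majorant. -/
noncomputable def gg (y : ℝ) : ℝ := (|y| + 3) ^ (1/2 : ℝ) / (1 + y ^ 2)

theorem gg_integrable : Integrable gg := by
  have h := integrable_rpow_neg_one_add_norm_sq (E := ℝ) (μ := volume) (r := 3/2) (by norm_num)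
  refine (h.const_mul 3).mono' ?_ (Eventually.of_forall fun y => ?_)
  · unfold gg
    exact (Measurable.aestronglyMeasurable (by fun_prop))
  · unfold gg
    have hy : (0:ℝ) ≤ y ^ 2 := sq_nonneg y
    have hp : (0:ℝ) < 1 + y ^ 2 := by linarith
    have ha : (0:ℝ) ≤ |y| := abs_nonneg y
    rw [Real.norm_of_nonneg (by positivity)]
    have h1 : (|y| + 3) ^ (1/2 : ℝ) ≤ 3 * (1 + y ^ 2) ^ (1/4 : ℝ) := by
      have h2 : |y| + 3 ≤ 9 * (1 + y ^ 2) ^ (1/2 : ℝ) := by
        rw [← Real.sqrt_eq_rpow]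
        have h3 : |y| ≤ √(1 + y ^ 2) := by
          rw [← Real.sqrt_sq_eq_abs]
          exact Real.sqrt_le_sqrt (by linarith)
        have h4 : 1 ≤ √(1 + y ^ 2) := by
          rw [Real.one_le_sqrt]
          linarith
        linarith
      calc (|y| + 3) ^ (1/2 : ℝ) ≤ (9 * (1 + y ^ 2) ^ (1/2 : ℝ)) ^ (1/2 : ℝ) :=
            Real.rpow_le_rpow (by positivity) h2 (by norm_num)
        _ = 3 * (1 + y ^ 2) ^ (1/4 : ℝ) := by
            rw [Real.mul_rpow (by norm_num) (by positivity), ← Real.rpow_mul hp.le]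
            have : (9:ℝ) ^ (1/2 : ℝ) = 3 := by
              rw [← Real.sqrt_eq_rpow, show (9:ℝ) = 3 ^ 2 by norm_num, Real.sqrt_sq (by norm_num)]
            rw [this]
            norm_num
    rw [div_le_iff₀ hp]
    refine h1.trans (le_of_eq ?_)
    rw [Real.norm_eq_abs, sq_abs]
    nth_rewrite 3 [← Real.rpow_one (1 + y ^ 2)]
    rw [mul_assoc, ← Real.rpow_add hp]
    norm_num

theorem vert {σ : ℝ} (hσ : 1 ≤ σ) (y : ℝ) :
    ‖(1 / ((σ:ℂ) + y * I) - 1 / ((σ:ℂ) + y * I + 1))‖ ≤ 1 / (1 + y ^ 2) := by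
  set s : ℂ := (σ:ℂ) + y * I with hs
  have hre : s.re = σ := by simp [hs]
  have him : s.im = y := by simp [hs]
  have h0 : s ≠ 0 := by
    intro h; rw [h] at hre; simp at hre; linarith
  have h1 : s + 1 ≠ 0 := by
    intro h
    have : (s + 1).re = 0 := by rw [h]; simp
    simp [hre] at this; linarith
  have e : (1 / s - 1 / (s + 1)) = 1 / (s * (s + 1)) := by field_simp; ring
  rw [e, norm_div, norm_one]
  apply one_div_le_one_div_of_le (by positivity)
  rw [norm_mul]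
  have h2 : √(1 + y ^ 2) ≤ ‖s‖ := by
    rw [Complex.norm_eq_sqrt_sq_add_sq, hre, him]
    exact Real.sqrt_le_sqrt (by nlinarith)
  have h3 : √(1 + y ^ 2) ≤ ‖s + 1‖ := by
    rw [Complex.norm_eq_sqrt_sq_add_sq, add_re, add_im, hre, him, one_re, one_im]
    exact Real.sqrt_le_sqrt (by nlinarith)
  calc 1 + y ^ 2 = √(1 + y ^ 2) * √(1 + y ^ 2) := (Real.mul_self_sqrt (by positivity)).symm
    _ ≤ ‖s‖ * ‖s + 1‖ := mul_le_mul h2 h3 (Real.sqrt_nonneg _) (norm_nonneg _)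

theorem vert_cont {σ : ℝ} (hσ : 1 ≤ σ) :
    Continuous fun y : ℝ => (1 / ((σ:ℂ) + y * I) - 1 / ((σ:ℂ) + y * I + 1)) := by
  have h0 : ∀ y : ℝ, (σ:ℂ) + y * I ≠ 0 := by
    intro y h
    have : ((σ:ℂ) + y * I).re = 0 := by rw [h]; simp
    simp at this; linarith
  have h1 : ∀ y : ℝ, (σ:ℂ) + y * I + 1 ≠ 0 := by
    intro y h
    have : ((σ:ℂ) + y * I + 1).re = 0 := by rw [h]; simp
    simp at this; linarith
  refine Continuous.sub (Continuous.div continuous_const (by fun_prop) h0)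
    (Continuous.div continuous_const (by fun_prop) h1)

theorem one_int : Integrable fun y : ℝ => 1 / (1 + y ^ 2) := by
  refine gg_integrable.mono' (by
    exact (Measurable.aestronglyMeasurable (by fun_prop))) (Eventually.of_forall fun y => ?_)
  have hp : (0:ℝ) < 1 + y ^ 2 := by positivity
  rw [Real.norm_of_nonneg (by positivity)]
  unfold gg
  apply div_le_div_of_nonneg_right _ hp.le
  apply Real.one_le_rpow _ (by norm_num)
  have := abs_nonneg y
  linarith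

theorem vert_int {σ : ℝ} (hσ : 1 ≤ σ) :
    Integrable fun y : ℝ => (1 / ((σ:ℂ) + y * I) - 1 / ((σ:ℂ) + y * I + 1)) :=
  one_int.mono' (vert_cont hσ).aestronglyMeasurable (Eventually.of_forall fun y => vert hσ y)

theorem inversion {σ : ℝ} (hσ : 1 ≤ σ) {u : ℝ} (hu : 0 < u) :
    ((max (1-u) 0 : ℝ) : ℂ) = (1 / (2 * Real.pi) : ℝ) • ∫ y : ℝ, (u:ℂ) ^ (-((σ:ℂ) + y * I)) •
      (1 / ((σ:ℂ) + y * I) - 1 / ((σ:ℂ) + y * I + 1)) := by
  have hm : ∀ y : ℝ, mellin ff ((σ:ℂ) + y * I) =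
      (1 / ((σ:ℂ) + y * I) - 1 / ((σ:ℂ) + y * I + 1)) := by
    intro y
    exact (ff_mellin (by simp; linarith)).2
  have hv : VerticalIntegrable (mellin ff) σ := by
    unfold VerticalIntegrable
    simp_rw [hm]
    exact vert_int hσ
  have hc : MellinConvergent ff σ := (ff_mellin (by simp; linarith)).1
  have h := mellinInv_mellin_eq σ ff hu hc hv (ff_cont hu)
  rw [ff_apply hu] at h
  rw [← h, mellinInv]
  simp_rw [hm]


/-- the majorant -/
noncomputable def maj (H1 H2 V : ℝ) (y : ℝ) : ℝ :=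
  (H1 + H2) * (1 + y ^ 2)⁻¹ - H2 * indicator (Icc (-V) V) (fun y => (1 + y ^ 2)⁻¹) y

theorem maj_integrable (H1 H2 V : ℝ) : Integrable (maj H1 H2 V) :=
  (integrable_inv_one_add_sq.const_mul _).sub
    ((integrable_inv_one_add_sq.indicator measurableSet_Icc).const_mul _)

theorem maj_integral {H1 H2 V : ℝ} (hV : 1 ≤ V) (hH2 : 0 ≤ H2) :
    ∫ y, maj H1 H2 V y ≤ Real.pi * H1 + 2 * (H2 / V) := by
  unfold maj
  rw [integral_sub (integrable_inv_one_add_sq.const_mul _)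
    ((integrable_inv_one_add_sq.indicator measurableSet_Icc).const_mul _), integral_const_mul,
    integral_const_mul, integral_univ_inv_one_add_sq, integral_indicator measurableSet_Icc,
    integral_Icc_eq_integral_Ioc, ← intervalIntegral.integral_of_le (by linarith),
    integral_inv_one_add_sq, Real.arctan_neg]
  have h1 : Real.arctan V⁻¹ = Real.pi / 2 - Real.arctan V := Real.arctan_inv_of_pos (by linarith)
  have h2 : Real.arctan V⁻¹ ≤ V⁻¹ := by
    have h4 := Real.le_tan (Real.arctan_nonneg.2 (by positivity : (0 : ℝ) ≤ V⁻¹))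
      (Real.arctan_lt_pi_div_two V⁻¹)
    rwa [Real.tan_arctan] at h4
  have h3 : H2 * (Real.pi / 2 - Real.arctan V) ≤ H2 * V⁻¹ := by
    apply mul_le_mul_of_nonneg_left _ hH2
    linarith
  rw [div_eq_mul_inv]
  nlinarith

theorem main (a : ℕ → ℂ) (ha : LSeries.abscissaOfAbsConv a ≤ 1) (x H1 H2 V : ℝ) (hx : 3 ≤ x)
    (hH1 : 0 ≤ H1) (hH2 : 0 ≤ H2) (hV : 1 ≤ V)
    (h1 : ∀ y : ℝ, |y| ≤ V → ‖LSeries a (((1 + 1 / Real.log x : ℝ) : ℂ) + y * Complex.I)‖ ≤ H1)
    (h2 : ∀ y : ℝ, ‖LSeries a (((1 + 1 / Real.log x : ℝ) : ℂ) + y * Complex.I)‖ ≤ H2) :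
    ‖∑ n ∈ Finset.Icc 1 ⌊x⌋₊, a n * (1 - (n : ℂ) / (x : ℂ))‖ ≤ 2 * (H1 + H2 / V) * x := by
  have hx0 : 0 < x := by linarith
  have hlog : 1 ≤ Real.log x := by
    have h1 : Real.exp 1 ≤ x := by
      have := Real.exp_one_lt_d9
      linarith
    have := Real.log_le_log (Real.exp_pos 1) h1
    rwa [Real.log_exp] at this
  set σ : ℝ := 1 + 1 / Real.log x with hσdef
  have hσ1 : 1 < σ := by
    have : 0 < 1 / Real.log x := by positivity
    linarith
  have hσ2 : σ ≤ 2 := by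
    have : 1 / Real.log x ≤ 1 := by
      rw [div_le_one (by linarith)]; exact hlog
    linarith
  have hxσ : x ^ σ = Real.exp 1 * x := by
    rw [Real.rpow_def_of_pos hx0, hσdef, mul_add, mul_one, mul_one_div_cancel (by linarith),
      Real.exp_add, Real.exp_log hx0, mul_comm]
  have hre : ∀ y : ℝ, ((σ:ℂ) + y * I).re = σ := fun y => by simp
  have him : ∀ y : ℝ, ((σ:ℂ) + y * I).im = y := fun y => by simp
  have hs0 : ∀ y : ℝ, (σ:ℂ) + y * I ≠ 0 := by
    intro y h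
    have := hre y
    rw [h] at this
    simp at this
    linarith
  have hsum : LSeriesSummable a (σ:ℂ) := by
    apply LSeriesSummable_of_abscissaOfAbsConv_lt_re
    refine lt_of_le_of_lt ha ?_
    simp only [ofReal_re]
    exact_mod_cast hσ1
  let V' : ℝ → ℂ := fun y => (1 / ((σ:ℂ) + y * I) - 1 / ((σ:ℂ) + y * I + 1))
  let F : ℕ → ℝ → ℂ := fun n y =>
    LSeries.term a ((σ:ℂ) + y * I) n * ((x:ℂ) ^ ((σ:ℂ) + y * I) * V' y)
  have hxn : ∀ y : ℝ, ‖(x:ℂ) ^ ((σ:ℂ) + y * I)‖ = x ^ σ := by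
    intro y
    rw [norm_cpow_eq_rpow_re_of_pos hx0, hre]
  have htn : ∀ n (y : ℝ), ‖LSeries.term a ((σ:ℂ) + y * I) n‖ = ‖LSeries.term a (σ:ℂ) n‖ := by
    intro n y
    rw [LSeries.norm_term_eq, LSeries.norm_term_eq, hre, ofReal_re]
  have hVc : Continuous V' := vert_cont hσ1.le
  have htc : ∀ n, Continuous fun y : ℝ => LSeries.term a ((σ:ℂ) + y * I) n := by
    intro n
    rcases eq_or_ne n 0 with rfl | hn
    · simp only [LSeries.term_zero]; exact continuous_const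
    · simp only [LSeries.term_of_ne_zero hn]
      have hn' : (n:ℂ) ≠ 0 := by exact_mod_cast hn
      refine Continuous.div continuous_const ?_ ?_
      · refine Continuous.const_cpow (by fun_prop) (Or.inl hn')
      · intro y
        exact (cpow_ne_zero_iff_of_exponent_ne_zero (hs0 y)).2 hn'
  have hxc : Continuous fun y : ℝ => (x:ℂ) ^ ((σ:ℂ) + y * I) := by
    refine Continuous.const_cpow (by fun_prop) (Or.inl ?_)
    exact_mod_cast hx0.ne'
  have hFc : ∀ n, Continuous (F n) := fun n => (htc n).mul (hxc.mul hVc)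
  have hFn : ∀ n y, ‖F n y‖ ≤ ‖LSeries.term a (σ:ℂ) n‖ * x ^ σ * (1 / (1 + y ^ 2)) := by
    intro n y
    show ‖_ * (_ * V' y)‖ ≤ _
    rw [norm_mul, norm_mul, htn, hxn, mul_assoc]
    exact mul_le_mul_of_nonneg_left (mul_le_mul_of_nonneg_left (vert hσ1.le y) (by positivity))
      (norm_nonneg _)
  have hFi : ∀ n, Integrable (F n) := fun n =>
    (one_int.const_mul (‖LSeries.term a (σ:ℂ) n‖ * x ^ σ)).mono' (hFc n).aestronglyMeasurable
      (Eventually.of_forall fun y => hFn n y)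
  have hFs : Summable fun n => ∫ y, ‖F n y‖ := by
    refine Summable.of_nonneg_of_le (fun n => integral_nonneg fun y => norm_nonneg _)
      (fun n => ?_) (hsum.norm.mul_right (x ^ σ * ∫ y : ℝ, 1 / (1 + y ^ 2)))
    calc ∫ y, ‖F n y‖ ≤ ∫ y : ℝ, ‖LSeries.term a (σ:ℂ) n‖ * x ^ σ * (1 / (1 + y ^ 2)) :=
          integral_mono (hFi n).norm (one_int.const_mul _) (fun y => hFn n y)
      _ = _ := by rw [integral_const_mul, mul_assoc]
  have hHS := hasSum_integral_of_summable_integral_norm hFi hFs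
  -- the sum of the integrals
  have hint : ∀ n, (1 / (2 * Real.pi) : ℝ) • ∫ y, F n y =
      if n = 0 then 0 else a n * ((max (1 - (n:ℝ)/x) 0 : ℝ) : ℂ) := by
    intro n
    rcases eq_or_ne n 0 with rfl | hn
    · have : ∀ y, F 0 y = 0 := by
        intro y
        show LSeries.term a _ 0 * _ = 0
        rw [LSeries.term_zero, zero_mul]
      simp [this]
    · rw [if_neg hn]
      have hn0 : (0:ℝ) < n := by exact_mod_cast Nat.pos_of_ne_zero hn
      rw [inversion hσ1.le (div_pos hn0 hx0)]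
      rw [mul_smul_comm, ← integral_const_mul]
      congr 1
      apply integral_congr_ae
      refine Eventually.of_forall fun y => ?_
      show LSeries.term a ((σ:ℂ) + y * I) n * ((x:ℂ) ^ ((σ:ℂ) + y * I) * V' y) =
        a n * ((((n:ℝ)/x : ℝ) : ℂ) ^ (-((σ:ℂ) + y * I)) • V' y)
      rw [LSeries.term_of_ne_zero hn, smul_eq_mul]
      have e1 : (((n:ℝ)/x : ℝ) : ℂ) ^ (-((σ:ℂ) + y * I)) =
          (x:ℂ) ^ ((σ:ℂ) + y * I) / (n:ℂ) ^ ((σ:ℂ) + y * I) := by
        have e2 : (((n:ℝ)/x : ℝ) : ℂ) = (((n:ℝ) : ℝ) : ℂ) * ((x⁻¹ : ℝ) : ℂ) := by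
          push_cast
          rw [div_eq_mul_inv]
        have e3 : ((x⁻¹ : ℝ) : ℂ) ^ ((σ:ℂ) + y * I) = ((x:ℂ) ^ ((σ:ℂ) + y * I))⁻¹ := by
          push_cast
          rw [inv_cpow]
          rw [Complex.arg_ofReal_of_nonneg hx0.le]
          exact Real.pi_pos.ne
        rw [cpow_neg, e2, mul_cpow_ofReal_nonneg hn0.le (inv_nonneg.2 hx0.le), e3]
        push_cast
        rw [mul_inv, inv_inv, div_eq_mul_inv, mul_comm]
      rw [e1]
      ring
  have hsumfin : HasSum (fun n : ℕ => if n = 0 then (0:ℂ) else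
      a n * ((max (1 - (n:ℝ)/x) 0 : ℝ) : ℂ)) (∑ n ∈ Finset.Icc 1 ⌊x⌋₊, a n * (1 - (n:ℂ) / (x:ℂ))) := by
    have e : ∑ n ∈ Finset.Icc 1 ⌊x⌋₊, a n * (1 - (n:ℂ) / (x:ℂ)) =
        ∑ n ∈ Finset.Icc 1 ⌊x⌋₊, (if n = 0 then (0:ℂ) else
          a n * ((max (1 - (n:ℝ)/x) 0 : ℝ) : ℂ)) := by
      refine Finset.sum_congr rfl fun n hn => ?_
      rw [Finset.mem_Icc] at hn
      have h1 : n ≠ 0 := by omega
      rw [if_neg h1]
      have h2 : (n:ℝ) ≤ x := (Nat.le_floor_iff hx0.le).1 hn.2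
      have h3 : (n:ℝ)/x ≤ 1 := by rw [div_le_one hx0]; exact h2
      rw [max_eq_left (by linarith)]
      push_cast
      rfl
    rw [e]
    apply hasSum_sum_of_ne_finset_zero
    intro n hn
    rw [Finset.mem_Icc] at hn
    rcases eq_or_ne n 0 with rfl | h1
    · simp
    · rw [if_neg h1]
      have h2 : ⌊x⌋₊ < n := by
        by_contra h
        exact hn ⟨by omega, by omega⟩
      have h3 : x < n := (Nat.floor_lt hx0.le).1 h2
      have h4 : 1 ≤ (n:ℝ)/x := by rw [le_div_iff₀ hx0]; linarith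
      rw [max_eq_right (by linarith)]
      simp
  have hHS2 := hHS.const_smul (1 / (2 * Real.pi) : ℝ)
  simp_rw [hint] at hHS2
  have heq := hsumfin.unique hHS2
  rw [heq]
  have htsum : ∀ y : ℝ, ∑' n, F n y = LSeries a ((σ:ℂ) + y * I) *
      ((x:ℂ) ^ ((σ:ℂ) + y * I) * V' y) := by
    intro y
    show ∑' n, LSeries.term a ((σ:ℂ) + y * I) n * _ = _
    rw [tsum_mul_right]
    rfl
  have hbound : ∀ y : ℝ, ‖∑' n, F n y‖ ≤ x ^ σ * maj H1 H2 V y := by
    intro y
    rw [htsum, norm_mul, norm_mul, hxn]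
    have h3 := vert hσ1.le y
    have hxσ0 : 0 ≤ x ^ σ := by positivity
    have hp : 0 < (1 + y ^ 2)⁻¹ := by positivity
    have h4 : ‖LSeries a ((σ:ℂ) + y * I)‖ * (1 + y ^ 2)⁻¹ ≤ maj H1 H2 V y := by
      unfold maj
      by_cases hy : |y| ≤ V
      · have hm : y ∈ Icc (-V) V := abs_le.1 hy
        rw [indicator_of_mem hm]
        have h5 := mul_le_mul_of_nonneg_right (h1 y hy) hp.le
        linarith
      · have hm : y ∉ Icc (-V) V := fun h => hy (abs_le.2 h)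
        rw [indicator_of_notMem hm, mul_zero, sub_zero]
        apply mul_le_mul_of_nonneg_right _ hp.le
        linarith [h2 y]
    calc ‖LSeries a ((σ:ℂ) + y * I)‖ * (x ^ σ * ‖V' y‖)
        ≤ ‖LSeries a ((σ:ℂ) + y * I)‖ * (x ^ σ * (1 / (1 + y ^ 2))) := by
          apply mul_le_mul_of_nonneg_left _ (norm_nonneg _)
          exact mul_le_mul_of_nonneg_left h3 hxσ0
      _ = x ^ σ * (‖LSeries a ((σ:ℂ) + y * I)‖ * (1 + y ^ 2)⁻¹) := by
          rw [one_div]
          ring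
      _ ≤ x ^ σ * maj H1 H2 V y := mul_le_mul_of_nonneg_left h4 hxσ0
  have hpi := Real.pi_pos
  have hmi := maj_integral (H1 := H1) hV hH2
  have he := Real.exp_one_lt_d9
  have hpi3 := Real.pi_gt_three
  have hHV : 0 ≤ H2 / V := by positivity
  calc ‖(1 / (2 * Real.pi) : ℝ) • ∫ y, ∑' n, F n y‖
      ≤ (1 / (2 * Real.pi)) * ∫ y, x ^ σ * maj H1 H2 V y := by
        rw [norm_smul, Real.norm_of_nonneg (by positivity)]
        apply mul_le_mul_of_nonneg_left _ (by positivity)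
        exact norm_integral_le_of_norm_le ((maj_integrable H1 H2 V).const_mul _)
          (Eventually.of_forall hbound)
    _ = Real.exp 1 * x * (1 / (2 * Real.pi) * ∫ y, maj H1 H2 V y) := by
        rw [integral_const_mul, hxσ]; ring
    _ ≤ Real.exp 1 * x * (1 / (2 * Real.pi) * (Real.pi * H1 + 2 * (H2 / V))) := by
        apply mul_le_mul_of_nonneg_left _ (by positivity)
        exact mul_le_mul_of_nonneg_left hmi (by positivity)
    _ = Real.exp 1 * (H1 / 2 + (H2 / V) / Real.pi) * x := by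
        field_simp
    _ ≤ 2 * (H1 + H2 / V) * x := by
        apply mul_le_mul_of_nonneg_right _ hx0.le
        have h6 : (H2 / V) / Real.pi ≤ (H2 / V) / 2 := by
          apply div_le_div_of_nonneg_left hHV (by norm_num) (by linarith)
        have h7 : H1 / 2 + (H2 / V) / Real.pi ≤ (H1 + H2 / V) / 2 := by linarith
        have h8 : 0 ≤ (H1 + H2 / V) / 2 := by positivity
        calc Real.exp 1 * (H1 / 2 + (H2 / V) / Real.pi) ≤ Real.exp 1 * ((H1 + H2 / V) / 2) :=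
              mul_le_mul_of_nonneg_left h7 (Real.exp_pos 1).le
          _ ≤ 4 * ((H1 + H2 / V) / 2) := mul_le_mul_of_nonneg_right (by linarith) h8
          _ = 2 * (H1 + H2 / V) := by ring

end RieszTwoAux

theorem riesz_two (a : ℕ → ℂ) (ha : LSeries.abscissaOfAbsConv a ≤ 1) (x H1 H2 V : ℝ) (hx : 3 ≤ x)
    (hH1 : 0 ≤ H1) (hH2 : 0 ≤ H2) (hV : 1 ≤ V)
    (h1 : ∀ y : ℝ, |y| ≤ V → ‖LSeries a (((1 + 1 / Real.log x : ℝ) : ℂ) + y * Complex.I)‖ ≤ H1)
    (h2 : ∀ y : ℝ, ‖LSeries a (((1 + 1 / Real.log x : ℝ) : ℂ) + y * Complex.I)‖ ≤ H2) :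
    ‖∑ n ∈ Icc 1 ⌊x⌋₊, a n * (1 - (n : ℂ) / (x : ℂ))‖ ≤ 2 * (H1 + H2 / V) * x :=
  RieszTwoAux.main a ha x H1 H2 V hx hH1 hH2 hV h1 h2

end Pool.Agent.VK
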