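import Pool.Agent.Lib.SW.Unsmooth

/-!
# From Riesz means with logarithmic weights to sums without weights

PROOF SKETCH. `a n = b n (log n)^m`, `λ = log N ≥ 1`, `|a n| ≤ (log n)^(m+1)`. With `S(x) = sum_(n ≤ x) a(n) (x - n)`, `|S(x)| ≤ H x^2` for integers
`x` in `[√N, 2N]` (hypothesis), `A(y) = sum_(n ≤ y) a(n)`: for `1 ≤ h ≤ y`, `S(y+h) - S(y) = h A(y) + sum_(y < n ≤ y+h) a(n)(y+h-n)`, so
`|A(y)| ≤ 5 H y^2/h + h (log 2N)^(m+1)`. For `√N ≤ y ≤ N` and `0 < Δ ≤ 1` with `h = ⌈Δ y⌉` (so `Δ y ≤ h ≤ Δ y + 1 ≤ 2 Δ y` if `Δ y ≥ 1`):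
`|A(y)| ≤ C_m (H N/Δ + Δ N λ^(m+1))`. Partial summation to remove `(log n)^m` for `√N < n ≤ y`
(`(log n)^(-m)` is decreasing, at most `(2/λ)^m`): `|sum_(√N < n ≤ y) b n| ≤ 2 (2/λ)^m · 2 max |A|`, and the terms `n ≤ √N` contribute at
most `√N λ`. Total `≤ C_m N (H λ^(-m)/Δ + Δ λ) + √N λ`. For `y < √N` the trivial bound `√N λ`. The condition `Δ √N ≥ 1` ensures
`Δ y ≥ 1`.
-/

set_option autoImplicit false

open Finset

namespace Pool.Agent.VK

namespace UnsmAux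

open Pool.Agent.Lib.SW Pool.Agent.Lib.SW.Unsmooth

lemma triv {b : ℕ → ℂ} (hb : ∀ n, ‖b n‖ ≤ Real.log n) :
    ∀ z : ℕ, 1 ≤ z → ‖PA b z‖ ≤ ((z : ℝ) - 1) * Real.log z := by
  intro z hz
  induction z, hz using Nat.le_induction with
  | base =>
    have h := hb 1
    unfold PA
    simpa using h
  | succ z hz ih =>
    rw [PA_succ]
    refine (norm_add_le _ _).trans ?_
    have h1 := hb (z + 1)
    have hz1 : (1 : ℝ) ≤ z := by exact_mod_cast hz
    have h2 : Real.log z ≤ Real.log (z + 1 : ℕ) :=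
      Real.log_le_log (by linarith) (by push_cast; linarith)
    have h3 : ((z : ℝ) - 1) * Real.log z ≤ ((z : ℝ) - 1) * Real.log (z + 1 : ℕ) :=
      mul_le_mul_of_nonneg_left h2 (by linarith)
    have h4 : (((z + 1 : ℕ) : ℝ) - 1) * Real.log (z + 1 : ℕ) =
        ((z : ℝ) - 1) * Real.log (z + 1 : ℕ) + Real.log (z + 1 : ℕ) := by
      push_cast
      ring
    rw [h4]
    linarith

lemma PS_le {a : ℕ → ℂ} {H : ℝ} {x : ℕ} (hx : 0 < x)
    (h : ‖∑ n ∈ Icc 1 x, a n * (1 - (n : ℂ) / (x : ℂ))‖ ≤ H * x) : ‖PS a x‖ ≤ H * (x : ℝ) ^ 2 := by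
  have hNc : (x : ℂ) ≠ 0 := by
    have : x ≠ 0 := by omega
    exact_mod_cast this
  have e : PS a x = (x : ℂ) * ∑ n ∈ Finset.Icc 1 x, a n * (1 - (n : ℂ) / (x : ℂ)) := by
    unfold PS
    rw [Finset.mul_sum]
    apply Finset.sum_congr rfl
    intro n _
    field_simp
  rw [e, norm_mul, Complex.norm_natCast]
  calc (x : ℝ) * _ ≤ (x : ℝ) * (H * x) := mul_le_mul_of_nonneg_left h (Nat.cast_nonneg _)
    _ = H * (x : ℝ) ^ 2 := by ring

lemma term_le {b : ℕ → ℂ} (hb : ∀ n, ‖b n‖ ≤ Real.log n) (m : ℕ) {n : ℕ} {Y : ℝ}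
    (hn : 1 ≤ n) (hY : (n : ℝ) ≤ Y) : ‖lg b m n‖ ≤ (Real.log Y) ^ (m + 1) := by
  have h1 : (1 : ℝ) ≤ n := by exact_mod_cast hn
  have h2 : Real.log n ≤ Real.log Y := Real.log_le_log (by linarith) hY
  have h3 : 0 ≤ Real.log n := Real.log_nonneg h1
  unfold lg
  rw [norm_mul, norm_pow, Complex.norm_real, Real.norm_of_nonneg h3, pow_succ']
  exact mul_le_mul ((hb n).trans h2) (pow_le_pow_left₀ h3 h2 m) (by positivity) (by linarith)

/-- bound for the partial sums with logarithmic weights -/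
lemma PA_le (m : ℕ) {b : ℕ → ℂ} {N : ℕ} {H Δ : ℝ} (hN : 9 ≤ N) (hH : 0 ≤ H) (hΔ : 0 < Δ)
    (hΔ1 : Δ ≤ 1) (hΔN : 1 ≤ Δ * Real.sqrt N) (hb : ∀ n, ‖b n‖ ≤ Real.log n)
    (hx : ∀ x : ℕ, Real.sqrt N ≤ x → x ≤ 2 * N + 1 →
      ‖∑ n ∈ Icc 1 x, b n * ((Real.log n : ℝ) : ℂ) ^ m * (1 - (n : ℂ) / (x : ℂ))‖ ≤ H * x)
    {y : ℕ} (hy : Real.sqrt N ≤ y) (hyN : y ≤ N) :
    ‖PA (lg b m) y‖ ≤ N * (5 * H / Δ + 2 ^ (m + 2) * (Δ * Real.log N ^ (m + 1))) := by
  have hN9 : (9 : ℝ) ≤ N := by exact_mod_cast hN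
  have hN0 : (0 : ℝ) < N := by linarith
  have hs0 : 0 < Real.sqrt N := Real.sqrt_pos.2 hN0
  have hy0 : (0 : ℝ) < y := lt_of_lt_of_le hs0 hy
  have hyN' : (y : ℝ) ≤ N := by exact_mod_cast hyN
  have hypos : 0 < y := by exact_mod_cast hy0
  have hΔy : 1 ≤ Δ * y := hΔN.trans (mul_le_mul_of_nonneg_left hy hΔ.le)
  set h : ℕ := ⌈Δ * y⌉₊ with hh
  have hh1 : Δ * y ≤ h := Nat.le_ceil _
  have hh2 : (h : ℝ) ≤ 2 * (Δ * y) := by
    have := (Nat.ceil_lt_add_one (by positivity : 0 ≤ Δ * (y : ℝ))).le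
    linarith only [hΔy, this]
  have hhy : h ≤ y := by
    apply Nat.ceil_le.mpr
    nlinarith only [hΔ1]
  have hhy' : (h : ℝ) ≤ y := by exact_mod_cast hhy
  have hh0 : (0 : ℝ) < h := by linarith only [hΔy, hh1]
  have hL1 : 1 ≤ Real.log N := one_le_log (by omega)
  set M : ℝ := 2 ^ (m + 1) * Real.log N ^ (m + 1) with hM
  have hM0 : 0 ≤ M := by positivity
  have hterm : ∀ n, y < n → n ≤ y + h → ‖lg b m n‖ ≤ M := by
    intro n hn1 hn2
    have hn3 : (n : ℝ) ≤ 2 * N := by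
      have : (n : ℝ) ≤ y + h := by exact_mod_cast hn2
      linarith only [hyN', hhy', this]
    refine (term_le hb m (by omega) hn3).trans ?_
    rw [hM, ← mul_pow]
    refine pow_le_pow_left₀ (Real.log_nonneg (by linarith only [hN9])) ?_ _
    rw [Real.log_mul (by norm_num) (by linarith only [hN9])]
    have h2 : Real.log 2 ≤ 1 := by
      have := Real.log_two_lt_d9
      linarith only [this]
    linarith only [hL1, h2]
  have hR : ∀ x : ℕ, Real.sqrt N ≤ x → x ≤ 2 * N + 1 → ‖PS (lg b m) x‖ ≤ H * (x : ℝ) ^ 2 := by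
    intro x h1 h2
    refine PS_le ?_ (hx x h1 h2)
    have : (0 : ℝ) < x := lt_of_lt_of_le hs0 h1
    exact_mod_cast this
  have hD := PS_diff (lg b m) y h M hM0 hterm h le_rfl
  have hS1 := hR y hy (by omega)
  have hS2 := hR (y + h) (by push_cast; linarith only [hy, hΔy, hh1]) (by omega)
  have hkey : (h : ℝ) * ‖PA (lg b m) y‖ ≤ 5 * H * (y : ℝ) ^ 2 + (h : ℝ) ^ 2 * M := by
    have e : (h : ℂ) * PA (lg b m) y = PS (lg b m) (y + h) - PS (lg b m) y -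
        (PS (lg b m) (y + h) - PS (lg b m) y - h * PA (lg b m) y) := by ring
    have e2 : (h : ℝ) * ‖PA (lg b m) y‖ = ‖(h : ℂ) * PA (lg b m) y‖ := by
      rw [norm_mul, Complex.norm_natCast]
    rw [e2, e]
    refine (norm_sub_le _ _).trans ?_
    have h4 : ‖PS (lg b m) (y + h) - PS (lg b m) y‖ ≤
        H * ((y + h : ℕ) : ℝ) ^ 2 + H * (y : ℝ) ^ 2 :=
      (norm_sub_le _ _).trans (add_le_add hS2 hS1)
    have h5 : ((y + h : ℕ) : ℝ) ^ 2 ≤ 4 * (y : ℝ) ^ 2 := by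
      push_cast
      nlinarith only [hhy']
    have h6 : H * ((y + h : ℕ) : ℝ) ^ 2 ≤ H * (4 * (y : ℝ) ^ 2) :=
      mul_le_mul_of_nonneg_left h5 hH
    linarith only [hD, h4, h6]
  have hfin : ‖PA (lg b m) y‖ ≤ 5 * H * (y : ℝ) ^ 2 / h + h * M := by
    rw [← mul_le_mul_iff_of_pos_left hh0]
    refine hkey.trans (le_of_eq ?_)
    field_simp
  refine hfin.trans ?_
  have t1 : 5 * H * (y : ℝ) ^ 2 / h ≤ N * (5 * H / Δ) := by
    calc 5 * H * (y : ℝ) ^ 2 / h ≤ 5 * H * (y : ℝ) ^ 2 / (Δ * y) :=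
          div_le_div_of_nonneg_left (by (clear * - hH hypos; positivity)) (by (clear * - hΔ hypos; positivity)) hh1
      _ = y * (5 * H / Δ) := by field_simp
      _ ≤ N * (5 * H / Δ) := mul_le_mul_of_nonneg_right hyN' (by (clear * - hH hΔ; positivity))
  have t2 : (h : ℝ) * M ≤ N * (2 ^ (m + 2) * (Δ * Real.log N ^ (m + 1))) := by
    calc (h : ℝ) * M ≤ (2 * (Δ * N)) * M := by
          refine mul_le_mul_of_nonneg_right ?_ hM0
          have : Δ * (y : ℝ) ≤ Δ * N := mul_le_mul_of_nonneg_left hyN' hΔ.le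
          linarith only [hh2, this]
      _ = N * (2 ^ (m + 2) * (Δ * Real.log N ^ (m + 1))) := by
          rw [hM]
          ring
  rw [mul_add]
  linarith only [t1, t2]

end UnsmAux

open Pool.Agent.Lib.SW Pool.Agent.Lib.SW.Unsmooth UnsmAux

theorem unsm_vk (m : ℕ) : ∃ C : ℝ, 0 < C ∧ ∀ (b : ℕ → ℂ) (N : ℕ) (H Δ : ℝ), 9 ≤ N → 0 ≤ H → 0 < Δ → Δ ≤ 1 →
    1 ≤ Δ * Real.sqrt N → (∀ n, ‖b n‖ ≤ Real.log n) →
    (∀ x : ℕ, Real.sqrt N ≤ x → x ≤ 2 * N + 1 →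
      ‖∑ n ∈ Icc 1 x, b n * ((Real.log n : ℝ) : ℂ) ^ m * (1 - (n : ℂ) / (x : ℂ))‖ ≤ H * x) →
    ∀ y : ℕ, y ≤ N →
      ‖∑ n ∈ Icc 1 y, b n‖ ≤
        C * N * (H / (Δ * Real.log N ^ m) + Δ * Real.log N) + Real.sqrt N * Real.log N := by
  refine ⟨2 ^ (m + 1) * (5 + 2 ^ (m + 2)), by positivity, ?_⟩
  intro b N H Δ hN hH hΔ hΔ1 hΔN hb hx y hyN
  have hN9 : (9 : ℝ) ≤ N := by exact_mod_cast hN
  have hN0 : (0 : ℝ) < N := by linarith
  have hs0 : 0 < Real.sqrt N := Real.sqrt_pos.2 hN0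
  have hL1 : 1 ≤ Real.log N := one_le_log (by omega)
  have hL0 : 0 < Real.log N := by linarith only [hL1]
  set L := Real.log N with hL
  have hnn : 0 ≤ 2 ^ (m + 1) * (5 + 2 ^ (m + 2)) * N * (H / (Δ * L ^ m) + Δ * L) := by positivity
  change ‖PA b y‖ ≤ _
  -- the starting point
  set N₀ : ℕ := ⌈Real.sqrt N⌉₊ with hN₀
  have hN₀1 : Real.sqrt N ≤ N₀ := Nat.le_ceil _
  have hN₀2 : (N₀ : ℝ) < Real.sqrt N + 1 := Nat.ceil_lt_add_one hs0.le
  have hsN : Real.sqrt N ≤ N := by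
    rw [Real.sqrt_le_left hN0.le]
    nlinarith only [hN9]
  have hN₀N : N₀ ≤ N := Nat.ceil_le.mpr hsN
  have hs3 : 3 ≤ Real.sqrt N := by
    rw [show (3 : ℝ) = Real.sqrt (3 ^ 2) by rw [Real.sqrt_sq (by norm_num)]]
    exact Real.sqrt_le_sqrt (by linarith only [hN9])
  have hN₀3 : 3 ≤ N₀ := by
    have : (3 : ℝ) ≤ N₀ := hs3.trans hN₀1
    exact_mod_cast this
  have htriv : ∀ z : ℕ, z ≤ N₀ → ‖PA b z‖ ≤ Real.sqrt N * L := by
    intro z hz
    rcases Nat.eq_zero_or_pos z with rfl | hz0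
    · unfold PA
      simp
      positivity
    · have hz1 : (1 : ℝ) ≤ z := by exact_mod_cast hz0
      have hzN : (z : ℝ) ≤ N := by exact_mod_cast hz.trans hN₀N
      have hzN₀ : (z : ℝ) ≤ N₀ := by exact_mod_cast hz
      refine (triv hb z hz0).trans ?_
      refine mul_le_mul (by linarith only [hN₀2, hzN₀]) (Real.log_le_log (by linarith only [hz1]) hzN)
        (Real.log_nonneg hz1) hs0.le
  by_cases hy : y ≤ N₀
  · have := htriv y hy
    linarith only [hnn, this]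
  push Not at hy
  -- the main case
  set B : ℝ := N * (5 * H / Δ + 2 ^ (m + 2) * (Δ * L ^ (m + 1))) with hB
  have hB0 : 0 ≤ B := by (clear * - hN hH hΔ hL1; positivity)
  have hA : ∀ z : ℕ, N₀ ≤ z → z ≤ N → ‖PA (lg b m) z‖ ≤ B := by
    intro z h1 h2
    have h3 : (N₀ : ℝ) ≤ z := by exact_mod_cast h1
    exact PA_le m hN hH hΔ hΔ1 hΔN hb hx (hN₀1.trans h3) h2
  set a := lg b m with ha
  set w : ℕ → ℝ := fun n => ((Real.log n) ^ m)⁻¹ with hw
  set D : ℕ → ℂ := fun n => PA b n - PA a n * (w n : ℂ) with hD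
  have hstep : ∀ n, 3 ≤ n → D (n + 1) = D n + PA a n * ((w n - w (n + 1) : ℝ) : ℂ) := by
    intro n hn
    have hl : 1 ≤ Real.log (n + 1 : ℕ) := one_le_log (by omega)
    have hne : ((Real.log (n + 1 : ℕ) : ℝ) : ℂ) ^ m ≠ 0 := by
      apply pow_ne_zero
      rw [Complex.ofReal_ne_zero]
      linarith only [hl]
    have hb1 : a (n + 1) * (w (n + 1) : ℂ) = b (n + 1) := by
      simp only [ha, lg, hw]
      rw [Complex.ofReal_inv, Complex.ofReal_pow, mul_assoc, mul_inv_cancel₀ hne, mul_one]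
    simp only [hD]
    rw [PA_succ, PA_succ, Complex.ofReal_sub, ← hb1]
    ring
  have hwmono : ∀ n, 3 ≤ n → 0 ≤ w n - w (n + 1) := by
    intro n hn
    have h1 := one_le_log hn
    have hn3 : (3 : ℝ) ≤ n := by exact_mod_cast hn
    have h2 : Real.log n ≤ Real.log (n + 1 : ℕ) :=
      Real.log_le_log (by linarith only [hn3]) (by push_cast; linarith)
    simp only [hw]
    rw [sub_nonneg]
    apply inv_anti₀ (by (clear * - h1; positivity))
    exact pow_le_pow_left₀ (by linarith only [h1]) h2 _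
  have hw0 : ∀ n, 0 ≤ w n := by
    intro n
    simp only [hw]
    rcases Nat.eq_zero_or_pos n with rfl | hn
    · simp
    · have : (1 : ℝ) ≤ n := by exact_mod_cast hn
      have := Real.log_nonneg this
      (clear * -; positivity)
  have hDN : ∀ z, N₀ ≤ z → z ≤ N → ‖D z - D N₀‖ ≤ B * (w N₀ - w z) := by
    intro z hz
    induction z, hz using Nat.le_induction with
    | base => intro _; simp
    | succ n hn ih =>
      intro hnN
      rw [hstep n (by omega)]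
      have h1 := ih (by omega)
      have h2 : ‖PA a n * ((w n - w (n + 1) : ℝ) : ℂ)‖ ≤ B * (w n - w (n + 1)) := by
        rw [norm_mul, Complex.norm_real, Real.norm_of_nonneg (hwmono n (by omega))]
        exact mul_le_mul_of_nonneg_right (hA n hn (by omega)) (hwmono n (by omega))
      calc ‖D n + PA a n * ((w n - w (n + 1) : ℝ) : ℂ) - D N₀‖ =
          ‖(D n - D N₀) + PA a n * ((w n - w (n + 1) : ℝ) : ℂ)‖ := by
            congr 1
            ring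
        _ ≤ B * (w N₀ - w n) + B * (w n - w (n + 1)) :=
            (norm_add_le _ _).trans (add_le_add h1 h2)
        _ = B * (w N₀ - w (n + 1)) := by ring
  have hwN₀ : w N₀ ≤ 2 ^ m / L ^ m := by
    have h1 : L / 2 ≤ Real.log N₀ := by
      have h2 : Real.log (Real.sqrt N) = L / 2 := by rw [Real.log_sqrt hN0.le]
      rw [← h2]
      exact Real.log_le_log hs0 hN₀1
    simp only [hw]
    calc ((Real.log N₀) ^ m)⁻¹ ≤ ((L / 2) ^ m)⁻¹ :=
          inv_anti₀ (by (clear * - hL1; positivity)) (pow_le_pow_left₀ (by (clear * - hL1; positivity)) h1 _)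
      _ = 2 ^ m / L ^ m := by
          rw [div_pow, inv_div]
  have e1 : PA b y = (D y - D N₀) + PA a y * (w y : ℂ) - PA a N₀ * (w N₀ : ℂ) + PA b N₀ := by
    simp only [hD]
    ring
  have f1 := hDN y hy.le hyN
  have f2 : ‖PA a y * (w y : ℂ)‖ ≤ B * w y := by
    rw [norm_mul, Complex.norm_real, Real.norm_of_nonneg (hw0 y)]
    exact mul_le_mul_of_nonneg_right (hA y hy.le hyN) (hw0 y)
  have f3 : ‖PA a N₀ * (w N₀ : ℂ)‖ ≤ B * w N₀ := by
    rw [norm_mul, Complex.norm_real, Real.norm_of_nonneg (hw0 N₀)]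
    exact mul_le_mul_of_nonneg_right (hA N₀ le_rfl hN₀N) (hw0 N₀)
  have f4 := htriv N₀ le_rfl
  have f5 : ‖PA b y‖ ≤ 2 * (B * w N₀) + Real.sqrt N * L := by
    rw [e1]
    refine (norm_add_le _ _).trans ?_
    have g1 := norm_sub_le ((D y - D N₀) + PA a y * (w y : ℂ)) (PA a N₀ * (w N₀ : ℂ))
    have g2 := norm_add_le (D y - D N₀) (PA a y * (w y : ℂ))
    linarith only [f1, f2, f3, f4, g1, g2]
  refine f5.trans ?_
  have f6 : B * w N₀ ≤ B * (2 ^ m / L ^ m) := mul_le_mul_of_nonneg_left hwN₀ hB0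
  have f7 : 2 * (B * (2 ^ m / L ^ m)) ≤
      2 ^ (m + 1) * (5 + 2 ^ (m + 2)) * N * (H / (Δ * L ^ m) + Δ * L) := by
    have e2 : 2 * (B * (2 ^ m / L ^ m)) =
        2 ^ (m + 1) * N * (5 * (H / (Δ * L ^ m)) + 2 ^ (m + 2) * (Δ * L)) := by
      rw [hB]
      field_simp
      ring
    rw [e2]
    have e3 : 2 ^ (m + 1) * (5 + 2 ^ (m + 2)) * N * (H / (Δ * L ^ m) + Δ * L) =
        2 ^ (m + 1) * N * ((5 + 2 ^ (m + 2)) * (H / (Δ * L ^ m)) +
          (5 + 2 ^ (m + 2)) * (Δ * L)) := by ring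
    rw [e3]
    refine mul_le_mul_of_nonneg_left ?_ (by (clear * - hN; positivity))
    have g1 : 0 ≤ H / (Δ * L ^ m) := by (clear * - hH hΔ hL1; positivity)
    have g2 : 0 ≤ Δ * L := by (clear * - hΔ hL1; positivity)
    have g3 : (0 : ℝ) ≤ 2 ^ (m + 2) := by (clear * -; positivity)
    nlinarith only [g1, g2, g3, mul_nonneg g3 g1]
  linarith only [f6, f7]

end Pool.Agent.VK
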