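import Pool.Agent.Lib.VK.FBoundVK
import Pool.Agent.Lib.VK.RieszTwo
import Pool.Agent.Lib.VK.UnsmVK
import Pool.Agent.Lib.SW.PsiChi

/-!
# Primes twisted by `χ(n) n^(-iv)`: the Vinogradov-Korobov range

PROOF SKETCH. `λ = log N`, `b n = Λ(n) χ(n) n^(-iv)`, `m = 100 (A + 5)`, `Δ = λ^(-(A+2))`, `T = N^(C0+2)`, `ℓ = log T = (C0 + 2) λ`. For the sequence
`a n = b n (log n)^m`: `LSeries a s = Lm (lam (chf χ)) m (s + iv)`. For an integer `x` with `√N ≤ x ≤ 2N+1`, `σ = 1 + 1/log x` (`x ≥ 3`, `σ ≤ 2`):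
for `|y| ≤ |v|/2`: the height `|v + y|` is between `|v|/2 ≥ λ^B/2 ≥ ℓ^B0` (`B = B0 + 1`, `N` large) and `2 N^C0 ≤ T/8`: `f_bound_vk` (with `A + 1`
in place of `A`, or `A`, as `q ≤ λ^A ≤ ℓ^A`) gives
`H1 = C ℓ^(24/25 (m+2))`; for all `y` `f_triv` gives `H2 = C (log x)^(m+2) ≤ C (2λ)^(m+2)`. `riesz_two` with `V = |v|/2`:
`H = 2 (H1 + 2 H2/|v|) ≤ C' (λ^(24/25 (m+2)) + λ^(m+2-B))`. `unsm_vk`: the sum is at most
`C N (H λ^(A+2-m) + λ^(-(A+1))) + √N λ`, and `24/25 (m+2) + A + 2 - m = A + 2 + 48/25 - m/25 ≤ -(A+1)`, and `m + 2 - B + A + 2 - m ≤ -(A+1)` if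
`B ≥ 2A + 5`. For `N` large everything is `≤ N/λ^A`.
-/

set_option autoImplicit false

open Finset Filter Pool.Agent.Lib.SW

namespace Pool.Agent.VK

namespace PrimeAux

/-- the twisted sequence -/
noncomputable def tw (f : ℕ → ℂ) (v : ℝ) (n : ℕ) : ℂ :=
  f n * ((n : ℝ) : ℂ) ^ (-((v : ℂ) * Complex.I))

lemma norm_tw {f : ℕ → ℂ} (v : ℝ) {n : ℕ} (hn : 0 < n) : ‖tw f v n‖ = ‖f n‖ := by
  have hn' : (0 : ℝ) < n := by exact_mod_cast hn
  unfold tw
  rw [norm_mul, Complex.norm_cpow_eq_rpow_re_of_pos hn']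
  simp

lemma tw_term (f : ℕ → ℂ) (m : ℕ) (v : ℝ) (s : ℂ) (n : ℕ) :
    LSeries.term (lg (tw f v) m) s n = LSeries.term (lg f m) (s + v * Complex.I) n := by
  rcases eq_or_ne n 0 with rfl | hn
  · simp
  · rw [LSeries.term_of_ne_zero hn, LSeries.term_of_ne_zero hn]
    have hn' : (n : ℂ) ≠ 0 := by exact_mod_cast hn
    unfold lg tw
    rw [Complex.cpow_add _ _ hn', Complex.ofReal_natCast, Complex.cpow_neg]
    have h1 : (n : ℂ) ^ s ≠ 0 := by
      rw [Complex.cpow_ne_zero_iff]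
      exact Or.inl hn'
    have h2 : (n : ℂ) ^ ((v : ℂ) * Complex.I) ≠ 0 := by
      rw [Complex.cpow_ne_zero_iff]
      exact Or.inl hn'
    field_simp

lemma tw_LSeries (f : ℕ → ℂ) (m : ℕ) (v : ℝ) (s : ℂ) :
    LSeries (lg (tw f v) m) s = Lm f m (s + v * Complex.I) := by
  unfold Lm LSeries
  exact tsum_congr fun n => tw_term f m v s n

lemma tw_abscissa {f : ℕ → ℂ} (hf : LSeries.abscissaOfAbsConv f ≤ 1) (m : ℕ) (v : ℝ) :
    LSeries.abscissaOfAbsConv (lg (tw f v) m) ≤ 1 := by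
  apply LSeries.abscissaOfAbsConv_le_of_forall_lt_LSeriesSummable
  intro y hy
  have h1 : LSeriesSummable (lg f m) ((y : ℂ) + v * Complex.I) :=
    lg_summable hf m (by simpa using hy)
  unfold LSeriesSummable at h1 ⊢
  exact h1.congr fun n => (tw_term f m v y n).symm

end PrimeAux

open PrimeAux

/-- Primes twisted by `χ(n) n^(-iv)` for `(log N)^B ≤ |v| ≤ N^C0` and all characters modulo `q ≤ (log N)^A`. -/
theorem vk_prime (A C0 : ℕ) : ∃ B : ℕ, ∀ᶠ N : ℕ in atTop, ∀ (q : ℕ) [NeZero q] (χ : DirichletCharacter ℂ q),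
    (q : ℝ) ≤ Real.log N ^ A → ∀ v : ℝ, Real.log N ^ B ≤ |v| → |v| ≤ (N : ℝ) ^ C0 → ∀ y : ℕ, y ≤ N →
    ‖∑ n ∈ Icc 1 y, lam (chf χ) n * ((n : ℝ) : ℂ) ^ (-((v : ℂ) * Complex.I))‖ ≤ N / Real.log N ^ A := by
  obtain ⟨m, hm⟩ : ∃ m : ℕ, m = 100 * (A + 5) := ⟨_, rfl⟩
  obtain ⟨B0, C1, hC1, hF⟩ := f_bound_vk A m
  obtain ⟨C2, hC2, hT⟩ := f_triv m
  obtain ⟨C3, hC3, hU⟩ := unsm_vk m
  refine ⟨B0 + 2 * A + 10, ?_⟩
  obtain ⟨B, hB⟩ : ∃ B : ℕ, B = B0 + 2 * A + 10 := ⟨_, rfl⟩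
  rw [← hB]
  -- the constants
  obtain ⟨G, hG⟩ : ∃ G : ℝ, G = (C0 + 2 : ℝ) := ⟨_, rfl⟩
  have hG2 : 2 ≤ G := by
    rw [hG]
    have : (0 : ℝ) ≤ C0 := Nat.cast_nonneg _
    linarith
  obtain ⟨E, hE⟩ : ∃ E : ℝ, E = (24 / 25 : ℝ) * (m + 2) := ⟨_, rfl⟩
  rw [← hE] at hF
  have hE0 : 0 ≤ E := by rw [hE]; positivity
  obtain ⟨p, hp⟩ : ∃ p : ℕ, p = 96 * (A + 5) + 2 := ⟨_, rfl⟩
  have hE1 : E ≤ (p : ℝ) := by
    rw [hE, hm, hp]
    push_cast
    linarith
  obtain ⟨c1, hc1⟩ : ∃ c : ℝ, c = C3 * (2 * (C1 * G ^ E)) := ⟨_, rfl⟩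
  obtain ⟨c2, hc2⟩ : ∃ c : ℝ, c = C3 * (4 * (C2 * 2 ^ (m + 2))) := ⟨_, rfl⟩
  obtain ⟨c4, hc4⟩ : ∃ c : ℝ, c = 2 ^ (A + 2) * ((A + 2).factorial : ℝ) := ⟨_, rfl⟩
  obtain ⟨c5, hc5⟩ : ∃ c : ℝ, c = 2 ^ (A + 3) * ((A + 3).factorial : ℝ) := ⟨_, rfl⟩
  have hGE : 0 < G ^ E := Real.rpow_pos_of_pos (by linarith only [hG]) _
  have hc1p : 0 < c1 := by rw [hc1]; positivity
  have hc2p : 0 < c2 := by rw [hc2]; positivity
  have hc4p : 0 < c4 := by rw [hc4]; positivity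
  have hc5p : 0 < c5 := by rw [hc5]; positivity
  obtain ⟨K, hK⟩ : ∃ K : ℝ, K = 2 + 4 * c1 + 4 * c2 + 4 * C3 + 4 * c4 + c5 + 2 * G ^ B0 := ⟨_, rfl⟩
  have hGB : 0 < G ^ B0 := by positivity
  have hlog : Tendsto (fun N : ℕ => Real.log N) atTop atTop :=
    Real.tendsto_log_atTop.comp tendsto_natCast_atTop_atTop
  have hTt : Tendsto (fun N : ℕ => (N : ℝ) ^ (C0 + 2)) atTop atTop :=
    (tendsto_pow_atTop (by omega)).comp tendsto_natCast_atTop_atTop
  filter_upwards [hlog.eventually_ge_atTop K, hTt.eventually hF, eventually_ge_atTop 9]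
    with N hNK hFN hN9
  intro q _ χ hq v hv1 hv2 y hyN
  set L := Real.log N with hL
  have hN9' : (9 : ℝ) ≤ N := by exact_mod_cast hN9
  have hN0 : (0 : ℝ) < N := by linarith only [hN9']
  have hK' : 2 ≤ L ∧ 4 * c1 ≤ L ∧ 4 * c2 ≤ L ∧ 4 * C3 ≤ L ∧ 4 * c4 ≤ L ∧ c5 ≤ L ∧
      2 * G ^ B0 ≤ L := by
    rw [hK] at hNK
    refine ⟨?_, ?_, ?_, ?_, ?_, ?_, ?_⟩ <;> linarith only [hC3, hc1p, hc2p, hc4p, hc5p, hGB, hNK]
  obtain ⟨hL2, hLc1, hLc2, hLC3, hLc4, hLc5, hLG⟩ := hK'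
  have hL1 : 1 ≤ L := by linarith only [hC3, hc1p, hc2p, hc4p, hc5p, hK, hGB, hNK]
  have hL0 : 0 < L := by linarith only [hC3, hc1p, hc2p, hc4p, hc5p, hK, hGB, hNK]
  -- the height `T`
  set T : ℝ := (N : ℝ) ^ (C0 + 2) with hTdef
  have hlogT : Real.log T = G * L := by
    rw [hTdef, Real.log_pow, hG]
    push_cast
    ring
  have hqT : (q : ℝ) ≤ Real.log T ^ A := by
    refine hq.trans ?_
    rw [hlogT]
    exact pow_le_pow_left₀ hL0.le (le_mul_of_one_le_left hL0.le (by linarith only [hG])) _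
  have hv0 : 0 < |v| := lt_of_lt_of_le (by (clear * - hL2; positivity)) hv1
  have hLB : L ≤ L ^ B := by
    calc L = L ^ 1 := (pow_one L).symm
      _ ≤ L ^ B := pow_le_pow_right₀ hL1 (by omega)
  have hV1 : 1 ≤ |v| / 2 := by linarith only [hC3, hc1p, hc2p, hc4p, hc5p, hK, hGB, hNK, hv1, hLB]
  -- the sequence
  set b : ℕ → ℂ := tw (lam (chf χ)) v with hb
  have hbn : ∀ n, ‖b n‖ ≤ Real.log n := by
    intro n
    rcases Nat.eq_zero_or_pos n with rfl | hn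
    · simp [hb, tw, lam]
    · rw [hb, norm_tw v hn]
      exact lam_norm_le (norm_chf_le χ) n
  set H1 : ℝ := C1 * Real.log T ^ E with hH1
  set H2 : ℝ := C2 * (2 * L) ^ (m + 2) with hH2
  have hH10 : 0 ≤ H1 := mul_nonneg hC1.le (Real.rpow_nonneg (by rw [hlogT]; (clear * - hG2 hL2; positivity)) _)
  have hH20 : 0 ≤ H2 := by (clear * - hC2 hL2; positivity)
  set H : ℝ := 2 * (H1 + H2 / (L ^ B / 2)) with hH
  have hH0 : 0 ≤ H := by (clear * - hC2 hL2 hH10; positivity)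
  have hsN3 : 3 ≤ Real.sqrt N := by
    rw [show (3 : ℝ) = Real.sqrt (3 ^ 2) by rw [Real.sqrt_sq (by norm_num)]]
    exact Real.sqrt_le_sqrt (by linarith only [hN9'])
  have hriesz : ∀ x : ℕ, Real.sqrt N ≤ x → x ≤ 2 * N + 1 →
      ‖∑ n ∈ Icc 1 x, b n * ((Real.log n : ℝ) : ℂ) ^ m * (1 - (n : ℂ) / (x : ℂ))‖ ≤ H * x := by
    intro x hx1 hx2
    have hx3 : (3 : ℝ) ≤ x := hsN3.trans hx1
    have hx0 : (0 : ℝ) < x := by linarith only [hsN3, hx1]
    have hx3' : 3 ≤ x := by exact_mod_cast hx3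
    have hlx1 : 1 ≤ Real.log x := Unsmooth.one_le_log hx3'
    have hlx2 : Real.log x ≤ 2 * L := by
      have h1 : (x : ℝ) ≤ N * N := by
        have h0 : (x : ℝ) ≤ 2 * N + 1 := by exact_mod_cast hx2
        calc (x : ℝ) ≤ 2 * N + 1 := h0
          _ ≤ 9 * N := by linarith only [hN9']
          _ ≤ N * N := mul_le_mul_of_nonneg_right hN9' hN0.le
      have h2 := Real.log_le_log hx0 h1
      rw [Real.log_mul hN0.ne' hN0.ne'] at h2
      linarith only [h2]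
    have hσ1 : 0 < 1 / Real.log x := by (clear * - hlx1; positivity)
    have hσ2 : 1 / Real.log x ≤ 1 := by
      rw [div_le_one (by linarith only [hlx1])]
      exact hlx1
    have hre : ∀ y : ℝ, ((((1 + 1 / Real.log x : ℝ) : ℂ) + y * Complex.I) +
        v * Complex.I).re = 1 + 1 / Real.log x := by
      intro y
      simp only [Complex.add_re, Complex.ofReal_re, Complex.mul_re, Complex.ofReal_im, Complex.I_re,
        Complex.I_im]
      ring
    have him : ∀ y : ℝ, ((((1 + 1 / Real.log x : ℝ) : ℂ) + y * Complex.I) +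
        v * Complex.I).im = y + v := by
      intro y
      simp only [Complex.add_im, Complex.ofReal_re, Complex.mul_im, Complex.ofReal_im, Complex.I_re,
        Complex.I_im]
      ring
    have h := riesz_two (lg b m) (tw_abscissa (abscissa_lam_chf χ) m v) (x : ℝ) H1 H2 (|v| / 2)
      hx3 hH10 hH20 hV1 (by
        intro y hy
        rw [hb, tw_LSeries]
        refine hFN q χ hqT _ ?_ ?_ ?_ ?_
        · rw [hre]
          linarith only [hσ1]
        · rw [hre]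
          linarith only [hσ2]
        · rw [him]
          have h1 : |v| / 2 ≤ |y + v| := by
            have := abs_sub_abs_le_abs_add v y
            rw [add_comm v y] at this
            linarith only [hy, this]
          refine le_trans ?_ h1
          rw [hlogT, mul_pow]
          have h2 : L ^ (B0 + 1) ≤ L ^ B := pow_le_pow_right₀ hL1 (by omega)
          have h3 : G ^ B0 * L ^ B0 ≤ L ^ (B0 + 1) / 2 := by
            rw [pow_succ]
            have h4 : 0 ≤ L ^ B0 := by (clear * - hL2; positivity)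
            have h5 : G ^ B0 ≤ L / 2 := by linarith only [hC3, hc1p, hc2p, hc4p, hc5p, hK, hNK]
            calc G ^ B0 * L ^ B0 ≤ L / 2 * L ^ B0 := mul_le_mul_of_nonneg_right h5 h4
              _ = L ^ B0 * L / 2 := by ring
          linarith only [hv1, h2, h3]
        · rw [him]
          have h1 : |y + v| ≤ 3 / 2 * |v| := by
            have := abs_add_le y v
            linarith only [hy, this]
          refine h1.trans ?_
          rw [hTdef, pow_add]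
          have h2 : (81 : ℝ) ≤ (N : ℝ) ^ 2 := by
            calc (81 : ℝ) = 9 ^ 2 := by norm_num
              _ ≤ (N : ℝ) ^ 2 := pow_le_pow_left₀ (by norm_num) hN9' 2
          have h3 : 0 ≤ (N : ℝ) ^ C0 := by (clear * - hN9; positivity)
          calc 3 / 2 * |v| ≤ 3 / 2 * (N : ℝ) ^ C0 := mul_le_mul_of_nonneg_left hv2 (by norm_num)
            _ ≤ (N : ℝ) ^ C0 * 81 / 8 := by linarith only [hC3, hc1p, hc2p, hc4p, hc5p, hK, hGB, hv2, hNK, hv1, hLB]
            _ ≤ (N : ℝ) ^ C0 * (N : ℝ) ^ 2 / 8 := by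
                refine div_le_div_of_nonneg_right ?_ (by norm_num)
                exact mul_le_mul_of_nonneg_left h2 h3) (by
        intro y
        rw [hb, tw_LSeries]
        refine (hT q χ _ ?_ ?_).trans ?_
        · rw [hre]
          linarith only [hσ1]
        · rw [hre]
          linarith only [hσ2]
        · rw [hre, hH2]
          refine mul_le_mul_of_nonneg_left ?_ hC2.le
          have h1 : 1 / (1 + 1 / Real.log x - 1) = Real.log x := by
            rw [add_sub_cancel_left, one_div_one_div]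
          rw [h1]
          exact pow_le_pow_left₀ (by linarith only [hlx1]) hlx2 _)
    rw [Nat.floor_natCast] at h
    have h5 : ∑ n ∈ Icc 1 x, b n * ((Real.log n : ℝ) : ℂ) ^ m * (1 - (n : ℂ) / (x : ℂ)) =
        ∑ n ∈ Icc 1 x, lg b m n * (1 - (n : ℂ) / (((x : ℕ) : ℝ) : ℂ)) := by
      refine Finset.sum_congr rfl fun n _ => ?_
      rw [Complex.ofReal_natCast]
      rfl
    rw [h5]
    refine h.trans ?_
    rw [hH]
    refine mul_le_mul_of_nonneg_right ?_ hx0.le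
    have h6 : H2 / (|v| / 2) ≤ H2 / (L ^ B / 2) :=
      div_le_div_of_nonneg_left hH20 (by (clear * - hL2; positivity)) (by linarith only [hv1])
    linarith only [h6]
  -- unsmoothing
  have hs0 : 0 < Real.sqrt N := by linarith only [hsN3]
  have hlp4 : L ^ (A + 2) ≤ c4 * Real.sqrt N := by
    rw [hc4]
    exact Unsmooth.logpow_le (A + 2) (by linarith only [hN9'])
  have hlp5 : L ^ (A + 3) ≤ c5 * Real.sqrt N := by
    rw [hc5]
    exact Unsmooth.logpow_le (A + 3) (by linarith only [hN9'])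
  have hΔs : L ^ (A + 2) ≤ Real.sqrt N := by
    have h1 : L ^ (A + 2) * L ≤ Real.sqrt N * L := by
      calc L ^ (A + 2) * L = L ^ (A + 3) := by ring
        _ ≤ c5 * Real.sqrt N := hlp5
        _ ≤ L * Real.sqrt N := mul_le_mul_of_nonneg_right hLc5 hs0.le
        _ = Real.sqrt N * L := mul_comm _ _
    exact le_of_mul_le_mul_right h1 hL0
  have hPA2 : 0 < L ^ (A + 2) := by (clear * - hL2; positivity)
  have hmain := hU b N H (L ^ (A + 2))⁻¹ hN9 hH0 (inv_pos.2 hPA2)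
    (inv_le_one_of_one_le₀ (one_le_pow₀ hL1)) (by
      rw [inv_mul_eq_div, one_le_div hPA2]
      exact hΔs) hbn hriesz y hyN
  change ‖∑ n ∈ Icc 1 y, b n‖ ≤ _
  refine hmain.trans ?_
  rw [← hL]
  -- the final estimate
  have hLA : 0 < L ^ A := by (clear * - hL2; positivity)
  rw [le_div_iff₀ hLA]
  have hNs : Real.sqrt N * Real.sqrt N = N := Real.mul_self_sqrt hN0.le
  -- part 4
  have p4 : Real.sqrt N * L * L ^ A ≤ N * (1 / 4) := by
    have h1 : L ^ (A + 2) * 4 ≤ Real.sqrt N * L := by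
      calc L ^ (A + 2) * 4 ≤ c4 * Real.sqrt N * 4 := by linarith only [hlp4]
        _ = 4 * c4 * Real.sqrt N := by ring
        _ ≤ L * Real.sqrt N := mul_le_mul_of_nonneg_right hLc4 hs0.le
        _ = Real.sqrt N * L := mul_comm _ _
    have h2 : L ^ (A + 1) * 4 ≤ Real.sqrt N := by
      have h3 : (L ^ (A + 1) * 4) * L ≤ Real.sqrt N * L := by
        calc (L ^ (A + 1) * 4) * L = L ^ (A + 2) * 4 := by ring
          _ ≤ _ := h1
      exact le_of_mul_le_mul_right h3 hL0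
    calc Real.sqrt N * L * L ^ A = Real.sqrt N * (L ^ (A + 1) * 4) * (1 / 4) := by ring
      _ ≤ Real.sqrt N * Real.sqrt N * (1 / 4) := by
          refine mul_le_mul_of_nonneg_right ?_ (by norm_num)
          exact mul_le_mul_of_nonneg_left h2 hs0.le
      _ = N * (1 / 4) := by rw [hNs]
  -- part 3
  have p3 : C3 * ((L ^ (A + 2))⁻¹ * L) * L ^ A ≤ 1 / 4 := by
    have e : C3 * ((L ^ (A + 2))⁻¹ * L) * L ^ A = C3 / L := by
      rw [pow_add]
      field_simp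
    rw [e, div_le_div_iff₀ hL0 (by norm_num)]
    linarith only [hc1p, hc2p, hc4p, hc5p, hK, hGB, hNK]
  -- part 1
  have hTE : Real.log T ^ E ≤ G ^ E * L ^ p := by
    rw [hlogT, Real.mul_rpow (by linarith only [hG]) hL0.le]
    refine mul_le_mul_of_nonneg_left ?_ hGE.le
    rw [← Real.rpow_natCast]
    exact Real.rpow_le_rpow_of_exponent_le hL1 hE1
  have p1 : C3 * (2 * H1 / ((L ^ (A + 2))⁻¹ * L ^ m)) * L ^ A ≤ 1 / 4 := by
    have h1 : C3 * (2 * H1 / ((L ^ (A + 2))⁻¹ * L ^ m)) * L ^ A ≤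
        C3 * (2 * (C1 * (G ^ E * L ^ p)) / ((L ^ (A + 2))⁻¹ * L ^ m)) * L ^ A := by
      rw [hH1]
      gcongr
    refine h1.trans ?_
    have e : C3 * (2 * (C1 * (G ^ E * L ^ p)) / ((L ^ (A + 2))⁻¹ * L ^ m)) *
        L ^ A = c1 * (L ^ (p + (2 * A + 2)) / L ^ m) := by
      have e1 : L ^ (p + (2 * A + 2)) = L ^ p * L ^ (A + 2) * L ^ A := by
        rw [← pow_add, ← pow_add]
        congr 1
        omega
      rw [e1, hc1]
      field_simp
    rw [e]
    have h2 : L ^ (p + (2 * A + 2)) / L ^ m ≤ 1 / L := by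
      rw [div_le_div_iff₀ (by (clear * - hL2; positivity)) hL0, one_mul, ← pow_succ]
      exact pow_le_pow_right₀ hL1 (by omega)
    calc c1 * (L ^ (p + (2 * A + 2)) / L ^ m) ≤ c1 * (1 / L) := mul_le_mul_of_nonneg_left h2 hc1p.le
      _ ≤ 1 / 4 := by
          rw [mul_one_div, div_le_div_iff₀ hL0 (by norm_num)]
          linarith only [hC3, hc2p, hc4p, hc5p, hK, hGB, hNK]
  -- part 2
  have p2 : C3 * (2 * (H2 / (L ^ B / 2)) / ((L ^ (A + 2))⁻¹ * L ^ m)) * L ^ A ≤ 1 / 4 := by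
    have e : C3 * (2 * (H2 / (L ^ B / 2)) / ((L ^ (A + 2))⁻¹ * L ^ m)) * L ^ A =
        c2 * (L ^ (2 * A + 4) / L ^ B) := by
      have e1 : L ^ (2 * A + 4) * L ^ m = L ^ (m + 2) * L ^ (A + 2) * L ^ A := by
        rw [← pow_add, ← pow_add, ← pow_add]
        congr 1
        ring
      have e2 : c2 * (L ^ (2 * A + 4) / L ^ B) = c2 * ((L ^ (2 * A + 4) * L ^ m) / (L ^ B * L ^ m)) := by
        field_simp
      rw [e2, e1, hc2, hH2, mul_pow]
      field_simp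
      ring
    rw [e]
    have h2 : L ^ (2 * A + 4) / L ^ B ≤ 1 / L := by
      rw [div_le_div_iff₀ (by (clear * - hL2; positivity)) hL0, one_mul, ← pow_succ]
      exact pow_le_pow_right₀ hL1 (by omega)
    calc c2 * (L ^ (2 * A + 4) / L ^ B) ≤ c2 * (1 / L) := mul_le_mul_of_nonneg_left h2 hc2p.le
      _ ≤ 1 / 4 := by
          rw [mul_one_div, div_le_div_iff₀ hL0 (by norm_num)]
          linarith only [hC3, hc1p, hc4p, hc5p, hK, hGB, hNK]
  have e : (C3 * N * (H / ((L ^ (A + 2))⁻¹ * L ^ m) + (L ^ (A + 2))⁻¹ * L) + Real.sqrt N * L) * L ^ A =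
      N * (C3 * (2 * H1 / ((L ^ (A + 2))⁻¹ * L ^ m)) * L ^ A +
        C3 * (2 * (H2 / (L ^ B / 2)) / ((L ^ (A + 2))⁻¹ * L ^ m)) * L ^ A +
        C3 * ((L ^ (A + 2))⁻¹ * L) * L ^ A) + Real.sqrt N * L * L ^ A := by
    rw [hH]
    ring
  rw [e]
  have h9 : N * (C3 * (2 * H1 / ((L ^ (A + 2))⁻¹ * L ^ m)) * L ^ A +
        C3 * (2 * (H2 / (L ^ B / 2)) / ((L ^ (A + 2))⁻¹ * L ^ m)) * L ^ A +
        C3 * ((L ^ (A + 2))⁻¹ * L) * L ^ A) ≤ N * (3 / 4) :=
    mul_le_mul_of_nonneg_left (by linarith only [p3, p1, p2]) hN0.le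
  linarith only [p4, h9]

end Pool.Agent.VK
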