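import Pool.Agent.Lib.VK.DefsC
import Pool.Agent.Lib.P4f18dfS.MV

/-!
# Gaussian windows on the multiplicative line

PROOF SKETCH. Expand both sides (finite sums). For positive integers `m, n`, with `λ = log m - log n`:
`∫ gs σ (v - log m) gs σ (v - log n) dv = exp (-λ^2/(4σ^2))/(2 σ √π)` (complete the square) and
`∫ exp (-σ^2 t^2) (m/n)^(-it) dt = (√π/σ) exp (-λ^2/(4 σ^2))` (`P4f18dfS.MVAux.gauss_int`, or `fourierIntegral_gaussian`). Hence
`∫ |sum c n gs σ (v - log n)|^2 dv = (1/2π) ∫ |sum c n n^(-it)|^2 exp (-σ^2 t^2) dt`. Bound `exp (-σ^2 t^2) ≤ 1` for `|t| ≤ T` and for `|t| > T`: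
`exp (-σ^2 t^2) ≤ exp (-σ^2 T^2/2) exp (-σ^2 t^2/2)`, `|sum|^2 ≤ (sum |c n|)^2`, `∫ exp (-σ^2 t^2/2) dt = √(2π)/σ`.
-/

set_option autoImplicit false

open Finset MeasureTheory

namespace Pool.Agent.VK

namespace GaussWinAux

open Pool.Agent.P4f18dfS (wt)
open Pool.Agent.P4f18dfS.MVAux (gauss_int wt_integrable wt_integrableC norm_exp_I)

lemma nit_eq {n : ℕ} (hn : 1 ≤ n) (t : ℝ) :
    nit n t = Complex.exp (-(Complex.I * (Real.log n : ℂ) * t)) := by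
  unfold nit
  have hn0 : (0:ℝ) < n := by exact_mod_cast hn
  have h0 : ((n:ℝ) : ℂ) ≠ 0 := by exact_mod_cast hn0.ne'
  rw [Complex.cpow_def_of_ne_zero h0, ← Complex.ofReal_log hn0.le]
  congr 1
  ring

lemma nit_continuous {n : ℕ} (hn : 1 ≤ n) : Continuous (fun t : ℝ => nit n t) := by
  have : (fun t : ℝ => nit n t) = fun t : ℝ => Complex.exp (-(Complex.I * (Real.log n : ℂ) * t)) := by
    funext t
    exact nit_eq hn t
  rw [this]
  exact Complex.continuous_exp.comp ((continuous_const.mul Complex.continuous_ofReal).neg)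

lemma gs_mul {σ : ℝ} (hσ : 0 < σ) (a b v : ℝ) :
    gs σ (v - a) * gs σ (v - b) =
      (Real.exp (-((a - b) ^ 2 / (4 * σ ^ 2))) / (2 * Real.pi * σ ^ 2)) * wt ((a + b) / 2) σ v := by
  unfold gs wt
  have hpi := Real.pi_pos
  have h2 : Real.sqrt (2 * Real.pi) * Real.sqrt (2 * Real.pi) = 2 * Real.pi :=
    Real.mul_self_sqrt (by positivity)
  have h3 : Real.exp (-((v - a) ^ 2 / (2 * σ ^ 2))) * Real.exp (-((v - b) ^ 2 / (2 * σ ^ 2))) =
      Real.exp (-((a - b) ^ 2 / (4 * σ ^ 2))) * Real.exp (-((v - (a + b) / 2) / σ) ^ 2) := by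
    rw [← Real.exp_add, ← Real.exp_add]
    congr 1
    field_simp
    ring
  calc Real.exp (-((v - a) ^ 2 / (2 * σ ^ 2))) / (σ * Real.sqrt (2 * Real.pi)) *
      (Real.exp (-((v - b) ^ 2 / (2 * σ ^ 2))) / (σ * Real.sqrt (2 * Real.pi))) =
      (Real.exp (-((v - a) ^ 2 / (2 * σ ^ 2))) * Real.exp (-((v - b) ^ 2 / (2 * σ ^ 2)))) /
        ((Real.sqrt (2 * Real.pi) * Real.sqrt (2 * Real.pi)) * σ ^ 2) := by
        field_simp
    _ = _ := by
        rw [h3, h2]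
        ring

lemma wt_int {σ : ℝ} (hσ : 0 < σ) (τ : ℝ) : ∫ t : ℝ, wt τ σ t = Real.sqrt Real.pi * σ := by
  have h := gauss_int hσ τ 0
  simp only [Complex.ofReal_zero, mul_zero, zero_mul, neg_zero, Complex.exp_zero, mul_one,
    one_mul] at h
  rw [integral_complex_ofReal] at h
  have h2 : ((∫ t : ℝ, wt τ σ t : ℝ) : ℂ) = ((Real.sqrt Real.pi * σ : ℝ) : ℂ) := by
    rw [h]
    norm_num
  exact_mod_cast h2

lemma gs_mul_integrable {σ : ℝ} (hσ : 0 < σ) (a b : ℝ) :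
    Integrable (fun v : ℝ => gs σ (v - a) * gs σ (v - b)) := by
  refine ((wt_integrable hσ ((a + b) / 2)).const_mul
    (Real.exp (-((a - b) ^ 2 / (4 * σ ^ 2))) / (2 * Real.pi * σ ^ 2))).congr
    (Filter.Eventually.of_forall fun v => (gs_mul hσ a b v).symm)

lemma gs_mul_int {σ : ℝ} (hσ : 0 < σ) (a b : ℝ) :
    ∫ v : ℝ, gs σ (v - a) * gs σ (v - b) =
      Real.exp (-((a - b) ^ 2 / (4 * σ ^ 2))) / (2 * Real.pi * σ ^ 2) * (Real.sqrt Real.pi * σ) := by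
  simp_rw [gs_mul hσ a b]
  rw [integral_const_mul, wt_int hσ]

/-- pointwise expansion of the Gaussian side -/
lemma expF (S : Finset ℕ) (c : ℕ → ℂ) (σ v : ℝ) :
    ((‖∑ n ∈ S, c n * (gs σ (v - Real.log n) : ℂ)‖ ^ 2 : ℝ) : ℂ) =
      ∑ m ∈ S, ∑ n ∈ S, (c m * (starRingEnd ℂ) (c n)) *
        ((gs σ (v - Real.log m) * gs σ (v - Real.log n) : ℝ) : ℂ) := by
  rw [← Complex.normSq_eq_norm_sq, ← Complex.mul_conj, map_sum, Finset.sum_mul_sum]
  refine Finset.sum_congr rfl fun m _ => Finset.sum_congr rfl fun n _ => ?_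
  rw [map_mul, Complex.conj_ofReal]
  push_cast
  ring

lemma expG (S : Finset ℕ) (hS : ∀ n ∈ S, 1 ≤ n) (c : ℕ → ℂ) (t : ℝ) :
    ((‖∑ n ∈ S, c n * nit n t‖ ^ 2 : ℝ) : ℂ) =
      ∑ m ∈ S, ∑ n ∈ S, (c m * (starRingEnd ℂ) (c n)) *
        Complex.exp (-(Complex.I * ((Real.log m - Real.log n : ℝ) : ℂ) * t)) := by
  rw [← Complex.normSq_eq_norm_sq, ← Complex.mul_conj, map_sum, Finset.sum_mul_sum]
  refine Finset.sum_congr rfl fun m hm => Finset.sum_congr rfl fun n hn => ?_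
  rw [map_mul, nit_eq (hS m hm), nit_eq (hS n hn), ← Complex.exp_conj]
  have h : (starRingEnd ℂ) (-(Complex.I * (Real.log n : ℂ) * t)) =
      Complex.I * (Real.log n : ℂ) * t := by
    simp only [map_neg, map_mul, Complex.conj_I, Complex.conj_ofReal]
    ring
  rw [h]
  have h2 : Complex.exp (-(Complex.I * ((Real.log m - Real.log n : ℝ) : ℂ) * t)) =
      Complex.exp (-(Complex.I * (Real.log m : ℂ) * t)) * Complex.exp (Complex.I * (Real.log n : ℂ) * t) := by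
    rw [← Complex.exp_add]
    congr 1
    push_cast
    ring
  rw [h2]
  ring

lemma integrableF (S : Finset ℕ) (c : ℕ → ℂ) {σ : ℝ} (hσ : 0 < σ) :
    Integrable (fun v : ℝ => ‖∑ n ∈ S, c n * (gs σ (v - Real.log n) : ℂ)‖ ^ 2) := by
  have h1 : Integrable (fun v : ℝ => ∑ m ∈ S, ∑ n ∈ S, (c m * (starRingEnd ℂ) (c n)) *
        ((gs σ (v - Real.log m) * gs σ (v - Real.log n) : ℝ) : ℂ)) := by
    refine integrable_finsetSum _ fun m _ => integrable_finsetSum _ fun n _ => ?_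
    exact ((gs_mul_integrable hσ _ _).ofReal).const_mul _
  have h2 : Integrable (fun v : ℝ => ((‖∑ n ∈ S, c n * (gs σ (v - Real.log n) : ℂ)‖ ^ 2 : ℝ) : ℂ)) :=
    h1.congr (Filter.Eventually.of_forall fun v => (expF S c σ v).symm)
  have h3 := h2.re
  refine h3.congr (Filter.Eventually.of_forall fun v => ?_)
  simp only [RCLike.re_to_complex, Complex.ofReal_re]

lemma integralF (S : Finset ℕ) (c : ℕ → ℂ) {σ : ℝ} (hσ : 0 < σ) :
    ((∫ v : ℝ, ‖∑ n ∈ S, c n * (gs σ (v - Real.log n) : ℂ)‖ ^ 2 : ℝ) : ℂ) =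
      ∑ m ∈ S, ∑ n ∈ S, (c m * (starRingEnd ℂ) (c n)) *
        ((Real.exp (-((Real.log m - Real.log n) ^ 2 / (4 * σ ^ 2))) / (2 * Real.pi * σ ^ 2) *
          (Real.sqrt Real.pi * σ) : ℝ) : ℂ) := by
  rw [← integral_complex_ofReal]
  simp_rw [expF S c σ]
  rw [integral_finsetSum]
  · refine Finset.sum_congr rfl fun m _ => ?_
    rw [integral_finsetSum]
    · refine Finset.sum_congr rfl fun n _ => ?_
      rw [integral_const_mul, integral_complex_ofReal, gs_mul_int hσ]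
    · intro n _
      exact ((gs_mul_integrable hσ _ _).ofReal).const_mul _
  · intro m _
    exact integrable_finsetSum _ fun n _ => ((gs_mul_integrable hσ _ _).ofReal).const_mul _

lemma hint {Δ : ℝ} (hΔ : 0 < Δ) (x : ℝ) :
    Integrable (fun t : ℝ => (wt 0 Δ t : ℂ) * Complex.exp (-(Complex.I * (x : ℂ) * t))) := by
  have h2 : Integrable (fun t : ℝ => Complex.exp (-(Complex.I * (x : ℂ) * t)) * (wt 0 Δ t : ℂ)) := by
    refine (wt_integrableC hΔ 0).bdd_mul (c := 1) ?_ ?_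
    · apply Continuous.aestronglyMeasurable
      exact Complex.continuous_exp.comp
        ((continuous_const.mul Complex.continuous_ofReal).neg)
    · exact Filter.Eventually.of_forall fun t => (norm_exp_I x t).le
  exact h2.congr (Filter.Eventually.of_forall fun t => mul_comm _ _)

lemma expG' (S : Finset ℕ) (hS : ∀ n ∈ S, 1 ≤ n) (c : ℕ → ℂ) (Δ t : ℝ) :
    ((wt 0 Δ t * ‖∑ n ∈ S, c n * nit n t‖ ^ 2 : ℝ) : ℂ) =
      ∑ m ∈ S, ∑ n ∈ S, (c m * (starRingEnd ℂ) (c n)) *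
        ((wt 0 Δ t : ℂ) * Complex.exp (-(Complex.I * ((Real.log m - Real.log n : ℝ) : ℂ) * t))) := by
  rw [Complex.ofReal_mul, expG S hS c t, Finset.mul_sum]
  refine Finset.sum_congr rfl fun m _ => ?_
  rw [Finset.mul_sum]
  refine Finset.sum_congr rfl fun n _ => ?_
  ring

lemma integrableG (S : Finset ℕ) (hS : ∀ n ∈ S, 1 ≤ n) (c : ℕ → ℂ) {Δ : ℝ} (hΔ : 0 < Δ) :
    Integrable (fun t : ℝ => wt 0 Δ t * ‖∑ n ∈ S, c n * nit n t‖ ^ 2) := by
  have h1 : Integrable (fun t : ℝ => ∑ m ∈ S, ∑ n ∈ S, (c m * (starRingEnd ℂ) (c n)) *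
        ((wt 0 Δ t : ℂ) * Complex.exp (-(Complex.I * ((Real.log m - Real.log n : ℝ) : ℂ) * t)))) := by
    refine integrable_finsetSum _ fun m _ => integrable_finsetSum _ fun n _ => ?_
    exact (hint hΔ _).const_mul _
  have h2 : Integrable (fun t : ℝ => ((wt 0 Δ t * ‖∑ n ∈ S, c n * nit n t‖ ^ 2 : ℝ) : ℂ)) :=
    h1.congr (Filter.Eventually.of_forall fun t => (expG' S hS c Δ t).symm)
  refine h2.re.congr (Filter.Eventually.of_forall fun v => ?_)
  simp only [RCLike.re_to_complex, Complex.ofReal_re]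

lemma integralG (S : Finset ℕ) (hS : ∀ n ∈ S, 1 ≤ n) (c : ℕ → ℂ) {Δ : ℝ} (hΔ : 0 < Δ) :
    ((∫ t : ℝ, wt 0 Δ t * ‖∑ n ∈ S, c n * nit n t‖ ^ 2 : ℝ) : ℂ) =
      ∑ m ∈ S, ∑ n ∈ S, (c m * (starRingEnd ℂ) (c n)) *
        ((Real.sqrt Real.pi * Δ * Real.exp (-(Δ ^ 2 * (Real.log m - Real.log n) ^ 2 / 4)) : ℝ) : ℂ) := by
  rw [← integral_complex_ofReal]
  simp_rw [expG' S hS c Δ]
  rw [integral_finsetSum]
  · refine Finset.sum_congr rfl fun m _ => ?_
    rw [integral_finsetSum]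
    · refine Finset.sum_congr rfl fun n _ => ?_
      rw [integral_const_mul, gauss_int hΔ]
      simp
    · intro n _
      exact (hint hΔ _).const_mul _
  · intro m _
    exact integrable_finsetSum _ fun n _ => (hint hΔ _).const_mul _

/-- Parseval for Gaussian windows. -/
lemma parseval (S : Finset ℕ) (hS : ∀ n ∈ S, 1 ≤ n) (c : ℕ → ℂ) {σ : ℝ} (hσ : 0 < σ) :
    ∫ v : ℝ, ‖∑ n ∈ S, c n * (gs σ (v - Real.log n) : ℂ)‖ ^ 2 =
      (1 / (2 * Real.pi)) * ∫ t : ℝ, wt 0 (1 / σ) t * ‖∑ n ∈ S, c n * nit n t‖ ^ 2 := by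
  have h1 := integralF S c hσ
  have h2 := integralG S hS c (Δ := 1 / σ) (by positivity)
  have h3 : ((∫ v : ℝ, ‖∑ n ∈ S, c n * (gs σ (v - Real.log n) : ℂ)‖ ^ 2 : ℝ) : ℂ) =
      (((1 / (2 * Real.pi)) * ∫ t : ℝ, wt 0 (1 / σ) t * ‖∑ n ∈ S, c n * nit n t‖ ^ 2 : ℝ) : ℂ) := by
    rw [Complex.ofReal_mul, h1, h2, Finset.mul_sum]
    refine Finset.sum_congr rfl fun m _ => ?_
    rw [Finset.mul_sum]
    refine Finset.sum_congr rfl fun n _ => ?_
    have hpi := Real.pi_pos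
    have h4 : Real.exp (-((Real.log m - Real.log n) ^ 2 / (4 * σ ^ 2))) / (2 * Real.pi * σ ^ 2) *
          (Real.sqrt Real.pi * σ) = 1 / (2 * Real.pi) *
          (Real.sqrt Real.pi * (1 / σ) *
            Real.exp (-((1 / σ) ^ 2 * (Real.log m - Real.log n) ^ 2 / 4))) := by
      have h5 : (1 / σ) ^ 2 * (Real.log m - Real.log n) ^ 2 / 4 =
          (Real.log m - Real.log n) ^ 2 / (4 * σ ^ 2) := by
        field_simp
      rw [h5]
      field_simp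
    rw [h4]
    push_cast
    ring
  exact_mod_cast h3

lemma norm_G_le (S : Finset ℕ) (hS : ∀ n ∈ S, 1 ≤ n) (c : ℕ → ℂ) (t : ℝ) :
    ‖∑ n ∈ S, c n * nit n t‖ ≤ ∑ n ∈ S, ‖c n‖ := by
  refine (norm_sum_le _ _).trans (Finset.sum_le_sum fun n hn => ?_)
  rw [norm_mul, norm_nit (hS n hn), mul_one]

lemma G_continuous (S : Finset ℕ) (hS : ∀ n ∈ S, 1 ≤ n) (c : ℕ → ℂ) :
    Continuous (fun t : ℝ => ‖∑ n ∈ S, c n * nit n t‖ ^ 2) := by
  refine (Continuous.norm ?_).pow 2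
  exact continuous_finsetSum _ fun n hn => continuous_const.mul (nit_continuous (hS n hn))

end GaussWinAux

open GaussWinAux
open Pool.Agent.P4f18dfS (wt)
open Pool.Agent.P4f18dfS.MVAux (wt_integrable)

theorem gauss_win (S : Finset ℕ) (hS : ∀ n ∈ S, 1 ≤ n) (c : ℕ → ℂ) (σ T : ℝ) (hσ : 0 < σ) (hT : 0 < T) :
    Integrable (fun v : ℝ => ‖∑ n ∈ S, c n * (gs σ (v - Real.log n) : ℂ)‖ ^ 2) ∧
    ∫ v : ℝ, ‖∑ n ∈ S, c n * (gs σ (v - Real.log n) : ℂ)‖ ^ 2 ≤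
      (∫ t in (-T)..T, ‖∑ n ∈ S, c n * nit n t‖ ^ 2) +
        (∑ n ∈ S, ‖c n‖) ^ 2 * (Real.exp (-(σ ^ 2 * T ^ 2 / 2)) / σ) := by
  refine ⟨integrableF S c hσ, ?_⟩
  rw [parseval S hS c hσ]
  set G : ℝ → ℝ := fun t => ‖∑ n ∈ S, c n * nit n t‖ ^ 2 with hG
  have hGc : Continuous G := G_continuous S hS c
  have hG0 : ∀ t, 0 ≤ G t := fun t => by positivity
  set A : ℝ := ∑ n ∈ S, ‖c n‖ with hA
  have hA0 : 0 ≤ A := Finset.sum_nonneg fun _ _ => norm_nonneg _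
  have hGA : ∀ t, G t ≤ A ^ 2 := fun t =>
    pow_le_pow_left₀ (norm_nonneg _) (norm_G_le S hS c t) 2
  have hpi := Real.pi_pos
  have hpi3 := Real.pi_gt_three
  -- the dominating function
  have hs2 : (0:ℝ) < Real.sqrt 2 / σ := by positivity
  have hI1 : Integrable ((Set.Ioc (-T) T).indicator G) := by
    rw [integrable_indicator_iff measurableSet_Ioc]
    exact (hGc.integrableOn_Icc).mono_set Set.Ioc_subset_Icc_self
  have hI2 : Integrable (fun t : ℝ => A ^ 2 * Real.exp (-(σ ^ 2 * T ^ 2 / 2)) * wt 0 (Real.sqrt 2 / σ) t) :=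
    (wt_integrable hs2 0).const_mul _
  have hwt1 : ∀ t, wt 0 (1 / σ) t = Real.exp (-(σ ^ 2 * t ^ 2)) := by
    intro t
    unfold wt
    congr 1
    field_simp
    ring
  have hwt2 : ∀ t, wt 0 (Real.sqrt 2 / σ) t = Real.exp (-(σ ^ 2 * t ^ 2 / 2)) := by
    intro t
    unfold wt
    congr 1
    rw [sub_zero, div_div_eq_mul_div, div_pow, Real.sq_sqrt (by norm_num : (0:ℝ) ≤ 2)]
    ring
  have hpt : ∀ t, wt 0 (1 / σ) t * G t ≤ (Set.Ioc (-T) T).indicator G t +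
      A ^ 2 * Real.exp (-(σ ^ 2 * T ^ 2 / 2)) * wt 0 (Real.sqrt 2 / σ) t := by
    intro t
    rw [hwt1, hwt2]
    by_cases ht : t ∈ Set.Ioc (-T) T
    · rw [Set.indicator_of_mem ht]
      have h1 : Real.exp (-(σ ^ 2 * t ^ 2)) ≤ 1 := Real.exp_le_one_iff.mpr (by
        have : 0 ≤ σ ^ 2 * t ^ 2 := by positivity
        linarith)
      have h2 : Real.exp (-(σ ^ 2 * t ^ 2)) * G t ≤ 1 * G t :=
        mul_le_mul_of_nonneg_right h1 (hG0 t)
      have h3 : 0 ≤ A ^ 2 * Real.exp (-(σ ^ 2 * T ^ 2 / 2)) * Real.exp (-(σ ^ 2 * t ^ 2 / 2)) := by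
        positivity
      linarith
    · rw [Set.indicator_of_notMem ht, zero_add]
      have hTt : T ^ 2 ≤ t ^ 2 := by
        rw [Set.mem_Ioc, not_and_or, not_lt, not_le] at ht
        rcases ht with ht | ht
        · nlinarith
        · nlinarith
      have h1 : Real.exp (-(σ ^ 2 * t ^ 2)) ≤
          Real.exp (-(σ ^ 2 * T ^ 2 / 2)) * Real.exp (-(σ ^ 2 * t ^ 2 / 2)) := by
        rw [← Real.exp_add]
        apply Real.exp_le_exp.mpr
        have : σ ^ 2 * T ^ 2 ≤ σ ^ 2 * t ^ 2 := mul_le_mul_of_nonneg_left hTt (by positivity)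
        linarith
      calc Real.exp (-(σ ^ 2 * t ^ 2)) * G t ≤
            (Real.exp (-(σ ^ 2 * T ^ 2 / 2)) * Real.exp (-(σ ^ 2 * t ^ 2 / 2))) * A ^ 2 :=
            mul_le_mul h1 (hGA t) (hG0 t) (by positivity)
        _ = _ := by ring
  have hmain : ∫ t : ℝ, wt 0 (1 / σ) t * G t ≤
      (∫ t in (-T)..T, G t) + A ^ 2 * Real.exp (-(σ ^ 2 * T ^ 2 / 2)) *
        (Real.sqrt Real.pi * (Real.sqrt 2 / σ)) := by
    have h1 := integral_mono (integrableG S hS c (Δ := 1 / σ) (by positivity)) (hI1.add hI2) hpt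
    refine h1.trans (le_of_eq ?_)
    have h2 : ∫ a : ℝ, ((Set.Ioc (-T) T).indicator G +
        fun t : ℝ => A ^ 2 * Real.exp (-(σ ^ 2 * T ^ 2 / 2)) * wt 0 (Real.sqrt 2 / σ) t) a =
        (∫ a : ℝ, (Set.Ioc (-T) T).indicator G a) +
          ∫ t : ℝ, A ^ 2 * Real.exp (-(σ ^ 2 * T ^ 2 / 2)) * wt 0 (Real.sqrt 2 / σ) t :=
      integral_add hI1 hI2
    rw [h2, integral_indicator measurableSet_Ioc, integral_const_mul, wt_int hs2,
      intervalIntegral.integral_of_le (by linarith)]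
  have hJ0 : 0 ≤ ∫ t in (-T)..T, G t :=
    intervalIntegral.integral_nonneg (by linarith) fun t _ => hG0 t
  have h1 : (1 / (2 * Real.pi)) * ∫ t : ℝ, wt 0 (1 / σ) t * G t ≤
      (1 / (2 * Real.pi)) * ((∫ t in (-T)..T, G t) + A ^ 2 * Real.exp (-(σ ^ 2 * T ^ 2 / 2)) *
        (Real.sqrt Real.pi * (Real.sqrt 2 / σ))) :=
    mul_le_mul_of_nonneg_left hmain (by positivity)
  refine h1.trans ?_
  have h2 : (1 / (2 * Real.pi)) ≤ 1 := by
    rw [div_le_one (by positivity)]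
    linarith
  have h3 : (1 / (2 * Real.pi)) * (Real.sqrt Real.pi * Real.sqrt 2) ≤ 1 := by
    have h4 : Real.sqrt Real.pi ≤ Real.pi := by
      rw [Real.sqrt_le_left hpi.le]
      nlinarith
    have h5 : Real.sqrt 2 ≤ 2 := by
      rw [Real.sqrt_le_left (by norm_num)]
      norm_num
    have h6 : Real.sqrt Real.pi * Real.sqrt 2 ≤ Real.pi * 2 :=
      mul_le_mul h4 h5 (Real.sqrt_nonneg _) hpi.le
    calc (1 / (2 * Real.pi)) * (Real.sqrt Real.pi * Real.sqrt 2) ≤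
        (1 / (2 * Real.pi)) * (Real.pi * 2) := mul_le_mul_of_nonneg_left h6 (by positivity)
      _ = 1 := by field_simp
  rw [mul_add]
  apply add_le_add
  · calc (1 / (2 * Real.pi)) * (∫ t in (-T)..T, G t) ≤ 1 * (∫ t in (-T)..T, G t) :=
        mul_le_mul_of_nonneg_right h2 hJ0
      _ = _ := one_mul _
  · calc (1 / (2 * Real.pi)) * (A ^ 2 * Real.exp (-(σ ^ 2 * T ^ 2 / 2)) *
        (Real.sqrt Real.pi * (Real.sqrt 2 / σ))) =
        ((1 / (2 * Real.pi)) * (Real.sqrt Real.pi * Real.sqrt 2)) *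
          (A ^ 2 * (Real.exp (-(σ ^ 2 * T ^ 2 / 2)) / σ)) := by ring
      _ ≤ 1 * (A ^ 2 * (Real.exp (-(σ ^ 2 * T ^ 2 / 2)) / σ)) :=
        mul_le_mul_of_nonneg_right h3 (by positivity)
      _ = _ := one_mul _

end Pool.Agent.VK
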