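import Pool.Agent.Lib.VK.ExpSum

/-!
# The same with periodic coefficients

PROOF SKETCH. `f` has period `q`. Split `n = q m + b`, `0 ≤ b < q`: `n^(it) = q^(it) (m + b/q)^(it)`, and
`m` runs over an interval `(N1, N1']` with `N1 ≥ M/q - 1`, `N1' ≤ 2M/q` (a set of integers of the form
`{m : N < q m + b ≤ N'}`, which is `Ioc` of natural numbers; if `N < b` or so take care that `m` is a natural number: as
`N ≥ M ≥ q^2 ≥ q > b` there is no problem: `m > (N - b)/q ≥ 0`). With `M1 = M / q - 1` (natural division; `M1 ≥ 1` if `M ≥ 16`, and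
`M1 ≥ M^(1/2)/4`, `2M/q ≤ 3 M1` once `M/q` is at least an absolute constant; otherwise `M ≤ q^2 · const`, so `M` is
bounded... (as `M/q ≥ M^(1/2)`, `M/q` small means `M` bounded by an absolute constant: trivial bound)).
`exp_sum` with `3 K`: `M1^(1/2) ≤ M^(1/2) ≤ |t| ≤ M^K ≤ M1^(3K)` for `M` large. Each class gives
`C M1^(1 - 1/(C (3K)^6)) ≤ C (M/q) (M^(1/3))^(-1/(C (3K)^6))` and there are `q` classes.
-/

set_option autoImplicit false

open Finset

namespace Pool.Agent.VK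

/-- one residue class -/
lemma rs_class (q N N' b : ℕ) (hq : 1 ≤ q) (hb : b < q) (hN : q ≤ N) (hNN : N ≤ N')
    (F : ℕ → ℂ) :
    ∑ n ∈ (Ioc N N').filter (fun n => n % q = b), F n =
      ∑ m ∈ Ioc ((N - b) / q) ((N' - b) / q), F (q * m + b) := by
  refine Finset.sum_nbij' (fun n => n / q) (fun m => q * m + b) ?_ ?_ ?_ ?_ ?_
  · intro n hn
    rw [mem_filter, mem_Ioc] at hn
    rw [mem_Ioc]
    have h1 := Nat.div_add_mod n q
    rw [hn.2] at h1
    constructor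
    · rw [Nat.div_lt_iff_lt_mul hq]
      have : q * (n / q) = n / q * q := Nat.mul_comm _ _
      omega
    · rw [Nat.le_div_iff_mul_le hq]
      have : q * (n / q) = n / q * q := Nat.mul_comm _ _
      omega
  · intro m hm
    rw [mem_Ioc, Nat.div_lt_iff_lt_mul hq, Nat.le_div_iff_mul_le hq] at hm
    rw [mem_filter, mem_Ioc]
    have : q * m = m * q := Nat.mul_comm _ _
    refine ⟨⟨by omega, by omega⟩, ?_⟩
    rw [Nat.mul_add_mod, Nat.mod_eq_of_lt hb]
  · intro n hn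
    rw [mem_filter] at hn
    have h1 := Nat.div_add_mod n q
    rw [hn.2] at h1
    exact h1
  · intro m _
    rw [Nat.mul_add_div (by omega), Nat.div_eq_of_lt hb, add_zero]
  · intro n hn
    rw [mem_filter] at hn
    have h1 := Nat.div_add_mod n q
    rw [hn.2] at h1
    rw [h1]

lemma rs_norm (x t : ℝ) (hx : 0 < x) : ‖(x : ℂ) ^ ((t : ℂ) * Complex.I)‖ = 1 := by
  rw [Complex.norm_cpow_eq_rpow_re_of_pos hx]
  simp

lemma rs_norm_term (q : ℕ) (f : ZMod q → ℂ) (hf : ∀ a, ‖f a‖ ≤ 1) (t : ℝ) (n : ℕ) (hn : 1 ≤ n) :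
    ‖f (n : ZMod q) * ((n : ℝ) : ℂ) ^ ((t : ℂ) * Complex.I)‖ ≤ 1 := by
  rw [norm_mul, rs_norm _ _ (by exact_mod_cast hn), mul_one]
  exact hf _

/-- the sum over one residue class, after division by `q` -/
lemma rs_class_norm (q N N' b : ℕ) (hq : 1 ≤ q) (hb : b < q) (hN : q ≤ N) (hNN : N ≤ N')
    (f : ZMod q → ℂ) (hf : ∀ a, ‖f a‖ ≤ 1) (t : ℝ) :
    ‖∑ n ∈ (Ioc N N').filter (fun n => n % q = b),
      f (n : ZMod q) * ((n : ℝ) : ℂ) ^ ((t : ℂ) * Complex.I)‖ ≤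
    ‖∑ m ∈ Ioc ((N - b) / q) ((N' - b) / q),
      ((m + (b : ℝ) / q : ℝ) : ℂ) ^ ((t : ℂ) * Complex.I)‖ := by
  have hq0 : (0 : ℝ) < q := by exact_mod_cast hq
  rw [rs_class q N N' b hq hb hN hNN]
  have h1 : ∀ m ∈ Ioc ((N - b) / q) ((N' - b) / q),
      f ((q * m + b : ℕ) : ZMod q) * (((q * m + b : ℕ) : ℝ) : ℂ) ^ ((t : ℂ) * Complex.I) =
      (f (b : ZMod q) * ((q : ℝ) : ℂ) ^ ((t : ℂ) * Complex.I)) *
        ((m + (b : ℝ) / q : ℝ) : ℂ) ^ ((t : ℂ) * Complex.I) := by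
    intro m _
    have h2 : ((q * m + b : ℕ) : ZMod q) = (b : ZMod q) := by
      push_cast
      simp
    have h3 : ((q * m + b : ℕ) : ℝ) = (q : ℝ) * (m + (b : ℝ) / q) := by
      push_cast
      field_simp
    rw [h2, h3, Complex.ofReal_mul, Complex.mul_cpow_ofReal_nonneg hq0.le (by positivity),
      mul_assoc]
  rw [Finset.sum_congr rfl h1, ← Finset.mul_sum, norm_mul, norm_mul, rs_norm _ _ hq0, mul_one]
  exact mul_le_of_le_one_left (norm_nonneg _) (hf _)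

theorem res_sum : ∃ C : ℝ, 1 ≤ C ∧ ∀ (q K M N N' : ℕ) (f : ZMod q → ℂ) (t : ℝ), 1 ≤ q → 1 ≤ K →
    q ^ 2 ≤ M → M ≤ N → N' ≤ 2 * M → (∀ a, ‖f a‖ ≤ 1) →
    (M : ℝ) ^ (1 / 2 : ℝ) ≤ |t| → |t| ≤ (M : ℝ) ^ K →
    ‖∑ n ∈ Ioc N N', f (n : ZMod q) * ((n : ℝ) : ℂ) ^ ((t : ℂ) * Complex.I)‖ ≤
      C * (M : ℝ) ^ (1 - 1 / (C * (K : ℝ) ^ 6)) := by
  obtain ⟨C0, hC0, hexp⟩ := exp_sum
  refine ⟨2187 * C0, by linarith, ?_⟩
  intro q K M N N' f t hq hK hqM hMN hN' hf ht1 ht2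
  have hM1 : 1 ≤ M := le_trans (by nlinarith only [hq]) hqM
  have hK6 : (1 : ℝ) ≤ (K : ℝ) ^ 6 := one_le_pow₀ (by exact_mod_cast hK)
  have hMr : (1 : ℝ) ≤ M := by exact_mod_cast hM1
  have hM0 : (0 : ℝ) < M := by linarith only [hMr]
  have hq0 : (0 : ℝ) < q := by exact_mod_cast hq
  have hε1 : 1 / (2187 * C0 * (K : ℝ) ^ 6) ≤ 1 := by
    rw [div_le_one (by positivity)]
    nlinarith only [hC0, hK6]
  rcases lt_or_ge M 64 with hM | hM
  · -- trivial bound
    have h1 : ‖∑ n ∈ Ioc N N', f (n : ZMod q) * ((n : ℝ) : ℂ) ^ ((t : ℂ) * Complex.I)‖ ≤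
        ∑ n ∈ Ioc N N', (1 : ℝ) := by
      refine norm_sum_le_of_le _ fun n hn => ?_
      exact rs_norm_term q f hf t n (by rw [mem_Ioc] at hn; omega)
    refine h1.trans ?_
    rw [Finset.sum_const, Nat.card_Ioc, nsmul_eq_mul, mul_one]
    have h2 : ((N' - N : ℕ) : ℝ) ≤ 64 := by
      exact_mod_cast (show N' - N ≤ 64 by omega)
    have h3 : (1 : ℝ) ≤ (M : ℝ) ^ (1 - 1 / (2187 * C0 * (K : ℝ) ^ 6)) :=
      Real.one_le_rpow hMr (by linarith only [hε1])
    nlinarith only [hC0, h2, h3]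
  rcases lt_or_ge N' N with hNN | hNN
  · rw [Finset.Ioc_eq_empty (by omega), Finset.sum_empty, norm_zero]
    positivity
  -- the main case
  have hqN : q ≤ N := by nlinarith only [hq, hqM, hMN]
  have hq4 : 4 * q ≤ M := by
    rcases lt_or_ge q 4 with h | h <;> nlinarith only [hM, h, hqM]
  have hdiv4 : 4 ≤ M / q := by
    rw [Nat.le_div_iff_mul_le hq]
    omega
  set M1 : ℕ := M / q - 1 with hM1def
  have hM1pos : 1 ≤ M1 := by omega
  have hdm : q * (M / q) + M % q = M := Nat.div_add_mod M q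
  have hmod : M % q < q := Nat.mod_lt _ hq
  -- real estimates for `M1`
  have hM1u : (M1 : ℝ) ≤ M / q := by
    rw [le_div_iff₀ hq0]
    have : M1 * q ≤ M := by
      have : M1 * q ≤ (M / q) * q := Nat.mul_le_mul_right _ (by omega)
      exact this.trans (Nat.div_mul_le_self M q)
    exact_mod_cast this
  have hM1l : (M : ℝ) ≤ 2 * q * M1 := by
    have h1 : M1 + 1 = M / q := by omega
    have h2 : M < q * (M1 + 2) := by
      have : q * (M1 + 2) = q * (M / q) + q := by rw [← h1]; ring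
      omega
    have h3 : q * (M1 + 2) ≤ q * (2 * M1) := Nat.mul_le_mul_left _ (by omega)
    have h4 : M ≤ 2 * q * M1 := by nlinarith only [hq4, h2]
    exact_mod_cast h4
  have hM1le : (M1 : ℝ) ≤ M := by
    refine hM1u.trans ?_
    rw [div_le_iff₀ hq0]
    have : (1 : ℝ) ≤ q := by exact_mod_cast hq
    nlinarith only [this]
  have hcube : (M : ℝ) ≤ (M1 : ℝ) ^ 3 := by
    -- `M ^ 2 ≤ 4 q ^ 2 M1 ^ 2 ≤ 4 M M1 ^ 2`, so `M ≤ 4 M1 ^ 2`; and `4 ≤ M1`
    have h1 : (q : ℝ) ^ 2 ≤ M := by exact_mod_cast hqM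
    have h2 : (M : ℝ) ≤ 4 * (M1 : ℝ) ^ 2 := by
      have h3 : (M : ℝ) * M ≤ (2 * q * M1) * (2 * q * M1) :=
        mul_le_mul hM1l hM1l hM0.le (by (clear * - hq hM1pos; positivity))
      have h4 : (2 * q * M1 : ℝ) * (2 * q * M1) ≤ M * (4 * (M1 : ℝ) ^ 2) := by
        have : (2 * q * M1 : ℝ) * (2 * q * M1) = (q : ℝ) ^ 2 * (4 * (M1 : ℝ) ^ 2) := by ring
        rw [this]
        exact mul_le_mul_of_nonneg_right h1 (by (clear * - hM1pos; positivity))
      exact le_of_mul_le_mul_left (h3.trans h4) hM0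
    have h5 : (4 : ℝ) ≤ M1 := by
      have h6 : (64 : ℝ) ≤ 4 * (M1 : ℝ) ^ 2 := le_trans (by exact_mod_cast hM) h2
      have h7 : (0 : ℝ) ≤ M1 := Nat.cast_nonneg _
      nlinarith only [h6]
    calc (M : ℝ) ≤ 4 * (M1 : ℝ) ^ 2 := h2
      _ ≤ M1 * (M1 : ℝ) ^ 2 := mul_le_mul_of_nonneg_right h5 (by (clear * - hM1pos; positivity))
      _ = (M1 : ℝ) ^ 3 := by ring
  have hM1r : (1 : ℝ) ≤ M1 := by exact_mod_cast hM1pos
  have hM10 : (0 : ℝ) < M1 := by linarith only [hM1r]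
  -- one class
  obtain ⟨η, hη⟩ : ∃ η : ℝ, η = 1 / (C0 * ((3 * K : ℕ) : ℝ) ^ 6) := ⟨_, rfl⟩
  have hη0 : 0 ≤ η := by rw [hη]; (clear * - hC0 hK; positivity)
  have hη3 : η / 3 = 1 / (2187 * C0 * (K : ℝ) ^ 6) := by
    rw [hη]
    push_cast
    field_simp
    ring
  have hclass : ∀ b ∈ range q, ‖∑ n ∈ (Ioc N N').filter (fun n => n % q = b),
      f (n : ZMod q) * ((n : ℝ) : ℂ) ^ ((t : ℂ) * Complex.I)‖ ≤
      C0 * ((M : ℝ) / q * (M : ℝ) ^ (-(η / 3))) := by
    intro b hb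
    rw [mem_range] at hb
    refine (rs_class_norm q N N' b hq hb hqN hNN f hf t).trans ?_
    have h1 := hexp (3 * K) M1 ((N - b) / q) ((N' - b) / q) t ((b : ℝ) / q) (by omega) hM1pos
      (by
        rw [Nat.le_div_iff_mul_le hq]
        have : (M1 + 1) * q ≤ M := by
          have : M1 + 1 = M / q := by omega
          rw [this]
          exact Nat.div_mul_le_self M q
        have h2 : (M1 + 1) * q = M1 * q + q := by ring
        omega)
      (by
        have h2 : (N' - b) / q ≤ (2 * M) / q := Nat.div_le_div_right (by omega)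
        have h3 : (2 * M) / q < 2 * (M / q) + 2 := by
          rw [Nat.div_lt_iff_lt_mul hq]
          nlinarith only [hdm, hmod]
        omega)
      (by (clear * - hq; positivity))
      (by
        rw [div_le_one hq0]
        exact_mod_cast hb.le)
      ((Real.rpow_le_rpow hM10.le hM1le (by norm_num)).trans ht1)
      (by
        refine ht2.trans ?_
        rw [pow_mul]
        exact pow_le_pow_left₀ hM0.le hcube K)
    refine h1.trans ?_
    refine mul_le_mul_of_nonneg_left ?_ (by linarith only [hC0])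
    rw [← hη, sub_eq_add_neg, Real.rpow_add hM10, Real.rpow_one]
    refine mul_le_mul hM1u ?_ (by (clear * - hM1pos; positivity)) (by (clear * - hq hM1; positivity))
    -- `M1 ^ (-η) ≤ M ^ (-η / 3)`
    rw [Real.rpow_neg hM10.le, Real.rpow_neg hM0.le]
    refine inv_anti₀ (by (clear * - hM1; positivity)) ?_
    calc (M : ℝ) ^ (η / 3) ≤ ((M1 : ℝ) ^ 3) ^ (η / 3) :=
          Real.rpow_le_rpow hM0.le hcube (by (clear * - hη0; positivity))
      _ = (M1 : ℝ) ^ η := by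
          rw [← Real.rpow_natCast, ← Real.rpow_mul hM10.le]
          congr 1
          push_cast
          ring
  -- sum over the classes
  rw [← Finset.sum_fiberwise_of_maps_to (s := Ioc N N') (t := range q) (g := fun n => n % q)
    (fun n _ => mem_range.2 (Nat.mod_lt _ hq))]
  refine (norm_sum_le_of_le _ hclass).trans ?_
  rw [Finset.sum_const, card_range, nsmul_eq_mul, ← hη3, sub_eq_add_neg, Real.rpow_add hM0,
    Real.rpow_one]
  have h2 : (q : ℝ) * (C0 * ((M : ℝ) / q * (M : ℝ) ^ (-(η / 3)))) =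
      C0 * (M * (M : ℝ) ^ (-(η / 3))) := by
    field_simp
  rw [h2]
  refine mul_le_mul_of_nonneg_right (by linarith only [hC0]) (by (clear * - hM1; positivity))

end Pool.Agent.VK
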