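import Mathlib

/-!
# Elementary bound for `sum f(n) n^(iv)`, `f` periodic

Let `g u = u^(iv)` and `G u = u^(1+iv)/(1+iv)`, an antiderivative of `g`. For `n > q`,
`‖q g n - (G n - G (n-q))‖ ≤ q^2 |v| / (n - q)`, and by periodicity
`∑ f n (G n - G (n - q))` over `(N, N']` is a difference of two sums of `q` terms of size at most `2 N / |v|`.
For `N < 2 q` the trivial bound `N ≤ 2q ≤ 2 q |v|` suffices.
-/

set_option autoImplicit false

open Finset

namespace Pool.Agent.VK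

namespace SmoothAux

/-- `u ^ (iv)` -/
noncomputable def gg (v u : ℝ) : ℂ := (u : ℂ) ^ ((v : ℂ) * Complex.I)

/-- an antiderivative -/
noncomputable def GG (v u : ℝ) : ℂ :=
  (u : ℂ) ^ ((v : ℂ) * Complex.I + 1) / ((v : ℂ) * Complex.I + 1)

variable {v : ℝ}

lemma norm_gg {u : ℝ} (hu : 0 < u) : ‖gg v u‖ = 1 := by
  rw [gg, Complex.norm_cpow_eq_rpow_re_of_pos hu]
  simp

lemma norm_GG {u : ℝ} (hu : 0 < u) (hv : 1 ≤ |v|) : ‖GG v u‖ ≤ u / |v| := by
  rw [GG, norm_div, Complex.norm_cpow_eq_rpow_re_of_pos hu]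
  have h1 : ((v : ℂ) * Complex.I + 1).re = 1 := by simp
  rw [h1, Real.rpow_one]
  have h2 : |v| ≤ ‖(v : ℂ) * Complex.I + 1‖ := by
    have := Complex.abs_im_le_norm ((v : ℂ) * Complex.I + 1)
    simpa using this
  exact div_le_div_of_nonneg_left hu.le (by linarith) h2

lemma deriv_GG {u : ℝ} (hu : 0 < u) : HasDerivAt (GG v) (gg v u) u := by
  have h0 : (v : ℂ) * Complex.I + 1 ≠ 0 := by
    intro h
    have := congrArg Complex.re h
    simp at this
  have h1 := (hasDerivAt_ofReal_cpow_const (x := u) hu.ne' h0).div_const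
    ((v : ℂ) * Complex.I + 1)
  rw [add_sub_cancel_right, mul_div_cancel_left₀ _ h0] at h1
  exact h1

lemma deriv_gg {u : ℝ} (hu : 0 < u) (hv : 1 ≤ |v|) :
    HasDerivAt (gg v) ((v : ℂ) * Complex.I * (u : ℂ) ^ ((v : ℂ) * Complex.I - 1)) u := by
  have hv0 : (v : ℂ) ≠ 0 := by
    intro h
    have : v = 0 := by exact_mod_cast h
    rw [this, abs_zero] at hv
    linarith
  exact hasDerivAt_ofReal_cpow_const (x := u) hu.ne' (mul_ne_zero hv0 Complex.I_ne_zero)

lemma norm_deriv_gg {u : ℝ} (hu : 0 < u) :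
    ‖(v : ℂ) * Complex.I * (u : ℂ) ^ ((v : ℂ) * Complex.I - 1)‖ = |v| / u := by
  rw [norm_mul, norm_mul, Complex.norm_I, mul_one, Complex.norm_real, Real.norm_eq_abs,
    Complex.norm_cpow_eq_rpow_re_of_pos hu]
  have h1 : ((v : ℂ) * Complex.I - 1).re = -1 := by simp
  rw [h1, Real.rpow_neg_one, div_eq_mul_inv]

lemma gg_sub {a b : ℝ} (ha : 0 < a) (hab : a ≤ b) (hv : 1 ≤ |v|) {u : ℝ} (hu : u ∈ Set.Icc a b) :
    ‖gg v u - gg v b‖ ≤ |v| / a * (b - a) := by
  have h1 : ‖gg v u - gg v b‖ ≤ |v| / a * ‖u - b‖ := by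
    refine (convex_Icc a b).norm_image_sub_le_of_norm_hasDerivWithin_le
      (f := gg v) (f' := fun u => (v : ℂ) * Complex.I * (u : ℂ) ^ ((v : ℂ) * Complex.I - 1))
      (fun x hx => (deriv_gg (lt_of_lt_of_le ha hx.1) hv).hasDerivWithinAt) (fun x hx => ?_)
      (Set.right_mem_Icc.2 hab) hu
    rw [norm_deriv_gg (lt_of_lt_of_le ha hx.1)]
    exact div_le_div_of_nonneg_left (abs_nonneg _) ha hx.1
  refine h1.trans (mul_le_mul_of_nonneg_left ?_ (by positivity))
  rw [Real.norm_eq_abs, abs_sub_comm, abs_of_nonneg (by linarith [hu.2])]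
  linarith [hu.1]

lemma taylor {a b : ℝ} (ha : 0 < a) (hab : a ≤ b) (hv : 1 ≤ |v|) :
    ‖((b - a : ℝ) : ℂ) * gg v b - (GG v b - GG v a)‖ ≤ |v| / a * (b - a) * (b - a) := by
  have h1 : ‖(GG v b - ((b : ℝ) : ℂ) * gg v b) - (GG v a - ((a : ℝ) : ℂ) * gg v b)‖ ≤
      |v| / a * (b - a) * ‖b - a‖ := by
    refine (convex_Icc a b).norm_image_sub_le_of_norm_hasDerivWithin_le
      (f := fun u : ℝ => GG v u - ((u : ℝ) : ℂ) * gg v b) (f' := fun u => gg v u - gg v b)
      (fun x hx => ?_) (fun x hx => gg_sub ha hab hv hx)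
      (Set.left_mem_Icc.2 hab) (Set.right_mem_Icc.2 hab)
    refine HasDerivAt.hasDerivWithinAt ?_
    refine (deriv_GG (lt_of_lt_of_le ha hx.1)).sub ?_
    simpa using (HasDerivAt.ofReal_comp (hasDerivAt_id x)).mul_const (gg v b)
  rw [Real.norm_eq_abs, abs_of_nonneg (by linarith : (0 : ℝ) ≤ b - a)] at h1
  have e : ((b - a : ℝ) : ℂ) * gg v b - (GG v b - GG v a) =
      -((GG v b - ((b : ℝ) : ℂ) * gg v b) - (GG v a - ((a : ℝ) : ℂ) * gg v b)) := by
    push_cast
    ring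
  rw [e, norm_neg]
  exact h1

lemma telescope (h : ℕ → ℂ) (q N N' : ℕ) (hN : N ≤ N') (hq : q ≤ N) :
    ∑ n ∈ Ioc N N', (h n - h (n - q)) =
      ∑ n ∈ Ioc (N' - q) N', h n - ∑ n ∈ Ioc (N - q) N, h n := by
  induction N', hN using Nat.le_induction with
  | base => simp
  | succ m hm ih =>
    rw [Finset.sum_Ioc_succ_top (by omega), ih]
    have h1 : ∑ n ∈ Ioc (m - q) (m + 1), h n =
        ∑ n ∈ Ioc (m - q) m, h n + h (m + 1) := Finset.sum_Ioc_succ_top (by omega) _
    have h2 : ∑ n ∈ Ioc (m - q) (m + 1), h n =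
        h (m + 1 - q) + ∑ n ∈ Ioc (m + 1 - q) (m + 1), h n := by
      rw [← Finset.sum_Ioc_consecutive h (show m - q ≤ m + 1 - q by omega)
        (show m + 1 - q ≤ m + 1 by omega)]
      congr 1
      have e : m + 1 - q = m - q + 1 := by omega
      rw [e]
      simp
    have h3 : ∑ n ∈ Ioc (m + 1 - q) (m + 1), h n =
        ∑ n ∈ Ioc (m - q) m, h n + h (m + 1) - h (m + 1 - q) := by
      rw [← h1, h2]
      ring
    rw [h3]
    ring

lemma block (h : ℕ → ℂ) {q M : ℕ} (hq : q ≤ M) {B : ℝ} (hB : ∀ n, 1 ≤ n → n ≤ M → ‖h n‖ ≤ B) :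
    ‖∑ n ∈ Ioc (M - q) M, h n‖ ≤ q * B := by
  refine (norm_sum_le_of_le _ (fun n hn => hB n ?_ (Finset.mem_Ioc.1 hn).2)).trans ?_
  · have := (Finset.mem_Ioc.1 hn).1
    omega
  · rw [Finset.sum_const, Nat.card_Ioc, nsmul_eq_mul]
    have e : M - (M - q) = q := by omega
    rw [e]

end SmoothAux

open SmoothAux in
theorem smooth_sum : ∃ C : ℝ, 1 ≤ C ∧ ∀ (q N N' : ℕ) (f : ZMod q → ℂ) (v : ℝ), 1 ≤ q → 1 ≤ N →
    N' ≤ 2 * N → (∀ a, ‖f a‖ ≤ 1) → 1 ≤ |v| →
    ‖∑ n ∈ Ioc N N', f (n : ZMod q) * ((n : ℝ) : ℂ) ^ ((v : ℂ) * Complex.I)‖ ≤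
      C * ((N : ℝ) / |v| + q * |v|) := by
  refine ⟨3, by norm_num, ?_⟩
  intro q N N' f v hq hN hN' hf hv
  have hv0 : 0 < |v| := by linarith
  have hqR : (1 : ℝ) ≤ q := by exact_mod_cast hq
  have hNR : (1 : ℝ) ≤ N := by exact_mod_cast hN
  have hR : 0 ≤ (N : ℝ) / |v| := by positivity
  have hqv : (q : ℝ) ≤ q * |v| := le_mul_of_one_le_right (by linarith) hv
  rcases Nat.lt_or_ge N' N with h0 | h0
  · rw [Finset.Ioc_eq_empty (by omega), Finset.sum_empty, norm_zero]
    have : (0 : ℝ) ≤ q * |v| := by positivity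
    linarith
  rcases Nat.lt_or_ge N (2 * q) with h1 | h1
  · -- trivial bound
    have h2 : ‖∑ n ∈ Ioc N N', f (n : ZMod q) * ((n : ℝ) : ℂ) ^ ((v : ℂ) * Complex.I)‖ ≤
        ∑ n ∈ Ioc N N', (1 : ℝ) := by
      refine norm_sum_le_of_le _ fun n hn => ?_
      have hn0 : (0 : ℝ) < n := by
        have := (Finset.mem_Ioc.1 hn).1
        exact_mod_cast (by omega : 0 < n)
      rw [norm_mul]
      have := norm_gg (v := v) hn0
      rw [gg] at this
      rw [this, mul_one]
      exact hf _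
    rw [Finset.sum_const, Nat.card_Ioc, nsmul_eq_mul, mul_one] at h2
    have h3 : ((N' - N : ℕ) : ℝ) ≤ 2 * q := by
      have : N' - N ≤ 2 * q := by omega
      exact_mod_cast this
    linarith
  · -- the main case
    have hqN : (2 : ℝ) * q ≤ N := by exact_mod_cast h1
    have hNqpos : (0 : ℝ) < (N : ℝ) - q := by linarith
    set h : ℕ → ℂ := fun n => f (n : ZMod q) * GG v n with hh
    have hN'R : (N' : ℝ) ≤ 2 * N := by exact_mod_cast hN'
    have e1 : (q : ℂ) * ∑ n ∈ Ioc N N', f (n : ZMod q) * ((n : ℝ) : ℂ) ^ ((v : ℂ) * Complex.I) =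
        ∑ n ∈ Ioc N N', (h n - h (n - q)) +
        ∑ n ∈ Ioc N N', f (n : ZMod q) * ((q : ℂ) * gg v n - (GG v n - GG v ((n : ℝ) - q))) := by
      rw [Finset.mul_sum, ← Finset.sum_add_distrib]
      refine Finset.sum_congr rfl fun n hn => ?_
      have hn1 : q ≤ n := by
        have := (Finset.mem_Ioc.1 hn).1
        omega
      rw [hh]
      beta_reduce
      rw [Nat.cast_sub hn1, Nat.cast_sub hn1, ZMod.natCast_self, sub_zero, gg]
      ring
    have h2 : ‖∑ n ∈ Ioc N N', (h n - h (n - q))‖ ≤ q * (3 * N / |v|) := by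
      rw [telescope h q N N' h0 (by omega)]
      have hb : ∀ n : ℕ, 1 ≤ n → ‖h n‖ ≤ n / |v| := by
        intro n hn
        have hn0 : (0 : ℝ) < n := by exact_mod_cast hn
        rw [hh]
        beta_reduce
        rw [norm_mul]
        calc ‖f (n : ZMod q)‖ * ‖GG v n‖ ≤ 1 * (n / |v|) :=
              mul_le_mul (hf _) (norm_GG hn0 hv) (norm_nonneg _) zero_le_one
          _ = n / |v| := one_mul _
      have h3 := block h (q := q) (M := N') (by omega) (B := 2 * N / |v|) (fun n hn hn' => by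
        refine (hb n hn).trans ?_
        have : (n : ℝ) ≤ N' := by exact_mod_cast hn'
        exact div_le_div_of_nonneg_right (by linarith) hv0.le)
      have h4 := block h (q := q) (M := N) (by omega) (B := N / |v|) (fun n hn hn' => by
        refine (hb n hn).trans ?_
        have : (n : ℝ) ≤ N := by exact_mod_cast hn'
        exact div_le_div_of_nonneg_right this hv0.le)
      calc _ ≤ _ := norm_sub_le _ _
        _ ≤ q * (2 * N / |v|) + q * (N / |v|) := add_le_add h3 h4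
        _ = q * (3 * N / |v|) := by ring
    have h3 : ‖∑ n ∈ Ioc N N', f (n : ZMod q) *
        ((q : ℂ) * gg v n - (GG v n - GG v ((n : ℝ) - q)))‖ ≤ q * (2 * (q * |v|)) := by
      have h4 : ∀ n ∈ Ioc N N', ‖f (n : ZMod q) *
          ((q : ℂ) * gg v n - (GG v n - GG v ((n : ℝ) - q)))‖ ≤ |v| / (N - q) * q * q := by
        intro n hn
        have hn1 : (N : ℝ) ≤ n := by exact_mod_cast (Finset.mem_Ioc.1 hn).1.le
        have h5 := taylor (v := v) (a := (n : ℝ) - q) (b := n) (by linarith) (by linarith) hv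
        have e : ((((n : ℝ) - ((n : ℝ) - q) : ℝ)) : ℂ) = (q : ℂ) := by
          push_cast
          ring
        rw [e, sub_sub_cancel] at h5
        rw [norm_mul]
        calc _ ≤ 1 * (|v| / ((n : ℝ) - q) * q * q) :=
              mul_le_mul (hf _) h5 (norm_nonneg _) zero_le_one
          _ = |v| / ((n : ℝ) - q) * q * q := one_mul _
          _ ≤ |v| / (N - q) * q * q := by
              have : |v| / ((n : ℝ) - q) ≤ |v| / (N - q) :=
                div_le_div_of_nonneg_left hv0.le hNqpos (by linarith)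
              gcongr
      refine (norm_sum_le_of_le _ h4).trans ?_
      rw [Finset.sum_const, Nat.card_Ioc, nsmul_eq_mul]
      have h5 : ((N' - N : ℕ) : ℝ) ≤ N := by
        have : N' - N ≤ N := by omega
        exact_mod_cast this
      have h6 : (N : ℝ) * (|v| / (N - q)) ≤ 2 * |v| := by
        rw [mul_div_assoc', div_le_iff₀ hNqpos]
        nlinarith
      calc ((N' - N : ℕ) : ℝ) * (|v| / (N - q) * q * q)
          ≤ N * (|v| / (N - q) * q * q) := by
            refine mul_le_mul_of_nonneg_right h5 ?_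
            have : 0 ≤ |v| / ((N : ℝ) - q) := by positivity
            positivity
        _ = N * (|v| / (N - q)) * (q * q) := by ring
        _ ≤ 2 * |v| * (q * q) := mul_le_mul_of_nonneg_right h6 (by positivity)
        _ = q * (2 * (q * |v|)) := by ring
    have h4 : (q : ℝ) * ‖∑ n ∈ Ioc N N', f (n : ZMod q) *
        ((n : ℝ) : ℂ) ^ ((v : ℂ) * Complex.I)‖ ≤ q * (3 * N / |v| + 2 * (q * |v|)) := by
      have e2 : (q : ℝ) * ‖∑ n ∈ Ioc N N', f (n : ZMod q) *
          ((n : ℝ) : ℂ) ^ ((v : ℂ) * Complex.I)‖ = ‖(q : ℂ) * ∑ n ∈ Ioc N N', f (n : ZMod q) *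
          ((n : ℝ) : ℂ) ^ ((v : ℂ) * Complex.I)‖ := by
        rw [norm_mul, Complex.norm_natCast]
      rw [e2, e1, mul_add]
      exact (norm_add_le _ _).trans (add_le_add h2 h3)
    have h5 := le_of_mul_le_mul_left h4 (by linarith)
    refine h5.trans ?_
    have e3 : 3 * (N : ℝ) / |v| = 3 * (N / |v|) := by ring
    have : (0 : ℝ) ≤ q * |v| := by positivity
    linarith

end Pool.Agent.VK
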