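import Pool.Agent.Lib.VK.DefsC

/-!
# From Gaussian windows to sharp windows

PROOF SKETCH. `F v = sum_(X < n ≤ 3X) c n gs σ (v - log n)`. For `u` in `[X, 2X]`, `h ≤ X`:
`∫_(log u)^(log (u+h)) F = sum_n c n Φ_n`, `Φ_n = ∫_(log u)^(log(u+h)) gs σ (v - log n) dv ∈ [0, 1]`, and `|Φ_n - 1_(u < n ≤ u+h)| ≤ exp (-Λ^2/2)` unless `n` is within
logarithmic distance `σ Λ` of `u` or `u + h` (Gaussian tail: `∫_(|s| ≥ σΛ) gs σ s ds ≤ exp (-Λ^2/2)`); the number of the exceptional `n` is at most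
`2 (3X (e^(σΛ) - e^(-σΛ)) + 1) ≤ 2 + 20 X σ Λ` (`σ Λ ≤ 1`). So `|sum_(u < n ≤ u+h) c n - ∫ F| ≤ K (2 + 20 X σ Λ + 2 X exp (-Λ^2/2))`.
Cauchy-Schwarz: `|∫_(log u)^(log(u+h)) F|^2 ≤ (h/X) ∫_(log u)^(log(u+h)) |F|^2` (`log (u+h) - log u ≤ h/u`), and the sum over `u` of the last integrals is
`≤ (h+1) ∫ |F|^2` (each `v` lies in at most `h + 1` of the intervals). Use `|a + b|^2 ≤ 2|a|^2 + 2|b|^2`, and there are at most `X + 1` values of `u`.
-/

set_option autoImplicit false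

open Finset MeasureTheory

namespace Pool.Agent.VK

namespace SharpWinAux

lemma gs_nonneg {σ : ℝ} (hσ : 0 < σ) (v : ℝ) : 0 ≤ gs σ v := by
  unfold gs
  positivity

lemma gs_continuous (σ : ℝ) : Continuous (gs σ) := by
  unfold gs
  exact (Real.continuous_exp.comp ((continuous_pow 2).div_const _).neg).div_const _

lemma gs_even (σ v : ℝ) : gs σ (-v) = gs σ v := by
  unfold gs
  rw [neg_sq]

lemma gs_eq (σ v : ℝ) : gs σ v =
    Real.exp (-(1 / (2 * σ ^ 2)) * v ^ 2) * (1 / (σ * Real.sqrt (2 * Real.pi))) := by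
  unfold gs
  rw [div_eq_mul_one_div]
  congr 2
  ring

lemma gs_integrable {σ : ℝ} (hσ : 0 < σ) : Integrable (gs σ) := by
  have h1 : Integrable (fun x : ℝ => Real.exp (-(1 / (2 * σ ^ 2)) * x ^ 2)) :=
    integrable_exp_neg_mul_sq (by positivity)
  refine (h1.mul_const (1 / (σ * Real.sqrt (2 * Real.pi)))).congr
    (Filter.Eventually.of_forall fun v => ?_)
  exact (gs_eq σ v).symm

lemma gs_integral {σ : ℝ} (hσ : 0 < σ) : ∫ v : ℝ, gs σ v = 1 := by
  simp_rw [gs_eq σ]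
  rw [integral_mul_const, integral_gaussian]
  have hpi := Real.pi_pos
  have h1 : Real.pi / (1 / (2 * σ ^ 2)) = (2 * Real.pi) * σ ^ 2 := by
    field_simp
  rw [h1, Real.sqrt_mul (by positivity), Real.sqrt_sq hσ.le]
  have h2 : Real.sqrt (2 * Real.pi) ≠ 0 := by positivity
  field_simp

lemma gs_tail {σ Λ s : ℝ} (hσ : 0 < σ) (hΛ : 0 ≤ Λ) (hs : σ * Λ ≤ s) :
    gs σ s ≤ Real.exp (-(Λ ^ 2 / 2)) * gs σ (s - σ * Λ) := by
  unfold gs
  rw [← mul_div_assoc, ← Real.exp_add]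
  apply div_le_div_of_nonneg_right _ (by positivity)
  apply Real.exp_le_exp.mpr
  have h1 : Λ ^ 2 / 2 = (σ * Λ) ^ 2 / (2 * σ ^ 2) := by
    field_simp
  rw [h1, ← neg_add, neg_le_neg_iff, ← add_div]
  apply div_le_div_of_nonneg_right _ (by positivity)
  have h2 : 0 ≤ σ * Λ := by positivity
  nlinarith [mul_nonneg h2 (sub_nonneg.mpr hs)]

lemma shift_int {σ : ℝ} (hσ : 0 < σ) (x : ℝ) : ∫ v : ℝ, gs σ (v - x) = 1 := by
  rw [integral_sub_right_eq_self (fun v => gs σ v) x, gs_integral hσ]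

lemma shift_intble {σ : ℝ} (hσ : 0 < σ) (x : ℝ) : Integrable (fun v : ℝ => gs σ (v - x)) :=
  (gs_integrable hσ).comp_sub_right x

lemma phi_nonneg {σ : ℝ} (hσ : 0 < σ) {a b : ℝ} (hab : a ≤ b) (x : ℝ) :
    0 ≤ ∫ v in a..b, gs σ (v - x) :=
  intervalIntegral.integral_nonneg hab fun v _ => gs_nonneg hσ _

lemma phi_eq {σ : ℝ} {a b : ℝ} (hab : a ≤ b) (x : ℝ) :
    ∫ v in a..b, gs σ (v - x) = ∫ v : ℝ, (Set.Ioc a b).indicator (fun v => gs σ (v - x)) v := by
  rw [intervalIntegral.integral_of_le hab, integral_indicator measurableSet_Ioc]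

lemma ind_intble {σ : ℝ} (hσ : 0 < σ) (a b x : ℝ) :
    Integrable ((Set.Ioc a b).indicator (fun v => gs σ (v - x))) :=
  (shift_intble hσ x).indicator measurableSet_Ioc

lemma phi_le_one {σ : ℝ} (hσ : 0 < σ) {a b : ℝ} (hab : a ≤ b) (x : ℝ) :
    ∫ v in a..b, gs σ (v - x) ≤ 1 := by
  rw [phi_eq hab, ← shift_int hσ x]
  refine integral_mono (ind_intble hσ a b x) (shift_intble hσ x) fun v => ?_
  exact Set.indicator_le_self' (fun _ _ => gs_nonneg hσ _) v

lemma phi_left {σ Λ : ℝ} (hσ : 0 < σ) (hΛ : 0 ≤ Λ) {a b x : ℝ} (hab : a ≤ b)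
    (hx : x + σ * Λ ≤ a) :
    ∫ v in a..b, gs σ (v - x) ≤ Real.exp (-(Λ ^ 2 / 2)) := by
  have h1 : ∫ v : ℝ, Real.exp (-(Λ ^ 2 / 2)) * gs σ (v - (x + σ * Λ)) = Real.exp (-(Λ ^ 2 / 2)) := by
    rw [integral_const_mul, shift_int hσ, mul_one]
  rw [phi_eq hab, ← h1]
  refine integral_mono (ind_intble hσ a b x) ((shift_intble hσ _).const_mul _) fun v => ?_
  by_cases hv : v ∈ Set.Ioc a b
  · rw [Set.indicator_of_mem hv]
    have h2 := gs_tail (s := v - x) hσ hΛ (by linarith [hv.1])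
    rwa [sub_sub] at h2
  · rw [Set.indicator_of_notMem hv]
    exact mul_nonneg (Real.exp_pos _).le (gs_nonneg hσ _)

lemma flip_int {σ : ℝ} (hσ : 0 < σ) (y : ℝ) : ∫ v : ℝ, gs σ (y - v) = 1 := by
  rw [← shift_int hσ y]
  congr 1
  funext v
  rw [← gs_even σ (y - v), neg_sub]

lemma flip_intble {σ : ℝ} (hσ : 0 < σ) (y : ℝ) : Integrable (fun v : ℝ => gs σ (y - v)) := by
  refine (shift_intble hσ y).congr (Filter.Eventually.of_forall fun v => ?_)
  show gs σ (v - y) = gs σ (y - v)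
  rw [← gs_even σ (y - v), neg_sub]

lemma gs_tail' {σ Λ x v : ℝ} (hσ : 0 < σ) (hΛ : 0 ≤ Λ) (hs : σ * Λ ≤ x - v) :
    gs σ (v - x) ≤ Real.exp (-(Λ ^ 2 / 2)) * gs σ ((x - σ * Λ) - v) := by
  have h2 := gs_tail (s := x - v) hσ hΛ hs
  rw [← gs_even σ (v - x), neg_sub]
  have h3 : x - σ * Λ - v = x - v - σ * Λ := by ring
  rw [h3]
  exact h2

lemma phi_right {σ Λ : ℝ} (hσ : 0 < σ) (hΛ : 0 ≤ Λ) {a b x : ℝ} (hab : a ≤ b)
    (hx : b + σ * Λ ≤ x) :
    ∫ v in a..b, gs σ (v - x) ≤ Real.exp (-(Λ ^ 2 / 2)) := by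
  have h1 : ∫ v : ℝ, Real.exp (-(Λ ^ 2 / 2)) * gs σ ((x - σ * Λ) - v) = Real.exp (-(Λ ^ 2 / 2)) := by
    rw [integral_const_mul, flip_int hσ, mul_one]
  rw [phi_eq hab, ← h1]
  refine integral_mono (ind_intble hσ a b x) ((flip_intble hσ _).const_mul _) fun v => ?_
  by_cases hv : v ∈ Set.Ioc a b
  · rw [Set.indicator_of_mem hv]
    exact gs_tail' hσ hΛ (by linarith [hv.2])
  · rw [Set.indicator_of_notMem hv]
    exact mul_nonneg (Real.exp_pos _).le (gs_nonneg hσ _)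

lemma phi_mid {σ Λ : ℝ} (hσ : 0 < σ) (hΛ : 0 ≤ Λ) {a b x : ℝ} (hab : a ≤ b)
    (hx : a + σ * Λ ≤ x) (hx' : x + σ * Λ ≤ b) :
    1 - 2 * Real.exp (-(Λ ^ 2 / 2)) ≤ ∫ v in a..b, gs σ (v - x) := by
  have h0 : 0 < Real.exp (-(Λ ^ 2 / 2)) := Real.exp_pos _
  have hi1 := ind_intble hσ a b x
  have hi2 := (flip_intble hσ (x - σ * Λ)).const_mul (Real.exp (-(Λ ^ 2 / 2)))
  have hi3 := (shift_intble hσ (x + σ * Λ)).const_mul (Real.exp (-(Λ ^ 2 / 2)))
  have h1 : ∫ v : ℝ, gs σ (v - x) ≤ ∫ v : ℝ, ((Set.Ioc a b).indicator (fun v => gs σ (v - x)) v +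
      (Real.exp (-(Λ ^ 2 / 2)) * gs σ ((x - σ * Λ) - v) +
        Real.exp (-(Λ ^ 2 / 2)) * gs σ (v - (x + σ * Λ)))) := by
    refine integral_mono (shift_intble hσ x) (hi1.add (hi2.add hi3)) fun v => ?_
    have hp1 : 0 ≤ Real.exp (-(Λ ^ 2 / 2)) * gs σ ((x - σ * Λ) - v) :=
      mul_nonneg h0.le (gs_nonneg hσ _)
    have hp2 : 0 ≤ Real.exp (-(Λ ^ 2 / 2)) * gs σ (v - (x + σ * Λ)) :=
      mul_nonneg h0.le (gs_nonneg hσ _)
    show gs σ (v - x) ≤ (Set.Ioc a b).indicator (fun v => gs σ (v - x)) v +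
      (Real.exp (-(Λ ^ 2 / 2)) * gs σ ((x - σ * Λ) - v) +
        Real.exp (-(Λ ^ 2 / 2)) * gs σ (v - (x + σ * Λ)))
    by_cases hv : v ∈ Set.Ioc a b
    · rw [Set.indicator_of_mem hv]
      linarith only [hp1, hp2]
    · rw [Set.indicator_of_notMem hv]
      rw [Set.mem_Ioc, not_and_or, not_lt, not_le] at hv
      rcases hv with hv | hv
      · have := gs_tail' (x := x) (v := v) hσ hΛ (by linarith only [hx, hv])
        linarith only [hp2, this]
      · have h2 := gs_tail (s := v - x) hσ hΛ (by linarith only [hx', hv])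
        rw [sub_sub] at h2
        linarith only [hp1, h2]
  have h2 : ∫ v : ℝ, ((Set.Ioc a b).indicator (fun v => gs σ (v - x)) v +
      (Real.exp (-(Λ ^ 2 / 2)) * gs σ ((x - σ * Λ) - v) +
        Real.exp (-(Λ ^ 2 / 2)) * gs σ (v - (x + σ * Λ)))) =
      (∫ v : ℝ, (Set.Ioc a b).indicator (fun v => gs σ (v - x)) v) +
        ((∫ v : ℝ, Real.exp (-(Λ ^ 2 / 2)) * gs σ ((x - σ * Λ) - v)) +
          ∫ v : ℝ, Real.exp (-(Λ ^ 2 / 2)) * gs σ (v - (x + σ * Λ))) :=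
    (integral_add hi1 (hi2.add hi3)).trans (congrArg _ (integral_add hi2 hi3))
  rw [shift_int hσ, h2, integral_const_mul,
    integral_const_mul, flip_int hσ, shift_int hσ, ← phi_eq hab] at h1
  linarith

/-- The window weight against the indicator. -/
lemma phi_bound {σ Λ : ℝ} (hσ : 0 < σ) (hΛ : 1 ≤ Λ) {a b x : ℝ} (hab : a ≤ b) :
    |(∫ v in a..b, gs σ (v - x)) - (if a < x ∧ x ≤ b then 1 else 0)| ≤
      2 * Real.exp (-(Λ ^ 2 / 2)) + (if |x - a| < σ * Λ then 1 else 0) +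
        (if |x - b| < σ * Λ then 1 else 0) := by
  have hL : 0 < σ * Λ := by positivity
  have h0 := phi_nonneg hσ hab x
  have h1 := phi_le_one hσ hab x
  have he : 0 < Real.exp (-(Λ ^ 2 / 2)) := Real.exp_pos _
  have hone : |(∫ v in a..b, gs σ (v - x)) - (if a < x ∧ x ≤ b then 1 else 0)| ≤ 1 := by
    rw [abs_le]
    split_ifs <;> constructor <;> linarith
  by_cases ha : |x - a| < σ * Λ
  · rw [if_pos ha]
    have : (0:ℝ) ≤ (if |x - b| < σ * Λ then 1 else 0) := by split_ifs <;> norm_num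
    linarith
  by_cases hb : |x - b| < σ * Λ
  · rw [if_pos hb, if_neg ha]
    linarith
  rw [if_neg ha, if_neg hb, add_zero, add_zero]
  rw [not_lt, le_abs] at ha hb
  rcases ha with ha | ha
  · rcases hb with hb | hb
    · rw [if_neg (by rintro ⟨_, h⟩; linarith only [hL, hb, h]), sub_zero, abs_of_nonneg h0]
      have := phi_right (Λ := Λ) (x := x) hσ (by linarith) hab (by linarith)
      linarith
    · rw [if_pos ⟨by linarith, by linarith⟩, abs_sub_comm, abs_of_nonneg (by linarith)]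
      have := phi_mid (Λ := Λ) (x := x) hσ (by linarith) hab (by linarith) (by linarith)
      linarith
  · rw [if_neg (by rintro ⟨h, _⟩; linarith only [hL, ha, h]), sub_zero, abs_of_nonneg h0]
    have := phi_left (Λ := Λ) (x := x) hσ (by linarith) hab (by linarith)
    linarith

lemma count {y L : ℝ} (hy : 0 < y) (hL0 : 0 ≤ L) (hL1 : L ≤ 1) (S : Finset ℕ)
    (hS : ∀ n ∈ S, 1 ≤ n) :
    ∑ n ∈ S, (if |Real.log n - Real.log y| < L then (1:ℝ) else 0) ≤ 3 * y * L + 1 := by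
  rw [← Finset.sum_filter, Finset.sum_const, nsmul_eq_mul, mul_one]
  have hsub : S.filter (fun n : ℕ => |Real.log n - Real.log y| < L) ⊆
      Finset.Icc ⌈y * Real.exp (-L)⌉₊ ⌊y * Real.exp L⌋₊ := by
    intro n hn
    rw [Finset.mem_filter] at hn
    obtain ⟨hn1, hn2⟩ := hn
    have hn0 : (0:ℝ) < n := by exact_mod_cast hS n hn1
    rw [abs_lt] at hn2
    rw [Finset.mem_Icc]
    constructor
    · apply Nat.ceil_le.mpr
      rw [← Real.exp_log hn0]
      have : y * Real.exp (-L) = Real.exp (Real.log y + -L) := by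
        rw [Real.exp_add, Real.exp_log hy]
      rw [this]
      apply Real.exp_le_exp.mpr
      linarith
    · apply Nat.le_floor
      rw [← Real.exp_log hn0]
      have : y * Real.exp L = Real.exp (Real.log y + L) := by
        rw [Real.exp_add, Real.exp_log hy]
      rw [this]
      apply Real.exp_le_exp.mpr
      linarith
  have h1 := Finset.card_le_card hsub
  rw [Nat.card_Icc] at h1
  have hE1 : Real.exp L ≤ 1 + 2 * L := by
    have := Real.abs_exp_sub_one_sub_id_le (x := L) (by rw [abs_of_nonneg hL0]; exact hL1)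
    have h2 := (abs_le.mp this).2
    nlinarith only [hL0, hL1, h2]
  have hE2 : 1 - L ≤ Real.exp (-L) := by
    have := Real.add_one_le_exp (-L)
    linarith
  by_cases hc : ⌈y * Real.exp (-L)⌉₊ ≤ ⌊y * Real.exp L⌋₊ + 1
  · have h2 : ((S.filter (fun n : ℕ => |Real.log n - Real.log y| < L)).card : ℝ) ≤
        (⌊y * Real.exp L⌋₊ : ℝ) + 1 - (⌈y * Real.exp (-L)⌉₊ : ℝ) := by
      have h3 : ((S.filter (fun n : ℕ => |Real.log n - Real.log y| < L)).card : ℝ) ≤
          ((⌊y * Real.exp L⌋₊ + 1 - ⌈y * Real.exp (-L)⌉₊ : ℕ) : ℝ) := by exact_mod_cast h1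
      rw [Nat.cast_sub hc] at h3
      push_cast at h3
      exact h3
    have h4 : (⌊y * Real.exp L⌋₊ : ℝ) ≤ y * Real.exp L := Nat.floor_le (by positivity)
    have h5 : y * Real.exp (-L) ≤ (⌈y * Real.exp (-L)⌉₊ : ℝ) := Nat.le_ceil _
    have h6 : y * Real.exp L ≤ y * (1 + 2 * L) := mul_le_mul_of_nonneg_left hE1 hy.le
    have h7 : y * (1 - L) ≤ y * Real.exp (-L) := mul_le_mul_of_nonneg_left hE2 hy.le
    nlinarith only [h2, h4, h5, h6, h7]
  · have h2 : (S.filter (fun n : ℕ => |Real.log n - Real.log y| < L)).card = 0 := by omega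
    rw [h2]
    have : 0 ≤ 3 * y * L := by positivity
    push_cast
    linarith

/-- Cauchy-Schwarz on an interval. -/
lemma cs {a b : ℝ} (hab : a < b) (F : ℝ → ℂ) (hF : Continuous F) :
    ‖∫ v in a..b, F v‖ ^ 2 ≤ (b - a) * ∫ v in a..b, ‖F v‖ ^ 2 := by
  set I : ℝ := ∫ v in a..b, ‖F v‖ with hI
  have h1 : ‖∫ v in a..b, F v‖ ≤ I := intervalIntegral.norm_integral_le_integral_norm hab.le
  have hI0 : 0 ≤ I := (norm_nonneg _).trans h1
  have h2 : ‖∫ v in a..b, F v‖ ^ 2 ≤ I ^ 2 := pow_le_pow_left₀ (norm_nonneg _) h1 2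
  refine h2.trans ?_
  have hba : 0 < b - a := sub_pos.mpr hab
  set m : ℝ := I / (b - a) with hm
  have h3 : 0 ≤ ∫ v in a..b, (‖F v‖ - m) ^ 2 :=
    intervalIntegral.integral_nonneg hab.le fun v _ => sq_nonneg _
  have h4 : ∫ v in a..b, (‖F v‖ - m) ^ 2 =
      (∫ v in a..b, ‖F v‖ ^ 2) - 2 * m * I + m ^ 2 * (b - a) := by
    have e : ∀ v, (‖F v‖ - m) ^ 2 = ‖F v‖ ^ 2 - (2 * m) * ‖F v‖ + m ^ 2 := by
      intro v
      ring
    simp_rw [e]
    rw [intervalIntegral.integral_add, intervalIntegral.integral_sub,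
      intervalIntegral.integral_const_mul, intervalIntegral.integral_const]
    · simp only [smul_eq_mul]
      ring
    · exact (hF.norm.pow 2).intervalIntegrable _ _
    · exact (continuous_const.mul hF.norm).intervalIntegrable _ _
    · exact ((hF.norm.pow 2).sub (continuous_const.mul hF.norm)).intervalIntegrable _ _
    · exact continuous_const.intervalIntegrable _ _
  rw [h4] at h3
  have h5 : m * (b - a) = I := by
    rw [hm]
    field_simp
  have h6 : m ^ 2 * (b - a) = m * I := by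
    rw [sq, mul_assoc, h5]
  rw [h6] at h3
  have h7 : I ^ 2 = (b - a) * (m * I) := by
    rw [← mul_assoc, mul_comm (b - a) m, h5, sq]
  rw [h7]
  apply mul_le_mul_of_nonneg_left _ hba.le
  linarith only [h3]

/-- The windows cover each point at most `h` times. -/
lemma cover (X h : ℕ) (hX : 1 ≤ X) (G : ℝ → ℝ) (hG : Continuous G) (hG0 : ∀ v, 0 ≤ G v)
    (hGi : Integrable G) :
    ∑ u ∈ Icc X (2 * X), ∫ v in (Real.log u)..(Real.log ((u + h : ℕ) : ℝ)), G v ≤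
      h * ∫ v : ℝ, G v := by
  have h1 : ∀ u ∈ Icc X (2 * X), ∫ v in (Real.log u)..(Real.log ((u + h : ℕ) : ℝ)), G v =
      ∑ j ∈ Finset.range h, ∫ v in (Real.log ((u + j : ℕ) : ℝ))..(Real.log ((u + (j + 1) : ℕ) : ℝ)), G v := by
    intro u _
    have := intervalIntegral.sum_integral_adjacent_intervals (μ := volume) (f := G)
      (a := fun j : ℕ => Real.log ((u + j : ℕ) : ℝ)) (n := h)
      (fun k _ => hG.intervalIntegrable _ _)
    rw [this]
    simp
  rw [Finset.sum_congr rfl h1, Finset.sum_comm]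
  have h2 : ∀ j ∈ Finset.range h, ∑ u ∈ Icc X (2 * X),
      ∫ v in (Real.log ((u + j : ℕ) : ℝ))..(Real.log ((u + (j + 1) : ℕ) : ℝ)), G v ≤
      ∫ v : ℝ, G v := by
    intro j _
    have h3 := intervalIntegral.sum_integral_adjacent_intervals (μ := volume) (f := G)
      (a := fun i : ℕ => Real.log ((X + i + j : ℕ) : ℝ)) (n := X + 1)
      (fun k _ => hG.intervalIntegrable _ _)
    have h4 : ∑ u ∈ Icc X (2 * X),
        ∫ v in (Real.log ((u + j : ℕ) : ℝ))..(Real.log ((u + (j + 1) : ℕ) : ℝ)), G v =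
        ∑ i ∈ Finset.range (X + 1),
          ∫ v in (Real.log ((X + i + j : ℕ) : ℝ))..(Real.log ((X + (i + 1) + j : ℕ) : ℝ)), G v := by
      symm
      refine Finset.sum_bij (fun i _ => X + i) ?_ ?_ ?_ ?_
      · intro i hi
        rw [Finset.mem_range] at hi
        rw [Finset.mem_Icc]
        omega
      · intro i _ i' _ hii
        omega
      · intro u hu
        rw [Finset.mem_Icc] at hu
        exact ⟨u - X, by rw [Finset.mem_range]; omega, by omega⟩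
      · intro i _
        have e : X + (i + 1) + j = X + i + (j + 1) := by ring
        rw [e]
    rw [h4, h3]
    have hle : Real.log ((X + 0 + j : ℕ) : ℝ) ≤ Real.log ((X + (X + 1) + j : ℕ) : ℝ) := by
      apply Real.log_le_log
      · exact_mod_cast (by omega : 0 < X + 0 + j)
      · exact_mod_cast (by omega : X + 0 + j ≤ X + (X + 1) + j)
    rw [intervalIntegral.integral_of_le hle]
    exact setIntegral_le_integral hGi (Filter.Eventually.of_forall hG0)
  refine (Finset.sum_le_sum h2).trans ?_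
  rw [Finset.sum_const, Finset.card_range, nsmul_eq_mul]

end SharpWinAux

open SharpWinAux

theorem sharp_win : ∃ C : ℝ, 1 ≤ C ∧ ∀ (X h : ℕ) (c : ℕ → ℂ) (K σ Λ : ℝ), 1 ≤ X → 1 ≤ h → h ≤ X → 0 < σ → 1 ≤ Λ →
    σ * Λ ≤ 1 → (∀ n ∈ Ioc X (3 * X), ‖c n‖ ≤ K) →
    Integrable (fun v : ℝ => ‖∑ n ∈ Ioc X (3 * X), c n * (gs σ (v - Real.log n) : ℂ)‖ ^ 2) →
    ∑ u ∈ Icc X (2 * X), ‖∑ n ∈ Ioc u (u + h), c n‖ ^ 2 ≤
      C * ((h : ℝ) ^ 2 / X * (∫ v : ℝ, ‖∑ n ∈ Ioc X (3 * X), c n * (gs σ (v - Real.log n) : ℂ)‖ ^ 2) +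
        X * K ^ 2 * (1 + X * σ * Λ + X * Real.exp (-(Λ ^ 2 / 2))) ^ 2) := by
  refine ⟨900, by norm_num, ?_⟩
  intro X h c K σ Λ hX hh hhX hσ hΛ hσΛ hK hint
  have hX0 : (0:ℝ) < X := by exact_mod_cast hX
  have hX1 : (1:ℝ) ≤ X := by exact_mod_cast hX
  have hh0 : (0:ℝ) < h := by exact_mod_cast hh
  have hK0 : 0 ≤ K := (norm_nonneg _).trans (hK (X + 1) (by rw [Finset.mem_Ioc]; omega))
  have hL0 : 0 < σ * Λ := by positivity
  set F : ℝ → ℂ := fun v => ∑ n ∈ Ioc X (3 * X), c n * (gs σ (v - Real.log n) : ℂ) with hF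
  have hFc : Continuous F := by
    refine continuous_finsetSum _ fun n _ => continuous_const.mul ?_
    exact Complex.continuous_ofReal.comp ((gs_continuous σ).comp (continuous_id.sub continuous_const))
  set e : ℝ := Real.exp (-(Λ ^ 2 / 2)) with he
  have he0 : 0 < e := Real.exp_pos _
  set B : ℝ := 1 + X * σ * Λ + X * e with hB
  have hB0 : 0 ≤ B := by positivity
  -- the approximation
  have happ : ∀ u ∈ Icc X (2 * X), ‖(∑ n ∈ Ioc u (u + h), c n) -
      ∫ v in (Real.log u)..(Real.log ((u + h : ℕ) : ℝ)), F v‖ ≤ 15 * K * B := by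
    intro u hu
    rw [Finset.mem_Icc] at hu
    have hu0 : (0:ℝ) < u := by exact_mod_cast (by omega : 0 < u)
    have huh0 : (0:ℝ) < ((u + h : ℕ) : ℝ) := by exact_mod_cast (by omega : 0 < u + h)
    have hab : Real.log u ≤ Real.log ((u + h : ℕ) : ℝ) :=
      Real.log_le_log hu0 (by exact_mod_cast (by omega : u ≤ u + h))
    have h1 : ∫ v in (Real.log u)..(Real.log ((u + h : ℕ) : ℝ)), F v =
        ∑ n ∈ Ioc X (3 * X), c n *
          ((∫ v in (Real.log u)..(Real.log ((u + h : ℕ) : ℝ)), gs σ (v - Real.log n) : ℝ) : ℂ) := by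
      simp only [hF]
      rw [intervalIntegral.integral_finsetSum]
      · refine Finset.sum_congr rfl fun n _ => ?_
        rw [intervalIntegral.integral_const_mul, intervalIntegral.integral_ofReal]
      · intro n _
        refine Continuous.intervalIntegrable ?_ _ _
        exact continuous_const.mul (Complex.continuous_ofReal.comp
          ((gs_continuous σ).comp (continuous_id.sub continuous_const)))
    have h2 : ∑ n ∈ Ioc u (u + h), c n = ∑ n ∈ Ioc X (3 * X), c n *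
        (((if Real.log u < Real.log n ∧ Real.log n ≤ Real.log ((u + h : ℕ) : ℝ) then 1 else 0 : ℝ)) : ℂ) := by
      have h3 : Ioc u (u + h) = (Ioc X (3 * X)).filter
          (fun n : ℕ => Real.log u < Real.log n ∧ Real.log n ≤ Real.log ((u + h : ℕ) : ℝ)) := by
        ext n
        rw [Finset.mem_filter, Finset.mem_Ioc, Finset.mem_Ioc]
        constructor
        · rintro ⟨ha, hb⟩
          have hn0 : (0:ℝ) < n := by exact_mod_cast (by omega : 0 < n)
          refine ⟨⟨by omega, by omega⟩, ?_, ?_⟩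
          · exact Real.log_lt_log hu0 (by exact_mod_cast ha)
          · exact Real.log_le_log hn0 (by exact_mod_cast hb)
        · rintro ⟨⟨ha, hb⟩, h4, h5⟩
          have hn0 : (0:ℝ) < n := by exact_mod_cast (by omega : 0 < n)
          have h6 : (u:ℝ) < n := (Real.log_lt_log_iff hu0 hn0).mp h4
          have h7 : (n:ℝ) ≤ ((u + h : ℕ) : ℝ) := (Real.log_le_log_iff hn0 huh0).mp h5
          exact ⟨by exact_mod_cast h6, by exact_mod_cast h7⟩
      rw [h3, Finset.sum_filter]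
      refine Finset.sum_congr rfl fun n _ => ?_
      split_ifs <;> simp
    rw [h1, h2, ← Finset.sum_sub_distrib]
    refine (norm_sum_le _ _).trans ?_
    have h3 : ∀ n ∈ Ioc X (3 * X), ‖c n *
        (((if Real.log u < Real.log n ∧ Real.log n ≤ Real.log ((u + h : ℕ) : ℝ) then 1 else 0 : ℝ)) : ℂ) -
        c n * ((∫ v in (Real.log u)..(Real.log ((u + h : ℕ) : ℝ)), gs σ (v - Real.log n) : ℝ) : ℂ)‖ ≤
        K * (2 * e + (if |Real.log n - Real.log u| < σ * Λ then 1 else 0) +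
          (if |Real.log n - Real.log ((u + h : ℕ) : ℝ)| < σ * Λ then 1 else 0)) := by
      intro n hn
      rw [← mul_sub, norm_mul, ← Complex.ofReal_sub, Complex.norm_real, Real.norm_eq_abs,
        abs_sub_comm]
      exact mul_le_mul (hK n hn) (phi_bound hσ hΛ hab) (abs_nonneg _) hK0
    refine (Finset.sum_le_sum h3).trans ?_
    rw [← Finset.mul_sum, Finset.sum_add_distrib, Finset.sum_add_distrib, Finset.sum_const,
      Nat.card_Ioc, nsmul_eq_mul]
    have hS : ∀ n ∈ Ioc X (3 * X), 1 ≤ n := fun n hn => by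
      rw [Finset.mem_Ioc] at hn
      omega
    have h4 := count hu0 hL0.le hσΛ (Ioc X (3 * X)) hS
    have h5 := count huh0 hL0.le hσΛ (Ioc X (3 * X)) hS
    have hu2 : (u:ℝ) ≤ 2 * X := by exact_mod_cast hu.2
    have hu3 : ((u + h : ℕ) : ℝ) ≤ 3 * X := by exact_mod_cast (by omega : u + h ≤ 3 * X)
    have h6 : (3 * X - X : ℕ) = 2 * X := by omega
    rw [h6]
    have h7 : 3 * (u:ℝ) * (σ * Λ) ≤ 6 * (X * (σ * Λ)) := by nlinarith only [hL0, hu2]
    have h8 : 3 * ((u + h : ℕ) : ℝ) * (σ * Λ) ≤ 9 * (X * (σ * Λ)) := by nlinarith only [hL0, hu3]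
    have h9 : (0:ℝ) ≤ X * (σ * Λ) := by (clear * - hX hσ hΛ; positivity)
    have h10 : (0:ℝ) ≤ X * e := by (clear * - hX; positivity)
    have h11 : ((2 * X : ℕ) : ℝ) * (2 * e) = 4 * (X * e) := by
      push_cast
      ring
    have hB' : B = 1 + X * (σ * Λ) + X * e := by
      rw [hB]
      ring
    rw [h11, mul_comm 15 K, mul_assoc K 15 B]
    apply mul_le_mul_of_nonneg_left _ hK0
    rw [hB']
    linarith only [h4, h5, h7, h8, h10]
  -- Cauchy-Schwarz
  have hcs : ∀ u ∈ Icc X (2 * X), ‖∫ v in (Real.log u)..(Real.log ((u + h : ℕ) : ℝ)), F v‖ ^ 2 ≤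
      (h / X) * ∫ v in (Real.log u)..(Real.log ((u + h : ℕ) : ℝ)), ‖F v‖ ^ 2 := by
    intro u hu
    rw [Finset.mem_Icc] at hu
    have hu0 : (0:ℝ) < u := by exact_mod_cast (by omega : 0 < u)
    have hab : Real.log u < Real.log ((u + h : ℕ) : ℝ) :=
      Real.log_lt_log hu0 (by exact_mod_cast (by omega : u < u + h))
    refine (cs hab F hFc).trans ?_
    apply mul_le_mul_of_nonneg_right
    · rw [← Real.log_div (by positivity) hu0.ne']
      have h1 := Real.log_le_sub_one_of_pos (x := ((u + h : ℕ) : ℝ) / u) (by positivity)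
      have h2 : ((u + h : ℕ) : ℝ) / u - 1 = h / u := by
        push_cast
        field_simp
        ring
      rw [h2] at h1
      refine h1.trans ?_
      exact div_le_div_of_nonneg_left hh0.le hX0 (by exact_mod_cast hu.1)
    · exact intervalIntegral.integral_nonneg hab.le fun v _ => by positivity
  have hcov := cover X h hX (fun v => ‖F v‖ ^ 2) (hFc.norm.pow 2) (fun v => by positivity) hint
  have hpt : ∀ u ∈ Icc X (2 * X), ‖∑ n ∈ Ioc u (u + h), c n‖ ^ 2 ≤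
      2 * ((h / X) * ∫ v in (Real.log u)..(Real.log ((u + h : ℕ) : ℝ)), ‖F v‖ ^ 2) +
        2 * (15 * K * B) ^ 2 := by
    intro u hu
    have h1 := happ u hu
    have h2 := hcs u hu
    set A := ∫ v in (Real.log u)..(Real.log ((u + h : ℕ) : ℝ)), F v with hA
    set D := ∑ n ∈ Ioc u (u + h), c n with hD
    have h3 : ‖D‖ ≤ ‖A‖ + ‖D - A‖ := by
      calc ‖D‖ = ‖A + (D - A)‖ := by rw [add_sub_cancel]
        _ ≤ _ := norm_add_le _ _
    have h4 : ‖D‖ ^ 2 ≤ (‖A‖ + ‖D - A‖) ^ 2 := pow_le_pow_left₀ (norm_nonneg _) h3 2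
    have h5 : ‖D - A‖ ^ 2 ≤ (15 * K * B) ^ 2 := pow_le_pow_left₀ (norm_nonneg _) h1 2
    nlinarith only [h2, h4, h5, sq_nonneg (‖A‖ - ‖D - A‖)]
  refine (Finset.sum_le_sum hpt).trans ?_
  rw [Finset.sum_add_distrib, Finset.sum_const, Nat.card_Icc, nsmul_eq_mul, ← Finset.mul_sum,
    ← Finset.mul_sum]
  have h1 : (h / X : ℝ) * ∑ u ∈ Icc X (2 * X), ∫ v in (Real.log u)..(Real.log ((u + h : ℕ) : ℝ)), ‖F v‖ ^ 2 ≤
      (h / X : ℝ) * (h * ∫ v : ℝ, ‖F v‖ ^ 2) := mul_le_mul_of_nonneg_left hcov (by positivity)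
  have h2 : (h / X : ℝ) * (h * ∫ v : ℝ, ‖F v‖ ^ 2) = (h : ℝ) ^ 2 / X * ∫ v : ℝ, ‖F v‖ ^ 2 := by
    ring
  have h3 : ((2 * X + 1 - X : ℕ) : ℝ) ≤ 2 * X := by
    have : 2 * X + 1 - X ≤ 2 * X := by omega
    exact_mod_cast this
  have h4 : ((2 * X + 1 - X : ℕ) : ℝ) * (2 * (15 * K * B) ^ 2) ≤ (2 * X) * (2 * (15 * K * B) ^ 2) :=
    mul_le_mul_of_nonneg_right h3 (by (clear * -; positivity))
  have h5 : (0:ℝ) ≤ (h : ℝ) ^ 2 / X * ∫ v : ℝ, ‖F v‖ ^ 2 :=
    mul_nonneg (by (clear * - hX hh; positivity)) (integral_nonneg fun v => by (clear * -; positivity))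
  calc 2 * ((h / X : ℝ) * ∑ u ∈ Icc X (2 * X), ∫ v in (Real.log u)..(Real.log ((u + h : ℕ) : ℝ)), ‖F v‖ ^ 2) +
        ((2 * X + 1 - X : ℕ) : ℝ) * (2 * (15 * K * B) ^ 2) ≤
        2 * ((h : ℝ) ^ 2 / X * ∫ v : ℝ, ‖F v‖ ^ 2) + (2 * X) * (2 * (15 * K * B) ^ 2) := by
        linarith only [h1, h2, h4]
    _ ≤ 900 * ((h : ℝ) ^ 2 / X * ∫ v : ℝ, ‖F v‖ ^ 2) + (2 * X) * (2 * (15 * K * B) ^ 2) := by
        linarith only [h5]
    _ = 900 * ((h : ℝ) ^ 2 / X * (∫ v : ℝ, ‖F v‖ ^ 2) + X * K ^ 2 * B ^ 2) := by ring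

end Pool.Agent.VK
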