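import Pool.Agent.Lib.HLT.WeylLog

/-!
# Level sets of a Weyl sum on a grid, all levels

PROOF SKETCH. Let `d = P.natDegree`, `E = 2^d`, `weyl_log P hd` with the constants `C1, κ` (make `C1 ≥ 1`), `L = log K ≥ 1` (`K ≥ 3`), `R = 4 C1 V^E L^κ ≥ 4`. Take `D = 3 E`, `k = 3 κ`, `C = 10^4 C1^3` (any large constant).
The hypothesis gives `R ≤ K`. Let `Qr = K^d/R ≥ 1`, `n = ⌊Qr⌋`. For `ζ` in the level set Dirichlet's theorem (`Real.exists_int_int_abs_mul_sub_le` or as in `HLT/PolySpec.lean`, proof of `poly_spec`) gives a reduced fraction `a/q`, `1 ≤ q ≤ n`,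
`|ζ/N - a/q| ≤ 1/((n+1) q) ≤ min (1/q^2) (R/(q K^d))`. `weyl_log` at `α = ζ/N` (note `ex (α * P)`): `V^(-E) ≤ C1 (1/q + 1/K + q/K^d) L^κ`; here `C1 L^κ/K ≤ V^(-E)/4` (as `R ≤ K`) and `C1 L^κ q/K^d ≤ C1 L^κ/R = V^(-E)/4`.
So `V^(-E)/2 ≤ C1 L^κ/q`, that is `q ≤ 2 C1 V^E L^κ ≤ R`. Now `|ζ - N (a/q)| ≤ N R/K^d` with `1 ≤ q ≤ ⌊R⌋`, `|a| ≤ 2 q` (since `0 ≤ ζ/N < 1`): by the private lemma `ps_count` of `HLT/PolySpec.lean` (copy it with `ps_near`) the level set has at most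
`R (4 R + 1) (2 N R/K^d + 1) ≤ 10 R^3 (N/K^d + 1)` elements.
-/

set_option autoImplicit false

open Finset Filter

namespace Pool.Agent.VK

open Pool.Agent.HLT

/-- counting of integers near a real number -/
private lemma pl_near (S : Finset ℕ) (c R : ℝ) (hR : 0 ≤ R) (h : ∀ ζ ∈ S, |(ζ : ℝ) - c| ≤ R) :
    (S.card : ℝ) ≤ 2 * R + 1 := by
  have h1 : S.image (fun k : ℕ => (k : ℤ)) ⊆ Icc ⌈c - R⌉ ⌊c + R⌋ := by
    intro z hz
    rw [Finset.mem_image] at hz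
    obtain ⟨k, hk, rfl⟩ := hz
    have := abs_le.mp (h k hk)
    rw [Finset.mem_Icc, Int.ceil_le, Int.le_floor]
    push_cast
    constructor <;> linarith [this.1, this.2]
  have h2 := Finset.card_le_card h1
  rw [Finset.card_image_of_injective _ (fun a b hab => by exact_mod_cast hab), Int.card_Icc] at h2
  have h3 : (((⌊c + R⌋ + 1 - ⌈c - R⌉).toNat : ℤ) : ℝ) ≤ 2 * R + 1 := by
    rw [Int.toNat_eq_max]
    push_cast
    apply max_le
    · have a1 := Int.floor_le (c + R)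
      have a2 := Int.le_ceil (c - R)
      linarith
    · linarith
  calc (S.card : ℝ) ≤ ((⌊c + R⌋ + 1 - ⌈c - R⌉).toNat : ℝ) := by exact_mod_cast h2
    _ = (((⌊c + R⌋ + 1 - ⌈c - R⌉).toNat : ℤ) : ℝ) := by norm_cast
    _ ≤ _ := h3

/-- counting of the integers close to rational points of small denominator -/
private lemma pl_count (S : Finset ℕ) (N Q : ℕ) (R : ℝ) (hR : 0 ≤ R)
    (h : ∀ ζ ∈ S, ∃ (q : ℕ) (a : ℤ), 1 ≤ q ∧ q ≤ Q ∧ |a| ≤ 2 * Q ∧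
      |(ζ : ℝ) - N * (a / q)| ≤ R) :
    (S.card : ℝ) ≤ Q * (4 * Q + 1) * (2 * R + 1) := by
  classical
  set I : Finset (ℕ × ℤ) := Icc 1 Q ×ˢ Icc (-(2 * Q : ℤ)) (2 * Q) with hI
  have h1 : S ⊆ I.biUnion (fun u => S.filter (fun ζ : ℕ => |(ζ : ℝ) - N * (u.2 / u.1)| ≤ R)) := by
    intro ζ hζ
    obtain ⟨q, a, hq1, hq2, ha, hb⟩ := h ζ hζ
    rw [Finset.mem_biUnion]
    refine ⟨(q, a), ?_, ?_⟩
    · rw [hI, Finset.mem_product, Finset.mem_Icc, Finset.mem_Icc]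
      exact ⟨⟨hq1, hq2⟩, abs_le.mp ha⟩
    · rw [Finset.mem_filter]
      exact ⟨hζ, hb⟩
  have h2 := (Finset.card_le_card h1).trans Finset.card_biUnion_le
  have h3 : (I.card : ℝ) = Q * (4 * Q + 1) := by
    rw [hI, Finset.card_product, Nat.card_Icc, Int.card_Icc]
    have : (2 * (Q : ℤ) + 1 - -(2 * Q)).toNat = 4 * Q + 1 := by omega
    rw [this]
    push_cast
    simp
  calc (S.card : ℝ) ≤ ((∑ u ∈ I, (S.filter (fun ζ : ℕ => |(ζ : ℝ) - N * (u.2 / u.1)| ≤ R)).card : ℕ) : ℝ) := by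
        exact_mod_cast h2
    _ = ∑ u ∈ I, ((S.filter (fun ζ : ℕ => |(ζ : ℝ) - N * (u.2 / u.1)| ≤ R)).card : ℝ) := by
        push_cast; rfl
    _ ≤ ∑ u ∈ I, (2 * R + 1) := by
        apply Finset.sum_le_sum
        intro u _
        apply pl_near _ (N * (u.2 / u.1)) R hR
        intro ζ hζ
        exact (Finset.mem_filter.mp hζ).2
    _ = Q * (4 * Q + 1) * (2 * R + 1) := by
        rw [Finset.sum_const, nsmul_eq_mul, h3]

theorem poly_level (P : Polynomial ℤ) (hd : 2 ≤ P.natDegree) : ∃ D k : ℕ, ∃ C : ℝ, 1 ≤ C ∧ ∀ (K N : ℕ) (V : ℝ), 3 ≤ K →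
    1 ≤ N → 1 ≤ V → C * V ^ D * Real.log K ^ k ≤ K →
    (((range N).filter (fun ζ : ℕ => (K : ℝ) ≤ V * ‖∑ n ∈ Icc 1 K, ex (((ζ : ℝ) / N) * (P.eval (n : ℤ) : ℤ))‖)).card : ℝ) ≤
      C * V ^ D * Real.log K ^ k * (N / (K : ℝ) ^ P.natDegree + 1) := by
  obtain ⟨C0, κ, hC0, hW0⟩ := weyl_log P hd
  set d := P.natDegree with hdd
  set C1 : ℝ := max C0 1 with hC1d
  have hC1 : 1 ≤ C1 := le_max_right _ _
  have hC10 : 0 < C1 := by linarith
  have hC01 : C0 ≤ C1 := le_max_left _ _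
  set E : ℕ := 2 ^ d with hE
  refine ⟨3 * E, 3 * κ, 10 ^ 4 * C1 ^ 3, ?_, ?_⟩
  · have : 1 ≤ C1 ^ 3 := one_le_pow₀ hC1
    linarith
  intro K N V hK3 hN hV hVK
  set L := Real.log K with hL
  have hK3R : (3 : ℝ) ≤ K := by exact_mod_cast hK3
  have hKR : (0 : ℝ) < K := by linarith only [hK3R]
  have hL1 : 1 ≤ L := by
    rw [hL, Real.le_log_iff_exp_le hKR]
    have := Real.exp_one_lt_d9
    linarith only [hK3R, this]
  have hL0 : 0 < L := by linarith only [hL1]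
  have hNR : (1 : ℝ) ≤ N := by exact_mod_cast hN
  have hN0 : (0 : ℝ) < N := by linarith only [hNR]
  have hVE : 1 ≤ V ^ E := one_le_pow₀ hV
  have hLκ : 1 ≤ L ^ κ := one_le_pow₀ hL1
  have hV0 : 0 < V := by linarith only [hV]
  set R : ℝ := 4 * C1 * V ^ E * L ^ κ with hR
  have hR4 : 4 ≤ R := by
    have h1 : 1 ≤ C1 * V ^ E := by
      calc (1 : ℝ) = 1 * 1 := by ring
        _ ≤ C1 * V ^ E := by gcongr
    have h2 : 1 ≤ C1 * V ^ E * L ^ κ := by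
      calc (1 : ℝ) = 1 * 1 := by ring
        _ ≤ C1 * V ^ E * L ^ κ := by gcongr
    rw [hR]
    nlinarith only [h2]
  have hR0 : 0 < R := by linarith only [hR4]
  have hR3 : R ^ 3 = 64 * C1 ^ 3 * V ^ (3 * E) * L ^ (3 * κ) := by
    rw [hR, mul_comm 3 E, mul_comm 3 κ, pow_mul, pow_mul]
    ring
  have hRR3 : R ≤ R ^ 3 := by
    calc R = R ^ 1 := (pow_one R).symm
      _ ≤ R ^ 3 := pow_le_pow_right₀ (by linarith only [hR4]) (by norm_num)
  have hbig : R ^ 3 * 10 ≤ 10 ^ 4 * C1 ^ 3 * V ^ (3 * E) * L ^ (3 * κ) := by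
    rw [hR3]
    have h0 : 0 ≤ C1 ^ 3 * V ^ (3 * E) * L ^ (3 * κ) := by (clear * - hC0 hV hL1; positivity)
    nlinarith only [hR4, hR3, hRR3]
  have hRK : R ≤ K := by
    have h0 : 0 ≤ R ^ 3 := by (clear * - hC0 hV hL1; positivity)
    calc R ≤ R ^ 3 := hRR3
      _ ≤ R ^ 3 * 10 := by linarith only [hR4, hRR3]
      _ ≤ _ := hbig
      _ ≤ K := hVK
  have hKd0 : 0 < (K : ℝ) ^ d := by (clear * - hK3; positivity)
  have hKKd : (K : ℝ) ≤ (K : ℝ) ^ d := by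
    have h1 : (1 : ℝ) ≤ K := by linarith only [hK3R]
    calc (K : ℝ) = (K : ℝ) ^ 1 := (pow_one _).symm
      _ ≤ (K : ℝ) ^ d := pow_le_pow_right₀ h1 (by omega)
  have hcount := pl_count ((range N).filter (fun ζ : ℕ => (K : ℝ) ≤ V * ‖∑ n ∈ Icc 1 K, ex (((ζ : ℝ) / N) * (P.eval (n : ℤ) : ℤ))‖)) N ⌊R⌋₊
    (N * (R / (K : ℝ) ^ d)) (by (clear * - hC0 hK3 hN hV hL1; positivity)) ?_
  · refine hcount.trans ?_
    have hQ : ((⌊R⌋₊ : ℕ) : ℝ) ≤ R := Nat.floor_le hR0.le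
    have hQ0 : (0 : ℝ) ≤ ((⌊R⌋₊ : ℕ) : ℝ) := Nat.cast_nonneg _
    set u : ℝ := N / (K : ℝ) ^ d with hu
    have hu0 : 0 ≤ u := by (clear * - hK3 hN; positivity)
    have hu2 : N * (R / (K : ℝ) ^ d) = R * u := by
      rw [hu]
      ring
    rw [hu2]
    calc ((⌊R⌋₊ : ℕ) : ℝ) * (4 * ((⌊R⌋₊ : ℕ) : ℝ) + 1) * (2 * (R * u) + 1)
        ≤ R * (5 * R) * (2 * R * (u + 1)) := by
          have h1 : 4 * ((⌊R⌋₊ : ℕ) : ℝ) + 1 ≤ 5 * R := by linarith only [hR4, hQ]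
          have h2 : 2 * (R * u) + 1 ≤ 2 * R * (u + 1) := by nlinarith only [hR4]
          have h3 : 0 ≤ 2 * (R * u) + 1 := by (clear * - hC0 hK3 hN hV hL1; positivity)
          gcongr
      _ = R ^ 3 * 10 * (u + 1) := by ring
      _ ≤ _ := by
          apply mul_le_mul_of_nonneg_right hbig (by linarith only [hu0])
  intro ζ hζ
  rw [Finset.mem_filter, Finset.mem_range] at hζ
  obtain ⟨hζN, hζT⟩ := hζ
  set α : ℝ := (ζ : ℝ) / N with hα
  have hα0 : 0 ≤ α := by (clear * - hN; positivity)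
  have hα1 : α ≤ 1 := by
    rw [hα, div_le_one hN0]
    exact_mod_cast hζN.le
  set s : ℝ := ‖∑ k ∈ Icc 1 K, ex (α * (P.eval (k : ℤ) : ℤ))‖ with hs
  have hs0 : 0 ≤ s := norm_nonneg _
  -- Dirichlet
  set n : ℕ := ⌊(K : ℝ) ^ d / R⌋₊ with hn
  have hn1 : 1 ≤ (K : ℝ) ^ d / R := by
    rw [le_div_iff₀ hR0]
    linarith only [hVK, hR4, hR3, hRR3, hKKd]
  have hn0 : 0 < n := Nat.floor_pos.mpr hn1
  have hnle : (n : ℝ) ≤ (K : ℝ) ^ d / R := Nat.floor_le (by (clear * - hC0 hK3 hV hL1; positivity))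
  have hnlt : (K : ℝ) ^ d / R < n + 1 := Nat.lt_floor_add_one _
  obtain ⟨r, hr1, hr2⟩ := Real.exists_rat_abs_sub_le_and_den_le α hn0
  set q : ℕ := r.den with hq
  set a : ℤ := r.num with ha
  have hra : (r : ℝ) = (a : ℝ) / q := Rat.cast_def r
  rw [hra] at hr1
  have hq0 : 0 < q := r.den_pos
  have hqR : (0 : ℝ) < q := by exact_mod_cast hq0
  have hq1R : (1 : ℝ) ≤ q := by exact_mod_cast hq0
  have hqn : (q : ℝ) ≤ n := by exact_mod_cast hr2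
  have hqK : (q : ℝ) ≤ (K : ℝ) ^ d / R := hqn.trans hnle
  have hqKd : q ≤ K ^ d := by
    have h1 : (q : ℝ) ≤ (K : ℝ) ^ d := hqK.trans (div_le_self hKd0.le (by linarith only [hR4]))
    exact_mod_cast h1
  have hcop : IsCoprime a (q : ℤ) := by
    rw [Int.isCoprime_iff_gcd_eq_one]
    exact r.reduced
  have hr3 : |α - (a : ℝ) / q| ≤ 1 / (q : ℝ) ^ 2 := by
    refine hr1.trans ?_
    apply one_div_le_one_div_of_le (by (clear * -; positivity))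
    rw [sq]
    apply mul_le_mul_of_nonneg_right (by linarith only [hqn]) hqR.le
  have hqL : (q : ℝ) ≤ R := by
    by_contra hcon
    rw [not_le] at hcon
    have hw := hW0 K q a α hK3 hq0 hqKd hcop hr3
    rw [← hs] at hw
    have t1 : 1 / (q : ℝ) ≤ 1 / R := one_div_le_one_div_of_le hR0 hcon.le
    have t2 : 1 / (K : ℝ) ≤ 1 / R := one_div_le_one_div_of_le hR0 hRK
    have t3 : (q : ℝ) / (K : ℝ) ^ d ≤ 1 / R := by
      rw [div_le_iff₀ hKd0]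
      calc (q : ℝ) ≤ (K : ℝ) ^ d / R := hqK
        _ = 1 / R * (K : ℝ) ^ d := by ring
    have t5 : s ^ E ≤ C1 * (K : ℝ) ^ E * (3 / R) * L ^ κ := by
      refine hw.trans ?_
      have t6 : 1 / (q : ℝ) + 1 / (K : ℝ) + (q : ℝ) / (K : ℝ) ^ d ≤ 3 / R := by
        have : 3 / R = 1 / R + 1 / R + 1 / R := by ring
        rw [this]
        linarith only [t1, t2, t3]
      have t7 : 0 ≤ 1 / (q : ℝ) + 1 / (K : ℝ) + (q : ℝ) / (K : ℝ) ^ d := by (clear * - hK3; positivity)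
      gcongr
    have t8 : (K : ℝ) ^ E ≤ (V * s) ^ E := pow_le_pow_left₀ hKR.le hζT _
    have t10 : (K : ℝ) ^ E ≤ (K : ℝ) ^ E * (3 / 4) := by
      calc (K : ℝ) ^ E ≤ V ^ E * s ^ E := by rw [← mul_pow]; exact t8
        _ ≤ V ^ E * (C1 * (K : ℝ) ^ E * (3 / R) * L ^ κ) := by
            gcongr
        _ = (K : ℝ) ^ E * (3 / 4) := by
            have hne : R ≠ 0 := hR0.ne'
            have h5 : V ^ E * (C1 * (K : ℝ) ^ E * (3 / R) * L ^ κ) =
              (K : ℝ) ^ E * (3 / 4) * (R / R) := by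
              rw [show R / R = (4 * C1 * V ^ E * L ^ κ) / R by rw [← hR]]
              ring
            rw [h5, div_self hne, mul_one]
    have t12 : 0 < (K : ℝ) ^ E := by (clear * - hK3; positivity)
    nlinarith only [t10, t12]
  have hn1L : 1 / ((n : ℝ) + 1) ≤ R / (K : ℝ) ^ d := by
    rw [div_le_div_iff₀ (by (clear * - hn0; positivity)) hKd0, one_mul]
    rw [div_lt_iff₀ hR0] at hnlt
    linarith only [hnlt]
  have hr4 : |α - (a : ℝ) / q| ≤ 1 / ((n : ℝ) + 1) := by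
    refine hr1.trans ?_
    apply one_div_le_one_div_of_le (by (clear * - hn0; positivity))
    exact le_mul_of_one_le_right (by (clear * - hn0; positivity)) hq1R
  refine ⟨q, a, hq0, Nat.le_floor hqL, ?_, ?_⟩
  · have h1 : |(a : ℝ) / q| ≤ 2 := by
      have h2 : |α - (a : ℝ) / q| ≤ 1 := by
        refine hr4.trans ?_
        rw [div_le_one (by (clear * - hn0; positivity))]
        have : (0 : ℝ) ≤ n := Nat.cast_nonneg n
        linarith only [hn1, hnlt]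
      have h3 := abs_le.mp h2
      rw [abs_le]
      constructor <;> linarith only [hα0, h3, hα1, h3.1, h3.2]
    rw [abs_div, abs_of_pos hqR, div_le_iff₀ hqR] at h1
    have h2 : |(a : ℝ)| ≤ 2 * (⌊R⌋₊ : ℕ) := by
      refine h1.trans ?_
      have : (q : ℝ) ≤ (⌊R⌋₊ : ℕ) := by exact_mod_cast Nat.le_floor hqL
      linarith only [this]
    exact_mod_cast h2
  · have h1 : (ζ : ℝ) - (N : ℝ) * ((a : ℝ) / q) = N * (α - (a : ℝ) / q) := by
      rw [mul_sub, hα, mul_div_cancel₀ _ hN0.ne']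
    rw [h1, abs_mul, abs_of_pos hN0]
    exact mul_le_mul_of_nonneg_left (hr4.trans hn1L) hN0.le

end Pool.Agent.VK
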