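import Pool.Agent.Lib.HLT.PolySpec
import Pool.Agent.Lib.VK.EnergyPars
import Pool.Agent.Lib.VK.PolyLevel

/-!
# The additive energy of the values of a polynomial is as small as possible, up to logarithms

PROOF SKETCH. `D, k, C1` from `poly_level`, `d = P.natDegree`, `g ζ = ‖∑ n ∈ Icc 1 K, ex ((ζ/N) P(n))‖`, `N = s H + 1`. Take `s = (d + 2) (2 D + 2)`, `c = 1/(2 D + 2)` (work with integer powers: `X^(2 D + 2) ≤ K` instead of `X ≤ K^c`).
By `energy_pars`: `N energy s (PT P K) = ∑_ζ ‖WW (PT P K) (ζ/N)‖^(2s)`, and by the private lemmas `ps_struct`, `ps_WW` of `HLT/PolySpec.lean` (copy them) `‖WW (PT P K) (ζ/N)‖ ≤ g ζ + 2 k0` (`K ≥ k0` and `k ≤ P k` for `k ≥ k0`, so `K ≤ H`, `log K ≤ L = log H`;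
the case that `P` is eventually negative, or `K < k0`, is impossible for large `H` since `H ≤ K^d L^C`). So `‖WW‖^(2s) ≤ 2^(2s) (g^(2s) + (2 k0)^(2s))`.
Small values: if `(K/g)^(2 D + 2) ≥ K` (or `g = 0`) then `g^(2s) ≤ K^(2s)/K^(2s/(2D+2)) = K^(2s) / K^(2(d+2)) ≤ K^(2s)/K^(d+1)`.
Large values: `(K/g)^(2D+2) < K`: let `j` be the natural number with `2^j ≤ K/g < 2^(j+1)` (`g ≤ K`), so `g^(2s) ≤ K^(2s) / 2^(2 s j)` and `ζ` is in the level set of `V = 2^(j+1)`, which has at most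
`C1 2^(D (j+1)) L^k (N/K^d + 1)` elements (the condition `C1 V^D (log K)^k ≤ K` of `poly_level` holds for large `K` because `V^D ≤ 2^D (K/g)^D ≤ 2^D K^(1/2)`). Sum over `j`: `∑_j 2^(D j - 2 s j) ≤ 2`.
Total: `N energy ≤ 2^(2s) (K^(2s) C1 2^(D+1) L^k (N/K^d + 1) + N K^(2s)/K^(d+1) + N (2k0)^(2s))`. Multiply by `H/N`: `H/K^d ≤ L^C`, `H/N ≤ 1`, `H/K^(d+1) ≤ L^C`, `H (2 k0)^(2s) ≤ K^d L^C (2k0)^(2s) ≤ K^(2s) L^C (2k0)^(2s)`: everything is at most `K^(2s) L^(C')` with `C' = k + C + 1` for large `H`.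
-/

set_option autoImplicit false

open Finset Filter

namespace Pool.Agent.VK

open Pool.Agent.HLT

namespace PolyEnergyAux

/-- growth of a real polynomial -/
lemma pe_growth (p : Polynomial ℝ) (hd : 2 ≤ p.natDegree) (hl : 0 < p.leadingCoeff) :
    (∀ᶠ y : ℝ in atTop, y ≤ p.eval y) ∧ ∃ y0 : ℝ, StrictMonoOn (fun y => p.eval y) (Set.Ici y0) := by
  constructor
  · have hdq : (p - Polynomial.X).natDegree = p.natDegree := by
      apply Polynomial.natDegree_sub_eq_left_of_natDegree_lt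
      rw [Polynomial.natDegree_X]
      omega
    have hlq : (p - Polynomial.X).leadingCoeff = p.leadingCoeff := by
      apply Polynomial.leadingCoeff_sub_of_degree_lt
      rw [Polynomial.degree_X, Polynomial.degree_eq_natDegree (by
        intro h; rw [h] at hl; simp at hl)]
      exact_mod_cast (by omega : 1 < p.natDegree)
    have h1 : Tendsto (fun y => (p - Polynomial.X).eval y) atTop atTop := by
      apply Polynomial.tendsto_atTop_of_leadingCoeff_nonneg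
      · rw [← Polynomial.natDegree_pos_iff_degree_pos, hdq]
        omega
      · rw [hlq]
        exact hl.le
    filter_upwards [h1.eventually_ge_atTop 0] with y hy
    rw [Polynomial.eval_sub, Polynomial.eval_X] at hy
    linarith
  · have hdn : (Polynomial.derivative p).natDegree = p.natDegree - 1 :=
      Polynomial.natDegree_derivative p
    have h1 : Tendsto (fun y => (Polynomial.derivative p).eval y) atTop atTop := by
      apply Polynomial.tendsto_atTop_of_leadingCoeff_nonneg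
      · rw [← Polynomial.natDegree_pos_iff_degree_pos, hdn]
        omega
      · rw [Polynomial.leadingCoeff_derivative]
        positivity
    obtain ⟨y0, hy0⟩ := (h1.eventually_gt_atTop 0).exists_forall_of_atTop
    refine ⟨y0, ?_⟩
    apply strictMonoOn_of_deriv_pos (convex_Ici y0) p.continuous.continuousOn
    intro x hx
    rw [interior_Ici] at hx
    rw [Polynomial.deriv]
    exact hy0 x (le_of_lt hx)

lemma pe_struct (P : Polynomial ℤ) (hd : 2 ≤ P.natDegree) : ∃ k0 : ℕ, 1 ≤ k0 ∧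
    ((∀ k : ℕ, k0 ≤ k → P.eval (k : ℤ) < 0) ∨
      (∀ k : ℕ, k0 ≤ k → (k : ℤ) ≤ P.eval (k : ℤ) ∧
        ∀ k' < k, P.eval (k' : ℤ) < P.eval (k : ℤ))) := by
  have hinj : Function.Injective (Int.castRingHom ℝ) := RingHom.injective_int _
  set p : Polynomial ℝ := P.map (Int.castRingHom ℝ) with hp
  have hpd : p.natDegree = P.natDegree := Polynomial.natDegree_map_eq_of_injective hinj P
  have hpl : p.leadingCoeff = (P.leadingCoeff : ℝ) := by
    rw [hp, Polynomial.leadingCoeff_map_of_injective hinj]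
    rfl
  have hpe : ∀ k : ℤ, p.eval (k : ℝ) = ((P.eval k : ℤ) : ℝ) := by
    intro k
    rw [hp, Polynomial.eval_intCast_map]
    rfl
  have hpe' : ∀ k : ℕ, p.eval (k : ℝ) = ((P.eval (k : ℤ) : ℤ) : ℝ) := by
    intro k
    have := hpe (k : ℤ)
    push_cast at this
    exact this
  have hl0 : P.leadingCoeff ≠ 0 := by
    intro h
    rw [Polynomial.leadingCoeff_eq_zero] at h
    rw [h, Polynomial.natDegree_zero] at hd
    omega
  rcases lt_or_gt_of_ne hl0 with hneg | hpos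
  · have h1 : Tendsto (fun y => p.eval y) atTop atBot := by
      apply Polynomial.tendsto_atBot_of_leadingCoeff_nonpos
      · rw [← Polynomial.natDegree_pos_iff_degree_pos, hpd]
        omega
      · rw [hpl]
        exact_mod_cast hneg.le
    have h2 : ∀ᶠ k : ℕ in atTop, p.eval (k : ℝ) < 0 :=
      tendsto_natCast_atTop_atTop.eventually (h1.eventually_lt_atBot 0)
    obtain ⟨k1, hk1⟩ := h2.exists_forall_of_atTop
    refine ⟨k1 + 1, by omega, Or.inl fun k hk => ?_⟩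
    have := hk1 k (by omega)
    rw [hpe'] at this
    exact_mod_cast this
  · have hpl' : 0 < p.leadingCoeff := by
      rw [hpl]
      exact_mod_cast hpos
    obtain ⟨hg, y0, hy0⟩ := pe_growth p (by rw [hpd]; exact hd) hpl'
    have hgN : ∀ᶠ k : ℕ in atTop, (k : ℝ) ≤ p.eval (k : ℝ) :=
      tendsto_natCast_atTop_atTop.eventually hg
    have h1 : Tendsto (fun y => p.eval y) atTop atTop := by
      apply Polynomial.tendsto_atTop_of_leadingCoeff_nonneg
      · rw [← Polynomial.natDegree_pos_iff_degree_pos, hpd]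
        omega
      · exact hpl'.le
    obtain ⟨k1, hk1⟩ := exists_nat_ge y0
    have h2 : ∀ᶠ k : ℕ in atTop, ∀ k' ∈ Finset.range k1, p.eval (k' : ℝ) < p.eval (k : ℝ) := by
      rw [Filter.eventually_all_finset]
      intro k' _
      exact tendsto_natCast_atTop_atTop.eventually (h1.eventually_gt_atTop _)
    obtain ⟨k2, hk2⟩ := (hgN.and h2).exists_forall_of_atTop
    refine ⟨k1 + k2 + 1, by omega, Or.inr fun k hk => ?_⟩
    obtain ⟨h3, h4⟩ := hk2 k (by omega)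
    constructor
    · rw [hpe'] at h3
      exact_mod_cast h3
    · intro k' hk'
      by_cases hkk : k' < k1
      · have := h4 k' (Finset.mem_range.mpr hkk)
        rw [hpe', hpe'] at this
        exact_mod_cast this
      · have h5 : (k1 : ℝ) ≤ k' := by exact_mod_cast (not_lt.mp hkk)
        have h6 : (k' : ℝ) < k := by exact_mod_cast hk'
        have := hy0 (Set.mem_Ici.mpr (hk1.trans h5)) (Set.mem_Ici.mpr ((hk1.trans h5).trans h6.le)) h6
        simp only at this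
        rw [hpe', hpe'] at this
        exact_mod_cast this

/-- comparison of the sum over the image with the sum over the parameters -/
lemma pe_WW (P : Polynomial ℤ) (k0 K : ℕ)
    (hmono : ∀ k : ℕ, k0 ≤ k → ∀ k' < k, P.eval (k' : ℤ) < P.eval (k : ℤ))
    (hnn : ∀ k ∈ Icc 1 K, 0 ≤ P.eval (k : ℤ)) (α : ℝ) :
    ‖WW (PT P K) α - ∑ k ∈ Icc 1 K, ex (α * (P.eval (k : ℤ) : ℤ))‖ ≤ 2 * k0 ∧
      (K : ℝ) - k0 ≤ (PT P K).card := by
  classical
  set f : ℕ → ℕ := fun k => (P.eval (k : ℤ)).toNat with hf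
  set U : Finset ℕ := (Icc 1 K).filter (fun k => k < k0) with hU
  set V : Finset ℕ := (Icc 1 K).filter (fun k => ¬ k < k0) with hV
  have hUV : U ∪ V = Icc 1 K := Finset.filter_union_filter_not_eq _ _
  have hfr : ∀ k ∈ Icc 1 K, ((f k : ℕ) : ℝ) = ((P.eval (k : ℤ) : ℤ) : ℝ) := by
    intro k hk
    have h := Int.toNat_of_nonneg (hnn k hk)
    calc ((f k : ℕ) : ℝ) = (((P.eval (k : ℤ)).toNat : ℤ) : ℝ) := (Int.cast_natCast _).symm
      _ = _ := by rw [h]
  have hlt : ∀ k ∈ Icc 1 K, ∀ k' ∈ Icc 1 K, k0 ≤ k → k' < k → f k' < f k := by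
    intro k hk k' hk' h0 hlt
    have h1 := hmono k h0 k' hlt
    have h2 := hnn k hk
    have h3 := hnn k' hk'
    simp only [hf]
    omega
  have hPT : PT P K = U.image f ∪ V.image f := by
    rw [← Finset.image_union, hUV]
    rfl
  have hdis : Disjoint (U.image f) (V.image f) := by
    rw [Finset.disjoint_left]
    intro t ht ht'
    rw [Finset.mem_image] at ht ht'
    obtain ⟨k', hk', rfl⟩ := ht
    obtain ⟨k, hk, hkk⟩ := ht'
    rw [hU, Finset.mem_filter] at hk'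
    rw [hV, Finset.mem_filter] at hk
    have := hlt k hk.1 k' hk'.1 (by omega) (by omega)
    omega
  have hinj : Set.InjOn f V := by
    intro k hk k' hk' hkk
    rw [Finset.mem_coe, hV, Finset.mem_filter] at hk hk'
    rcases lt_trichotomy k k' with h | h | h
    · have := hlt k' hk'.1 k hk.1 (by omega) h
      omega
    · exact h
    · have := hlt k hk.1 k' hk'.1 (by omega) h
      omega
  have hUc : (U.card : ℝ) ≤ k0 := by
    have h1 : U ⊆ Finset.range k0 := by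
      intro k hk
      rw [hU, Finset.mem_filter] at hk
      exact Finset.mem_range.mpr hk.2
    have := Finset.card_le_card h1
    rw [Finset.card_range] at this
    exact_mod_cast this
  have hWV : ∑ t ∈ V.image f, ex (t * α) = ∑ k ∈ V, ex (α * (P.eval (k : ℤ) : ℤ)) := by
    rw [Finset.sum_image hinj]
    apply Finset.sum_congr rfl
    intro k hk
    rw [hV, Finset.mem_filter] at hk
    rw [hfr k hk.1, mul_comm]
  constructor
  · have h1 : WW (PT P K) α - ∑ k ∈ Icc 1 K, ex (α * (P.eval (k : ℤ) : ℤ)) =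
        ∑ t ∈ U.image f, ex (t * α) - ∑ k ∈ U, ex (α * (P.eval (k : ℤ) : ℤ)) := by
      unfold WW
      rw [hPT, Finset.sum_union hdis, hWV,
        ← Finset.sum_filter_add_sum_filter_not (Icc 1 K) (fun k => k < k0)]
      ring
    rw [h1]
    have h2 : ‖∑ t ∈ U.image f, ex (t * α)‖ ≤ k0 := by
      refine (norm_sum_le _ _).trans ?_
      simp only [norm_ex, Finset.sum_const, nsmul_eq_mul, mul_one]
      have : ((U.image f).card : ℝ) ≤ U.card := by exact_mod_cast Finset.card_image_le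
      linarith only [hUc, this]
    have h3 : ‖∑ k ∈ U, ex (α * (P.eval (k : ℤ) : ℤ))‖ ≤ k0 := by
      refine (norm_sum_le _ _).trans ?_
      simp only [norm_ex, Finset.sum_const, nsmul_eq_mul, mul_one]
      exact hUc
    calc _ ≤ ‖∑ t ∈ U.image f, ex (t * α)‖ + ‖∑ k ∈ U, ex (α * (P.eval (k : ℤ) : ℤ))‖ :=
          norm_sub_le _ _
      _ ≤ 2 * k0 := by linarith only [h2, h3]
  · have h1 : V.card ≤ (PT P K).card := by
      rw [hPT, ← Finset.card_image_of_injOn hinj]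
      exact Finset.card_le_card Finset.subset_union_right
    have h2 : U.card + V.card = K := by
      have h3 : U.card + V.card = (Icc 1 K).card :=
        Finset.card_filter_add_card_filter_not (s := Icc 1 K) (fun k => k < k0)
      rw [Nat.card_Icc] at h3
      omega
    have h4 : (U.card : ℝ) + V.card = K := by exact_mod_cast h2
    have h5 : (V.card : ℝ) ≤ (PT P K).card := by exact_mod_cast h1
    linarith only [hUc, h4, h5]

/-- dyadic decomposition of a moment -/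
lemma pe_point (K D d s : ℕ) (hs : s = (d + 2) * (2 * D + 2)) (hK : 1 ≤ K) (x : ℝ)
    (hx0 : 0 ≤ x) (hxK : x ≤ K) :
    x ^ (2 * s) ≤ (K : ℝ) ^ (2 * s) / (K : ℝ) ^ (d + 1) +
      ∑ j ∈ (range (K + 1)).filter (fun j : ℕ => ((2 : ℝ) ^ j) ^ (2 * D + 2) < K),
        (if (K : ℝ) ≤ 2 ^ (j + 1) * x then (K : ℝ) ^ (2 * s) / 2 ^ (2 * s * j) else 0) := by
  have hK1 : (1 : ℝ) ≤ K := by exact_mod_cast hK
  have hK0 : (0 : ℝ) < K := by linarith
  have hsum : 0 ≤ ∑ j ∈ (range (K + 1)).filter (fun j : ℕ => ((2 : ℝ) ^ j) ^ (2 * D + 2) < K),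
        (if (K : ℝ) ≤ 2 ^ (j + 1) * x then (K : ℝ) ^ (2 * s) / 2 ^ (2 * s * j) else 0) := by
    apply Finset.sum_nonneg
    intro j _
    split_ifs
    · positivity
    · exact le_rfl
  by_cases h : x ^ (2 * D + 2) ≤ (K : ℝ) ^ (2 * D + 1)
  · have h1 : x ^ (2 * s) ≤ (K : ℝ) ^ (2 * s) / (K : ℝ) ^ (d + 1) := by
      rw [le_div_iff₀ (by positivity)]
      have h2 : x ^ (2 * s) = (x ^ (2 * D + 2)) ^ (2 * (d + 2)) := by
        rw [← pow_mul, hs]
        congr 1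
        ring
      have h3 : (x ^ (2 * D + 2)) ^ (2 * (d + 2)) ≤ ((K : ℝ) ^ (2 * D + 1)) ^ (2 * (d + 2)) :=
        pow_le_pow_left₀ (by positivity) h _
      have h4 : (K : ℝ) ^ (2 * s) = ((K : ℝ) ^ (2 * D + 1)) ^ (2 * (d + 2)) * (K : ℝ) ^ (2 * (d + 2)) := by
        rw [← pow_mul, ← pow_add, hs]
        congr 1
        ring
      rw [h2, h4]
      apply mul_le_mul h3 (pow_le_pow_right₀ hK1 (by omega)) (by positivity) (by positivity)
    linarith
  · push Not at h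
    have hx : 0 < x := by
      rcases hx0.lt_or_eq with h1 | h1
      · exact h1
      · exfalso
        rw [← h1, zero_pow (by omega)] at h
        have : (0 : ℝ) < (K : ℝ) ^ (2 * D + 1) := by positivity
        linarith
    have hr1 : 1 ≤ (K : ℝ) / x := by
      rw [le_div_iff₀ hx]
      linarith
    have hrK : ((K : ℝ) / x) ^ (2 * D + 2) < K := by
      rw [div_pow, div_lt_iff₀ (by positivity)]
      calc (K : ℝ) ^ (2 * D + 2) = K * (K : ℝ) ^ (2 * D + 1) := by ring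
        _ < K * x ^ (2 * D + 2) := mul_lt_mul_of_pos_left h hK0
    obtain ⟨j, hj1, hj2⟩ := exists_nat_pow_near hr1 (by norm_num : (1 : ℝ) < 2)
    have hjK : ((2 : ℝ) ^ j) ^ (2 * D + 2) < K :=
      lt_of_le_of_lt (pow_le_pow_left₀ (by positivity) hj1 _) hrK
    have hj0 : j < K := by
      have h1 : (1 : ℝ) ≤ 2 ^ j := one_le_pow₀ (by norm_num)
      have h2 : (2 : ℝ) ^ j ≤ ((2 : ℝ) ^ j) ^ (2 * D + 2) := le_self_pow₀ h1 (by omega)
      have h3 : ((2 ^ j : ℕ) : ℝ) < (K : ℝ) := by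
        push_cast
        linarith only [hjK, h2]
      have h4 : 2 ^ j < K := by exact_mod_cast h3
      exact lt_trans Nat.lt_two_pow_self h4
    have hmem : j ∈ (range (K + 1)).filter (fun j : ℕ => ((2 : ℝ) ^ j) ^ (2 * D + 2) < K) := by
      rw [Finset.mem_filter, Finset.mem_range]
      exact ⟨by omega, hjK⟩
    have hcond : (K : ℝ) ≤ 2 ^ (j + 1) * x := by
      rw [div_lt_iff₀ hx] at hj2
      exact hj2.le
    have hval : x ^ (2 * s) ≤ (K : ℝ) ^ (2 * s) / 2 ^ (2 * s * j) := by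
      rw [le_div_iff₀ (by positivity)]
      have h1 : x * 2 ^ j ≤ K := by
        rw [le_div_iff₀ hx] at hj1
        linarith only [hj1]
      calc x ^ (2 * s) * 2 ^ (2 * s * j) = (x * 2 ^ j) ^ (2 * s) := by
            rw [mul_pow, ← pow_mul, mul_comm j]
        _ ≤ (K : ℝ) ^ (2 * s) := pow_le_pow_left₀ (by positivity) h1 _
    have h5 : (if (K : ℝ) ≤ 2 ^ (j + 1) * x then (K : ℝ) ^ (2 * s) / 2 ^ (2 * s * j) else 0) ≤
        ∑ j ∈ (range (K + 1)).filter (fun j : ℕ => ((2 : ℝ) ^ j) ^ (2 * D + 2) < K),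
        (if (K : ℝ) ≤ 2 ^ (j + 1) * x then (K : ℝ) ^ (2 * s) / 2 ^ (2 * s * j) else 0) := by
      apply Finset.single_le_sum (f := fun j : ℕ =>
        (if (K : ℝ) ≤ 2 ^ (j + 1) * x then (K : ℝ) ^ (2 * s) / 2 ^ (2 * s * j) else (0 : ℝ))) _ hmem
      intro i _
      split_ifs
      · positivity
      · exact le_rfl
    rw [if_pos hcond] at h5
    have h6 : 0 ≤ (K : ℝ) ^ (2 * s) / (K : ℝ) ^ (d + 1) := by positivity
    linarith only [hval, h5, h6]

lemma pe_sum (N K D s d : ℕ) (B : ℝ) (g : ℕ → ℝ) (hs : s = (d + 2) * (2 * D + 2))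
    (hK : 1 ≤ K) (hg0 : ∀ ζ, 0 ≤ g ζ) (hgK : ∀ ζ, g ζ ≤ K) (hB : 0 ≤ B)
    (hlev : ∀ j : ℕ, ((2 : ℝ) ^ j) ^ (2 * D + 2) < K →
      (((range N).filter (fun ζ : ℕ => (K : ℝ) ≤ 2 ^ (j + 1) * g ζ)).card : ℝ) ≤ B * 2 ^ (D * j)) :
    ∑ ζ ∈ range N, g ζ ^ (2 * s) ≤
      (K : ℝ) ^ (2 * s) * (N / (K : ℝ) ^ (d + 1) + 2 * B) := by
  have hK1 : (1 : ℝ) ≤ K := by exact_mod_cast hK
  set J := (range (K + 1)).filter (fun j : ℕ => ((2 : ℝ) ^ j) ^ (2 * D + 2) < K) with hJ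
  have h1 : ∑ ζ ∈ range N, g ζ ^ (2 * s) ≤ ∑ ζ ∈ range N, ((K : ℝ) ^ (2 * s) / (K : ℝ) ^ (d + 1) +
      ∑ j ∈ J, (if (K : ℝ) ≤ 2 ^ (j + 1) * g ζ then (K : ℝ) ^ (2 * s) / 2 ^ (2 * s * j) else 0)) :=
    Finset.sum_le_sum fun ζ _ => pe_point K D d s hs hK (g ζ) (hg0 ζ) (hgK ζ)
  have h2 : ∑ ζ ∈ range N, ((K : ℝ) ^ (2 * s) / (K : ℝ) ^ (d + 1) +
      ∑ j ∈ J, (if (K : ℝ) ≤ 2 ^ (j + 1) * g ζ then (K : ℝ) ^ (2 * s) / 2 ^ (2 * s * j) else 0)) =
      (N : ℝ) * ((K : ℝ) ^ (2 * s) / (K : ℝ) ^ (d + 1)) +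
      ∑ j ∈ J, (((range N).filter (fun ζ : ℕ => (K : ℝ) ≤ 2 ^ (j + 1) * g ζ)).card : ℝ) *
        ((K : ℝ) ^ (2 * s) / 2 ^ (2 * s * j)) := by
    rw [Finset.sum_add_distrib, Finset.sum_const, Finset.card_range, nsmul_eq_mul, Finset.sum_comm]
    congr 1
    refine Finset.sum_congr rfl fun j _ => ?_
    rw [← Finset.sum_filter, Finset.sum_const, nsmul_eq_mul]
  have h3 : ∀ j ∈ J, (((range N).filter (fun ζ : ℕ => (K : ℝ) ≤ 2 ^ (j + 1) * g ζ)).card : ℝ) *
        ((K : ℝ) ^ (2 * s) / 2 ^ (2 * s * j)) ≤ B * (K : ℝ) ^ (2 * s) * (1 / 2 : ℝ) ^ j := by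
    intro j hj
    rw [hJ, Finset.mem_filter] at hj
    have h4 := hlev j hj.2
    calc (((range N).filter (fun ζ : ℕ => (K : ℝ) ≤ 2 ^ (j + 1) * g ζ)).card : ℝ) *
        ((K : ℝ) ^ (2 * s) / 2 ^ (2 * s * j)) ≤
        (B * 2 ^ (D * j)) * ((K : ℝ) ^ (2 * s) / 2 ^ (2 * s * j)) :=
          mul_le_mul_of_nonneg_right h4 (by positivity)
      _ = B * (K : ℝ) ^ (2 * s) * (2 ^ (D * j) / 2 ^ (2 * s * j)) := by ring
      _ ≤ B * (K : ℝ) ^ (2 * s) * (1 / 2 : ℝ) ^ j := by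
          apply mul_le_mul_of_nonneg_left _ (by positivity)
          rw [div_le_iff₀ (by positivity), one_div, inv_pow, inv_mul_eq_div,
            le_div_iff₀ (by positivity), ← pow_add]
          apply pow_le_pow_right₀ (by norm_num)
          have h5 : D + 1 ≤ 2 * s := by
            rw [hs]
            nlinarith
          calc D * j + j = (D + 1) * j := by ring
            _ ≤ 2 * s * j := Nat.mul_le_mul_right _ h5
  have h6 : ∑ j ∈ J, (((range N).filter (fun ζ : ℕ => (K : ℝ) ≤ 2 ^ (j + 1) * g ζ)).card : ℝ) *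
        ((K : ℝ) ^ (2 * s) / 2 ^ (2 * s * j)) ≤ B * (K : ℝ) ^ (2 * s) * 2 := by
    calc _ ≤ ∑ j ∈ J, B * (K : ℝ) ^ (2 * s) * (1 / 2 : ℝ) ^ j := Finset.sum_le_sum h3
      _ = B * (K : ℝ) ^ (2 * s) * ∑ j ∈ J, (1 / 2 : ℝ) ^ j := by rw [Finset.mul_sum]
      _ ≤ B * (K : ℝ) ^ (2 * s) * 2 := by
          apply mul_le_mul_of_nonneg_left _ (by positivity)
          calc ∑ j ∈ J, (1 / 2 : ℝ) ^ j ≤ ∑ j ∈ range (K + 1), (1 / 2 : ℝ) ^ j :=
                Finset.sum_le_sum_of_subset_of_nonneg (Finset.filter_subset _ _)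
                  (fun i _ _ => by positivity)
            _ ≤ 2 := sum_geometric_two_le (K + 1)
  calc ∑ ζ ∈ range N, g ζ ^ (2 * s) ≤ _ := h1
    _ = _ := h2
    _ ≤ (N : ℝ) * ((K : ℝ) ^ (2 * s) / (K : ℝ) ^ (d + 1)) + B * (K : ℝ) ^ (2 * s) * 2 := by
        linarith only [h6]
    _ = _ := by ring

/-- powers of logarithms are smaller than square roots -/
lemma pe_log (A : ℝ) (k : ℕ) : ∃ K1 : ℕ, ∀ K : ℕ, K1 ≤ K →
    A * Real.log K ^ k ≤ Real.sqrt K := by
  have h1 : Tendsto (fun K : ℕ => Real.sqrt K) atTop atTop :=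
    Real.tendsto_sqrt_atTop.comp tendsto_natCast_atTop_atTop
  have h2 := Real.isLittleO_pow_log_id_atTop (n := k)
  have h3 : (0 : ℝ) < 1 / ((|A| + 1) * 2 ^ k) := by positivity
  have h4 := h1.eventually (h2.bound h3)
  obtain ⟨K1, hK1⟩ := h4.exists_forall_of_atTop
  refine ⟨K1 + 1, fun K hK => ?_⟩
  have h5 := hK1 K (by omega)
  have hK0 : (1 : ℝ) ≤ K := by exact_mod_cast (by omega : 1 ≤ K)
  have hl : Real.log K = 2 * Real.log (Real.sqrt K) := by
    rw [Real.log_sqrt (by linarith)]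
    ring
  have hl0 : 0 ≤ Real.log (Real.sqrt K) := Real.log_nonneg (by
    rw [Real.one_le_sqrt]; exact hK0)
  rw [Real.norm_of_nonneg (by positivity), id, Real.norm_of_nonneg (by positivity),
    one_div, inv_mul_eq_div, le_div_iff₀ (by positivity)] at h5
  calc A * Real.log K ^ k ≤ (|A| + 1) * Real.log K ^ k := by
        apply mul_le_mul_of_nonneg_right _ (by rw [hl]; positivity)
        linarith [le_abs_self A]
    _ = Real.log (Real.sqrt K) ^ k * ((|A| + 1) * 2 ^ k) := by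
        rw [hl, mul_pow]; ring
    _ ≤ Real.sqrt K := h5

/-- large `H` forces large `K` -/
lemma pe_large (d C K1 : ℕ) : ∀ᶠ H : ℕ in atTop, ∀ K : ℕ,
    (H : ℝ) ≤ (K : ℝ) ^ d * Real.log H ^ C → K1 ≤ K := by
  have h2 := Real.isLittleO_pow_log_id_atTop (n := C)
  have h3 : (0 : ℝ) < 1 / ((K1 : ℝ) ^ d + 1) / 2 := by positivity
  have h4 := tendsto_natCast_atTop_atTop.eventually (h2.bound h3)
  filter_upwards [h4, eventually_ge_atTop 1] with H hH hH1 K hK
  by_contra hcon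
  push Not at hcon
  have hH0 : (1 : ℝ) ≤ H := by exact_mod_cast hH1
  have hl0 : 0 ≤ Real.log H := Real.log_nonneg hH0
  rw [Real.norm_of_nonneg (by positivity), id, Real.norm_of_nonneg (by positivity), div_div,
    one_div, inv_mul_eq_div, le_div_iff₀ (by positivity)] at hH
  have h5 : (K : ℝ) ^ d ≤ (K1 : ℝ) ^ d + 1 := by
    have : (K : ℝ) ^ d ≤ (K1 : ℝ) ^ d :=
      pow_le_pow_left₀ (by positivity) (by exact_mod_cast hcon.le) _
    linarith
  have h6 : (K : ℝ) ^ d * Real.log H ^ C ≤ ((K1 : ℝ) ^ d + 1) * Real.log H ^ C :=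
    mul_le_mul_of_nonneg_right h5 (by positivity)
  nlinarith only [hH, hK, hH0, h6]

end PolyEnergyAux

open PolyEnergyAux

theorem poly_energy (P : Polynomial ℤ) (hd : 2 ≤ P.natDegree) : ∃ s : ℕ, 1 ≤ s ∧ ∀ C : ℕ, ∃ C' : ℕ, ∀ᶠ H : ℕ in atTop,
    ∀ K : ℕ, (∀ k ∈ Icc 1 K, 0 ≤ P.eval (k : ℤ) ∧ P.eval (k : ℤ) ≤ H) →
    (H : ℝ) ≤ (K : ℝ) ^ P.natDegree * Real.log H ^ C →
    (H : ℝ) * energy s (PT P K) ≤ (K : ℝ) ^ (2 * s) * Real.log H ^ C' := by
  obtain ⟨D, k, C1, hC1, hlevel⟩ := poly_level P hd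
  obtain ⟨k0, hk0, hstr⟩ := pe_struct P hd
  set d := P.natDegree with hdd
  set s : ℕ := (d + 2) * (2 * D + 2) with hs
  have hs1 : 1 ≤ s := by
    rw [hs]
    exact Nat.one_le_iff_ne_zero.2 (by positivity)
  refine ⟨s, hs1, fun C => ⟨k + C + 1, ?_⟩⟩
  obtain ⟨K1, hK1⟩ := pe_log (C1 * 2 ^ D) k
  set A : ℝ := 2 ^ (2 * s) * (1 + 2 ^ (D + 2) * C1 + (2 * k0) ^ (2 * s)) with hA
  have e1 : ∀ᶠ H : ℕ in atTop, A ≤ Real.log H :=
    (Real.tendsto_log_atTop.comp tendsto_natCast_atTop_atTop).eventually_ge_atTop A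
  have e2 : ∀ᶠ H : ℕ in atTop, (1 : ℝ) ≤ Real.log H :=
    (Real.tendsto_log_atTop.comp tendsto_natCast_atTop_atTop).eventually_ge_atTop 1
  filter_upwards [e1, e2, pe_large d C (K1 + k0 + 3), eventually_ge_atTop 1] with H hHA hH1 hHK
    hH0 K hP hKH
  have hK := hHK K hKH
  set L : ℝ := Real.log H with hL
  -- the eventually negative case is impossible
  have hmono : ∀ j : ℕ, k0 ≤ j → (j : ℤ) ≤ P.eval (j : ℤ) ∧
      ∀ k' < j, P.eval (k' : ℤ) < P.eval (j : ℤ) := by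
    rcases hstr with h | h
    · exfalso
      have h1 := h K (by omega)
      have h2 := (hP K (Finset.mem_Icc.2 ⟨by omega, le_rfl⟩)).1
      omega
    · exact h
  have hKR : (3 : ℝ) ≤ K := by exact_mod_cast (by omega : 3 ≤ K)
  have hK0 : (0 : ℝ) < K := by linarith only [hKR]
  have hK1' : (1 : ℝ) ≤ K := by linarith only [hKR]
  have hKH' : (K : ℝ) ≤ H := by
    have h1 := (hmono K (by omega)).1
    have h2 := (hP K (Finset.mem_Icc.2 ⟨by omega, le_rfl⟩)).2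
    exact_mod_cast h1.trans h2
  have hlogK : Real.log K ≤ L := Real.log_le_log hK0 hKH'
  have hlogK0 : 0 ≤ Real.log K := Real.log_nonneg hK1'
  have hHR : (1 : ℝ) ≤ H := by exact_mod_cast hH0
  set N : ℕ := s * H + 1 with hN
  have hNR : (H : ℝ) ≤ N := by
    have : H ≤ N := by
      rw [hN]
      nlinarith only [hs1]
    exact_mod_cast this
  have hN0 : (0 : ℝ) < N := by linarith only [hKR, hKH', hNR]
  set g : ℕ → ℝ := fun ζ => ‖∑ n ∈ Icc 1 K, ex (((ζ : ℝ) / N) * (P.eval (n : ℤ) : ℤ))‖ with hg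
  have hg0 : ∀ ζ, 0 ≤ g ζ := fun ζ => norm_nonneg _
  have hgK : ∀ ζ, g ζ ≤ K := by
    intro ζ
    refine (norm_sum_le _ _).trans ?_
    simp [norm_ex]
  have hT : PT P K ⊆ range (H + 1) := by
    intro t ht
    unfold PT at ht
    rw [Finset.mem_image] at ht
    obtain ⟨n, hn, rfl⟩ := ht
    rw [Finset.mem_range]
    have := hP n hn
    omega
  have hE := energy_pars N H s (by omega) (PT P K) hT
  have hWg : ∀ ζ : ℕ, ‖WW (PT P K) ((ζ : ℝ) / N)‖ ≤ g ζ + 2 * k0 := by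
    intro ζ
    have h1 := (pe_WW P k0 K (fun j hj => (hmono j hj).2) (fun n hn => (hP n hn).1)
      ((ζ : ℝ) / N)).1
    have h2 := norm_le_norm_add_norm_sub' (WW (PT P K) ((ζ : ℝ) / N))
      (∑ n ∈ Icc 1 K, ex (((ζ : ℝ) / N) * (P.eval (n : ℤ) : ℤ)))
    calc ‖WW (PT P K) ((ζ : ℝ) / N)‖ ≤ g ζ + ‖WW (PT P K) ((ζ : ℝ) / N) -
          ∑ n ∈ Icc 1 K, ex (((ζ : ℝ) / N) * (P.eval (n : ℤ) : ℤ))‖ := h2
      _ ≤ g ζ + 2 * k0 := by linarith only [h1]
  have hpow : ∀ ζ : ℕ, ‖WW (PT P K) ((ζ : ℝ) / N)‖ ^ (2 * s) ≤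
      2 ^ (2 * s) * (g ζ ^ (2 * s) + (2 * (k0 : ℝ)) ^ (2 * s)) := by
    intro ζ
    have h1 : ‖WW (PT P K) ((ζ : ℝ) / N)‖ ^ (2 * s) ≤ (g ζ + 2 * k0) ^ (2 * s) :=
      pow_le_pow_left₀ (norm_nonneg _) (hWg ζ) _
    have h2 : (g ζ + 2 * (k0 : ℝ)) ^ (2 * s) ≤
        2 ^ (2 * s - 1) * (g ζ ^ (2 * s) + (2 * (k0 : ℝ)) ^ (2 * s)) :=
      add_pow_le (hg0 ζ) (by (clear * - hk0; positivity)) _
    have h3 : (2 : ℝ) ^ (2 * s - 1) ≤ 2 ^ (2 * s) := pow_le_pow_right₀ (by norm_num) (by omega)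
    have h4 : 0 ≤ g ζ ^ (2 * s) + (2 * (k0 : ℝ)) ^ (2 * s) := by
      have := hg0 ζ
      (clear * - hk0; positivity)
    calc _ ≤ _ := h1
      _ ≤ _ := h2
      _ ≤ _ := mul_le_mul_of_nonneg_right h3 h4
  set B : ℝ := C1 * 2 ^ D * Real.log K ^ k * (N / (K : ℝ) ^ d + 1) with hB
  have hB0 : 0 ≤ B := by
    rw [hB]
    (clear * - hC1 hd hH0 hKR; positivity)
  have hlev : ∀ j : ℕ, ((2 : ℝ) ^ j) ^ (2 * D + 2) < K →
      (((range N).filter (fun ζ : ℕ => (K : ℝ) ≤ 2 ^ (j + 1) * g ζ)).card : ℝ) ≤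
        B * 2 ^ (D * j) := by
    intro j hj
    have hV1 : (1 : ℝ) ≤ 2 ^ (j + 1) := one_le_pow₀ (by norm_num)
    have hj1 : (1 : ℝ) ≤ 2 ^ j := one_le_pow₀ (by norm_num)
    have hsq : ((2 : ℝ) ^ j) ^ D ≤ Real.sqrt K := by
      apply Real.le_sqrt_of_sq_le
      calc (((2 : ℝ) ^ j) ^ D) ^ 2 = ((2 : ℝ) ^ j) ^ (2 * D) := by
            rw [← pow_mul, mul_comm D 2]
        _ ≤ ((2 : ℝ) ^ j) ^ (2 * D + 2) := pow_le_pow_right₀ hj1 (by omega)
        _ ≤ K := hj.le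
    have hVD : ((2 : ℝ) ^ (j + 1)) ^ D = 2 ^ D * (2 ^ j) ^ D := by
      rw [pow_succ, mul_pow]
      ring
    have hcond : C1 * ((2 : ℝ) ^ (j + 1)) ^ D * Real.log K ^ k ≤ K := by
      rw [hVD]
      have h1 := hK1 K (by omega)
      calc C1 * (2 ^ D * ((2 : ℝ) ^ j) ^ D) * Real.log K ^ k =
          ((2 : ℝ) ^ j) ^ D * (C1 * 2 ^ D * Real.log K ^ k) := by ring
        _ ≤ Real.sqrt K * Real.sqrt K := mul_le_mul hsq h1 (by (clear * - hC1; positivity)) (by (clear * - hKR; positivity))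
        _ = K := Real.mul_self_sqrt hK0.le
    have h2 := hlevel K N (2 ^ (j + 1)) (by omega) (by omega) hV1 hcond
    refine h2.trans (le_of_eq ?_)
    rw [hVD, hB, mul_comm D j, pow_mul]
    ring
  have hsum := pe_sum N K D s d B g hs (by omega) hg0 hgK hB0 hlev
  have hNE : (N : ℝ) * energy s (PT P K) ≤
      2 ^ (2 * s) * ((K : ℝ) ^ (2 * s) * (N / (K : ℝ) ^ (d + 1) + 2 * B) +
        N * (2 * (k0 : ℝ)) ^ (2 * s)) := by
    rw [hE]
    calc ∑ ζ ∈ range N, ‖WW (PT P K) ((ζ : ℝ) / N)‖ ^ (2 * s) ≤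
        ∑ ζ ∈ range N, 2 ^ (2 * s) * (g ζ ^ (2 * s) + (2 * (k0 : ℝ)) ^ (2 * s)) :=
          Finset.sum_le_sum fun ζ _ => hpow ζ
      _ = 2 ^ (2 * s) * (∑ ζ ∈ range N, g ζ ^ (2 * s) + N * (2 * (k0 : ℝ)) ^ (2 * s)) := by
          rw [← Finset.mul_sum, Finset.sum_add_distrib, Finset.sum_const, Finset.card_range,
            nsmul_eq_mul]
      _ ≤ _ := by
          apply mul_le_mul_of_nonneg_left _ (by (clear * -; positivity))
          linarith only [hsum]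
  -- multiply by `H / N`
  have hLk : Real.log K ^ k ≤ L ^ k := pow_le_pow_left₀ hlogK0 hlogK _
  have hL0 : 0 ≤ L := by linarith only [hH1]
  have q1 : (H : ℝ) / (K : ℝ) ^ d ≤ L ^ C := by
    rw [div_le_iff₀ (by (clear * - hKR; positivity))]
    linarith only [hKH]
  have q2 : (H : ℝ) / (K : ℝ) ^ (d + 1) ≤ L ^ C := by
    refine le_trans ?_ q1
    apply div_le_div_of_nonneg_left (by (clear * - hH0; positivity)) (by (clear * - hKR; positivity))
    exact pow_le_pow_right₀ hK1' (by omega)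
  have q3 : (H : ℝ) ≤ (K : ℝ) ^ (2 * s) * L ^ C := by
    refine hKH.trans ?_
    apply mul_le_mul_of_nonneg_right _ (by (clear * - hH1; positivity))
    apply pow_le_pow_right₀ hK1'
    rw [hs]
    nlinarith
  have q4 : (H : ℝ) / N ≤ 1 := by
    rw [div_le_one hN0]
    exact hNR
  have hEE : (H : ℝ) * energy s (PT P K) = (H / N) * (N * energy s (PT P K)) := by
    field_simp
  have hHN0 : 0 ≤ (H : ℝ) / N := by (clear * - hd hH0; positivity)
  have hLC1 : 1 ≤ L ^ C := one_le_pow₀ hH1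
  have hLk1 : 1 ≤ L ^ k := one_le_pow₀ hH1
  have hstep : (H : ℝ) * energy s (PT P K) ≤
      2 ^ (2 * s) * ((K : ℝ) ^ (2 * s) * (H / (K : ℝ) ^ (d + 1) +
        2 * (C1 * 2 ^ D * Real.log K ^ k * (H / (K : ℝ) ^ d + H / N))) +
        H * (2 * (k0 : ℝ)) ^ (2 * s)) := by
    rw [hEE]
    refine (mul_le_mul_of_nonneg_left hNE hHN0).trans (le_of_eq ?_)
    rw [hB]
    field_simp
  refine hstep.trans ?_
  have hz1 : (K : ℝ) ^ (2 * s) * (H / (K : ℝ) ^ (d + 1) +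
        2 * (C1 * 2 ^ D * Real.log K ^ k * (H / (K : ℝ) ^ d + H / N))) ≤
      (K : ℝ) ^ (2 * s) * ((1 + 2 ^ (D + 2) * C1) * (L ^ k * L ^ C)) := by
    apply mul_le_mul_of_nonneg_left _ (by (clear * - hKR; positivity))
    have a1 : H / (K : ℝ) ^ d + H / N ≤ 2 * L ^ C := by linarith only [q1, q4, hLC1]
    have a0 : 0 ≤ H / (K : ℝ) ^ d + H / N := by (clear * - hd hH0 hKR; positivity)
    have a2 : C1 * 2 ^ D * Real.log K ^ k * (H / (K : ℝ) ^ d + H / N) ≤
        C1 * 2 ^ D * L ^ k * (2 * L ^ C) := by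
      apply mul_le_mul _ a1 a0 (by (clear * - hC1 hH1; positivity))
      exact mul_le_mul_of_nonneg_left hLk (by (clear * - hC1; positivity))
    have a3 : L ^ C ≤ L ^ k * L ^ C := le_mul_of_one_le_left (by (clear * - hH1; positivity)) hLk1
    calc H / (K : ℝ) ^ (d + 1) +
        2 * (C1 * 2 ^ D * Real.log K ^ k * (H / (K : ℝ) ^ d + H / N)) ≤
        L ^ k * L ^ C + 2 * (C1 * 2 ^ D * L ^ k * (2 * L ^ C)) := by linarith only [q2, a2, a3]
      _ = (1 + 2 ^ (D + 2) * C1) * (L ^ k * L ^ C) := by ring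
  have hz2 : H * (2 * (k0 : ℝ)) ^ (2 * s) ≤
      (K : ℝ) ^ (2 * s) * ((2 * (k0 : ℝ)) ^ (2 * s) * (L ^ k * L ^ C)) := by
    have a3 : L ^ C ≤ L ^ k * L ^ C := le_mul_of_one_le_left (by (clear * - hH1; positivity)) hLk1
    calc H * (2 * (k0 : ℝ)) ^ (2 * s) ≤
        ((K : ℝ) ^ (2 * s) * (L ^ k * L ^ C)) * (2 * (k0 : ℝ)) ^ (2 * s) := by
          apply mul_le_mul_of_nonneg_right _ (by (clear * - hk0; positivity))
          refine q3.trans ?_
          exact mul_le_mul_of_nonneg_left a3 (by (clear * - hKR; positivity))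
      _ = _ := by ring
  calc 2 ^ (2 * s) * ((K : ℝ) ^ (2 * s) * (H / (K : ℝ) ^ (d + 1) +
        2 * (C1 * 2 ^ D * Real.log K ^ k * (H / (K : ℝ) ^ d + H / N))) +
        H * (2 * (k0 : ℝ)) ^ (2 * s)) ≤
      2 ^ (2 * s) * ((K : ℝ) ^ (2 * s) * ((1 + 2 ^ (D + 2) * C1) * (L ^ k * L ^ C)) +
        (K : ℝ) ^ (2 * s) * ((2 * (k0 : ℝ)) ^ (2 * s) * (L ^ k * L ^ C))) := by
        apply mul_le_mul_of_nonneg_left _ (by (clear * -; positivity))
        linarith only [hz1, hz2]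
    _ = (K : ℝ) ^ (2 * s) * (L ^ k * L ^ C) * A := by
        rw [hA]; ring
    _ ≤ (K : ℝ) ^ (2 * s) * (L ^ k * L ^ C) * L :=
        mul_le_mul_of_nonneg_left hHA (by (clear * - hH1 hKR; positivity))
    _ = (K : ℝ) ^ (2 * s) * L ^ (k + C + 1) := by
        rw [pow_succ, pow_add]; ring

end Pool.Agent.VK
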