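import Pool.Agent.Lib.HLU.Base
import Pool.Agent.Lib.VK.PolyEnergy
import Pool.Agent.Lib.VK.SepSieve

/-!
# Dense subsets of the values of a polynomial have a sparse spectrum
-/

set_option autoImplicit false

open Finset Filter

namespace Pool.Agent.VK

open Pool.Agent.HLB Pool.Agent.HL Pool.Agent.HLT Pool.Agent.HLU

theorem poly_sub (P : Polynomial ℤ) (hd : 2 ≤ P.natDegree) (C : ℕ) : ∃ F : ℕ → ℕ, ∀ b0 : ℕ,
    ∀ᶠ H : ℕ in atTop, ∀ K : ℕ,
      (∀ k ∈ Icc 1 K, 0 ≤ P.eval (k : ℤ) ∧ P.eval (k : ℤ) ≤ H) →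
      (H : ℝ) ≤ (K : ℝ) ^ P.natDegree * Real.log H ^ C →
      ∀ U ⊆ PT P K, (K : ℝ) ≤ U.card * Real.log H ^ C → SpS F b0 H H U := by
  obtain ⟨s, hs, h1⟩ := poly_energy P hd
  obtain ⟨C', h2⟩ := h1 C
  refine ⟨fun b => 2 * s * b + (2 * s * C + C') + 1, fun b0 => ?_⟩
  filter_upwards [h2, sps_of_energy s (2 * s * C + C') hs, ev_log 1, eventually_ge_atTop 1] with H h2 h3 hL hH1
  intro K hK1 hK2 U hU hUc
  have hH0 : (0 : ℝ) < H := by exact_mod_cast hH1
  have hL0 : 0 < Real.log H := by linarith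
  have hK0 : 0 < K := by
    rcases Nat.eq_zero_or_pos K with h | h
    · rw [h, Nat.cast_zero, zero_pow (by omega), zero_mul] at hK2
      linarith
    · exact h
  have hne : U.Nonempty := by
    rw [Finset.nonempty_iff_ne_empty]
    intro h
    rw [h, Finset.card_empty, Nat.cast_zero, zero_mul] at hUc
    have : (0 : ℝ) < K := by exact_mod_cast hK0
    linarith
  have hsub : U ⊆ range (H + 1) := by
    intro t ht
    have h4 := hU ht
    unfold PT at h4
    obtain ⟨k, hk, rfl⟩ := Finset.mem_image.mp h4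
    have h5 := hK1 k hk
    rw [Finset.mem_range]
    omega
  refine h3 H U hH1 hne hsub ?_ b0
  have h6 : (H : ℝ) * energy s U ≤ (H : ℝ) * energy s (PT P K) :=
    mul_le_mul_of_nonneg_left (by exact_mod_cast energy_mono s hU) hH0.le
  refine h6.trans ((h2 K hK1 hK2).trans ?_)
  calc (K : ℝ) ^ (2 * s) * Real.log H ^ C' ≤ (U.card * Real.log H ^ C) ^ (2 * s) * Real.log H ^ C' := by
        gcongr
    _ = (U.card : ℝ) ^ (2 * s) * Real.log H ^ (2 * s * C + C') := by
        rw [mul_pow, ← pow_mul, pow_add, mul_assoc, mul_comm C (2 * s)]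

end Pool.Agent.VK
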