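import Pool.Agent.Lib.VK.Final

/-!
# The separated form of the spectral hypothesis at scale `x` implies the grid form
-/

set_option autoImplicit false

open Finset Filter

namespace Pool.Agent.VK

open Pool.Agent.HLB Pool.Agent.HL Pool.Agent.HLT Pool.Agent.HLU

lemma nrm_ge_of {α δ : ℝ} (h1 : δ ≤ α) (h2 : α ≤ 1 - δ) : δ ≤ nrm α := by
  unfold nrm
  rcases le_or_gt (round α) 0 with h | h
  · have h3 : ((round α : ℤ) : ℝ) ≤ 0 := by exact_mod_cast h
    refine le_trans ?_ (le_abs_self _)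
    linarith
  · have h3 : (1 : ℝ) ≤ ((round α : ℤ) : ℝ) := by exact_mod_cast h
    refine le_trans ?_ (neg_le_abs _)
    linarith

lemma nrm_neg_eq (α : ℝ) : nrm (-α) = nrm α := by
  apply le_antisymm
  · unfold nrm
    refine (round_le (-α) (-(round α))).trans (le_of_eq ?_)
    rw [← abs_neg]
    congr 1
    push_cast
    ring
  · unfold nrm
    refine (round_le α (-(round (-α)))).trans (le_of_eq ?_)
    rw [← abs_neg]
    congr 1
    push_cast
    ring

/-- Grid points with the same residue modulo five, not at the end, are separated. -/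
lemma sep_grid (x : ℕ) (hx : 1 ≤ x) (S : Finset ℕ) (r : ℕ) (hS : ∀ ζ ∈ S, ζ + 5 < 4 * x + 1 ∧ ζ % 5 = r) :
    Sep x (S.image (fun ζ : ℕ => (ζ : ℝ) / ((4 * x + 1 : ℕ) : ℝ))) := by
  have hN : (0 : ℝ) < ((4 * x + 1 : ℕ) : ℝ) := by positivity
  have hxR : (1 : ℝ) ≤ x := by exact_mod_cast hx
  have key : ∀ ζ ∈ S, ∀ ζ' ∈ S, ζ < ζ' →
      1 / (x : ℝ) ≤ nrm ((ζ' : ℝ) / ((4 * x + 1 : ℕ) : ℝ) - (ζ : ℝ) / ((4 * x + 1 : ℕ) : ℝ)) := by
    intro ζ hζ ζ' hζ' hlt
    have h1 := hS ζ hζ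
    have h2 := hS ζ' hζ'
    have h3 : ζ + 5 ≤ ζ' := by omega
    have h4 : (ζ : ℝ) + 5 ≤ ζ' := by exact_mod_cast h3
    have h5 : (ζ' : ℝ) + 5 ≤ ((4 * x + 1 : ℕ) : ℝ) := by exact_mod_cast h2.1.le
    have h6 : 1 / (x : ℝ) ≤ 5 / ((4 * x + 1 : ℕ) : ℝ) := by
      rw [div_le_div_iff₀ (by linarith) hN]
      push_cast
      linarith
    refine h6.trans (nrm_ge_of ?_ ?_)
    · rw [← sub_div]
      exact div_le_div_of_nonneg_right (by linarith) hN.le
    · rw [← sub_div, div_le_iff₀ hN, sub_mul, div_mul_cancel₀ _ hN.ne', one_mul]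
      have : (0 : ℝ) ≤ ζ := Nat.cast_nonneg _
      linarith
  intro θ hθ θ' hθ' hne
  obtain ⟨ζ, hζ, rfl⟩ := Finset.mem_image.mp hθ
  obtain ⟨ζ', hζ', rfl⟩ := Finset.mem_image.mp hθ'
  rcases lt_trichotomy ζ ζ' with h | h | h
  · rw [← nrm_neg_eq, neg_sub]
    exact key ζ hζ ζ' hζ' h
  · subst h
    exact absurd rfl hne
  · exact key ζ' hζ' ζ hζ h

theorem spc_of_spa (F : ℕ → ℕ) (b0 : ℕ) : ∃ x0 : ℕ, ∀ x : ℕ, x0 ≤ x → ∀ T : Finset ℕ, SpA F b0 x T →
    SpC (fun b => F b + 1) b0 x T := by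
  classical
  obtain ⟨x1, hx1⟩ := eventually_atTop.mp (ev_log 11)
  refine ⟨max x1 1, fun x hx T hT => ⟨hT.1, fun b hb => ?_⟩⟩
  have hL : 11 ≤ Real.log x := hx1 x (le_trans (le_max_left _ _) hx)
  have hx1' : 1 ≤ x := le_trans (le_max_right _ _) hx
  set L := Real.log x with hLdef
  set N : ℕ := 4 * x + 1 with hN
  have hNR : (0 : ℝ) < (N : ℝ) := by
    rw [hN]
    positivity
  set S := Spec N T (L ^ b) with hSdef
  have hSm : ∀ ζ ∈ S, ζ < N ∧ (T.card : ℝ) ≤ L ^ b * ‖WW T ((ζ : ℝ) / N)‖ := by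
    intro ζ hζ
    rw [hSdef] at hζ
    unfold Spec at hζ
    rw [Finset.mem_filter, Finset.mem_range] at hζ
    exact hζ
  have hcls : ∀ r : ℕ, (((S.filter (fun ζ => ζ + 5 < N)).filter (fun ζ => ζ % 5 = r)).card : ℝ) ≤ L ^ F b := by
    intro r
    set S' := (S.filter (fun ζ => ζ + 5 < N)).filter (fun ζ => ζ % 5 = r) with hS'
    have h1 := hT.2 b hb (S'.image (fun ζ : ℕ => (ζ : ℝ) / ((4 * x + 1 : ℕ) : ℝ)))
      (sep_grid x hx1' S' r (fun ζ hζ => by
        rw [hS', Finset.mem_filter, Finset.mem_filter] at hζ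
        exact ⟨hζ.1.2, hζ.2⟩)) (fun θ hθ => by
        obtain ⟨ζ, hζ, rfl⟩ := Finset.mem_image.mp hθ
        rw [hS', Finset.mem_filter, Finset.mem_filter] at hζ
        exact (hSm ζ hζ.1.1).2)
    rwa [Finset.card_image_of_injective] at h1
    intro a c hac
    have hac' : (a : ℝ) / (N : ℝ) = (c : ℝ) / (N : ℝ) := hac
    rw [div_left_inj' hNR.ne'] at hac'
    exact_mod_cast hac'
  have hcov : S ⊆ ((range 5).biUnion (fun r => (S.filter (fun ζ => ζ + 5 < N)).filter (fun ζ => ζ % 5 = r))) ∪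
      (Ico (N - 5) N) := by
    intro ζ hζ
    rw [Finset.mem_union, Finset.mem_biUnion]
    by_cases h : ζ + 5 < N
    · left
      refine ⟨ζ % 5, Finset.mem_range.mpr (Nat.mod_lt _ (by norm_num)), ?_⟩
      rw [Finset.mem_filter, Finset.mem_filter]
      exact ⟨⟨hζ, h⟩, rfl⟩
    · right
      rw [Finset.mem_Ico]
      have := (hSm ζ hζ).1
      omega
  have h1 := Finset.card_le_card hcov
  have h2 : (S.card : ℝ) ≤ 5 * L ^ F b + 5 := by
    have h3 : (S.card : ℝ) ≤ ((((range 5).biUnion (fun r => (S.filter (fun ζ => ζ + 5 < N)).filter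
        (fun ζ => ζ % 5 = r)))).card : ℝ) + ((Ico (N - 5) N).card : ℝ) := by
      have := h1.trans (Finset.card_union_le _ _)
      exact_mod_cast this
    have h4 : (((((range 5).biUnion (fun r => (S.filter (fun ζ => ζ + 5 < N)).filter
        (fun ζ => ζ % 5 = r)))).card : ℕ) : ℝ) ≤ 5 * L ^ F b := by
      have h5 : (((((range 5).biUnion (fun r => (S.filter (fun ζ => ζ + 5 < N)).filter
        (fun ζ => ζ % 5 = r)))).card : ℕ) : ℝ) ≤ ∑ r ∈ range 5,
          (((S.filter (fun ζ => ζ + 5 < N)).filter (fun ζ => ζ % 5 = r)).card : ℝ) := by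
        exact_mod_cast Finset.card_biUnion_le
      refine h5.trans ((Finset.sum_le_sum fun r _ => hcls r).trans (le_of_eq ?_))
      rw [Finset.sum_const, Finset.card_range, nsmul_eq_mul]
      norm_num
    have h6 : ((Ico (N - 5) N).card : ℝ) ≤ 5 := by
      rw [Nat.card_Ico]
      have : N - (N - 5) ≤ 5 := by omega
      exact_mod_cast this
    linarith
  refine h2.trans ?_
  have h7 : (1 : ℝ) ≤ L ^ F b := one_le_pow₀ (by linarith)
  show 5 * L ^ F b + 5 ≤ L ^ (F b + 1)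
  rw [pow_succ]
  nlinarith

end Pool.Agent.VK
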