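import Pool.Agent.Lib.HLT.Brun

/-!
# Brun's sieve with a small level
-/

set_option autoImplicit false

open Finset Filter

namespace Pool.Agent.VK

open Pool.Agent.HLT

theorem brun_fine (r A B : ℕ) : ∀ᶠ x : ℕ in atTop, ∃ k : ℕ, Even k ∧
    (r * ∑ p ∈ Nat.primesLE (zA A x), 1 / (p : ℝ)) ^ (k + 1) / ((k + 1).factorial : ℝ) ≤
      1 / Real.log x ^ B ∧
    (k + 2) * ((1 + (zA A x : ℝ)) * (1 + r)) ^ (k + 1) ≤ (x : ℝ) ^ (1 / 20 : ℝ) := by
  have hr : (0 : ℝ) ≤ r := Nat.cast_nonneg r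
  have hA : (0 : ℝ) ≤ A := Nat.cast_nonneg A
  have hB : (0 : ℝ) ≤ B := Nat.cast_nonneg B
  have hc : 0 < 2 / (9 * (r + 1) * Real.exp 2) := by positivity
  set c1 : ℝ := 1 + Real.log (2 * (1 + r)) with hc1
  have hc1' : 1 ≤ c1 := by
    have : 0 ≤ Real.log (2 * (1 + r)) := Real.log_nonneg (by linarith)
    linarith
  have e1 := tendsto_loglog_nat.eventually (ev_log_small A _ hc)
  have e2 := tendsto_loglog_nat.eventually
    (ev_poly_exp (20 * ((2 * (B + 1) + 3) * (c1 + A))) 2)
  have e3 := tendsto_loglog_nat.eventually (eventually_ge_atTop (1 : ℝ))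
  have e4 := tendsto_log_nat.eventually (eventually_ge_atTop (1 : ℝ))
  filter_upwards [e1, e2, e3, e4, eventually_ge_atTop 1] with x h1 h2 h3 h4 hx1
  set l := Real.log (x : ℝ) with hl
  set t := Real.log l with ht
  have hlpos : 0 < l := by linarith only [h4]
  have hel : Real.exp t = l := Real.exp_log hlpos
  set m := ⌈((B : ℝ) + 1) * t⌉₊ with hm
  have hm1 : ((B : ℝ) + 1) * t ≤ m := Nat.le_ceil _
  have hm2 : (m : ℝ) < ((B : ℝ) + 1) * t + 1 := Nat.ceil_lt_add_one (by positivity)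
  refine ⟨2 * m, even_two_mul m, ?_, ?_⟩
  · have hsum := sum_inv_le_zA A x h4
    have hsum0 : 0 ≤ ∑ p ∈ Nat.primesLE (zA A x), 1 / (p : ℝ) :=
      Finset.sum_nonneg fun p _ => by positivity
    have hM : r * ∑ p ∈ Nat.primesLE (zA A x), 1 / (p : ℝ) ≤ r * (9 * (2 / (9 * (r + 1) * Real.exp 2) * t)) := by
      gcongr
      calc _ ≤ 9 * (1 + Real.log (1 + A * t)) := hsum
        _ ≤ _ := by gcongr
    have hM2 : (r * ∑ p ∈ Nat.primesLE (zA A x), 1 / (p : ℝ)) * Real.exp 2 ≤ ((2 * m + 1 : ℕ) : ℝ) := by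
      calc _ ≤ r * (9 * (2 / (9 * (r + 1) * Real.exp 2) * t)) * Real.exp 2 := by gcongr
        _ = r / (r + 1) * (2 * t) := by field_simp
        _ ≤ 1 * (2 * t) := by
            gcongr
            rw [div_le_one (by (clear * -; positivity))]
            linarith
        _ ≤ _ := by
            push_cast
            nlinarith only [h3, hm1]
    have := pow_div_fact_le _ (2 * m + 1) (by (clear * -; positivity)) (by omega) hM2
    refine this.trans ?_
    rw [one_div, ← hel, ← Real.exp_nat_mul, ← Real.exp_neg]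
    apply Real.exp_le_exp.mpr
    push_cast
    nlinarith only [h3, hm1]
  · have hz : (zA A x : ℝ) ≤ l ^ A := Nat.floor_le (by positivity)
    have hlA : 1 ≤ l ^ A := one_le_pow₀ h4
    have hz1 : (1 + (zA A x : ℝ)) * (1 + r) ≤ Real.exp (Real.log (2 * (1 + r)) + A * t) := by
      rw [Real.exp_add, Real.exp_log (by positivity), mul_comm (A : ℝ) t, mul_comm t (A : ℝ),
        Real.exp_nat_mul, hel]
      nlinarith only [hz, hlA]
    have hk : ((2 * m : ℕ) : ℝ) + 2 ≤ Real.exp ((2 * m : ℕ) + 1) := by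
      have := Real.add_one_le_exp (((2 * m : ℕ) : ℝ) + 1)
      linarith only [this]
    have hx0 : (0 : ℝ) < x := by exact_mod_cast hx1
    have hsx : (x : ℝ) ^ (1 / 20 : ℝ) = Real.exp (l / 20) := by
      rw [Real.rpow_def_of_pos hx0, ← hl]
      congr 1
      ring
    rw [hsx]
    calc (((2 * m : ℕ) : ℝ) + 2) * ((1 + (zA A x : ℝ)) * (1 + r)) ^ (2 * m + 1)
        ≤ Real.exp ((2 * m : ℕ) + 1) * Real.exp (Real.log (2 * (1 + r)) + A * t) ^ (2 * m + 1) := by
          gcongr
      _ = Real.exp ((2 * m + 1) * (c1 + A * t)) := by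
          rw [← Real.exp_nat_mul, ← Real.exp_add]
          congr 1
          push_cast
          rw [hc1]
          ring
      _ ≤ Real.exp (l / 20) := by
          apply Real.exp_le_exp.mpr
          have h5 : 2 * (m : ℝ) + 1 ≤ (2 * (B + 1) + 3) * t := by nlinarith only [h3, hm2]
          have h6 : c1 + A * t ≤ (c1 + A) * t := by nlinarith only [hc1', h3]
          have h7 : (2 * (m : ℝ) + 1) * (c1 + A * t) ≤ ((2 * (B + 1) + 3) * t) * ((c1 + A) * t) := by
            gcongr
          rw [hel] at h2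
          nlinarith only [h2, h7]

end Pool.Agent.VK
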