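import Pool.Agent.Lib.VK.DefsC
import Pool.Agent.Lib.HLT.MinorNu
import Pool.Agent.Lib.HL.PntAux
import Pool.Agent.Lib.HLT.FinalPoly
import Pool.Agent.Lib.HLU.Base

/-!
# Minor arcs in short windows: the sieve model

PROOF SKETCH. Copy the proof of `HLT.minor_nu` (file `HLT/MinorNu.lean`) with the sums over `Ioc u (u+h)` in place of `Icc 1 y`: for `d ≤ D = ⌊√x⌋ ≤ h` the sum of `e(nα)` over the multiples
`n` of `d` in `(u, u+h]` is at most `mn (2h/d) (dα)` (at most `h/d + 1 ≤ 2h/d` terms, `geom_Ioc`), and the number of multiples of `d` in the window is at most `2h/d` for the error term `EE` as long as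
`d ≤ h`; for the `EE` sums the `d` are products of `k + 1` primes `≤ z`, `d ≤ (1+z)^(k+1) ≤ √x ≤ h` by `brun_param`.
-/

set_option autoImplicit false

open Finset Filter Pool.Agent.HLT

namespace Pool.Agent.VK

namespace MinorWinNuAux

open Pool.Agent.HLB

lemma sum_dvi_ex_win (u h d : ℕ) (hd : 1 ≤ d) (α : ℝ) :
    ∑ n ∈ Ioc u (u + h), (dvi n d : ℂ) * ex (n * α) =
      ∑ m ∈ Ioc (u / d) ((u + h) / d), ex (m * (α * d)) := by
  have h1 : ∑ n ∈ Ioc u (u + h), (dvi n d : ℂ) * ex (n * α) =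
      ∑ n ∈ (Ioc u (u + h)).filter (fun n => d ∣ n), ex (n * α) := by
    rw [Finset.sum_filter]
    refine Finset.sum_congr rfl (fun n _ => ?_)
    unfold dvi
    split_ifs <;> simp
  rw [h1]
  symm
  refine Finset.sum_nbij' (fun m => d * m) (fun n => n / d) ?_ ?_ ?_ ?_ ?_
  · intro m hm
    rw [Finset.mem_Ioc] at hm
    rw [Finset.mem_filter, Finset.mem_Ioc]
    refine ⟨⟨?_, ?_⟩, dvd_mul_right _ _⟩
    · have := (Nat.div_lt_iff_lt_mul hd).1 hm.1
      rwa [Nat.mul_comm] at this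
    · have := (Nat.le_div_iff_mul_le hd).1 hm.2
      rwa [Nat.mul_comm] at this
  · intro n hn
    rw [Finset.mem_filter, Finset.mem_Ioc] at hn
    obtain ⟨⟨h2, h3⟩, m, rfl⟩ := hn
    rw [Finset.mem_Ioc, Nat.mul_div_cancel_left m hd]
    refine ⟨?_, ?_⟩
    · rw [Nat.div_lt_iff_lt_mul hd, Nat.mul_comm]
      exact h2
    · rw [Nat.le_div_iff_mul_le hd, Nat.mul_comm]
      exact h3
  · intro m _
    exact Nat.mul_div_cancel_left m hd
  · intro n hn
    rw [Finset.mem_filter] at hn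
    exact Nat.mul_div_cancel' hn.2
  · intro m _
    congr 1
    push_cast
    ring

lemma cnt_le (u h d : ℕ) (hd : 1 ≤ d) (hdh : d ≤ h) :
    (((u + h) / d : ℕ) : ℝ) - ((u / d : ℕ) : ℝ) ≤ 2 * h / d := by
  have hd0 : (0 : ℝ) < d := by exact_mod_cast hd
  have h1 : (((u + h) / d : ℕ) : ℝ) ≤ ((u + h : ℕ) : ℝ) / d := Nat.cast_div_le
  have h2 : (u : ℝ) / d < ((u / d : ℕ) : ℝ) + 1 := by
    rw [div_lt_iff₀ hd0]
    have h3 : u < (u / d + 1) * d := by
      have h4 := Nat.div_add_mod u d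
      have h5 := Nat.mod_lt u hd
      nlinarith only [h4, h5]
    exact_mod_cast h3
  have h4 : (1 : ℝ) ≤ h / d := by
    rw [le_div_iff₀ hd0, one_mul]
    exact_mod_cast hdh
  push_cast at h1
  rw [add_div] at h1
  have h5 : 2 * (h : ℝ) / d = h / d + h / d := by ring
  rw [h5]
  linarith

lemma norm_sum_dvi_le_win (u h d : ℕ) (hd : 1 ≤ d) (hdh : d ≤ h) (α : ℝ) :
    ‖∑ n ∈ Ioc u (u + h), (dvi n d : ℂ) * ex (n * α)‖ ≤ mn (2 * (h : ℝ) / d) (α * d) := by
  rw [sum_dvi_ex_win u h d hd α]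
  have h1 : u / d ≤ (u + h) / d := Nat.div_le_div_right (Nat.le_add_right u h)
  refine (geom_Ioc _ _ h1 (α * d)).trans ?_
  refine mn_mono ?_ (cnt_le u h d hd hdh) _
  rw [sub_nonneg]
  exact_mod_cast h1

lemma sum_dvi_le_win (u h d : ℕ) (hd : 1 ≤ d) (hdh : d ≤ h) :
    ∑ n ∈ Ioc u (u + h), dvi n d ≤ 2 * (h : ℝ) / d := by
  have h1 := sum_dvi_ex_win u h d hd 0
  have h2 : ((∑ n ∈ Ioc u (u + h), dvi n d : ℝ) : ℂ) =
      (((((u + h) / d : ℕ) : ℝ) - ((u / d : ℕ) : ℝ) : ℝ) : ℂ) := by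
    have h3 : u / d ≤ (u + h) / d := Nat.div_le_div_right (Nat.le_add_right u h)
    simp only [mul_zero, zero_mul, ex_zero, mul_one, Finset.sum_const, Nat.card_Ioc,
      nsmul_eq_mul] at h1
    rw [Nat.cast_sub h3] at h1
    push_cast
    exact h1
  have h3 := Complex.ofReal_injective h2
  rw [h3]
  exact cnt_le u h d hd hdh

/-- The main sum. -/
lemma norm_sum_TT_win (z k u h D : ℕ) (α : ℝ) (hD : ((1 + z) ^ k : ℕ) ≤ D) (hDh : D ≤ h) :
    ‖∑ n ∈ Ioc u (u + h), (TT (Nat.primesLE z) (dvi n) k : ℂ) * ex (n * α)‖ ≤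
      ∑ d ∈ Icc 1 D, mn (2 * (h : ℝ) / d) (α * d) := by
  classical
  have h1 : ∑ n ∈ Ioc u (u + h), (TT (Nat.primesLE z) (dvi n) k : ℂ) * ex (n * α) =
      ∑ s ∈ (Nat.primesLE z).powerset.filter (fun s => s.card ≤ k),
        (-1 : ℂ) ^ s.card * ∑ n ∈ Ioc u (u + h), (dvi n (∏ p ∈ s, p) : ℂ) * ex (n * α) := by
    have h2 : ∀ n ∈ Ioc u (u + h), (TT (Nat.primesLE z) (dvi n) k : ℂ) * ex (n * α) =
        ∑ s ∈ (Nat.primesLE z).powerset.filter (fun s => s.card ≤ k),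
          (-1 : ℂ) ^ s.card * ((dvi n (∏ p ∈ s, p) : ℂ) * ex (n * α)) := by
      intro n _
      unfold TT
      rw [Complex.ofReal_sum, Finset.sum_mul]
      refine Finset.sum_congr rfl (fun s hs => ?_)
      rw [Finset.mem_filter] at hs
      rw [prod_dvi s (fun p hp => (mem_pl hs.1 p hp).1)]
      push_cast
      ring
    rw [Finset.sum_congr rfl h2, Finset.sum_comm]
    refine Finset.sum_congr rfl (fun s _ => ?_)
    rw [Finset.mul_sum]
  rw [h1]
  refine (norm_sum_le _ _).trans ?_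
  have hprod : ∀ s ∈ (Nat.primesLE z).powerset.filter (fun s => s.card ≤ k),
      1 ≤ ∏ p ∈ s, p ∧ ∏ p ∈ s, p ≤ D := by
    intro s hs
    rw [Finset.mem_filter] at hs
    refine ⟨Finset.prod_pos (fun p hp => (mem_pl hs.1 p hp).1.pos), ?_⟩
    calc ∏ p ∈ s, p ≤ ∏ _p ∈ s, (1 + z) :=
          Finset.prod_le_prod' (fun p hp => by have := (mem_pl hs.1 p hp).2; omega)
      _ = (1 + z) ^ s.card := by rw [Finset.prod_const]
      _ ≤ (1 + z) ^ k := Nat.pow_le_pow_right (by omega) hs.2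
      _ ≤ D := hD
  have h3 : ∀ s ∈ (Nat.primesLE z).powerset.filter (fun s => s.card ≤ k),
      ‖(-1 : ℂ) ^ s.card * ∑ n ∈ Ioc u (u + h), (dvi n (∏ p ∈ s, p) : ℂ) * ex (n * α)‖ ≤
        mn (2 * (h : ℝ) / ((∏ p ∈ s, p : ℕ) : ℝ)) (α * ((∏ p ∈ s, p : ℕ) : ℝ)) := by
    intro s hs
    obtain ⟨h4, h5⟩ := hprod s hs
    rw [norm_mul, norm_pow, norm_neg, norm_one, one_pow, one_mul]
    exact norm_sum_dvi_le_win u h _ h4 (h5.trans hDh) α
  refine (Finset.sum_le_sum h3).trans ?_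
  have hinj : Set.InjOn (fun s : Finset ℕ => ∏ p ∈ s, p)
      ((Nat.primesLE z).powerset.filter (fun s => s.card ≤ k) : Set (Finset ℕ)) := by
    intro s hs t ht hst
    have hs' := (Finset.mem_filter.mp (Finset.mem_coe.mp hs)).1
    have ht' := (Finset.mem_filter.mp (Finset.mem_coe.mp ht)).1
    have e1 := Nat.primeFactors_prod (s := s) (fun p hp => (mem_pl hs' p hp).1)
    have e2 := Nat.primeFactors_prod (s := t) (fun p hp => (mem_pl ht' p hp).1)
    simp only at hst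
    rw [← e1, ← e2, hst]
  have h5 := Finset.sum_image (f := fun d : ℕ => mn (2 * (h : ℝ) / (d : ℝ)) (α * (d : ℝ))) hinj
  rw [← h5]
  refine Finset.sum_le_sum_of_subset_of_nonneg ?_
    (fun d _ _ => mn_nonneg (by positivity) _)
  intro d hd
  rw [Finset.mem_image] at hd
  obtain ⟨s, hs, rfl⟩ := hd
  rw [Finset.mem_Icc]
  exact hprod s hs

/-- The error term. -/
lemma sum_EE_win (z k u h : ℕ) (hzh : (1 + z) ^ k ≤ h) :
    ∑ n ∈ Ioc u (u + h), EE (Nat.primesLE z) (dvi n) k ≤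
      2 * h * ((∑ p ∈ Nat.primesLE z, 1 / (p : ℝ)) ^ k / (k.factorial : ℝ)) := by
  have h1 : ∑ n ∈ Ioc u (u + h), EE (Nat.primesLE z) (dvi n) k =
      ∑ s ∈ (Nat.primesLE z).powerset.filter (fun s => s.card = k),
        ∑ n ∈ Ioc u (u + h), dvi n (∏ p ∈ s, p) := by
    unfold EE
    rw [Finset.sum_comm]
    refine Finset.sum_congr rfl (fun s hs => ?_)
    rw [Finset.mem_filter] at hs
    refine Finset.sum_congr rfl (fun n _ => ?_)
    rw [prod_dvi s (fun p hp => (mem_pl hs.1 p hp).1)]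
  rw [h1]
  have h2 := EE_le (Nat.primesLE z) (fun p => 1 / (p : ℝ)) (fun p _ => by positivity) k
  refine le_trans ?_ (mul_le_mul_of_nonneg_left h2 (by positivity : (0 : ℝ) ≤ 2 * h))
  unfold EE
  rw [Finset.mul_sum]
  refine Finset.sum_le_sum (fun s hs => ?_)
  rw [Finset.mem_filter] at hs
  have h4 : 1 ≤ ∏ p ∈ s, p := Finset.prod_pos (fun p hp => (mem_pl hs.1 p hp).1.pos)
  have h5 : ∏ p ∈ s, p ≤ h := by
    calc ∏ p ∈ s, p ≤ ∏ _p ∈ s, (1 + z) :=
          Finset.prod_le_prod' (fun p hp => by have := (mem_pl hs.1 p hp).2; omega)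
      _ = (1 + z) ^ s.card := by rw [Finset.prod_const]
      _ = (1 + z) ^ k := by rw [hs.2]
      _ ≤ h := hzh
  refine (sum_dvi_le_win u h _ h4 h5).trans (le_of_eq ?_)
  rw [div_eq_mul_one_div]
  congr 1
  rw [Finset.prod_div_distrib, Finset.prod_const_one]
  push_cast
  rfl

end MinorWinNuAux

open MinorWinNuAux Pool.Agent.HLB in
theorem minor_win_nu (A B : ℕ) (ε : ℝ) (hε : 0 < ε) : ∃ C : ℝ, 0 < C ∧ ∀ᶠ x : ℕ in atTop, ∀ (u h q : ℕ) (a : ℤ) (α : ℝ),
    (x : ℝ) ^ (1 / 2 + ε) ≤ h → h ≤ x → 1 ≤ q → q ≤ x → IsCoprime a (q : ℤ) → |α - a / q| ≤ 1 / (q : ℝ) ^ 2 →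
    ‖∑ n ∈ Ioc u (u + h), (nuz (zA A x) n : ℂ) * ex (n * α)‖ ≤
      C * (h / q + Real.sqrt x + q) * Real.log x ^ 3 + h / Real.log x ^ B := by
  obtain ⟨C, hC, hmn⟩ := sum_mn_div
  refine ⟨4 * C, by positivity, ?_⟩
  have hlog : Tendsto (fun x : ℕ => Real.log x) atTop atTop :=
    Real.tendsto_log_atTop.comp tendsto_natCast_atTop_atTop
  filter_upwards [hlog.eventually_ge_atTop 2, eventually_ge_atTop 64, brun_param 1 A (B + 2),
    DZ_inv_le A] with x hL hx hbr hDZ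
  obtain ⟨k, hk, hk1, hk2⟩ := hbr
  intro u h q a α hxh hhx hq hqx haq hα
  set L := Real.log x with hLdef
  set z := zA A x with hz
  have hx64 : (64 : ℝ) ≤ x := by exact_mod_cast hx
  have hx0 : (0 : ℝ) < x := by linarith only [hx64]
  have hL0 : 0 < L := by linarith only [hL]
  have hL1 : 1 ≤ L := by linarith only [hL]
  have hq0 : (1 : ℝ) ≤ q := by exact_mod_cast hq
  have hqx' : (q : ℝ) ≤ x := by exact_mod_cast hqx
  have hh0 : (0 : ℝ) ≤ h := Nat.cast_nonneg h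
  have hsq8 : 8 ≤ Real.sqrt x := by
    rw [show (8 : ℝ) = Real.sqrt 64 by
      rw [show (64 : ℝ) = 8 ^ 2 by norm_num, Real.sqrt_sq (by norm_num)]]
    exact Real.sqrt_le_sqrt hx64
  have hsqsq : Real.sqrt x * Real.sqrt x = x := Real.mul_self_sqrt hx0.le
  have hsqh : Real.sqrt x ≤ h := by
    refine le_trans ?_ hxh
    rw [Real.sqrt_eq_rpow]
    exact Real.rpow_le_rpow_of_exponent_le (by linarith only [hx64]) (by linarith only [hε])
  -- the sum over `d`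
  set D := ⌊Real.sqrt x⌋₊ with hDdef
  have hDle : (D : ℝ) ≤ Real.sqrt x := Nat.floor_le (Real.sqrt_nonneg _)
  have hDh : D ≤ h := by
    have : (D : ℝ) ≤ h := hDle.trans hsqh
    exact_mod_cast this
  have hz1 : (1 : ℝ) ≤ (1 + (z : ℝ)) := by
    have : (0 : ℝ) ≤ z := Nat.cast_nonneg z
    linarith
  have hpow : (1 + (z : ℝ)) ^ (k + 1) ≤ Real.sqrt x := by
    refine le_trans ?_ hk2
    push_cast
    have h2 : (1 + (z : ℝ)) ^ (k + 1) ≤ ((1 + (z : ℝ)) * (1 + 1)) ^ (k + 1) := by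
      refine pow_le_pow_left₀ (by linarith) ?_ _
      nlinarith
    have h3 : (1 : ℝ) ≤ (k : ℝ) + 2 := by
      have : (0 : ℝ) ≤ k := Nat.cast_nonneg k
      linarith
    have h4 : 0 ≤ ((1 + (z : ℝ)) * (1 + 1)) ^ (k + 1) := by (clear * -; positivity)
    calc (1 + (z : ℝ)) ^ (k + 1) ≤ ((1 + (z : ℝ)) * (1 + 1)) ^ (k + 1) := h2
      _ = 1 * ((1 + (z : ℝ)) * (1 + 1)) ^ (k + 1) := by rw [one_mul]
      _ ≤ ((k : ℝ) + 2) * ((1 + (z : ℝ)) * (1 + 1)) ^ (k + 1) :=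
        mul_le_mul_of_nonneg_right h3 h4
  have hD1 : ((1 + z) ^ (k + 1) : ℕ) ≤ D := by
    rw [hDdef]
    refine Nat.le_floor ?_
    push_cast
    exact hpow
  have hD : ((1 + z) ^ k : ℕ) ≤ D := (Nat.pow_le_pow_right (by omega) (by omega)).trans hD1
  have hmain := norm_sum_TT_win z k u h D α hD hDh
  have hmn1 := hmn q D a α (2 * (h : ℝ)) hq haq hα (by (clear * -; positivity))
  have hlog2 : Real.log (4 * q * ((D : ℝ) + 1)) ≤ 2 * L := by
    have h1 : 4 * (q : ℝ) * ((D : ℝ) + 1) ≤ (x : ℝ) ^ 2 := by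
      have h2 : 4 * ((D : ℝ) + 1) ≤ x := by nlinarith only [hx64, hsq8, hsqsq, hDle]
      have h3 : (q : ℝ) * (4 * ((D : ℝ) + 1)) ≤ x * x :=
        mul_le_mul hqx' h2 (by (clear * -; positivity)) hx0.le
      nlinarith only [h3]
    have h4 : Real.log ((x : ℝ) ^ 2) = 2 * L := by
      rw [Real.log_pow]
      norm_num
      rfl
    rw [← h4]
    exact Real.log_le_log (by (clear * - hq; positivity)) h1
  have hmn2 : C * (2 * (h : ℝ) / q + D + q) * Real.log (4 * q * ((D : ℝ) + 1)) ≤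
      4 * C * (h / q + Real.sqrt x + q) * L := by
    have h1 : 2 * (h : ℝ) / q + D + q ≤ 2 * (h / q + Real.sqrt x + q) := by
      have h2 : 2 * (h : ℝ) / q = 2 * (h / q) := by ring
      rw [h2]
      linarith only [hq0, hsq8, hDle]
    have h0 : 0 ≤ 2 * (h : ℝ) / q + D + q := by (clear * - hq; positivity)
    have h3 : C * (2 * (h : ℝ) / q + D + q) * Real.log (4 * q * ((D : ℝ) + 1)) ≤
        C * (2 * (h : ℝ) / q + D + q) * (2 * L) :=
      mul_le_mul_of_nonneg_left hlog2 (by (clear * - hC hq; positivity))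
    have h4 : C * (2 * (h : ℝ) / q + D + q) * (2 * L) ≤
        C * (2 * (h / q + Real.sqrt x + q)) * (2 * L) := by
      refine mul_le_mul_of_nonneg_right (mul_le_mul_of_nonneg_left h1 hC.le) (by (clear * - hL; positivity))
    refine h3.trans (h4.trans (le_of_eq (by ring)))
  have herr := sum_EE_win z (k + 1) u h (hD1.trans hDh)
  have herr2 : 2 * (h : ℝ) * ((∑ p ∈ Nat.primesLE z, 1 / (p : ℝ)) ^ (k + 1) / ((k + 1).factorial : ℝ)) ≤
      2 * h * (1 / L ^ (B + 2)) := by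
    have h1 : (∑ p ∈ Nat.primesLE z, 1 / (p : ℝ)) ^ (k + 1) / ((k + 1).factorial : ℝ) ≤
        1 / L ^ (B + 2) := by
      have := hk1
      rw [Nat.cast_one, one_mul] at this
      exact this
    exact mul_le_mul_of_nonneg_left h1 (by (clear * -; positivity))
  -- assemble
  have hsplit : ‖∑ n ∈ Ioc u (u + h), (ic z n : ℂ) * ex (n * α)‖ ≤
      4 * C * (h / q + Real.sqrt x + q) * L + 2 * h * (1 / L ^ (B + 2)) := by
    have e1 : ∑ n ∈ Ioc u (u + h), (ic z n : ℂ) * ex (n * α) =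
        ∑ n ∈ Ioc u (u + h), (TT (Nat.primesLE z) (dvi n) k : ℂ) * ex (n * α) +
        ∑ n ∈ Ioc u (u + h), ((ic z n - TT (Nat.primesLE z) (dvi n) k : ℝ) : ℂ) * ex (n * α) := by
      rw [← Finset.sum_add_distrib]
      refine Finset.sum_congr rfl (fun n _ => ?_)
      push_cast
      ring
    have e2 : ‖∑ n ∈ Ioc u (u + h), ((ic z n - TT (Nat.primesLE z) (dvi n) k : ℝ) : ℂ) * ex (n * α)‖ ≤
        ∑ n ∈ Ioc u (u + h), EE (Nat.primesLE z) (dvi n) (k + 1) := by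
      refine (norm_sum_le _ _).trans (Finset.sum_le_sum (fun n _ => ?_))
      rw [norm_mul, norm_ex, mul_one, Complex.norm_real, Real.norm_eq_abs]
      exact ic_sub_TT_abs z n k hk
    rw [e1]
    refine (norm_add_le _ _).trans (add_le_add ?_ ?_)
    · exact hmain.trans (hmn1.trans hmn2)
    · exact e2.trans (herr.trans herr2)
  have hes : ∑ n ∈ Ioc u (u + h), (nuz z n : ℂ) * ex (n * α) =
      ((DZ z)⁻¹ : ℝ) * ∑ n ∈ Ioc u (u + h), (ic z n : ℂ) * ex (n * α) := by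
    unfold nuz
    rw [Finset.mul_sum]
    refine Finset.sum_congr rfl (fun n _ => ?_)
    push_cast
    ring
  have hDZ0 : 0 ≤ (DZ z)⁻¹ := inv_nonneg.mpr (DZ_pos z).le
  rw [hes, norm_mul, Complex.norm_real, Real.norm_eq_abs, abs_of_nonneg hDZ0]
  have h1 : (DZ z)⁻¹ * ‖∑ n ∈ Ioc u (u + h), (ic z n : ℂ) * ex (n * α)‖ ≤
      L * (4 * C * (h / q + Real.sqrt x + q) * L + 2 * h * (1 / L ^ (B + 2))) :=
    mul_le_mul hDZ hsplit (norm_nonneg _) hL0.le
  refine h1.trans ?_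
  rw [mul_add]
  refine add_le_add ?_ ?_
  · have h2 : 0 ≤ 4 * C * (h / q + Real.sqrt x + q) := by (clear * - hC hx hq; positivity)
    have h3 : L * L ≤ L ^ 3 := by
      have : L ^ 3 = L * L * L := by ring
      rw [this]
      nlinarith only [hL, hL0, mul_pos hL0 hL0]
    calc L * (4 * C * (h / q + Real.sqrt x + q) * L) =
          4 * C * (h / q + Real.sqrt x + q) * (L * L) := by ring
      _ ≤ 4 * C * (h / q + Real.sqrt x + q) * L ^ 3 := mul_le_mul_of_nonneg_left h3 h2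
  · have h4 : 0 < L ^ B := by (clear * - hL; positivity)
    have h5 : L * (2 * h * (1 / L ^ (B + 2))) = h / L ^ B * (2 / L) := by
      rw [pow_add]
      field_simp
    rw [h5]
    have h6 : 2 / L ≤ 1 := by rw [div_le_one hL0]; exact hL
    have h7 : 0 ≤ (h : ℝ) / L ^ B := by (clear * - hL; positivity)
    calc (h : ℝ) / L ^ B * (2 / L) ≤ h / L ^ B * 1 := mul_le_mul_of_nonneg_left h6 h7
      _ = h / L ^ B := by rw [mul_one]

end Pool.Agent.VK
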