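import Pool.Agent.Lib.VK.WinBilin
import Pool.Agent.Lib.VK.DefsC
import Pool.Agent.Lib.HLT.MinorPrime
import Pool.Agent.Lib.HLT.TauPow
import Pool.Agent.Lib.HL.PntAux
import Pool.Agent.Lib.HLT.FinalPoly
import Pool.Agent.Lib.HLU.Base

/-!
# Minor arcs in short windows: primes

PROOF SKETCH. `L = log x`, `S_u = sum_(u < n ≤ u+H) lp n e(nα)`, `u ≤ 2x`. Replace `lp` by `Λ`: for each `u` the change is `≤ C √x L ≤ H/L^B` (`HLT.MinorPrime.powers` or psi - theta). Vaughan's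
identity (`BV.vaughan U V`, `U = V = ⌈L^(B+30)⌉₊`; compare `HLT.MinorPrime.split`): windows of a convolution: `sum_(u < k ≤ u+H) (f * g)(k) e(kα) = sum_m sum_(n ∈ Ioc (u/m) ((u+H)/m)) f m g n e(m n α)`.
* `LU U`: at most `U log (U+1)` (`sum_(n ≤ U) Λ`), `≤ H/L^B`.
* Type I, `m ≤ U V`, coefficients `≤ L^2`, `g = 1` or `log`: inner sum over an interval of at most `H/m + 1 ≤ 2H/m` integers `n` of `e(m n α)` is `≤ mn (2H/m) (m α)` (`geom_Ioc`), with `log` by Abel times `2 L`. By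
  `sum_mn_div`: total `≤ C L^4 (H/q + U V + q) log (..) ≤ C L^5 (H/q + L^(2B+70) + q)`, for every `u`.
* Type II: `alphaU U m * betaV V n`. The part `m ≤ √(3x)`: dyadic blocks `m ∈ (M, 2M]`, `U/2 ≤ M ≤ √(3x)`; the part `m > √(3x)` has `n < √(3x)`: dyadic blocks in `n`, `V/2 ≤ M ≤ √(3x)`, the roles
  exchanged, with the coefficient of `m` cut to `m > √(3x)`. `win_bilin` with `x` replaced by `2x`: `sum_(m ∈ (M,2M]) |.|^2 ≤ M L^6`, `sum_(n ≤ (2x+H)/M) |.|^2 ≤ (4x/M) L^6` (`sum_tau_pow 2`, `Λ^2 ≤ L^2·..`), so one block is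
  `≤ C H x L^13 (M + H/q + H/M + q)`, `M ≤ √(3x) ≤ H/L^(B+30)`, `H/M ≤ 2H/U`. There are `≤ 4 L` blocks: Cauchy-Schwarz `|sum of blocks|^2 ≤ (4L)·2 sum |.|^2`.
With `A2 = B + 40`: everything is `≤ x H^2/L^B`.
-/

set_option autoImplicit false

open Finset Filter Pool.Agent.HLT

namespace Pool.Agent.VK

namespace MinorWinPAux

open Pool.Agent.Lib

/-- Membership in the window. -/
lemma mem_win {u H m n : ℕ} (hm : 1 ≤ m) : n ∈ Ioc (u / m) ((u + H) / m) ↔
    u < m * n ∧ m * n ≤ u + H := by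
  rw [mem_Ioc, Nat.div_lt_iff_lt_mul (by omega), Nat.le_div_iff_mul_le (by omega), mul_comm n m]

lemma icc_sub (a b : ℕ) (hab : a ≤ b) (f : ℕ → ℂ) :
    ∑ n ∈ Ioc a b, f n = ∑ n ∈ Icc 1 b, f n - ∑ n ∈ Icc 1 a, f n := by
  have h1 : Icc 1 b = Icc 1 a ∪ Ioc a b := by
    ext n
    simp only [mem_Icc, mem_union, mem_Ioc]
    omega
  have h2 : Disjoint (Icc 1 a) (Ioc a b) := by
    rw [Finset.disjoint_left]
    intro n h3 h4
    rw [mem_Icc] at h3
    rw [mem_Ioc] at h4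
    omega
  rw [h1, Finset.sum_union h2]
  ring

lemma conv_ext (y N : ℕ) (hyN : y ≤ N) (G : ℕ → ℕ → ℂ) :
    ∑ m ∈ Icc 1 y, ∑ n ∈ Icc 1 (y / m), G m n = ∑ m ∈ Icc 1 N, ∑ n ∈ Icc 1 (y / m), G m n := by
  apply Finset.sum_subset
  · intro m hm
    rw [mem_Icc] at hm ⊢
    omega
  · intro m hm hm2
    rw [mem_Icc] at hm hm2
    have h : y / m = 0 := Nat.div_eq_of_lt (by omega)
    rw [h]
    simp

/-- Windows of a convolution. -/
lemma conv_win (f g : ArithmeticFunction ℝ) (F : ℕ → ℂ) (u H N : ℕ) (hN : u + H ≤ N) :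
    ∑ k ∈ Ioc u (u + H), (((f * g) k : ℝ) : ℂ) * F k =
      ∑ m ∈ Icc 1 N, ∑ n ∈ Ioc (u / m) ((u + H) / m), ((f m * g n : ℝ) : ℂ) * F (m * n) := by
  rw [icc_sub u (u + H) (by omega), MinorPrime.conv_sum f g F (u + H), MinorPrime.conv_sum f g F u,
    conv_ext (u + H) N hN, conv_ext u N (by omega), ← Finset.sum_sub_distrib]
  apply Finset.sum_congr rfl
  intro m _
  rw [icc_sub (u / m) ((u + H) / m) (Nat.div_le_div_right (by omega))]

/-- Exchange of the two variables. -/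
lemma swap_win (u H N : ℕ) (hN : u + H ≤ N) (G : ℕ → ℕ → ℂ) :
    ∑ m ∈ Icc 1 N, ∑ n ∈ Ioc (u / m) ((u + H) / m), G m n =
      ∑ n ∈ Icc 1 N, ∑ m ∈ Ioc (u / n) ((u + H) / n), G m n := by
  apply Finset.sum_comm'
  intro m n
  constructor
  · rintro ⟨hm, hn⟩
    rw [mem_Icc] at hm
    rw [mem_win hm.1] at hn
    have hn1 : 1 ≤ n := by
      rcases Nat.eq_zero_or_pos n with h0 | h0
      · rw [h0] at hn; omega
      · exact h0
    refine ⟨?_, ?_⟩
    · rw [mem_win hn1, mul_comm]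
      exact hn
    · rw [mem_Icc]
      exact ⟨hn1, (Nat.le_mul_of_pos_left n (by omega)).trans (hn.2.trans hN)⟩
  · rintro ⟨hm, hn⟩
    rw [mem_Icc] at hn
    rw [mem_win hn.1] at hm
    have hm1 : 1 ≤ m := by
      rcases Nat.eq_zero_or_pos m with h0 | h0
      · rw [h0] at hm; omega
      · exact h0
    refine ⟨?_, ?_⟩
    · rw [mem_Icc]
      exact ⟨hm1, (Nat.le_mul_of_pos_left m (by omega)).trans (hm.2.trans hN)⟩
    · rw [mem_win hm1, mul_comm]
      exact hm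

/-- Vaughan's identity in a window. -/
lemma split_win (U V u H N : ℕ) (hN : u + H ≤ N) (α : ℝ) :
    ∑ n ∈ Ioc u (u + H), ((ArithmeticFunction.vonMangoldt n : ℝ) : ℂ) * ex (n * α) =
      ∑ n ∈ Ioc u (u + H), ((BV.LU U n : ℝ) : ℂ) * ex (n * α) -
      ∑ m ∈ Icc 1 N, ∑ n ∈ Ioc (u / m) ((u + H) / m), (((BV.LU U * BV.muV V) m *
        (ArithmeticFunction.zeta : ArithmeticFunction ℝ) n : ℝ) : ℂ) * ex ((m * n : ℕ) * α) +
      ∑ m ∈ Icc 1 N, ∑ n ∈ Ioc (u / m) ((u + H) / m),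
        ((BV.muV V m * ArithmeticFunction.log n : ℝ) : ℂ) * ex ((m * n : ℕ) * α) +
      ∑ m ∈ Icc 1 N, ∑ n ∈ Ioc (u / m) ((u + H) / m),
        ((BV.alphaU U m * BV.betaV V n : ℝ) : ℂ) * ex ((m * n : ℕ) * α) := by
  rw [← conv_win (BV.LU U * BV.muV V) _ (fun n => ex (n * α)) u H N hN,
    ← conv_win (BV.muV V) _ (fun n => ex (n * α)) u H N hN,
    ← conv_win (BV.alphaU U) _ (fun n => ex (n * α)) u H N hN,
    ← Finset.sum_sub_distrib, ← Finset.sum_add_distrib, ← Finset.sum_add_distrib]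
  apply Finset.sum_congr rfl
  intro n _
  have h := congrArg (fun f : ArithmeticFunction ℝ => f n) (BV.vaughan U V)
  simp only [ArithmeticFunction.add_apply, sub_eq_add_neg, ArithmeticFunction.neg_apply] at h
  rw [h]
  push_cast
  ring

/-- Partial summation with the logarithm. -/
lemma log_win (K β : ℝ) (a b : ℕ) (hab : a ≤ b)
    (hK : ∀ m, a ≤ m → m ≤ b → ‖∑ n ∈ Ioc a m, ex (n * β)‖ ≤ K) :
    ‖∑ m ∈ Ioc a b, ((Real.log m : ℝ) : ℂ) * ex (m * β)‖ ≤ 2 * (K * Real.log b) := by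
  have hK0 : 0 ≤ K := (norm_nonneg _).trans (hK a le_rfl hab)
  have h1 : ∀ N, a ≤ N → N ≤ b → ‖∑ m ∈ Ioc a N, ((Real.log m : ℝ) : ℂ) * ex (m * β) -
      ((Real.log N : ℝ) : ℂ) * ∑ m ∈ Ioc a N, ex (m * β)‖ ≤ K * Real.log N := by
    intro N haN
    induction N, haN using Nat.le_induction with
    | base =>
      intro _
      simp
      exact mul_nonneg hK0 (Real.log_natCast_nonneg _)
    | succ N haN ih =>
      intro hN
      have ih' := ih (by omega)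
      rw [Finset.sum_Ioc_succ_top (by omega), Finset.sum_Ioc_succ_top (by omega)]
      have hlog : 0 ≤ Real.log ((N + 1 : ℕ) : ℝ) - Real.log N := by
        rcases Nat.eq_zero_or_pos N with rfl | hpos
        · simp
        · have : Real.log (N:ℝ) ≤ Real.log ((N + 1 : ℕ) : ℝ) :=
            Real.log_le_log (by exact_mod_cast hpos) (by push_cast; linarith)
          linarith
      have h2 : (∑ m ∈ Ioc a N, ((Real.log m : ℝ) : ℂ) * ex (m * β) +
          ((Real.log ((N + 1 : ℕ) : ℝ) : ℝ) : ℂ) * ex (((N + 1 : ℕ) : ℝ) * β)) -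
          ((Real.log ((N + 1 : ℕ) : ℝ) : ℝ) : ℂ) *
            (∑ m ∈ Ioc a N, ex (m * β) + ex (((N + 1 : ℕ) : ℝ) * β)) =
          (∑ m ∈ Ioc a N, ((Real.log m : ℝ) : ℂ) * ex (m * β) -
            ((Real.log N : ℝ) : ℂ) * ∑ m ∈ Ioc a N, ex (m * β)) -
          ((Real.log ((N + 1 : ℕ) : ℝ) - Real.log N : ℝ) : ℂ) * ∑ m ∈ Ioc a N, ex (m * β) := by
        push_cast; ring
      rw [h2]
      refine (norm_sub_le _ _).trans ?_
      have h3 : ‖((Real.log ((N + 1 : ℕ) : ℝ) - Real.log N : ℝ) : ℂ) *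
          ∑ m ∈ Ioc a N, ex (m * β)‖ ≤ (Real.log ((N + 1 : ℕ) : ℝ) - Real.log N) * K := by
        rw [norm_mul, Complex.norm_real, Real.norm_eq_abs, abs_of_nonneg hlog]
        exact mul_le_mul_of_nonneg_left (hK N haN (by omega)) hlog
      linarith
  have h4 := h1 b hab le_rfl
  have h5 : ‖((Real.log b : ℝ) : ℂ) * ∑ m ∈ Ioc a b, ex (m * β)‖ ≤ K * Real.log b := by
    rw [norm_mul, Complex.norm_real, Real.norm_eq_abs, abs_of_nonneg (Real.log_natCast_nonneg _),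
      mul_comm]
    exact mul_le_mul_of_nonneg_right (hK b hab le_rfl) (Real.log_natCast_nonneg _)
  have h6 := norm_add_le (∑ m ∈ Ioc a b, ((Real.log m : ℝ) : ℂ) * ex (m * β) -
      ((Real.log b : ℝ) : ℂ) * ∑ m ∈ Ioc a b, ex (m * β))
      (((Real.log b : ℝ) : ℂ) * ∑ m ∈ Ioc a b, ex (m * β))
  rw [sub_add_cancel] at h6
  linarith

/-- Geometric sums in a window. -/
lemma geom_win (u H d : ℕ) (hd : 1 ≤ d) (hdH : d ≤ H) (α : ℝ) (m : ℕ) (h1 : u / d ≤ m)
    (h2 : m ≤ (u + H) / d) :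
    ‖∑ n ∈ Ioc (u / d) m, ex (n * (α * d))‖ ≤ mn (2 * (H : ℝ) / d) (α * d) := by
  refine (geom_Ioc (u / d) m h1 (α * d)).trans (mn_mono ?_ ?_ _)
  · have : ((u / d : ℕ) : ℝ) ≤ m := by exact_mod_cast h1
    linarith
  · have hd0 : (0 : ℝ) < d := by exact_mod_cast hd
    have e1 : (m : ℝ) ≤ (((u + H) / d : ℕ) : ℝ) := by exact_mod_cast h2
    have e2 : (((u + H) / d : ℕ) : ℝ) ≤ ((u + H : ℕ) : ℝ) / d := Nat.cast_div_le
    have e3 : (u : ℝ) < ((u / d : ℕ) + 1) * d := by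
      have := Nat.lt_div_mul_add (a := u) (b := d) (by omega)
      have h5 : u < (u / d + 1) * d := by
        calc u < u / d * d + d := this
          _ = (u / d + 1) * d := by ring
      exact_mod_cast h5
    have e4 : (u : ℝ) / d < ((u / d : ℕ) : ℝ) + 1 := by
      rw [div_lt_iff₀ hd0]
      exact e3
    have e5 : ((u + H : ℕ) : ℝ) / d = (u : ℝ) / d + (H : ℝ) / d := by
      push_cast
      rw [add_div]
    have e6 : 1 ≤ (H : ℝ) / d := by
      rw [le_div_iff₀ hd0, one_mul]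
      exact_mod_cast hdH
    have e7 : 2 * (H : ℝ) / d = (H : ℝ) / d + (H : ℝ) / d := by ring
    rw [e7]
    linarith only [e1, e2, e4, e5, e6]

/-- Type I sums in a window. -/
lemma typeI_win (u H N D : ℕ) (α K : ℝ) (hK : 0 ≤ K) (c g : ℕ → ℝ)
    (hc0 : ∀ d, D < d → c d = 0) (hc : ∀ d ∈ Icc 1 D, d ≤ N → |c d| * ‖∑ n ∈ Ioc (u / d) ((u + H) / d),
      ((g n : ℝ) : ℂ) * ex ((d * n : ℕ) * α)‖ ≤ K * mn (2 * (H : ℝ) / d) (α * d)) :
    ‖∑ m ∈ Icc 1 N, ∑ n ∈ Ioc (u / m) ((u + H) / m), ((c m * g n : ℝ) : ℂ) * ex ((m * n : ℕ) * α)‖ ≤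
      K * ∑ d ∈ Icc 1 D, mn (2 * (H : ℝ) / d) (α * d) := by
  rw [Finset.mul_sum]
  refine (norm_sum_le _ _).trans ?_
  have h1 : ∀ m ∈ Icc 1 N, ‖∑ n ∈ Ioc (u / m) ((u + H) / m),
      ((c m * g n : ℝ) : ℂ) * ex ((m * n : ℕ) * α)‖ ≤
      if m ≤ D then K * mn (2 * (H : ℝ) / m) (α * m) else 0 := by
    intro m hm
    have h2 : ∑ n ∈ Ioc (u / m) ((u + H) / m), ((c m * g n : ℝ) : ℂ) * ex ((m * n : ℕ) * α) =
        ((c m : ℝ) : ℂ) * ∑ n ∈ Ioc (u / m) ((u + H) / m),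
          ((g n : ℝ) : ℂ) * ex ((m * n : ℕ) * α) := by
      rw [Finset.mul_sum]
      apply Finset.sum_congr rfl
      intro n _
      push_cast; ring
    rw [h2, norm_mul, Complex.norm_real, Real.norm_eq_abs]
    rw [mem_Icc] at hm
    split_ifs with h
    · exact hc m (mem_Icc.2 ⟨hm.1, h⟩) hm.2
    · rw [hc0 m (by omega), abs_zero, zero_mul]
  refine (Finset.sum_le_sum h1).trans ?_
  rw [← Finset.sum_filter]
  apply Finset.sum_le_sum_of_subset_of_nonneg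
  · intro m hm
    rw [mem_filter, mem_Icc] at hm
    rw [mem_Icc]
    exact ⟨hm.1.1, hm.2⟩
  · intro m _ _
    exact mul_nonneg hK (mn_nonneg (by positivity) _)

/-- Dyadic decomposition. -/
lemma dyadic (U X N : ℕ) (hU : 1 ≤ U) (hXN : X ≤ N) (T : ℕ → ℂ)
    (h0 : ∀ m, m ≤ U → T m = 0) (hX : ∀ m, X < m → T m = 0) :
    ∑ m ∈ Icc 1 N, T m = ∑ j ∈ range (Nat.log 2 X + 1), ∑ m ∈ Ioc (U * 2 ^ j) (2 * (U * 2 ^ j)), T m := by
  have h1 : ∀ J : ℕ, ∑ j ∈ range J, ∑ m ∈ Ioc (U * 2 ^ j) (2 * (U * 2 ^ j)), T m =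
      ∑ m ∈ Ioc U (U * 2 ^ J), T m := by
    intro J
    induction J with
    | zero => simp
    | succ J ih =>
      rw [Finset.sum_range_succ, ih]
      have h2 : Ioc U (U * 2 ^ (J + 1)) = Ioc U (U * 2 ^ J) ∪ Ioc (U * 2 ^ J) (2 * (U * 2 ^ J)) := by
        ext m
        have h3 : U ≤ U * 2 ^ J := Nat.le_mul_of_pos_right U (by positivity)
        have h4 : U * 2 ^ (J + 1) = 2 * (U * 2 ^ J) := by ring
        simp only [mem_Ioc, mem_union]
        omega
      rw [h2, Finset.sum_union]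
      rw [Finset.disjoint_left]
      intro m h3 h4
      rw [mem_Ioc] at h3 h4
      omega
  rw [h1]
  have h5 : X < 2 ^ (Nat.log 2 X + 1) := Nat.lt_pow_succ_log_self (by norm_num) X
  have h6 : X ≤ U * 2 ^ (Nat.log 2 X + 1) := by
    have : 2 ^ (Nat.log 2 X + 1) ≤ U * 2 ^ (Nat.log 2 X + 1) := Nat.le_mul_of_pos_left _ (by omega)
    omega
  have h7 : ∑ m ∈ Icc 1 N, T m = ∑ m ∈ Ioc U X, T m := by
    symm
    apply Finset.sum_subset
    · intro m hm
      rw [mem_Ioc] at hm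
      rw [mem_Icc]
      omega
    · intro m _ hm
      rw [mem_Ioc] at hm
      by_cases h : m ≤ U
      · exact h0 m h
      · exact hX m (by omega)
  rw [h7]
  apply Finset.sum_subset
  · intro m hm
    rw [mem_Ioc] at hm ⊢
    omega
  · intro m hm hm2
    rw [mem_Ioc] at hm hm2
    exact hX m (by omega)

/-- One half of the bilinear sum. -/
lemma side {C : ℝ} (hC : 1 ≤ C) (hb : ∀ (M x H q : ℕ) (a0 : ℤ) (α : ℝ) (a b : ℕ → ℂ), 1 ≤ M → 1 ≤ H →
      1 ≤ q → IsCoprime a0 (q : ℤ) → |α - a0 / q| ≤ 1 / (q : ℝ) ^ 2 →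
    ∑ u ∈ range (x + 1), ‖∑ m ∈ Ioc M (2 * M), ∑ n ∈ Ioc (u / m) ((u + H) / m), a m * b n * ex (m * n * α)‖ ^ 2 ≤
      C * H * (∑ m ∈ Ioc M (2 * M), ‖a m‖ ^ 2) * (∑ n ∈ Icc 1 ((x + H) / M), ‖b n‖ ^ 2) *
        ((M + H / q + H / M + q) * (1 + Real.log q)))
    (x H q U X : ℕ) (a0 : ℤ) (α : ℝ) (c d : ℕ → ℝ) (R Q : ℝ) (hH : 1 ≤ H) (hHx : H ≤ x) (hq : 1 ≤ q)
    (hco : IsCoprime a0 (q : ℤ)) (hα : |α - a0 / q| ≤ 1 / (q : ℝ) ^ 2) (hU : 1 ≤ U) (hX : X ≤ 3 * x)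
    (hc0 : ∀ m, m ≤ U → c m = 0) (hcX : ∀ m, X < m → c m = 0) (hR : 0 ≤ R) (hQ0 : 0 ≤ Q)
    (hcR : ∀ N : ℕ, N ≤ 6 * x → ∑ n ∈ Icc 1 N, |c n| ^ 2 ≤ N * R)
    (hdR : ∀ N : ℕ, N ≤ 6 * x → ∑ n ∈ Icc 1 N, |d n| ^ 2 ≤ N * R)
    (hQ : ∀ M : ℕ, U ≤ M → M ≤ X → (M : ℝ) + H / q + H / M + q ≤ Q) :
    ∑ u ∈ range (2 * x + 1), ‖∑ m ∈ Icc 1 (3 * x), ∑ n ∈ Ioc (u / m) ((u + H) / m),
      ((c m * d n : ℝ) : ℂ) * ex ((m * n : ℕ) * α)‖ ^ 2 ≤
      ((Nat.log 2 X + 1 : ℕ) : ℝ) ^ 2 * (C * H * (6 * x * R ^ 2) * (Q * (1 + Real.log q))) := by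
  set J := Nat.log 2 X + 1 with hJ
  have hq0 : (1 : ℝ) ≤ q := by exact_mod_cast hq
  have hlq : 0 ≤ Real.log q := Real.log_nonneg hq0
  set E := C * H * (6 * x * R ^ 2) * (Q * (1 + Real.log q)) with hE
  have hE0 : 0 ≤ E := by positivity
  set T : ℕ → ℕ → ℂ := fun u m => ∑ n ∈ Ioc (u / m) ((u + H) / m),
      ((c m * d n : ℝ) : ℂ) * ex ((m * n : ℕ) * α) with hT
  have hT0 : ∀ u m, m ≤ U → T u m = 0 := by
    intro u m hm
    apply Finset.sum_eq_zero
    intro n _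
    rw [hc0 m hm, zero_mul, Complex.ofReal_zero, zero_mul]
  have hTX : ∀ u m, X < m → T u m = 0 := by
    intro u m hm
    apply Finset.sum_eq_zero
    intro n _
    rw [hcX m hm, zero_mul, Complex.ofReal_zero, zero_mul]
  have hblock : ∀ j ∈ range J, ∑ u ∈ range (2 * x + 1),
      ‖∑ m ∈ Ioc (U * 2 ^ j) (2 * (U * 2 ^ j)), T u m‖ ^ 2 ≤ E := by
    intro j _
    set M := U * 2 ^ j with hM
    have hUM : U ≤ M := Nat.le_mul_of_pos_right U (by (clear * -; positivity))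
    rcases Nat.lt_or_ge X M with hXM | hMX
    · have : ∀ u ∈ range (2 * x + 1), ‖∑ m ∈ Ioc M (2 * M), T u m‖ ^ 2 = 0 := by
        intro u _
        have : ∑ m ∈ Ioc M (2 * M), T u m = 0 := by
          apply Finset.sum_eq_zero
          intro m hm
          rw [mem_Ioc] at hm
          exact hTX u m (by omega)
        rw [this]
        simp
      rw [Finset.sum_congr rfl this]
      simpa using hE0
    · have h1 := hb M (2 * x) H q a0 α (fun m => (c m : ℂ)) (fun n => (d n : ℂ)) (by omega) hH hq hco hα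
      have h2 : ∀ u, ∑ m ∈ Ioc M (2 * M), T u m = ∑ m ∈ Ioc M (2 * M),
          ∑ n ∈ Ioc (u / m) ((u + H) / m), (c m : ℂ) * (d n : ℂ) * ex (m * n * α) := by
        intro u
        apply Finset.sum_congr rfl
        intro m _
        apply Finset.sum_congr rfl
        intro n _
        push_cast
        ring
      simp only [h2]
      refine h1.trans ?_
      have hM0 : (0 : ℝ) < M := by exact_mod_cast (by omega : 0 < M)
      have h3 : ∑ m ∈ Ioc M (2 * M), ‖(c m : ℂ)‖ ^ 2 ≤ 2 * M * R := by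
        have h4 := hcR (2 * M) (by omega)
        push_cast at h4
        refine le_trans ?_ h4
        have h5 : ∀ m ∈ Ioc M (2 * M), ‖(c m : ℂ)‖ ^ 2 = |c m| ^ 2 := by
          intro m _
          rw [Complex.norm_real, Real.norm_eq_abs]
        rw [Finset.sum_congr rfl h5]
        apply Finset.sum_le_sum_of_subset_of_nonneg
        · intro m hm
          rw [mem_Ioc] at hm
          rw [mem_Icc]
          omega
        · intro m _ _
          (clear * -; positivity)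
      have h6 : ∑ n ∈ Icc 1 ((2 * x + H) / M), ‖(d n : ℂ)‖ ^ 2 ≤ 3 * x / M * R := by
        have h7 : (2 * x + H) / M ≤ 6 * x := (Nat.div_le_self _ _).trans (by omega)
        have h8 := hdR _ h7
        have h9 : ∀ n ∈ Icc 1 ((2 * x + H) / M), ‖(d n : ℂ)‖ ^ 2 = |d n| ^ 2 := by
          intro n _
          rw [Complex.norm_real, Real.norm_eq_abs]
        rw [Finset.sum_congr rfl h9]
        refine h8.trans (mul_le_mul_of_nonneg_right ?_ hR)
        have h10 : (((2 * x + H) / M : ℕ) : ℝ) ≤ ((2 * x + H : ℕ) : ℝ) / M := Nat.cast_div_le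
        refine h10.trans (div_le_div_of_nonneg_right ?_ hM0.le)
        push_cast
        have : (H : ℝ) ≤ x := by exact_mod_cast hHx
        linarith only [this]
      have h11 := hQ M hUM hMX
      have h12 : 0 ≤ (M : ℝ) + H / q + H / M + q := by (clear * - hH hq hU; positivity)
      have h13 : 0 ≤ ∑ m ∈ Ioc M (2 * M), ‖(c m : ℂ)‖ ^ 2 := Finset.sum_nonneg fun _ _ => by (clear * -; positivity)
      have h14 : 0 ≤ ∑ n ∈ Icc 1 ((2 * x + H) / M), ‖(d n : ℂ)‖ ^ 2 :=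
        Finset.sum_nonneg fun _ _ => by (clear * -; positivity)
      have h15 : (2 * M * R) * (3 * x / M * R) = 6 * x * R ^ 2 := by
        field_simp
        ring
      calc C * H * (∑ m ∈ Ioc M (2 * M), ‖(c m : ℂ)‖ ^ 2) *
            (∑ n ∈ Icc 1 ((2 * x + H) / M), ‖(d n : ℂ)‖ ^ 2) *
            (((M : ℝ) + H / q + H / M + q) * (1 + Real.log q))
          ≤ C * H * (2 * M * R) * (3 * x / M * R) * (Q * (1 + Real.log q)) := by gcongr
        _ = C * H * ((2 * M * R) * (3 * x / M * R)) * (Q * (1 + Real.log q)) := by ring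
        _ = E := by rw [h15]
  have hu : ∀ u ∈ range (2 * x + 1), ‖∑ m ∈ Icc 1 (3 * x), T u m‖ ^ 2 ≤
      J * ∑ j ∈ range J, ‖∑ m ∈ Ioc (U * 2 ^ j) (2 * (U * 2 ^ j)), T u m‖ ^ 2 := by
    intro u _
    rw [dyadic U X (3 * x) hU hX (T u) (hT0 u) (hTX u), ← hJ]
    have h1 := norm_sum_le (range J) (fun j => ∑ m ∈ Ioc (U * 2 ^ j) (2 * (U * 2 ^ j)), T u m)
    have h2 := pow_le_pow_left₀ (norm_nonneg _) h1 2
    refine h2.trans ?_
    have h3 := sq_sum_le_card_mul_sum_sq (s := range J)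
      (f := fun j => ‖∑ m ∈ Ioc (U * 2 ^ j) (2 * (U * 2 ^ j)), T u m‖)
    rw [Finset.card_range] at h3
    exact h3
  refine (Finset.sum_le_sum hu).trans ?_
  rw [← Finset.mul_sum, Finset.sum_comm]
  have h4 : ∑ j ∈ range J, ∑ u ∈ range (2 * x + 1),
      ‖∑ m ∈ Ioc (U * 2 ^ j) (2 * (U * 2 ^ j)), T u m‖ ^ 2 ≤ J * E := by
    refine (Finset.sum_le_sum hblock).trans ?_
    rw [Finset.sum_const, Finset.card_range, nsmul_eq_mul]
  calc (J : ℝ) * ∑ j ∈ range J, ∑ u ∈ range (2 * x + 1),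
      ‖∑ m ∈ Ioc (U * 2 ^ j) (2 * (U * 2 ^ j)), T u m‖ ^ 2 ≤ J * (J * E) :=
        mul_le_mul_of_nonneg_left h4 (Nat.cast_nonneg _)
    _ = (J : ℝ) ^ 2 * E := by ring

end MinorWinPAux

namespace MinorWinPAux

open Pool.Agent.Lib

lemma part0 (x H u : ℕ) (hx : 1 ≤ x) (hHx : H ≤ x) (hu : u ≤ 2 * x) (α : ℝ) :
    ‖∑ n ∈ Ioc u (u + H), (lp n : ℂ) * ex (n * α) -
      ∑ n ∈ Ioc u (u + H), ((ArithmeticFunction.vonMangoldt n : ℝ) : ℂ) * ex (n * α)‖ ≤
      2 * Real.sqrt (3 * x) * Real.log (3 * x) := by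
  rw [← Finset.sum_sub_distrib]
  refine (norm_sum_le _ _).trans ?_
  have hnn : ∀ n, 0 ≤ ArithmeticFunction.vonMangoldt n - lp n := by
    intro n
    unfold Pool.Agent.HLT.lp
    split_ifs with hp
    · rw [ArithmeticFunction.vonMangoldt_apply_prime hp, sub_self]
    · rw [sub_zero]
      exact ArithmeticFunction.vonMangoldt_nonneg
  have h3 : ∀ n ∈ Ioc u (u + H), ‖((lp n : ℝ) : ℂ) * ex (n * α) -
      ((ArithmeticFunction.vonMangoldt n : ℝ) : ℂ) * ex (n * α)‖ =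
      ArithmeticFunction.vonMangoldt n - lp n := by
    intro n _
    rw [← sub_mul, norm_mul, norm_ex, mul_one, ← Complex.ofReal_sub, Complex.norm_real,
      Real.norm_eq_abs, abs_sub_comm, abs_of_nonneg (hnn n)]
  rw [Finset.sum_congr rfl h3]
  have h4 : ∑ n ∈ Ioc u (u + H), (ArithmeticFunction.vonMangoldt n - lp n) ≤
      ∑ n ∈ Icc 1 (3 * x), (ArithmeticFunction.vonMangoldt n - lp n) := by
    apply Finset.sum_le_sum_of_subset_of_nonneg
    · intro n hn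
      rw [mem_Ioc] at hn
      rw [mem_Icc]
      omega
    · intro n _ _
      exact hnn n
  refine h4.trans ?_
  rw [Finset.sum_sub_distrib, MinorPrime.psi_eq, MinorPrime.theta_eq]
  have hyr : (1:ℝ) ≤ ((3 * x : ℕ) : ℝ) := by exact_mod_cast (by omega : 1 ≤ 3 * x)
  have h5 := (le_abs_self _).trans (Chebyshev.abs_psi_sub_theta_le_sqrt_mul_log hyr)
  refine h5.trans (le_of_eq ?_)
  push_cast
  rfl

lemma part1 (U u H : ℕ) (α : ℝ) :
    ‖∑ n ∈ Ioc u (u + H), ((BV.LU U n : ℝ) : ℂ) * ex (n * α)‖ ≤ (Real.log 4 + 4) * U := by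
  refine (norm_sum_le _ _).trans ?_
  have h3 : ∀ n ∈ Ioc u (u + H), ‖((BV.LU U n : ℝ) : ℂ) * ex (n * α)‖ ≤
      if n ≤ U then ArithmeticFunction.vonMangoldt n else 0 := by
    intro n _
    rw [norm_mul, norm_ex, mul_one, Complex.norm_real, Real.norm_eq_abs,
      abs_of_nonneg (BV.vau_LU_nonneg U n), BV.vau_LU_apply]
  refine (Finset.sum_le_sum h3).trans ?_
  rw [← Finset.sum_filter]
  have h4 : ∑ n ∈ (Ioc u (u + H)).filter (fun n => n ≤ U), ArithmeticFunction.vonMangoldt n ≤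
      ∑ n ∈ Icc 1 U, ArithmeticFunction.vonMangoldt n := by
    apply Finset.sum_le_sum_of_subset_of_nonneg
    · intro n hn
      rw [mem_filter, mem_Ioc] at hn
      rw [mem_Icc]
      omega
    · intro n _ _
      exact ArithmeticFunction.vonMangoldt_nonneg
  refine h4.trans ?_
  rw [MinorPrime.psi_eq]
  exact Chebyshev.psi_le_const_mul_self (Nat.cast_nonneg U)

lemma log3 (x : ℕ) (hx : 3 ≤ x) : Real.log (3 * x) ≤ 2 * Real.log x := by
  have hx3 : (3:ℝ) ≤ x := by exact_mod_cast hx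
  have h1 : (3:ℝ) * x ≤ (x:ℝ) ^ 2 := by nlinarith
  have h2 := Real.log_le_log (by positivity) h1
  rw [Real.log_pow] at h2
  push_cast at h2
  exact h2

lemma log6 (x N : ℕ) (hx : 3 ≤ x) (hN : N ≤ 6 * x) : Real.log N ≤ 3 * Real.log x := by
  have hx3 : (3:ℝ) ≤ x := by exact_mod_cast hx
  rcases Nat.eq_zero_or_pos N with h0 | h0
  · rw [h0]
    simp
    exact Real.log_nonneg (by linarith)
  · have h1 : (N:ℝ) ≤ (x:ℝ) ^ 3 := by
      have h2 : (N:ℝ) ≤ 6 * x := by exact_mod_cast hN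
      nlinarith [mul_self_nonneg ((x:ℝ) - 3)]
    have h2 := Real.log_le_log (by exact_mod_cast h0) h1
    rw [Real.log_pow] at h2
    push_cast at h2
    exact h2

/-- The type I parts. -/
lemma part23 {C₁ : ℝ} (hC₁ : 0 < C₁) (h1 : ∀ (q M : ℕ) (a : ℤ) (α X : ℝ), 1 ≤ q →
    IsCoprime a (q : ℤ) → |α - a / q| ≤ 1 / (q : ℝ) ^ 2 → 0 ≤ X →
    ∑ m ∈ Icc 1 M, mn (X / m) (α * m) ≤ C₁ * (X / q + M + q) * Real.log (4 * q * (M + 1)))
    (x H q U u : ℕ) (a : ℤ) (α : ℝ) (hx : 3 ≤ x) (hL : 1 ≤ Real.log x) (hHx : H ≤ x) (hu : u ≤ 2 * x)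
    (hq : 1 ≤ q) (hqx : q ≤ x) (hco : IsCoprime a (q : ℤ)) (hα : |α - a / q| ≤ 1 / (q : ℝ) ^ 2)
    (hU : 1 ≤ U) (hUH : U * U ≤ H) :
    ‖∑ m ∈ Icc 1 (3 * x), ∑ n ∈ Ioc (u / m) ((u + H) / m), (((BV.LU U * BV.muV U) m *
        (ArithmeticFunction.zeta : ArithmeticFunction ℝ) n : ℝ) : ℂ) * ex ((m * n : ℕ) * α)‖ ≤
      4 * Real.log x ^ 2 * (C₁ * (2 * H / q + (U * U : ℕ) + q)) ∧
    ‖∑ m ∈ Icc 1 (3 * x), ∑ n ∈ Ioc (u / m) ((u + H) / m),
        ((BV.muV U m * ArithmeticFunction.log n : ℝ) : ℂ) * ex ((m * n : ℕ) * α)‖ ≤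
      16 * Real.log x ^ 2 * (C₁ * (2 * H / q + (U * U : ℕ) + q)) := by
  set L := Real.log x with hLd
  have hL0 : 0 < L := by linarith only [hL]
  have hx3 : (3:ℝ) ≤ x := by exact_mod_cast hx
  have hqr : (1:ℝ) ≤ q := by exact_mod_cast hq
  have hqxr : (q:ℝ) ≤ x := by exact_mod_cast hqx
  have hsum : ∀ D : ℕ, D ≤ U * U → ∑ d ∈ Icc 1 D, mn (2 * (H : ℝ) / d) (α * d) ≤
      C₁ * (2 * H / q + (U * U : ℕ) + q) * (4 * L) := by
    intro D hD
    refine (h1 q D a α (2 * H) hq hco hα (by positivity)).trans ?_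
    have hDr : (D:ℝ) ≤ (U * U : ℕ) := by exact_mod_cast hD
    have hDx : (D:ℝ) ≤ x := by exact_mod_cast (by omega : D ≤ x)
    have e1 : (4:ℝ) * q * ((D:ℝ) + 1) ≤ (x:ℝ) ^ 4 := by
      have h5 : (4:ℝ) * q * ((D:ℝ) + 1) ≤ 4 * x * (2 * x) := by
        have := (Nat.cast_nonneg D : (0:ℝ) ≤ D)
        have h6 : (D:ℝ) + 1 ≤ 2 * x := by linarith only [hx3, hDx]
        gcongr
      have h7 : (9:ℝ) ≤ (x:ℝ) ^ 2 := by nlinarith only [hx3]
      have h8 : (x:ℝ) ^ 4 = (x:ℝ) ^ 2 * (x * x) := by ring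
      rw [h8]
      nlinarith only [h5, h7]
    have e2 : Real.log (4 * q * ((D:ℝ) + 1)) ≤ 4 * L := by
      have h4 := Real.log_le_log (by positivity) e1
      rw [Real.log_pow] at h4
      push_cast at h4
      exact h4
    have e3 : 0 ≤ Real.log (4 * q * ((D:ℝ) + 1)) := by
      apply Real.log_nonneg
      have := (Nat.cast_nonneg D : (0:ℝ) ≤ D)
      nlinarith only [hqr]
    gcongr
  constructor
  · refine (typeI_win u H (3 * x) (U * U) α L hL0.le (fun m => (BV.LU U * BV.muV U) m)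
        (fun n => (ArithmeticFunction.zeta : ArithmeticFunction ℝ) n)
        (fun d hd => BV.LU_mul_muV_apply_of_gt hd) ?_).trans ?_
    · intro d hd _
      rw [mem_Icc] at hd
      have h3 : ∑ n ∈ Ioc (u / d) ((u + H) / d),
          (((ArithmeticFunction.zeta : ArithmeticFunction ℝ) n : ℝ) : ℂ) *
            ex ((d * n : ℕ) * α) = ∑ n ∈ Ioc (u / d) ((u + H) / d), ex (n * (α * d)) := by
        apply Finset.sum_congr rfl
        intro n hn
        rw [mem_Ioc] at hn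
        have hn0 : n ≠ 0 := by
          rintro rfl
          exact Nat.not_lt_zero _ hn.1
        have h4 : (ArithmeticFunction.zeta : ArithmeticFunction ℝ) n = 1 := by
          rw [ArithmeticFunction.natCoe_apply, ArithmeticFunction.zeta_apply,
            if_neg hn0]
          simp
        rw [h4]
        push_cast
        rw [one_mul]
        congr 1
        ring
      rw [h3]
      have h4 : |(BV.LU U * BV.muV U) d| ≤ L := by
        refine (MinorPrime.coeff_le U U d).trans ?_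
        apply Real.log_le_log (by exact_mod_cast hd.1)
        exact_mod_cast (by omega : d ≤ x)
      exact mul_le_mul h4 (geom_win u H d hd.1 (by omega) α _
        (Nat.div_le_div_right (by omega)) le_rfl) (norm_nonneg _) hL0.le
    · have h5 := hsum (U * U) le_rfl
      calc L * ∑ d ∈ Icc 1 (U * U), mn (2 * (H : ℝ) / d) (α * d)
          ≤ L * (C₁ * (2 * H / q + (U * U : ℕ) + q) * (4 * L)) :=
            mul_le_mul_of_nonneg_left h5 hL0.le
        _ = _ := by ring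
  · have hUU : U ≤ U * U := Nat.le_mul_of_pos_left U (by omega)
    refine (typeI_win u H (3 * x) U α (4 * L) (by linarith only [hL]) (fun m => BV.muV U m)
        (fun n => ArithmeticFunction.log n) (fun d hd => by
          show BV.muV U d = 0
          rw [BV.vau_muV_apply, if_neg (by omega)]) ?_).trans ?_
    · intro d hd _
      rw [mem_Icc] at hd
      have hdH : d ≤ H := by omega
      have h3 : ∑ n ∈ Ioc (u / d) ((u + H) / d), ((ArithmeticFunction.log n : ℝ) : ℂ) *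
            ex ((d * n : ℕ) * α) =
          ∑ n ∈ Ioc (u / d) ((u + H) / d), ((Real.log n : ℝ) : ℂ) * ex (n * (α * d)) := by
        apply Finset.sum_congr rfl
        intro n _
        rw [ArithmeticFunction.log_apply]
        congr 2
        push_cast; ring
      rw [h3]
      have h4 := log_win (mn (2 * (H : ℝ) / d) (α * d)) (α * d) (u / d) ((u + H) / d)
        (Nat.div_le_div_right (by omega))
        (fun m hm1 hm2 => geom_win u H d hd.1 hdH α m hm1 hm2)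
      have h5 := BV.vau_muV_abs_le U d
      have h6 : Real.log (((u + H) / d : ℕ) : ℝ) ≤ 2 * L := by
        refine le_trans ?_ (log3 x hx)
        rcases Nat.eq_zero_or_pos ((u + H) / d) with h0 | h0
        · rw [h0, Nat.cast_zero, Real.log_zero]
          exact Real.log_nonneg (by linarith only [hx3])
        · apply Real.log_le_log (by exact_mod_cast h0)
          have h7 : (u + H) / d ≤ 3 * x := (Nat.div_le_self _ _).trans (by omega)
          exact_mod_cast h7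
      have h7 : 0 ≤ mn (2 * (H : ℝ) / d) (α * d) := mn_nonneg (by (clear * -; positivity)) _
      calc |BV.muV U d| * ‖∑ n ∈ Ioc (u / d) ((u + H) / d), ((Real.log n : ℝ) : ℂ) * ex (n * (α * d))‖
          ≤ 1 * (2 * (mn (2 * (H : ℝ) / d) (α * d) * Real.log (((u + H) / d : ℕ) : ℝ))) :=
            mul_le_mul h5 h4 (norm_nonneg _) zero_le_one
        _ ≤ 1 * (2 * (mn (2 * (H : ℝ) / d) (α * d) * (2 * L))) := by gcongr
        _ = 4 * L * mn (2 * (H : ℝ) / d) (α * d) := by ring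
    · have h5 := hsum U hUU
      calc 4 * L * ∑ d ∈ Icc 1 U, mn (2 * (H : ℝ) / d) (α * d)
          ≤ 4 * L * (C₁ * (2 * H / q + (U * U : ℕ) + q) * (4 * L)) :=
            mul_le_mul_of_nonneg_left h5 (by linarith only [hL])
        _ = _ := by ring

/-- The splitting of the bilinear part. -/
lemma part4_split (U u H x : ℕ) (α : ℝ) (hN : u + H ≤ 3 * x) :
    ∑ m ∈ Icc 1 (3 * x), ∑ n ∈ Ioc (u / m) ((u + H) / m),
        ((BV.alphaU U m * BV.betaV U n : ℝ) : ℂ) * ex ((m * n : ℕ) * α) =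
    ∑ m ∈ Icc 1 (3 * x), ∑ n ∈ Ioc (u / m) ((u + H) / m),
        (((if m ≤ Nat.sqrt (3 * x) then BV.alphaU U m else 0) * BV.betaV U n : ℝ) : ℂ) *
          ex ((m * n : ℕ) * α) +
    ∑ n ∈ Icc 1 (3 * x), ∑ m ∈ Ioc (u / n) ((u + H) / n),
        (((if n ≤ Nat.sqrt (3 * x) then BV.betaV U n else 0) *
          (if Nat.sqrt (3 * x) < m then BV.alphaU U m else 0) : ℝ) : ℂ) *
          ex ((n * m : ℕ) * α) := by
  set X := Nat.sqrt (3 * x) with hX
  have e1 : ∑ m ∈ Icc 1 (3 * x), ∑ n ∈ Ioc (u / m) ((u + H) / m),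
        ((BV.alphaU U m * BV.betaV U n : ℝ) : ℂ) * ex ((m * n : ℕ) * α) =
    ∑ m ∈ Icc 1 (3 * x), ∑ n ∈ Ioc (u / m) ((u + H) / m),
        (((if m ≤ X then BV.alphaU U m else 0) * BV.betaV U n : ℝ) : ℂ) *
          ex ((m * n : ℕ) * α) +
    ∑ m ∈ Icc 1 (3 * x), ∑ n ∈ Ioc (u / m) ((u + H) / m),
        (((if X < m then BV.alphaU U m else 0) * BV.betaV U n : ℝ) : ℂ) *
          ex ((m * n : ℕ) * α) := by
    rw [← Finset.sum_add_distrib]
    apply Finset.sum_congr rfl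
    intro m _
    rw [← Finset.sum_add_distrib]
    apply Finset.sum_congr rfl
    intro n _
    by_cases h : m ≤ X
    · rw [if_pos h, if_neg (by omega)]
      push_cast
      ring
    · rw [if_neg h, if_pos (by omega)]
      push_cast
      ring
  rw [e1]
  congr 1
  rw [swap_win u H (3 * x) hN]
  apply Finset.sum_congr rfl
  intro n hn
  rw [mem_Icc] at hn
  apply Finset.sum_congr rfl
  intro m hm
  rw [mem_win hn.1] at hm
  have e2 : (m * n : ℕ) = n * m := mul_comm m n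
  rw [e2]
  by_cases h : n ≤ X
  · rw [if_pos h]
    push_cast
    ring
  · rw [if_neg h]
    have h2 : ¬ X < m := by
      intro h3
      have h4 : 3 * x < (X + 1) * (X + 1) := Nat.lt_succ_sqrt (3 * x)
      have h5 : (X + 1) * (X + 1) ≤ n * m := Nat.mul_le_mul (by omega) (by omega)
      omega
    rw [if_neg h2]
    push_cast
    ring

lemma alpha_sq (U x : ℕ) (hx : 3 ≤ x) (hL : 1 ≤ Real.log x) (c : ℕ → ℝ)
    (hc : ∀ n, |c n| ≤ |BV.alphaU U n|) (N : ℕ) (hN : N ≤ 6 * x) :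
    ∑ n ∈ Icc 1 N, |c n| ^ 2 ≤ N * (4 * Real.log x) ^ 4 := by
  have h1 : ∀ n ∈ Icc 1 N, |c n| ^ 2 ≤ (4 * Real.log x) ^ 4 := by
    intro n hn
    rw [mem_Icc] at hn
    have h2 : |c n| ≤ 3 * Real.log x :=
      (hc n).trans ((BV.alphaU_abs_le U n).trans (log6 x n hx (by omega)))
    calc |c n| ^ 2 ≤ (3 * Real.log x) ^ 2 := pow_le_pow_left₀ (abs_nonneg _) h2 2
      _ ≤ (4 * Real.log x) ^ 2 := by gcongr; norm_num
      _ ≤ (4 * Real.log x) ^ 4 := pow_le_pow_right₀ (by linarith) (by norm_num)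
  refine (Finset.sum_le_sum h1).trans ?_
  rw [Finset.sum_const, Nat.card_Icc, nsmul_eq_mul, Nat.add_sub_cancel]

lemma beta_sq (U x : ℕ) (hU : 1 ≤ U) (hx : 3 ≤ x) (hL : 1 ≤ Real.log x) (c : ℕ → ℝ)
    (hc : ∀ n, |c n| ≤ |BV.betaV U n|) (N : ℕ) (hN : N ≤ 6 * x) :
    ∑ n ∈ Icc 1 N, |c n| ^ 2 ≤ N * (4 * Real.log x) ^ 4 := by
  have h1 : ∀ n ∈ Icc 1 N, |c n| ^ 2 ≤ (n.divisors.card : ℝ) ^ 2 := by
    intro n _
    exact pow_le_pow_left₀ (abs_nonneg _) ((hc n).trans (BV.betaV_abs_le hU n)) 2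
  refine (Finset.sum_le_sum h1).trans ((sum_tau_pow 2 N).trans ?_)
  have h2 := log6 x N hx hN
  have h3 : 0 ≤ Real.log N := Real.log_natCast_nonneg N
  have h4 : (2:ℕ) ^ 2 = 4 := by norm_num
  rw [h4]
  gcongr
  linarith

end MinorWinPAux

namespace MinorWinPAux

open Pool.Agent.Lib

lemma ev_all (ε K : ℝ) (n : ℕ) (hε : 0 < ε) : ∀ᶠ x : ℕ in atTop, 3 ≤ x ∧ K ≤ Real.log x ∧
    12 * Real.log x ^ n ≤ (x : ℝ) ^ ε := by
  have h1 : (fun x : ℝ => Real.log x ^ n) =o[atTop] (fun x : ℝ => x ^ ε) := by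
    have h := isLittleO_log_rpow_rpow_atTop ((n : ℕ) : ℝ) hε
    simp only [Real.rpow_natCast] at h
    exact h
  have h2 := (h1.comp_tendsto tendsto_natCast_atTop_atTop).bound (show (0:ℝ) < 1 / 12 by norm_num)
  have h3 : ∀ᶠ x : ℕ in atTop, K ≤ Real.log x :=
    (Real.tendsto_log_atTop.comp tendsto_natCast_atTop_atTop).eventually_ge_atTop _
  filter_upwards [h2, h3, eventually_ge_atTop 3] with x hx hK hx3
  refine ⟨hx3, hK, ?_⟩
  have hx0 : (0:ℝ) ≤ Real.log x := Real.log_natCast_nonneg x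
  simp only [Function.comp_def] at hx
  rw [Real.norm_of_nonneg (by positivity), Real.norm_of_nonneg (by positivity)] at hx
  linarith

lemma num_blocks (x : ℕ) (hx : 3 ≤ x) (hL : 1 ≤ Real.log x) :
    ((Nat.log 2 (Nat.sqrt (3 * x)) + 1 : ℕ) : ℝ) ≤ 4 * Real.log x := by
  have h1 := Real.natLog_le_logb (Nat.sqrt (3 * x)) 2
  simp only [Nat.cast_ofNat] at h1
  have h2 : Real.logb (2 : ℝ) (Nat.sqrt (3 * x) : ℕ) ≤ 3 * Real.log x := by
    unfold Real.logb
    have h3 : Real.log ((Nat.sqrt (3 * x) : ℕ) : ℝ) ≤ 2 * Real.log x := by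
      refine le_trans ?_ (log3 x hx)
      have h4 : 1 ≤ Nat.sqrt (3 * x) := by
        rw [Nat.le_sqrt]
        omega
      apply Real.log_le_log (by exact_mod_cast h4)
      have h5 : Nat.sqrt (3 * x) ≤ 3 * x := Nat.sqrt_le_self _
      exact_mod_cast h5
    have h6 : (69 / 100 : ℝ) < Real.log (2 : ℝ) := by
      have := Real.log_two_gt_d9
      linarith
    rw [div_le_iff₀ (by linarith)]
    nlinarith
  push_cast
  linarith

lemma sq_three (s t a b : ℝ) (hs : 0 ≤ s) (h : s ≤ t + a + b) :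
    s ^ 2 ≤ 3 * (t ^ 2 + a ^ 2 + b ^ 2) := by
  have h1 : s ^ 2 ≤ (t + a + b) ^ 2 := pow_le_pow_left₀ hs h 2
  nlinarith [sq_nonneg (t - a), sq_nonneg (t - b), sq_nonneg (a - b)]

/-- The constant. -/
lemma final_const (C L x H : ℝ) (B : ℕ) (hC : 1 ≤ C) (hL : 1 ≤ L) (hx : 0 ≤ x) (_hH : 0 ≤ H)
    (hLK : 12 * 50331648 * C ≤ L) (J lq : ℝ) (hJ0 : 0 ≤ J) (hJ : J ≤ 4 * L) (hlq : lq ≤ 2 * L)
    (_hlq0 : 0 ≤ lq) :
    J ^ 2 * (C * H * (6 * x * ((4 * L) ^ 4) ^ 2) * ((4 * (H / L ^ (B + 12))) * lq)) ≤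
      x * H ^ 2 / L ^ B / 12 := by
  have hL0 : 0 < L := by linarith
  have h1 : J ^ 2 * (C * H * (6 * x * ((4 * L) ^ 4) ^ 2) * ((4 * (H / L ^ (B + 12))) * lq)) ≤
      (4 * L) ^ 2 * (C * H * (6 * x * ((4 * L) ^ 4) ^ 2) * ((4 * (H / L ^ (B + 12))) * (2 * L))) := by
    gcongr
  refine h1.trans ?_
  have h2 : (4 * L) ^ 2 * (C * H * (6 * x * ((4 * L) ^ 4) ^ 2) * ((4 * (H / L ^ (B + 12))) * (2 * L))) =
      (50331648 * C / L) * (x * H ^ 2 / L ^ B) := by
    field_simp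
    ring
  rw [h2]
  have h3 : 50331648 * C / L ≤ 1 / 12 := by
    rw [div_le_iff₀ hL0]
    linarith only [hLK]
  have h4 : 0 ≤ x * H ^ 2 / L ^ B := by positivity
  calc (50331648 * C / L) * (x * H ^ 2 / L ^ B) ≤ (1 / 12) * (x * H ^ 2 / L ^ B) :=
        mul_le_mul_of_nonneg_right h3 h4
    _ = _ := by ring

end MinorWinPAux

open MinorWinPAux Pool.Agent.Lib in
theorem minor_win_prime (B : ℕ) (ε : ℝ) (hε : 0 < ε) : ∃ A2 : ℕ, ∀ᶠ x : ℕ in atTop, ∀ (q H : ℕ) (a : ℤ) (α : ℝ),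
    IsCoprime a (q : ℤ) → |α - a / q| ≤ 1 / (q : ℝ) ^ 2 → Real.log x ^ A2 ≤ q → (q : ℝ) ≤ H / Real.log x ^ A2 →
    (x : ℝ) ^ (1 / 2 + ε) ≤ H → H ≤ x →
    ∑ u ∈ range (2 * x + 1), ‖∑ n ∈ Ioc u (u + H), (lp n : ℂ) * ex (n * α)‖ ^ 2 ≤
      x * (H : ℝ) ^ 2 / Real.log x ^ B := by
  obtain ⟨C, hC, hb⟩ := win_bilin
  obtain ⟨C₁, hC₁, h1⟩ := sum_mn_div
  refine ⟨2 * B + 40, ?_⟩
  filter_upwards [ev_all ε (12 * 50331648 * C + 256 * C₁ + 288) (4 * B + 100) hε] with x hx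
  obtain ⟨hx3, hLK, hxε⟩ := hx
  intro q H a α hco hα hq1 hq2 hH1 hH2
  set L := Real.log x with hLd
  have hL288 : 288 ≤ L := by linarith only [hC, hC₁, hLK]
  have hL1 : 1 ≤ L := by linarith only [hC, hC₁, hLK]
  have hL0 : 0 < L := by linarith only [hC, hC₁, hLK]
  have hLC : 12 * 50331648 * C ≤ L := by linarith only [hC₁, hLK]
  have hLC1 : 256 * C₁ ≤ L := by linarith only [hC, hLK]
  have hxr : (3:ℝ) ≤ x := by exact_mod_cast hx3
  have hx0 : (0:ℝ) < x := by linarith only [hxr]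
  have hHxr : (H:ℝ) ≤ x := by exact_mod_cast hH2
  -- `H` is large
  have hs1 : 1 ≤ Real.sqrt x := by
    rw [Real.one_le_sqrt]
    linarith only [hxr]
  have hHbig : Real.sqrt x * (12 * L ^ (4 * B + 100)) ≤ H := by
    refine le_trans ?_ hH1
    rw [Real.rpow_add hx0, ← Real.sqrt_eq_rpow]
    exact mul_le_mul_of_nonneg_left hxε (Real.sqrt_nonneg _)
  have hHL : 12 * L ^ (4 * B + 100) ≤ H := by
    refine le_trans ?_ hHbig
    exact le_mul_of_one_le_left (by (clear * - hL288; positivity)) hs1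
  have hpow : ∀ a b : ℕ, a ≤ b → L ^ a ≤ L ^ b := fun a b h => pow_le_pow_right₀ hL1 h
  have hH0 : (0:ℝ) < H := by
    have : 0 < 12 * L ^ (4 * B + 100) := by (clear * - hL288; positivity)
    linarith only [hHL, this]
  have hH1' : 1 ≤ H := by
    have : 0 < H := by exact_mod_cast hH0
    omega
  have hqpos : (0:ℝ) < q := lt_of_lt_of_le (by (clear * - hL288; positivity)) hq1
  have hq1' : 1 ≤ q := by
    have : 0 < q := by exact_mod_cast hqpos
    omega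
  have hqH : (q:ℝ) ≤ H := by
    refine hq2.trans (div_le_self hH0.le ?_)
    exact one_le_pow₀ hL1
  have hqx : q ≤ x := by
    have : (q:ℝ) ≤ x := hqH.trans hHxr
    exact_mod_cast this
  -- the parameter `U`
  set U : ℕ := ⌈L ^ (B + 12)⌉₊ with hU
  have hUge : L ^ (B + 12) ≤ U := Nat.le_ceil _
  have hUle : (U:ℝ) ≤ 2 * L ^ (B + 12) := by
    have h2 : (U:ℝ) < L ^ (B + 12) + 1 := Nat.ceil_lt_add_one (by (clear * - hL288; positivity))
    have h3 : 1 ≤ L ^ (B + 12) := one_le_pow₀ hL1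
    linarith only [h2, h3]
  have hU1 : 1 ≤ U := by
    have h3 : (1:ℝ) ≤ U := (one_le_pow₀ hL1).trans hUge
    exact_mod_cast h3
  have hUUA : ((U * U : ℕ) : ℝ) ≤ H / L ^ (2 * B + 40) := by
    rw [le_div_iff₀ (by (clear * - hL288; positivity))]
    push_cast
    calc (U:ℝ) * U * L ^ (2 * B + 40) ≤ (2 * L ^ (B + 12)) * (2 * L ^ (B + 12)) * L ^ (2 * B + 40) := by
          gcongr
      _ = 4 * L ^ (4 * B + 64) := by ring
      _ ≤ 12 * L ^ (4 * B + 100) := by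
          have := hpow (4 * B + 64) (4 * B + 100) (by omega)
          have h4 : 0 < L ^ (4 * B + 64) := by (clear * - hL288; positivity)
          linarith only [this, h4]
      _ ≤ H := hHL
  have hUUH : U * U ≤ H := by
    have h3 : ((U * U : ℕ) : ℝ) ≤ H := hUUA.trans (div_le_self hH0.le (one_le_pow₀ hL1))
    exact_mod_cast h3
  -- the pointwise bound
  set T : ℝ := H / L ^ (B + 2) with hT
  have hT0 : 0 ≤ T := by (clear * - hL288 hH1'; positivity)
  have hHq : (H:ℝ) / q ≤ H / L ^ (2 * B + 40) := div_le_div_of_nonneg_left hH0.le (by (clear * - hL288; positivity)) hq1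
  have hG : C₁ * (2 * (H:ℝ) / q + (U * U : ℕ) + q) ≤ 4 * C₁ * (H / L ^ (2 * B + 40)) := by
    have h2 : 2 * (H:ℝ) / q = 2 * ((H:ℝ) / q) := by ring
    rw [h2]
    have h3 : 2 * ((H:ℝ) / q) + ((U * U : ℕ) : ℝ) + q ≤ 4 * (H / L ^ (2 * B + 40)) := by linarith only [hq2, hUUA, hHq]
    calc C₁ * (2 * ((H:ℝ) / q) + (U * U : ℕ) + q) ≤ C₁ * (4 * (H / L ^ (2 * B + 40))) := by gcongr
      _ = _ := by ring
  have hGT : 16 * L ^ 2 * (C₁ * (2 * (H:ℝ) / q + (U * U : ℕ) + q)) ≤ T := by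
    have h2 : 16 * L ^ 2 * (C₁ * (2 * (H:ℝ) / q + (U * U : ℕ) + q)) ≤
        16 * L ^ 2 * (4 * C₁ * (H / L ^ (2 * B + 40))) := by gcongr
    refine h2.trans ?_
    rw [hT, le_div_iff₀ (by (clear * - hL288; positivity))]
    have h3 : 16 * L ^ 2 * (4 * C₁ * (H / L ^ (2 * B + 40))) * L ^ (B + 2) =
        (64 * C₁ * L ^ (B + 4)) * H / L ^ (2 * B + 40) := by ring
    rw [h3, div_le_iff₀ (by (clear * - hL288; positivity))]
    have h4 : 64 * C₁ * L ^ (B + 4) ≤ L ^ (2 * B + 40) := by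
      calc 64 * C₁ * L ^ (B + 4) ≤ L * L ^ (B + 4) := by gcongr; linarith only [hC, hC₁, hLK]
        _ = L ^ (B + 5) := by ring
        _ ≤ L ^ (2 * B + 40) := hpow _ _ (by omega)
    nlinarith only [h4]
  have hGT4 : 4 * L ^ 2 * (C₁ * (2 * (H:ℝ) / q + (U * U : ℕ) + q)) ≤ T := by
    refine le_trans ?_ hGT
    have : 0 ≤ L ^ 2 * (C₁ * (2 * (H:ℝ) / q + (U * U : ℕ) + q)) := by (clear * - hC₁ hL288 hH1' hq1'; positivity)
    linarith only [this]
  have hW1 : (Real.log 4 + 4) * U ≤ T := by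
    have hl4 : Real.log 4 ≤ 2 := by
      have h2 : Real.log 4 = 2 * Real.log 2 := by
        rw [show (4:ℝ) = 2 ^ 2 by norm_num, Real.log_pow]
        norm_num
      have := Real.log_two_lt_d9
      linarith only [h2, this]
    rw [hT, le_div_iff₀ (by (clear * - hL288; positivity))]
    calc (Real.log 4 + 4) * U * L ^ (B + 2) ≤ 6 * (2 * L ^ (B + 12)) * L ^ (B + 2) := by
          gcongr
          linarith only [hl4]
      _ = 12 * L ^ (2 * B + 14) := by ring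
      _ ≤ 12 * L ^ (4 * B + 100) := by
          have := hpow (2 * B + 14) (4 * B + 100) (by omega)
          linarith only [this]
      _ ≤ H := hHL
  have hsq3 : Real.sqrt (3 * x) ≤ 2 * Real.sqrt x := by
    rw [show 2 * Real.sqrt (x:ℝ) = Real.sqrt (4 * x) by
      rw [Real.sqrt_mul (by norm_num), show (4:ℝ) = 2 ^ 2 by norm_num, Real.sqrt_sq (by norm_num)]]
    exact Real.sqrt_le_sqrt (by linarith only [hxr])
  have hP : 2 * Real.sqrt (3 * x) * Real.log (3 * x) ≤ T := by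
    rw [hT, le_div_iff₀ (by (clear * - hL288; positivity))]
    have h2 := log3 x hx3
    have h3 : 0 ≤ Real.log (3 * (x:ℝ)) := Real.log_nonneg (by linarith only [hxr])
    calc 2 * Real.sqrt (3 * x) * Real.log (3 * x) * L ^ (B + 2)
        ≤ 2 * (2 * Real.sqrt x) * (2 * L) * L ^ (B + 2) := by gcongr
      _ = Real.sqrt x * (8 * L ^ (B + 3)) := by ring
      _ ≤ Real.sqrt x * (12 * L ^ (4 * B + 100)) := by
          have := hpow (B + 3) (4 * B + 100) (by omega)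
          have h4 : 0 < L ^ (B + 3) := by (clear * - hL288; positivity)
          gcongr
          linarith
      _ ≤ H := hHbig
  -- the two halves of the bilinear part
  set X := Nat.sqrt (3 * x) with hX
  have hX3 : X ≤ 3 * x := Nat.sqrt_le_self _
  have hXr : (X:ℝ) ≤ 2 * Real.sqrt x := by
    refine le_trans ?_ hsq3
    have h2 : (X:ℝ) * X ≤ 3 * x := by exact_mod_cast Nat.sqrt_le (3 * x)
    apply Real.le_sqrt_of_sq_le
    nlinarith only [h2]
  have hQ : ∀ M : ℕ, U ≤ M → M ≤ X → (M : ℝ) + H / q + H / M + q ≤ 4 * (H / L ^ (B + 12)) := by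
    intro M hM1 hM2
    have hMr : (U:ℝ) ≤ M := by exact_mod_cast hM1
    have hMX : (M:ℝ) ≤ X := by exact_mod_cast hM2
    have e0 : H / L ^ (2 * B + 40) ≤ H / L ^ (B + 12) :=
      div_le_div_of_nonneg_left hH0.le (by (clear * - hL288; positivity)) (hpow _ _ (by omega))
    have e1 : (M:ℝ) ≤ H / L ^ (B + 12) := by
      rw [le_div_iff₀ (by (clear * - hL288; positivity))]
      calc (M:ℝ) * L ^ (B + 12) ≤ (2 * Real.sqrt x) * L ^ (B + 12) := by
            gcongr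
            linarith only [hXr, hMX]
        _ = Real.sqrt x * (2 * L ^ (B + 12)) := by ring
        _ ≤ Real.sqrt x * (12 * L ^ (4 * B + 100)) := by
            have := hpow (B + 12) (4 * B + 100) (by omega)
            have h4 : 0 < L ^ (B + 12) := by (clear * - hL288; positivity)
            gcongr
            linarith
        _ ≤ H := hHbig
    have e2 : (H:ℝ) / M ≤ H / L ^ (B + 12) :=
      div_le_div_of_nonneg_left hH0.le (by (clear * - hL288; positivity)) (hUge.trans hMr)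
    linarith only [hq2, hHq, e0, e1, e2]
  have hlq : Real.log q ≤ L := Real.log_le_log hqpos (hqH.trans hHxr)
  have hlq0 : 0 ≤ Real.log q := Real.log_natCast_nonneg q
  have hJ := num_blocks x hx3 hL1
  rw [← hX] at hJ
  have hE := final_const C L x H B hC hL1 hx0.le hH0.le hLC ((Nat.log 2 X + 1 : ℕ) : ℝ)
    (1 + Real.log q) (Nat.cast_nonneg _) hJ (by linarith only [hC, hC₁, hLK, hlq]) (by linarith only [hlq0])
  have hsA := side hC hb x H q U X a α (fun m => if m ≤ X then BV.alphaU U m else 0)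
    (fun n => BV.betaV U n) ((4 * L) ^ 4) (4 * (H / L ^ (B + 12))) hH1' hH2 hq1' hco hα hU1 hX3
    (fun m hm => by split_ifs <;> [exact BV.alphaU_apply_of_le hm; rfl])
    (fun m hm => by rw [if_neg (by omega)]) (by (clear * - hL288; positivity)) (by (clear * - hL288 hH1'; positivity))
    (fun N hN => alpha_sq U x hx3 hL1 _ (fun n => by
      split_ifs <;> simp) N hN)
    (fun N hN => beta_sq U x hU1 hx3 hL1 _ (fun n => le_rfl) N hN) hQ
  have hsB := side hC hb x H q U X a α (fun n => if n ≤ X then BV.betaV U n else 0)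
    (fun m => if X < m then BV.alphaU U m else 0) ((4 * L) ^ 4) (4 * (H / L ^ (B + 12)))
    hH1' hH2 hq1' hco hα hU1 hX3
    (fun m hm => by split_ifs <;> [exact BV.betaV_apply_of_le hU1 hm; rfl])
    (fun m hm => by rw [if_neg (by omega)]) (by (clear * - hL288; positivity)) (by (clear * - hL288 hH1'; positivity))
    (fun N hN => beta_sq U x hU1 hx3 hL1 _ (fun n => by
      split_ifs <;> simp) N hN)
    (fun N hN => alpha_sq U x hx3 hL1 _ (fun n => by
      split_ifs <;> simp) N hN) hQ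
  have hsA2 := hsA.trans hE
  have hsB2 := hsB.trans hE
  -- pointwise
  set WA : ℕ → ℂ := fun u => ∑ m ∈ Icc 1 (3 * x), ∑ n ∈ Ioc (u / m) ((u + H) / m),
        (((if m ≤ X then BV.alphaU U m else 0) * BV.betaV U n : ℝ) : ℂ) *
          ex ((m * n : ℕ) * α) with hWA
  set WB : ℕ → ℂ := fun u => ∑ n ∈ Icc 1 (3 * x), ∑ m ∈ Ioc (u / n) ((u + H) / n),
        (((if n ≤ X then BV.betaV U n else 0) * (if X < m then BV.alphaU U m else 0) : ℝ) : ℂ) *
          ex ((n * m : ℕ) * α) with hWB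
  have hpt : ∀ u ∈ range (2 * x + 1), ‖∑ n ∈ Ioc u (u + H), (HLT.lp n : ℂ) * ex (n * α)‖ ^ 2 ≤
      3 * ((4 * T) ^ 2 + ‖WA u‖ ^ 2 + ‖WB u‖ ^ 2) := by
    intro u hu
    rw [mem_range] at hu
    have hu' : u ≤ 2 * x := by omega
    apply sq_three _ _ _ _ (norm_nonneg _)
    have p0 := (part0 x H u (by omega) hH2 hu' α).trans hP
    have p1 := (part1 U u H α).trans hW1
    obtain ⟨p2, p3⟩ := part23 hC₁ h1 x H q U u a α hx3 hL1 hH2 hu' hq1' hqx hco hα hU1 hUUH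
    replace p2 := p2.trans hGT4
    replace p3 := p3.trans hGT
    have p4 := part4_split U u H x α (by omega)
    rw [← hX] at p4
    have hsplit := split_win U U u H (3 * x) (by omega) α
    rw [p4] at hsplit
    have e1 : ∑ n ∈ Ioc u (u + H), (HLT.lp n : ℂ) * ex (n * α) =
        (∑ n ∈ Ioc u (u + H), (HLT.lp n : ℂ) * ex (n * α) -
          ∑ n ∈ Ioc u (u + H), ((ArithmeticFunction.vonMangoldt n : ℝ) : ℂ) * ex (n * α)) +
        ∑ n ∈ Ioc u (u + H), ((ArithmeticFunction.vonMangoldt n : ℝ) : ℂ) * ex (n * α) := by ring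
    rw [e1]
    refine (norm_add_le _ _).trans ?_
    set Z1 := ∑ n ∈ Ioc u (u + H), ((BV.LU U n : ℝ) : ℂ) * ex (n * α) with hZ1
    set Z2 := ∑ m ∈ Icc 1 (3 * x), ∑ n ∈ Ioc (u / m) ((u + H) / m), (((BV.LU U * BV.muV U) m *
        (ArithmeticFunction.zeta : ArithmeticFunction ℝ) n : ℝ) : ℂ) * ex ((m * n : ℕ) * α) with hZ2
    set Z3 := ∑ m ∈ Icc 1 (3 * x), ∑ n ∈ Ioc (u / m) ((u + H) / m),
        ((BV.muV U m * ArithmeticFunction.log n : ℝ) : ℂ) * ex ((m * n : ℕ) * α) with hZ3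
    have t1 : ‖Z1 - Z2 + Z3 + (WA u + WB u)‖ ≤ ‖Z1‖ + ‖Z2‖ + ‖Z3‖ + (‖WA u‖ + ‖WB u‖) := by
      refine (norm_add_le _ _).trans (add_le_add ?_ (norm_add_le _ _))
      refine (norm_add_le _ _).trans (add_le_add ?_ le_rfl)
      exact norm_sub_le _ _
    have t3 : ‖∑ n ∈ Ioc u (u + H), ((ArithmeticFunction.vonMangoldt n : ℝ) : ℂ) * ex (n * α)‖ ≤
        ‖Z1‖ + ‖Z2‖ + ‖Z3‖ + (‖WA u‖ + ‖WB u‖) := by
      rw [hsplit]
      exact t1
    have t2 := add_le_add p0 t3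
    refine t2.trans ?_
    linarith only [p1, p2, p3]
  refine (Finset.sum_le_sum hpt).trans ?_
  rw [← Finset.mul_sum, Finset.sum_add_distrib, Finset.sum_add_distrib, Finset.sum_const,
    Finset.card_range, nsmul_eq_mul]
  have hTT : 3 * (((2 * x + 1 : ℕ) : ℝ) * (4 * T) ^ 2) ≤ x * (H:ℝ) ^ 2 / L ^ B / 2 := by
    have h2 : ((2 * x + 1 : ℕ) : ℝ) ≤ 3 * x := by
      push_cast
      linarith only [hxr]
    have h3 : 3 * (((2 * x + 1 : ℕ) : ℝ) * (4 * T) ^ 2) ≤ 3 * ((3 * x) * (4 * T) ^ 2) := by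
      gcongr
    refine h3.trans ?_
    have h4 : 3 * ((3 * (x:ℝ)) * (4 * T) ^ 2) = (144 / L ^ (B + 4)) * (x * (H:ℝ) ^ 2 / L ^ B) := by
      rw [hT]
      field_simp
      ring
    rw [h4]
    have h5 : 144 / L ^ (B + 4) ≤ 1 / 2 := by
      rw [div_le_iff₀ (by (clear * - hL288; positivity))]
      have h6 : L ^ 1 ≤ L ^ (B + 4) := hpow 1 (B + 4) (by omega)
      rw [pow_one] at h6
      linarith only [hC, hC₁, hLK, h6]
    have h6 : 0 ≤ x * (H:ℝ) ^ 2 / L ^ B := by (clear * - hx3 hL288 hH1'; positivity)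
    calc (144 / L ^ (B + 4)) * (x * (H:ℝ) ^ 2 / L ^ B) ≤ (1 / 2) * (x * (H:ℝ) ^ 2 / L ^ B) :=
          mul_le_mul_of_nonneg_right h5 h6
      _ = _ := by ring
  have hA3 : ∑ u ∈ range (2 * x + 1), ‖WA u‖ ^ 2 ≤ x * (H:ℝ) ^ 2 / L ^ B / 12 := hsA2
  have hB3 : ∑ u ∈ range (2 * x + 1), ‖WB u‖ ^ 2 ≤ x * (H:ℝ) ^ 2 / L ^ B / 12 := hsB2
  linarith only [hE, hsA, hsB, hTT]

end Pool.Agent.VK
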