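import Pool.Agent.Lib.VK.MajorWin
import Pool.Agent.Lib.VK.MinorWinP
import Pool.Agent.Lib.VK.MinorWinNu
import Pool.Agent.Lib.HLU.Base

/-!
# All frequencies: the difference of primes and sieve model in almost all short windows

PROOF SKETCH. `L = log x`. Let `A2` be from `minor_win_prime (B + 4) ε` and at least `B + 10`; `A1 = A2`; `K = A2 + (B + 10)`; `major_win A1 (2 K + B + 4) (ε/2)` gives `c`; `A = max A0 A1`.
Take `c' = c + 1` (or `max`). Let `H` be given. Dirichlet (`Real.exists_int_int_abs_mul_sub_le` or as in `HLT.sup_norm`) with `Q = H/L^A2`: `a/q` reduced, `q ≤ Q`, `|α - a/q| ≤ 1/(q Q)`.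
* `q ≥ L^A2`: `ff = lp - nuz`, `|x - y|^2 ≤ 2 ..`; `minor_win_prime` and `minor_win_nu A (B+4)`: pointwise `C (H/q + √x + q) L^3 + H/L^(B+4) ≤ H L^(-(B+2))` (so the sum over
  `2x + 1` windows of the squares is fine).
* `q < L^A2`: `η = α - a/q`, `|η| ≤ L^A2/(q H) ≤ L^A2/H`. Divide the window in `R = ⌈L^K⌉` windows of length `h = ⌊H/R⌋` and one rest of length `< R`, (`R h ≤ H < R h + R`): on a subwindow starting at `u'`
  `|sum ff n e(n a/q) (e(n η) - e(u' η))| ≤ 2π |η| h · h L^2·... ≤ h L^(A2 + 3 - K)` (`|ff n| ≤ 2L·..`: `lp ≤ log (3x)`, `nuz ≤ (DZ)⁻¹ ≤ L`), total over `R` subwindows `≤ H L^(A2+3-K)`; the rest contributes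
  `R · 3L`. And `|sum_(i < R) sum_(subwindow)|^2 ≤ R sum_i |.|^2`; the sum over `u` of each is at most the sum over all starting points `u' ≤ 3x` (`major_win` gives `u' ≤ 2x`; apply it with
  `x` replaced by `2x`? no: keep `x` and note that the starting points with `u' > 2x` belong to `u > 2x - H`, at most `H + 1` of them, for which the trivial bound
  `(3 L H)^2` suffices as `H ≤ x/L^(c')`): `R · R · x h^2/L^(2K+B+4) ≤ 4 x H^2/L^(B+4)`.
* The cutoff `n ≤ 2x` in the statement changes only windows with `u > 2x - H`: again trivially bounded: `(H+1) (3 L H)^2 ≤ x H^2/L^(B+1)` if `c' ≥ B + 5`.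
-/

set_option autoImplicit false

open Finset Filter Pool.Agent.HLT

namespace Pool.Agent.VK

namespace SIAux

lemma norm_ex_sub (θ θ' : ℝ) : ‖ex θ - ex θ'‖ ≤ 2 * Real.pi * |θ - θ'| := by
  have h1 : ex θ - ex θ' = ex θ' * (ex (θ - θ') - 1) := by
    rw [mul_sub, mul_one, ← ex_add]
    congr 2
    ring
  rw [h1, norm_mul, norm_ex, one_mul, norm_ex_sub_one]
  have h2 : |Real.sin (Real.pi * (θ - θ'))| ≤ |Real.pi * (θ - θ')| := Real.abs_sin_le_abs
  rw [abs_mul, abs_of_pos Real.pi_pos] at h2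
  linarith

lemma triv_bound {f : ℕ → ℝ} {F : ℝ} (S : Finset ℕ) (hS : ∀ n ∈ S, |f n| ≤ F) (α : ℝ) :
    ‖∑ n ∈ S, (f n : ℂ) * ex (n * α)‖ ≤ S.card * F := by
  refine (norm_sum_le _ _).trans ?_
  calc ∑ n ∈ S, ‖(f n : ℂ) * ex (n * α)‖ ≤ ∑ _n ∈ S, F := by
        refine Finset.sum_le_sum fun n hn => ?_
        rw [norm_mul, norm_ex, mul_one, Complex.norm_real, Real.norm_eq_abs]
        exact hS n hn
    _ = S.card * F := by rw [Finset.sum_const, nsmul_eq_mul]

lemma split_win (g : ℕ → ℂ) (u h R : ℕ) :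
    ∑ n ∈ Ioc u (u + R * h), g n = ∑ i ∈ range R, ∑ n ∈ Ioc (u + i * h) (u + i * h + h), g n := by
  induction R with
  | zero => simp
  | succ R ih =>
    rw [Finset.sum_range_succ, ← ih, Finset.sum_Ioc_consecutive _ (by omega) (by omega)]
    congr 2
    ring

lemma shift_sum {g : ℕ → ℝ} (h0 : ∀ v, 0 ≤ g v) (N s : ℕ) {M : ℝ}
    (hM : ∀ v, N ≤ v → v < N + s → g v ≤ M) :
    ∑ u ∈ range N, g (u + s) ≤ ∑ u ∈ range N, g u + s * M := by
  have h1 : ∑ u ∈ range (N + s), g u = ∑ u ∈ range N, g u + ∑ i ∈ range s, g (N + i) :=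
    Finset.sum_range_add _ _ _
  have h2 : ∑ u ∈ range (s + N), g u = ∑ u ∈ range s, g u + ∑ i ∈ range N, g (s + i) :=
    Finset.sum_range_add _ _ _
  have h3 : ∑ i ∈ range s, g (N + i) ≤ s * M := by
    calc ∑ i ∈ range s, g (N + i) ≤ ∑ _i ∈ range s, M := by
          refine Finset.sum_le_sum fun i hi => hM _ (by omega) ?_
          have := Finset.mem_range.mp hi
          omega
      _ = s * M := by rw [Finset.sum_const, card_range, nsmul_eq_mul]
  have h4 : 0 ≤ ∑ u ∈ range s, g u := Finset.sum_nonneg fun _ _ => h0 _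
  have h5 : ∑ u ∈ range N, g (u + s) = ∑ i ∈ range N, g (s + i) :=
    Finset.sum_congr rfl fun i _ => by rw [add_comm]
  rw [add_comm s N] at h2
  rw [h5]
  linarith

lemma sub_window {f : ℕ → ℝ} {F α β η : ℝ} (hα : α = β + η) (hF0 : 0 ≤ F) (v h : ℕ)
    (hF : ∀ n ∈ Ioc v (v + h), |f n| ≤ F) :
    ‖∑ n ∈ Ioc v (v + h), (f n : ℂ) * ex (n * α)‖ ≤
      ‖∑ n ∈ Ioc v (v + h), (f n : ℂ) * ex (n * β)‖ + h * (F * (2 * Real.pi * (|η| * h))) := by
  have h1 : ∑ n ∈ Ioc v (v + h), (f n : ℂ) * ex (n * α) =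
      ex (v * η) * ∑ n ∈ Ioc v (v + h), (f n : ℂ) * ex (n * β) +
      ∑ n ∈ Ioc v (v + h), (f n : ℂ) * ex (n * β) * (ex (n * η) - ex (v * η)) := by
    rw [Finset.mul_sum, ← Finset.sum_add_distrib]
    refine Finset.sum_congr rfl fun n _ => ?_
    have h2 : ex (n * α) = ex (n * β) * ex (n * η) := by
      rw [← ex_add, hα]
      congr 1
      ring
    rw [h2]
    ring
  rw [h1]
  refine (norm_add_le _ _).trans ?_
  rw [norm_mul, norm_ex, one_mul]
  refine add_le_add le_rfl ?_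
  refine (norm_sum_le _ _).trans ?_
  calc ∑ n ∈ Ioc v (v + h), ‖(f n : ℂ) * ex (n * β) * (ex (n * η) - ex (v * η))‖
      ≤ ∑ _n ∈ Ioc v (v + h), F * (2 * Real.pi * (|η| * h)) := by
        refine Finset.sum_le_sum fun n hn => ?_
        rw [norm_mul, norm_mul, norm_ex, mul_one, Complex.norm_real, Real.norm_eq_abs]
        refine mul_le_mul (hF n hn) ?_ (norm_nonneg _) hF0
        refine (norm_ex_sub _ _).trans ?_
        refine mul_le_mul_of_nonneg_left ?_ (by positivity)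
        rw [← sub_mul, abs_mul, mul_comm]
        refine mul_le_mul_of_nonneg_left ?_ (abs_nonneg _)
        obtain ⟨h3, h4⟩ := Finset.mem_Ioc.mp hn
        have h5 : (v : ℝ) < n := by exact_mod_cast h3
        have h6 : (n : ℝ) ≤ v + h := by exact_mod_cast h4
        rw [abs_of_pos (by linarith)]
        linarith
    _ = h * (F * (2 * Real.pi * (|η| * h))) := by
        rw [Finset.sum_const, Nat.card_Ioc, add_tsub_cancel_left, nsmul_eq_mul]

lemma sq_add_le (a b : ℝ) : (a + b) ^ 2 ≤ 2 * a ^ 2 + 2 * b ^ 2 := by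
  nlinarith [sq_nonneg (a - b)]

lemma major_case {x H R h : ℕ} {f : ℕ → ℝ} {α β η F D : ℝ} (hα : α = β + η) (hRh : R * h ≤ H)
    (hrest : H ≤ R * h + R) (hHx : H ≤ x) (hx : 1 ≤ x) (hF : ∀ n ≤ 4 * x, |f n| ≤ F) (hF0 : 0 ≤ F)
    (hD : ∑ u ∈ range (2 * x + 1), ‖∑ n ∈ Ioc u (u + h), (f n : ℂ) * ex (n * β)‖ ^ 2 ≤ D) :
    ∑ u ∈ range (2 * x + 1), ‖∑ n ∈ Ioc u (u + H), (f n : ℂ) * ex (n * α)‖ ^ 2 ≤
      2 * (R : ℝ) ^ 2 * (D + H * (h * F) ^ 2) +
        (2 * x + 1) * (2 * (R * (h * (F * (2 * Real.pi * (|η| * h)))) + R * F) ^ 2) := by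
  set E : ℝ := R * (h * (F * (2 * Real.pi * (|η| * h)))) + R * F with hE
  set V : ℕ → ℝ := fun v => ‖∑ n ∈ Ioc v (v + h), (f n : ℂ) * ex (n * β)‖ with hV
  have hpt : ∀ u ∈ range (2 * x + 1), ‖∑ n ∈ Ioc u (u + H), (f n : ℂ) * ex (n * α)‖ ^ 2 ≤
      2 * R * ∑ i ∈ range R, V (u + i * h) ^ 2 + 2 * E ^ 2 := by
    intro u hu
    have hu' := Finset.mem_range.mp hu
    have h1 : ∑ n ∈ Ioc u (u + H), (f n : ℂ) * ex (n * α) =
        ∑ n ∈ Ioc u (u + R * h), (f n : ℂ) * ex (n * α) +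
        ∑ n ∈ Ioc (u + R * h) (u + H), (f n : ℂ) * ex (n * α) :=
      (Finset.sum_Ioc_consecutive _ (by omega) (by omega)).symm
    have h2 : ‖∑ n ∈ Ioc (u + R * h) (u + H), (f n : ℂ) * ex (n * α)‖ ≤ R * F := by
      refine (triv_bound (F := F) _ (fun n hn => hF n ?_) α).trans ?_
      · have := (Finset.mem_Ioc.mp hn).2
        omega
      · refine mul_le_mul_of_nonneg_right ?_ hF0
        rw [Nat.card_Ioc]
        exact_mod_cast (by omega : u + H - (u + R * h) ≤ R)
    have h3 : ‖∑ n ∈ Ioc u (u + R * h), (f n : ℂ) * ex (n * α)‖ ≤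
        ∑ i ∈ range R, V (u + i * h) + R * (h * (F * (2 * Real.pi * (|η| * h)))) := by
      rw [split_win]
      refine (norm_sum_le _ _).trans ?_
      calc ∑ i ∈ range R, ‖∑ n ∈ Ioc (u + i * h) (u + i * h + h), (f n : ℂ) * ex (n * α)‖
          ≤ ∑ i ∈ range R, (V (u + i * h) + h * (F * (2 * Real.pi * (|η| * h)))) := by
            refine Finset.sum_le_sum fun i hi => sub_window hα hF0 _ _ fun n hn => hF n ?_
            have h4 := (Finset.mem_Ioc.mp hn).2
            have h5 : (i + 1) * h ≤ R * h := Nat.mul_le_mul_right _ (Finset.mem_range.mp hi)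
            rw [add_mul, one_mul] at h5
            omega
        _ = _ := by
            rw [Finset.sum_add_distrib, Finset.sum_const, card_range, nsmul_eq_mul]
    have h6 : ‖∑ n ∈ Ioc u (u + H), (f n : ℂ) * ex (n * α)‖ ≤
        ∑ i ∈ range R, V (u + i * h) + E := by
      rw [h1]
      refine (norm_add_le _ _).trans ?_
      rw [hE]
      linarith only [h2, h3]
    have h7 : (∑ i ∈ range R, V (u + i * h)) ^ 2 ≤ R * ∑ i ∈ range R, V (u + i * h) ^ 2 := by
      have := sq_sum_le_card_mul_sum_sq (s := range R) (f := fun i => V (u + i * h))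
      rwa [card_range] at this
    calc ‖∑ n ∈ Ioc u (u + H), (f n : ℂ) * ex (n * α)‖ ^ 2
        ≤ (∑ i ∈ range R, V (u + i * h) + E) ^ 2 := pow_le_pow_left₀ (norm_nonneg _) h6 2
      _ ≤ 2 * (∑ i ∈ range R, V (u + i * h)) ^ 2 + 2 * E ^ 2 := sq_add_le _ _
      _ ≤ _ := by linarith only [h7]
  refine (Finset.sum_le_sum hpt).trans ?_
  rw [Finset.sum_add_distrib, Finset.sum_const, card_range, nsmul_eq_mul, ← Finset.mul_sum,
    Finset.sum_comm]
  have h8 : ∀ i ∈ range R, ∑ u ∈ range (2 * x + 1), V (u + i * h) ^ 2 ≤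
      D + H * (h * F) ^ 2 := by
    intro i hi
    have h5 : (i + 1) * h ≤ R * h := Nat.mul_le_mul_right _ (Finset.mem_range.mp hi)
    rw [add_mul, one_mul] at h5
    have h9 := shift_sum (g := fun v => V v ^ 2) (fun v => sq_nonneg _) (2 * x + 1) (i * h)
      (M := (h * F) ^ 2) (fun v _ hv2 => by
        refine pow_le_pow_left₀ (norm_nonneg _) ?_ 2
        refine (triv_bound (F := F) _ (fun n hn => hF n ?_) β).trans ?_
        · have := (Finset.mem_Ioc.mp hn).2
          omega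
        · rw [Nat.card_Ioc, add_tsub_cancel_left])
    have h10 : ((i * h : ℕ) : ℝ) * (h * F) ^ 2 ≤ H * (h * F) ^ 2 := by
      refine mul_le_mul_of_nonneg_right ?_ (sq_nonneg _)
      exact_mod_cast (by omega : i * h ≤ H)
    linarith only [hD, h9, h10]
  have h11 : ∑ i ∈ range R, ∑ u ∈ range (2 * x + 1), V (u + i * h) ^ 2 ≤
      R * (D + H * (h * F) ^ 2) := by
    calc _ ≤ ∑ _i ∈ range R, (D + H * (h * F) ^ 2) := Finset.sum_le_sum h8
      _ = _ := by rw [Finset.sum_const, card_range, nsmul_eq_mul]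
  have h12 : 2 * (R : ℝ) * ∑ i ∈ range R, ∑ u ∈ range (2 * x + 1), V (u + i * h) ^ 2 ≤
      2 * (R : ℝ) * (R * (D + H * (h * F) ^ 2)) :=
    mul_le_mul_of_nonneg_left h11 (by positivity)
  push_cast
  calc _ ≤ 2 * (R : ℝ) * (R * (D + H * (h * F) ^ 2)) + (2 * x + 1) * (2 * E ^ 2) := by
        linarith only [h12]
    _ = _ := by ring

/-- removing the cutoff -/
lemma cutoff {x H : ℕ} {f : ℕ → ℝ} {α F D : ℝ} (hHx : H ≤ x)
    (hF : ∀ n ≤ 4 * x, |f n| ≤ F)  (hF0 : 0 ≤ F)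
    (hD : ∑ u ∈ range (2 * x + 1), ‖∑ n ∈ Ioc u (u + H), (f n : ℂ) * ex (n * α)‖ ^ 2 ≤ D) :
    ∑ u ∈ range (2 * x + 1),
      ‖∑ n ∈ (Ioc u (u + H)).filter (fun n => n ≤ 2 * x), (f n : ℂ) * ex (n * α)‖ ^ 2 ≤
      D + H * (H * F) ^ 2 := by
  classical
  have hpt : ∀ u ∈ range (2 * x + 1),
      ‖∑ n ∈ (Ioc u (u + H)).filter (fun n => n ≤ 2 * x), (f n : ℂ) * ex (n * α)‖ ^ 2 ≤
      ‖∑ n ∈ Ioc u (u + H), (f n : ℂ) * ex (n * α)‖ ^ 2 +
        (if 2 * x - H < u then (H * F) ^ 2 else 0) := by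
    intro u hu
    by_cases hc : 2 * x - H < u
    · rw [if_pos hc]
      have h1 : ‖∑ n ∈ (Ioc u (u + H)).filter (fun n => n ≤ 2 * x),
          (f n : ℂ) * ex (n * α)‖ ≤ H * F := by
        refine (triv_bound (F := F) _ (fun n hn => hF n ?_) α).trans ?_
        · have := (Finset.mem_filter.mp hn).2
          omega
        · refine mul_le_mul_of_nonneg_right ?_ hF0
          have := Finset.card_filter_le (Ioc u (u + H)) (fun n => n ≤ 2 * x)
          rw [Nat.card_Ioc, add_tsub_cancel_left] at this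
          exact_mod_cast this
      have h2 := pow_le_pow_left₀ (norm_nonneg _) h1 2
      have h3 := sq_nonneg ‖∑ n ∈ Ioc u (u + H), (f n : ℂ) * ex (n * α)‖
      linarith
    · rw [if_neg hc, add_zero, Finset.filter_true_of_mem]
      intro n hn
      have := (Finset.mem_Ioc.mp hn).2
      omega
  refine (Finset.sum_le_sum hpt).trans ?_
  rw [Finset.sum_add_distrib, ← Finset.sum_filter, Finset.sum_const, nsmul_eq_mul]
  refine add_le_add hD ?_
  refine mul_le_mul_of_nonneg_right ?_ (sq_nonneg _)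
  have h4 : ((range (2 * x + 1)).filter fun u => 2 * x - H < u) ⊆
      Ioc (2 * x - H) (2 * x) := by
    intro u hu
    obtain ⟨h5, h6⟩ := Finset.mem_filter.mp hu
    have := Finset.mem_range.mp h5
    exact Finset.mem_Ioc.mpr ⟨h6, by omega⟩
  have h7 := Finset.card_le_card h4
  rw [Nat.card_Ioc] at h7
  exact_mod_cast (by omega : ((range (2 * x + 1)).filter fun u => 2 * x - H < u).card ≤ H)

/-- the minor arcs -/
lemma minor_case {x H : ℕ} {z : ℕ} {α D N : ℝ} (hN0 : 0 ≤ N)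
    (hD : ∑ u ∈ range (2 * x + 1), ‖∑ n ∈ Ioc u (u + H), (lp n : ℂ) * ex (n * α)‖ ^ 2 ≤ D)
    (hN : ∀ u, ‖∑ n ∈ Ioc u (u + H), (nuz z n : ℂ) * ex (n * α)‖ ≤ N) :
    ∑ u ∈ range (2 * x + 1), ‖∑ n ∈ Ioc u (u + H), (ff z n : ℂ) * ex (n * α)‖ ^ 2 ≤
      2 * D + (2 * x + 1) * (2 * N ^ 2) := by
  have hpt : ∀ u ∈ range (2 * x + 1),
      ‖∑ n ∈ Ioc u (u + H), (ff z n : ℂ) * ex (n * α)‖ ^ 2 ≤
      2 * ‖∑ n ∈ Ioc u (u + H), (lp n : ℂ) * ex (n * α)‖ ^ 2 + 2 * N ^ 2 := by
    intro u _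
    have h1 : ∑ n ∈ Ioc u (u + H), (ff z n : ℂ) * ex (n * α) =
        ∑ n ∈ Ioc u (u + H), (lp n : ℂ) * ex (n * α) -
        ∑ n ∈ Ioc u (u + H), (nuz z n : ℂ) * ex (n * α) := by
      rw [← Finset.sum_sub_distrib]
      refine Finset.sum_congr rfl fun n _ => ?_
      unfold ff
      push_cast
      ring
    have h2 : ‖∑ n ∈ Ioc u (u + H), (ff z n : ℂ) * ex (n * α)‖ ≤
        ‖∑ n ∈ Ioc u (u + H), (lp n : ℂ) * ex (n * α)‖ + N := by
      rw [h1]
      exact (norm_sub_le _ _).trans (add_le_add le_rfl (hN u))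
    exact (pow_le_pow_left₀ (norm_nonneg _) h2 2).trans (sq_add_le _ _)
  refine (Finset.sum_le_sum hpt).trans ?_
  rw [Finset.sum_add_distrib, Finset.sum_const, card_range, nsmul_eq_mul, ← Finset.mul_sum]
  push_cast
  linarith

lemma ev_log (N : ℕ) {δ : ℝ} (hδ : 0 < δ) :
    ∀ᶠ x : ℕ in atTop, Real.log x ^ N ≤ (x : ℝ) ^ δ := by
  have h := isLittleO_log_rpow_rpow_atTop (s := δ) (N : ℝ) hδ
  have h2 := (h.comp_tendsto tendsto_natCast_atTop_atTop).bound (by norm_num : (0 : ℝ) < 1)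
  filter_upwards [h2, eventually_ge_atTop 1] with x hx hx1
  have hlog : 0 ≤ Real.log x := Real.log_natCast_nonneg x
  simp only [Function.comp_def, Real.rpow_natCast, one_mul] at hx
  rw [Real.norm_of_nonneg (by positivity), Real.norm_of_nonneg (by positivity)] at hx
  exact hx

lemma ff_bound {z x : ℕ} (hx : 1 ≤ x) (hL : 2 ≤ Real.log x) (hz : (Pool.Agent.HLB.DZ z)⁻¹ ≤ Real.log x) :
    ∀ n ≤ 4 * x, |ff z n| ≤ 2 * Real.log x := by
  intro n hn
  have hx0 : (0 : ℝ) < x := by exact_mod_cast hx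
  have h1 : lp n ≤ 2 * Real.log x := by
    refine (lp_le n).trans ?_
    rcases Nat.eq_zero_or_pos n with h0 | h0
    · rw [h0, Nat.cast_zero, Real.log_zero]
      linarith
    · have h2 : Real.log n ≤ Real.log (4 * x) :=
        Real.log_le_log (by exact_mod_cast h0) (by exact_mod_cast hn)
      rw [Real.log_mul (by norm_num) hx0.ne'] at h2
      have h3 : Real.log 4 ≤ 2 := by
        have h4 : Real.log 4 = 2 * Real.log 2 := by
          rw [show (4 : ℝ) = 2 ^ 2 by norm_num, Real.log_pow]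
          norm_num
        have := Real.log_two_lt_d9
        rw [h4]
        linarith
      linarith
  have h5 : nuz z n ≤ Real.log x := (nuz_le z n).trans hz
  have h6 := lp_nonneg n
  have h7 := nuz_nonneg z n
  unfold ff
  rw [abs_le]
  constructor <;> linarith

lemma div_pow_le {T L M : ℝ} {B k : ℕ} (hT : 0 ≤ T) (hL : 0 < L) (hM : M ≤ L ^ k) :
    M * (T / L ^ (B + k)) ≤ T / L ^ B := by
  have h1 : T / L ^ (B + k) = T / L ^ B * (1 / L ^ k) := by
    rw [pow_add]
    field_simp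
  rw [h1]
  have h2 : 0 ≤ T / L ^ B := by positivity
  have h3 : M * (1 / L ^ k) ≤ 1 := by
    rw [mul_one_div, div_le_one (by positivity)]
    exact hM
  calc M * (T / L ^ B * (1 / L ^ k)) = T / L ^ B * (M * (1 / L ^ k)) := by ring
    _ ≤ T / L ^ B * 1 := mul_le_mul_of_nonneg_left h3 h2
    _ = _ := mul_one _

end SIAux

open SIAux in
theorem si (A0 B : ℕ) (ε : ℝ) (hε : 0 < ε) : ∃ A c : ℕ, A0 ≤ A ∧ ∀ᶠ x : ℕ in atTop, ∀ (H : ℕ) (α : ℝ),
    (x : ℝ) ^ (1 / 2 + ε) ≤ H → (H : ℝ) ≤ x / Real.log x ^ c →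
    ∑ u ∈ range (2 * x + 1), ‖∑ n ∈ (Ioc u (u + H)).filter (fun n => n ≤ 2 * x), (ff (zA A x) n : ℂ) * ex (n * α)‖ ^ 2 ≤
      x * (H : ℝ) ^ 2 / Real.log x ^ B := by
  obtain ⟨A2', hmp⟩ := minor_win_prime (B + 4) ε hε
  set A2 : ℕ := max A2' (B + 10) with hA2
  have hA2a : A2' ≤ A2 := le_max_left _ _
  have hA2b : B + 10 ≤ A2 := le_max_right _ _
  set K : ℕ := A2 + (B + 10) with hK
  obtain ⟨c', hmaj⟩ := major_win A2 (B + 4) (ε / 2) (by positivity)
  set A : ℕ := max A0 A2 with hA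
  have hmajA := hmaj A (le_max_right _ _)
  obtain ⟨C, hC, hnu⟩ := minor_win_nu A (B + 4) ε hε
  set c : ℕ := max c' (B + 6) with hc
  have hca : c' ≤ c := le_max_left _ _
  have hcb : B + 6 ≤ c := le_max_right _ _
  refine ⟨A, c, le_max_left _ _, ?_⟩
  have hLev : ∀ᶠ x : ℕ in atTop, (10 + 24 * (3 * C + 1) ^ 2 : ℝ) ≤ Real.log x :=
    (Real.tendsto_log_atTop.comp tendsto_natCast_atTop_atTop).eventually_ge_atTop _
  filter_upwards [hmp, hmajA, hnu, DZ_inv_le A, hLev, ev_log (K + 2) (δ := ε / 2) (by positivity),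
    ev_log (K + B + 11) (δ := 1 / 2) (by norm_num), eventually_ge_atTop 4]
    with x hmp hmajA hnu hDZ hLev hlog1 hlog2 hx4
  intro H α hH1 hH2
  set L := Real.log x with hL
  have hCsq : 0 ≤ 24 * (3 * C + 1) ^ 2 := by (clear * - hC; positivity)
  have hL10 : 10 ≤ L := by linarith only [hLev, hCsq]
  have hL1 : 1 ≤ L := by linarith only [hLev, hCsq]
  have hL0 : 0 < L := by linarith only [hLev, hCsq]
  have hx1 : (1 : ℝ) ≤ x := by
    have : 1 ≤ x := by omega
    exact_mod_cast this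
  have hx0 : (0 : ℝ) < x := by linarith only [hx1]
  have hpow : ∀ {i j : ℕ}, i ≤ j → L ^ i ≤ L ^ j := fun h => pow_le_pow_right₀ hL1 h
  have hpp : ∀ i : ℕ, (1 : ℝ) ≤ L ^ i := fun i => one_le_pow₀ hL1
  have hpp0 : ∀ i : ℕ, (0 : ℝ) < L ^ i := fun i => by (clear * - hL10; positivity)
  have hHnn : (0 : ℝ) ≤ H := Nat.cast_nonneg H
  -- H L ^ (B + 6) ≤ x
  have hHx6 : (H : ℝ) * L ^ (B + 6) ≤ x := by
    rw [le_div_iff₀ (hpp0 c)] at hH2
    exact (mul_le_mul_of_nonneg_left (hpow hcb) hHnn).trans hH2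
  have hHx : (H : ℝ) ≤ x := by
    have := mul_le_mul_of_nonneg_left (hpp (B + 6)) hHnn
    rw [mul_one] at this
    exact this.trans hHx6
  have hHxN : H ≤ x := by exact_mod_cast hHx
  -- lower bounds for H
  have hxhalf : (x : ℝ) ^ (1 / 2 : ℝ) * (x : ℝ) ^ ε ≤ H := by
    rw [← Real.rpow_add hx0]
    exact hH1
  have hxε : (x : ℝ) ^ (ε / 2) ≤ (x : ℝ) ^ ε :=
    Real.rpow_le_rpow_of_exponent_le hx1 (by linarith only [hε])
  have hx2 : (1 : ℝ) ≤ (x : ℝ) ^ (1 / 2 : ℝ) := Real.one_le_rpow hx1 (by norm_num)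
  have hxe1 : (1 : ℝ) ≤ (x : ℝ) ^ ε := Real.one_le_rpow hx1 hε.le
  have hHa : (x : ℝ) ^ (1 / 2 : ℝ) * L ^ (K + 2) ≤ H :=
    (mul_le_mul_of_nonneg_left (hlog1.trans hxε) (by linarith only [hx2])).trans hxhalf
  have hHb : L ^ (K + 2) ≤ H := by
    have := mul_le_mul_of_nonneg_right hx2 (hpp0 (K + 2)).le
    rw [one_mul] at this
    exact this.trans hHa
  have hHc : L ^ (K + B + 11) ≤ H := by
    have := mul_le_mul_of_nonneg_left hxe1 (by linarith only [hx2] : (0 : ℝ) ≤ (x : ℝ) ^ (1 / 2 : ℝ))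
    rw [mul_one] at this
    exact hlog2.trans (this.trans hxhalf)
  have hH0 : (0 : ℝ) < H := lt_of_lt_of_le (hpp0 _) hHb
  have hF := ff_bound (z := zA A x) (x := x) (by omega) (by linarith only [hLev, hCsq]) hDZ
  set T : ℝ := x * (H : ℝ) ^ 2 with hT
  have hT0 : 0 ≤ T := by (clear * - hx4 hH0; positivity)
  -- reduction to full windows
  suffices hmain : ∑ u ∈ range (2 * x + 1), ‖∑ n ∈ Ioc u (u + H),
      (ff (zA A x) n : ℂ) * ex (n * α)‖ ^ 2 ≤ T / L ^ B / 2 by
    have h1 := cutoff hHxN hF (by (clear * - hL10; positivity)) hmain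
    refine h1.trans ?_
    have h2 : (H : ℝ) * (H * (2 * L)) ^ 2 ≤ T / L ^ B / 2 := by
      have h3 : (H : ℝ) * (H * (2 * L)) ^ 2 = 4 * (H : ℝ) ^ 2 * (H * L ^ 2) := by ring
      have h4 : (H : ℝ) * L ^ 2 ≤ x / L ^ (B + 4) := by
        rw [le_div_iff₀ (hpp0 _), mul_assoc, ← pow_add]
        have : 2 + (B + 4) = B + 6 := by ring
        rw [this]
        exact hHx6
      have h5 := div_pow_le (M := 8) (B := B) (k := 4) hT0 hL0 (by
        calc (8 : ℝ) ≤ 10 ^ 4 := by norm_num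
          _ ≤ L ^ 4 := pow_le_pow_left₀ (by norm_num) hL10 4)
      rw [h3]
      calc 4 * (H : ℝ) ^ 2 * (H * L ^ 2) ≤ 4 * (H : ℝ) ^ 2 * (x / L ^ (B + 4)) :=
            mul_le_mul_of_nonneg_left h4 (by (clear * - hH0; positivity))
        _ = 4 * (T / L ^ (B + 4)) := by rw [hT]; ring
        _ ≤ T / L ^ B / 2 := by linarith only [h5]
    linarith only [h2]
  -- Dirichlet
  set n₀ : ℕ := ⌊(H : ℝ) / L ^ A2⌋₊ with hn₀
  have hn1 : 0 < n₀ := by
    rw [hn₀, Nat.floor_pos, le_div_iff₀ (hpp0 _), one_mul]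
    exact (hpow (by omega)).trans hHb
  obtain ⟨r, hr1, hr2⟩ := Real.exists_rat_abs_sub_le_and_den_le α hn1
  have hden : 1 ≤ r.den := r.den_pos
  have hden0 : (0 : ℝ) < r.den := by exact_mod_cast r.den_pos
  have hden1 : (1 : ℝ) ≤ r.den := by exact_mod_cast hden
  have hnx : (n₀ : ℝ) ≤ H / L ^ A2 := Nat.floor_le (by (clear * - hL10 hH0; positivity))
  have hnx2 : (H : ℝ) / L ^ A2 < n₀ + 1 := Nat.lt_floor_add_one _
  have hqn : (r.den : ℝ) ≤ n₀ := by exact_mod_cast hr2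
  have hqH : (r.den : ℝ) ≤ H / L ^ A2 := hqn.trans hnx
  have hqH2 : (r.den : ℝ) ≤ H := hqH.trans (div_le_self hHnn (hpp _))
  have hqx : r.den ≤ x := by exact_mod_cast hqH2.trans hHx
  have hcast : (r : ℝ) = (r.num : ℝ) / (r.den : ℝ) := by
    exact_mod_cast congrArg (fun t : ℚ => (t : ℝ)) (Rat.num_div_den r).symm
  rw [hcast] at hr1
  have hr3 : |α - r.num / r.den| ≤ L ^ A2 / H := by
    refine hr1.trans ?_
    rw [div_le_div_iff₀ (by (clear * - hn1; positivity)) hH0]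
    have h1 : (H : ℝ) ≤ L ^ A2 * (n₀ + 1) := by
      rw [div_lt_iff₀ (by (clear * - hL10; positivity))] at hnx2
      linarith only [hnx2]
    calc 1 * (H : ℝ) ≤ L ^ A2 * (n₀ + 1) := by linarith only [h1]
      _ ≤ L ^ A2 * ((n₀ + 1) * r.den) := by
          refine mul_le_mul_of_nonneg_left ?_ (by (clear * - hL10; positivity))
          exact le_mul_of_one_le_right (by (clear * - hn1; positivity)) hden1
  have hr4 : |α - r.num / r.den| ≤ 1 / (r.den : ℝ) ^ 2 := by
    refine hr1.trans ?_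
    refine one_div_le_one_div_of_le (by (clear * -; positivity)) ?_
    rw [sq]
    exact mul_le_mul_of_nonneg_right (by linarith only [hqn]) hden0.le
  have hcop : IsCoprime r.num ((r.den : ℕ) : ℤ) := by
    rw [Int.isCoprime_iff_gcd_eq_one]
    have := r.reduced
    simpa [Int.gcd, Nat.Coprime] using this
  have h2x1 : (2 * x + 1 : ℝ) ≤ 3 * x := by linarith only [hx1]
  rcases le_or_gt (L ^ A2) (r.den : ℝ) with hq | hq
  · -- minor arcs
    have h1 := hmp r.den H r.num α hcop hr4 ((hpow hA2a).trans hq)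
      (hqH.trans (div_le_div_of_nonneg_left hHnn (hpp0 _) (hpow hA2a))) hH1 hHxN
    have hN : ∀ u, ‖∑ n ∈ Ioc u (u + H), (nuz (zA A x) n : ℂ) * ex (n * α)‖ ≤
        (3 * C + 1) * (H / L ^ (B + 4)) := by
      intro u
      refine (hnu u H r.den r.num α hH1 hHxN hden hqx hcop hr4).trans ?_
      have e1 : (H : ℝ) / r.den ≤ H / L ^ (B + 7) :=
        div_le_div_of_nonneg_left hHnn (hpp0 _) ((hpow (by omega)).trans hq)
      have e2 : Real.sqrt x ≤ H / L ^ (B + 7) := by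
        rw [le_div_iff₀ (hpp0 _), Real.sqrt_eq_rpow]
        exact (mul_le_mul_of_nonneg_left (hpow (by omega)) (by linarith only [hx2])).trans hHa
      have e3 : (r.den : ℝ) ≤ H / L ^ (B + 7) :=
        hqH.trans (div_le_div_of_nonneg_left hHnn (hpp0 _) (hpow (by omega)))
      have e4 : C * (H / r.den + Real.sqrt x + r.den) * L ^ 3 ≤
          C * (3 * (H / L ^ (B + 7))) * L ^ 3 := by
        refine mul_le_mul_of_nonneg_right (mul_le_mul_of_nonneg_left ?_ hC.le) (by (clear * - hL10; positivity))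
        linarith only [e1, e2, e3]
      have e5 : (H : ℝ) / L ^ (B + 7) * L ^ 3 = H / L ^ (B + 4) := by
        rw [show B + 7 = B + 4 + 3 by ring, pow_add]
        field_simp
      calc _ ≤ C * (3 * (H / L ^ (B + 7))) * L ^ 3 + H / L ^ (B + 4) := by linarith only [e4]
        _ = 3 * C * (H / L ^ (B + 7) * L ^ 3) + H / L ^ (B + 4) := by ring
        _ = _ := by rw [e5]; ring
    have h2 := minor_case (by (clear * - hC hL10 hH0; positivity)) h1 hN
    refine h2.trans ?_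
    have h3 := div_pow_le (M := 8) (B := B) (k := 4) hT0 hL0 (by
        calc (8 : ℝ) ≤ 10 ^ 4 := by norm_num
          _ ≤ L ^ 4 := pow_le_pow_left₀ (by norm_num) hL10 4)
    have h4 := div_pow_le (M := 24 * (3 * C + 1) ^ 2) (B := B) (k := 8) hT0 hL0 (by
        calc 24 * (3 * C + 1) ^ 2 ≤ L := by linarith only [hLev]
          _ ≤ L ^ 8 := le_self_pow₀ hL1 (by norm_num))
    have h5 : ((3 * C + 1) * ((H : ℝ) / L ^ (B + 4))) ^ 2 ≤
        (3 * C + 1) ^ 2 * ((H : ℝ) ^ 2 / L ^ (B + 8)) := by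
      rw [mul_pow, div_pow]
      refine mul_le_mul_of_nonneg_left ?_ (by (clear * - hC; positivity))
      refine div_le_div_of_nonneg_left (by (clear * - hH0; positivity)) (hpp0 _) ?_
      rw [← pow_mul]
      exact hpow (by omega)
    have h6 : (2 * (x : ℝ) + 1) * (2 * ((3 * C + 1) * ((H : ℝ) / L ^ (B + 4))) ^ 2) ≤
        3 * x * (2 * ((3 * C + 1) ^ 2 * ((H : ℝ) ^ 2 / L ^ (B + 8)))) :=
      mul_le_mul h2x1 (by linarith only [h5]) (by (clear * - hC hL10 hH0; positivity)) (by (clear * - hx4; positivity))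
    have h7 : 3 * (x : ℝ) * (2 * ((3 * C + 1) ^ 2 * ((H : ℝ) ^ 2 / L ^ (B + 8)))) =
        (24 * (3 * C + 1) ^ 2 * (T / L ^ (B + 8))) / 4 := by
      rw [hT]
      ring
    have h8 : x * (H : ℝ) ^ 2 / L ^ (B + 4) = T / L ^ (B + 4) := rfl
    linarith only [h3, h4, h6, h7]
  · -- major arcs
    set R : ℕ := ⌈L ^ K⌉₊ with hR
    have hRa : L ^ K ≤ R := Nat.le_ceil _
    have hRb : (R : ℝ) ≤ 2 * L ^ K := by
      have := Nat.ceil_lt_add_one (hpp0 K).le
      have := hpp K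
      linarith
    have hR0 : 0 < R := by
      have : (0 : ℝ) < R := lt_of_lt_of_le (hpp0 K) hRa
      exact_mod_cast this
    set h : ℕ := H / R with hh
    have hRh : R * h ≤ H := Nat.mul_div_le H R
    have hrest : H < R * (h + 1) := by
      rw [hh]
      exact Nat.lt_mul_div_succ H hR0
    have hrest2 : H ≤ R * h + R := by
      rw [mul_add, mul_one] at hrest
      exact hrest.le
    have hRhr : (R : ℝ) * h ≤ H := by exact_mod_cast hRh
    have hhnn : (0 : ℝ) ≤ h := Nat.cast_nonneg h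
    have hhK : (h : ℝ) * L ^ K ≤ H := by
      calc (h : ℝ) * L ^ K ≤ h * R := mul_le_mul_of_nonneg_left hRa hhnn
        _ = R * h := mul_comm _ _
        _ ≤ H := hRhr
    have hhH : (h : ℝ) ≤ H := by
      have := mul_le_mul_of_nonneg_left (hpp K) hhnn
      rw [mul_one] at this
      exact this.trans hhK
    -- lower bound for h
    have hhlow : (x : ℝ) ^ (1 / 2 + ε / 2) ≤ h := by
      have e1 : (x : ℝ) ^ (1 / 2 + ε / 2) * L ^ (K + 2) ≤ H := by
        calc (x : ℝ) ^ (1 / 2 + ε / 2) * L ^ (K + 2) ≤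
              (x : ℝ) ^ (1 / 2 + ε / 2) * (x : ℝ) ^ (ε / 2) :=
              mul_le_mul_of_nonneg_left hlog1 (by (clear * - hx4; positivity))
          _ = (x : ℝ) ^ (1 / 2 + ε) := by
              rw [← Real.rpow_add hx0]
              congr 1
              ring
          _ ≤ H := hH1
      have e2 : (H : ℝ) ≤ R * (h + 1) := by exact_mod_cast hrest.le
      have e3 : (1 : ℝ) ≤ (x : ℝ) ^ (1 / 2 + ε / 2) := Real.one_le_rpow hx1 (by (clear * - hε; positivity))
      have e4 : 4 * L ^ K ≤ L ^ (K + 2) := by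
        have h42 : (4 : ℝ) ≤ L ^ 2 := by nlinarith only [hC, hLev]
        calc 4 * L ^ K ≤ L ^ 2 * L ^ K := mul_le_mul_of_nonneg_right h42 (hpp0 K).le
          _ = L ^ K * L ^ 2 := mul_comm _ _
          _ = L ^ (K + 2) := (pow_add L K 2).symm
      have e5 : (x : ℝ) ^ (1 / 2 + ε / 2) * (4 * L ^ K) ≤ 2 * L ^ K * (h + 1) := by
        calc _ ≤ (x : ℝ) ^ (1 / 2 + ε / 2) * L ^ (K + 2) :=
              mul_le_mul_of_nonneg_left e4 (by (clear * - hx4; positivity))
          _ ≤ H := e1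
          _ ≤ R * (h + 1) := e2
          _ ≤ 2 * L ^ K * (h + 1) := mul_le_mul_of_nonneg_right hRb (by (clear * -; positivity))
      have e6 : 2 * (x : ℝ) ^ (1 / 2 + ε / 2) ≤ h + 1 := by
        have h2K : 0 < 2 * L ^ K := by (clear * - hL10; positivity)
        refine le_of_mul_le_mul_left ?_ h2K
        calc 2 * L ^ K * (2 * (x : ℝ) ^ (1 / 2 + ε / 2)) =
              (x : ℝ) ^ (1 / 2 + ε / 2) * (4 * L ^ K) := by ring
          _ ≤ _ := e5
      linarith only [e3, e6]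
    have hhup : (h : ℝ) ≤ x / L ^ c' :=
      hhH.trans (hH2.trans (div_le_div_of_nonneg_left hx0.le (hpp0 _) (hpow hca)))
    have hV := hmajA r.den r.num hden hq.le h hhlow hhup
    have hα : α = (r.num : ℝ) / r.den + (α - r.num / r.den) := by ring
    have h1 := major_case hα hRh hrest2 hHxN (by omega) hF (by (clear * - hL10; positivity)) hV
    refine h1.trans ?_
    -- first part
    have h4 : (H : ℝ) * L ^ 2 ≤ x / L ^ (B + 4) := by
      rw [le_div_iff₀ (hpp0 _), mul_assoc, ← pow_add]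
      have : 2 + (B + 4) = B + 6 := by ring
      rw [this]
      exact hHx6
    have hp1 : 2 * (R : ℝ) ^ 2 * (x * (h : ℝ) ^ 2 / L ^ (B + 4) + H * (h * (2 * L)) ^ 2) ≤
        10 * (T / L ^ (B + 4)) := by
      have e1 : 2 * (R : ℝ) ^ 2 * (x * (h : ℝ) ^ 2 / L ^ (B + 4) + H * (h * (2 * L)) ^ 2) =
          2 * ((R : ℝ) * h) ^ 2 * (x / L ^ (B + 4) + 4 * (H * L ^ 2)) := by ring
      have e2 : ((R : ℝ) * h) ^ 2 ≤ (H : ℝ) ^ 2 := pow_le_pow_left₀ (by (clear * - hL10; positivity)) hRhr 2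
      have hxL : 0 ≤ (x : ℝ) / L ^ (B + 4) := by (clear * - hx4 hL10; positivity)
      rw [e1]
      calc 2 * ((R : ℝ) * h) ^ 2 * (x / L ^ (B + 4) + 4 * (H * L ^ 2)) ≤
            2 * (H : ℝ) ^ 2 * (5 * (x / L ^ (B + 4))) :=
            mul_le_mul (by linarith only [e2]) (by linarith only [h4]) (by (clear * - hx4 hL10 hH0; positivity)) (by (clear * - hH0; positivity))
        _ = _ := by rw [hT]; ring
    -- second part
    have hηh : |α - r.num / r.den| * h ≤ 1 / L ^ (B + 10) := by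
      calc |α - r.num / r.den| * h ≤ L ^ A2 / H * h :=
            mul_le_mul_of_nonneg_right hr3 hhnn
        _ = L ^ A2 * h / H := by ring
        _ ≤ 1 / L ^ (B + 10) := by
            rw [div_le_div_iff₀ hH0 (hpp0 _), one_mul]
            calc L ^ A2 * h * L ^ (B + 10) = h * L ^ K := by rw [hK, pow_add]; ring
              _ ≤ H := hhK
    have hE : (R : ℝ) * (h * (2 * L * (2 * Real.pi * (|α - r.num / r.den| * h)))) +
        R * (2 * L) ≤ 14 * (H / L ^ (B + 9)) := by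
      have e1 : (R : ℝ) * (h * (2 * L * (2 * Real.pi * (|α - r.num / r.den| * h)))) ≤
          13 * (H / L ^ (B + 9)) := by
        calc (R : ℝ) * (h * (2 * L * (2 * Real.pi * (|α - r.num / r.den| * h))))
            = (R * h) * (2 * L * (2 * Real.pi * (|α - r.num / r.den| * h))) := by ring
          _ ≤ H * (2 * L * (2 * Real.pi * (1 / L ^ (B + 10)))) := by
              refine mul_le_mul hRhr ?_ (by (clear * - hL10; positivity)) hHnn
              refine mul_le_mul_of_nonneg_left ?_ (by (clear * - hL10; positivity))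
              exact mul_le_mul_of_nonneg_left hηh (by (clear * -; positivity))
          _ = 4 * Real.pi * (H / L ^ (B + 9)) := by
              rw [show B + 10 = B + 9 + 1 by ring, pow_succ]
              field_simp
              ring
          _ ≤ 13 * (H / L ^ (B + 9)) := by
              refine mul_le_mul_of_nonneg_right ?_ (by (clear * - hL10 hH0; positivity))
              have := Real.pi_lt_d2
              linarith only [this]
      have e2 : (R : ℝ) * (2 * L) ≤ H / L ^ (B + 9) := by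
        rw [le_div_iff₀ (hpp0 _)]
        calc (R : ℝ) * (2 * L) * L ^ (B + 9) ≤ 2 * L ^ K * (2 * L) * L ^ (B + 9) := by
              refine mul_le_mul_of_nonneg_right ?_ (by (clear * - hL10; positivity))
              exact mul_le_mul_of_nonneg_right hRb (by (clear * - hL10; positivity))
          _ = 4 * L ^ (K + B + 10) := by
              rw [show K + B + 10 = K + 1 + (B + 9) by ring, pow_add, pow_add]
              ring
          _ ≤ L * L ^ (K + B + 10) :=
              mul_le_mul_of_nonneg_right (by linarith only [hLev, hCsq]) (by (clear * - hL10; positivity))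
          _ = L ^ (K + B + 11) := by
              rw [show K + B + 11 = K + B + 10 + 1 by ring, pow_succ]
              ring
          _ ≤ H := hHc
      linarith only [e1, e2]
    have hEnn : 0 ≤ (R : ℝ) * (h * (2 * L * (2 * Real.pi * (|α - r.num / r.den| * h)))) +
        R * (2 * L) := by (clear * - hL10; positivity)
    have hp2 : (2 * (x : ℝ) + 1) * (2 * ((R : ℝ) * (h * (2 * L * (2 * Real.pi *
        (|α - r.num / r.den| * h)))) + R * (2 * L)) ^ 2) ≤ 1176 * (T / L ^ (B + 18)) := by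
      have e1 := pow_le_pow_left₀ hEnn hE 2
      have e2 : (14 * ((H : ℝ) / L ^ (B + 9))) ^ 2 ≤ 196 * ((H : ℝ) ^ 2 / L ^ (B + 18)) := by
        rw [mul_pow, div_pow]
        norm_num
        refine div_le_div_of_nonneg_left (by (clear * - hH0; positivity)) (hpp0 _) ?_
        rw [← pow_mul]
        exact hpow (by omega)
      calc _ ≤ 3 * (x : ℝ) * (2 * (196 * ((H : ℝ) ^ 2 / L ^ (B + 18)))) :=
            mul_le_mul h2x1 (by linarith only [e1, e2]) (by (clear * - hL10; positivity)) (by (clear * - hx4; positivity))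
        _ = _ := by rw [hT]; ring
    have h3 := div_pow_le (M := 40) (B := B) (k := 4) hT0 hL0 (by
        calc (40 : ℝ) ≤ 10 ^ 4 := by norm_num
          _ ≤ L ^ 4 := pow_le_pow_left₀ (by norm_num) hL10 4)
    have h5 := div_pow_le (M := 4704) (B := B) (k := 18) hT0 hL0 (by
        calc (4704 : ℝ) ≤ 10 ^ 18 := by norm_num
          _ ≤ L ^ 18 := pow_le_pow_left₀ (by norm_num) hL10 18)
    linarith only [hp1, hp2, h3, h5]

end Pool.Agent.VK
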