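import Pool.Agent.Lib.VK.Defs

/-!
# Tuples with many residue classes

`good n k p A`: the `n`-tuples of elements of `A` with at least `k` different residues modulo `p`; `bad`: the
others.

PROOF SKETCH of `pr_good` (`n = s + k`). For `x` in `good` there is an injection `σ : Fin k → Fin (s+k)` such that
the `x (σ i)` are pairwise incongruent. There are at most `(s+k)^k` functions `σ`. So the number of pairs is at most the sum
over pairs `(σ, τ)` of injections of the number of pairs `(x, y)` of tuples with `x ∘ σ`, `y ∘ τ` in `dtup k p A` and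
`mom x = mom y`. Every injection `σ` extends to an equivalence `Fin k ⊕ Fin s ≃ Fin (s + k)` (the complement of the
range has `s` elements), and `mom` is invariant under it: so each of these numbers equals
`cnt k (dtup k p A) (mom k) s A` (`mom` of the concatenation is the sum: compare `mom_sum_elim` in Basic).
-/

set_option autoImplicit false

open Finset

namespace Pool.Agent.VK

/-- `n`-tuples with at least `k` residues modulo `p`. -/
def good (n k p : ℕ) (A : Finset ℤ) : Finset (Fin n → ℤ) :=
  (tup n A).filter (fun x => k ≤ (Finset.univ.image (fun i => (x i : ZMod p))).card)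

/-- `n`-tuples with fewer than `k` residues modulo `p`. -/
def bad (n k p : ℕ) (A : Finset ℤ) : Finset (Fin n → ℤ) :=
  (tup n A).filter (fun x => (Finset.univ.image (fun i => (x i : ZMod p))).card < k)

namespace GoodBAux

theorem exists_sel {n k p : ℕ} {x : Fin n → ℤ}
    (h : k ≤ (Finset.univ.image (fun i => (x i : ZMod p))).card) :
    ∃ σ : Fin k → Fin n, Function.Injective fun i => ((x (σ i) : ℤ) : ZMod p) := by
  have h1 : Fintype.card (Fin k) ≤
      Fintype.card ↥(Finset.univ.image (fun i => (x i : ZMod p))) := by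
    rw [Fintype.card_fin, Fintype.card_coe]
    exact h
  obtain ⟨g⟩ := Function.Embedding.nonempty_of_card_le h1
  have h2 : ∀ i : Fin k, ∃ j : Fin n, (x j : ZMod p) = (g i : ZMod p) := by
    intro i
    obtain ⟨j, _, hj⟩ := Finset.mem_image.mp (g i).2
    exact ⟨j, hj⟩
  choose σ hσ using h2
  refine ⟨σ, fun i i' hii => g.injective (Subtype.ext ?_)⟩
  rw [← hσ i, ← hσ i']
  exact hii

theorem exists_ext {s k : ℕ} {σ : Fin k → Fin (s + k)} (hσ : Function.Injective σ) :
    ∃ e : Fin k ⊕ Fin s ≃ Fin (s + k), ∀ i, e (Sum.inl i) = σ i := by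
  classical
  have hcard : Fintype.card ↥(Set.range σ)ᶜ = s := by
    rw [Fintype.card_compl_set, Set.card_range_of_injective hσ, Fintype.card_fin,
      Fintype.card_fin]
    omega
  refine ⟨(Equiv.sumCongr (Equiv.ofInjective σ hσ) (Fintype.equivFinOfCardEq hcard).symm).trans
    (Equiv.Set.sumCompl (Set.range σ)), fun i => ?_⟩
  simp

theorem mom_ext {s k : ℕ} (e : Fin k ⊕ Fin s ≃ Fin (s + k)) (m : ℕ) (x : Fin (s + k) → ℤ) :
    mom m (fun i => x (e (Sum.inl i))) + mom m (fun i => x (e (Sum.inr i))) = mom m x := by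
  funext j
  rw [Pi.add_apply]
  unfold mom
  rw [← Equiv.sum_comp e, Fintype.sum_sum_type]

end GoodBAux

theorem pr_good (k s p : ℕ) (A : Finset ℤ) :
    pr k (good (s + k) k p A) (mom k) (good (s + k) k p A) (mom k) ≤
      (s + k) ^ (2 * k) * cnt k (dtup k p A) (mom k) s A := by
  classical
  -- selections
  have hsel : ∀ x : Fin (s + k) → ℤ, ∃ σ : Fin k → Fin (s + k),
      x ∈ good (s + k) k p A → Function.Injective fun i => ((x (σ i) : ℤ) : ZMod p) := by
    intro x
    by_cases hx : x ∈ good (s + k) k p A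
    · obtain ⟨σ, hσ⟩ := GoodBAux.exists_sel (Finset.mem_filter.mp hx).2
      exact ⟨σ, fun _ => hσ⟩
    · by_cases hk : ∃ σ : Fin k → Fin (s + k), True
      · obtain ⟨σ, _⟩ := hk
        exact ⟨σ, fun h => absurd h hx⟩
      · exfalso
        exact hk ⟨fun i => ⟨i, by omega⟩, trivial⟩
  choose σ hσ using hsel
  have hext : ∀ τ : Fin k → Fin (s + k), ∃ e : Fin k ⊕ Fin s ≃ Fin (s + k),
      Function.Injective τ → ∀ i, e (Sum.inl i) = τ i := by
    intro τ
    by_cases hτ : Function.Injective τ
    · obtain ⟨e, he⟩ := GoodBAux.exists_ext hτ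
      exact ⟨e, fun _ => he⟩
    · exact ⟨(Equiv.sumComm _ _).trans finSumFinEquiv, fun h => absurd h hτ⟩
  choose e he using hext
  let T : (Fin (s + k) → ℤ) → (Fin k → ℤ) × (Fin s → ℤ) := fun x =>
    (fun i => x (e (σ x) (Sum.inl i)), fun i => x (e (σ x) (Sum.inr i)))
  have hinj : ∀ x ∈ good (s + k) k p A, Function.Injective (σ x) := by
    intro x hx i j hij
    refine hσ x hx ?_
    simp only [hij]
  have hT1 : ∀ x ∈ good (s + k) k p A, (T x).1 ∈ dtup k p A ∧ (T x).2 ∈ tup s A := by
    intro x hx
    have hxA := mem_tup.mp (Finset.mem_filter.mp hx).1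
    refine ⟨Finset.mem_filter.mpr ⟨mem_tup.mpr fun i => hxA _, ?_⟩, mem_tup.mpr fun i => hxA _⟩
    have h1 := hσ x hx
    have h2 : (fun i => (((T x).1 i : ℤ) : ZMod p)) = fun i => ((x (σ x i) : ℤ) : ZMod p) := by
      funext i
      simp only [T]
      rw [he (σ x) (hinj x hx) i]
    rw [h2]
    exact h1
  have hT2 : ∀ x, mom k (T x).1 + mom k (T x).2 = mom k x := fun x =>
    GoodBAux.mom_ext (e (σ x)) k x
  have hT3 : ∀ x y, σ x = σ y → T x = T y → x = y := by
    intro x y h1 h2
    have h3 : ∀ a : Fin k ⊕ Fin s, x (e (σ x) a) = y (e (σ x) a) := by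
      intro a
      rcases a with i | i
      · have := congrFun (congrArg Prod.fst h2) i
        simp only [T] at this
        rw [← h1] at this
        exact this
      · have := congrFun (congrArg Prod.snd h2) i
        simp only [T] at this
        rw [← h1] at this
        exact this
    funext j
    have := h3 ((e (σ x)).symm j)
    rwa [Equiv.apply_symm_apply] at this
  have hcard : ((Finset.univ : Finset ((Fin k → Fin (s + k)) × (Fin k → Fin (s + k)))) ×ˢ
      (((dtup k p A ×ˢ tup s A) ×ˢ (dtup k p A ×ˢ tup s A)).filter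
        (fun z => mom k z.1.1 + mom k z.1.2 = mom k z.2.1 + mom k z.2.2))).card =
      (s + k) ^ (2 * k) * cnt k (dtup k p A) (mom k) s A := by
    rw [Finset.card_product, Finset.card_univ, Fintype.card_prod, Fintype.card_fun,
      Fintype.card_fin, Fintype.card_fin, ← pow_add, two_mul]
    rfl
  rw [← hcard]
  unfold pr
  refine Finset.card_le_card_of_injOn (fun z => ((σ z.1, σ z.2), (T z.1, T z.2))) ?_ ?_
  · intro z hz
    obtain ⟨h1, h2⟩ := Finset.mem_filter.mp (Finset.mem_coe.mp hz)
    obtain ⟨h3, h4⟩ := Finset.mem_product.mp h1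
    refine Finset.mem_coe.mpr (Finset.mem_product.mpr ⟨Finset.mem_univ _,
      Finset.mem_filter.mpr ⟨Finset.mem_product.mpr ⟨Finset.mem_product.mpr (hT1 _ h3),
        Finset.mem_product.mpr (hT1 _ h4)⟩, ?_⟩⟩)
    change mom k (T z.1).1 + mom k (T z.1).2 = mom k (T z.2).1 + mom k (T z.2).2
    rw [hT2, hT2, h2]
  · intro z _ w _ h
    have e1 := congrArg Prod.fst h
    have e2 := congrArg Prod.snd h
    exact Prod.ext (hT3 _ _ (congrArg Prod.fst e1) (congrArg Prod.fst e2))
      (hT3 _ _ (congrArg Prod.snd e1) (congrArg Prod.snd e2))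

end Pool.Agent.VK
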