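import Pool.Agent.Lib.VK.Defs

/-!
# Hölder's inequality for the number of solutions

PROOF SKETCH. Choose `M : ℕ`, `M ≥ 1`, larger than all `|(φ x + mom u - φ y - mom v) j|` for `x, y ∈ S`,
`u, v ∈ tup s A`. Let `G = Fin k → ZMod M` (finite abelian group) and for a character `ψ : AddChar G ℂ` let
`F ψ = sum_(x ∈ S) ψ (φ x mod M)`, `f_B ψ = sum_(x ∈ B) ψ (ν x mod M)`, `ν x = (x, x^2, ..., x^k)`. By
orthogonality (`AddChar.sum_apply_eq_ite`: `sum_ψ ψ a = if a = 0 then card G else 0`) and the choice of `M`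
`card G * cnt k S φ s B = sum_ψ ‖F ψ‖^2 * ‖f_B ψ‖^(2 s)` for all `B ⊆ A` (the sum over `u ∈ tup s B` of
`ψ (mom u)` is `(f_B ψ)^s`: `Finset.prod_univ_sum` / `Fintype.piFinset`, characters take sums to products and
`ψ (-a) = conj (ψ a)`). For `A` the disjoint union of the classes `A_c`, `c ∈ C`: `f_A = sum_c f_(A_c)` and
`‖f_A ψ‖^(2 s) <= C.card^(2 s - 1) * sum_c ‖f_(A_c) ψ‖^(2 s)` for `s ≥ 1` (power mean inequality,
Mathlib's `pow_sum_div_card_le_sum_pow`). So the count for `A` is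
`<= C.card^(2 s - 1) * sum_c cnt (A_c) <= C.card^(2 s) * B`. For `s = 0` all counts are equal.
-/

set_option autoImplicit false

open Finset

namespace Pool.Agent.VK

namespace HolderAux

/-- reduction of an integer vector modulo `M` -/
def red (k M : ℕ) (w : Fin k → ℤ) : Fin k → ZMod M := fun j => ((w j : ℤ) : ZMod M)

lemma red_add (k M : ℕ) (v w : Fin k → ℤ) : red k M (v + w) = red k M v + red k M w := by
  funext j
  simp [red]

lemma red_sum (k M : ℕ) {ι : Type} (T : Finset ι) (w : ι → Fin k → ℤ) :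
    red k M (∑ i ∈ T, w i) = ∑ i ∈ T, red k M (w i) := by
  funext j
  simp [red, Finset.sum_apply]

lemma char_sum {G : Type} [AddCommGroup G] {ι : Type} (ψ : AddChar G ℂ) (T : Finset ι)
    (a : ι → G) : ψ (∑ i ∈ T, a i) = ∏ i ∈ T, ψ (a i) := by
  classical
  induction T using Finset.induction_on with
  | empty => simp
  | insert i T hi ih => rw [Finset.sum_insert hi, Finset.prod_insert hi, AddChar.map_add_eq_mul, ih]

/-- orthogonality -/
lemma ortho {α : Type} (k : ℕ) (T : Finset α) (w : α → Fin k → ℤ) (M : ℕ) [NeZero M]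
    (hM : ∀ p ∈ T, ∀ q ∈ T, ∀ j, |w p j - w q j| < M) :
    (Fintype.card (Fin k → ZMod M) : ℝ) * ((T ×ˢ T).filter (fun z => w z.1 = w z.2)).card =
      ∑ ψ : AddChar (Fin k → ZMod M) ℂ, ‖∑ p ∈ T, ψ (red k M (w p))‖ ^ 2 := by
  classical
  have h1 : ∀ ψ : AddChar (Fin k → ZMod M) ℂ,
      (((‖∑ p ∈ T, ψ (red k M (w p))‖ ^ 2 : ℝ)) : ℂ) =
        ∑ z ∈ T ×ˢ T, ψ (red k M (w z.1) - red k M (w z.2)) := by
    intro ψ
    push_cast
    rw [← Complex.mul_conj', map_sum, Finset.sum_mul_sum, Finset.sum_product]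
    refine Finset.sum_congr rfl fun p _ => Finset.sum_congr rfl fun q _ => ?_
    rw [sub_eq_add_neg, AddChar.map_add_eq_mul, AddChar.map_neg_eq_conj]
  have h2 : ∀ z ∈ T ×ˢ T, (red k M (w z.1) - red k M (w z.2) = 0 ↔ w z.1 = w z.2) := by
    intro z hz
    rw [Finset.mem_product] at hz
    constructor
    · intro h
      funext j
      have h3 : ((w z.1 j - w z.2 j : ℤ) : ZMod M) = 0 := by
        have h4 := congrFun h j
        simpa [red] using h4
      rw [ZMod.intCast_zmod_eq_zero_iff_dvd] at h3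
      exact sub_eq_zero.1 (Int.eq_zero_of_abs_lt_dvd h3 (hM _ hz.1 _ hz.2 j))
    · intro h
      rw [h, sub_self]
  have h3 : ((∑ ψ : AddChar (Fin k → ZMod M) ℂ, ‖∑ p ∈ T, ψ (red k M (w p))‖ ^ 2 : ℝ) : ℂ) =
      (Fintype.card (Fin k → ZMod M) : ℂ) *
        ((T ×ˢ T).filter (fun z => w z.1 = w z.2)).card := by
    rw [Complex.ofReal_sum, Finset.sum_congr rfl fun ψ _ => h1 ψ, Finset.sum_comm]
    simp only [AddChar.sum_apply_eq_ite]
    rw [← Finset.sum_filter, Finset.sum_const, nsmul_eq_mul, mul_comm]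
    congr 3
    exact Finset.filter_congr h2
  exact_mod_cast h3.symm

/-- a modulus larger than all the differences -/
lemma exists_mod {α : Type} (k : ℕ) (T : Finset α) (w : α → Fin k → ℤ) :
    ∃ M : ℕ, M ≠ 0 ∧ ∀ p ∈ T, ∀ q ∈ T, ∀ j, |w p j - w q j| < M := by
  obtain ⟨g, hg⟩ : ∃ g : α → α → ℕ, ∀ p q, g p q = ∑ j : Fin k, (w p j - w q j).natAbs :=
    ⟨_, fun _ _ => rfl⟩
  refine ⟨∑ p ∈ T, ∑ q ∈ T, g p q + 1, Nat.succ_ne_zero _, fun p hp q hq j => ?_⟩
  have h1 : (w p j - w q j).natAbs ≤ g p q := by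
    rw [hg]
    exact Finset.single_le_sum (f := fun j : Fin k => (w p j - w q j).natAbs)
      (fun _ _ => Nat.zero_le _) (Finset.mem_univ j)
  have h2 : g p q ≤ ∑ q ∈ T, g p q := Finset.single_le_sum (f := fun q => g p q)
    (fun _ _ => Nat.zero_le _) hq
  have h3 : ∑ q ∈ T, g p q ≤ ∑ p ∈ T, ∑ q ∈ T, g p q :=
    Finset.single_le_sum (f := fun p => ∑ q ∈ T, g p q) (fun _ _ => Nat.zero_le _) hp
  have h4 : (w p j - w q j).natAbs < ∑ p ∈ T, ∑ q ∈ T, g p q + 1 := by omega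
  rw [Int.abs_eq_natAbs]
  exact_mod_cast h4

/-- the moments as a sum of vectors -/
lemma mom_eq (k s : ℕ) (u : Fin s → ℤ) :
    mom k u = ∑ i, (fun j : Fin k => u i ^ (j.val + 1)) := by
  funext j
  simp [mom, Finset.sum_apply]

lemma char_pow (k s M : ℕ) (ψ : AddChar (Fin k → ZMod M) ℂ) (B : Finset ℤ) :
    ∑ u ∈ tup s B, ψ (red k M (mom k u)) =
      (∑ x ∈ B, ψ (red k M fun j => x ^ (j.val + 1))) ^ s := by
  have h1 : (∑ x ∈ B, ψ (red k M fun j => x ^ (j.val + 1))) ^ s =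
      ∏ _i : Fin s, ∑ x ∈ B, ψ (red k M fun j => x ^ (j.val + 1)) := by
    rw [Finset.prod_const, Finset.card_univ, Fintype.card_fin]
  rw [h1, Finset.prod_univ_sum]
  unfold tup
  refine Finset.sum_congr rfl fun u _ => ?_
  rw [mom_eq, red_sum, char_sum]

/-- the counting formula -/
lemma cnt_formula {ι : Type} (k s : ℕ) (S : Finset ι) (φ : ι → Fin k → ℤ) (B : Finset ℤ) (M : ℕ)
    [NeZero M] (hM : ∀ p ∈ S ×ˢ tup s B, ∀ q ∈ S ×ˢ tup s B, ∀ j,
      |(φ p.1 + mom k p.2) j - (φ q.1 + mom k q.2) j| < M) :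
    (Fintype.card (Fin k → ZMod M) : ℝ) * cnt k S φ s B =
      ∑ ψ : AddChar (Fin k → ZMod M) ℂ, ‖∑ x ∈ S, ψ (red k M (φ x))‖ ^ 2 *
        ‖∑ x ∈ B, ψ (red k M fun j => x ^ (j.val + 1))‖ ^ (2 * s) := by
  unfold cnt
  rw [ortho k (S ×ˢ tup s B) (fun p => φ p.1 + mom k p.2) M hM]
  refine Finset.sum_congr rfl fun ψ _ => ?_
  have h1 : ∑ p ∈ S ×ˢ tup s B, ψ (red k M (φ p.1 + mom k p.2)) =
      (∑ x ∈ S, ψ (red k M (φ x))) * (∑ x ∈ B, ψ (red k M fun j => x ^ (j.val + 1))) ^ s := by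
    rw [← char_pow, Finset.sum_mul_sum, Finset.sum_product]
    refine Finset.sum_congr rfl fun x _ => Finset.sum_congr rfl fun u _ => ?_
    rw [red_add, AddChar.map_add_eq_mul]
  rw [h1, norm_mul, norm_pow, mul_pow, ← pow_mul, mul_comm s 2]

end HolderAux

open HolderAux

theorem holder_cnt {ι : Type} (k s : ℕ) (S : Finset ι) (φ : ι → Fin k → ℤ) (A : Finset ℤ) {γ : Type}
    [DecidableEq γ] (cl : ℤ → γ) (C : Finset γ) (hC : ∀ x ∈ A, cl x ∈ C) (hne : C.Nonempty) (B : ℕ)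
    (hB : ∀ c ∈ C, cnt k S φ s (A.filter (fun x => cl x = c)) ≤ B) :
    cnt k S φ s A ≤ C.card ^ (2 * s) * B := by
  classical
  rcases Nat.eq_zero_or_pos s with rfl | hs
  · obtain ⟨c, hc⟩ := hne
    have h1 : tup 0 A = tup 0 (A.filter (fun x => cl x = c)) := by
      ext u
      rw [mem_tup, mem_tup]
      exact ⟨fun _ i => i.elim0, fun _ i => i.elim0⟩
    have h2 := hB c hc
    unfold cnt at h2 ⊢
    rw [← h1] at h2
    simpa using h2
  obtain ⟨M, hM0, hM⟩ := exists_mod k (S ×ˢ tup s A) (fun p => φ p.1 + mom k p.2)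
  have : NeZero M := ⟨hM0⟩
  have hsub : ∀ c, ∀ p ∈ S ×ˢ tup s (A.filter (fun x => cl x = c)), p ∈ S ×ˢ tup s A := by
    intro c p hp
    rw [Finset.mem_product, mem_tup] at hp ⊢
    exact ⟨hp.1, fun i => (Finset.mem_filter.1 (hp.2 i)).1⟩
  have hA := cnt_formula k s S φ A M hM
  have hAc : ∀ c, _ := fun c => cnt_formula k s S φ (A.filter (fun x => cl x = c)) M
    (fun p hp q hq j => hM p (hsub c p hp) q (hsub c q hq) j)
  have hcard : (0 : ℝ) < Fintype.card (Fin k → ZMod M) := by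
    exact_mod_cast Fintype.card_pos
  -- the power mean inequality
  have hpm : ∀ ψ : AddChar (Fin k → ZMod M) ℂ,
      ‖∑ x ∈ A, ψ (red k M fun j => x ^ (j.val + 1))‖ ^ (2 * s) ≤
        (C.card : ℝ) ^ (2 * s - 1) * ∑ c ∈ C,
          ‖∑ x ∈ A.filter (fun x => cl x = c), ψ (red k M fun j => x ^ (j.val + 1))‖ ^ (2 * s) := by
    intro ψ
    have h1 : ∑ x ∈ A, ψ (red k M fun j => x ^ (j.val + 1)) =
        ∑ c ∈ C, ∑ x ∈ A.filter (fun x => cl x = c), ψ (red k M fun j => x ^ (j.val + 1)) :=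
      (Finset.sum_fiberwise_of_maps_to hC _).symm
    have h2 : 2 * s = (2 * s - 1) + 1 := by omega
    have h3 := pow_sum_le_card_mul_sum_pow (s := C) (f := fun c =>
      ‖∑ x ∈ A.filter (fun x => cl x = c), ψ (red k M fun j => x ^ (j.val + 1))‖)
      (fun c _ => norm_nonneg _) (2 * s - 1)
    rw [← h2] at h3
    refine le_trans (pow_le_pow_left₀ (norm_nonneg _) ?_ _) h3
    rw [h1]
    exact norm_sum_le _ _
  have hmain : (Fintype.card (Fin k → ZMod M) : ℝ) * cnt k S φ s A ≤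
      (Fintype.card (Fin k → ZMod M) : ℝ) * ((C.card : ℝ) ^ (2 * s) * B) := by
    rw [hA]
    calc ∑ ψ : AddChar (Fin k → ZMod M) ℂ, ‖∑ x ∈ S, ψ (red k M (φ x))‖ ^ 2 *
          ‖∑ x ∈ A, ψ (red k M fun j => x ^ (j.val + 1))‖ ^ (2 * s)
        ≤ ∑ ψ : AddChar (Fin k → ZMod M) ℂ, ‖∑ x ∈ S, ψ (red k M (φ x))‖ ^ 2 *
          ((C.card : ℝ) ^ (2 * s - 1) * ∑ c ∈ C, ‖∑ x ∈ A.filter (fun x => cl x = c),
            ψ (red k M fun j => x ^ (j.val + 1))‖ ^ (2 * s)) :=
          Finset.sum_le_sum fun ψ _ => mul_le_mul_of_nonneg_left (hpm ψ) (sq_nonneg _)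
      _ = (C.card : ℝ) ^ (2 * s - 1) * ∑ c ∈ C, ∑ ψ : AddChar (Fin k → ZMod M) ℂ,
          ‖∑ x ∈ S, ψ (red k M (φ x))‖ ^ 2 * ‖∑ x ∈ A.filter (fun x => cl x = c),
            ψ (red k M fun j => x ^ (j.val + 1))‖ ^ (2 * s) := by
          rw [Finset.sum_comm, Finset.mul_sum]
          refine Finset.sum_congr rfl fun ψ _ => ?_
          rw [← Finset.mul_sum]
          ring
      _ = (C.card : ℝ) ^ (2 * s - 1) * ∑ c ∈ C, (Fintype.card (Fin k → ZMod M) : ℝ) *
          cnt k S φ s (A.filter (fun x => cl x = c)) := by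
          congr 1
          exact Finset.sum_congr rfl fun c _ => (hAc c).symm
      _ ≤ (C.card : ℝ) ^ (2 * s - 1) * ∑ _c ∈ C, (Fintype.card (Fin k → ZMod M) : ℝ) * B := by
          refine mul_le_mul_of_nonneg_left (Finset.sum_le_sum fun c hc => ?_) (by positivity)
          refine mul_le_mul_of_nonneg_left ?_ hcard.le
          exact_mod_cast hB c hc
      _ = (Fintype.card (Fin k → ZMod M) : ℝ) * ((C.card : ℝ) ^ (2 * s) * B) := by
          rw [Finset.sum_const, nsmul_eq_mul]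
          have h2 : (C.card : ℝ) ^ (2 * s) = (C.card : ℝ) ^ (2 * s - 1) * C.card := by
            rw [← pow_succ]
            congr 1
            omega
          rw [h2]
          ring
  have hfin := le_of_mul_le_mul_left hmain hcard
  exact_mod_cast hfin

/-- The case without `S`. -/
theorem holder_vin (k s : ℕ) (A : Finset ℤ) {γ : Type} [DecidableEq γ] (cl : ℤ → γ) (C : Finset γ)
    (hC : ∀ x ∈ A, cl x ∈ C) (hne : C.Nonempty) (B : ℕ)
    (hB : ∀ c ∈ C, vin s k (A.filter (fun x => cl x = c)) ≤ B) :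
    vin s k A ≤ C.card ^ (2 * s) * B := by
  have key : ∀ A' : Finset ℤ, cnt k ({()} : Finset Unit) (fun _ => 0) s A' = vin s k A' := by
    intro A'
    unfold cnt vin
    refine Finset.card_bij' (fun z _ => (z.1.2, z.2.2)) (fun z _ => (((), z.1), ((), z.2)))
      ?_ ?_ ?_ ?_
    · intro z hz
      rw [Finset.mem_filter, Finset.mem_product, Finset.mem_product, Finset.mem_product] at hz
      rw [Finset.mem_filter, Finset.mem_product]
      refine ⟨⟨hz.1.1.2, hz.1.2.2⟩, ?_⟩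
      simpa using hz.2
    · intro z hz
      rw [Finset.mem_filter, Finset.mem_product] at hz
      rw [Finset.mem_filter, Finset.mem_product, Finset.mem_product, Finset.mem_product]
      refine ⟨⟨⟨Finset.mem_singleton_self _, hz.1.1⟩, ⟨Finset.mem_singleton_self _, hz.1.2⟩⟩, ?_⟩
      simpa using hz.2
    · intro z _
      rfl
    · intro z _
      rfl
  rw [← key]
  refine holder_cnt k s _ _ A cl C hC hne B fun c hc => ?_
  rw [key]
  exact hB c hc

end Pool.Agent.VK
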