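import Pool.Agent.Lib.VK.Defs

/-!
# Counting pairs with equal values: elementary inequalities

PROOF SKETCH. Let `r_S v` be the number of `x` in `S` with `φ x = v`, `v` in the finite set `V` of all values
taken. Then `pr k S φ T ψ = sum_v r_S v * r_T v` (`Finset.card_eq_sum_card_fiberwise`).
* `pr_union`: `r_(S ∪ T) <= r_S + r_T` and `(a + b)^2 <= 2 a^2 + 2 b^2`.
* `pr_cross`: `2 a b <= a^2 + b^2`.
* `pr_shift`: the number is `sum_v r_S (v + h) r_S v <= sum (r_S (v + h)^2 + r_S v^2) / 2`. (A special case of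
  `pr_cross` with `ψ = φ + h`: `pr k S φ S (fun x => φ x + h)`, and `pr` of `φ + h` with itself is `pr` of `φ`.)
* `vin_add`: a solution of the system with `s + r` pairs of variables: fix the last `r` variables on both sides
  (`A.card ^ (2 r)` choices); the first `s` satisfy `mom x' - mom y' = h` for a fixed `h`: use `pr_shift`. (Split
  `Fin (s + r)` with `Fin.append` / `Fin.castAdd`, `Fin.natAdd`, or use the equivalence
  `Fin s ⊕ Fin r ≃ Fin (s + r)`, `finSumFinEquiv`.)
-/

set_option autoImplicit false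

open Finset

namespace Pool.Agent.VK

namespace PairsAux

/-- The number of `x` in `S` with `φ x = v`. -/
def rr {ι : Type} {k : ℕ} (S : Finset ι) (φ : ι → Fin k → ℤ) (v : Fin k → ℤ) : ℕ :=
  (S.filter (fun x => φ x = v)).card

theorem pr_eq {ι κ : Type} {k : ℕ} (S : Finset ι) (φ : ι → Fin k → ℤ) (T : Finset κ)
    (ψ : κ → Fin k → ℤ) (V : Finset (Fin k → ℤ)) (hV : ∀ x ∈ S, φ x ∈ V) :
    pr k S φ T ψ = ∑ v ∈ V, rr S φ v * rr T ψ v := by
  have h1 : pr k S φ T ψ = ∑ x ∈ S, rr T ψ (φ x) := by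
    unfold pr rr
    rw [Finset.card_filter, Finset.sum_product]
    refine Finset.sum_congr rfl fun x _ => ?_
    rw [Finset.card_filter]
    refine Finset.sum_congr rfl fun y _ => ?_
    simp only [eq_comm]
  rw [h1, ← Finset.sum_fiberwise_of_maps_to hV]
  refine Finset.sum_congr rfl fun v _ => ?_
  rw [Finset.sum_congr rfl (g := fun _ => rr T ψ v)
    (fun x hx => by rw [(Finset.mem_filter.1 hx).2]), Finset.sum_const, smul_eq_mul]
  rfl

theorem pr_self {ι : Type} {k : ℕ} (S : Finset ι) (φ : ι → Fin k → ℤ) (h : Fin k → ℤ) :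
    pr k S (fun x => φ x + h) S (fun x => φ x + h) = pr k S φ S φ := by
  unfold pr
  simp only [add_left_inj]

end PairsAux

open PairsAux

theorem pr_union {ι : Type} [DecidableEq ι] (k : ℕ) (S T : Finset ι) (φ : ι → Fin k → ℤ) :
    pr k (S ∪ T) φ (S ∪ T) φ ≤ 2 * pr k S φ S φ + 2 * pr k T φ T φ := by
  classical
  set V := (S ∪ T).image φ with hV
  rw [pr_eq (S ∪ T) φ (S ∪ T) φ V (fun x hx => mem_image_of_mem _ hx),
    pr_eq S φ S φ V (fun x hx => mem_image_of_mem _ (mem_union_left _ hx)),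
    pr_eq T φ T φ V (fun x hx => mem_image_of_mem _ (mem_union_right _ hx)),
    mul_sum, mul_sum, ← sum_add_distrib]
  refine sum_le_sum fun v _ => ?_
  have h1 : rr (S ∪ T) φ v ≤ rr S φ v + rr T φ v := by
    unfold rr
    rw [filter_union]
    exact card_union_le _ _
  have h2 : rr (S ∪ T) φ v * rr (S ∪ T) φ v ≤ (rr S φ v + rr T φ v) * (rr S φ v + rr T φ v) :=
    Nat.mul_le_mul h1 h1
  have h3 := two_mul_le_add_sq (rr S φ v) (rr T φ v)
  nlinarith

theorem pr_cross {ι κ : Type} (k : ℕ) (S : Finset ι) (φ : ι → Fin k → ℤ) (T : Finset κ)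
    (ψ : κ → Fin k → ℤ) : 2 * pr k S φ T ψ ≤ pr k S φ S φ + pr k T ψ T ψ := by
  classical
  set V := S.image φ ∪ T.image ψ with hV
  have hS : ∀ x ∈ S, φ x ∈ V := fun x hx => mem_union_left _ (mem_image_of_mem _ hx)
  have hT : ∀ x ∈ T, ψ x ∈ V := fun x hx => mem_union_right _ (mem_image_of_mem _ hx)
  rw [pr_eq S φ T ψ V hS, pr_eq S φ S φ V hS, pr_eq T ψ T ψ V hT, mul_sum, ← sum_add_distrib]
  refine sum_le_sum fun v _ => ?_
  have h3 := two_mul_le_add_sq (rr S φ v) (rr T ψ v)
  nlinarith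

theorem pr_shift {ι : Type} (k : ℕ) (S : Finset ι) (φ : ι → Fin k → ℤ) (h : Fin k → ℤ) :
    ((S ×ˢ S).filter (fun z => φ z.1 = φ z.2 + h)).card ≤ pr k S φ S φ := by
  have h1 := pr_cross k S φ S (fun x => φ x + h)
  rw [pr_self] at h1
  have h2 : ((S ×ˢ S).filter (fun z => φ z.1 = φ z.2 + h)).card =
    pr k S φ S (fun x => φ x + h) := rfl
  omega

theorem vin_add (s r k : ℕ) (A : Finset ℤ) : vin (s + r) k A ≤ A.card ^ (2 * r) * vin s k A := by
  classical
  have hmom : ∀ z : Fin (s + r) → ℤ, mom k z =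
      mom k (fun i => z (Fin.castAdd r i)) + mom k (fun i => z (Fin.natAdd s i)) := by
    intro z
    funext j
    unfold mom
    rw [Pi.add_apply, Fin.sum_univ_add]
  have h1 := Finset.card_le_mul_card_image_of_maps_to
    (s := (tup (s + r) A ×ˢ tup (s + r) A).filter (fun z => mom k z.1 = mom k z.2))
    (t := tup r A ×ˢ tup r A)
    (f := fun z => ((fun i => z.1 (Fin.natAdd s i) : Fin r → ℤ),
      (fun i => z.2 (Fin.natAdd s i) : Fin r → ℤ)))
    (fun z hz => by
      obtain ⟨h2, _⟩ := mem_filter.1 hz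
      obtain ⟨h3, h4⟩ := mem_product.1 h2
      exact mem_product.2 ⟨mem_tup.2 fun i => mem_tup.1 h3 _, mem_tup.2 fun i => mem_tup.1 h4 _⟩)
    (vin s k A) ?_
  · rw [card_product, card_tup] at h1
    calc vin (s + r) k A ≤ vin s k A * (A.card ^ r * A.card ^ r) := h1
      _ = A.card ^ (2 * r) * vin s k A := by
        rw [two_mul, pow_add, mul_comm]
  · rintro ⟨u, u'⟩ _
    refine le_trans ?_ (pr_shift k (tup s A) (mom k) (mom k u' - mom k u))
    refine Finset.card_le_card_of_injOn (fun z => ((fun i => z.1 (Fin.castAdd r i) : Fin s → ℤ),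
      (fun i => z.2 (Fin.castAdd r i) : Fin s → ℤ))) ?_ ?_
    · intro z hz
      obtain ⟨h2, h3⟩ := mem_filter.1 (mem_coe.1 hz)
      obtain ⟨h4, h5⟩ := mem_filter.1 h2
      obtain ⟨h6, h7⟩ := mem_product.1 h4
      have h8 : (fun i => z.1 (Fin.natAdd s i)) = u := congrArg Prod.fst h3
      have h9 : (fun i => z.2 (Fin.natAdd s i)) = u' := congrArg Prod.snd h3
      rw [hmom z.1, hmom z.2, h8, h9] at h5
      refine mem_coe.2 (mem_filter.2 ⟨mem_product.2 ⟨mem_tup.2 fun i => mem_tup.1 h6 _,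
        mem_tup.2 fun i => mem_tup.1 h7 _⟩, ?_⟩)
      show mom k (fun i => z.1 (Fin.castAdd r i)) = mom k (fun i => z.2 (Fin.castAdd r i)) +
        (mom k u' - mom k u)
      rw [← add_sub_assoc, ← h5, add_sub_cancel_right]
    · intro z hz z' hz' hh
      obtain ⟨_, h3⟩ := mem_filter.1 (mem_coe.1 hz)
      obtain ⟨_, h3'⟩ := mem_filter.1 (mem_coe.1 hz')
      have h4 := h3.trans h3'.symm
      have e1 := (Prod.ext_iff.1 hh).1
      have e2 := (Prod.ext_iff.1 hh).2
      have e3 := (Prod.ext_iff.1 h4).1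
      have e4 := (Prod.ext_iff.1 h4).2
      refine Prod.ext (funext fun i => ?_) (funext fun i => ?_)
      · refine Fin.addCases (fun i => congrFun e1 i) (fun i => congrFun e3 i) i
      · refine Fin.addCases (fun i => congrFun e2 i) (fun i => congrFun e4 i) i

end Pool.Agent.VK
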