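import Pool.Agent.Lib.VK.Basic
import Pool.Agent.Lib.VK.GoodB
import Pool.Agent.Lib.VK.Holder
import Pool.Agent.Lib.VK.Pairs

/-!
# Tuples with few residue classes

PROOF SKETCH. For a function `r : Fin (k-1) → ZMod p` let `A_r = {x ∈ A : (x : ZMod p) ∈ range r}`, `A = ivl X`. Every
`x` in `bad n k p A` (`n ≥ 1`, `k ≥ 2`: the set of residues is nonempty with at most `k - 1` elements) lies in
`tup n A_r` for some `r`. So the number of pairs is at most
`sum_(r, r') pr (tup n A_r) (tup n A_r') <= sum_(r, r') (vin n k A_r + vin n k A_r') / 2` (`pr_cross`), that is at most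
`R * sum_r vin n k A_r` with `R = p^(k-1)` the number of functions `r`. And
`vin n k A_r <= (k-1)^(2n) * J n k (X/p+1)` by `holder_vin` with `cl x = (x : ZMod p)` and `C = range r`
(`C.card ≤ k - 1`, nonempty) and `vin_cls` (`A_r.filter (cl = c) ⊆ cls p c A`, `vin_mono`). Total
`p^(2(k-1)) (k-1)^(2n) J n k (X/p+1)`. (Work with `2 *` the inequality to avoid fractions.)
-/

set_option autoImplicit false

open Finset

namespace Pool.Agent.VK

namespace BadAux

/-- the elements of `A` whose residue is a value of `r` -/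
def sel {m p : ℕ} (A : Finset ℤ) (r : Fin m → ZMod p) : Finset ℤ :=
  A.filter (fun x => (x : ZMod p) ∈ Finset.univ.image r)

lemma exists_cover {p m : ℕ} (I : Finset (ZMod p)) (h1 : I.Nonempty) (h2 : I.card ≤ m) :
    ∃ r : Fin m → ZMod p, I ⊆ Finset.univ.image r := by
  obtain ⟨a, ha⟩ := h1
  refine ⟨fun j => if h : j.val < I.card then (I.equivFin.symm ⟨j.val, h⟩ : ZMod p) else a, ?_⟩
  intro c hc
  rw [Finset.mem_image]
  set j := I.equivFin ⟨c, hc⟩ with hj
  refine ⟨⟨j.val, lt_of_lt_of_le j.2 h2⟩, Finset.mem_univ _, ?_⟩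
  rw [dif_pos j.2]
  have : (⟨j.val, j.2⟩ : Fin I.card) = I.equivFin ⟨c, hc⟩ := rfl
  rw [this, Equiv.symm_apply_apply]

lemma bad_sub {n k p : ℕ} (A : Finset ℤ) (hn : 1 ≤ n) {x : Fin n → ℤ}
    (hx : x ∈ bad n k p A) : ∃ r : Fin (k - 1) → ZMod p, x ∈ tup n (sel A r) := by
  unfold bad at hx
  rw [Finset.mem_filter] at hx
  obtain ⟨h1, h2⟩ := hx
  rw [mem_tup] at h1
  obtain ⟨r, hr⟩ := exists_cover (Finset.univ.image (fun i => (x i : ZMod p)))
    ⟨_, Finset.mem_image_of_mem _ (Finset.mem_univ (⟨0, hn⟩ : Fin n))⟩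
    (show _ ≤ k - 1 by omega)
  refine ⟨r, mem_tup.2 fun i => ?_⟩
  unfold sel
  rw [Finset.mem_filter]
  exact ⟨h1 i, hr (Finset.mem_image_of_mem _ (Finset.mem_univ i))⟩

lemma vin_sel {n k p X : ℕ} (hk : 2 ≤ k) (hp : 0 < p) (r : Fin (k - 1) → ZMod p) :
    vin n k (sel (ivl X) r) ≤ (k - 1) ^ (2 * n) * J n k (X / p + 1) := by
  have hne : (Finset.univ.image r).Nonempty :=
    ⟨_, Finset.mem_image_of_mem _ (Finset.mem_univ (⟨0, by omega⟩ : Fin (k - 1)))⟩
  refine (holder_vin k n (sel (ivl X) r) (fun x : ℤ => (x : ZMod p)) (Finset.univ.image r)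
    (fun x hx => ?_) hne (J n k (X / p + 1)) (fun c _ => ?_)).trans ?_
  · unfold sel at hx
    exact (Finset.mem_filter.1 hx).2
  · refine (vin_mono ?_ n k).trans (vin_cls n k p X hp c)
    intro x hx
    rw [Finset.mem_filter] at hx
    unfold cls
    rw [Finset.mem_filter]
    unfold sel at hx
    exact ⟨(Finset.mem_filter.1 hx.1).1, hx.2⟩
  · refine Nat.mul_le_mul_right _ (Nat.pow_le_pow_left ?_ _)
    refine Finset.card_image_le.trans ?_
    rw [Finset.card_univ, Fintype.card_fin]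

/-- Covering of a set of tuples. -/
lemma pr_cover {ι κ : Type} (k : ℕ) (S : Finset ι) (φ : ι → Fin k → ℤ) (U : Finset κ)
    (T : κ → Finset ι) (h : ∀ x ∈ S, ∃ r ∈ U, x ∈ T r) :
    pr k S φ S φ ≤ ∑ r ∈ U, ∑ r' ∈ U, pr k (T r) φ (T r') φ := by
  classical
  rw [← Finset.sum_product']
  have hsub : (S ×ˢ S).filter (fun z => φ z.1 = φ z.2) ⊆
      (U ×ˢ U).biUnion (fun q => (T q.1 ×ˢ T q.2).filter (fun z => φ z.1 = φ z.2)) := by
    intro z hz
    rw [Finset.mem_filter, Finset.mem_product] at hz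
    obtain ⟨r, hrU, hr⟩ := h z.1 hz.1.1
    obtain ⟨r', hrU', hr'⟩ := h z.2 hz.1.2
    rw [Finset.mem_biUnion]
    refine ⟨(r, r'), Finset.mem_product.2 ⟨hrU, hrU'⟩, ?_⟩
    rw [Finset.mem_filter, Finset.mem_product]
    exact ⟨⟨hr, hr'⟩, hz.2⟩
  exact (Finset.card_le_card hsub).trans Finset.card_biUnion_le

end BadAux

theorem pr_bad (n k p X : ℕ) (hn : 1 ≤ n) (hk : 2 ≤ k) (hp : 0 < p) :
    pr k (bad n k p (ivl X)) (mom k) (bad n k p (ivl X)) (mom k) ≤
      p ^ (2 * (k - 1)) * ((k - 1) ^ (2 * n) * J n k (X / p + 1)) := by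
  classical
  have hnz : NeZero p := ⟨hp.ne'⟩
  set A := ivl X with hA
  set Bd := (k - 1) ^ (2 * n) * J n k (X / p + 1) with hBd
  let T : (Fin (k - 1) → ZMod p) → Finset (Fin n → ℤ) := fun r => tup n (BadAux.sel A r)
  have hcard : Fintype.card (Fin (k - 1) → ZMod p) = p ^ (k - 1) := by
    rw [Fintype.card_fun, Fintype.card_fin, ZMod.card]
  -- covering
  have h1 : pr k (bad n k p A) (mom k) (bad n k p A) (mom k) ≤
      ∑ r : Fin (k - 1) → ZMod p, ∑ r' : Fin (k - 1) → ZMod p,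
        pr k (T r) (mom k) (T r') (mom k) := by
    refine BadAux.pr_cover k (bad n k p A) (mom k) Finset.univ T fun x hx => ?_
    obtain ⟨r, hr⟩ := BadAux.bad_sub A hn hx
    exact ⟨r, Finset.mem_univ r, hr⟩
  have h2 : ∀ r, pr k (T r) (mom k) (T r) (mom k) ≤ Bd := fun r => BadAux.vin_sel hk hp r
  have h3 : ∀ r r', pr k (T r) (mom k) (T r') (mom k) ≤ Bd := by
    intro r r'
    have h4 := pr_cross k (T r) (mom k) (T r') (mom k)
    have h5 := h2 r
    have h6 := h2 r'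
    omega
  refine h1.trans ?_
  calc ∑ r : Fin (k - 1) → ZMod p, ∑ r' : Fin (k - 1) → ZMod p,
        pr k (T r) (mom k) (T r') (mom k)
      ≤ ∑ _r : Fin (k - 1) → ZMod p, ∑ _r' : Fin (k - 1) → ZMod p, Bd :=
        Finset.sum_le_sum fun r _ => Finset.sum_le_sum fun r' _ => h3 r r'
    _ = p ^ (k - 1) * (p ^ (k - 1) * Bd) := by
        simp only [Finset.sum_const, Finset.card_univ, hcard, smul_eq_mul]
    _ = p ^ (2 * (k - 1)) * Bd := by
        rw [two_mul, pow_add, mul_assoc]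

end Pool.Agent.VK
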