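import Pool.Agent.Lib.VK.Defs

/-!
# Vinogradov systems: translation, dilation, monotonicity

PROOF SKETCH.
* `mom_affine`: if `mom k x = mom k y` then the power sums of degree `0` also agree (both are `|ι|`), and by the
  binomial theorem `sum (p x_i + c)^j` is a fixed linear combination of the power sums of degrees `0..j`.
* `vin_affine`: `x ↦ p x + c` is injective and the systems correspond (the inverse direction: first translate
  by `-c` with `mom_affine` for `p = 1`, then cancel `p ^ j`; the power sums of `p x_i` are `p ^ j` times those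
  of `x_i`). Use `Finset.card_bij` / `card_nbij'` on the filtered sets (the tuples with coordinates in the image
  are the images of the tuples).
* `vin_cls`: if `c0` in `{1, ..., p}` represents `c` then `cls p c (ivl X)` is contained in the image of
  `{1, ..., X / p + 1}` under `y ↦ p y + (c0 - p)`. Use `vin_mono` and `vin_affine`.
* `cnt_affine`: fix the pair of tuples; see the statement: if `S` is a set of tuples, the condition
  `mom x + mom u = mom y + mom v` is invariant under a common translation of ALL variables (apply `mom_affine`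
  to the concatenated tuples `Sum.elim x u`, `Sum.elim y v`; `mom k (Sum.elim x u) = mom k x + mom k u`).
-/

set_option autoImplicit false

open Finset

namespace Pool.Agent.VK

lemma mom_sum_elim {ι κ : Type} [Fintype ι] [Fintype κ] (k : ℕ) (x : ι → ℤ) (u : κ → ℤ) :
    mom k (Sum.elim x u) = mom k x + mom k u := by
  funext j
  simp [mom, Fintype.sum_sum_type]

lemma mom_affine {ι : Type} [Fintype ι] (k : ℕ) (x y : ι → ℤ) (p c : ℤ) (h : mom k x = mom k y) :
    mom k (fun i => p * x i + c) = mom k (fun i => p * y i + c) := by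
  have key : ∀ (z : ι → ℤ) (j : Fin k), mom k (fun i => p * z i + c) j =
      ∑ m ∈ range (j.val + 1 + 1),
        (∑ i, z i ^ m) * (p ^ m * c ^ (j.val + 1 - m) * ((j.val + 1).choose m : ℤ)) := by
    intro z j
    unfold mom
    simp only [add_pow, Finset.sum_mul]
    rw [Finset.sum_comm]
    refine Finset.sum_congr rfl fun m _ => Finset.sum_congr rfl fun i _ => ?_
    rw [mul_pow]
    ring
  funext j
  rw [key, key]
  refine Finset.sum_congr rfl fun m hm => ?_
  congr 1
  have hm' : m ≤ j.val + 1 := Nat.lt_succ_iff.1 (Finset.mem_range.1 hm)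
  rcases Nat.eq_zero_or_pos m with h0 | h0
  · subst h0
    simp
  · have hk : m - 1 < k := by
      have := j.2
      omega
    have h1 := congrFun h ⟨m - 1, hk⟩
    simp only [mom] at h1
    rwa [Nat.sub_add_cancel h0] at h1

/-- Translation of all variables of a system with four groups of variables. -/
lemma mom_add_translate {ι κ : Type} [Fintype ι] [Fintype κ] (k : ℕ) (x y : ι → ℤ) (u v : κ → ℤ) (c : ℤ) :
    mom k x + mom k u = mom k y + mom k v ↔
      mom k (fun i => x i - c) + mom k (fun i => u i - c) =
        mom k (fun i => y i - c) + mom k (fun i => v i - c) := by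
  have key : ∀ (d : ℤ) (x y : ι → ℤ) (u v : κ → ℤ), mom k x + mom k u = mom k y + mom k v →
      mom k (fun i => x i + d) + mom k (fun i => u i + d) =
        mom k (fun i => y i + d) + mom k (fun i => v i + d) := by
    intro d x y u v h
    rw [← mom_sum_elim, ← mom_sum_elim] at h ⊢
    have h1 := mom_affine k _ _ 1 d h
    have h2 : ∀ (x : ι → ℤ) (u : κ → ℤ), (fun i => 1 * Sum.elim x u i + d) =
        Sum.elim (fun i => x i + d) (fun i => u i + d) := by
      intro x u
      funext i
      rcases i with i | i <;> simp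
    rwa [h2, h2] at h1
  constructor
  · intro h
    have := key (-c) x y u v h
    simpa only [← sub_eq_add_neg] using this
  · intro h
    have := key c _ _ _ _ h
    simpa using this

theorem vin_affine (s k : ℕ) (A : Finset ℤ) (p c : ℤ) (hp : p ≠ 0) :
    vin s k (A.image (fun x => p * x + c)) = vin s k A := by
  classical
  have hinj : Function.Injective (fun x : ℤ => p * x + c) := by
    intro x y h
    have h1 : p * x = p * y := by
      simpa using h
    exact mul_left_cancel₀ hp h1
  have hiff : ∀ x y : Fin s → ℤ, mom k (fun i => p * x i + c) = mom k (fun i => p * y i + c) ↔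
      mom k x = mom k y := by
    intro x y
    refine ⟨fun h => ?_, fun h => mom_affine k x y p c h⟩
    have h1 := mom_affine k _ _ 1 (-c) h
    simp only [one_mul, add_neg_cancel_right] at h1
    funext j
    have h2 := congrFun h1 j
    simp only [mom, mul_pow, ← Finset.mul_sum] at h2
    exact mul_left_cancel₀ (pow_ne_zero _ hp) h2
  unfold vin
  have himg : (tup s (A.image (fun x => p * x + c)) ×ˢ tup s (A.image (fun x => p * x + c))).filter
      (fun z => mom k z.1 = mom k z.2) =
      ((tup s A ×ˢ tup s A).filter (fun z => mom k z.1 = mom k z.2)).image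
        (fun z => ((fun i => p * z.1 i + c), (fun i => p * z.2 i + c))) := by
    ext ⟨x, y⟩
    simp only [Finset.mem_filter, Finset.mem_product, Finset.mem_image, mem_tup, Prod.mk.injEq,
      Prod.exists]
    constructor
    · rintro ⟨⟨hx, hy⟩, h⟩
      choose x' hx1 hx2 using hx
      choose y' hy1 hy2 using hy
      have hx3 : (fun i => p * x' i + c) = x := funext hx2
      have hy3 : (fun i => p * y' i + c) = y := funext hy2
      refine ⟨x', y', ⟨⟨hx1, hy1⟩, ?_⟩, hx3, hy3⟩
      rw [← hx3, ← hy3] at h
      exact (hiff x' y').1 h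
    · rintro ⟨x', y', ⟨⟨hx, hy⟩, h⟩, rfl, rfl⟩
      exact ⟨⟨fun i => ⟨x' i, hx i, rfl⟩, fun i => ⟨y' i, hy i, rfl⟩⟩, (hiff x' y').2 h⟩
  rw [himg, Finset.card_image_of_injective]
  rintro ⟨x, y⟩ ⟨x', y'⟩ h
  simp only [Prod.mk.injEq] at h
  obtain ⟨h1, h2⟩ := h
  refine Prod.ext (funext fun i => ?_) (funext fun i => ?_)
  · exact hinj (congrFun h1 i)
  · exact hinj (congrFun h2 i)

theorem vin_mono {A B : Finset ℤ} (h : A ⊆ B) (s k : ℕ) : vin s k A ≤ vin s k B := by
  unfold vin
  refine Finset.card_le_card (Finset.filter_subset_filter _ ?_)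
  have h1 : tup s A ⊆ tup s B := fun x hx => mem_tup.2 fun i => h (mem_tup.1 hx i)
  exact Finset.product_subset_product h1 h1

theorem vin_le (s k : ℕ) (A : Finset ℤ) : vin s k A ≤ A.card ^ (2 * s) := by
  unfold vin
  refine (Finset.card_filter_le _ _).trans (le_of_eq ?_)
  rw [Finset.card_product, card_tup, ← pow_add, two_mul]

theorem J_mono (s k : ℕ) {X Y : ℕ} (h : X ≤ Y) : J s k X ≤ J s k Y := by
  refine vin_mono (fun x hx => ?_) s k
  rw [mem_ivl] at hx ⊢
  have : (X : ℤ) ≤ Y := by exact_mod_cast h
  exact ⟨hx.1, hx.2.trans this⟩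

theorem vin_cls (s k p X : ℕ) (hp : 0 < p) (c : ZMod p) : vin s k (cls p c (ivl X)) ≤ J s k (X / p + 1) := by
  have : NeZero p := ⟨hp.ne'⟩
  have hp0 : (0 : ℤ) < p := by exact_mod_cast hp
  set e : ℤ := -((-(c.val : ℤ)) % p) with he
  have he1 : e ≤ 0 := by
    have := Int.emod_nonneg (-(c.val : ℤ)) hp0.ne'
    omega
  have he2 : -(p : ℤ) < e := by
    have := Int.emod_lt_of_pos (-(c.val : ℤ)) hp0
    omega
  have hec : ((e : ℤ) : ZMod p) = c := by
    rw [he, Int.cast_neg, ZMod.intCast_mod]
    simp
  have hsub : cls p c (ivl X) ⊆ (ivl (X / p + 1)).image (fun y => (p : ℤ) * y + e) := by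
    intro x hx
    unfold cls at hx
    rw [Finset.mem_filter, mem_ivl] at hx
    obtain ⟨⟨hx1, hx2⟩, hx3⟩ := hx
    have h1 : (((x - e : ℤ)) : ZMod p) = 0 := by
      rw [Int.cast_sub, hx3, hec, sub_self]
    rw [ZMod.intCast_zmod_eq_zero_iff_dvd] at h1
    obtain ⟨y, hy⟩ := h1
    rw [Finset.mem_image]
    refine ⟨y, ?_, by rw [← hy]; ring⟩
    rw [mem_ivl]
    constructor
    · by_contra hcon
      have h2 : y ≤ 0 := by omega
      have h3 : (p : ℤ) * y ≤ 0 := mul_nonpos_of_nonneg_of_nonpos hp0.le h2
      omega
    · have h2 : (p : ℤ) * y ≤ X + p - 1 := by omega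
      have h3 : (p : ℤ) * (y - 1) < p * ((X : ℤ) / p + 1) := by
        have h4 : (X : ℤ) < p * ((X : ℤ) / p + 1) := by
          have h5 := Int.emod_add_mul_ediv (X : ℤ) p
          have h6 := Int.emod_lt_of_pos (X : ℤ) hp0
          linarith
        linarith
      have h4 : y - 1 < (X : ℤ) / p + 1 := lt_of_mul_lt_mul_left h3 hp0.le
      push_cast
      omega
  refine (vin_mono hsub s k).trans (le_of_eq ?_)
  rw [vin_affine s k _ (p : ℤ) e hp0.ne']
  rfl

end Pool.Agent.VK
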