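import Pool.Agent.Lib.HLT.Geom
import Pool.Agent.Lib.VK.Pairs

/-!
# The bilinear exponential sum and the Vinogradov mean value

PROOF SKETCH. Write `A = ivl X`, `R v = #{(x, x') ∈ tup s A × tup s A : mom x - mom x' = v}` (`v : Fin k → ℤ`),
`T v = sum_(y ∈ A) ex (sum_j α_j v_j y^(j+1))`, `U` the sum in the statement.
1. Hölder in `y`: `‖U‖^(2s) ≤ X^(2s-1) sum_y ‖sum_x ex (sum_j α_j x^(j+1) y^(j+1))‖^(2s)` and expanding
   (`‖z‖^(2s) = z^s conj(z)^s`, product of sums over tuples) the last sum is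
   `sum_y sum_(x,x') ex (sum_j α_j y^(j+1) (mom x - mom x') j) = sum_v R v * T v`, `≤ sum_v R v * ‖T v‖`.
2. `R v = 0` unless `|v_j| ≤ s X^(j+1)` for all `j` (box `Bx = Fintype.piFinset (fun j => Icc (-(s X^(j+1))) (s X^(j+1)))`),
   `sum_v R v = X^(2s)`, and `sum_v (R v)^2 = J (2s) k X ≤ X^(2s) J s k X` (the condition
   `mom x - mom x' = mom z - mom z'` is `mom (x, z') = mom (z, x')`, concatenated `2s`-tuples; `vin_add`).
3. Hölder with three factors `R = R^(1-1/s) R^(1/s)`: `(sum R ‖T‖)^(2s) ≤ (sum R)^(2s-2) (sum R^2) (sum_(v ∈ Bx) ‖T v‖^(2s))`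
   (for instance: first `(sum R ‖T‖)^2 ≤ (sum R) (sum R ‖T‖^2)`, then Hölder with exponent `s`:
   `(sum R ‖T‖^2)^s ≤ (sum R)^(s-2) ...`; or one Jensen step `(sum R ‖T‖)^s ≤ (sum R)^(s-1) sum R ‖T‖^s` followed by
   Cauchy-Schwarz `(sum R ‖T‖^s)^2 ≤ (sum R^2) (sum_(v ∈ Bx) ‖T‖^(2s))`: this gives exactly the claim).
4. `sum_(v ∈ Bx) ‖T v‖^(2s) = sum_(y,y') sum_(v ∈ Bx) prod_j ex (α_j w_j v_j)` with `w = mom y - mom y'`
   `= sum_w R w * prod_j (sum_(|v| ≤ s X^(j+1)) ex (α_j w_j v))`, and each inner sum is at most `mn (2 s X^(j+1) + 1) (α_j w_j)`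
   in absolute value (`HLT.geom_Ioc` or the geometric series; `mn` and `ex` are defined in `HLT/Defs`), `R w ≤ R 0 = J s k X` (`pr_shift`) and
   `w` ranges over the box: `sum_(w ∈ Bx) prod_j mn ... = prod_j sum_(w_j) mn ...` (`Finset.prod_univ_sum`).
Total: `‖U‖^(4 s^2) = (‖U‖^(2s))^(2s) ≤ X^(2s(2s-1)) X^(2s(2s-2)) X^(2s) J^2 prod = X^(8s^2-4s) J^2 prod`.
-/

set_option autoImplicit false

open Finset

namespace Pool.Agent.VK

open Pool.Agent.HLT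

/-- The phase `sum_j α_j u_j v_j`. -/
noncomputable def bph {k : ℕ} (α : Fin k → ℝ) (u v : Fin k → ℤ) : ℝ :=
  ∑ j, α j * ((u j : ℝ) * (v j : ℝ))

/-- The vector `(x, x ^ 2, ..., x ^ k)`. -/
def mono (k : ℕ) (x : ℤ) : Fin k → ℤ := fun j => x ^ (j.val + 1)

lemma mom_eq_sum_mono (k : ℕ) {s : ℕ} (x : Fin s → ℤ) : mom k x = ∑ i, mono k (x i) := by
  funext j
  simp [mom, mono, Finset.sum_apply]

lemma bph_comm {k : ℕ} (α : Fin k → ℝ) (u v : Fin k → ℤ) : bph α u v = bph α v u := by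
  unfold bph
  exact sum_congr rfl (fun j _ => by ring)

lemma bph_sum {ι : Type} {k : ℕ} (t : Finset ι) (α : Fin k → ℝ) (u : Fin k → ℤ) (f : ι → Fin k → ℤ) :
    bph α u (∑ i ∈ t, f i) = ∑ i ∈ t, bph α u (f i) := by
  unfold bph
  rw [sum_comm]
  refine sum_congr rfl (fun j _ => ?_)
  rw [Finset.sum_apply]
  push_cast
  rw [mul_sum, mul_sum]

lemma bph_sub {k : ℕ} (α : Fin k → ℝ) (u v w : Fin k → ℤ) :
    bph α u (v - w) = bph α u v - bph α u w := by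
  unfold bph
  rw [← sum_sub_distrib]
  refine sum_congr rfl (fun j _ => ?_)
  rw [Pi.sub_apply]
  push_cast
  ring

lemma ex_sum {ι : Type} (t : Finset ι) (f : ι → ℝ) : ex (∑ i ∈ t, f i) = ∏ i ∈ t, ex (f i) := by
  classical
  induction t using Finset.induction_on with
  | empty => simp
  | insert a t ha ih => rw [sum_insert ha, prod_insert ha, ex_add, ih]

lemma pow_esum {k : ℕ} (α : Fin k → ℝ) (u : Fin k → ℤ) (A : Finset ℤ) (s : ℕ) :
    (∑ x ∈ A, ex (bph α u (mono k x))) ^ s = ∑ x ∈ tup s A, ex (bph α u (mom k x)) := by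
  rw [Finset.sum_pow']
  unfold tup
  refine sum_congr rfl (fun x _ => ?_)
  rw [mom_eq_sum_mono, bph_sum, ex_sum]

lemma norm_pow_esum {k : ℕ} (α : Fin k → ℝ) (u : Fin k → ℤ) (A : Finset ℤ) (s : ℕ) :
    ((‖∑ x ∈ A, ex (bph α u (mono k x))‖ ^ (2 * s) : ℝ) : ℂ) =
      ∑ z ∈ tup s A ×ˢ tup s A, ex (bph α u (mom k z.1 - mom k z.2)) := by
  have h : ((‖∑ x ∈ A, ex (bph α u (mono k x))‖ ^ (2 * s) : ℝ) : ℂ) =
      (∑ x ∈ A, ex (bph α u (mono k x))) ^ s *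
        (starRingEnd ℂ) ((∑ x ∈ A, ex (bph α u (mono k x))) ^ s) := by
    rw [Complex.mul_conj', norm_pow]
    push_cast
    rw [← pow_mul, mul_comm 2 s]
  rw [h, pow_esum, map_sum, sum_mul_sum, sum_product]
  refine sum_congr rfl (fun x _ => sum_congr rfl (fun y _ => ?_))
  rw [bph_sub, sub_eq_add_neg, ex_add, ex_neg]

lemma sum_Icc_cast {M : Type} [AddCommMonoid M] (X : ℕ) (f : ℤ → M) :
    ∑ x ∈ Icc 1 X, f (x : ℤ) = ∑ x ∈ ivl X, f x := by
  unfold ivl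
  have h : Icc (1 : ℤ) (X : ℤ) = (Icc 1 X).image (fun n : ℕ => (n : ℤ)) := by
    ext x
    simp only [mem_Icc, mem_image]
    constructor
    · rintro ⟨h1, h2⟩
      exact ⟨x.toNat, ⟨by omega, by omega⟩, by omega⟩
    · rintro ⟨n, ⟨h1, h2⟩, rfl⟩
      exact ⟨by omega, by omega⟩
  rw [h, sum_image]
  intro a _ b _ hab
  simpa using hab

/-- Geometric sum over a symmetric interval. -/
lemma geom_symm (N : ℕ) (β : ℝ) :
    ‖∑ v ∈ Icc (-(N : ℤ)) (N : ℤ), ex (β * v)‖ ≤ mn (2 * N + 1) β := by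
  have h : ∑ v ∈ Icc (-(N : ℤ)) (N : ℤ), ex (β * v) =
      ex (-(β * (N + 1))) * ∑ n ∈ Icc 1 (2 * N + 1), ex (n * β) := by
    have h2 : Icc (-(N : ℤ)) (N : ℤ) = (Icc 1 (2 * N + 1)).image (fun n : ℕ => (n : ℤ) - (N + 1)) := by
      ext x
      simp only [mem_Icc, mem_image]
      constructor
      · rintro ⟨h1, h2⟩
        exact ⟨(x + (N + 1)).toNat, ⟨by omega, by omega⟩, by omega⟩
      · rintro ⟨n, ⟨h1, h2⟩, rfl⟩
        exact ⟨by omega, by omega⟩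
    rw [h2, sum_image, mul_sum]
    · refine sum_congr rfl (fun n _ => ?_)
      rw [← ex_add]
      congr 1
      push_cast
      ring
    · intro a _ b _ hab
      simp only at hab
      omega
  rw [h, norm_mul, norm_ex, one_mul]
  have := geom (2 * N + 1) β
  push_cast at this
  exact this

theorem bilin (k s X : ℕ) (hs : 1 ≤ s) (hX : 1 ≤ X) (α : Fin k → ℝ) :
    ‖∑ x ∈ Icc 1 X, ∑ y ∈ Icc 1 X, ex (∑ j : Fin k, α j * ((x : ℝ) ^ (j.val + 1) * (y : ℝ) ^ (j.val + 1)))‖ ^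
        (4 * s ^ 2) ≤
      (X : ℝ) ^ (8 * s ^ 2 - 4 * s) * (J s k X : ℝ) ^ 2 *
        ∏ j : Fin k, ∑ w ∈ Icc (-((s * X ^ (j.val + 1) : ℕ) : ℤ)) ((s * X ^ (j.val + 1) : ℕ) : ℤ),
          mn (2 * (s * X ^ (j.val + 1) : ℕ) + 1) (α j * w) := by
  classical
  have hX0 : (0 : ℝ) < X := by exact_mod_cast hX
  set A := ivl X with hA
  have hAc : A.card = X := card_ivl X
  set B := tup s A ×ˢ tup s A with hB
  have hBc : B.card = X ^ (2 * s) := by
    rw [hB, card_product, card_tup, hAc, ← pow_add]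
    congr 1
    ring
  set φ : (Fin s → ℤ) × (Fin s → ℤ) → Fin k → ℤ := fun z => mom k z.1 - mom k z.2 with hφ
  set T : (Fin k → ℤ) → ℂ := fun v => ∑ y ∈ A, ex (bph α v (mono k y)) with hT
  set N : Fin k → ℕ := fun j => s * X ^ (j.val + 1) with hN
  set Bx : Finset (Fin k → ℤ) := Fintype.piFinset (fun j => Icc (-(N j : ℤ)) (N j : ℤ)) with hBx
  set R : (Fin k → ℤ) → ℕ := fun v => (B.filter (fun z => φ z = v)).card with hR
  -- the values of `φ` are in the box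
  have hbox : ∀ z ∈ B, φ z ∈ Bx := by
    intro z hz
    rw [hBx, Fintype.mem_piFinset]
    intro j
    rw [hB, mem_product, mem_tup, mem_tup] at hz
    have hb : ∀ x : Fin s → ℤ, (∀ i, x i ∈ A) → 0 ≤ mom k x j ∧ mom k x j ≤ N j := by
      intro x hx
      constructor
      · exact sum_nonneg (fun i _ => pow_nonneg (by have := (mem_ivl.mp (hx i)).1; omega) _)
      · have : mom k x j ≤ ∑ i : Fin s, (X : ℤ) ^ (j.val + 1) := by
          refine sum_le_sum (fun i _ => ?_)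
          have := mem_ivl.mp (hx i)
          exact pow_le_pow_left₀ (by omega) this.2 _
        rw [sum_const, card_univ, Fintype.card_fin, nsmul_eq_mul] at this
        rw [hN]
        push_cast
        exact this
    have h1 := hb z.1 hz.1
    have h2 := hb z.2 hz.2
    rw [mem_Icc]
    have h3 : φ z j = mom k z.1 j - mom k z.2 j := rfl
    rw [h3]
    constructor <;> omega
  -- sums over `B` of functions of `φ`
  have hfib : ∀ f : (Fin k → ℤ) → ℝ, ∑ z ∈ B, f (φ z) = ∑ v ∈ Bx, (R v : ℝ) * f v := by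
    intro f
    rw [← sum_fiberwise_of_maps_to hbox]
    refine sum_congr rfl (fun v _ => ?_)
    have : ∑ z ∈ B.filter (fun z => φ z = v), f (φ z) = ∑ z ∈ B.filter (fun z => φ z = v), f v :=
      sum_congr rfl (fun z hz => by rw [(mem_filter.mp hz).2])
    rw [this, sum_const, nsmul_eq_mul]
  -- `R v ≤ J`
  have hRJ : ∀ v, R v ≤ J s k X := by
    intro v
    have h1 := pr_shift k (tup s A) (mom k) v
    have h2 : pr k (tup s A) (mom k) (tup s A) (mom k) = J s k X := rfl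
    rw [h2] at h1
    have h5 : B.filter (fun z => φ z = v) =
        (tup s A ×ˢ tup s A).filter (fun z => mom k z.1 = mom k z.2 + v) := by
      ext z
      rw [mem_filter, mem_filter]
      simp only [hφ]
      constructor
      · rintro ⟨h3, h4⟩
        exact ⟨h3, by rw [← h4]; abel⟩
      · rintro ⟨h3, h4⟩
        exact ⟨h3, by rw [h4]; abel⟩
    rw [hR]
    simp only
    rw [h5]
    exact h1
  have hRsum : ∑ v ∈ Bx, (R v : ℝ) = (X : ℝ) ^ (2 * s) := by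
    have := hfib (fun _ => 1)
    simp only [sum_const, nsmul_eq_mul, mul_one] at this
    rw [← this, hBc]
    push_cast
    rfl
  have hR2 : ∑ v ∈ Bx, (R v : ℝ) ^ 2 ≤ (X : ℝ) ^ (2 * s) * (J s k X : ℝ) := by
    rw [← hRsum, sum_mul]
    refine sum_le_sum (fun v _ => ?_)
    rw [sq]
    exact mul_le_mul_of_nonneg_left (by exact_mod_cast hRJ v) (Nat.cast_nonneg _)
  -- the second moment of `T`
  have hT2 : ∑ v ∈ Bx, ‖T v‖ ^ (2 * s) ≤ (J s k X : ℝ) *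
      ∏ j : Fin k, ∑ w ∈ Icc (-(N j : ℤ)) (N j : ℤ), mn (2 * (N j : ℝ) + 1) (α j * w) := by
    have h1 : ((∑ v ∈ Bx, ‖T v‖ ^ (2 * s) : ℝ) : ℂ) =
        ∑ z ∈ B, ∏ j : Fin k, ∑ v ∈ Icc (-(N j : ℤ)) (N j : ℤ), ex (α j * (φ z j) * v) := by
      push_cast
      have h2 : ∀ v ∈ Bx, ((‖T v‖ : ℂ)) ^ (2 * s) = ∑ z ∈ B, ∏ j : Fin k, ex (α j * (φ z j) * v j) := by
        intro v _
        have h3 := norm_pow_esum α v A s
        push_cast at h3
        rw [hT]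
        simp only
        rw [h3]
        refine sum_congr rfl (fun z _ => ?_)
        rw [← ex_sum]
        congr 1
        unfold bph
        refine sum_congr rfl (fun j _ => ?_)
        simp only [hφ]
        ring
      rw [sum_congr rfl h2, sum_comm]
      refine sum_congr rfl (fun z _ => ?_)
      rw [hBx, Finset.prod_univ_sum]
    have h2 : ∑ v ∈ Bx, ‖T v‖ ^ (2 * s) =
        ‖((∑ v ∈ Bx, ‖T v‖ ^ (2 * s) : ℝ) : ℂ)‖ := by
      rw [Complex.norm_real, Real.norm_eq_abs, abs_of_nonneg]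
      exact sum_nonneg (fun v _ => pow_nonneg (norm_nonneg _) _)
    rw [h2, h1]
    refine (norm_sum_le _ _).trans ?_
    have h3 : ∀ z ∈ B, ‖∏ j : Fin k, ∑ v ∈ Icc (-(N j : ℤ)) (N j : ℤ), ex (α j * (φ z j) * v)‖ ≤
        ∏ j : Fin k, mn (2 * (N j : ℝ) + 1) (α j * (φ z j)) := by
      intro z _
      rw [norm_prod]
      exact prod_le_prod (fun j _ => norm_nonneg _) (fun j _ => geom_symm (N j) _)
    refine (sum_le_sum h3).trans ?_
    rw [hfib (fun v => ∏ j : Fin k, mn (2 * (N j : ℝ) + 1) (α j * (v j)))]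
    rw [Finset.prod_univ_sum, mul_sum]
    refine sum_le_sum (fun v _ => ?_)
    refine mul_le_mul_of_nonneg_right (by exact_mod_cast hRJ v) ?_
    exact prod_nonneg (fun j _ => mn_nonneg (by positivity) _)
  -- the double sum
  set U := ∑ x ∈ Icc 1 X, ∑ y ∈ Icc 1 X,
    ex (∑ j : Fin k, α j * ((x : ℝ) ^ (j.val + 1) * (y : ℝ) ^ (j.val + 1))) with hU
  have hU1 : U = ∑ y ∈ A, T (mono k y) := by
    rw [hU, hA, ← sum_Icc_cast]
    refine sum_congr rfl (fun y _ => ?_)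
    rw [hT]
    simp only
    rw [hA, ← sum_Icc_cast]
    refine sum_congr rfl (fun x _ => ?_)
    congr 1
    unfold bph mono
    refine sum_congr rfl (fun j _ => ?_)
    push_cast
    ring
  have hU2 : ‖U‖ ^ (2 * s) ≤ (X : ℝ) ^ (2 * s - 1) * ∑ z ∈ B, ‖T (φ z)‖ := by
    have h1 : ‖U‖ ≤ ∑ y ∈ A, ‖T (mono k y)‖ := by
      rw [hU1]
      exact norm_sum_le _ _
    have h2 := pow_sum_le_card_mul_sum_pow (s := A) (f := fun y => ‖T (mono k y)‖)
      (fun y _ => norm_nonneg _) (2 * s - 1)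
    have h3 : 2 * s - 1 + 1 = 2 * s := by omega
    rw [h3, hAc] at h2
    have h4 : ∑ y ∈ A, ‖T (mono k y)‖ ^ (2 * s) ≤ ∑ z ∈ B, ‖T (φ z)‖ := by
      have h5 : ((∑ y ∈ A, ‖T (mono k y)‖ ^ (2 * s) : ℝ) : ℂ) = ∑ z ∈ B, T (φ z) := by
        push_cast
        have h6 : ∀ y ∈ A, ((‖T (mono k y)‖ : ℂ)) ^ (2 * s) =
            ∑ z ∈ B, ex (bph α (φ z) (mono k y)) := by
          intro y _
          have h7 := norm_pow_esum α (mono k y) A s
          push_cast at h7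
          rw [hT]
          simp only
          rw [h7]
          refine sum_congr rfl (fun z _ => ?_)
          rw [bph_comm]
        rw [sum_congr rfl h6, sum_comm]
      have h8 : ∑ y ∈ A, ‖T (mono k y)‖ ^ (2 * s) =
          ‖((∑ y ∈ A, ‖T (mono k y)‖ ^ (2 * s) : ℝ) : ℂ)‖ := by
        rw [Complex.norm_real, Real.norm_eq_abs, abs_of_nonneg]
        exact sum_nonneg (fun v _ => pow_nonneg (norm_nonneg _) _)
      rw [h8, h5]
      exact norm_sum_le _ _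
    calc ‖U‖ ^ (2 * s) ≤ (∑ y ∈ A, ‖T (mono k y)‖) ^ (2 * s) :=
          pow_le_pow_left₀ (norm_nonneg _) h1 _
      _ ≤ (X : ℝ) ^ (2 * s - 1) * ∑ y ∈ A, ‖T (mono k y)‖ ^ (2 * s) := h2
      _ ≤ _ := mul_le_mul_of_nonneg_left h4 (by positivity)
  have hW : (∑ z ∈ B, ‖T (φ z)‖) ^ (2 * s) ≤ (X : ℝ) ^ (2 * s * (s - 1)) *
      (X : ℝ) ^ (2 * s * (s - 1)) * (((X : ℝ) ^ (2 * s) * (J s k X : ℝ)) * ((J s k X : ℝ) *
      ∏ j : Fin k, ∑ w ∈ Icc (-(N j : ℤ)) (N j : ℤ), mn (2 * (N j : ℝ) + 1) (α j * w))) := by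
    have h2 := pow_sum_le_card_mul_sum_pow (s := B) (f := fun z => ‖T (φ z)‖)
      (fun y _ => norm_nonneg _) (s - 1)
    have h3 : s - 1 + 1 = s := by omega
    rw [h3, hBc] at h2
    push_cast at h2
    rw [← pow_mul] at h2
    have h4 : (∑ z ∈ B, ‖T (φ z)‖ ^ s) ^ 2 ≤ (∑ v ∈ Bx, (R v : ℝ) ^ 2) * ∑ v ∈ Bx, ‖T v‖ ^ (2 * s) := by
      rw [hfib (fun v => ‖T v‖ ^ s)]
      have h5 := Finset.sum_mul_sq_le_sq_mul_sq Bx (fun v => (R v : ℝ)) (fun v => ‖T v‖ ^ s)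
      refine h5.trans (le_of_eq ?_)
      congr 1
      refine sum_congr rfl (fun v _ => ?_)
      rw [← pow_mul, mul_comm s 2]
    have h6 : (∑ z ∈ B, ‖T (φ z)‖) ^ (2 * s) = ((∑ z ∈ B, ‖T (φ z)‖) ^ s) ^ 2 := by
      rw [← pow_mul, mul_comm s 2]
    rw [h6]
    have h7 : 0 ≤ ∑ z ∈ B, ‖T (φ z)‖ := sum_nonneg (fun z _ => norm_nonneg _)
    calc ((∑ z ∈ B, ‖T (φ z)‖) ^ s) ^ 2
        ≤ ((X : ℝ) ^ (2 * s * (s - 1)) * ∑ z ∈ B, ‖T (φ z)‖ ^ s) ^ 2 :=
          pow_le_pow_left₀ (pow_nonneg h7 _) h2 _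
      _ = (X : ℝ) ^ (2 * s * (s - 1)) * (X : ℝ) ^ (2 * s * (s - 1)) * (∑ z ∈ B, ‖T (φ z)‖ ^ s) ^ 2 := by
          ring
      _ ≤ _ := by
          refine mul_le_mul_of_nonneg_left (h4.trans ?_) (by positivity)
          exact mul_le_mul hR2 hT2 (sum_nonneg (fun v _ => pow_nonneg (norm_nonneg _) _))
            (by positivity)
  have hfin : ‖U‖ ^ (4 * s ^ 2) = (‖U‖ ^ (2 * s)) ^ (2 * s) := by
    rw [← pow_mul]
    congr 1
    ring
  have hS0 : 0 ≤ ∑ z ∈ B, ‖T (φ z)‖ := sum_nonneg (fun z _ => norm_nonneg _)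
  rw [hfin]
  calc (‖U‖ ^ (2 * s)) ^ (2 * s) ≤ ((X : ℝ) ^ (2 * s - 1) * ∑ z ∈ B, ‖T (φ z)‖) ^ (2 * s) :=
        pow_le_pow_left₀ (by positivity) hU2 _
    _ = ((X : ℝ) ^ (2 * s - 1)) ^ (2 * s) * (∑ z ∈ B, ‖T (φ z)‖) ^ (2 * s) := mul_pow _ _ _
    _ ≤ ((X : ℝ) ^ (2 * s - 1)) ^ (2 * s) * ((X : ℝ) ^ (2 * s * (s - 1)) *
      (X : ℝ) ^ (2 * s * (s - 1)) * (((X : ℝ) ^ (2 * s) * (J s k X : ℝ)) * ((J s k X : ℝ) *
      ∏ j : Fin k, ∑ w ∈ Icc (-(N j : ℤ)) (N j : ℤ), mn (2 * (N j : ℝ) + 1) (α j * w)))) :=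
        mul_le_mul_of_nonneg_left hW (by positivity)
    _ = (((X : ℝ) ^ (2 * s - 1)) ^ (2 * s) * ((X : ℝ) ^ (2 * s * (s - 1)) *
      (X : ℝ) ^ (2 * s * (s - 1)) * (X : ℝ) ^ (2 * s))) * (J s k X : ℝ) ^ 2 *
      ∏ j : Fin k, ∑ w ∈ Icc (-(N j : ℤ)) (N j : ℤ), mn (2 * (N j : ℝ) + 1) (α j * w) := by
        ring
    _ = _ := by
        congr 2
        rw [← pow_mul, ← pow_add, ← pow_add, ← pow_add]
        congr 1
        obtain ⟨t, rfl⟩ : ∃ t, s = t + 1 := ⟨s - 1, by omega⟩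
        have e1 : 2 * (t + 1) - 1 = 2 * t + 1 := by omega
        have e2 : t + 1 - 1 = t := by omega
        rw [e1, e2]
        have e3 : 4 * (t + 1) ≤ 8 * (t + 1) ^ 2 := by nlinarith
        zify [e3]
        ring

end Pool.Agent.VK
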