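import Mathlib

/-!
# Vinogradov's mean value theorem: definitions

`mom k x` is the vector of the power sums of degrees `1, ..., k` of the tuple `x`; `vin s k A` is the number
of solutions of `sum x_i ^ j = sum y_i ^ j` (`1 <= j <= k`) with `x, y` in `A ^ s`. The twisted version `cnt`
counts the solutions of `φ x + mom u = φ y + mom v` with `x, y` in a finite set `S` and `u, v` in `A ^ s`.
-/

set_option autoImplicit false

open Finset

namespace Pool.Agent.VK

/-- The power sums of degrees `1, ..., k`. -/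
def mom {ι : Type} [Fintype ι] (k : ℕ) (x : ι → ℤ) : Fin k → ℤ := fun j => ∑ i, x i ^ (j.val + 1)

/-- The `s`-tuples of elements of `A`. -/
def tup (s : ℕ) (A : Finset ℤ) : Finset (Fin s → ℤ) := Fintype.piFinset (fun _ : Fin s => A)

/-- Number of solutions of the Vinogradov system of degree `k` in `2 s` variables from `A`. -/
def vin (s k : ℕ) (A : Finset ℤ) : ℕ :=
  ((tup s A ×ˢ tup s A).filter (fun z => mom k z.1 = mom k z.2)).card

/-- Number of `(x, u), (y, v)` in `S × A ^ s` with `φ x + mom u = φ y + mom v`. -/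
def cnt {ι : Type} (k : ℕ) (S : Finset ι) (φ : ι → Fin k → ℤ) (s : ℕ) (A : Finset ℤ) : ℕ :=
  (((S ×ˢ tup s A) ×ˢ (S ×ˢ tup s A)).filter
    (fun z => φ z.1.1 + mom k z.1.2 = φ z.2.1 + mom k z.2.2)).card

/-- Number of pairs `(x, y)` in `S × T` with `φ x = ψ y`. -/
def pr {ι κ : Type} (k : ℕ) (S : Finset ι) (φ : ι → Fin k → ℤ) (T : Finset κ) (ψ : κ → Fin k → ℤ) : ℕ :=
  ((S ×ˢ T).filter (fun z => φ z.1 = ψ z.2)).card

/-- The integers `1, ..., X`. -/
noncomputable def ivl (X : ℕ) : Finset ℤ := Finset.Icc 1 (X : ℤ)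

/-- `J s k X`: solutions of the Vinogradov system with variables in `{1, ..., X}`. -/
noncomputable def J (s k X : ℕ) : ℕ := vin s k (ivl X)

/-- The elements of `A` congruent to `c` modulo `p`. -/
def cls (p : ℕ) (c : ZMod p) (A : Finset ℤ) : Finset ℤ := A.filter (fun x => (x : ZMod p) = c)

/-- Tuples of elements of `A`, pairwise incongruent modulo `p`. -/
def dtup (k p : ℕ) (A : Finset ℤ) : Finset (Fin k → ℤ) :=
  (tup k A).filter (fun x => Function.Injective (fun i => (x i : ZMod p)))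

lemma mem_tup {s : ℕ} {A : Finset ℤ} {x : Fin s → ℤ} : x ∈ tup s A ↔ ∀ i, x i ∈ A := by
  unfold tup
  rw [Fintype.mem_piFinset]

lemma card_tup (s : ℕ) (A : Finset ℤ) : (tup s A).card = A.card ^ s := by
  unfold tup
  rw [Fintype.card_piFinset]
  simp

lemma card_ivl (X : ℕ) : (ivl X).card = X := by
  unfold ivl
  simp

lemma mem_ivl {X : ℕ} {x : ℤ} : x ∈ ivl X ↔ 1 ≤ x ∧ x ≤ X := by
  unfold ivl
  rw [Finset.mem_Icc]

end Pool.Agent.VK
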