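import Pool.Agent.Lib.VK.Block
import Pool.Agent.Lib.VK.TypeOne
import Pool.Agent.Lib.VK.Prime
import Pool.Agent.Lib.BV.Vaughan
import Pool.Agent.Lib.HL.PntAux
import Pool.Agent.Lib.HLT.FinalPoly
import Pool.Agent.Lib.HLU.Base

/-!
# Mean squares of `sum Λ(n) χ(n) n^(-it)`

PROOF SKETCH. We may assume `ε ≤ 1/4`. `L = log X`. Vaughan's identity (`BV.vaughan U V`) with `U = ⌈X^(ε/8)⌉₊`, `V = ⌈X^(1/2 - ε/2)⌉₊`, for `n > X ≥ U`:
`Λ = - (LU U * muV V) * ζ + muV V * log + alphaU U * betaV V`, times `χ(n) n^(-it)` (`χ` is multiplicative, `nit (m n) = nit m nit n`).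
Type I parts: `type_one` with `D = U V ≤ 4 X^(1/2 - 3ε/8)` (coefficients `LU U * muV V`: at most `log`, as `sum_(ab = d) Λ(a) = log d`; zero for `d > U V`,
`BV.LU_mul_muV_apply_of_gt`; `muV`: at most `1`), `4 q |v| D ≤ X` as `|v| ≤ X^(1/2-ε)`: bound `C X L^4/|t|`, the integral of the square over `|t| ≥ L^B` is
`≤ C X^2 L^8/L^B`.
Type II part: `block_bilin` with `a m = betaV V m χ(m)` (zero for `m ≤ V`, so its `U` is our `V`), `b n = alphaU U n χ(n)`, `T = t1 - t0 ≤ 2 X^(1/2-ε) ≤ V`, and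
`J = ⌈L^(4A+100)⌉₊`. The hypothesis: for `y ≤ U` the sum is zero; for `U < y ≤ 3X/V` it is `sum_(n ≤ y) - sum_(n ≤ U)` of `lam (chf χ) n n^(-it)`, and `vk_prime A' C0` with
`C0 = ⌈8/ε⌉₊`, `N = y` and `N = U` (both `≥ X^(ε/8)`, so `log N ≥ (ε/8) L` and `|t| ≤ X ≤ N^C0`, `q ≤ L^A ≤ (log N)^A'`, `(log N)^B' ≤ L^B' ≤ |t|`) gives
`D = 2 (8/ε)^A' L^(-A')` with `A' = 2 (4A + 100) + A + 50`: then `J^2 D^2 ≤ L^(-A-30)·const` and `1/√J ≤ L^(-2A-50)`. (`vk_prime` holds for `N` large, so for `X` large.)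
-/

set_option autoImplicit false

open Finset Filter MeasureTheory Pool.Agent.Lib.SW

namespace Pool.Agent.VK

namespace DPAux

open Pool.Agent.Lib.BV

lemma continuous_nit {n : ℕ} (hn : 1 ≤ n) : Continuous fun t : ℝ => nit n t := by
  unfold nit
  have hn0 : ((n : ℝ) : ℂ) ≠ 0 := by
    have : n ≠ 0 := by omega
    exact_mod_cast this
  exact Continuous.const_cpow (by fun_prop) (Or.inl hn0)

/-- first type I sum -/
noncomputable def S1 {q : ℕ} (χ : DirichletCharacter ℂ q) (X U V : ℕ) (t : ℝ) : ℂ :=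
  ∑ k ∈ Ioc X (3 * X), ((∑ p ∈ k.divisorsAntidiagonal, (LU U * muV V) p.1 : ℝ) : ℂ) *
    (χ (k : ZMod q) * nit k t)

/-- second type I sum -/
noncomputable def S2 {q : ℕ} (χ : DirichletCharacter ℂ q) (X V : ℕ) (t : ℝ) : ℂ :=
  ∑ k ∈ Ioc X (3 * X), ((∑ p ∈ k.divisorsAntidiagonal, muV V p.1 * Real.log p.2 : ℝ) : ℂ) *
    (χ (k : ZMod q) * nit k t)

/-- coefficients -/
noncomputable def ca {q : ℕ} (χ : DirichletCharacter ℂ q) (V m : ℕ) : ℂ :=
  ((betaV V m : ℝ) : ℂ) * χ (m : ZMod q)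

/-- coefficients -/
noncomputable def cb {q : ℕ} (χ : DirichletCharacter ℂ q) (U n : ℕ) : ℂ :=
  ((alphaU U n : ℝ) : ℂ) * χ (n : ZMod q)

/-- type II sum -/
noncomputable def S3 {q : ℕ} (χ : DirichletCharacter ℂ q) (X U V : ℕ) (t : ℝ) : ℂ :=
  ∑ k ∈ Ioc X (3 * X), (∑ p ∈ k.divisorsAntidiagonal, ca χ V p.1 * cb χ U p.2) * nit k t

lemma zeta_sum (f : ArithmeticFunction ℝ) (k : ℕ) :
    (f * (ArithmeticFunction.zeta : ArithmeticFunction ℝ)) k =
      ∑ p ∈ k.divisorsAntidiagonal, f p.1 := by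
  rw [ArithmeticFunction.mul_apply]
  refine Finset.sum_congr rfl fun p hp => ?_
  have h1 := Nat.mem_divisorsAntidiagonal.1 hp
  have h2 : p.2 ≠ 0 := by
    intro h
    rw [h, mul_zero] at h1
    exact h1.2 h1.1.symm
  rw [ArithmeticFunction.natCoe_apply, ArithmeticFunction.zeta_apply_ne h2]
  simp

lemma decomp {q : ℕ} (χ : DirichletCharacter ℂ q) {X U V : ℕ} (hU : U ≤ X) (t : ℝ) :
    ∑ n ∈ Ioc X (3 * X), lam (chf χ) n * nit n t = -S1 χ X U V t + S2 χ X V t + S3 χ X U V t := by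
  unfold S1 S2 S3
  rw [← Finset.sum_neg_distrib, ← Finset.sum_add_distrib, ← Finset.sum_add_distrib]
  refine Finset.sum_congr rfl fun k hk => ?_
  have hkX : X < k := (Finset.mem_Ioc.1 hk).1
  have h1 : ArithmeticFunction.vonMangoldt k =
      -(∑ p ∈ k.divisorsAntidiagonal, (LU U * muV V) p.1) +
      (∑ p ∈ k.divisorsAntidiagonal, muV V p.1 * Real.log p.2) +
      ∑ p ∈ k.divisorsAntidiagonal, betaV V p.1 * alphaU U p.2 := by
    have h2 := congrArg (fun f : ArithmeticFunction ℝ => f k) (vaughan U V)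
    have hs : ∀ f g : ArithmeticFunction ℝ, (f - g) k = f k - g k := fun _ _ => rfl
    simp only [ArithmeticFunction.add_apply, hs] at h2
    rw [h2, zeta_sum, vau_LU_apply, if_neg (by omega), mul_comm (alphaU U) (betaV V),
      ArithmeticFunction.mul_apply, ArithmeticFunction.mul_apply]
    simp only [ArithmeticFunction.log_apply]
    ring
  have h3 : ∑ p ∈ k.divisorsAntidiagonal, ca χ V p.1 * cb χ U p.2 =
      ((∑ p ∈ k.divisorsAntidiagonal, betaV V p.1 * alphaU U p.2 : ℝ) : ℂ) * χ (k : ZMod q) := by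
    rw [Complex.ofReal_sum, Finset.sum_mul]
    refine Finset.sum_congr rfl fun p hp => ?_
    have h4 : ((k : ℕ) : ZMod q) = (p.1 : ZMod q) * (p.2 : ZMod q) := by
      rw [← (Nat.mem_divisorsAntidiagonal.1 hp).1]
      push_cast
      rfl
    rw [h4, map_mul]
    unfold ca cb
    push_cast
    ring
  rw [h3]
  unfold lam chf
  rw [h1]
  push_cast
  ring

lemma norm_cb_le {q : ℕ} (χ : DirichletCharacter ℂ q) (U n : ℕ) :
    ‖cb χ U n‖ ≤ ArithmeticFunction.vonMangoldt n := by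
  unfold cb
  rw [norm_mul, Complex.norm_real, Real.norm_eq_abs]
  have h1 : |alphaU U n| ≤ ArithmeticFunction.vonMangoldt n := by
    rw [vau_alphaU_apply, vau_LU_apply]
    split_ifs
    · rw [sub_self, abs_zero]
      exact ArithmeticFunction.vonMangoldt_nonneg
    · rw [sub_zero, abs_of_nonneg ArithmeticFunction.vonMangoldt_nonneg]
  calc |alphaU U n| * ‖χ (n : ZMod q)‖ ≤ ArithmeticFunction.vonMangoldt n * 1 :=
        mul_le_mul h1 (χ.norm_le_one _) (norm_nonneg _) ArithmeticFunction.vonMangoldt_nonneg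
    _ = _ := mul_one _

lemma norm_ca_le {q : ℕ} (χ : DirichletCharacter ℂ q) {V : ℕ} (hV : 1 ≤ V) (n : ℕ) :
    ‖ca χ V n‖ ≤ (n.divisors.card : ℝ) := by
  unfold ca
  rw [norm_mul, Complex.norm_real, Real.norm_eq_abs]
  calc |betaV V n| * ‖χ (n : ZMod q)‖ ≤ (n.divisors.card : ℝ) * 1 :=
        mul_le_mul (betaV_abs_le hV n) (χ.norm_le_one _) (norm_nonneg _) (Nat.cast_nonneg _)
    _ = _ := mul_one _

lemma ca_eq_zero {q : ℕ} (χ : DirichletCharacter ℂ q) {V : ℕ} (hV : 1 ≤ V) {m : ℕ} (hm : m ≤ V) :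
    ca χ V m = 0 := by
  unfold ca
  rw [betaV_apply_of_le hV hm]
  simp

/-- the sums of `cb` are differences of sums over primes -/
lemma sum_cb {q : ℕ} (χ : DirichletCharacter ℂ q) (U y : ℕ) (t : ℝ) :
    ∑ n ∈ Icc 1 y, cb χ U n * nit n t = if y ≤ U then 0 else
      ∑ n ∈ Icc 1 y, lam (chf χ) n * nit n t - ∑ n ∈ Icc 1 U, lam (chf χ) n * nit n t := by
  split_ifs with h
  · refine Finset.sum_eq_zero fun n hn => ?_
    unfold cb
    rw [alphaU_apply_of_le ((Finset.mem_Icc.1 hn).2.trans h)]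
    simp
  · push Not at h
    have h1 : ∑ n ∈ Icc 1 U, lam (chf χ) n * nit n t =
        ∑ n ∈ Icc 1 y, if n ≤ U then lam (chf χ) n * nit n t else 0 := by
      rw [← Finset.sum_filter]
      refine Finset.sum_congr ?_ fun _ _ => rfl
      ext n
      simp only [Finset.mem_Icc, Finset.mem_filter]
      omega
    rw [h1, ← Finset.sum_sub_distrib]
    refine Finset.sum_congr rfl fun n _ => ?_
    unfold cb
    by_cases hn : n ≤ U
    · rw [alphaU_apply_of_le hn, if_pos hn]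
      simp
    · rw [if_neg hn, vau_alphaU_apply, vau_LU_apply, if_neg hn, sub_zero, sub_zero]
      unfold lam chf
      ring

lemma abs_c1_le (U V X d : ℕ) (hUV : U * V ≤ X) : |(LU U * muV V) d| ≤ Real.log (X + 3) := by
  rcases Nat.lt_or_ge (U * V) d with h | h
  · rw [LU_mul_muV_apply_of_gt h, abs_zero]
    exact Real.log_nonneg (by linarith [(Nat.cast_nonneg X : (0 : ℝ) ≤ X)])
  · have h1 : |(LU U * muV V) d| ≤ Real.log d := by
      have h2 := congrArg (fun f : ArithmeticFunction ℝ => f d) ArithmeticFunction.vonMangoldt_mul_zeta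
      simp only [ArithmeticFunction.log_apply] at h2
      rw [zeta_sum] at h2
      rw [← h2, ArithmeticFunction.mul_apply]
      refine (Finset.abs_sum_le_sum_abs _ _).trans (Finset.sum_le_sum fun p _ => ?_)
      rw [abs_mul]
      have h3 : |LU U p.1| ≤ ArithmeticFunction.vonMangoldt p.1 := by
        rw [vau_LU_apply]
        split_ifs
        · rw [abs_of_nonneg ArithmeticFunction.vonMangoldt_nonneg]
        · rw [abs_zero]
          exact ArithmeticFunction.vonMangoldt_nonneg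
      calc |LU U p.1| * |muV V p.2| ≤ ArithmeticFunction.vonMangoldt p.1 * 1 :=
            mul_le_mul h3 (vau_muV_abs_le V p.2) (abs_nonneg _) ArithmeticFunction.vonMangoldt_nonneg
        _ = _ := mul_one _
    refine h1.trans ?_
    rcases Nat.eq_zero_or_pos d with h0 | h0
    · rw [h0]
      simp only [Nat.cast_zero, Real.log_zero]
      exact Real.log_nonneg (by linarith [(Nat.cast_nonneg X : (0 : ℝ) ≤ X)])
    · have h4 : (d : ℝ) ≤ X := by exact_mod_cast h.trans hUV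
      exact Real.log_le_log (by exact_mod_cast h0) (by linarith)

lemma integral_inv_sq {t0 t1 W : ℝ} (h01 : t0 ≤ t1) (hW : 0 < W)
    (ht : ∀ t : ℝ, t0 ≤ t → t ≤ t1 → W ≤ |t|) : ∫ t in t0..t1, t ^ (-2 : ℤ) ≤ 2 / W := by
  have h0 : (0 : ℝ) ∉ Set.uIcc t0 t1 := by
    rw [Set.uIcc_of_le h01]
    intro h
    have := ht 0 h.1 h.2
    rw [abs_zero] at this
    linarith
  rw [integral_zpow (Or.inr ⟨by norm_num, h0⟩)]
  norm_num
  have h1 : |t0⁻¹| ≤ 1 / W := by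
    rw [abs_inv, one_div]
    exact inv_anti₀ hW (ht t0 le_rfl h01)
  have h2 : |t1⁻¹| ≤ 1 / W := by
    rw [abs_inv, one_div]
    exact inv_anti₀ hW (ht t1 h01 le_rfl)
  have h3 := le_abs_self (t0⁻¹)
  have h4 := neg_abs_le (t1⁻¹)
  have h5 : 2 / W = 1 / W + 1 / W := by ring
  linarith

lemma continuous_S3 {q : ℕ} (χ : DirichletCharacter ℂ q) (X U V : ℕ) :
    Continuous fun t => S3 χ X U V t := by
  unfold S3
  refine continuous_finsetSum _ fun k hk => ?_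
  have hk1 : 1 ≤ k := by
    have := (Finset.mem_Ioc.1 hk).1
    omega
  exact continuous_const.mul (continuous_nit hk1)

lemma continuous_S {q : ℕ} (χ : DirichletCharacter ℂ q) (X : ℕ) :
    Continuous fun t => ∑ n ∈ Ioc X (3 * X), lam (chf χ) n * nit n t := by
  refine continuous_finsetSum _ fun k hk => ?_
  have hk1 : 1 ≤ k := by
    have := (Finset.mem_Ioc.1 hk).1
    omega
  exact continuous_const.mul (continuous_nit hk1)

lemma sq_three (a b c : ℂ) {K : ℝ} (ha : ‖a‖ ≤ K) (hb : ‖b‖ ≤ K) :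
    ‖-a + b + c‖ ^ 2 ≤ 6 * K ^ 2 + 3 * ‖c‖ ^ 2 := by
  have h1 : ‖-a + b + c‖ ≤ ‖a‖ + ‖b‖ + ‖c‖ := by
    refine (norm_add_le _ _).trans ?_
    have := norm_add_le (-a) b
    rw [norm_neg] at this
    linarith
  have h2 : ‖-a + b + c‖ ^ 2 ≤ (‖a‖ + ‖b‖ + ‖c‖) ^ 2 := pow_le_pow_left₀ (norm_nonneg _) h1 2
  have ha0 := norm_nonneg a
  have hb0 := norm_nonneg b
  have h3 : ‖a‖ ^ 2 ≤ K ^ 2 := pow_le_pow_left₀ ha0 ha 2
  have h4 : ‖b‖ ^ 2 ≤ K ^ 2 := pow_le_pow_left₀ hb0 hb 2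
  nlinarith only [h2, h3, h4, sq_nonneg (‖a‖ - ‖b‖), sq_nonneg (‖a‖ - ‖c‖), sq_nonneg (‖b‖ - ‖c‖)]

lemma core {C1 C2 : ℝ}
    (ht1 : ∀ (q X D : ℕ) [NeZero q] (χ : DirichletCharacter ℂ q) (c : ℕ → ℝ) (v : ℝ),
      1 ≤ D → D ≤ X → 1 ≤ |v| → 4 * q * |v| * D ≤ X → (∀ d, |c d| ≤ Real.log (X + 3)) →
      (∀ d, D < d → c d = 0) →
      ‖∑ k ∈ Ioc X (3 * X), ((∑ p ∈ k.divisorsAntidiagonal, c p.1 : ℝ) : ℂ) *
          (χ (k : ZMod q) * nit k v)‖ ≤ C1 * X / |v| * Real.log (X + 3) ^ 4 ∧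
      ‖∑ k ∈ Ioc X (3 * X), ((∑ p ∈ k.divisorsAntidiagonal, c p.1 * Real.log p.2 : ℝ) : ℂ) *
        (χ (k : ZMod q) * nit k v)‖ ≤ C1 * X / |v| * Real.log (X + 3) ^ 4)
    (hb : ∀ (X U J : ℕ) (a b : ℕ → ℂ) (t0 T D : ℝ), 1 ≤ U → U ≤ X → 1 ≤ J → J ≤ X →
      0 ≤ T → T ≤ U → 0 ≤ D → (∀ m, ‖a m‖ ≤ (m.divisors.card : ℝ)) → (∀ m, m ≤ U → a m = 0) →
      (∀ n, ‖b n‖ ≤ ArithmeticFunction.vonMangoldt n) →
      (∀ t : ℝ, t0 ≤ t → t ≤ t0 + T → ∀ y : ℕ, y * U ≤ 3 * X → ‖∑ n ∈ Icc 1 y, b n * nit n t‖ ≤ D * y) →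
      ∫ t in t0..(t0 + T), ‖∑ k ∈ Ioc X (3 * X), (∑ p ∈ k.divisorsAntidiagonal, a p.1 * b p.2) * nit k t‖ ^ 2 ≤
        C2 * (X : ℝ) ^ 2 * Real.log (X + 3) ^ 20 * ((J : ℝ) ^ 2 * D ^ 2 + 1 / Real.sqrt J))
    {q : ℕ} [NeZero q] (χ : DirichletCharacter ℂ q) {X U V J : ℕ} {t0 t1 D W : ℝ}
    (h01 : t0 ≤ t1) (hU : 1 ≤ U) (hV : 1 ≤ V) (hUV : U * V ≤ X) (hJ1 : 1 ≤ J) (hJ : J ≤ X)
    (hT : t1 - t0 ≤ V) (hD : 0 ≤ D) (hW : 1 ≤ W)
    (ht : ∀ t : ℝ, t0 ≤ t → t ≤ t1 → W ≤ |t| ∧ 4 * q * |t| * ((U * V : ℕ) : ℝ) ≤ X)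
    (hsum : ∀ t : ℝ, t0 ≤ t → t ≤ t1 → ∀ y : ℕ, U < y → y * V ≤ 3 * X →
      ‖∑ n ∈ Icc 1 y, lam (chf χ) n * nit n t - ∑ n ∈ Icc 1 U, lam (chf χ) n * nit n t‖ ≤ D * y) :
    ∫ t in t0..t1, ‖∑ n ∈ Ioc X (3 * X), lam (chf χ) n * nit n t‖ ^ 2 ≤
      12 * (C1 * X * Real.log (X + 3) ^ 4) ^ 2 / W +
        3 * (C2 * (X : ℝ) ^ 2 * Real.log (X + 3) ^ 20 * ((J : ℝ) ^ 2 * D ^ 2 + 1 / Real.sqrt J)) := by
  have hW0 : 0 < W := by linarith only [hW]
  have hUX : U ≤ X := (Nat.le_mul_of_pos_right U hV).trans hUV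
  have hVX : V ≤ X := (Nat.le_mul_of_pos_left V hU).trans hUV
  have hX1 : 1 ≤ X := hU.trans hUX
  have hlog1 : 1 ≤ Real.log ((X : ℝ) + 3) := by
    have h1 : Real.exp 1 ≤ (X : ℝ) + 3 := by
      have := Real.exp_one_lt_d9
      have h2 : (1 : ℝ) ≤ X := by exact_mod_cast hX1
      linarith only [this, h2]
    have := Real.log_le_log (Real.exp_pos 1) h1
    rwa [Real.log_exp] at this
  set K : ℝ := C1 * X * Real.log (X + 3) ^ 4 with hK
  -- pointwise bound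
  have hpt : ∀ t ∈ Set.Icc t0 t1, ‖∑ n ∈ Ioc X (3 * X), lam (chf χ) n * nit n t‖ ^ 2 ≤
      6 * K ^ 2 * t ^ (-2 : ℤ) + 3 * ‖S3 χ X U V t‖ ^ 2 := by
    intro t htm
    obtain ⟨htW, htX⟩ := ht t htm.1 htm.2
    have habs : 1 ≤ |t| := hW.trans htW
    have habs0 : 0 < |t| := by linarith only [hW, htW]
    have hUV1 : 1 ≤ U * V := Nat.mul_pos hU hV
    have h1 := (ht1 q X (U * V) χ (fun d => (LU U * muV V) d) t hUV1 hUV habs htX
      (fun d => abs_c1_le U V X d hUV) (fun d hd => LU_mul_muV_apply_of_gt hd)).1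
    have h2 := (ht1 q X (U * V) χ (fun d => muV V d) t hUV1 hUV habs htX
      (fun d => (vau_muV_abs_le V d).trans hlog1) (fun d hd => by
        rw [vau_muV_apply, if_neg]
        have : V ≤ U * V := Nat.le_mul_of_pos_left V hU
        omega)).2
    have h3 : C1 * X / |t| * Real.log (X + 3) ^ 4 = K / |t| := by
      rw [hK]; ring
    rw [h3] at h1 h2
    rw [decomp χ hUX t]
    refine (sq_three (S1 χ X U V t) (S2 χ X V t) (S3 χ X U V t) h1 h2).trans (le_of_eq ?_)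
    have h4 : t ^ (-2 : ℤ) = (|t| ^ 2)⁻¹ := by
      rw [sq_abs, zpow_neg]
      norm_cast
    rw [h4, div_pow]
    ring
  have hint1 : IntervalIntegrable (fun t => ‖∑ n ∈ Ioc X (3 * X), lam (chf χ) n * nit n t‖ ^ 2)
      volume t0 t1 := ((continuous_S χ X).norm.pow 2).intervalIntegrable _ _
  have hint2 : IntervalIntegrable (fun t => 3 * ‖S3 χ X U V t‖ ^ 2) volume t0 t1 :=
    (continuous_const.mul ((continuous_S3 χ X U V).norm.pow 2)).intervalIntegrable _ _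
  have h0 : (0 : ℝ) ∉ Set.uIcc t0 t1 := by
    rw [Set.uIcc_of_le h01]
    intro h
    have := (ht 0 h.1 h.2).1
    rw [abs_zero] at this
    linarith only [hW, this]
  have hint3 : IntervalIntegrable (fun t : ℝ => 6 * K ^ 2 * t ^ (-2 : ℤ)) volume t0 t1 :=
    (intervalIntegral.intervalIntegrable_zpow (Or.inr h0)).const_mul _
  have hm := intervalIntegral.integral_mono_on h01 hint1 (hint3.add hint2) hpt
  refine hm.trans ?_
  rw [intervalIntegral.integral_add hint3 hint2, intervalIntegral.integral_const_mul,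
    intervalIntegral.integral_const_mul]
  have hI := integral_inv_sq h01 hW0 fun t h1 h2 => (ht t h1 h2).1
  have hB := hb X V J (ca χ V) (cb χ U) t0 (t1 - t0) D hV hVX hJ1 hJ (by linarith only [h01]) hT hD
    (fun m => norm_ca_le χ hV m) (fun m hm => ca_eq_zero χ hV hm) (fun n => norm_cb_le χ U n)
    (fun t h1 h2 y hy => by
      rw [sum_cb]
      split_ifs with h3
      · rw [norm_zero]
        (clear * - hD; positivity)
      · exact hsum t h1 (by linarith only [h2]) y (by omega) hy)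
  have h5 : t0 + (t1 - t0) = t1 := by ring
  rw [h5] at hB
  have h6 : ∫ t in t0..t1, ‖S3 χ X U V t‖ ^ 2 ≤
      C2 * (X : ℝ) ^ 2 * Real.log (X + 3) ^ 20 * ((J : ℝ) ^ 2 * D ^ 2 + 1 / Real.sqrt J) := hB
  have h7 : 6 * K ^ 2 * ∫ t in t0..t1, t ^ (-2 : ℤ) ≤ 12 * K ^ 2 / W := by
    calc 6 * K ^ 2 * ∫ t in t0..t1, t ^ (-2 : ℤ) ≤ 6 * K ^ 2 * (2 / W) :=
          mul_le_mul_of_nonneg_left hI (by (clear * -; positivity))
      _ = 12 * K ^ 2 / W := by ring
  linarith only [h6, h7]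

end DPAux

/-- the case `ε ≤ 1/4` -/
theorem dir_poly_aux (A : ℕ) (ε : ℝ) (hε : 0 < ε) (hε4 : ε ≤ 1 / 4) : ∃ B : ℕ, ∀ᶠ X : ℕ in atTop,
    ∀ (q : ℕ) [NeZero q]
    (χ : DirichletCharacter ℂ q), (q : ℝ) ≤ Real.log X ^ A → ∀ t0 t1 : ℝ, t0 ≤ t1 →
    (∀ t : ℝ, t0 ≤ t → t ≤ t1 → Real.log X ^ B ≤ |t| ∧ |t| ≤ (X : ℝ) ^ (1 / 2 - ε)) →
    ∫ t in t0..t1, ‖∑ n ∈ Ioc X (3 * X), lam (chf χ) n * nit n t‖ ^ 2 ≤ X ^ 2 / Real.log X ^ A := by
  obtain ⟨C1, hC1, ht1⟩ := type_one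
  obtain ⟨C2, hC2, hb⟩ := block_bilin
  set A' : ℕ := 2 * (4 * A + 100) + A + 50 with hA'
  set C0 : ℕ := ⌈8 / ε⌉₊ with hC0
  obtain ⟨B', hvk⟩ := vk_prime A' C0
  set κ : ℝ := 8 / ε with hκ
  have hκ0 : 0 < κ := by positivity
  set M : ℝ := 3 * 2 ^ 20 * C2 * (16 * κ ^ (2 * A') + 1) with hM
  have hM0 : 0 ≤ M := by positivity
  refine ⟨max B' (A + 20), ?_⟩
  -- the powers of X
  have hcast : Tendsto (fun X : ℕ => (X : ℝ)) atTop atTop := tendsto_natCast_atTop_atTop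
  have hpow : ∀ e : ℝ, 0 < e → Tendsto (fun X : ℕ => (X : ℝ) ^ e) atTop atTop := fun e he =>
    (tendsto_rpow_atTop he).comp hcast
  have hlogt : Tendsto (fun X : ℕ => Real.log X) atTop atTop := Real.tendsto_log_atTop.comp hcast
  have hUt : Tendsto (fun X : ℕ => ⌈(X : ℝ) ^ (ε / 8)⌉₊) atTop atTop :=
    tendsto_nat_ceil_atTop.comp (hpow _ (by positivity))
  have hvk2 := hUt.eventually (eventually_forall_ge_atTop.2 hvk)
  have hlp : ∀ (e : ℝ) (a : ℕ) (c : ℝ), 0 < e → ∀ᶠ X : ℕ in atTop, c * Real.log X ^ a ≤ (X : ℝ) ^ e := by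
    intro e a c he
    have h1 : (fun x : ℝ => Real.log x ^ (a : ℝ)) =o[atTop] (fun x : ℝ => x ^ e) :=
      isLittleO_log_rpow_rpow_atTop (a : ℝ) he
    simp only [Real.rpow_natCast] at h1
    have h2 := (h1.comp_tendsto hcast).bound (show (0 : ℝ) < 1 / (|c| + 1) by positivity)
    filter_upwards [h2, eventually_ge_atTop 1] with X hX hX1
    have hL : 0 ≤ Real.log X := Real.log_natCast_nonneg X
    have hXe : 0 ≤ (X : ℝ) ^ e := by positivity
    simp only [Function.comp_def] at hX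
    rw [Real.norm_of_nonneg (by (clear * -; positivity)), Real.norm_of_nonneg hXe] at hX
    have h3 : (|c| + 1) * Real.log X ^ a ≤ (X : ℝ) ^ e := by
      have h4 := mul_le_mul_of_nonneg_left hX (by (clear * -; positivity) : 0 ≤ |c| + 1)
      have h5 : (|c| + 1) * (1 / (|c| + 1) * (X : ℝ) ^ e) = (X : ℝ) ^ e := by
        field_simp
      rwa [h5] at h4
    have h6 : c * Real.log X ^ a ≤ (|c| + 1) * Real.log X ^ a :=
      mul_le_mul_of_nonneg_right (by linarith only [hε, hε4, le_abs_self c]) (by (clear * -; positivity))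
    exact h6.trans h3
  filter_upwards [hvk2, eventually_ge_atTop 3, hlogt.eventually_ge_atTop 1,
    hlogt.eventually_ge_atTop (12288 * C1 ^ 2), hlogt.eventually_ge_atTop (2 * M),
    hlogt.eventually_ge_atTop (κ ^ A'), (hpow (ε / 2) (by positivity)).eventually_ge_atTop 2,
    (hpow (3 / 8) (by norm_num)).eventually_ge_atTop 3, hlp ε A 16 hε,
    hlp 1 (4 * A + 100) 2 one_pos] with X hvkX hX3 hL1 hLC hLM hLκ hXε hX38 hXA hXJ
  intro q _ χ hq t0 t1 h01 ht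
  set L : ℝ := Real.log X with hL
  set x : ℝ := (X : ℝ) with hx
  have hx3 : 3 ≤ x := by rw [hx]; exact_mod_cast hX3
  have hx0 : 0 < x := by linarith only [hε, hε4, hx3]
  have hx1 : 1 ≤ x := by linarith only [hε, hε4, hx3]
  have hL0 : 0 < L := by linarith only [hε, hε4, hL1]
  set U : ℕ := ⌈x ^ (ε / 8)⌉₊ with hU
  set V : ℕ := ⌈x ^ (1 / 2 - ε / 2)⌉₊ with hV
  set J : ℕ := ⌈L ^ (4 * A + 100)⌉₊ with hJ
  set D : ℝ := 2 * (κ ^ A' / L ^ A') with hD
  have hXU1 : 1 ≤ x ^ (ε / 8) := Real.one_le_rpow hx1 (by (clear * - hε; positivity))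
  have hXV1 : 1 ≤ x ^ (1 / 2 - ε / 2) := Real.one_le_rpow hx1 (by linarith only [hε, hε4])
  have hU1 : 1 ≤ U := Nat.one_le_ceil_iff.2 (by linarith only [hε, hε4, hXU1])
  have hV1 : 1 ≤ V := Nat.one_le_ceil_iff.2 (by linarith only [hε, hε4, hXV1])
  have hUle : (U : ℝ) ≤ 2 * x ^ (ε / 8) := by
    have := Nat.ceil_lt_add_one (by (clear * - hX3; positivity) : 0 ≤ x ^ (ε / 8))
    linarith only [hXU1, this]
  have hUge : x ^ (ε / 8) ≤ U := Nat.le_ceil _
  have hVle : (V : ℝ) ≤ 2 * x ^ (1 / 2 - ε / 2) := by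
    have := Nat.ceil_lt_add_one (by (clear * - hX3; positivity) : 0 ≤ x ^ (1 / 2 - ε / 2))
    linarith only [hXV1, this]
  have hVge : x ^ (1 / 2 - ε / 2) ≤ V := Nat.le_ceil _
  have hq1 : (1 : ℝ) ≤ q := by exact_mod_cast (NeZero.pos q)
  -- the condition for the type I sums
  have htyp : ∀ t : ℝ, t0 ≤ t → t ≤ t1 → 4 * q * |t| * ((U * V : ℕ) : ℝ) ≤ x := by
    intro t h1 h2
    have h3 := (ht t h1 h2).2
    have h4 : 4 * (q : ℝ) * |t| * ((U * V : ℕ) : ℝ) ≤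
        4 * L ^ A * x ^ (1 / 2 - ε) * ((2 * x ^ (ε / 8)) * (2 * x ^ (1 / 2 - ε / 2))) := by
      push_cast
      refine mul_le_mul (mul_le_mul (by linarith only [hq]) h3 (abs_nonneg _) (by (clear * - hL1; positivity)))
        (mul_le_mul hUle hVle (Nat.cast_nonneg _) (by (clear * - hX3; positivity))) (by (clear * - hX3; positivity)) (by (clear * - hX3 hL1; positivity))
    refine h4.trans ?_
    have h5 : 4 * L ^ A * x ^ (1 / 2 - ε) * ((2 * x ^ (ε / 8)) * (2 * x ^ (1 / 2 - ε / 2))) =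
        16 * L ^ A * (x ^ (1 / 2 - ε) * x ^ (ε / 8) * x ^ (1 / 2 - ε / 2)) := by ring
    rw [h5, ← Real.rpow_add hx0, ← Real.rpow_add hx0]
    have h6 : x ^ (1 / 2 - ε + ε / 8 + (1 / 2 - ε / 2)) ≤ x ^ (1 - ε) :=
      Real.rpow_le_rpow_of_exponent_le hx1 (by linarith only [hε])
    calc 16 * L ^ A * x ^ (1 / 2 - ε + ε / 8 + (1 / 2 - ε / 2)) ≤ x ^ ε * x ^ (1 - ε) :=
          mul_le_mul hXA h6 (by (clear * - hX3; positivity)) (by (clear * - hX3; positivity))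
      _ = x := by
          rw [← Real.rpow_add hx0]
          have : ε + (1 - ε) = 1 := by ring
          rw [this, Real.rpow_one]
  have hWB : 1 ≤ L ^ max B' (A + 20) := one_le_pow₀ hL1
  have hUV : U * V ≤ X := by
    have h1 := htyp t0 le_rfl h01
    have h2 := (ht t0 le_rfl h01).1
    have h3 : 1 ≤ |t0| := hWB.trans h2
    have h4 : 1 ≤ 4 * (q : ℝ) * |t0| := by nlinarith only [hε, hε4, hq1, hWB, h2]
    have h5 : ((U * V : ℕ) : ℝ) ≤ x := by
      have h6 : 0 ≤ ((U * V : ℕ) : ℝ) := Nat.cast_nonneg _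
      nlinarith only [h1, h4]
    exact Nat.cast_le.1 (h5 : ((U * V : ℕ) : ℝ) ≤ ((X : ℕ) : ℝ))
  have hJge : L ^ (4 * A + 100) ≤ J := Nat.le_ceil _
  have hLp1 : 1 ≤ L ^ (4 * A + 100) := one_le_pow₀ hL1
  have hJle : (J : ℝ) ≤ 2 * L ^ (4 * A + 100) := by
    have := Nat.ceil_lt_add_one (by (clear * - hL1; positivity) : 0 ≤ L ^ (4 * A + 100))
    linarith only [hLp1, this]
  have hJ1 : 1 ≤ J := Nat.one_le_ceil_iff.2 (by linarith only [hε, hε4, hLp1])
  have hJX : J ≤ X := by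
    have h1 : (J : ℝ) ≤ x := by
      refine hJle.trans (hXJ.trans ?_)
      rw [Real.rpow_one]
    exact Nat.cast_le.1 (h1 : ((J : ℕ) : ℝ) ≤ ((X : ℕ) : ℝ))
  have hT : t1 - t0 ≤ V := by
    have h1 := (ht t0 le_rfl h01).2
    have h2 := (ht t1 h01 le_rfl).2
    have h3 := neg_abs_le t0
    have h4 := le_abs_self t1
    have h5 : t1 - t0 ≤ 2 * x ^ (1 / 2 - ε) := by linarith only [h1, h2, h3, h4]
    refine h5.trans (le_trans ?_ hVge)
    calc 2 * x ^ (1 / 2 - ε) ≤ x ^ (ε / 2) * x ^ (1 / 2 - ε) :=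
          mul_le_mul_of_nonneg_right hXε (by (clear * - hX3; positivity))
      _ = x ^ (1 / 2 - ε / 2) := by
          rw [← Real.rpow_add hx0]
          congr 1
          ring
  have hD0 : 0 ≤ D := by (clear * - hε hL1; positivity)
  -- the hypothesis on the sums over primes
  have hsum : ∀ t : ℝ, t0 ≤ t → t ≤ t1 → ∀ y : ℕ, U < y → y * V ≤ 3 * X →
      ‖∑ n ∈ Icc 1 y, lam (chf χ) n * nit n t - ∑ n ∈ Icc 1 U, lam (chf χ) n * nit n t‖ ≤ D * y := by
    intro t h1 h2 y hUy hyV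
    obtain ⟨h3, h4⟩ := ht t h1 h2
    have hy1 : (1 : ℝ) ≤ y := by
      have : 1 ≤ y := by omega
      exact_mod_cast this
    have hy0 : (0 : ℝ) < y := by linarith only [hε, hε4, hy1]
    have hyx : (y : ℝ) ≤ x := by
      have h5' : (y : ℝ) * V ≤ 3 * ((X : ℕ) : ℝ) := by exact_mod_cast hyV
      have h5 : (y : ℝ) * V ≤ 3 * x := h5'
      have h6 : (3 : ℝ) ≤ V := by
        refine le_trans (hX38.trans ?_) hVge
        exact Real.rpow_le_rpow_of_exponent_le hx1 (by linarith only [hε4])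
      nlinarith only [h5', h6]
    have hyU : x ^ (ε / 8) ≤ y := by
      refine hUge.trans ?_
      exact_mod_cast hUy.le
    have hlogy : ε / 8 * L ≤ Real.log y := by
      have := Real.log_le_log (by (clear * - hX3; positivity)) hyU
      rwa [Real.log_rpow hx0] at this
    have hlogy2 : Real.log y ≤ L := Real.log_le_log hy0 hyx
    have hεL : 0 < ε / 8 * L := by (clear * - hε hL1; positivity)
    have hlogy0 : 0 < Real.log y := by linarith only [hlogy, hεL]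
    have hκL : L = κ * (ε / 8 * L) := by
      rw [hκ]
      field_simp
    have hcond1 : (q : ℝ) ≤ Real.log y ^ A' := by
      refine hq.trans ?_
      have h5 : L ^ A' ≤ κ ^ A' * Real.log y ^ A' := by
        rw [← mul_pow]
        refine pow_le_pow_left₀ hL0.le ?_ _
        calc L = κ * (ε / 8 * L) := hκL
          _ ≤ κ * Real.log y := mul_le_mul_of_nonneg_left hlogy hκ0.le
      have h6 : κ ^ A' * L ^ A ≤ L ^ A' := by
        calc κ ^ A' * L ^ A ≤ L * L ^ A := mul_le_mul_of_nonneg_right hLκ (by (clear * - hL1; positivity))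
          _ = L ^ (A + 1) := by ring
          _ ≤ L ^ A' := pow_le_pow_right₀ hL1 (by omega)
      have h7 : 0 < κ ^ A' := by (clear * - hε; positivity)
      exact le_of_mul_le_mul_left (h6.trans h5) h7
    have hcond2 : Real.log y ^ B' ≤ |t| := by
      refine le_trans ?_ h3
      calc Real.log y ^ B' ≤ L ^ B' := pow_le_pow_left₀ hlogy0.le hlogy2 _
        _ ≤ L ^ max B' (A + 20) := pow_le_pow_right₀ hL1 (le_max_left _ _)
    have hcond3 : |t| ≤ (y : ℝ) ^ C0 := by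
      refine h4.trans ?_
      calc x ^ (1 / 2 - ε) ≤ x ^ (1 : ℝ) := Real.rpow_le_rpow_of_exponent_le hx1 (by linarith only [hε, hε4])
        _ = (x ^ (ε / 8)) ^ (8 / ε) := by
            rw [← Real.rpow_mul hx0.le]
            congr 1
            field_simp
        _ ≤ (x ^ (ε / 8)) ^ (C0 : ℝ) := Real.rpow_le_rpow_of_exponent_le hXU1 (Nat.le_ceil _)
        _ = (x ^ (ε / 8)) ^ C0 := Real.rpow_natCast _ _
        _ ≤ (y : ℝ) ^ C0 := pow_le_pow_left₀ (by (clear * - hX3; positivity)) hyU _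
    have hres := hvkX y hUy.le q χ hcond1 t hcond2 hcond3
    have hbd : (y : ℝ) / Real.log y ^ A' ≤ κ ^ A' / L ^ A' * y := by
      have h5 : (ε / 8 * L) ^ A' ≤ Real.log y ^ A' := pow_le_pow_left₀ hεL.le hlogy _
      calc (y : ℝ) / Real.log y ^ A' ≤ y / (ε / 8 * L) ^ A' :=
            div_le_div_of_nonneg_left hy0.le (by (clear * - hε hL1; positivity)) h5
        _ = κ ^ A' / L ^ A' * y := by
            have h6 : L ^ A' = κ ^ A' * (ε / 8 * L) ^ A' := by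
              rw [← mul_pow, ← hκL]
            rw [h6]
            field_simp
    have h8 := hres y le_rfl
    have h9 := hres U hUy.le
    calc ‖∑ n ∈ Icc 1 y, lam (chf χ) n * nit n t - ∑ n ∈ Icc 1 U, lam (chf χ) n * nit n t‖
        ≤ ‖∑ n ∈ Icc 1 y, lam (chf χ) n * nit n t‖ + ‖∑ n ∈ Icc 1 U, lam (chf χ) n * nit n t‖ :=
          norm_sub_le _ _
      _ ≤ (y : ℝ) / Real.log y ^ A' + y / Real.log y ^ A' := add_le_add h8 h9
      _ ≤ κ ^ A' / L ^ A' * y + κ ^ A' / L ^ A' * y := add_le_add hbd hbd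
      _ = D * y := by rw [hD]; ring
  have hmain := DPAux.core ht1 hb χ h01 hU1 hV1 hUV hJ1 hJX hT hD0 hWB
    (fun t h1 h2 => ⟨(ht t h1 h2).1, htyp t h1 h2⟩) hsum
  refine hmain.trans ?_
  -- numerical part
  have hl3 : Real.log (x + 3) ≤ 2 * L := by
    have h1 : 2 * L = Real.log (x ^ 2) := by
      rw [Real.log_pow]; push_cast; ring
    rw [h1]
    exact Real.log_le_log (by (clear * - hX3; positivity)) (by nlinarith only [hε, hε4, hx3])
  have hl30 : 0 ≤ Real.log (x + 3) := Real.log_nonneg (by linarith only [hε, hε4, hx3])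
  have hpA : 12 * (C1 * x * Real.log (x + 3) ^ 4) ^ 2 / L ^ max B' (A + 20) ≤
      x ^ 2 / (2 * L ^ A) := by
    have h1 : (C1 * x * Real.log (x + 3) ^ 4) ^ 2 ≤ (C1 * x * (2 * L) ^ 4) ^ 2 :=
      pow_le_pow_left₀ (by (clear * - hC1 hX3; positivity))
        (mul_le_mul_of_nonneg_left (pow_le_pow_left₀ hl30 hl3 4) (by (clear * - hC1 hX3; positivity))) 2
    have h2 : L ^ (A + 20) ≤ L ^ max B' (A + 20) := pow_le_pow_right₀ hL1 (le_max_right _ _)
    have h3 : 12 * (C1 * x * Real.log (x + 3) ^ 4) ^ 2 / L ^ max B' (A + 20) ≤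
        12 * (C1 * x * (2 * L) ^ 4) ^ 2 / L ^ (A + 20) :=
      div_le_div₀ (by (clear * - hC1 hX3 hL1; positivity)) (by linarith only [h1]) (by (clear * - hL1; positivity)) h2
    refine h3.trans ?_
    rw [div_le_div_iff₀ (by (clear * - hL1; positivity)) (by (clear * - hL1; positivity))]
    have h4 : 12288 * C1 ^ 2 ≤ L ^ 12 := hLC.trans (le_self_pow₀ hL1 (by norm_num))
    calc 12 * (C1 * x * (2 * L) ^ 4) ^ 2 * (2 * L ^ A) = 6144 * C1 ^ 2 * (x ^ 2 * L ^ (A + 8)) := by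
          ring
      _ ≤ L ^ 12 * (x ^ 2 * L ^ (A + 8)) :=
          mul_le_mul_of_nonneg_right (by nlinarith only [h4, sq_nonneg C1]) (by (clear * - hX3 hL1; positivity))
      _ = x ^ 2 * L ^ (A + 20) := by ring
  have hpB : 3 * (C2 * x ^ 2 * Real.log (x + 3) ^ 20 * ((J : ℝ) ^ 2 * D ^ 2 + 1 / Real.sqrt J)) ≤
      x ^ 2 / (2 * L ^ A) := by
    have h1 : 1 / Real.sqrt J ≤ 1 / L ^ (2 * A + 50) := by
      refine one_div_le_one_div_of_le (by (clear * - hL1; positivity)) ?_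
      refine Real.le_sqrt_of_sq_le ?_
      rw [← pow_mul]
      refine le_trans (le_of_eq ?_) hJge
      congr 1
      ring
    have h2 : (J : ℝ) ^ 2 * D ^ 2 ≤ 16 * κ ^ (2 * A') / L ^ (2 * A + 50) := by
      have h3 : (J : ℝ) ^ 2 * D ^ 2 ≤ (2 * L ^ (4 * A + 100)) ^ 2 * D ^ 2 :=
        mul_le_mul_of_nonneg_right (pow_le_pow_left₀ (Nat.cast_nonneg _) hJle 2) (by (clear * - hε hL1; positivity))
      refine h3.trans ?_
      rw [hD, le_div_iff₀ (by (clear * - hL1; positivity))]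
      have h4 : (2 * L ^ (4 * A + 100)) ^ 2 * (2 * (κ ^ A' / L ^ A')) ^ 2 * L ^ (2 * A + 50) =
          16 * κ ^ (2 * A') * (L ^ (10 * A + 250) / L ^ (2 * A')) := by
        have e1 : L ^ (10 * A + 250) = (L ^ (4 * A + 100)) ^ 2 * L ^ (2 * A + 50) := by
          rw [← pow_mul, ← pow_add]
          congr 1
          ring
        have e2 : κ ^ (2 * A') = (κ ^ A') ^ 2 := by rw [← pow_mul, mul_comm]
        have e3 : L ^ (2 * A') = (L ^ A') ^ 2 := by rw [← pow_mul, mul_comm]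
        rw [e1, e2, e3]
        have e4 : L ^ A' ≠ 0 := by (clear * - hL1; positivity)
        field_simp
        ring
      rw [h4]
      have h5 : L ^ (10 * A + 250) / L ^ (2 * A') ≤ 1 := by
        rw [div_le_one (by (clear * - hL1; positivity))]
        exact pow_le_pow_right₀ hL1 (by omega)
      calc 16 * κ ^ (2 * A') * (L ^ (10 * A + 250) / L ^ (2 * A')) ≤ 16 * κ ^ (2 * A') * 1 :=
            mul_le_mul_of_nonneg_left h5 (by (clear * - hε; positivity))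
        _ = _ := mul_one _
    have h6 : (J : ℝ) ^ 2 * D ^ 2 + 1 / Real.sqrt J ≤ (16 * κ ^ (2 * A') + 1) / L ^ (2 * A + 50) := by
      rw [add_div]
      exact add_le_add h2 h1
    have h7 : Real.log (x + 3) ^ 20 ≤ (2 * L) ^ 20 := pow_le_pow_left₀ hl30 hl3 20
    have h8 : 3 * (C2 * x ^ 2 * Real.log (x + 3) ^ 20 * ((J : ℝ) ^ 2 * D ^ 2 + 1 / Real.sqrt J)) ≤
        3 * (C2 * x ^ 2 * (2 * L) ^ 20 * ((16 * κ ^ (2 * A') + 1) / L ^ (2 * A + 50))) := by
      refine mul_le_mul_of_nonneg_left ?_ (by norm_num)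
      exact mul_le_mul (mul_le_mul_of_nonneg_left h7 (by (clear * - hC2 hX3; positivity))) h6 (by (clear * - hε hL1; positivity))
        (by (clear * - hC2 hX3 hL1; positivity))
    refine h8.trans ?_
    have h9 : 3 * (C2 * x ^ 2 * (2 * L) ^ 20 * ((16 * κ ^ (2 * A') + 1) / L ^ (2 * A + 50))) =
        M * (x ^ 2 / L ^ (2 * A + 30)) := by
      have e1 : L ^ (2 * A + 50) = L ^ (2 * A + 30) * L ^ 20 := by rw [← pow_add]
      rw [hM, e1]
      have e2 : L ^ 20 ≠ 0 := by (clear * - hL1; positivity)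
      have e3 : L ^ (2 * A + 30) ≠ 0 := by (clear * - hL1; positivity)
      field_simp
    rw [h9, ← mul_div_assoc, div_le_div_iff₀ (by (clear * - hL1; positivity)) (by (clear * - hL1; positivity))]
    have h10 : 2 * M ≤ L ^ (A + 30) := hLM.trans (le_self_pow₀ hL1 (by omega))
    calc M * x ^ 2 * (2 * L ^ A) = 2 * M * (x ^ 2 * L ^ A) := by ring
      _ ≤ L ^ (A + 30) * (x ^ 2 * L ^ A) := mul_le_mul_of_nonneg_right h10 (by (clear * - hX3 hL1; positivity))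
      _ = x ^ 2 * L ^ (2 * A + 30) := by ring
  calc _ ≤ x ^ 2 / (2 * L ^ A) + x ^ 2 / (2 * L ^ A) := add_le_add hpA hpB
    _ = x ^ 2 / L ^ A := by field_simp; ring

theorem dir_poly (A : ℕ) (ε : ℝ) (hε : 0 < ε) : ∃ B : ℕ, ∀ᶠ X : ℕ in atTop, ∀ (q : ℕ) [NeZero q]
    (χ : DirichletCharacter ℂ q), (q : ℝ) ≤ Real.log X ^ A → ∀ t0 t1 : ℝ, t0 ≤ t1 →
    (∀ t : ℝ, t0 ≤ t → t ≤ t1 → Real.log X ^ B ≤ |t| ∧ |t| ≤ (X : ℝ) ^ (1 / 2 - ε)) →
    ∫ t in t0..t1, ‖∑ n ∈ Ioc X (3 * X), lam (chf χ) n * nit n t‖ ^ 2 ≤ X ^ 2 / Real.log X ^ A := by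
  obtain ⟨B, hB⟩ := dir_poly_aux A (min ε (1 / 4)) (lt_min hε (by norm_num)) (min_le_right _ _)
  refine ⟨B, ?_⟩
  filter_upwards [hB, eventually_ge_atTop 1] with X hX hX1
  intro q _ χ hq t0 t1 h01 ht
  refine hX q χ hq t0 t1 h01 fun t h1 h2 => ⟨(ht t h1 h2).1, (ht t h1 h2).2.trans ?_⟩
  refine Real.rpow_le_rpow_of_exponent_le (by exact_mod_cast hX1) ?_
  have := min_le_left ε (1 / 4)
  linarith

end Pool.Agent.VK
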