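import Pool.Agent.Lib.VK.OnePoint

/-!
# Vinogradov's bound for `sum (n + a)^(it)`

PROOF SKETCH. For `M` bounded by an absolute constant trivial (at most `2 M` terms). `X = ⌊M^(2/5)⌋₊`, `shift_avg` for
`F n = (n + a)^(it)`; for `n` in `(N, N']`, `u = n + a` in `[M, 4M]`, `h = x y ≤ X^2 ≤ M^(4/5) ≤ u / 2`: `taylor_phase` with
`k = 5K + 12` has error `2 |t| (M^(4/5)/M)^(k+1) ≤ 2 M^(K - (5K+13)/5) ≤ 2 M^(-2)`, and `(x y)^(j+1) = x^(j+1) y^(j+1)`;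
`one_point` for the main part (`|u^(it)| = 1`). The total is at most `2 M (C M^(-1/(C K^6)) + 2 M^(-2)) + 2 M^(4/5)`.
For `a = 0` and `n ≥ 1` nothing changes (`n + a > 0` since `n > N ≥ M ≥ 1`).
-/

set_option autoImplicit false

open Finset

namespace Pool.Agent.VK

open Pool.Agent.HLT

namespace ExpSum

lemma norm_term (n : ℕ) {a t : ℝ} (ha : 0 ≤ a) :
    ‖((n + a : ℝ) : ℂ) ^ ((t : ℂ) * Complex.I)‖ ≤ 1 := by
  rcases (show (0 : ℝ) ≤ n + a by positivity).eq_or_lt with h | h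
  · rw [← h]
    by_cases ht : (t : ℂ) * Complex.I = 0
    · rw [ht, Complex.cpow_zero]
      simp
    · rw [Complex.ofReal_zero, Complex.zero_cpow ht]
      simp
  · rw [Complex.norm_cpow_eq_rpow_re_of_pos h]
    simp

lemma norm_eq_one {u : ℝ} (hu : 0 < u) (t : ℝ) :
    ‖((u : ℝ) : ℂ) ^ ((t : ℂ) * Complex.I)‖ = 1 := by
  rw [Complex.norm_cpow_eq_rpow_re_of_pos hu]
  simp

/-- the inner sum at one point -/
lemma inner {C1 : ℝ} (h1 : ∀ (K M X : ℕ) (t u : ℝ), 1 ≤ K → 1 ≤ M →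
    X = ⌊(M : ℝ) ^ (2 / 5 : ℝ)⌋₊ → (M : ℝ) ≤ u → u ≤ 4 * M →
    (M : ℝ) ^ (1 / 2 : ℝ) ≤ |t| → |t| ≤ (M : ℝ) ^ K →
    ‖∑ x ∈ Icc 1 X, ∑ y ∈ Icc 1 X,
        ex (∑ j : Fin (5 * K + 12), phc t u j.val * ((x : ℝ) ^ (j.val + 1) * (y : ℝ) ^ (j.val + 1)))‖ ≤
      C1 * (X : ℝ) ^ 2 * (M : ℝ) ^ (-(1 / (C1 * (K : ℝ) ^ 6))))
    {K M X n : ℕ} {t a : ℝ} (hK : 1 ≤ K) (hM : 32 ≤ M) (hX : X = ⌊(M : ℝ) ^ (2 / 5 : ℝ)⌋₊)
    (hn : M ≤ n) (hn' : n ≤ 3 * M) (ha : 0 ≤ a) (ha1 : a ≤ 1)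
    (ht : (M : ℝ) ^ (1 / 2 : ℝ) ≤ |t|) (ht' : |t| ≤ (M : ℝ) ^ K) :
    ‖∑ x ∈ Icc 1 X, ∑ y ∈ Icc 1 X, (((n + x * y : ℕ) + a : ℝ) : ℂ) ^ ((t : ℂ) * Complex.I)‖ ≤
      (X : ℝ) ^ 2 * (C1 * (M : ℝ) ^ (-(1 / (C1 * (K : ℝ) ^ 6))) + 2 * (M : ℝ) ^ (-2 : ℝ)) := by
  have hM0 : (0 : ℝ) < M := by
    have : (32 : ℝ) ≤ M := by exact_mod_cast hM
    linarith
  have hM1 : (1 : ℝ) ≤ M := by
    have : (32 : ℝ) ≤ M := by exact_mod_cast hM
    linarith only [this]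
  set u : ℝ := n + a with hu
  have hnr : (M : ℝ) ≤ n := by exact_mod_cast hn
  have hnr' : (n : ℝ) ≤ 3 * M := by exact_mod_cast hn'
  have huM : (M : ℝ) ≤ u := by rw [hu]; linarith only [ha, hnr]
  have huM' : u ≤ 4 * M := by rw [hu]; linarith only [ha1, hM1, hnr']
  have hu0 : 0 < u := by linarith only [ha, hM0, hnr]
  have hXM : (X : ℝ) ≤ (M : ℝ) ^ (2 / 5 : ℝ) := by
    rw [hX]
    exact Nat.floor_le (by positivity)
  have hX2 : (X : ℝ) ^ 2 ≤ (M : ℝ) ^ (4 / 5 : ℝ) := by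
    calc (X : ℝ) ^ 2 ≤ ((M : ℝ) ^ (2 / 5 : ℝ)) ^ 2 := pow_le_pow_left₀ (by positivity) hXM 2
      _ = (M : ℝ) ^ (4 / 5 : ℝ) := by
          rw [← Real.rpow_natCast, ← Real.rpow_mul hM0.le]
          norm_num
  have h2M : 2 * (M : ℝ) ^ (4 / 5 : ℝ) ≤ M := by
    have h3 : (2 : ℝ) ≤ (M : ℝ) ^ (1 / 5 : ℝ) := by
      have h4 : (2 : ℝ) = (32 : ℝ) ^ (1 / 5 : ℝ) := by
        rw [show (32 : ℝ) = 2 ^ (5 : ℝ) by norm_num, ← Real.rpow_mul (by norm_num)]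
        norm_num
      rw [h4]
      exact Real.rpow_le_rpow (by norm_num) (by exact_mod_cast hM) (by norm_num)
    calc 2 * (M : ℝ) ^ (4 / 5 : ℝ) ≤ (M : ℝ) ^ (1 / 5 : ℝ) * (M : ℝ) ^ (4 / 5 : ℝ) :=
          mul_le_mul_of_nonneg_right h3 (by positivity)
      _ = M := by
          rw [← Real.rpow_add hM0]
          norm_num
  -- the error of the Taylor expansion
  have herr : ∀ x ∈ Icc 1 X, ∀ y ∈ Icc 1 X,
      ‖(((n + x * y : ℕ) + a : ℝ) : ℂ) ^ ((t : ℂ) * Complex.I) -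
        ((u : ℝ) : ℂ) ^ ((t : ℂ) * Complex.I) *
          ex (∑ j : Fin (5 * K + 12), phc t u j.val * ((x : ℝ) ^ (j.val + 1) * (y : ℝ) ^ (j.val + 1)))‖ ≤
        2 * (M : ℝ) ^ (-2 : ℝ) := by
    intro x hx y hy
    have hx' : (x : ℝ) ≤ X := by exact_mod_cast (mem_Icc.1 hx).2
    have hy' : (y : ℝ) ≤ X := by exact_mod_cast (mem_Icc.1 hy).2
    set h : ℝ := (x : ℝ) * y with hh
    have hh0 : 0 ≤ h := by (clear * -; positivity)
    have hhM : h ≤ (M : ℝ) ^ (4 / 5 : ℝ) := by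
      refine le_trans ?_ hX2
      rw [hh, sq]
      exact mul_le_mul hx' hy' (by (clear * -; positivity)) (by (clear * -; positivity))
    have hhu : h ≤ u / 2 := by linarith only [ha, hnr, h2M, hhM]
    have h3 := taylor_phase (5 * K + 12) t u h hu0 hh0 hhu
    have h4 : ((n + x * y : ℕ) + a : ℝ) = u + h := by
      rw [hu, hh]
      push_cast
      ring
    have h5 : ∀ j : Fin (5 * K + 12), phc t u j.val * h ^ (j.val + 1) =
        phc t u j.val * ((x : ℝ) ^ (j.val + 1) * (y : ℝ) ^ (j.val + 1)) := by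
      intro j
      rw [hh, mul_pow]
    simp only [h5] at h3
    rw [h4]
    refine h3.trans ?_
    have h6 : h / u ≤ (M : ℝ) ^ (-(1 / 5) : ℝ) := by
      rw [div_le_iff₀ hu0]
      calc h ≤ (M : ℝ) ^ (4 / 5 : ℝ) := hhM
        _ = (M : ℝ) ^ (-(1 / 5) : ℝ) * M := by
            rw [← Real.rpow_add_one hM0.ne']
            norm_num
        _ ≤ (M : ℝ) ^ (-(1 / 5) : ℝ) * u := mul_le_mul_of_nonneg_left huM (by (clear * - hM; positivity))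
    have h7 : (h / u) ^ (5 * K + 12 + 1) ≤ (M : ℝ) ^ (-(K : ℝ) - 2) := by
      calc (h / u) ^ (5 * K + 12 + 1) ≤ ((M : ℝ) ^ (-(1 / 5) : ℝ)) ^ (5 * K + 12 + 1) :=
            pow_le_pow_left₀ (by (clear * - hu0; positivity)) h6 _
        _ = (M : ℝ) ^ (-(1 / 5) * ((5 * K + 12 + 1 : ℕ) : ℝ)) := by
            rw [← Real.rpow_natCast, ← Real.rpow_mul hM0.le]
        _ ≤ (M : ℝ) ^ (-(K : ℝ) - 2) := by
            refine Real.rpow_le_rpow_of_exponent_le hM1 ?_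
            push_cast
            linarith
    calc 2 * |t| * (h / u) ^ (5 * K + 12 + 1) ≤ 2 * (M : ℝ) ^ K * (M : ℝ) ^ (-(K : ℝ) - 2) := by
          refine mul_le_mul ?_ h7 (by (clear * - hu0; positivity)) (by (clear * - hM; positivity))
          exact mul_le_mul_of_nonneg_left ht' (by norm_num)
      _ = 2 * (M : ℝ) ^ (-2 : ℝ) := by
          rw [mul_assoc, ← Real.rpow_natCast, ← Real.rpow_add hM0]
          congr 2
          ring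
  have hmain := h1 K M X t u hK (by omega) hX huM huM' ht ht'
  have hsplit : ∑ x ∈ Icc 1 X, ∑ y ∈ Icc 1 X,
      (((n + x * y : ℕ) + a : ℝ) : ℂ) ^ ((t : ℂ) * Complex.I) =
      ((u : ℝ) : ℂ) ^ ((t : ℂ) * Complex.I) * ∑ x ∈ Icc 1 X, ∑ y ∈ Icc 1 X,
          ex (∑ j : Fin (5 * K + 12), phc t u j.val * ((x : ℝ) ^ (j.val + 1) * (y : ℝ) ^ (j.val + 1))) +
      ∑ x ∈ Icc 1 X, ∑ y ∈ Icc 1 X,
      ((((n + x * y : ℕ) + a : ℝ) : ℂ) ^ ((t : ℂ) * Complex.I) -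
        ((u : ℝ) : ℂ) ^ ((t : ℂ) * Complex.I) *
          ex (∑ j : Fin (5 * K + 12), phc t u j.val *
            ((x : ℝ) ^ (j.val + 1) * (y : ℝ) ^ (j.val + 1)))) := by
    simp only [Finset.mul_sum, ← Finset.sum_add_distrib]
    refine sum_congr rfl fun x _ => sum_congr rfl fun y _ => ?_
    ring
  rw [hsplit]
  refine (norm_add_le _ _).trans ?_
  rw [norm_mul, norm_eq_one hu0, one_mul, mul_add]
  refine add_le_add ?_ ?_
  · calc _ ≤ C1 * (X : ℝ) ^ 2 * (M : ℝ) ^ (-(1 / (C1 * (K : ℝ) ^ 6))) := hmain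
      _ = _ := by ring
  · calc _ ≤ ∑ x ∈ Icc 1 X, ∑ y ∈ Icc 1 X, 2 * (M : ℝ) ^ (-2 : ℝ) :=
          (norm_sum_le _ _).trans (sum_le_sum fun x hx =>
            (norm_sum_le _ _).trans (sum_le_sum fun y hy => herr x hx y hy))
      _ = _ := by
          simp only [sum_const, Nat.card_Icc, nsmul_eq_mul]
          push_cast
          ring

end ExpSum

theorem exp_sum : ∃ C : ℝ, 1 ≤ C ∧ ∀ (K M N N' : ℕ) (t a : ℝ), 1 ≤ K → 1 ≤ M → M ≤ N → N' ≤ 3 * M →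
    0 ≤ a → a ≤ 1 → (M : ℝ) ^ (1 / 2 : ℝ) ≤ |t| → |t| ≤ (M : ℝ) ^ K →
    ‖∑ n ∈ Ioc N N', ((n + a : ℝ) : ℂ) ^ ((t : ℂ) * Complex.I)‖ ≤
      C * (M : ℝ) ^ (1 - 1 / (C * (K : ℝ) ^ 6)) := by
  obtain ⟨C1, hC1, h1⟩ := one_point
  refine ⟨2 * C1 + 64, by linarith, fun K M N N' t a hK hM hN hN' ha ha1 ht ht' => ?_⟩
  set C : ℝ := 2 * C1 + 64 with hC
  have hC66 : (66 : ℝ) ≤ C := by rw [hC]; linarith
  have hM1 : (1 : ℝ) ≤ M := by exact_mod_cast hM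
  have hM0 : (0 : ℝ) < M := by linarith only [hM1]
  have hK1 : (1 : ℝ) ≤ (K : ℝ) ^ 6 := one_le_pow₀ (by exact_mod_cast hK)
  have hCK : (66 : ℝ) ≤ C * (K : ℝ) ^ 6 := by nlinarith only [hC1, hK1]
  rcases Nat.lt_or_ge N' N with hlt | hge
  · rw [Ioc_eq_empty (by omega), sum_empty, norm_zero]
    positivity
  have hcard : ((Ioc N N').card : ℝ) ≤ 2 * M := by
    rw [Nat.card_Ioc]
    have : N' - N ≤ 2 * M := by omega
    exact_mod_cast this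
  have he1 : 1 / (C * (K : ℝ) ^ 6) ≤ 1 / 5 := by
    apply one_div_le_one_div_of_le (by norm_num)
    linarith only [hCK]
  have he0 : 0 < 1 / (C * (K : ℝ) ^ 6) := by positivity
  rcases Nat.lt_or_ge M 32 with hsmall | hbig
  · -- the trivial bound
    have h2 : ‖∑ n ∈ Ioc N N', ((n + a : ℝ) : ℂ) ^ ((t : ℂ) * Complex.I)‖ ≤ 2 * M := by
      refine (norm_sum_le _ _).trans ((sum_le_sum fun n _ => ExpSum.norm_term n ha).trans ?_)
      rw [sum_const, nsmul_eq_mul, mul_one]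
      exact hcard
    have h3 : (M : ℝ) ^ (1 / (C * (K : ℝ) ^ 6)) ≤ 32 := by
      calc (M : ℝ) ^ (1 / (C * (K : ℝ) ^ 6)) ≤ (M : ℝ) ^ (1 : ℝ) :=
            Real.rpow_le_rpow_of_exponent_le hM1 (by linarith only [he1, he0])
        _ = M := Real.rpow_one _
        _ ≤ 32 := by exact_mod_cast hsmall.le
    calc _ ≤ 2 * (M : ℝ) := h2
      _ = 2 * ((M : ℝ) ^ (1 / (C * (K : ℝ) ^ 6)) * (M : ℝ) ^ (1 - 1 / (C * (K : ℝ) ^ 6))) := by
          rw [← Real.rpow_add hM0]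
          norm_num
      _ ≤ 2 * (32 * (M : ℝ) ^ (1 - 1 / (C * (K : ℝ) ^ 6))) := by
          refine mul_le_mul_of_nonneg_left ?_ (by norm_num)
          exact mul_le_mul_of_nonneg_right h3 (by positivity)
      _ = 64 * (M : ℝ) ^ (1 - 1 / (C * (K : ℝ) ^ 6)) := by ring
      _ ≤ C * (M : ℝ) ^ (1 - 1 / (C * (K : ℝ) ^ 6)) :=
          mul_le_mul_of_nonneg_right (by linarith only [hC1, he1, he0]) (by positivity)
  · set X : ℕ := ⌊(M : ℝ) ^ (2 / 5 : ℝ)⌋₊ with hX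
    have hX1 : 1 ≤ X := by
      rw [hX]
      apply Nat.le_floor
      rw [Nat.cast_one]
      exact Real.one_le_rpow hM1 (by norm_num)
    have hX0 : (0 : ℝ) < X := by exact_mod_cast hX1
    have hXM : (X : ℝ) ^ 2 ≤ (M : ℝ) ^ (4 / 5 : ℝ) := by
      calc (X : ℝ) ^ 2 ≤ ((M : ℝ) ^ (2 / 5 : ℝ)) ^ 2 :=
            pow_le_pow_left₀ hX0.le (Nat.floor_le (by positivity)) 2
        _ = (M : ℝ) ^ (4 / 5 : ℝ) := by
            rw [← Real.rpow_natCast, ← Real.rpow_mul hM0.le]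
            norm_num
    have h2 := shift_avg (fun n : ℕ => ((n + a : ℝ) : ℂ) ^ ((t : ℂ) * Complex.I))
      (fun n => ExpSum.norm_term n ha) N N' X hge hX1
    set P : ℝ := (M : ℝ) ^ (1 - 1 / (C * (K : ℝ) ^ 6)) with hP
    have h3 : ((X : ℝ) ^ 2)⁻¹ * ∑ n ∈ Ioc N N', ‖∑ x ∈ Icc 1 X, ∑ y ∈ Icc 1 X,
        (((n + x * y : ℕ) + a : ℝ) : ℂ) ^ ((t : ℂ) * Complex.I)‖ ≤
        2 * M * (C1 * (M : ℝ) ^ (-(1 / (C1 * (K : ℝ) ^ 6))) + 2 * (M : ℝ) ^ (-2 : ℝ)) := by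
      rw [inv_mul_le_iff₀ (by (clear * - hX1; positivity))]
      calc _ ≤ ∑ _n ∈ Ioc N N', (X : ℝ) ^ 2 *
            (C1 * (M : ℝ) ^ (-(1 / (C1 * (K : ℝ) ^ 6))) + 2 * (M : ℝ) ^ (-2 : ℝ)) := by
            refine sum_le_sum fun n hn => ?_
            have hn' := mem_Ioc.1 hn
            exact ExpSum.inner h1 hK hbig hX (by omega) (by omega) ha ha1 ht ht'
        _ = ((Ioc N N').card : ℝ) * ((X : ℝ) ^ 2 *
            (C1 * (M : ℝ) ^ (-(1 / (C1 * (K : ℝ) ^ 6))) + 2 * (M : ℝ) ^ (-2 : ℝ))) := by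
            rw [sum_const, nsmul_eq_mul]
        _ ≤ (2 * M) * ((X : ℝ) ^ 2 *
            (C1 * (M : ℝ) ^ (-(1 / (C1 * (K : ℝ) ^ 6))) + 2 * (M : ℝ) ^ (-2 : ℝ))) :=
            mul_le_mul_of_nonneg_right hcard (by (clear * - hC1 hM hX1; positivity))
        _ = _ := by ring
    have h4 : (M : ℝ) * (M : ℝ) ^ (-(1 / (C1 * (K : ℝ) ^ 6))) ≤ P := by
      rw [hP]
      nth_rw 1 [← Real.rpow_one (M : ℝ)]
      rw [← Real.rpow_add hM0]
      refine Real.rpow_le_rpow_of_exponent_le hM1 ?_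
      have h5 : 1 / (C * (K : ℝ) ^ 6) ≤ 1 / (C1 * (K : ℝ) ^ 6) := by
        apply one_div_le_one_div_of_le (by (clear * - hC1 hK; positivity))
        exact mul_le_mul_of_nonneg_right (by rw [hC]; linarith only [hC1, he1, he0]) (by (clear * - hK; positivity))
      linarith only [h5]
    have h5 : (M : ℝ) * (M : ℝ) ^ (-2 : ℝ) ≤ P := by
      rw [hP]
      nth_rw 1 [← Real.rpow_one (M : ℝ)]
      rw [← Real.rpow_add hM0]
      refine Real.rpow_le_rpow_of_exponent_le hM1 ?_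
      linarith only [he1, he0]
    have h6 : (X : ℝ) ^ 2 ≤ P := by
      refine hXM.trans ?_
      rw [hP]
      refine Real.rpow_le_rpow_of_exponent_le hM1 ?_
      linarith only [he1]
    have hP0 : 0 ≤ P := by (clear * - hM; positivity)
    have h7 : 2 * M * (C1 * (M : ℝ) ^ (-(1 / (C1 * (K : ℝ) ^ 6))) + 2 * (M : ℝ) ^ (-2 : ℝ)) ≤
        2 * C1 * P + 4 * P := by
      have h8 : 2 * M * (C1 * (M : ℝ) ^ (-(1 / (C1 * (K : ℝ) ^ 6))) + 2 * (M : ℝ) ^ (-2 : ℝ)) =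
          2 * C1 * ((M : ℝ) * (M : ℝ) ^ (-(1 / (C1 * (K : ℝ) ^ 6)))) +
            4 * ((M : ℝ) * (M : ℝ) ^ (-2 : ℝ)) := by ring
      rw [h8]
      exact add_le_add (mul_le_mul_of_nonneg_left h4 (by linarith only [hC1, he1, he0]))
        (mul_le_mul_of_nonneg_left h5 (by norm_num))
    calc _ ≤ _ := h2
      _ ≤ (2 * C1 * P + 4 * P) + 2 * P := by
          refine add_le_add ?_ (by linarith only [h6])
          refine le_trans ?_ h7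
          exact h3
      _ ≤ C * P := by
          rw [hC]
          nlinarith only [h6]

end Pool.Agent.VK
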