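import Pool.Agent.Lib.VK.ZeroFree
import Pool.Agent.Lib.VK.LogDer
import Pool.Agent.Lib.SW.Recursion
import Pool.Agent.Lib.SW.Lower341

/-!
# Bounds for the derivatives of `L'/L` on the right of `Re s = 1`

`SW.Lm (SW.lam (SW.chf χ)) m s = sum_n χ(n) Λ(n) (log n)^m n^(-s)`, up to sign the `m`-th derivative of `L'/L`.

PROOF SKETCH. `ℓ = log T`, `η = ℓ^(-19/20)/4`. For `Re s ≥ 1 + η`: trivial bound `sum (log n)^(m+1) n^(-1-η) ≤ C_m η^(-(m+2))`
(`Λ(n) ≤ log n`; e.g. `(log n)^(m+1) ≤ C_m (2/η)^(m+1) n^(η/2)` and `sum n^(-1-η/2) ≤ 1 + 2/η`).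
For `1 < Re s ≤ 1 + η`: let `v = Im s`, `z0 = 1 + η + iv`, `r = η`: on `closedBall z0 (2 r)` (`Re ≥ 1 - η`, heights within `1` of `v`, so between
`ℓ^B0` and `T/4` if `B = B0 + 1`, `|v| ≤ T/8`) `L` is analytic, nonzero (`zero_free`) and `≤ ℓ^2` (`l_upper`; `Re ≤ 3`), `|L z0| ≥ η/2` (see ZeroFree).
`logder` with `exp M = 2 ℓ^2/η`, `M ≤ 5 log ℓ ≤ ℓ^(1/100)·const`: the `m`-th derivative of `L'/L` at `s` is `≤ C_m ℓ^(1/100) (4 ℓ^(19/20))^(m+1)`.
It equals `± Lm (lam (chf χ)) m s` (`DirichletCharacter.LSeries_twist_vonMangoldt_eq`, `Lm_hasDerivAt`, the functions agree on the open set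
`Re > 1`; induction on `m`).
Both bounds are `≤ C ℓ^(24/25 · (m+2))`.
-/

set_option autoImplicit false

open Finset Filter Pool.Agent.Lib.SW

namespace Pool.Agent.VK

private lemma fb_series_le (g : ℕ → ℂ) (s : ℂ) {y K : ℝ} (hy : 0 < y) (hy1 : y ≤ 1) (hK : 0 ≤ K)
    (hg : ∀ n : ℕ, n ≠ 0 → ‖g n‖ ≤ K * (n : ℝ) ^ (s.re - 1 - y)) :
    ‖LSeries g s‖ ≤ K * (2 / y) := by
  have hsum : Summable (fun n : ℕ => 1 / (n : ℝ) ^ (1 + y)) :=
    Real.summable_one_div_nat_rpow.mpr (by linarith)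
  have h1 : ∑' n : ℕ, 1 / (n : ℝ) ^ (1 + y) ≤ 2 / y := by
    rw [hsum.tsum_eq_zero_add]
    have h0 : 1 / ((0 : ℕ) : ℝ) ^ (1 + y) = 0 := by
      rw [Nat.cast_zero, Real.zero_rpow (by linarith), div_zero]
    rw [h0, zero_add]
    have := l341_zeta_le hy hy1
    refine le_trans (le_of_eq ?_) this
    refine tsum_congr fun n => ?_
    push_cast
    rfl
  have h2 : ‖LSeries g s‖ ≤ K * ∑' n : ℕ, 1 / (n : ℝ) ^ (1 + y) := by
    unfold LSeries
    refine tsum_of_norm_bounded (hsum.hasSum.mul_left K) (fun n => ?_)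
    rcases eq_or_ne n 0 with rfl | hn
    · rw [LSeries.term_zero, norm_zero]
      positivity
    · rw [LSeries.norm_term_eq, if_neg hn]
      have hn0 : (0 : ℝ) < n := by exact_mod_cast Nat.pos_of_ne_zero hn
      rw [div_le_iff₀ (by positivity)]
      refine (hg n hn).trans (le_of_eq ?_)
      rw [mul_assoc, div_mul_eq_mul_div, one_mul, ← Real.rpow_sub hn0]
      congr 2
      ring
  exact h2.trans (mul_le_mul_of_nonneg_left h1 hK)

private lemma fb_lower {q : ℕ} [NeZero q] (χ : DirichletCharacter ℂ q) {s : ℂ} {y : ℝ}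
    (hy : 0 < y) (hy1 : y ≤ 1) (hs : s.re = 1 + y) : y / 2 ≤ ‖χ.LFunction s‖ := by
  have hs1 : 1 < s.re := by linarith
  set g : ℕ → ℂ := (fun n : ℕ => χ (n : ZMod q)) * (fun n : ℕ => (ArithmeticFunction.moebius n : ℂ))
    with hg
  have h : LSeries (fun n : ℕ => χ (n : ZMod q)) s * LSeries g s = 1 :=
    DirichletCharacter.LSeries.mul_mu_eq_one χ hs1
  have hgn : ∀ n, ‖g n‖ ≤ 1 := by
    intro n
    rw [hg, Pi.mul_apply, norm_mul]
    have h1 : ‖χ (n : ZMod q)‖ ≤ 1 := χ.norm_le_one _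
    have h2 : ‖((ArithmeticFunction.moebius n : ℤ) : ℂ)‖ ≤ 1 := by
      rw [Complex.norm_intCast]
      exact_mod_cast ArithmeticFunction.abs_moebius_le_one
    calc _ ≤ (1:ℝ) * 1 := mul_le_mul h1 h2 (norm_nonneg _) zero_le_one
      _ = 1 := one_mul 1
  have h3 : ‖LSeries g s‖ ≤ 1 * (2 / y) := by
    refine fb_series_le g s hy hy1 zero_le_one (fun n hn => ?_)
    have : s.re - 1 - y = 0 := by linarith
    rw [this, Real.rpow_zero, mul_one]
    exact hgn n
  rw [DirichletCharacter.LFunction_eq_LSeries χ hs1]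
  have h4 : 1 = ‖LSeries (fun n : ℕ => χ (n : ZMod q)) s‖ * ‖LSeries g s‖ := by
    rw [← norm_mul, h, norm_one]
  have h5 : 1 ≤ ‖LSeries (fun n : ℕ => χ (n : ZMod q)) s‖ * (2 / y) := by
    rw [one_mul] at h3
    calc (1 : ℝ) = ‖LSeries (fun n : ℕ => χ (n : ZMod q)) s‖ * ‖LSeries g s‖ := h4
      _ ≤ _ := mul_le_mul_of_nonneg_left h3 (norm_nonneg _)
  rw [← mul_div_assoc, le_div_iff₀ hy] at h5
  linarith

private lemma fb_iter {q : ℕ} [NeZero q] (χ : DirichletCharacter ℂ q) (m : ℕ) {s : ℂ}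
    (hs : 1 < s.re) : iteratedDeriv m (fun w => deriv χ.LFunction w / χ.LFunction w) s =
      (-1) ^ (m + 1) * Lm (lam (chf χ)) m s := by
  have hopen : IsOpen {z : ℂ | 1 < z.re} := isOpen_lt continuous_const Complex.continuous_re
  induction m generalizing s with
  | zero =>
    rw [iteratedDeriv_zero]
    have hev : χ.LFunction =ᶠ[nhds s] Lm (chf χ) 0 := by
      filter_upwards [hopen.mem_nhds hs] with z hz
      exact (Lm_chf_zero χ hz).symm
    have h1 : deriv χ.LFunction s = -(Lm (chf χ) 1 s) := by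
      rw [hev.deriv_eq]
      exact (Lm_hasDerivAt (abscissa_chf χ) 0 hs).deriv
    have h0 := Lm_chf_ne_zero χ hs
    rw [h1, ← Lm_chf_zero χ hs, leibniz_zero χ hs]
    field_simp
    ring
  | succ m ih =>
    rw [iteratedDeriv_succ]
    have hev : iteratedDeriv m (fun w => deriv χ.LFunction w / χ.LFunction w) =ᶠ[nhds s]
        (fun z => (-1) ^ (m + 1) * Lm (lam (chf χ)) m z) := by
      filter_upwards [hopen.mem_nhds hs] with z hz
      exact ih hz
    rw [hev.deriv_eq, ((Lm_hasDerivAt (abscissa_lam_chf χ) m hs).const_mul _).deriv]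
    ring

private theorem fb_triv (m : ℕ) : ∃ C : ℝ, 0 < C ∧ ∀ (q : ℕ) [NeZero q]
    (χ : DirichletCharacter ℂ q) (s : ℂ),
    1 < s.re → s.re ≤ 2 → ‖Lm (lam (chf χ)) m s‖ ≤ C * (1 / (s.re - 1)) ^ (m + 2) := by
  refine ⟨4 * (2 * ((m : ℝ) + 1)) ^ (m + 1), by positivity, fun q _ χ s hs1 hs2 => ?_⟩
  set x : ℝ := s.re - 1 with hx
  have hx0 : 0 < x := by linarith
  have hx1 : x ≤ 1 := by linarith
  have hm : (0 : ℝ) < (m : ℝ) + 1 := by positivity
  set e : ℝ := x / (2 * ((m : ℝ) + 1)) with he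
  have he0 : 0 < e := by positivity
  have h1 : ‖LSeries (lg (lam (chf χ)) m) s‖ ≤ (1 / e) ^ (m + 1) * (2 / (x / 2)) := by
    refine fb_series_le _ s (by positivity) (by linarith) (by positivity) (fun n hn => ?_)
    have hn0 : (0 : ℝ) < n := by exact_mod_cast Nat.pos_of_ne_zero hn
    have hn1 : (1 : ℝ) ≤ n := by exact_mod_cast Nat.one_le_iff_ne_zero.2 hn
    have hlog0 : 0 ≤ Real.log n := Real.log_nonneg hn1
    have hL : ‖lg (lam (chf χ)) m n‖ ≤ Real.log n ^ (m + 1) := by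
      simp only [lg, lam]
      rw [norm_mul, norm_mul, norm_pow, Complex.norm_real, Complex.norm_real,
        Real.norm_of_nonneg hlog0, Real.norm_of_nonneg ArithmeticFunction.vonMangoldt_nonneg,
        pow_succ']
      have h2 : ‖chf χ n‖ * ArithmeticFunction.vonMangoldt n ≤ 1 * Real.log n :=
        mul_le_mul (norm_chf_le χ n) ArithmeticFunction.vonMangoldt_le_log
          ArithmeticFunction.vonMangoldt_nonneg zero_le_one
      rw [one_mul] at h2
      exact mul_le_mul_of_nonneg_right h2 (by positivity)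
    refine hL.trans ?_
    have h3 : Real.log n ≤ (n : ℝ) ^ e / e := Real.log_le_rpow_div hn0.le he0
    calc Real.log n ^ (m + 1) ≤ ((n : ℝ) ^ e / e) ^ (m + 1) := pow_le_pow_left₀ hlog0 h3 _
      _ = (1 / e) ^ (m + 1) * ((n : ℝ) ^ e) ^ (m + 1) := by rw [← mul_pow]; congr 1; ring
      _ = (1 / e) ^ (m + 1) * (n : ℝ) ^ (s.re - 1 - x / 2) := by
        congr 1
        rw [← Real.rpow_natCast, ← Real.rpow_mul hn0.le]
        congr 1
        rw [he, ← hx]
        push_cast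
        field_simp
        ring
  have h2 : (1 / e) ^ (m + 1) * (2 / (x / 2)) =
      4 * (2 * ((m : ℝ) + 1)) ^ (m + 1) * (1 / x) ^ (m + 2) := by
    have e1 : 1 / e = (2 * ((m : ℝ) + 1)) * (1 / x) := by
      rw [he]
      field_simp
    rw [e1, mul_pow, pow_succ (1 / x) (m + 1)]
    field_simp
    norm_num
  rw [← h2]
  exact h1

private lemma fb_event : ∀ᶠ T : ℝ in atTop, 8 * Real.log T ^ (3 : ℕ) ≤
    Real.exp (Real.log T ^ (1 / 100 : ℝ)) ∧ 2 ≤ Real.log T ∧ 8 ≤ T := by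
  have h1 : Tendsto (fun T : ℝ => Real.log T ^ (1 / 100 : ℝ)) atTop atTop :=
    (tendsto_rpow_atTop (by norm_num)).comp Real.tendsto_log_atTop
  have h2 := (Real.tendsto_exp_div_pow_atTop 300).comp h1
  have h3 := h2.eventually_ge_atTop 8
  filter_upwards [h3, Real.tendsto_log_atTop.eventually_ge_atTop 2, eventually_ge_atTop 8]
    with T hT hT2 hT8
  refine ⟨?_, hT2, hT8⟩
  simp only [Function.comp] at hT
  have hl : 0 < Real.log T := by linarith
  have h4 : (Real.log T ^ (1 / 100 : ℝ)) ^ 300 = Real.log T ^ (3 : ℕ) := by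
    rw [← Real.rpow_natCast, ← Real.rpow_mul hl.le, ← Real.rpow_natCast]
    congr 1
    norm_num
  rw [h4, le_div_iff₀ (by positivity)] at hT
  exact hT

theorem f_bound_vk (A m : ℕ) : ∃ B : ℕ, ∃ C : ℝ, 0 < C ∧ ∀ᶠ T : ℝ in atTop, ∀ (q : ℕ) [NeZero q]
    (χ : DirichletCharacter ℂ q), (q : ℝ) ≤ Real.log T ^ A → ∀ s : ℂ, 1 < s.re → s.re ≤ 2 →
    Real.log T ^ B ≤ |s.im| → |s.im| ≤ T / 8 →
    ‖Lm (lam (chf χ)) m s‖ ≤ C * Real.log T ^ ((24 / 25 : ℝ) * (m + 2)) := by
  obtain ⟨Bz, hz⟩ := zero_free A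
  obtain ⟨Bu, hu⟩ := l_upper A
  obtain ⟨C1, hC1, htriv⟩ := fb_triv m
  obtain ⟨C2, hC2, hder⟩ := logder m
  refine ⟨max Bz Bu + 1, C1 * 4 ^ (m + 2) + C2 * 4 ^ (m + 1), by positivity, ?_⟩
  filter_upwards [hz, hu, fb_event] with T hzT huT hT q _ χ hq s hs1 hs2 him1 him2
  obtain ⟨hexp, hl2, hT8⟩ := hT
  set l : ℝ := Real.log T with hl
  have hl0 : 0 < l := by linarith only [hl2]
  have hl1 : 1 ≤ l := by linarith only [hl2]
  set P : ℝ := l ^ (19 / 20 : ℝ) with hP
  have hP1 : 1 ≤ P := Real.one_le_rpow hl1 (by norm_num)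
  have hP0 : 0 < P := by linarith only [hP1]
  have hPl : P ≤ l := by
    calc P ≤ l ^ (1 : ℝ) := Real.rpow_le_rpow_of_exponent_le hl1 (by norm_num)
      _ = l := Real.rpow_one l
  have hPinv : l ^ (-(19 / 20) : ℝ) = 1 / P := by
    rw [Real.rpow_neg hl0.le, one_div]
  have h910 : 1 / P ≤ l ^ (-(9 / 10) : ℝ) := by
    rw [← hPinv]
    exact Real.rpow_le_rpow_of_exponent_le hl1 (by norm_num)
  set η : ℝ := 1 / (4 * P) with hη
  have hη0 : 0 < η := by (clear * - hl2; positivity)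
  have hη4 : η ≤ 1 / 4 := by
    rw [hη]
    exact one_div_le_one_div_of_le (by norm_num) (by linarith only [hP1])
  have hηP : η ≤ 1 / P := by
    rw [hη]
    exact one_div_le_one_div_of_le hP0 (by linarith only [hP1, hη0, hη4])
  have hηinv : 1 / η = 4 * P := by rw [hη, one_div_one_div]
  rcases le_or_gt (1 + η) s.re with hcase | hcase
  · refine (htriv q χ s hs1 hs2).trans ?_
    have h1 : 1 / (s.re - 1) ≤ 4 * P := by
      rw [← hηinv]
      exact one_div_le_one_div_of_le hη0 (by linarith only [hcase])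
    have h2 : (1 / (s.re - 1)) ^ (m + 2) ≤ (4 * P) ^ (m + 2) :=
      pow_le_pow_left₀ (by
        have : 0 < s.re - 1 := by linarith only [hs1]
        (clear * - hs1; positivity)) h1 _
    have h3 : P ^ (m + 2) ≤ l ^ ((24 / 25 : ℝ) * (m + 2)) := by
      rw [hP, ← Real.rpow_natCast, ← Real.rpow_mul hl0.le]
      refine Real.rpow_le_rpow_of_exponent_le hl1 ?_
      push_cast
      have : (0 : ℝ) ≤ m := Nat.cast_nonneg m
      nlinarith only [hη0, hη4]
    have h4 : (0 : ℝ) ≤ l ^ ((24 / 25 : ℝ) * (m + 2)) := by (clear * - hl2; positivity)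
    calc C1 * (1 / (s.re - 1)) ^ (m + 2) ≤ C1 * (4 * P) ^ (m + 2) :=
          mul_le_mul_of_nonneg_left h2 hC1.le
      _ = C1 * 4 ^ (m + 2) * P ^ (m + 2) := by rw [mul_pow]; ring
      _ ≤ C1 * 4 ^ (m + 2) * l ^ ((24 / 25 : ℝ) * (m + 2)) :=
          mul_le_mul_of_nonneg_left h3 (by (clear * - hC1; positivity))
      _ ≤ (C1 * 4 ^ (m + 2) + C2 * 4 ^ (m + 1)) * l ^ ((24 / 25 : ℝ) * (m + 2)) := by
          rw [add_mul]
          have : 0 ≤ C2 * 4 ^ (m + 1) * l ^ ((24 / 25 : ℝ) * (m + 2)) := by (clear * - hC2 hl2; positivity)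
          linarith only [this]
  · set z0 : ℂ := ⟨1 + η, s.im⟩ with hz0
    set M : ℝ := l ^ (1 / 100 : ℝ) with hM
    have hM0 : 0 ≤ M := by (clear * - hl2; positivity)
    have hBpow : ∀ B' : ℕ, B' ≤ max Bz Bu → l ^ B' ≤ l ^ (max Bz Bu + 1) - 1 := by
      intro B' hB'
      have h1 : l ^ B' ≤ l ^ (max Bz Bu) := pow_le_pow_right₀ hl1 hB'
      have h2 : 1 ≤ l ^ (max Bz Bu) := one_le_pow₀ hl1
      have h3 : l ^ (max Bz Bu + 1) = l ^ (max Bz Bu) * l := pow_succ _ _
      rw [h3]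
      nlinarith only [hl2, h1, h2]
    have hball : ∀ z ∈ Metric.closedBall z0 (2 * η), 1 - η ≤ z.re ∧ z.re ≤ 2 ∧
        l ^ (max Bz Bu + 1) - 1 ≤ |z.im| ∧ |z.im| ≤ T / 4 := by
      intro z hz'
      rw [Metric.mem_closedBall, dist_eq_norm] at hz'
      have h1 := (Complex.abs_re_le_norm (z - z0)).trans hz'
      have h2 := (Complex.abs_im_le_norm (z - z0)).trans hz'
      rw [Complex.sub_re] at h1
      rw [Complex.sub_im] at h2
      have e1 : z0.re = 1 + η := rfl
      have e2 : z0.im = s.im := rfl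
      rw [e1] at h1
      rw [e2] at h2
      have h3 := abs_le.1 h1
      have h4 : |s.im| ≤ |z.im| + |z.im - s.im| := by
        have := abs_sub_abs_le_abs_sub s.im z.im
        rw [abs_sub_comm] at this
        linarith only [this]
      have h5 : |z.im| ≤ |s.im| + |z.im - s.im| := by
        have := abs_sub_abs_le_abs_sub z.im s.im
        linarith only [this]
      refine ⟨by linarith only [h3, h3.1], by linarith only [hs1, hη4, hcase, h3, h3.2], by linarith only [hs1, him1, hη4, hcase, h2, h4], by linarith only [hs1, him2, hT8, hη4, hcase, h2, h5]⟩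
    have hne1 : ∀ z ∈ Metric.closedBall z0 (2 * η), z ≠ 1 := by
      intro z hz' h1
      have h2 := (hball z hz').2.2.1
      rw [h1, Complex.one_im, abs_zero] at h2
      have h3 := hBpow 0 (Nat.zero_le _)
      rw [pow_zero] at h3
      linarith only [hs1, hη4, hcase, h2, h3]
    have han : AnalyticOnNhd ℂ χ.LFunction (Metric.closedBall z0 (2 * η)) := by
      have h1 : AnalyticOnNhd ℂ χ.LFunction {z : ℂ | z ≠ 1} := by
        refine DifferentiableOn.analyticOnNhd (fun z hz' => ?_) isOpen_ne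
        exact (DirichletCharacter.differentiableAt_LFunction χ z (Or.inl hz')).differentiableWithinAt
      exact h1.mono (fun z hz' => hne1 z hz')
    have hnz : ∀ z ∈ Metric.closedBall z0 (2 * η), χ.LFunction z ≠ 0 := by
      intro z hz'
      obtain ⟨h1, h2, h3, h4⟩ := hball z hz'
      refine hzT q χ hq z ?_ ?_ h4
      · rw [hPinv]
        linarith only [hηP, h1]
      · exact (hBpow Bz (le_max_left _ _)).trans h3
    have hlow : η / 2 ≤ ‖χ.LFunction z0‖ := fb_lower χ hη0 (by linarith only [hs1, hη4, hcase]) rfl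
    have hupp : ∀ z ∈ Metric.closedBall z0 (2 * η),
        ‖χ.LFunction z‖ ≤ Real.exp M * ‖χ.LFunction z0‖ := by
      intro z hz'
      obtain ⟨h1, h2, h3, h4⟩ := hball z hz'
      have h5 : ‖χ.LFunction z‖ ≤ l ^ 2 := by
        refine huT q χ hq z ?_ (by linarith only [hs1, hη4, hcase, h2]) ?_ (by linarith only [hs1, hT8, hη4, hcase, h4])
        · linarith only [h910, hηP, h1]
        · exact (hBpow Bu (le_max_right _ _)).trans h3
      have h6 : l ^ 2 ≤ Real.exp M * (η / 2) := by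
        have h7 : 8 * l ^ (3 : ℕ) * (η / 2) ≤ Real.exp M * (η / 2) :=
          mul_le_mul_of_nonneg_right hexp (by (clear * - hl2; positivity))
        refine le_trans ?_ h7
        have h8 : 8 * l ^ (3 : ℕ) * (η / 2) = l ^ 2 * (l / P) := by
          rw [hη]
          field_simp
          norm_num
        rw [h8]
        have h9 : 1 ≤ l / P := by rw [le_div_iff₀ hP0]; linarith only [hPl]
        nlinarith only [h9, sq_nonneg l]
      exact h5.trans (h6.trans (mul_le_mul_of_nonneg_left hlow (Real.exp_pos M).le))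
    have hmem : s ∈ Metric.closedBall z0 η := by
      rw [Metric.mem_closedBall, dist_eq_norm]
      have h1 : s - z0 = ((s.re - (1 + η) : ℝ) : ℂ) := by
        apply Complex.ext
        · simp [hz0]
        · simp [hz0]
      rw [h1, Complex.norm_real, Real.norm_eq_abs, abs_le]
      constructor <;> linarith only [hs1, hcase]
    have hmain := hder χ.LFunction z0 η M hη0 hM0 han hnz hupp s hmem
    rw [fb_iter χ m hs1, norm_mul, norm_pow, norm_neg, norm_one, one_pow, one_mul, hηinv] at hmain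
    refine hmain.trans ?_
    have h3 : M * P ^ (m + 1) ≤ l ^ ((24 / 25 : ℝ) * (m + 2)) := by
      rw [hP, hM, ← Real.rpow_natCast, ← Real.rpow_mul hl0.le, ← Real.rpow_add hl0]
      refine Real.rpow_le_rpow_of_exponent_le hl1 ?_
      push_cast
      have : (0 : ℝ) ≤ m := Nat.cast_nonneg m
      nlinarith only [hs1, hη4, hcase]
    calc C2 * M * (4 * P) ^ (m + 1) = C2 * 4 ^ (m + 1) * (M * P ^ (m + 1)) := by
          rw [mul_pow]; ring
      _ ≤ C2 * 4 ^ (m + 1) * l ^ ((24 / 25 : ℝ) * (m + 2)) :=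
          mul_le_mul_of_nonneg_left h3 (by (clear * - hC2; positivity))
      _ ≤ (C1 * 4 ^ (m + 2) + C2 * 4 ^ (m + 1)) * l ^ ((24 / 25 : ℝ) * (m + 2)) := by
          rw [add_mul]
          have : 0 ≤ C1 * 4 ^ (m + 2) * l ^ ((24 / 25 : ℝ) * (m + 2)) := by (clear * - hC1 hl2; positivity)
          linarith only [this]

/-- Trivial bound in the half plane. -/
theorem f_triv (m : ℕ) : ∃ C : ℝ, 0 < C ∧ ∀ (q : ℕ) [NeZero q] (χ : DirichletCharacter ℂ q) (s : ℂ),
    1 < s.re → s.re ≤ 2 → ‖Lm (lam (chf χ)) m s‖ ≤ C * (1 / (s.re - 1)) ^ (m + 2) := by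
  exact fb_triv m

end Pool.Agent.VK
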