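import Pool.Agent.Lib.VK.DefsC

/-!
# The Kusmin-Landau inequality for `sum f(n) n^(-iv)`
-/

set_option autoImplicit false

open Finset

namespace Pool.Agent.VK

namespace KLAux

/-- The coefficient `(1/2) cot (θ/2)`. -/
noncomputable def ct (θ : ℝ) : ℝ := 1 / (2 * Real.tan (θ / 2))

lemma half_lt {θ : ℝ} (h1 : θ ≤ 1) : θ / 2 < Real.pi / 2 := by
  have := Real.pi_gt_three
  linarith

lemma tan_pos' {θ : ℝ} (h0 : 0 < θ) (h1 : θ ≤ 1) : 0 < Real.tan (θ / 2) :=
  Real.tan_pos_of_pos_of_lt_pi_div_two (by linarith) (half_lt h1)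

lemma ct_nonneg {θ : ℝ} (h0 : 0 < θ) (h1 : θ ≤ 1) : 0 ≤ ct θ := by
  have := tan_pos' h0 h1
  unfold ct
  positivity

lemma ct_le {θ : ℝ} (h0 : 0 < θ) (h1 : θ ≤ 1) : ct θ ≤ 1 / θ := by
  unfold ct
  have h2 := Real.lt_tan (x := θ / 2) (by linarith) (half_lt h1)
  exact one_div_le_one_div_of_le h0 (by linarith)

lemma ct_anti {θ θ' : ℝ} (h0 : 0 < θ') (h1 : θ ≤ 1) (h : θ' ≤ θ) : ct θ ≤ ct θ' := by
  unfold ct
  have h2 := tan_pos' h0 (h.trans h1)
  have h3 : Real.tan (θ' / 2) ≤ Real.tan (θ / 2) := by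
    rcases eq_or_lt_of_le h with h4 | h4
    · rw [h4]
    · exact (Real.tan_lt_tan_of_lt_of_lt_pi_div_two (by have := Real.pi_pos; linarith)
        (half_lt h1) (by linarith)).le
  exact one_div_le_one_div_of_le (by linarith) (by linarith)

lemma ident {θ : ℝ} (h0 : 0 < θ) (h1 : θ ≤ 1) :
    (1 - Complex.exp ((θ : ℂ) * Complex.I)) * (1 / 2 + (ct θ : ℂ) * Complex.I) = 1 := by
  have hs : 0 < Real.sin (θ / 2) := Real.sin_pos_of_pos_of_lt_pi (by linarith) (by
    have := Real.pi_gt_three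
    linarith)
  have hc : ct θ = Real.cos (θ / 2) / (2 * Real.sin (θ / 2)) := by
    unfold ct
    rw [Real.tan_eq_sin_div_cos, ← mul_div_assoc, one_div_div]
  have he : Complex.exp ((θ : ℂ) * Complex.I) = ((Real.cos θ : ℝ) : ℂ) +
      ((Real.sin θ : ℝ) : ℂ) * Complex.I := by
    rw [Complex.exp_mul_I, Complex.ofReal_cos, Complex.ofReal_sin]
  have h2 : Real.cos θ = 1 - 2 * Real.sin (θ / 2) ^ 2 := by
    have h3 := Real.cos_sq' (θ / 2)
    have h4 := Real.cos_two_mul (θ / 2)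
    rw [show 2 * (θ / 2) = θ by ring] at h4
    rw [h4, h3]
    ring
  have h5 : Real.sin θ = 2 * Real.sin (θ / 2) * Real.cos (θ / 2) := by
    have h4 := Real.sin_two_mul (θ / 2)
    rw [show 2 * (θ / 2) = θ by ring] at h4
    exact h4
  rw [he, h2, h5, hc]
  have hs' : ((Real.sin (θ / 2) : ℝ) : ℂ) ≠ 0 := by exact_mod_cast hs.ne'
  have hone : ((Real.sin (θ / 2) : ℝ) : ℂ) ^ 2 + ((Real.cos (θ / 2) : ℝ) : ℂ) ^ 2 = 1 := by
    exact_mod_cast Real.sin_sq_add_cos_sq (θ / 2)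
  push_cast at hs' hone ⊢
  field_simp
  have hI : Complex.I ^ 2 = -1 := Complex.I_sq
  linear_combination (2 * Complex.sin ((θ : ℂ) / 2)) * hone -
    (2 * Complex.sin ((θ : ℂ) / 2) * Complex.cos ((θ : ℂ) / 2) ^ 2) * hI

lemma seq_bound {F : ℕ → ℂ} {θ : ℕ → ℝ} (hF : ∀ m, ‖F m‖ = 1)
    (hstep : ∀ m, F (m + 1) = F m * Complex.exp ((θ m : ℂ) * Complex.I)) (h0 : ∀ m, 0 < θ m)
    (h1 : ∀ m, θ m ≤ 1) (hanti : ∀ m, θ (m + 1) ≤ θ m) (M : ℕ) :
    ‖∑ m ∈ range (M + 1), F m‖ ≤ 1 + 2 / θ M := by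
  have hA : ∀ M, ‖∑ m ∈ range (M + 1), (F m - F (m + 1)) * (ct (θ m) : ℂ) +
      F (M + 1) * (ct (θ M) : ℂ)‖ ≤ ct (θ M) := by
    intro M
    induction M with
    | zero =>
      rw [zero_add, sum_range_one]
      have : (F 0 - F (0 + 1)) * (ct (θ 0) : ℂ) + F (0 + 1) * (ct (θ 0) : ℂ) =
          F 0 * (ct (θ 0) : ℂ) := by ring
      rw [this, norm_mul, hF, one_mul, Complex.norm_real, Real.norm_eq_abs,
        abs_of_nonneg (ct_nonneg (h0 0) (h1 0))]
    | succ M ih =>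
      rw [sum_range_succ]
      have h2 : ∑ m ∈ range (M + 1), (F m - F (m + 1)) * (ct (θ m) : ℂ) +
          (F (M + 1) - F (M + 1 + 1)) * (ct (θ (M + 1)) : ℂ) +
            F (M + 1 + 1) * (ct (θ (M + 1)) : ℂ) =
          (∑ m ∈ range (M + 1), (F m - F (m + 1)) * (ct (θ m) : ℂ) +
            F (M + 1) * (ct (θ M) : ℂ)) +
            F (M + 1) * (((ct (θ (M + 1)) - ct (θ M) : ℝ)) : ℂ) := by
        push_cast
        ring
      rw [h2]
      refine (norm_add_le _ _).trans ?_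
      rw [norm_mul, hF, one_mul, Complex.norm_real, Real.norm_eq_abs,
        abs_of_nonneg (sub_nonneg.2 (ct_anti (h0 (M + 1)) (h1 M) (hanti M)))]
      linarith
  have hsum : ∑ m ∈ range (M + 1), F m = (F 0 - F (M + 1)) * (1 / 2) +
      (∑ m ∈ range (M + 1), (F m - F (m + 1)) * (ct (θ m) : ℂ)) * Complex.I := by
    have h2 : ∀ m, F m = (F m - F (m + 1)) * (1 / 2) +
        ((F m - F (m + 1)) * (ct (θ m) : ℂ)) * Complex.I := by
      intro m
      have h3 := ident (h0 m) (h1 m)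
      have h4 : F m - F (m + 1) = F m * (1 - Complex.exp ((θ m : ℂ) * Complex.I)) := by
        rw [hstep m]
        ring
      rw [h4]
      linear_combination (-F m) * h3
    have h5 : ∑ m ∈ range (M + 1), F m = ∑ m ∈ range (M + 1), ((F m - F (m + 1)) * (1 / 2) +
        ((F m - F (m + 1)) * (ct (θ m) : ℂ)) * Complex.I) := sum_congr rfl fun m _ => h2 m
    rw [h5, sum_add_distrib, ← sum_mul, ← sum_mul, sum_range_sub']
  have h2 : ‖∑ m ∈ range (M + 1), (F m - F (m + 1)) * (ct (θ m) : ℂ)‖ ≤ 2 * ct (θ M) := by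
    have h3 := hA M
    have h4 : ‖F (M + 1) * (ct (θ M) : ℂ)‖ = ct (θ M) := by
      rw [norm_mul, hF, one_mul, Complex.norm_real, Real.norm_eq_abs,
        abs_of_nonneg (ct_nonneg (h0 M) (h1 M))]
    have h5 := norm_sub_le (∑ m ∈ range (M + 1), (F m - F (m + 1)) * (ct (θ m) : ℂ) +
      F (M + 1) * (ct (θ M) : ℂ)) (F (M + 1) * (ct (θ M) : ℂ))
    rw [add_sub_cancel_right] at h5
    linarith
  rw [hsum]
  refine (norm_add_le _ _).trans ?_
  have h6 : ‖(F 0 - F (M + 1)) * (1 / 2 : ℂ)‖ ≤ 1 := by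
    rw [norm_mul]
    have h7 := norm_sub_le (F 0) (F (M + 1))
    rw [hF, hF] at h7
    have h8 : ‖(1 / 2 : ℂ)‖ = 1 / 2 := by norm_num
    rw [h8]
    linarith
  have h9 := ct_le (h0 M) (h1 M)
  have h11 : ‖(∑ m ∈ range (M + 1), (F m - F (m + 1)) * (ct (θ m) : ℂ)) * Complex.I‖ =
      ‖∑ m ∈ range (M + 1), (F m - F (m + 1)) * (ct (θ m) : ℂ)‖ := by
    rw [norm_mul, Complex.norm_I, mul_one]
  rw [h11]
  have h10 : 2 / θ M = 2 * (1 / θ M) := by ring
  rw [h10]
  linarith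

lemma nit_exp {n : ℕ} (hn : 1 ≤ n) (v : ℝ) :
    nit n v = Complex.exp (((-v * Real.log n : ℝ) : ℂ) * Complex.I) := by
  unfold nit
  have h0 : ((n : ℝ) : ℂ) ≠ 0 := by
    have : (n : ℝ) ≠ 0 := by exact_mod_cast (by omega : n ≠ 0)
    exact_mod_cast this
  rw [Complex.cpow_def_of_ne_zero h0, ← Complex.ofReal_log (Nat.cast_nonneg n)]
  congr 1
  push_cast
  ring

lemma nit_neg {n : ℕ} (hn : 1 ≤ n) (v : ℝ) : nit n (-v) = (starRingEnd ℂ) (nit n v) := by
  rw [nit_exp hn, nit_exp hn, ← Complex.exp_conj]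
  congr 1
  rw [map_mul, Complex.conj_ofReal, Complex.conj_I]
  push_cast
  ring

/-- One residue class, negative frequency. -/
lemma class_neg {q n₀ : ℕ} (hq : 1 ≤ q) (hn : 1 ≤ n₀) {w : ℝ} (hw : 1 ≤ w)
    (hqw : q * w ≤ n₀) (M : ℕ) :
    ‖∑ m ∈ range (M + 1), nit (n₀ + q * m) (-w)‖ ≤
      1 + 2 / (w * (Real.log (n₀ + q * M + q : ℕ) - Real.log (n₀ + q * M : ℕ))) := by
  have hq0 : (0 : ℝ) < q := by exact_mod_cast hq
  have hn0 : (0 : ℝ) < n₀ := by exact_mod_cast hn
  have hw0 : 0 < w := by linarith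
  have hlog : ∀ m : ℕ, Real.log (n₀ + q * m + q : ℕ) - Real.log (n₀ + q * m : ℕ) =
      Real.log (1 + q / (n₀ + q * m : ℕ)) := by
    intro m
    have h1 : (0 : ℝ) < ((n₀ + q * m : ℕ) : ℝ) := by positivity
    rw [← Real.log_div (by positivity) h1.ne']
    congr 1
    push_cast at h1 ⊢
    field_simp
  refine seq_bound (F := fun m => nit (n₀ + q * m) (-w))
    (θ := fun m => w * (Real.log (n₀ + q * m + q : ℕ) - Real.log (n₀ + q * m : ℕ)))
    ?_ ?_ ?_ ?_ ?_ M
  · intro m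
    exact norm_nit (by omega) _
  · intro m
    show nit (n₀ + q * (m + 1)) (-w) = nit (n₀ + q * m) (-w) * _
    rw [nit_exp (by omega), nit_exp (by omega), ← Complex.exp_add]
    congr 1
    rw [show n₀ + q * (m + 1) = n₀ + q * m + q by ring]
    push_cast
    ring
  · intro m
    show 0 < w * _
    rw [hlog]
    refine mul_pos hw0 (Real.log_pos ?_)
    have : (0 : ℝ) < q / ((n₀ + q * m : ℕ) : ℝ) := by positivity
    linarith
  · intro m
    show w * _ ≤ 1
    rw [hlog]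
    have h1 : (0 : ℝ) < ((n₀ + q * m : ℕ) : ℝ) := by positivity
    have h2 : Real.log (1 + q / (n₀ + q * m : ℕ)) ≤ q / (n₀ + q * m : ℕ) := by
      have h3 := Real.log_le_sub_one_of_pos
        (show (0 : ℝ) < 1 + q / ((n₀ + q * m : ℕ) : ℝ) by positivity)
      linarith
    have h4 : w * (q / ((n₀ + q * m : ℕ) : ℝ)) ≤ 1 := by
      rw [← mul_div_assoc, div_le_one h1]
      push_cast
      have : (0 : ℝ) ≤ q * m := by positivity
      linarith
    exact (mul_le_mul_of_nonneg_left h2 hw0.le).trans h4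
  · intro m
    show w * _ ≤ w * _
    rw [hlog, hlog]
    refine mul_le_mul_of_nonneg_left (Real.log_le_log (by positivity) ?_) hw0.le
    have h1 : (0 : ℝ) < ((n₀ + q * m : ℕ) : ℝ) := by positivity
    have h2 : ((n₀ + q * m : ℕ) : ℝ) ≤ ((n₀ + q * (m + 1) : ℕ) : ℝ) := by
      push_cast
      nlinarith
    have h3 := div_le_div_of_nonneg_left hq0.le h1 h2
    linarith

/-- One residue class. -/
lemma class_all {q n₀ N : ℕ} (hq : 1 ≤ q) (hN : N ≤ n₀) (hN1 : 1 ≤ N) {v : ℝ} (hv : 1 ≤ |v|)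
    (hqv : q * |v| ≤ N) (M : ℕ) (hM : n₀ + q * M ≤ 2 * N) :
    ‖∑ m ∈ range (M + 1), nit (n₀ + q * m) v‖ ≤ 7 * (N / (|v| * q)) := by
  have hq0 : (0 : ℝ) < q := by exact_mod_cast hq
  have hN0 : (0 : ℝ) < N := by exact_mod_cast hN1
  have hv0 : 0 < |v| := by linarith
  have hNn : (N : ℝ) ≤ n₀ := by exact_mod_cast hN
  have h1 : ‖∑ m ∈ range (M + 1), nit (n₀ + q * m) v‖ =
      ‖∑ m ∈ range (M + 1), nit (n₀ + q * m) (-|v|)‖ := by
    rcases le_or_gt 0 v with h | h
    · rw [abs_of_nonneg h]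
      have h2 : ∑ m ∈ range (M + 1), nit (n₀ + q * m) (-v) =
          (starRingEnd ℂ) (∑ m ∈ range (M + 1), nit (n₀ + q * m) v) := by
        rw [map_sum]
        exact sum_congr rfl fun m _ => nit_neg (by omega) v
      rw [h2, RCLike.norm_conj]
    · rw [abs_of_neg h, neg_neg]
  rw [h1]
  refine (class_neg hq (hN1.trans hN) hv (hqv.trans hNn) M).trans ?_
  have hqN : (q : ℝ) ≤ N := by nlinarith
  have hx : (0 : ℝ) < ((n₀ + q * M : ℕ) : ℝ) := by
    have : 0 < n₀ + q * M := by omega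
    exact_mod_cast this
  have hx2 : ((n₀ + q * M : ℕ) : ℝ) ≤ 2 * N := by exact_mod_cast hM
  have h2 : (q : ℝ) / (3 * N) ≤
      Real.log (n₀ + q * M + q : ℕ) - Real.log (n₀ + q * M : ℕ) := by
    have h3 := Real.log_le_sub_one_of_pos
      (show (0 : ℝ) < ((n₀ + q * M : ℕ) : ℝ) / ((n₀ + q * M + q : ℕ) : ℝ) by positivity)
    rw [Real.log_div (by positivity) (by positivity)] at h3
    have h4 : ((n₀ + q * M : ℕ) : ℝ) / ((n₀ + q * M + q : ℕ) : ℝ) - 1 =
        - (q / ((n₀ + q * M + q : ℕ) : ℝ)) := by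
      have h5 : (0 : ℝ) < ((n₀ + q * M + q : ℕ) : ℝ) := by positivity
      push_cast at h5 ⊢
      field_simp
      ring
    have h6 : (q : ℝ) / (3 * N) ≤ q / ((n₀ + q * M + q : ℕ) : ℝ) := by
      refine div_le_div_of_nonneg_left hq0.le (by positivity) ?_
      push_cast at hx2 ⊢
      linarith
    linarith
  have h3 : 0 < |v| * (q / (3 * N)) := by positivity
  have h4 : 2 / (|v| * (Real.log (n₀ + q * M + q : ℕ) - Real.log (n₀ + q * M : ℕ))) ≤
      2 / (|v| * (q / (3 * N))) :=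
    div_le_div_of_nonneg_left (by norm_num) h3 (mul_le_mul_of_nonneg_left h2 hv0.le)
  have h5 : 2 / (|v| * (q / (3 * N))) = 6 * (N / (|v| * q)) := by
    field_simp
    ring
  have h6 : 1 ≤ (N : ℝ) / (|v| * q) := by
    rw [le_div_iff₀ (by positivity)]
    linarith
  linarith

end KLAux

open KLAux in
theorem kl_sum : ∃ C : ℝ, 1 ≤ C ∧ ∀ (q N N' : ℕ) (f : ZMod q → ℂ) (v : ℝ), 1 ≤ q → 1 ≤ N →
    N' ≤ 2 * N → (∀ a, ‖f a‖ ≤ 1) → 1 ≤ |v| → q * |v| ≤ N →
    ‖∑ n ∈ Ioc N N', f (n : ZMod q) * nit n v‖ ≤ C * N / |v| := by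
  refine ⟨7, by norm_num, ?_⟩
  intro q N N' f v hq hN hN' hf hv hqv
  have hq0 : (0 : ℝ) < q := by exact_mod_cast hq
  have hN0 : (0 : ℝ) < N := by exact_mod_cast hN
  have hv0 : 0 < |v| := by linarith
  obtain ⟨L, hL⟩ : ∃ L, L = N' - N := ⟨_, rfl⟩
  have h1 : ∑ n ∈ Ioc N N', f (n : ZMod q) * nit n v =
      ∑ j ∈ range L, f ((N + 1 + j : ℕ) : ZMod q) * nit (N + 1 + j) v := by
    refine sum_bij' (fun n _ => n - (N + 1)) (fun j _ => N + 1 + j) ?_ ?_ ?_ ?_ ?_
    · intro n hn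
      rw [mem_Ioc] at hn
      rw [mem_range]
      omega
    · intro j hj
      rw [mem_range] at hj
      rw [mem_Ioc]
      omega
    · intro n hn
      rw [mem_Ioc] at hn
      show N + 1 + (n - (N + 1)) = n
      omega
    · intro j _
      show N + 1 + j - (N + 1) = j
      omega
    · intro n hn
      rw [mem_Ioc] at hn
      show _ = f ((N + 1 + (n - (N + 1)) : ℕ) : ZMod q) * nit (N + 1 + (n - (N + 1))) v
      rw [show N + 1 + (n - (N + 1)) = n by omega]
  rw [h1, ← sum_fiberwise_of_maps_to (t := range q) (g := fun j => j % q)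
    (fun j _ => mem_range.2 (Nat.mod_lt _ hq))]
  refine (norm_sum_le _ _).trans ?_
  have hcls : ∀ r ∈ range q, ‖∑ j ∈ (range L).filter (fun j => j % q = r),
      f ((N + 1 + j : ℕ) : ZMod q) * nit (N + 1 + j) v‖ ≤ 7 * (N / (|v| * q)) := by
    intro r hr
    rw [mem_range] at hr
    rcases Nat.lt_or_ge r L with hrL | hrL
    · obtain ⟨M, hM⟩ : ∃ M, M = (L - 1 - r) / q := ⟨_, rfl⟩
      have hM1 : q * M ≤ L - 1 - r := by
        rw [hM]
        exact Nat.mul_div_le _ _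
      have hM2 : ∀ m, r + q * m < L → m ≤ M := by
        intro m hm
        rw [hM, Nat.le_div_iff_mul_le hq]
        obtain ⟨t, ht⟩ : ∃ t, t = q * m := ⟨_, rfl⟩
        rw [mul_comm m q, ← ht]
        rw [← ht] at hm
        omega
      have h2 : ∑ j ∈ (range L).filter (fun j => j % q = r),
          f ((N + 1 + j : ℕ) : ZMod q) * nit (N + 1 + j) v =
          ∑ m ∈ range (M + 1), f ((N + 1 + r : ℕ) : ZMod q) * nit (N + 1 + r + q * m) v := by
        refine sum_bij' (fun j _ => j / q) (fun m _ => r + q * m) ?_ ?_ ?_ ?_ ?_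
        · intro j hj
          rw [mem_filter, mem_range] at hj
          rw [mem_range, Nat.lt_succ_iff]
          refine hM2 _ ?_
          have h3 := Nat.mod_add_div j q
          rw [hj.2] at h3
          rw [h3]
          exact hj.1
        · intro m hm
          rw [mem_range, Nat.lt_succ_iff] at hm
          rw [mem_filter, mem_range]
          refine ⟨?_, ?_⟩
          · have h4 := Nat.mul_le_mul_left q hm
            obtain ⟨t, ht⟩ : ∃ t, t = q * m := ⟨_, rfl⟩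
            obtain ⟨s, hs⟩ : ∃ s, s = q * M := ⟨_, rfl⟩
            rw [← ht] at h4 ⊢
            rw [← hs] at h4 hM1
            omega
          · rw [Nat.add_mul_mod_self_left, Nat.mod_eq_of_lt hr]
        · intro j hj
          rw [mem_filter] at hj
          show r + q * (j / q) = j
          have h3 := Nat.mod_add_div j q
          rw [hj.2] at h3
          exact h3
        · intro m _
          show (r + q * m) / q = m
          rw [Nat.add_mul_div_left _ _ hq, Nat.div_eq_of_lt hr, zero_add]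
        · intro j hj
          rw [mem_filter] at hj
          have h3 := Nat.mod_add_div j q
          rw [hj.2] at h3
          show f ((N + 1 + j : ℕ) : ZMod q) * nit (N + 1 + j) v =
            f ((N + 1 + r : ℕ) : ZMod q) * nit (N + 1 + r + q * (j / q)) v
          have h4 : N + 1 + r + q * (j / q) = N + 1 + j := by omega
          have h5 : ((N + 1 + j : ℕ) : ZMod q) = ((N + 1 + r : ℕ) : ZMod q) := by
            rw [← h4]
            push_cast
            simp
          rw [h4, h5]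
      rw [h2, ← mul_sum, norm_mul]
      have h3 := class_all (q := q) (n₀ := N + 1 + r) (N := N) hq (by omega) hN hv hqv M (by omega)
      calc ‖f ((N + 1 + r : ℕ) : ZMod q)‖ * ‖∑ m ∈ range (M + 1), nit (N + 1 + r + q * m) v‖
          ≤ 1 * (7 * (N / (|v| * q))) :=
            mul_le_mul (hf _) h3 (norm_nonneg _) zero_le_one
        _ = _ := one_mul _
    · have h2 : (range L).filter (fun j => j % q = r) = ∅ := by
        rw [filter_eq_empty_iff]
        intro j hj h3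
        rw [mem_range] at hj
        have h4 := Nat.mod_le j q
        omega
      rw [h2, sum_empty, norm_zero]
      positivity
  refine (sum_le_sum hcls).trans (le_of_eq ?_)
  rw [sum_const, card_range, nsmul_eq_mul]
  field_simp

end Pool.Agent.VK
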