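import Pool.Agent.Lib.HLU.Base
import Pool.Agent.Lib.VK.DefsC

/-!
# Small twists: Siegel-Walfisz

PROOF SKETCH. For all `3 ≤ y ≤ 3X`: `|sum_(n ≤ y) cc χ n| ≤ C X L^(-A')`, for any `A'` (for `χ ≠ 1`: `SW.psi_chi_bound` with `ε = 1/2` and `q ≤ L^A`, for `y ≥ √X`, `log y ≥ L/2`; small `y`
trivially; for `χ = 1` modulo `q`: `SW.psi_bound` and the prime powers not coprime to `q` contribute at most `log q · log (3X)·2` or so (at most
`sum_(p | q) log (3X) ≤ q L·2`)). Partial summation against `n^(-it)`, `|n^(-it) - (n+1)^(-it)| ≤ |t|/n`: factor `1 + |t| log 4 ≤ 2 L^B`. Take `A' = A + B + 2`.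
-/

set_option autoImplicit false

open Finset Filter Pool.Agent.Lib.SW

namespace Pool.Agent.VK

namespace SmallTAux

lemma nit_eq {n : ℕ} (hn : 1 ≤ n) (t : ℝ) :
    nit n t = Complex.exp (Complex.I * ((-(t * Real.log n) : ℝ) : ℂ)) := by
  unfold nit
  have h0 : ((n : ℝ) : ℂ) ≠ 0 := by
    have : n ≠ 0 := by omega
    exact_mod_cast this
  rw [Complex.cpow_def_of_ne_zero h0, ← Complex.ofReal_log (Nat.cast_nonneg n)]
  congr 1
  push_cast
  ring

lemma nit_diff {n : ℕ} (hn : 1 ≤ n) (t : ℝ) : ‖nit n t - nit (n + 1) t‖ ≤ |t| / n := by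
  have hn0 : (0 : ℝ) < n := by exact_mod_cast hn
  set δ : ℝ := Real.log ((n + 1 : ℕ) : ℝ) - Real.log n with hδ
  have h1 : nit (n + 1) t = nit n t * Complex.exp (Complex.I * ((-(t * δ) : ℝ) : ℂ)) := by
    rw [nit_eq hn, nit_eq (by omega : 1 ≤ n + 1), ← Complex.exp_add, ← mul_add, ← Complex.ofReal_add]
    congr 3
    rw [hδ]
    ring
  have h2 : nit n t - nit (n + 1) t =
      -(nit n t * (Complex.exp (Complex.I * ((-(t * δ) : ℝ) : ℂ)) - 1)) := by
    rw [h1]
    ring
  have hδ0 : 0 ≤ δ := by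
    rw [hδ, sub_nonneg]
    exact Real.log_le_log hn0 (by push_cast; linarith)
  have hδ1 : δ ≤ 1 / n := by
    have h3 : δ = Real.log (((n + 1 : ℕ) : ℝ) / n) := by
      rw [hδ, Real.log_div (by positivity) hn0.ne']
    have h4 : ((n + 1 : ℕ) : ℝ) / n = 1 + 1 / n := by
      push_cast
      field_simp
    rw [h3, h4]
    have := Real.log_le_sub_one_of_pos (show (0 : ℝ) < 1 + 1 / n by positivity)
    linarith
  rw [h2, norm_neg, norm_mul, norm_nit hn, one_mul]
  refine Real.norm_exp_I_mul_ofReal_sub_one_le.trans ?_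
  rw [Real.norm_eq_abs, abs_neg, abs_mul, abs_of_nonneg hδ0]
  calc |t| * δ ≤ |t| * (1 / n) := mul_le_mul_of_nonneg_left hδ1 (abs_nonneg _)
    _ = _ := by ring

lemma abel {a : ℕ → ℂ} {X : ℕ} (hX : 1 ≤ X) {M t : ℝ}
    (hM : ∀ y, X ≤ y → y ≤ 3 * X → ‖∑ n ∈ Ioc X y, a n‖ ≤ M) (k : ℕ) (hk : k ≤ 2 * X) :
    ‖∑ n ∈ Ioc X (X + k), a n * nit n t - (∑ n ∈ Ioc X (X + k), a n) * nit (X + k) t‖ ≤
      k * (M * (|t| / X)) := by
  have hX0 : (0 : ℝ) < X := by exact_mod_cast hX
  induction k with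
  | zero => simp
  | succ k ih =>
    have h1 := ih (by omega)
    have e1 : X + (k + 1) = X + k + 1 := by ring
    rw [e1, Finset.sum_Ioc_succ_top (by omega), Finset.sum_Ioc_succ_top (by omega)]
    have h2 : ∑ n ∈ Ioc X (X + k), a n * nit n t + a (X + k + 1) * nit (X + k + 1) t -
        (∑ n ∈ Ioc X (X + k), a n + a (X + k + 1)) * nit (X + k + 1) t =
        (∑ n ∈ Ioc X (X + k), a n * nit n t - (∑ n ∈ Ioc X (X + k), a n) * nit (X + k) t) +
        (∑ n ∈ Ioc X (X + k), a n) * (nit (X + k) t - nit (X + k + 1) t) := by ring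
    rw [h2]
    have h3 := hM (X + k) (by omega) (by omega)
    have hM0 : 0 ≤ M := (norm_nonneg _).trans h3
    have h4 : ‖nit (X + k) t - nit (X + k + 1) t‖ ≤ |t| / X := by
      refine (nit_diff (by omega) t).trans ?_
      refine div_le_div_of_nonneg_left (abs_nonneg _) hX0 ?_
      push_cast
      linarith [Nat.cast_nonneg (α := ℝ) k]
    have h5 : ‖(∑ n ∈ Ioc X (X + k), a n) * (nit (X + k) t - nit (X + k + 1) t)‖ ≤
        M * (|t| / X) := by
      rw [norm_mul]
      exact mul_le_mul h3 h4 (norm_nonneg _) hM0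
    refine (norm_add_le _ _).trans ?_
    push_cast
    linarith

lemma char_bound (A D : ℕ) : ∃ K : ℝ, 0 < K ∧ ∀ᶠ X : ℕ in atTop, ∀ (q : ℕ) [NeZero q]
    (χ : DirichletCharacter ℂ q), (q : ℝ) ≤ Real.log X ^ A → ∀ y : ℕ, X ≤ y → y ≤ 3 * X →
    ‖∑ n ∈ Icc 1 y, cc χ n‖ ≤ K * (X / Real.log X ^ D) := by
  obtain ⟨C1, hC1, h1⟩ := psi_chi_bound (D + A) 1 one_pos
  obtain ⟨C2, hC2, h2⟩ := psi_bound D
  refine ⟨3 * C1 + (3 * C2 + 1), by positivity, ?_⟩
  filter_upwards [Pool.Agent.HLU.ev_log 72, Pool.Agent.HLU.ev_pow (A + 3) D,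
    eventually_ge_atTop 3] with X hL hP hX3 q _ χ hq y hXy hy
  set L := Real.log X with hLd
  have hX3' : (3 : ℝ) ≤ X := by exact_mod_cast hX3
  have hX0 : (0 : ℝ) < X := by linarith
  have hXy' : (X : ℝ) ≤ y := by exact_mod_cast hXy
  have hy' : (y : ℝ) ≤ 3 * X := by exact_mod_cast hy
  have hL0 : 0 < L := by linarith
  have hLy : L ≤ Real.log y := Real.log_le_log hX0 hXy'
  have hLy0 : 0 < Real.log y := by linarith
  have hq0 : (0 : ℝ) ≤ q := Nat.cast_nonneg _
  have hN0 : 0 ≤ X / L ^ D := by positivity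
  by_cases hχ : χ = 1
  · subst hχ
    have hsum : ∑ n ∈ Icc 1 y, cc (1 : DirichletCharacter ℂ q) n =
        ((∑ n ∈ Finset.Icc 1 y, ArithmeticFunction.vonMangoldt n - y -
          ∑ n ∈ (Finset.Icc 1 y).filter (fun n => ¬ n.Coprime q),
            ArithmeticFunction.vonMangoldt n : ℝ) : ℂ) := by
      rw [← Finset.sum_filter_add_sum_filter_not (Finset.Icc 1 y) (fun n => n.Coprime q)
        ArithmeticFunction.vonMangoldt]
      have e1 : ∀ a b c : ℝ, a + b - c - b = a - c := fun a b c => by ring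
      rw [e1, Finset.sum_filter]
      have e2 : (y : ℝ) = ∑ n ∈ Icc 1 y, (1 : ℝ) := by simp
      rw [e2]
      push_cast
      rw [← Finset.sum_sub_distrib]
      refine Finset.sum_congr rfl fun n _ => ?_
      unfold cc
      rw [if_pos rfl]
      congr 1
      simp only [lam, chf]
      by_cases hn : n.Coprime q
      · rw [MulChar.one_apply ((ZMod.isUnit_iff_coprime n q).2 hn), if_pos hn, one_mul]
      · rw [MulChar.map_nonunit _ (fun h => hn ((ZMod.isUnit_iff_coprime n q).1 h)), if_neg hn,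
          zero_mul]
        simp
    rw [hsum, Complex.norm_real, Real.norm_eq_abs]
    have hb := h2 y (by linarith)
    rw [Nat.floor_natCast] at hb
    have hc := sum_not_coprime_le (y : ℝ) (by linarith) q
      (Nat.one_le_iff_ne_zero.2 (NeZero.ne q))
    rw [Nat.floor_natCast] at hc
    have hc0 : 0 ≤ ∑ n ∈ (Finset.Icc 1 y).filter (fun n => ¬ n.Coprime q),
            ArithmeticFunction.vonMangoldt n :=
      Finset.sum_nonneg fun _ _ => ArithmeticFunction.vonMangoldt_nonneg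
    have hb2 : C2 * y / Real.log y ^ D ≤ 3 * C2 * (X / L ^ D) := by
      calc C2 * y / Real.log y ^ D ≤ C2 * (3 * X) / L ^ D := by
            refine div_le_div₀ (by positivity) (mul_le_mul_of_nonneg_left hy' hC2.le)
              (by positivity) (pow_le_pow_left₀ hL0.le hLy D)
        _ = _ := by ring
    have hly3 : Real.log y ≤ 3 * L := by
      have e1 : Real.log y ≤ Real.log (3 * X) := Real.log_le_log (by linarith) hy'
      rw [Real.log_mul (by norm_num) hX0.ne'] at e1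
      have e2 : Real.log 3 ≤ 2 := by
        have := Real.log_le_sub_one_of_pos (show (0 : ℝ) < 3 by norm_num)
        linarith
      linarith
    have hc2 : 8 * (q : ℝ) * Real.log y ^ 2 ≤ X / L ^ D := by
      calc 8 * (q : ℝ) * Real.log y ^ 2 ≤ 8 * L ^ A * (3 * L) ^ 2 := by
            refine mul_le_mul (mul_le_mul_of_nonneg_left hq (by norm_num))
              (pow_le_pow_left₀ hLy0.le hly3 2) (by positivity) (by positivity)
        _ = 72 * L ^ (A + 2) := by ring
        _ ≤ L * L ^ (A + 2) := mul_le_mul_of_nonneg_right hL (by positivity)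
        _ = L ^ (A + 3) := by ring
        _ ≤ _ := hP
    have hC1' : 0 ≤ 3 * C1 * (X / L ^ D) := by positivity
    obtain ⟨b1, b2⟩ := abs_le.1 hb
    rw [abs_le]
    constructor <;> nlinarith
  · have hsum : ∑ n ∈ Icc 1 y, cc χ n = ∑ n ∈ Icc 1 y, lam (chf χ) n := by
      refine Finset.sum_congr rfl fun n _ => ?_
      unfold cc
      rw [if_neg hχ, sub_zero]
    have hb := h1 q χ hχ y (by linarith)
    rw [Nat.floor_natCast] at hb
    rw [hsum]
    refine hb.trans ?_
    rw [Real.rpow_one]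
    calc C1 * q * y / Real.log y ^ (D + A) ≤ C1 * L ^ A * (3 * X) / L ^ (D + A) := by
          refine div_le_div₀ (by positivity) ?_ (by positivity) (pow_le_pow_left₀ hL0.le hLy _)
          exact mul_le_mul (mul_le_mul_of_nonneg_left hq hC1.le) hy' (by positivity) (by positivity)
      _ = 3 * C1 * (X / L ^ D) := by
          rw [pow_add]
          field_simp
      _ ≤ _ := by
          have : 0 ≤ (3 * C2 + 1) * (X / L ^ D) := by positivity
          linarith

end SmallTAux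

open SmallTAux

theorem small_t (A B : ℕ) : ∀ᶠ X : ℕ in atTop, ∀ (q : ℕ) [NeZero q] (χ : DirichletCharacter ℂ q),
    (q : ℝ) ≤ Real.log X ^ A → ∀ t : ℝ, |t| ≤ Real.log X ^ B →
    ‖∑ n ∈ Ioc X (3 * X), cc χ n * nit n t‖ ≤ X / Real.log X ^ A := by
  obtain ⟨K, hK, hev⟩ := char_bound A (A + B + 2)
  filter_upwards [hev, Pool.Agent.HLU.ev_log (1 + 6 * K), eventually_ge_atTop 1] with
    X h1 hL hX q _ χ hq t ht
  set L := Real.log X with hLd
  have hL1 : 1 ≤ L := by linarith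
  have hX0 : (0 : ℝ) < X := by exact_mod_cast hX
  set M := 2 * (K * (X / L ^ (A + B + 2))) with hM
  have hM0 : 0 ≤ M := by positivity
  have h2 : ∀ y, X ≤ y → y ≤ 3 * X → ‖∑ n ∈ Ioc X y, cc χ n‖ ≤ M := by
    intro y hXy hy
    have e1 : ∑ n ∈ Ioc X y, cc χ n = ∑ n ∈ Icc 1 y, cc χ n - ∑ n ∈ Icc 1 X, cc χ n := by
      have e2 := Finset.sum_Ioc_consecutive (fun n => cc χ n) (Nat.zero_le X) hXy
      have e3 : ∀ m : ℕ, Icc 1 m = Ioc 0 m := by
        intro m
        ext n
        simp only [Finset.mem_Icc, Finset.mem_Ioc]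
        omega
      rw [e3, e3, ← e2]
      ring
    rw [e1]
    refine (norm_sub_le _ _).trans ?_
    have e4 := h1 q χ hq y hXy hy
    have e5 := h1 q χ hq X le_rfl (by omega)
    rw [hM]
    linarith
  have h3 := abel hX (t := t) h2 (2 * X) le_rfl
  have e6 : X + 2 * X = 3 * X := by ring
  rw [e6] at h3
  have h4 := h2 (3 * X) (by omega) le_rfl
  have h5 : ‖∑ n ∈ Ioc X (3 * X), cc χ n * nit n t‖ ≤ M + 2 * M * |t| := by
    have e7 : ∑ n ∈ Ioc X (3 * X), cc χ n * nit n t =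
        (∑ n ∈ Ioc X (3 * X), cc χ n * nit n t - (∑ n ∈ Ioc X (3 * X), cc χ n) * nit (3 * X) t) +
        (∑ n ∈ Ioc X (3 * X), cc χ n) * nit (3 * X) t := by ring
    rw [e7]
    refine (norm_add_le _ _).trans ?_
    have e8 : ‖(∑ n ∈ Ioc X (3 * X), cc χ n) * nit (3 * X) t‖ ≤ M := by
      rw [norm_mul, norm_nit (by omega), mul_one]
      exact h4
    have e9 : ((2 * X : ℕ) : ℝ) * (M * (|t| / X)) = 2 * M * |t| := by
      push_cast
      field_simp
    rw [e9] at h3
    linarith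
  refine h5.trans ?_
  have hLB : 1 ≤ L ^ B := one_le_pow₀ hL1
  have h6 : M + 2 * M * |t| ≤ 3 * M * L ^ B := by
    have e1 : M * |t| ≤ M * L ^ B := mul_le_mul_of_nonneg_left ht hM0
    have e2 : M * 1 ≤ M * L ^ B := mul_le_mul_of_nonneg_left hLB hM0
    linarith
  refine h6.trans ?_
  have h7 : 3 * M * L ^ B = 6 * K * X / (L ^ A * L ^ 2) := by
    rw [hM, pow_add, pow_add]
    field_simp
    ring
  rw [h7, div_le_div_iff₀ (by positivity) (by positivity)]
  have h8 : 6 * K ≤ L ^ 2 := by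
    have e1 : L ≤ L ^ 2 := by nlinarith
    linarith
  calc 6 * K * X * L ^ A = (6 * K) * (X * L ^ A) := by ring
    _ ≤ L ^ 2 * (X * L ^ A) := mul_le_mul_of_nonneg_right h8 (by positivity)
    _ = _ := by ring

end Pool.Agent.VK
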