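import Pool.Agent.Lib.VK.DirPoly
import Pool.Agent.Lib.VK.SmallT
import Pool.Agent.Lib.VK.KL

/-!
# The full mean square

PROOF SKETCH. Let `B` be from `dir_poly (A + 2) ε` (larger if needed, `B ≥ A + 5`). For `|t| ≤ L^B`: `small_t (A + B + 2) B` (with larger `A`; `q ≤ L^A ≤ L^(A+B+2)`): the integral is
`≤ 2 L^B X^2/L^(2(A+B+2))`. For `L^B ≤ |t| ≤ X^(1/2-ε)` (two intervals): `|sum cc χ n n^(-it)|^2 ≤ 2 |sum lam ..|^2 + 2 |sum_(X < n ≤ 3X) n^(-it)|^2`; the first by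
`dir_poly`, the second is at most `(C X/|t|)^2` by `kl_sum` with `q = 1` (two dyadic pieces), integral `≤ C X^2/L^B`.
-/

set_option autoImplicit false

open Finset Filter MeasureTheory

namespace Pool.Agent.VK

namespace FullL2Aux

open Pool.Agent.Lib.SW

lemma continuous_nit {n : ℕ} (hn : 1 ≤ n) : Continuous fun t : ℝ => nit n t := by
  unfold nit
  have h : ((n : ℝ) : ℂ) ≠ 0 := by
    have : n ≠ 0 := by omega
    exact_mod_cast this
  exact Continuous.const_cpow (by fun_prop) (Or.inl h)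

lemma continuous_sum (X : ℕ) (c : ℕ → ℂ) :
    Continuous fun t : ℝ => ∑ n ∈ Ioc X (3 * X), c n * nit n t :=
  continuous_finsetSum _ fun n hn => continuous_const.mul (continuous_nit (by
    rw [Finset.mem_Ioc] at hn
    omega))

lemma nit_sum {C : ℝ} (hC : ∀ (q N N' : ℕ) (f : ZMod q → ℂ) (v : ℝ), 1 ≤ q → 1 ≤ N →
    N' ≤ 2 * N → (∀ a, ‖f a‖ ≤ 1) → 1 ≤ |v| → q * |v| ≤ N →
    ‖∑ n ∈ Ioc N N', f (n : ZMod q) * nit n v‖ ≤ C * N / |v|) {X : ℕ} (hX : 1 ≤ X) {t : ℝ}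
    (h1 : 1 ≤ |t|) (h2 : |t| ≤ X) : ‖∑ n ∈ Ioc X (3 * X), nit n t‖ ≤ 3 * C * X / |t| := by
  have h3 := hC 1 X (2 * X) (fun _ => 1) t le_rfl hX le_rfl (fun _ => by simp) h1 (by simpa using h2)
  have h4 := hC 1 (2 * X) (3 * X) (fun _ => 1) t le_rfl (by omega) (by omega)
    (fun _ => by simp) h1 (by
      push_cast
      have : (0 : ℝ) ≤ X := Nat.cast_nonneg X
      linarith)
  simp only [one_mul] at h3 h4
  rw [← Finset.sum_Ioc_consecutive (fun n => nit n t) (show X ≤ 2 * X by omega)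
    (show 2 * X ≤ 3 * X by omega)]
  refine (norm_add_le _ _).trans ?_
  refine (add_le_add h3 h4).trans (le_of_eq ?_)
  push_cast
  ring

lemma pt_le {C : ℝ} (hC : ∀ (q N N' : ℕ) (f : ZMod q → ℂ) (v : ℝ), 1 ≤ q → 1 ≤ N →
    N' ≤ 2 * N → (∀ a, ‖f a‖ ≤ 1) → 1 ≤ |v| → q * |v| ≤ N →
    ‖∑ n ∈ Ioc N N', f (n : ZMod q) * nit n v‖ ≤ C * N / |v|) {q : ℕ}
    (χ : DirichletCharacter ℂ q) {X : ℕ} (hX : 1 ≤ X) {t : ℝ}
    (h1 : 1 ≤ |t|) (h2 : |t| ≤ X) : ‖∑ n ∈ Ioc X (3 * X), cc χ n * nit n t‖ ^ 2 ≤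
      2 * ‖∑ n ∈ Ioc X (3 * X), lam (chf χ) n * nit n t‖ ^ 2 +
        18 * C ^ 2 * X ^ 2 * t ^ (-2 : ℤ) := by
  classical
  have h3 := nit_sum hC hX h1 h2
  have h4 : ∑ n ∈ Ioc X (3 * X), cc χ n * nit n t =
      ∑ n ∈ Ioc X (3 * X), lam (chf χ) n * nit n t -
        (if χ = 1 then 1 else 0) * ∑ n ∈ Ioc X (3 * X), nit n t := by
    rw [Finset.mul_sum, ← Finset.sum_sub_distrib]
    refine Finset.sum_congr rfl fun n _ => ?_
    unfold cc
    rw [sub_mul]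
  rw [h4]
  set a := ∑ n ∈ Ioc X (3 * X), lam (chf χ) n * nit n t
  set b := ∑ n ∈ Ioc X (3 * X), nit n t
  have h5 : ‖a - (if χ = 1 then 1 else 0) * b‖ ≤ ‖a‖ + 3 * C * X / |t| := by
    refine (norm_sub_le _ _).trans (add_le_add_right ?_ _)
    rw [norm_mul]
    have h6 : ‖(if χ = 1 then (1 : ℂ) else 0)‖ ≤ 1 := by
      split_ifs <;> simp
    calc ‖(if χ = 1 then (1 : ℂ) else 0)‖ * ‖b‖ ≤ 1 * ‖b‖ :=
          mul_le_mul_of_nonneg_right h6 (norm_nonneg _)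
      _ ≤ 3 * C * X / |t| := by rw [one_mul]; exact h3
  have h6 : (0 : ℝ) ≤ 3 * C * X / |t| := (norm_nonneg _).trans h3
  have h7 : ‖a - (if χ = 1 then 1 else 0) * b‖ ^ 2 ≤ (‖a‖ + 3 * C * X / |t|) ^ 2 :=
    pow_le_pow_left₀ (norm_nonneg _) h5 2
  have h8 : (3 * C * X / |t|) ^ 2 = 9 * C ^ 2 * X ^ 2 * t ^ (-2 : ℤ) := by
    rw [div_pow, sq_abs, zpow_neg, zpow_ofNat, div_eq_mul_inv]
    ring
  have h9 : (‖a‖ + 3 * C * X / |t|) ^ 2 ≤ 2 * ‖a‖ ^ 2 + 2 * (3 * C * X / |t|) ^ 2 := by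
    nlinarith [sq_nonneg (‖a‖ - 3 * C * X / |t|)]
  rw [h8] at h9
  linarith

lemma int_zpow {b t0 t1 : ℝ} (hb : 0 < b) (h01 : t0 ≤ t1) (h : b ≤ t0 ∨ t1 ≤ -b) :
    ∫ t in t0..t1, t ^ (-2 : ℤ) ≤ b⁻¹ := by
  have h0 : (0 : ℝ) ∉ Set.uIcc t0 t1 := by
    rw [Set.uIcc_of_le h01, Set.mem_Icc]
    rintro ⟨h1, h2⟩
    rcases h with h | h <;> linarith
  rw [integral_zpow (Or.inr ⟨by norm_num, h0⟩)]
  have e : (t1 ^ ((-2 : ℤ) + 1) - t0 ^ ((-2 : ℤ) + 1)) / (((-2 : ℤ) : ℝ) + 1) = t0⁻¹ - t1⁻¹ := by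
    have e1 : ((-2 : ℤ) + 1) = -1 := by norm_num
    rw [e1, zpow_neg_one, zpow_neg_one]
    push_cast
    ring
  rw [e]
  rcases h with h | h
  · have h1 : t0⁻¹ ≤ b⁻¹ := inv_anti₀ hb h
    have h2 : 0 ≤ t1⁻¹ := inv_nonneg.2 (by linarith)
    linarith
  · have h1 : t0⁻¹ ≤ 0 := inv_nonpos.2 (by linarith)
    have h2 : (-t1)⁻¹ ≤ b⁻¹ := inv_anti₀ hb (by linarith)
    rw [inv_neg] at h2
    linarith

end FullL2Aux

open FullL2Aux Pool.Agent.Lib.SW in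
theorem full_l2 (A : ℕ) (ε : ℝ) (hε : 0 < ε) : ∀ᶠ X : ℕ in atTop, ∀ (q : ℕ) [NeZero q]
    (χ : DirichletCharacter ℂ q), (q : ℝ) ≤ Real.log X ^ A →
    ∫ t in (-((X : ℝ) ^ (1 / 2 - ε)))..((X : ℝ) ^ (1 / 2 - ε)), ‖∑ n ∈ Ioc X (3 * X), cc χ n * nit n t‖ ^ 2 ≤
      X ^ 2 / Real.log X ^ A := by
  obtain ⟨C, hC1, hC⟩ := kl_sum
  obtain ⟨B0, hB0⟩ := dir_poly (A + 2) ε hε
  obtain ⟨B, hBB, hBA⟩ : ∃ B : ℕ, B0 ≤ B ∧ A + 2 ≤ B := ⟨max B0 (A + 2), le_max_left _ _,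
    le_max_right _ _⟩
  have hlog : Tendsto (fun x : ℕ => Real.log x) atTop atTop :=
    Real.tendsto_log_atTop.comp tendsto_natCast_atTop_atTop
  filter_upwards [hB0, small_t (A + B + 2) B, hlog.eventually_ge_atTop (6 + 36 * C ^ 2),
    eventually_ge_atTop 1] with X hdir hsmall hL hX q _ χ hq
  have hX1 : (1 : ℝ) ≤ X := by exact_mod_cast hX
  have hX0 : (0 : ℝ) < X := by linarith
  set L := Real.log X with hLdef
  have hL1 : 1 ≤ L := by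
    have : 0 ≤ 36 * C ^ 2 := by positivity
    linarith
  have hL0 : 0 < L := by linarith
  set T : ℝ := (X : ℝ) ^ (1 / 2 - ε) with hT
  have hT0 : 0 < T := Real.rpow_pos_of_pos hX0 _
  have hTX : T ≤ X := by
    calc T ≤ (X : ℝ) ^ (1 : ℝ) := Real.rpow_le_rpow_of_exponent_le hX1 (by linarith)
      _ = X := Real.rpow_one _
  set b : ℝ := L ^ B with hb
  have hb1 : 1 ≤ b := one_le_pow₀ hL1
  have hb0 : 0 < b := by linarith
  set F : ℝ → ℝ := fun t => ‖∑ n ∈ Ioc X (3 * X), cc χ n * nit n t‖ ^ 2 with hF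
  have hFc : Continuous F := (continuous_sum X (cc χ)).norm.pow 2
  have hint : ∀ a c : ℝ, IntervalIntegrable F volume a c := fun a c => hFc.intervalIntegrable a c
  have hX2 : (0 : ℝ) ≤ X ^ 2 := by positivity
  -- the small frequencies
  have hA1 : (0 : ℝ) < L ^ (A + B + 2) := by positivity
  have hsm : ∀ c : ℝ, 0 ≤ c → c ≤ b → ∫ t in (-c)..c, F t ≤ 2 * (X ^ 2 / L ^ (A + 2)) := by
    intro c hc0 hcb
    have h1 : ∀ t ∈ Set.uIoc (-c) c, ‖F t‖ ≤ ((X : ℝ) / L ^ (A + B + 2)) ^ 2 := by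
      intro t ht
      rw [Set.uIoc_of_le (by linarith), Set.mem_Ioc] at ht
      have h2 : |t| ≤ L ^ B := by
        rw [abs_le]
        constructor <;> linarith [ht.1, ht.2]
      have h3 := hsmall q χ (hq.trans (pow_le_pow_right₀ hL1 (by omega))) t h2
      rw [hF, Real.norm_eq_abs, abs_of_nonneg (sq_nonneg _)]
      exact pow_le_pow_left₀ (norm_nonneg _) h3 2
    have h2 := intervalIntegral.norm_integral_le_of_norm_le_const h1
    refine (le_abs_self _).trans (h2.trans ?_)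
    have h3 : |c - -c| = 2 * c := by
      rw [abs_of_nonneg (by linarith)]
      ring
    rw [h3, div_pow, ← pow_mul]
    have h4 : (X : ℝ) ^ 2 / L ^ ((A + B + 2) * 2) * (2 * c) ≤
        (X : ℝ) ^ 2 / L ^ ((A + B + 2) * 2) * (2 * b) :=
      mul_le_mul_of_nonneg_left (by linarith) (by positivity)
    refine h4.trans ?_
    have h5 : L ^ ((A + B + 2) * 2) = L ^ (A + 2) * L ^ B * L ^ (A + B + 2) := by
      rw [← pow_add, ← pow_add]
      congr 1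
      ring
    have h6 : (1 : ℝ) ≤ L ^ (A + B + 2) := one_le_pow₀ hL1
    have h7 : (X : ℝ) ^ 2 / L ^ ((A + B + 2) * 2) * (2 * b) =
        2 * (X ^ 2 / L ^ (A + 2)) * (1 / L ^ (A + B + 2)) := by
      rw [h5, hb]
      field_simp
    rw [h7]
    have h8 : 1 / L ^ (A + B + 2) ≤ 1 := by
      rw [div_le_one hA1]
      exact h6
    have h9 : 0 ≤ 2 * ((X : ℝ) ^ 2 / L ^ (A + 2)) := by positivity
    calc 2 * ((X : ℝ) ^ 2 / L ^ (A + 2)) * (1 / L ^ (A + B + 2)) ≤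
          2 * ((X : ℝ) ^ 2 / L ^ (A + 2)) * 1 := mul_le_mul_of_nonneg_left h8 h9
      _ = _ := mul_one _
  have hfin : (6 + 36 * C ^ 2) * (X ^ 2 / L ^ (A + 2)) ≤ X ^ 2 / L ^ A := by
    have h1 : (X : ℝ) ^ 2 / L ^ (A + 2) = X ^ 2 / L ^ A * (1 / L ^ 2) := by
      rw [pow_add]
      field_simp
    rw [h1]
    have h2 : (6 + 36 * C ^ 2) * (1 / L ^ 2) ≤ 1 := by
      rw [mul_one_div, div_le_one (by positivity)]
      nlinarith
    have h3 : 0 ≤ (X : ℝ) ^ 2 / L ^ A := by positivity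
    calc (6 + 36 * C ^ 2) * ((X : ℝ) ^ 2 / L ^ A * (1 / L ^ 2)) =
          X ^ 2 / L ^ A * ((6 + 36 * C ^ 2) * (1 / L ^ 2)) := by ring
      _ ≤ X ^ 2 / L ^ A * 1 := mul_le_mul_of_nonneg_left h2 h3
      _ = _ := mul_one _
  have hXL : 0 ≤ (X : ℝ) ^ 2 / L ^ (A + 2) := by positivity
  rcases le_total T b with hTb | hbT
  · refine (hsm T hT0.le hTb).trans (le_trans ?_ hfin)
    have : 0 ≤ 36 * C ^ 2 := by positivity
    nlinarith
  -- the other frequencies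
  have hmid : ∀ t0 t1 : ℝ, t0 ≤ t1 → (b ≤ t0 ∧ t1 ≤ T ∨ -T ≤ t0 ∧ t1 ≤ -b) →
      ∫ t in t0..t1, F t ≤ (2 + 18 * C ^ 2) * (X ^ 2 / L ^ (A + 2)) := by
    intro t0 t1 h01 hcase
    have habs : ∀ t : ℝ, t0 ≤ t → t ≤ t1 → b ≤ |t| ∧ |t| ≤ T := by
      intro t h1 h2
      rcases hcase with ⟨h3, h4⟩ | ⟨h3, h4⟩
      · rw [abs_of_nonneg (by linarith)]
        constructor <;> linarith
      · rw [abs_of_nonpos (by linarith)]
        constructor <;> linarith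
    have h1 := hdir q χ (hq.trans (pow_le_pow_right₀ hL1 (by omega))) t0 t1 h01 (by
      intro t h2 h3
      obtain ⟨h4, h5⟩ := habs t h2 h3
      exact ⟨(pow_le_pow_right₀ hL1 hBB).trans h4, h5⟩)
    have h0 : (0 : ℝ) ∉ Set.uIcc t0 t1 := by
      rw [Set.uIcc_of_le h01, Set.mem_Icc]
      rintro ⟨h2, h3⟩
      rcases hcase with h | h <;> linarith
    have hc1 : IntervalIntegrable (fun t : ℝ =>
        2 * ‖∑ n ∈ Ioc X (3 * X), lam (chf χ) n * nit n t‖ ^ 2) volume t0 t1 :=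
      ((continuous_sum X (lam (chf χ))).norm.pow 2).const_mul 2 |>.intervalIntegrable t0 t1
    have hc2 : IntervalIntegrable (fun t : ℝ => 18 * C ^ 2 * X ^ 2 * t ^ (-2 : ℤ)) volume t0 t1 :=
      (intervalIntegral.intervalIntegrable_zpow (Or.inr h0)).const_mul _
    have h2 : ∫ t in t0..t1, F t ≤ ∫ t in t0..t1,
        (2 * ‖∑ n ∈ Ioc X (3 * X), lam (chf χ) n * nit n t‖ ^ 2 +
          18 * C ^ 2 * X ^ 2 * t ^ (-2 : ℤ)) := by
      refine intervalIntegral.integral_mono_on h01 (hint _ _) (hc1.add hc2) ?_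
      intro t ht
      obtain ⟨h4, h5⟩ := habs t ht.1 ht.2
      exact pt_le hC χ hX (hb1.trans h4) (h5.trans hTX)
    refine h2.trans ?_
    rw [intervalIntegral.integral_add hc1 hc2, intervalIntegral.integral_const_mul,
      intervalIntegral.integral_const_mul]
    have h3 := int_zpow hb0 h01 (by
      rcases hcase with h | h
      · exact Or.inl h.1
      · exact Or.inr h.2)
    have h4 : 18 * C ^ 2 * X ^ 2 * ∫ t in t0..t1, t ^ (-2 : ℤ) ≤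
        18 * C ^ 2 * (X ^ 2 / L ^ (A + 2)) := by
      have h5 : b⁻¹ ≤ (L ^ (A + 2))⁻¹ := inv_anti₀ (by positivity) (pow_le_pow_right₀ hL1 hBA)
      calc 18 * C ^ 2 * X ^ 2 * ∫ t in t0..t1, t ^ (-2 : ℤ) ≤
            18 * C ^ 2 * X ^ 2 * (L ^ (A + 2))⁻¹ :=
            mul_le_mul_of_nonneg_left (h3.trans h5) (by positivity)
        _ = _ := by rw [div_eq_mul_inv]; ring
    have h5 : (2 + 18 * C ^ 2) * (X ^ 2 / L ^ (A + 2)) =
        2 * (X ^ 2 / L ^ (A + 2)) + 18 * C ^ 2 * (X ^ 2 / L ^ (A + 2)) := by ring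
    rw [h5]
    exact add_le_add (mul_le_mul_of_nonneg_left h1 (by norm_num)) h4
  have h1 : ∫ t in (-T)..T, F t = (∫ t in (-T)..(-b), F t) + (∫ t in (-b)..b, F t) +
      ∫ t in b..T, F t := by
    rw [intervalIntegral.integral_add_adjacent_intervals (hint _ _) (hint _ _),
      intervalIntegral.integral_add_adjacent_intervals (hint _ _) (hint _ _)]
  change ∫ t in (-T)..T, F t ≤ _
  rw [h1]
  have h2 := hmid (-T) (-b) (by linarith) (Or.inr ⟨le_rfl, le_rfl⟩)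
  have h3 := hmid b T hbT (Or.inl ⟨le_rfl, le_rfl⟩)
  have h4 := hsm b hb0.le le_rfl
  refine le_trans ?_ hfin
  nlinarith

end Pool.Agent.VK
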