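import Pool.Agent.Lib.HLT.GeomSum

/-!
# Sums of `mn` for a small nonzero `α`

PROOF SKETCH. For `0 < |α| ≤ 1` let `q = ⌊1 / |α|⌋₊ ≥ 1` and `a = ± 1` the sign of `α`: `|α - a / q| ≤ 1 / q^2` since
`1 / (q + 1) < |α| ≤ 1 / q`. `HLT.sum_mn_const` bounds the sum over `1 ≤ m ≤ V` by
`C (V / q + 1) (X + q log (2 q))`, `1 / q ≤ 2 |α|`, `q ≤ 1 / |α|`. The negative `w` give the same (`mn` is even:
`nrm (-α) = nrm α`), and `w = 0` gives `mn X 0 = X` (or `mn_le_left`).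
-/

set_option autoImplicit false

open Finset

namespace Pool.Agent.VK

open Pool.Agent.HLT

lemma geoOne_nrm_neg (y : ℝ) : nrm (-y) = nrm y := by
  unfold nrm
  refine le_antisymm ?_ ?_
  · have h := round_le (-y) (-round y)
    push_cast at h
    have h2 : -y - -(round y : ℝ) = -(y - round y) := by ring
    rwa [h2, abs_neg] at h
  · have h := round_le y (-round (-y))
    push_cast at h
    have h2 : y - -(round (-y) : ℝ) = -(-y - round (-y)) := by ring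
    rwa [h2, abs_neg] at h

lemma geoOne_mn_neg (X y : ℝ) : mn X (-y) = mn X y := by
  unfold mn
  rw [geoOne_nrm_neg]

lemma geoOne_sum_split (f : ℤ → ℝ) (V : ℕ) :
    ∑ w ∈ Icc (-(V : ℤ)) (V : ℤ), f w = f 0 + ∑ m ∈ Icc 1 V, (f (m : ℤ) + f (-(m : ℤ))) := by
  induction V with
  | zero => simp
  | succ V ih =>
    rw [Finset.sum_Icc_succ_top (by omega : 1 ≤ V + 1), ← add_assoc, ← ih]
    have h1 : Icc (-((V + 1 : ℕ) : ℤ)) ((V + 1 : ℕ) : ℤ) =
        insert (((V + 1 : ℕ) : ℤ)) (insert (-((V + 1 : ℕ) : ℤ)) (Icc (-(V : ℤ)) (V : ℤ))) := by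
      ext w
      simp only [Finset.mem_insert, Finset.mem_Icc]
      push_cast
      constructor
      · intro h
        omega
      · intro h
        omega
    rw [h1, Finset.sum_insert, Finset.sum_insert]
    · ring
    · simp only [Finset.mem_Icc]
      push_cast
      omega
    · simp only [Finset.mem_insert, Finset.mem_Icc]
      push_cast
      omega

theorem sum_mn_small : ∃ C : ℝ, 1 ≤ C ∧ ∀ (V : ℕ) (X α : ℝ), 0 ≤ X → 0 < |α| → |α| ≤ 1 →
    ∑ w ∈ Icc (-(V : ℤ)) (V : ℤ), mn X (α * w) ≤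
      C * (V * |α| + 1) * (X + |α|⁻¹ * Real.log (2 + |α|⁻¹)) := by
  obtain ⟨C, hC, hb⟩ := sum_mn_const
  refine ⟨8 * C + 1, by linarith, fun V X α hX hα0 hα1 => ?_⟩
  rw [geoOne_sum_split]
  set β : ℝ := |α| with hβ
  have h1 : ∀ m : ℕ, mn X (α * ((m : ℤ) : ℝ)) = mn X (β * m) ∧
      mn X (α * ((-(m : ℤ) : ℤ) : ℝ)) = mn X (β * m) := by
    intro m
    push_cast
    rcases abs_cases α with ⟨h, _⟩ | ⟨h, _⟩
    · rw [hβ, h]
      refine ⟨rfl, ?_⟩
      rw [mul_neg, geoOne_mn_neg]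
    · rw [hβ, h]
      refine ⟨?_, ?_⟩
      · rw [neg_mul, geoOne_mn_neg]
      · rw [mul_neg, neg_mul]
  have h2 : ∑ m ∈ Icc 1 V, (mn X (α * ((m : ℤ) : ℝ)) + mn X (α * ((-(m : ℤ) : ℤ) : ℝ))) =
      2 * ∑ m ∈ Icc 1 V, mn X (β * m) := by
    rw [Finset.mul_sum]
    refine Finset.sum_congr rfl fun m _ => ?_
    rw [(h1 m).1, (h1 m).2]
    ring
  rw [h2]
  have h0 : mn X (α * ((0 : ℤ) : ℝ)) ≤ X := mn_le_left hX _
  set q : ℕ := ⌊β⁻¹⌋₊ with hq
  have hinv : 1 ≤ β⁻¹ := (one_le_inv₀ hα0).2 hα1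
  have hq1 : 1 ≤ q := Nat.le_floor (by exact_mod_cast hinv)
  have hqle : (q : ℝ) ≤ β⁻¹ := Nat.floor_le (by positivity)
  have hqlt : β⁻¹ < q + 1 := Nat.lt_floor_add_one _
  have hq0 : (0 : ℝ) < q := by exact_mod_cast hq1
  have hq1' : (1 : ℝ) ≤ q := by exact_mod_cast hq1
  have hmul : β * β⁻¹ = 1 := mul_inv_cancel₀ hα0.ne'
  have hβq : β * q ≤ 1 := by nlinarith only [hα0, hqle, hmul]
  have hβq1 : 1 < β * (q + 1) := by nlinarith only [hα0, hqlt, hmul]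
  have happ : |β - ((1 : ℤ) : ℝ) / q| ≤ 1 / (q : ℝ) ^ 2 := by
    have e1 : β - ((1 : ℤ) : ℝ) / q = -((1 - β * q) / q) := by
      push_cast
      field_simp
      ring
    rw [e1, abs_neg, abs_of_nonneg (div_nonneg (by linarith only [hβq]) hq0.le),
      div_le_div_iff₀ hq0 (by positivity)]
    nlinarith only [hβq, hβq1]
  have h3 := hb q V 1 β X hq1 isCoprime_one_left happ hX
  have hlog0 : 0 < 2 + β⁻¹ := by linarith only [hinv]
  have hlogn : 0 ≤ Real.log (2 + β⁻¹) := Real.log_nonneg (by linarith only [hinv])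
  have hlog : Real.log (2 * q) ≤ 2 * Real.log (2 + β⁻¹) := by
    have e2 : 2 * Real.log (2 + β⁻¹) = Real.log ((2 + β⁻¹) ^ 2) := by
      rw [Real.log_pow]; push_cast; ring
    rw [e2]
    exact Real.log_le_log (by positivity) (by nlinarith only [hinv, hqle])
  have hVq : (V : ℝ) / q ≤ 2 * (V * β) := by
    rw [div_le_iff₀ hq0]
    have hV : (0 : ℝ) ≤ V := Nat.cast_nonneg V
    have : 1 ≤ 2 * (β * q) := by nlinarith only [hq1', hβq1]
    nlinarith only [this]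
  have hV0 : 0 ≤ (V : ℝ) * β := by (clear * - hα0; positivity)
  have hsum : ∑ m ∈ Icc 1 V, mn X (β * m) ≤
      4 * C * ((V : ℝ) * β + 1) * (X + β⁻¹ * Real.log (2 + β⁻¹)) := by
    refine h3.trans ?_
    have e3 : (V : ℝ) / q + 1 ≤ 2 * ((V : ℝ) * β + 1) := by linarith only [hVq]
    have e4 : X + q * Real.log (2 * q) ≤ 2 * (X + β⁻¹ * Real.log (2 + β⁻¹)) := by
      have e5 : (q : ℝ) * Real.log (2 * q) ≤ β⁻¹ * (2 * Real.log (2 + β⁻¹)) :=
        mul_le_mul hqle hlog (Real.log_nonneg (by linarith only [hinv, hqlt, hq1'])) (by (clear * - hα0; positivity))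
      nlinarith only [hX, e5]
    have e6 : 0 ≤ X + q * Real.log (2 * q) := by
      have := Real.log_nonneg (by linarith only [hinv, hqlt, hq1'] : (1 : ℝ) ≤ 2 * q)
      (clear * - hX hq1 this; positivity)
    calc C * ((V : ℝ) / q + 1) * (X + q * Real.log (2 * q))
        ≤ C * (2 * ((V : ℝ) * β + 1)) * (2 * (X + β⁻¹ * Real.log (2 + β⁻¹))) :=
          mul_le_mul (mul_le_mul_of_nonneg_left e3 hC.le) e4 e6 (by (clear * - hC hα0; positivity))
      _ = 4 * C * ((V : ℝ) * β + 1) * (X + β⁻¹ * Real.log (2 + β⁻¹)) := by ring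
  have hfin : X ≤ ((V : ℝ) * β + 1) * (X + β⁻¹ * Real.log (2 + β⁻¹)) := by
    have e7 : 0 ≤ β⁻¹ * Real.log (2 + β⁻¹) := by (clear * - hα0 hlogn; positivity)
    nlinarith only [hX, hV0, e7, mul_nonneg hV0 (add_nonneg hX e7)]
  calc mn X (α * ((0 : ℤ) : ℝ)) + 2 * ∑ m ∈ Icc 1 V, mn X (β * m)
      ≤ ((V : ℝ) * β + 1) * (X + β⁻¹ * Real.log (2 + β⁻¹)) +
        2 * (4 * C * ((V : ℝ) * β + 1) * (X + β⁻¹ * Real.log (2 + β⁻¹))) := by
        linarith only [h0, hsum, hfin, h0.trans hfin]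
    _ = (8 * C + 1) * ((V : ℝ) * β + 1) * (X + β⁻¹ * Real.log (2 + β⁻¹)) := by ring

end Pool.Agent.VK
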