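import Pool.Agent.Lib.VK.Newton

/-!
# Linnik's lemma

PROOF SKETCH. Let `m = k` in `card_power_sums`. The set is the disjoint union over the possible vectors
`n : Fin k → ZMod (p ^ k)` of the sets of `card_power_sums`; `n j` must be congruent to `m j` modulo `p^(j+1)`
(here `j = 0, ..., k - 1` is the degree minus one), so there are `prod_j p^(k - j - 1) = p^(k (k - 1) / 2)`
possible vectors (the number of residues modulo `p ^ k` in a given class modulo `p^(j+1)` is `p^(k - (j+1))`).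
-/

set_option autoImplicit false

open Finset

namespace Pool.Agent.VK

lemma linnik_fibre (p k j : ℕ) (hp : 0 < p) (hj : j + 1 ≤ k) [NeZero (p ^ k)] (a : ℤ) :
    ((univ : Finset (ZMod (p ^ k))).filter
      (fun z => (p : ℤ) ^ (j + 1) ∣ ((z.val : ℕ) : ℤ) - a)).card ≤ p ^ (k - (j + 1)) := by
  rw [← Finset.card_range (p ^ (k - (j + 1)))]
  refine Finset.card_le_card_of_injOn (fun z => z.val / p ^ (j + 1)) ?_ ?_
  · intro z _
    simp only [Finset.coe_range, Set.mem_Iio]
    rw [Nat.div_lt_iff_lt_mul (Nat.pow_pos hp), ← pow_add]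
    have h1 : k - (j + 1) + (j + 1) = k := by omega
    rw [h1]
    exact ZMod.val_lt z
  · intro z hz w hw hzw
    simp only [Finset.coe_filter, Finset.mem_univ, true_and, Set.mem_setOf_eq] at hz hw
    simp only at hzw
    have h1 : (p : ℤ) ^ (j + 1) ∣ ((z.val : ℕ) : ℤ) - ((w.val : ℕ) : ℤ) := by
      have := dvd_sub hz hw
      simpa using this
    have h2 : w.val % p ^ (j + 1) = z.val % p ^ (j + 1) := by
      have h3 : (w.val : ℤ) ≡ z.val [ZMOD ((p ^ (j + 1) : ℕ) : ℤ)] :=
        Int.modEq_iff_dvd.2 (by push_cast; exact h1)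
      exact (Int.natCast_modEq_iff.1 h3)
    have h4 := Nat.div_add_mod z.val (p ^ (j + 1))
    have h5 := Nat.div_add_mod w.val (p ^ (j + 1))
    apply ZMod.val_injective
    rw [← h4, ← h5, hzw, h2]

lemma linnik_sum (k : ℕ) : ∑ j : Fin k, (k - (j.val + 1)) = k * (k - 1) / 2 := by
  rw [Fin.sum_univ_eq_sum_range (fun j => k - (j + 1)) k, ← Finset.sum_range_id]
  have h := Finset.sum_range_reflect (fun j => j) k
  rw [← h]
  refine Finset.sum_congr rfl fun j _ => ?_
  omega

theorem linnik (k p X : ℕ) (hk : 1 ≤ k) (hp : p.Prime) (hkp : k < p) (hX : X ≤ p ^ k) (c : ℤ)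
    (m : Fin k → ℤ) :
    ((dtup k p (ivl X)).filter
      (fun x => ∀ j : Fin k, (p : ℤ) ^ (j.val + 1) ∣ (∑ i, (x i - c) ^ (j.val + 1)) - m j)).card ≤
      k.factorial * p ^ (k * (k - 1) / 2) := by
  classical
  haveI : NeZero (p ^ k) := ⟨(Nat.pow_pos hp.pos).ne'⟩
  set S := (dtup k p (ivl X)).filter
      (fun x => ∀ j : Fin k, (p : ℤ) ^ (j.val + 1) ∣ (∑ i, (x i - c) ^ (j.val + 1)) - m j) with hS
  set T : Finset (Fin k → ZMod (p ^ k)) := Fintype.piFinset fun j : Fin k =>
    (univ : Finset (ZMod (p ^ k))).filter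
      (fun z => (p : ℤ) ^ (j.val + 1) ∣ ((z.val : ℕ) : ℤ) - m j) with hT
  set N : (Fin k → ℤ) → Fin k → ZMod (p ^ k) := fun x j =>
    ((∑ i, (x i - c) ^ (j.val + 1) : ℤ) : ZMod (p ^ k)) with hN
  have hmaps : ∀ x ∈ S, N x ∈ T := by
    intro x hx
    rw [hT, Fintype.mem_piFinset]
    intro j
    rw [Finset.mem_filter]
    refine ⟨Finset.mem_univ _, ?_⟩
    have h1 := (Finset.mem_filter.1 hx).2 j
    have h2 : ((p ^ k : ℕ) : ℤ) ∣ ((N x j).val : ℤ) - (∑ i, (x i - c) ^ (j.val + 1)) := by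
      rw [← ZMod.intCast_zmod_eq_zero_iff_dvd, Int.cast_sub, Int.cast_natCast,
        ZMod.natCast_zmod_val, sub_eq_zero]
    have h3 : (p : ℤ) ^ (j.val + 1) ∣ ((N x j).val : ℤ) - (∑ i, (x i - c) ^ (j.val + 1)) := by
      refine dvd_trans ?_ h2
      push_cast
      exact pow_dvd_pow _ (by have := j.isLt; omega)
    have h4 := dvd_add h3 h1
    have h5 : ((N x j).val : ℤ) - (∑ i, (x i - c) ^ (j.val + 1)) +
        ((∑ i, (x i - c) ^ (j.val + 1)) - m j) = ((N x j).val : ℤ) - m j := by ring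
    rwa [h5] at h4
  have hTcard : T.card ≤ p ^ (k * (k - 1) / 2) := by
    rw [hT, Fintype.card_piFinset]
    calc ∏ j : Fin k, ((univ : Finset (ZMod (p ^ k))).filter
          (fun z => (p : ℤ) ^ (j.val + 1) ∣ ((z.val : ℕ) : ℤ) - m j)).card
        ≤ ∏ j : Fin k, p ^ (k - (j.val + 1)) :=
          Finset.prod_le_prod' fun j _ => linnik_fibre p k j.val hp.pos (by have := j.isLt; omega) _
      _ = p ^ (k * (k - 1) / 2) := by
          rw [Finset.prod_pow_eq_pow_sum, linnik_sum]
  rw [Finset.card_eq_sum_card_fiberwise (f := N) (t := T) (fun x hx => by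
    exact_mod_cast hmaps x (by exact_mod_cast hx))]
  calc ∑ n ∈ T, (S.filter fun x => N x = n).card ≤ ∑ _n ∈ T, k.factorial := by
        refine Finset.sum_le_sum fun n _ => ?_
        refine le_trans (Finset.card_le_card ?_) (card_power_sums hp hkp k hk X hX c n)
        intro x hx
        rw [Finset.mem_filter] at hx ⊢
        exact ⟨(Finset.mem_filter.1 hx.1).1, fun j => congrFun hx.2 j⟩
    _ = T.card * k.factorial := by rw [Finset.sum_const, smul_eq_mul]
    _ ≤ p ^ (k * (k - 1) / 2) * k.factorial := Nat.mul_le_mul_right _ hTcard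
    _ = _ := mul_comm _ _

end Pool.Agent.VK
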