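import Pool.Agent.Lib.VK.Basic
import Pool.Agent.Lib.VK.Pairs
import Pool.Agent.Lib.VK.Holder
import Pool.Agent.Lib.VK.Linnik

/-!
# The well conditioned solutions: the congruence argument

PROOF SKETCH. `holder_cnt` with `cl x = (x : ZMod p)` and `C = univ` (`p` classes) reduces to a bound for
`cnt k (dtup k p (ivl X)) (mom k) s (cls p c (ivl X))`, for each `c : ZMod p`, by
`B = X^k * (k! * p^(k(k-1)/2)) * J s k (X/p+1)`. Let `c0 : ℤ` represent `c`. By `mom_add_translate` a solution satisfies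
`mom (x - c0) + mom (u - c0) = mom (y - c0) + mom (v - c0)`, and all `u_i - c0, v_i - c0` are divisible by
`p`, so the `j`-th coordinate (degree `j+1`) gives
`p^(j+1) ∣ sum (x_i - c0)^(j+1) - sum (y_i - c0)^(j+1)`. For given `y` (at most `X ^ k`) there are by `linnik` at most
`k! p^(k(k-1)/2)` such `x`. For given `x, y` the pairs `(u, v)` satisfy
`mom u' = mom v' + h` for a fixed `h` with `u' = u - c0`: by `pr_shift` their number is at most
the number of solutions of `mom (u - c0) = mom (v - c0)`, that is of `mom u = mom v` (translation), `u, v` in `cls p c (ivl X)`,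
and `vin_cls` gives `<= J s k (X/p+1)`.
-/

set_option autoImplicit false

open Finset

namespace Pool.Agent.VK

namespace GoodAAux

lemma mom_tr_iff {ι : Type} [Fintype ι] (k : ℕ) (x y : ι → ℤ) (c : ℤ) :
    mom k (fun i => x i - c) = mom k (fun i => y i - c) ↔ mom k x = mom k y := by
  constructor
  · intro h
    have := mom_affine k _ _ 1 c h
    simpa using this
  · intro h
    have := mom_affine k _ _ 1 (-c) h
    simpa [sub_eq_add_neg] using this

lemma dvd_cls {p X s : ℕ} {c : ZMod p} {c0 : ℤ} (hc0 : (c0 : ZMod p) = c) {u : Fin s → ℤ}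
    (hu : u ∈ tup s (cls p c (ivl X))) (i : Fin s) : (p : ℤ) ∣ u i - c0 := by
  have h1 := mem_tup.1 hu i
  unfold cls at h1
  rw [Finset.mem_filter] at h1
  have h2 : (c0 : ZMod p) = (u i : ZMod p) := by rw [hc0, h1.2]
  rwa [ZMod.intCast_eq_intCast_iff_dvd_sub] at h2

lemma dvd_sum {p s : ℕ} {c0 : ℤ} {u : Fin s → ℤ} (h : ∀ i, (p : ℤ) ∣ u i - c0) (j : ℕ) :
    (p : ℤ) ^ j ∣ ∑ i, (u i - c0) ^ j :=
  Finset.dvd_sum fun i _ => pow_dvd_pow_of_dvd (h i) j

theorem cls_bound (k s p X : ℕ) (hk : 1 ≤ k) (hp : p.Prime) (hkp : k < p) (hX : X ≤ p ^ k)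
    (c : ZMod p) :
    cnt k (dtup k p (ivl X)) (mom k) s (cls p c (ivl X)) ≤
      X ^ k * (k.factorial * p ^ (k * (k - 1) / 2)) * J s k (X / p + 1) := by
  classical
  obtain ⟨c0, hc0⟩ := ZMod.intCast_surjective c
  set D := dtup k p (ivl X) with hD
  set U := tup s (cls p c (ivl X)) with hU
  set K := k.factorial * p ^ (k * (k - 1) / 2) with hK
  let Q : (Fin k → ℤ) → (Fin k → ℤ) → Prop := fun y x =>
    ∀ j : Fin k, (p : ℤ) ^ (j.val + 1) ∣ (∑ i, (x i - c0) ^ (j.val + 1)) -
      ∑ i, (y i - c0) ^ (j.val + 1)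
  let T : Finset ((Fin k → ℤ) × (Fin k → ℤ)) := (D ×ˢ D).filter (fun z => Q z.1 z.2)
  have hDX : D.card ≤ X ^ k := by
    have h1 : D.card ≤ (tup k (ivl X)).card := Finset.card_le_card (Finset.filter_subset _ _)
    rwa [card_tup, card_ivl] at h1
  have hT : T.card ≤ K * D.card := by
    refine Finset.card_le_mul_card_image_of_maps_to (f := fun z => z.1) ?_ K ?_
    · intro z hz
      exact (Finset.mem_product.1 (Finset.mem_filter.1 hz).1).1
    · intro y hy
      refine le_trans ?_ (linnik k p X hk hp hkp hX c0 (fun j => ∑ i, (y i - c0) ^ (j.val + 1)))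
      refine Finset.card_le_card_of_injOn (fun z => z.2) ?_ ?_
      · intro z hz
        have hz : z ∈ (T.filter fun a => a.1 = y) := hz
        rw [Finset.mem_filter] at hz
        obtain ⟨hz1, rfl⟩ := hz
        obtain ⟨hz2, hz3⟩ := Finset.mem_filter.1 hz1
        exact Finset.mem_filter.2 ⟨(Finset.mem_product.1 hz2).2, hz3⟩
      · intro z hz z' hz' h
        have hz : z ∈ (T.filter fun a => a.1 = y) := hz
        have hz' : z' ∈ (T.filter fun a => a.1 = y) := hz'
        rw [Finset.mem_filter] at hz hz'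
        exact Prod.ext (hz.2.trans hz'.2.symm) h
  have hmain : cnt k D (mom k) s (cls p c (ivl X)) ≤ J s k (X / p + 1) * T.card := by
    unfold cnt
    refine Finset.card_le_mul_card_image_of_maps_to (f := fun z => (z.2.1, z.1.1)) ?_ _ ?_
    · intro z hz
      rw [Finset.mem_filter, Finset.mem_product, Finset.mem_product, Finset.mem_product] at hz
      obtain ⟨⟨⟨hx, hu⟩, hy, hv⟩, he⟩ := hz
      refine Finset.mem_filter.2 ⟨Finset.mem_product.2 ⟨hy, hx⟩, fun j => ?_⟩
      rw [mom_add_translate k _ _ _ _ c0] at he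
      have hj := congrFun he j
      simp only [mom, Pi.add_apply] at hj
      have h1 := dvd_sum (dvd_cls hc0 hu) (j.val + 1)
      have h2 := dvd_sum (dvd_cls hc0 hv) (j.val + 1)
      have h3 : (∑ i, (z.1.1 i - c0) ^ (j.val + 1)) - ∑ i, (z.2.1 i - c0) ^ (j.val + 1) =
          (∑ i, (z.2.2 i - c0) ^ (j.val + 1)) - ∑ i, (z.1.2 i - c0) ^ (j.val + 1) := by
        linarith
      show (p : ℤ) ^ (j.val + 1) ∣ (∑ i, (z.1.1 i - c0) ^ (j.val + 1)) -
        ∑ i, (z.2.1 i - c0) ^ (j.val + 1)
      rw [h3]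
      exact dvd_sub h2 h1
    · rintro ⟨y, x⟩ _
      let φ : (Fin s → ℤ) → Fin k → ℤ := fun u => mom k (fun i => u i - c0)
      have h1 : pr k U φ U φ ≤ J s k (X / p + 1) := by
        refine le_trans (le_of_eq ?_) (vin_cls s k p X hp.pos c)
        unfold pr vin
        congr 1
        apply Finset.filter_congr
        intro z _
        exact mom_tr_iff k z.1 z.2 c0
      refine le_trans ?_ h1
      refine le_trans ?_ (pr_shift k U φ
        (mom k (fun i => y i - c0) - mom k (fun i => x i - c0)))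
      refine Finset.card_le_card_of_injOn (fun z => (z.1.2, z.2.2)) ?_ ?_
      · intro z hz
        rw [Finset.mem_coe, Finset.mem_filter, Finset.mem_filter, Finset.mem_product,
          Finset.mem_product, Finset.mem_product] at hz
        obtain ⟨⟨⟨⟨hx, hu⟩, hy, hv⟩, he⟩, hxy⟩ := hz
        simp only [Prod.mk.injEq] at hxy
        obtain ⟨rfl, rfl⟩ := hxy
        rw [Finset.mem_coe, Finset.mem_filter, Finset.mem_product]
        refine ⟨⟨hu, hv⟩, ?_⟩
        rw [mom_add_translate k _ _ _ _ c0] at he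
        show mom k (fun i => z.1.2 i - c0) = mom k (fun i => z.2.2 i - c0) +
          (mom k (fun i => z.2.1 i - c0) - mom k (fun i => z.1.1 i - c0))
        rw [eq_comm, ← sub_eq_zero] at he ⊢
        rw [← he]
        abel
      · intro z hz z' hz' h
        rw [Finset.mem_coe, Finset.mem_filter] at hz hz'
        have h2 := hz.2.trans hz'.2.symm
        simp only [Prod.mk.injEq] at h2 h
        exact Prod.ext (Prod.ext h2.2 h.1) (Prod.ext h2.1 h.2)
  calc cnt k D (mom k) s (cls p c (ivl X)) ≤ J s k (X / p + 1) * T.card := hmain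
    _ ≤ J s k (X / p + 1) * (K * X ^ k) :=
        Nat.mul_le_mul_left _ (hT.trans (Nat.mul_le_mul_left _ hDX))
    _ = X ^ k * K * J s k (X / p + 1) := by ring

end GoodAAux

theorem cnt_dist (k s p X : ℕ) (hk : 1 ≤ k) (hp : p.Prime) (hkp : k < p) (hX : X ≤ p ^ k) :
    cnt k (dtup k p (ivl X)) (mom k) s (ivl X) ≤
      p ^ (2 * s) * (X ^ k * (k.factorial * p ^ (k * (k - 1) / 2)) * J s k (X / p + 1)) := by
  haveI : NeZero p := ⟨hp.pos.ne'⟩
  have h := holder_cnt k s (dtup k p (ivl X)) (mom k) (ivl X) (fun x : ℤ => (x : ZMod p))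
    (Finset.univ : Finset (ZMod p)) (fun _ _ => Finset.mem_univ _)
    ⟨0, Finset.mem_univ _⟩ _ (fun c _ => GoodAAux.cls_bound k s p X hk hp hkp hX c)
  rwa [Finset.card_univ, ZMod.card] at h

end Pool.Agent.VK
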