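import Pool.Agent.Lib.HLU.Core
import Pool.Agent.Lib.HLU.NetY
import Pool.Agent.Lib.VK.LastShort

/-!
# Arbitrary weights, almost all tuples of short shifts, all `y ≤ x`

PROOF SKETCH. `gen_short`: copy of `HLU/GenW.lean` (`gen_w`) with `last_short` in place of `last_uniform` and `WN A B x (H j)` in place of `SN A B x` (`GJ z J j j = ff z`; unfold `WN`, `esum`).
`weights_short`: copy of `weights_all` in `HLU/FinalA.lean`, for a set `J` of indices.
`weights_prime_short`: `G0 n = 1` if `n` is prime else `0`, `G1 z n = nuz z n / log n` (`HLU/Core.lean`, with `plhl_eq`, `pnhl_eq`): from `weights_short` with `A + 1` by `abel_log` with `S = 0`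
(`2^(m+2) ≤ log x`), see how `HLU/Core.lean` or `HLU/Pattern.lean` does this.
-/

set_option autoImplicit false

open Finset Filter

namespace Pool.Agent.VK

open Pool.Agent.HLB Pool.Agent.HL Pool.Agent.HLT Pool.Agent.HLU

/-- Outside `J` the constant `1`; in `J` the factors before `j` are `nuz z`, the factor `j` is
`ff z` and the others are `lp`. -/
private noncomputable def GJ {m : ℕ} (z : ℕ) (J : Finset (Fin m)) (j i : Fin m) : ℕ → ℝ :=
  if i ∈ J then (if i < j then nuz z else if i = j then ff z else lp) else fun _ => 1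

private lemma prod_GJ {m : ℕ} (z : ℕ) (J : Finset (Fin m)) (j : Fin m) (hj : j ∈ J)
    (a : Fin m → ℕ) :
    ∏ i, GJ z J j i (a i) =
      ff z (a j) * (∏ i ∈ J with i < j, nuz z (a i)) * ∏ i ∈ J with j < i, lp (a i) := by
  have h0 : ∏ i, GJ z J j i (a i) = ∏ i ∈ J, GJ z J j i (a i) := by
    symm
    refine Finset.prod_subset (Finset.subset_univ J) fun i _ hi => ?_
    unfold GJ
    simp [hi]
  have h : ∀ i ∈ J, GJ z J j i (a i) = (if i = j then ff z (a i) else 1) *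
      (if i < j then nuz z (a i) else 1) * (if j < i then lp (a i) else 1) := by
    intro i hi
    unfold GJ
    rcases lt_trichotomy i j with h | h | h
    · have h1 : ¬ i = j := h.ne
      have h2 : ¬ j < i := h.asymm
      simp [h, h1, h2, hi]
    · subst h
      simp [hi]
    · have h1 : ¬ i = j := h.ne'
      have h2 : ¬ i < j := h.asymm
      simp [h, h1, h2, hi]
  rw [h0, Finset.prod_congr rfl h, Finset.prod_mul_distrib, Finset.prod_mul_distrib,
    Finset.prod_ite_eq' J j, Finset.prod_filter, Finset.prod_filter]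
  simp [hj]

private lemma telescopeJ {m : ℕ} (z : ℕ) (J : Finset (Fin m)) (t : Fin m → ℕ) (n : ℕ) :
    pl J t n - pn z J t n = ∑ j ∈ J, ∏ i, GJ z J j i (n + t i) := by
  have h := Finset.prod_sub_ordered J (fun i => lp (n + t i)) (fun i => ff z (n + t i))
  have h1 : ∀ i : Fin m, lp (n + t i) - ff z (n + t i) = nuz z (n + t i) := by
    intro i
    unfold ff
    ring
  simp only [h1] at h
  unfold pl pn
  rw [Finset.sum_congr rfl (fun j hj => prod_GJ z J j hj (fun i => n + t i)), h]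
  ring

theorem gen_short (m K B' : ℕ) (F : ℕ → ℕ) : ∃ b0 B : ℕ, ∀ A : ℕ, ∀ᶠ x : ℕ in atTop,
    ∀ H : Fin m → ℕ, (∀ i, 1 ≤ H i ∧ H i ≤ x) → (∀ i, WN A B x (H i)) →
    ∀ T : Fin m → Finset ℕ, (∀ i, SpS F b0 x (H i) (T i)) → ∀ J : Finset (Fin m), ∀ w : ℕ → ℂ,
    (∀ n ∈ Icc 1 x, ‖w n‖ ≤ Real.log x ^ K) →
    ∑ t ∈ Fintype.piFinset T,
        ‖∑ n ∈ Icc 1 x, w n * ((pl J t n - pn (zA A x) J t n : ℝ) : ℂ)‖ ^ 2 ≤
      (∏ i, ((T i).card : ℝ)) * (x ^ 2 / Real.log x ^ B') := by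
  obtain ⟨b0, B, h2⟩ := last_short m (K + 2) (B' + 1) F
  refine ⟨b0, B, fun A => ?_⟩
  filter_upwards [h2, DZ_inv_le A, ev_log ((m:ℝ) ^ 2 + 2), eventually_ge_atTop 1] with
    x h2 h4 h5 hx1 H hH hWN T hT J w hw
  set L : ℝ := Real.log x with hL
  set z : ℕ := zA A x with hz
  have hx0 : (0:ℝ) < x := by exact_mod_cast hx1
  have hL2 : (2:ℝ) ≤ L := by
    have : (0:ℝ) ≤ (m:ℝ) ^ 2 := by positivity
    linarith
  have hL0 : (0:ℝ) < L := by linarith
  have hL1 : (1:ℝ) ≤ L := by linarith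
  have hLL : L ≤ L ^ 2 := by nlinarith
  have hK2 : L ^ 2 ≤ L ^ (K + 2) := pow_le_pow_right₀ hL1 (by omega)
  -- pointwise bounds
  have hlp : ∀ n : ℕ, n ≤ 2 * x → |lp n| ≤ L ^ 2 := by
    intro n hn
    rw [abs_of_nonneg (lp_nonneg n)]
    exact lp_le_sq hL2 hn
  have hnu : ∀ n : ℕ, |nuz z n| ≤ L ^ 2 := by
    intro n
    rw [abs_of_nonneg (nuz_nonneg z n)]
    exact (nuz_le z n).trans (h4.trans hLL)
  have hff : ∀ n : ℕ, n ≤ 2 * x → |ff z n| ≤ L ^ 2 := by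
    intro n hn
    unfold ff
    have e1 := hlp n hn
    have e2 := hnu n
    rw [abs_of_nonneg (lp_nonneg n)] at e1
    rw [abs_of_nonneg (nuz_nonneg z n)] at e2
    have e3 := lp_nonneg n
    have e4 := nuz_nonneg z n
    rw [abs_le]
    constructor <;> linarith
  have hGJ : ∀ j i : Fin m, ∀ n : ℕ, n ≤ 2 * x → |GJ z J j i n| ≤ L ^ (K + 2) := by
    intro j i n hn
    unfold GJ
    split_ifs
    · exact (hnu n).trans hK2
    · exact (hff n hn).trans hK2
    · exact (hlp n hn).trans hK2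
    · simp only [abs_one]
      exact one_le_pow₀ hL1
  have hP0 : 0 ≤ ∏ i, ((T i).card : ℝ) := Finset.prod_nonneg fun i _ => Nat.cast_nonneg _
  have keyj : ∀ j ∈ J, ∑ t ∈ Fintype.piFinset T,
      ‖∑ n ∈ Icc 1 x, w n * ∏ i, (GJ z J j i (n + t i) : ℂ)‖ ^ 2 ≤
      (∏ i, ((T i).card : ℝ)) * (x ^ 2 / L ^ (B' + 1)) := by
    intro j hj
    refine h2 j H T hH hT w (GJ z J j) ?_ ?_ ?_
    · intro n hn
      exact (hw n hn).trans (pow_le_pow_right₀ hL1 (by omega))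
    · intro i n hn
      rw [mem_Icc] at hn
      exact hGJ j i n hn.2
    · intro k0
      have e0 : GJ z J j j = ff z := by
        unfold GJ
        simp [hj]
      rw [e0]
      exact hWN j k0
  have hpt : ∀ t : Fin m → ℕ,
      ‖∑ n ∈ Icc 1 x, w n * ((pl J t n - pn z J t n : ℝ) : ℂ)‖ ^ 2 ≤
      m * ∑ j ∈ J, ‖∑ n ∈ Icc 1 x, w n * ∏ i, (GJ z J j i (n + t i) : ℂ)‖ ^ 2 := by
    intro t
    have e1 : ∑ n ∈ Icc 1 x, w n * ((pl J t n - pn z J t n : ℝ) : ℂ) =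
        ∑ j ∈ J, ∑ n ∈ Icc 1 x, w n * ∏ i, (GJ z J j i (n + t i) : ℂ) := by
      rw [Finset.sum_comm]
      refine Finset.sum_congr rfl fun n _ => ?_
      rw [telescopeJ]
      push_cast
      rw [Finset.mul_sum]
    rw [e1]
    have e2 : ‖∑ j ∈ J, ∑ n ∈ Icc 1 x, w n * ∏ i, (GJ z J j i (n + t i) : ℂ)‖ ^ 2 ≤
        (∑ j ∈ J, ‖∑ n ∈ Icc 1 x, w n * ∏ i, (GJ z J j i (n + t i) : ℂ)‖) ^ 2 :=
      pow_le_pow_left₀ (norm_nonneg _) (norm_sum_le _ _) 2
    refine e2.trans ?_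
    have e3 := sq_sum_le_card_mul_sum_sq (s := J)
      (f := fun j => ‖∑ n ∈ Icc 1 x, w n * ∏ i, (GJ z J j i (n + t i) : ℂ)‖)
    refine e3.trans ?_
    refine mul_le_mul_of_nonneg_right ?_ (Finset.sum_nonneg fun j _ => by positivity)
    have : J.card ≤ m := by
      have := Finset.card_le_univ J
      simpa using this
    exact_mod_cast this
  have hmJ : (m:ℝ) * J.card ≤ L := by
    have h6 : (J.card : ℝ) ≤ m := by
      have := Finset.card_le_univ J
      have h7 : J.card ≤ m := by simpa using this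
      exact_mod_cast h7
    have h8 : (m:ℝ) * J.card ≤ m * m := mul_le_mul_of_nonneg_left h6 (Nat.cast_nonneg _)
    nlinarith
  have hX0 : 0 ≤ (x:ℝ) ^ 2 / L ^ (B' + 1) := by positivity
  have hLX : L * ((x:ℝ) ^ 2 / L ^ (B' + 1)) = x ^ 2 / L ^ B' := by
    rw [← mul_div_assoc, div_eq_div_iff (by positivity) (by positivity), pow_succ]
    ring
  calc ∑ t ∈ Fintype.piFinset T, ‖∑ n ∈ Icc 1 x, w n * ((pl J t n - pn z J t n : ℝ) : ℂ)‖ ^ 2
      ≤ ∑ t ∈ Fintype.piFinset T,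
          m * ∑ j ∈ J, ‖∑ n ∈ Icc 1 x, w n * ∏ i, (GJ z J j i (n + t i) : ℂ)‖ ^ 2 :=
        Finset.sum_le_sum fun t _ => hpt t
    _ = m * ∑ j ∈ J, ∑ t ∈ Fintype.piFinset T,
          ‖∑ n ∈ Icc 1 x, w n * ∏ i, (GJ z J j i (n + t i) : ℂ)‖ ^ 2 := by
        rw [← Finset.mul_sum, Finset.sum_comm]
    _ ≤ m * ∑ _j ∈ J, ((∏ i, ((T i).card : ℝ)) * (x ^ 2 / L ^ (B' + 1))) :=
        mul_le_mul_of_nonneg_left (Finset.sum_le_sum keyj) (Nat.cast_nonneg _)
    _ = (m * J.card) * ((∏ i, ((T i).card : ℝ)) * (x ^ 2 / L ^ (B' + 1))) := by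
        rw [Finset.sum_const, nsmul_eq_mul, mul_assoc]
    _ ≤ L * ((∏ i, ((T i).card : ℝ)) * (x ^ 2 / L ^ (B' + 1))) :=
        mul_le_mul_of_nonneg_right hmJ (mul_nonneg hP0 hX0)
    _ = (∏ i, ((T i).card : ℝ)) * (x ^ 2 / L ^ B') := by
        rw [← hLX]
        ring

theorem weights_short (m K A : ℕ) (F : ℕ → ℕ) : ∃ b0 B : ℕ, ∀ A' : ℕ, ∀ᶠ x : ℕ in atTop,
    ∀ H : Fin m → ℕ, (∀ i, 1 ≤ H i ∧ H i ≤ x) → (∀ i, WN A' B x (H i)) →
    ∀ T : Fin m → Finset ℕ, (∀ i, SpS F b0 x (H i) (T i)) → ∀ J : Finset (Fin m), ∀ w : ℕ → ℂ,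
    (∀ n ∈ Icc 1 x, ‖w n‖ ≤ Real.log x ^ K) →
    ∃ E ⊆ Fintype.piFinset T, (E.card : ℝ) ≤ (∏ i, ((T i).card : ℝ)) / Real.log x ^ A ∧
      ∀ t ∈ Fintype.piFinset T, t ∉ E → ∀ y : ℕ, y ≤ x →
        ‖∑ n ∈ Icc 1 y, w n * ((pl J t n - pn (zA A' x) J t n : ℝ) : ℂ)‖ ≤
          x / Real.log x ^ A := by
  obtain ⟨b0, B, hg⟩ := gen_short m K (4 * A + (K + 2 * m) + 6) F
  refine ⟨b0, B, fun A' => ?_⟩
  filter_upwards [hg A', net_y (τ := Fin m → ℕ) A (K + 2 * m), DZ_inv_le A', ev_log 2]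
    with x h1 h2 hD hL H hH hWN T hT J w hw
  have hL0 : 0 < Real.log x := by linarith
  have hT' : ∀ t ∈ Fintype.piFinset T, ∀ i, t i ≤ x := by
    intro t ht i
    have h7 := Fintype.mem_piFinset.mp ht i
    have h8 := Finset.mem_range.mp ((hT i).1 h7)
    have h9 := (hH i).2
    omega
  refine h2 (Fintype.piFinset T)
    (fun t n => w n * ((pl J t n - pn (zA A' x) J t n : ℝ) : ℂ)) (∏ i, ((T i).card : ℝ))
    (Finset.prod_nonneg fun _ _ => Nat.cast_nonneg _) ?_ ?_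
  · intro t ht n hn
    rw [norm_mul, pow_add]
    refine mul_le_mul (hw n hn) ?_ (norm_nonneg _) (by positivity)
    rw [Complex.norm_real, Real.norm_eq_abs]
    have h3 := pl_sub_pn_le hL hD J t n (fun i _ => by
      have := hT' t ht i
      rw [mem_Icc] at hn
      omega)
    refine h3.trans (pow_le_pow_right₀ (by linarith) (Nat.mul_le_mul_left 2 ?_))
    have := Finset.card_le_univ J
    rwa [Fintype.card_fin] at this
  · intro y hy
    have h3 := h1 H hH hWN T hT J (fun n => if n ≤ y then w n else 0) (fun n hn => by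
      split_ifs
      · exact hw n hn
      · rw [norm_zero]
        positivity)
    refine le_trans (le_of_eq ?_) h3
    refine Finset.sum_congr rfl fun t _ => ?_
    congr 2
    simp only [ite_mul, zero_mul]
    rw [← Finset.sum_filter]
    refine Finset.sum_congr ?_ fun _ _ => rfl
    ext n
    simp only [mem_Icc, mem_filter]
    omega

theorem weights_prime_short (m K A : ℕ) (F : ℕ → ℕ) : ∃ b0 B : ℕ, ∀ A' : ℕ, ∀ᶠ x : ℕ in atTop,
    ∀ H : Fin m → ℕ, (∀ i, 1 ≤ H i ∧ H i ≤ x) → (∀ i, WN A' B x (H i)) →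
    ∀ T : Fin m → Finset ℕ, (∀ i, SpS F b0 x (H i) (T i)) → ∀ J : Finset (Fin m), ∀ w : ℕ → ℂ,
    (∀ n ∈ Icc 1 x, ‖w n‖ ≤ Real.log x ^ K) →
    ∃ E ⊆ Fintype.piFinset T, (E.card : ℝ) ≤ (∏ i, ((T i).card : ℝ)) / Real.log x ^ A ∧
      ∀ t ∈ Fintype.piFinset T, t ∉ E → ∀ y : ℕ, y ≤ x →
        ‖∑ n ∈ Icc 1 y, w n * ((∏ i ∈ J, G0 (n + t i) - ∏ i ∈ J, G1 (zA A' x) (n + t i) : ℝ) : ℂ)‖ ≤
          x / Real.log x ^ A := by
  obtain ⟨b0, B, hg⟩ := weights_short m K (A + 1) F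
  refine ⟨b0, B, fun A' => ?_⟩
  filter_upwards [hg A', ev_log (2 ^ (m + 2)), ev_log 1] with x h1 hLm hL1 H hH hWN T hT J w hw
  have hL0 : 0 < Real.log x := by linarith
  have hx0 : (0 : ℝ) ≤ x := Nat.cast_nonneg x
  obtain ⟨E, hE, hEc, hE'⟩ := h1 H hH hWN T hT J w hw
  refine ⟨E, hE, hEc.trans ?_, ?_⟩
  · exact div_le_div_of_nonneg_left (Finset.prod_nonneg fun _ _ => Nat.cast_nonneg _)
      (by positivity) (pow_le_pow_right₀ hL1 (by omega))
  · intro t ht htE y hy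
    have h2 := abel_log J t (fun n => w n * ((pl J t n - pn (zA A' x) J t n : ℝ) : ℂ)) 0
      (x / Real.log x ^ (A + 1)) x (fun y hy => by
        rw [mul_zero, sub_zero]
        exact hE' t ht htE y hy) y hy
    rw [zero_mul, sub_zero, norm_zero, add_zero] at h2
    have e : ∑ n ∈ Icc 1 y, w n *
        ((∏ i ∈ J, G0 (n + t i) - ∏ i ∈ J, G1 (zA A' x) (n + t i) : ℝ) : ℂ) =
        ∑ n ∈ Icc 1 y, w n * ((pl J t n - pn (zA A' x) J t n : ℝ) : ℂ) * (hl J t n : ℂ) := by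
      refine Finset.sum_congr rfl fun n _ => ?_
      rw [← plhl_eq, ← pnhl_eq, ← sub_mul]
      push_cast
      ring
    rw [e]
    refine h2.trans ?_
    have h3 : (2 : ℝ) ^ (J.card + 2) ≤ Real.log x := by
      refine le_trans (pow_le_pow_right₀ one_le_two ?_) hLm
      have := Finset.card_le_univ J
      rw [Fintype.card_fin] at this
      omega
    calc (2 : ℝ) ^ (J.card + 2) * (x / Real.log x ^ (A + 1))
        ≤ Real.log x * (x / Real.log x ^ (A + 1)) :=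
          mul_le_mul_of_nonneg_right h3 (by positivity)
      _ = x / Real.log x ^ A := by
          rw [pow_succ]
          field_simp

end Pool.Agent.VK
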