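import Pool.Agent.Lib.HLU.FinalA
import Pool.Agent.Lib.VK.FirstAll
import Pool.Agent.Lib.VK.WeightsShort

/-!
# Hardy-Littlewood for almost all tuples of short shifts

PROOF SKETCH. `fixed_short`: copy of `fixed_c` in `HLU/FinalA.lean`; the second part there (`first_c`, `net_y`) is replaced by `first_all` (no exceptions). `hl_short`: copy of `hl_strong` in
`HLU/FinalA.lean`. The hypothesis `hWN` is the statement of `win_sup` in terms of `WN` (it will be discharged in the final assembly).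
-/

set_option autoImplicit false

open Finset Filter

namespace Pool.Agent.VK

open Pool.Agent.HLB Pool.Agent.HL Pool.Agent.HLT Pool.Agent.HLU

theorem fixed_short (m A : ℕ) (F : ℕ → ℕ) : ∃ b0 B : ℕ, ∀ A' : ℕ, ∀ᶠ x : ℕ in atTop,
    ∀ H : Fin m → ℕ, (∀ i, 1 ≤ H i ∧ H i ≤ x) → (∀ i, WN A' B x (H i)) →
    ∀ T : Fin m → Finset ℕ, (∀ i, SpS F b0 x (H i) (T i)) → ∀ c : ℕ, c ≤ x →
    ∃ E ⊆ Fintype.piFinset T, (E.card : ℝ) ≤ (∏ i, ((T i).card : ℝ)) / Real.log x ^ A ∧
      ∀ t ∈ Fintype.piFinset T, t ∉ E → ∀ y : ℕ, y ≤ x →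
        |∑ n ∈ Icc 1 y, (pl univ (Fin.cons c t : Fin (m + 1) → ℕ) n -
          pn (zA A' x) univ (Fin.cons c t : Fin (m + 1) → ℕ) n)| ≤ x / Real.log x ^ A := by
  classical
  obtain ⟨b1, B1, h1⟩ := weights_short m 2 (A + 1) F
  refine ⟨b1, B1, fun A' => ?_⟩
  filter_upwards [h1 A', first_all m (A + 1) A', ev_log 2] with x h1 h2 hL H hH hWN T hT c hc
  have hL0 : 0 < Real.log x := by linarith
  have hL1 : 1 ≤ Real.log x := by linarith
  have hT' : ∀ t ∈ Fintype.piFinset T, ∀ i, t i ≤ x := by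
    intro t ht i
    have h7 := Fintype.mem_piFinset.mp ht i
    have h8 := Finset.mem_range.mp ((hT i).1 h7)
    have h9 := (hH i).2
    omega
  obtain ⟨E1, hE1, hE1c, hE1'⟩ := h1 H hH hWN T hT univ (fun n => (lp (n + c) : ℂ))
    (fun n hn => by
      rw [Complex.norm_real, Real.norm_eq_abs, abs_of_nonneg (lp_nonneg _)]
      rw [mem_Icc] at hn
      exact lp_le_sq hL (by omega))
  refine ⟨E1, hE1, hE1c.trans ?_, ?_⟩
  · refine div_le_div_of_nonneg_left (Finset.prod_nonneg fun _ _ => Nat.cast_nonneg _)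
      (by positivity) (pow_le_pow_right₀ hL1 (by omega))
  · intro t ht htE y hy
    have a1 := hE1' t ht htE y hy
    have a2 := h2 c hc t (hT' t ht) y hy
    have e : ∑ n ∈ Icc 1 y, (pl univ (Fin.cons c t : Fin (m + 1) → ℕ) n -
          pn (zA A' x) univ (Fin.cons c t : Fin (m + 1) → ℕ) n) =
        ∑ n ∈ Icc 1 y, lp (n + c) * (pl univ t n - pn (zA A' x) univ t n) +
          ∑ n ∈ Icc 1 y, ff (zA A' x) (n + c) * pn (zA A' x) univ t n := by
      rw [← Finset.sum_add_distrib]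
      refine Finset.sum_congr rfl fun n _ => ?_
      rw [pl_cons, pn_cons]
      unfold ff
      ring
    rw [e]
    have a1' : |∑ n ∈ Icc 1 y, lp (n + c) * (pl univ t n - pn (zA A' x) univ t n)| ≤
        x / Real.log x ^ (A + 1) := by
      refine le_trans (le_of_eq ?_) a1
      rw [← Real.norm_eq_abs, ← Complex.norm_real]
      congr 1
      push_cast
      rfl
    refine (abs_add_le _ _).trans ((add_le_add a1' a2).trans ?_)
    have hx0 : (0 : ℝ) ≤ x := Nat.cast_nonneg x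
    rw [← two_mul, pow_succ, ← mul_div_assoc, div_le_div_iff₀ (by positivity) (by positivity)]
    have h7 : 0 ≤ (x : ℝ) * Real.log x ^ A := by positivity
    nlinarith

theorem hl_short (m A : ℕ) (F : ℕ → ℕ) (ε : ℝ)
    (hWN : ∀ A0 B : ℕ, ∃ A : ℕ, A0 ≤ A ∧ ∀ᶠ x : ℕ in atTop, ∀ H : ℕ, (x : ℝ) ^ (1 / 2 + ε) ≤ H → H ≤ x → WN A B x H) :
    ∃ b0 : ℕ, ∀ᶠ x : ℕ in atTop, ∀ H : Fin m → ℕ, (∀ i, (x : ℝ) ^ (1 / 2 + ε) ≤ H i ∧ H i ≤ x) →
    ∀ T : Fin m → Finset ℕ, (∀ i, SpS F b0 x (H i) (T i)) → ∀ c : ℕ, c ≤ x →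
    ∃ E ⊆ Fintype.piFinset T, (E.card : ℝ) ≤ (∏ i, ((T i).card : ℝ)) / Real.log x ^ A ∧
      ∀ t ∈ Fintype.piFinset T, t ∉ E → Function.Injective (Fin.cons c t : Fin (m + 1) → ℕ) →
        ∀ y : ℕ, y ≤ x →
        |(((Icc 1 y).filter
            (fun n : ℕ => ∀ i, (n + (Fin.cons c t : Fin (m + 1) → ℕ) i).Prime)).card : ℝ) -
          SI (Fin.cons c t : Fin (m + 1) → ℕ) *
            ∑ n ∈ Icc 2 y, hl univ (Fin.cons c t : Fin (m + 1) → ℕ) n| ≤ x / Real.log x ^ A := by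
  classical
  obtain ⟨b0, B, hf⟩ := fixed_short m (A + 2) F
  obtain ⟨A', hA', hSN⟩ := hWN ((A + 2) + (m + 1) + 6) B
  refine ⟨b0, ?_⟩
  filter_upwards [hf A', hSN, eventually_ge_atTop 1, model_y (m + 1) A' (A + 2) hA', sing_upper (m + 1),
    ev_pow (m + 2) (A + 2), ev_log (2 ^ (m + 5))] with x h1 hSN hx1 h2 h3 h4 hL
  intro H hH T hT c hc
  have hL2 : 2 ≤ Real.log x := by
    refine le_trans ?_ hL
    calc (2 : ℝ) = 2 ^ 1 := by norm_num
      _ ≤ 2 ^ (m + 5) := pow_le_pow_right₀ (by norm_num) (by omega)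
  have hL0 : 0 < Real.log x := by linarith
  have hx0 : (0 : ℝ) ≤ x := Nat.cast_nonneg x
  have hH1 : ∀ i, 1 ≤ H i ∧ H i ≤ x := by
    intro i
    have h7 : (0 : ℝ) < H i := lt_of_lt_of_le (Real.rpow_pos_of_pos (by exact_mod_cast hx1) _) (hH i).1
    have h8 : 0 < H i := by exact_mod_cast h7
    exact ⟨h8, (hH i).2⟩
  obtain ⟨E, hE, hEc, hE'⟩ := h1 H hH1 (fun i => hSN (H i) (hH i).1 (hH i).2) T hT c hc
  refine ⟨E, hE, hEc.trans ?_, ?_⟩
  · refine div_le_div_of_nonneg_left (Finset.prod_nonneg fun _ _ => Nat.cast_nonneg _)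
      (by positivity) (pow_le_pow_right₀ (by linarith) (by omega))
  · intro t ht htE hinj y hy
    set a : Fin (m + 1) → ℕ := Fin.cons c t with ha
    have hax : ∀ i, a i ≤ 2 * x := by
      intro i
      refine Fin.cases ?_ ?_ i
      · rw [ha, Fin.cons_zero]
        omega
      · intro j
        have h7 := Fintype.mem_piFinset.mp ht j
        have h8 := Finset.mem_range.mp ((hT j).1 h7)
        have h9 := (hH j).2
        rw [ha, Fin.cons_succ]
        omega
    have b1 := h3 (Fin (m + 1)) a (Fintype.card_fin _) hinj hax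
    have b2 : ∀ y : ℕ, y ≤ x → |∑ n ∈ Icc 1 y, pl univ a n - y * SI a| ≤
        2 * (x / Real.log x ^ (A + 2)) := by
      intro y hy
      have c1 := hE' t ht htE y hy
      have c2 := h2 (Fin (m + 1)) a (Fintype.card_fin _) hinj hax y hy
      rw [Finset.sum_sub_distrib] at c1
      calc |∑ n ∈ Icc 1 y, pl univ a n - y * SI a|
          = |(∑ n ∈ Icc 1 y, pl univ a n - ∑ n ∈ Icc 1 y, pn (zA A' x) univ a n) +
              (∑ n ∈ Icc 1 y, pn (zA A' x) univ a n - y * SI a)| := by ring_nf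
        _ ≤ _ := abs_add_le _ _
        _ ≤ _ := by linarith
    have b3 := abel_log_real univ a (pl univ a) (SI a) (2 * (x / Real.log x ^ (A + 2))) x b2 y hy
    rw [count_eq, Finset.card_univ, Fintype.card_fin, abs_of_nonneg (SI_nonneg a hinj)] at b3
    have b4 : 2 * (x / Real.log x ^ (A + 2)) + SI a ≤ 4 * (x / Real.log x ^ (A + 2)) := by
      have : SI a ≤ x / Real.log x ^ (A + 2) := b1.trans h4
      have h0 : 0 ≤ x / Real.log x ^ (A + 2) := by positivity
      linarith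
    have key : 2 ^ (m + 1 + 2) * (2 * (x / Real.log x ^ (A + 2)) + SI a) ≤ x / Real.log x ^ A := by
     calc 2 ^ (m + 1 + 2) * (2 * (x / Real.log x ^ (A + 2)) + SI a)
        ≤ 2 ^ (m + 1 + 2) * (4 * (x / Real.log x ^ (A + 2))) := by gcongr
      _ = 2 ^ (m + 5) * (x / Real.log x ^ (A + 2)) := by
          rw [show m + 5 = (m + 1 + 2) + 2 by ring, pow_add _ (m + 1 + 2) 2]
          ring
      _ ≤ Real.log x * (x / Real.log x ^ (A + 2)) := by gcongr
      _ = x / Real.log x ^ (A + 1) := by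
          rw [show A + 2 = (A + 1) + 1 by ring, pow_succ _ (A + 1)]
          field_simp
      _ ≤ x / Real.log x ^ A := by
          refine div_le_div_of_nonneg_left hx0 (by positivity)
            (pow_le_pow_right₀ (by linarith) (by omega))
    refine le_trans (le_of_eq ?_) (b3.trans key)
    congr!

end Pool.Agent.VK
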