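import Pool.Agent.Lib.VK.Recur

/-!
# Vinogradov's mean value theorem: the induction

PROOF SKETCH. Write `e_l = 2 k l - k(k+1)/2 + η_l`, `η_l = (k(k+1)/2) (1 - 1/k)^(l-1)`, `C_l = (64 k^4)^(k^3 l)`.
Claim for `1 ≤ l ≤ k^2` and `X ≥ 1`: `J (k l) k X ≤ C_l X^(e_l)`.

`l = 1`: `e_1 = 2 k` and `vin_le`.

Step `l → l + 1 ≤ k^2`, strong induction on `X`. Note `e_(l+1) ≥ 2 k + (3k-1) l / 2` (Bernoulli:
`1 - (1-1/k)^l ≤ l/k`) and `e_(l+1) ≤ 2k(l+1)`.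
(a) `X < (64 k^4)^k`: trivial bound `X^(2k(l+1)) = X^(e_(l+1)) X^(k(k+1)/2 - η_(l+1)) ≤ X^(e_(l+1)) (64k^4)^(k^2(k+1)/2)`.
(b) `X ≥ (64 k^4)^k`. Let `n = ⌈X^(1/k)⌉` be the least natural number with `X ≤ n^k`, by Bertrand
(`Nat.exists_prime_lt_and_le_two_mul`) take a prime `n < p ≤ 2n`. Then `p > k`, `p ≥ 64k^4`, `X ≤ p^k` and, as
`n ≤ 2 X^(1/k)`: `p ≤ 4 X^(1/k)`; also `p ≤ X` and `X / p + 1 < X` and `X / p + 1 ≤ 2 X / p` (as real numbers; first is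
natural division). `recursion` with `s = k l`, induction hypotheses for `l` at `X/p+1` and for `l+1` at `X/p+1 < X`.
First term: `2 (k(l+1))^(2k) k! p^(2kl + k(k-1)/2) X^k C_l (2X/p)^(e_l)`; the exponent of `p` is
`2kl + k(k-1)/2 - e_l = k^2 - η_l ≥ 0`, and `p^(k^2-η_l) ≤ 4^(k^2) X^(k - η_l/k)`; the total exponent of `X` is
`k + e_l + k - η_l/k = e_(l+1)`. The constant: `k(l+1) ≤ k^3`, so it is at most
`2 k^(6k) k^k 2^(2k^3) 4^(k^2) C_l ≤ C_(l+1) / 2` (as `C_(l+1)/C_l = (64k^4)^(k^3) = 2^(6k^3) k^(4k^3)`, `k ≥ 2`).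
Second term: `2 p^(2(k-1)) (k-1)^(2k(l+1)) C_(l+1) (2X/p)^(e_(l+1)) ≤ C_(l+1) X^(e_(l+1)) / 2` as
`e_(l+1) - 2(k-1) ≥ k l`, `2k(l+1) ≤ 4kl`, `e_(l+1) ≤ 4kl` and `p^(kl) ≥ (64k^4)^(kl) ≥ 4 (k-1)^(4kl) 2^(4kl)`.
-/

set_option autoImplicit false

open Finset

namespace Pool.Agent.VK

/-- The defect of the exponent. -/
noncomputable def eta (k l : ℕ) : ℝ := ((k : ℝ) * (k + 1) / 2) * (1 - 1 / (k : ℝ)) ^ (l - 1)

/-- The exponent. -/
noncomputable def ev (k l : ℕ) : ℝ := 2 * (k : ℝ) * l - k * (k + 1) / 2 + eta k l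

section aux

variable {k : ℕ} (hk : 2 ≤ k)

include hk

lemma kR : (2 : ℝ) ≤ k := by exact_mod_cast hk

lemma base_nonneg : (0 : ℝ) ≤ 1 - 1 / (k : ℝ) := by
  have h := kR hk
  have : 1 / (k : ℝ) ≤ 1 := by
    rw [div_le_one (by linarith)]
    linarith
  linarith

lemma base_le_one : 1 - 1 / (k : ℝ) ≤ 1 := by
  have : (0 : ℝ) ≤ 1 / (k : ℝ) := by positivity
  linarith

lemma eta_nonneg (l : ℕ) : 0 ≤ eta k l := by
  unfold eta
  have := pow_nonneg (base_nonneg hk) (l - 1)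
  positivity

lemma eta_le (l : ℕ) : eta k l ≤ (k : ℝ) * (k + 1) / 2 := by
  unfold eta
  have h1 := pow_le_one₀ (n := l - 1) (base_nonneg hk) (base_le_one hk)
  have h2 : (0 : ℝ) ≤ (k : ℝ) * (k + 1) / 2 := by positivity
  nlinarith

lemma eta_succ {l : ℕ} (hl : 1 ≤ l) : eta k (l + 1) = eta k l - eta k l / k := by
  obtain ⟨m, rfl⟩ : ∃ m, l = m + 1 := ⟨l - 1, by omega⟩
  unfold eta
  simp only [Nat.add_sub_cancel]
  rw [pow_succ]
  ring

lemma ev_one : ev k 1 = 2 * k := by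
  unfold ev eta
  simp

lemma ev_succ {l : ℕ} (hl : 1 ≤ l) : ev k (l + 1) = ev k l + 2 * k - eta k l / k := by
  unfold ev
  rw [eta_succ hk hl]
  push_cast
  ring

lemma ev_le (l : ℕ) : ev k l ≤ 2 * k * l := by
  unfold ev
  have := eta_le hk l
  linarith

lemma ev_ge (l : ℕ) : 2 * (k : ℝ) + k * l ≤ ev k (l + 1) := by
  unfold ev eta
  rw [Nat.add_sub_cancel]
  have h2 := kR hk
  have hb : 1 + (l : ℝ) * (-(1 / (k : ℝ))) ≤ (1 + -(1 / (k : ℝ))) ^ l := by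
    refine one_add_mul_le_pow ?_ l
    have : 1 / (k : ℝ) ≤ 1 := by
      rw [div_le_one (by linarith)]
      linarith
    linarith
  have h3 : (0 : ℝ) ≤ (k : ℝ) * (k + 1) / 2 := by positivity
  have h4 := mul_le_mul_of_nonneg_left hb h3
  have h5 : (k : ℝ) * (k + 1) / 2 * (1 + (l : ℝ) * (-(1 / (k : ℝ)))) =
      (k : ℝ) * (k + 1) / 2 - (k + 1) / 2 * l := by
    field_simp
    ring
  rw [h5] at h4
  have h6 : (1 + -(1 / (k : ℝ))) = 1 - 1 / (k : ℝ) := by ring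
  rw [h6] at h4
  push_cast
  have hl0 : (0 : ℝ) ≤ l := by positivity
  nlinarith only [h2, h4]

lemma ev_nonneg {l : ℕ} (hl : 1 ≤ l) : 0 ≤ ev k l := by
  obtain ⟨m, rfl⟩ : ∃ m, l = m + 1 := ⟨l - 1, by omega⟩
  have := ev_ge hk m
  have h1 : (0 : ℝ) ≤ 2 * (k : ℝ) + k * m := by positivity
  linarith

omit hk in
lemma cast_tri (k : ℕ) : ((k * (k - 1) / 2 : ℕ) : ℝ) = (k : ℝ) * (k - 1) / 2 := by
  rcases k with _ | m
  · simp
  · have h : 2 * ((m + 1) * (m + 1 - 1) / 2) = (m + 1) * (m + 1 - 1) :=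
      Nat.mul_div_cancel' (Nat.even_mul_pred_self (m + 1)).two_dvd
    rw [Nat.add_sub_cancel] at h ⊢
    have h' : (2 : ℝ) * (((m + 1) * m / 2 : ℕ) : ℝ) = ((m + 1 : ℕ) : ℝ) * m := by exact_mod_cast h
    have : (((m + 1) * m / 2 : ℕ) : ℝ) = ((m + 1 : ℕ) : ℝ) * m / 2 := by linarith
    rw [this]
    push_cast
    ring

/-- The numerical inequality for the first term. -/
lemma const_one {l : ℕ} (hlk : l + 1 ≤ k ^ 2) :
    4 * (((k * l + k : ℕ) : ℝ) ^ (2 * k) * ((k.factorial : ℝ) * ((2 : ℝ) ^ (2 * k * l) * 4 ^ (k ^ 2)))) ≤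
      (64 * (k : ℝ) ^ 4) ^ (k ^ 3) := by
  have h1 : k * l + k ≤ k ^ 3 := by
    calc k * l + k = k * (l + 1) := by ring
      _ ≤ k * k ^ 2 := Nat.mul_le_mul_left _ hlk
      _ = k ^ 3 := by ring
  have h2 : (k * l + k) ^ (2 * k) ≤ k ^ (6 * k) := by
    calc (k * l + k) ^ (2 * k) ≤ (k ^ 3) ^ (2 * k) := Nat.pow_le_pow_left h1 _
      _ = k ^ (6 * k) := by rw [← pow_mul]; ring_nf
  have h3 : k.factorial ≤ k ^ k := Nat.factorial_le_pow k
  have h4 : 2 ^ (2 * k * l) ≤ 2 ^ (2 * k ^ 3) := by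
    refine Nat.pow_le_pow_right two_pos ?_
    calc 2 * k * l ≤ 2 * (k * l + k) := by nlinarith
      _ ≤ 2 * k ^ 3 := Nat.mul_le_mul_left _ h1
  have h5 : 4 * ((k * l + k) ^ (2 * k) * (k.factorial * (2 ^ (2 * k * l) * 4 ^ (k ^ 2)))) ≤
      (64 * k ^ 4) ^ (k ^ 3) := by
    calc 4 * ((k * l + k) ^ (2 * k) * (k.factorial * (2 ^ (2 * k * l) * 4 ^ (k ^ 2)))) ≤
        4 * (k ^ (6 * k) * (k ^ k * (2 ^ (2 * k ^ 3) * 4 ^ (k ^ 2)))) := by gcongr
      _ = 2 ^ (2 + 2 * k ^ 3 + 2 * k ^ 2) * k ^ (7 * k) := by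
          have : (4 : ℕ) = 2 ^ 2 := rfl
          rw [this, ← pow_mul]
          ring
      _ ≤ 2 ^ (6 * k ^ 3) * k ^ (4 * k ^ 3) := by
          refine Nat.mul_le_mul (Nat.pow_le_pow_right two_pos ?_)
            (Nat.pow_le_pow_right (by omega) ?_)
          · have h6 : k ^ 3 = k * k ^ 2 := by ring
            have h7 : 2 * k ^ 2 ≤ k ^ 3 := by rw [h6]; exact Nat.mul_le_mul_right _ hk
            have h8 : 1 ≤ k ^ 2 := Nat.one_le_pow _ _ (by omega)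
            nlinarith only [hlk, h7]
          · have h6 : k ^ 3 = k * k ^ 2 := by ring
            have h7 : 4 ≤ k ^ 2 := by nlinarith only [hk]
            have h8 : k * 4 ≤ k * k ^ 2 := Nat.mul_le_mul_left _ h7
            rw [h6]
            linarith
      _ = (64 * k ^ 4) ^ (k ^ 3) := by
          have : (64 : ℕ) = 2 ^ 6 := rfl
          rw [this, mul_pow, ← pow_mul, ← pow_mul]
  exact_mod_cast h5

/-- The first term of the recursion. -/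
lemma term_one {l : ℕ} (hl : 1 ≤ l) (hlk : l + 1 ≤ k ^ 2) {p X C : ℝ} (hp : 0 < p) (hX : 0 < X)
    (hC : 0 ≤ C) (hpX : p ≤ 4 * X ^ (1 / (k : ℝ))) :
    2 * (((k * l + k : ℕ) : ℝ) ^ (2 * k) *
      (p ^ (2 * (k * l)) * (X ^ k * ((k.factorial : ℝ) * p ^ (k * (k - 1) / 2)) *
        (C * (2 * X / p) ^ ev k l)))) ≤
      (64 * (k : ℝ) ^ 4) ^ (k ^ 3) * C * X ^ ev k (l + 1) / 2 := by
  have h2 := kR hk
  have hk0 : (0 : ℝ) < k := by linarith
  set w : ℝ := (k : ℝ) ^ 2 - eta k l with hw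
  have hw0 : 0 ≤ w := by
    have := eta_le hk l
    nlinarith only [h2, this]
  have hpow : p ^ w ≤ 4 ^ (k ^ 2) * X ^ ((k : ℝ) - eta k l / k) := by
    have h3 : p ^ w ≤ (4 * X ^ (1 / (k : ℝ))) ^ w := Real.rpow_le_rpow hp.le hpX hw0
    have h4 : (4 * X ^ (1 / (k : ℝ))) ^ w = 4 ^ w * X ^ ((k : ℝ) - eta k l / k) := by
      rw [Real.mul_rpow (by norm_num) (Real.rpow_nonneg hX.le _), ← Real.rpow_mul hX.le]
      congr 2
      rw [hw]
      field_simp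
    have h5 : (4 : ℝ) ^ w ≤ 4 ^ (k ^ 2) := by
      rw [← Real.rpow_natCast]
      refine Real.rpow_le_rpow_of_exponent_le (by norm_num) ?_
      push_cast
      have := eta_nonneg hk l
      linarith only [this]
    rw [h4] at h3
    exact h3.trans (mul_le_mul_of_nonneg_right h5 (Real.rpow_nonneg hX.le _))
  have hid : p ^ (2 * (k * l)) * p ^ (k * (k - 1) / 2) * (2 * X / p) ^ ev k l =
      2 ^ ev k l * X ^ ev k l * p ^ w := by
    rw [Real.div_rpow (by positivity) hp.le, Real.mul_rpow (by norm_num) hX.le,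
      ← Real.rpow_natCast p, ← Real.rpow_natCast p, ← Real.rpow_add hp]
    have h6 : p ^ (((2 * (k * l) : ℕ) : ℝ) + ((k * (k - 1) / 2 : ℕ) : ℝ)) =
        p ^ w * p ^ ev k l := by
      rw [← Real.rpow_add hp]
      congr 1
      rw [cast_tri, hw]
      unfold ev
      push_cast
      ring
    rw [h6]
    have h7 : p ^ ev k l ≠ 0 := (Real.rpow_pos_of_pos hp _).ne'
    field_simp
  have h2e : (2 : ℝ) ^ ev k l ≤ 2 ^ (2 * k * l) := by
    rw [← Real.rpow_natCast]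
    refine Real.rpow_le_rpow_of_exponent_le (by norm_num) ?_
    push_cast
    exact ev_le hk l
  have hXe : X ^ k * (X ^ ev k l * X ^ ((k : ℝ) - eta k l / k)) = X ^ ev k (l + 1) := by
    rw [← Real.rpow_natCast, ← Real.rpow_add hX, ← Real.rpow_add hX, ev_succ hk hl]
    congr 1
    ring
  have hA : 0 ≤ ((k * l + k : ℕ) : ℝ) ^ (2 * k) := by positivity
  calc 2 * (((k * l + k : ℕ) : ℝ) ^ (2 * k) *
      (p ^ (2 * (k * l)) * (X ^ k * ((k.factorial : ℝ) * p ^ (k * (k - 1) / 2)) *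
        (C * (2 * X / p) ^ ev k l)))) =
      2 * ((k * l + k : ℕ) : ℝ) ^ (2 * k) * k.factorial * C * X ^ k *
        (p ^ (2 * (k * l)) * p ^ (k * (k - 1) / 2) * (2 * X / p) ^ ev k l) := by ring
    _ = 2 * ((k * l + k : ℕ) : ℝ) ^ (2 * k) * k.factorial * C * X ^ k *
        (2 ^ ev k l * X ^ ev k l * p ^ w) := by rw [hid]
    _ ≤ 2 * ((k * l + k : ℕ) : ℝ) ^ (2 * k) * k.factorial * C * X ^ k *
        (2 ^ (2 * k * l) * X ^ ev k l * (4 ^ (k ^ 2) * X ^ ((k : ℝ) - eta k l / k))) := by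
        gcongr
    _ = (4 * (((k * l + k : ℕ) : ℝ) ^ (2 * k) * ((k.factorial : ℝ) *
          ((2 : ℝ) ^ (2 * k * l) * 4 ^ (k ^ 2))))) * C *
          (X ^ k * (X ^ ev k l * X ^ ((k : ℝ) - eta k l / k))) / 2 := by ring
    _ ≤ (64 * (k : ℝ) ^ 4) ^ (k ^ 3) * C *
          (X ^ k * (X ^ ev k l * X ^ ((k : ℝ) - eta k l / k))) / 2 := by
        gcongr
        exact const_one hk hlk
    _ = _ := by rw [hXe]

/-- The second term of the recursion. -/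
lemma term_two {l : ℕ} (hl : 1 ≤ l) {p X C : ℝ} (hp : 64 * (k : ℝ) ^ 4 ≤ p) (hX : 0 < X)
    (hC : 0 ≤ C) :
    2 * (p ^ (2 * (k - 1)) * (((k - 1 : ℕ) : ℝ) ^ (2 * (k * l + k)) *
      (C * (2 * X / p) ^ ev k (l + 1)))) ≤ C * X ^ ev k (l + 1) / 2 := by
  have h2 := kR hk
  have hk0 : (0 : ℝ) < k := by linarith
  have hp0 : 0 < p := lt_of_lt_of_le (by positivity) hp
  have hp1 : 1 ≤ p := by
    refine le_trans ?_ hp
    have : (1 : ℝ) ≤ (k : ℝ) ^ 4 := one_le_pow₀ (by linarith)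
    linarith
  have hge := ev_ge hk l
  have hl1 : (1 : ℝ) ≤ l := by exact_mod_cast hl
  have hkey : 4 * (p ^ (2 * (k - 1)) * (((k - 1 : ℕ) : ℝ) ^ (2 * (k * l + k)) *
      2 ^ ev k (l + 1))) ≤ p ^ ev k (l + 1) := by
    have h3 : p ^ (2 * (k - 1)) * p ^ (k * l) ≤ p ^ ev k (l + 1) := by
      rw [← pow_add, ← Real.rpow_natCast]
      refine Real.rpow_le_rpow_of_exponent_le hp1 ?_
      have h4 : ((k - 1 : ℕ) : ℝ) = k - 1 := by
        rw [Nat.cast_sub (by omega)]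
        simp
      push_cast
      rw [h4]
      linarith only [hge]
    have h5 : (2 : ℝ) ^ ev k (l + 1) ≤ 2 ^ (4 * (k * l)) := by
      rw [← Real.rpow_natCast]
      refine Real.rpow_le_rpow_of_exponent_le (by norm_num) ?_
      have := ev_le hk (l + 1)
      push_cast at this ⊢
      nlinarith only [hl1, this]
    have h6 : ((k - 1 : ℕ) : ℝ) ^ (2 * (k * l + k)) ≤ (k : ℝ) ^ (4 * (k * l)) := by
      have h7 : (k - 1) ^ (2 * (k * l + k)) ≤ k ^ (4 * (k * l)) := by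
        calc (k - 1) ^ (2 * (k * l + k)) ≤ k ^ (2 * (k * l + k)) :=
              Nat.pow_le_pow_left (by omega) _
          _ ≤ k ^ (4 * (k * l)) := Nat.pow_le_pow_right (by omega) (by nlinarith only [hl])
      exact_mod_cast h7
    have h8 : (64 * (k : ℝ) ^ 4) ^ (k * l) ≤ p ^ (k * l) :=
      pow_le_pow_left₀ (by positivity) hp _
    have h9 : 4 * ((k : ℝ) ^ (4 * (k * l)) * 2 ^ (4 * (k * l))) ≤ (64 * (k : ℝ) ^ 4) ^ (k * l) := by
      have h10 : (64 * (k : ℝ) ^ 4) ^ (k * l) = (2 ^ (2 * (k * l)) * 2 ^ (4 * (k * l))) *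
          (k : ℝ) ^ (4 * (k * l)) := by
        have : (64 : ℝ) = 2 ^ 2 * 2 ^ 4 := by norm_num
        rw [this, mul_pow, mul_pow, ← pow_mul, ← pow_mul, ← pow_mul]
      rw [h10]
      have h11 : (4 : ℝ) ≤ 2 ^ (2 * (k * l)) := by
        calc (4 : ℝ) = 2 ^ 2 := by norm_num
          _ ≤ 2 ^ (2 * (k * l)) := pow_le_pow_right₀ (by norm_num) (by nlinarith only [hk, hl])
      calc 4 * ((k : ℝ) ^ (4 * (k * l)) * 2 ^ (4 * (k * l))) =
          4 * 2 ^ (4 * (k * l)) * (k : ℝ) ^ (4 * (k * l)) := by ring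
        _ ≤ 2 ^ (2 * (k * l)) * 2 ^ (4 * (k * l)) * (k : ℝ) ^ (4 * (k * l)) := by gcongr
    calc 4 * (p ^ (2 * (k - 1)) * (((k - 1 : ℕ) : ℝ) ^ (2 * (k * l + k)) * 2 ^ ev k (l + 1))) ≤
        4 * (p ^ (2 * (k - 1)) * ((k : ℝ) ^ (4 * (k * l)) * 2 ^ (4 * (k * l)))) := by gcongr
      _ = p ^ (2 * (k - 1)) * (4 * ((k : ℝ) ^ (4 * (k * l)) * 2 ^ (4 * (k * l)))) := by ring
      _ ≤ p ^ (2 * (k - 1)) * p ^ (k * l) := by
          gcongr
          exact h9.trans h8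
      _ ≤ _ := h3
  have hid : (2 * X / p) ^ ev k (l + 1) = 2 ^ ev k (l + 1) * X ^ ev k (l + 1) / p ^ ev k (l + 1) := by
    rw [Real.div_rpow (by positivity) hp0.le, Real.mul_rpow (by norm_num) hX.le]
  rw [hid]
  have hpe : 0 < p ^ ev k (l + 1) := Real.rpow_pos_of_pos hp0 _
  calc 2 * (p ^ (2 * (k - 1)) * (((k - 1 : ℕ) : ℝ) ^ (2 * (k * l + k)) *
      (C * (2 ^ ev k (l + 1) * X ^ ev k (l + 1) / p ^ ev k (l + 1))))) =
      (4 * (p ^ (2 * (k - 1)) * (((k - 1 : ℕ) : ℝ) ^ (2 * (k * l + k)) * 2 ^ ev k (l + 1)))) *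
        (C * X ^ ev k (l + 1) / 2) / p ^ ev k (l + 1) := by
        field_simp
        ring
    _ ≤ p ^ ev k (l + 1) * (C * X ^ ev k (l + 1) / 2) / p ^ ev k (l + 1) := by
        gcongr
    _ = _ := by
        field_simp

/-- The prime. -/
lemma exists_p {X : ℕ} (hX : (64 * (k : ℝ) ^ 4) ^ k ≤ X) : ∃ p : ℕ, p.Prime ∧ k < p ∧ X ≤ p ^ k ∧
    64 * (k : ℝ) ^ 4 ≤ p ∧ (p : ℝ) ≤ 4 * (X : ℝ) ^ (1 / (k : ℝ)) := by
  have h2 := kR hk
  have hk0 : (0 : ℝ) < k := by linarith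
  have hkne : k ≠ 0 := by omega
  have hB : (1 : ℝ) ≤ 64 * (k : ℝ) ^ 4 := by
    have : (1 : ℝ) ≤ (k : ℝ) ^ 4 := one_le_pow₀ (by linarith)
    linarith
  have hX1 : (1 : ℝ) ≤ X := (one_le_pow₀ hB).trans hX
  set Z : ℝ := (X : ℝ) ^ (1 / (k : ℝ)) with hZ
  have hZk : Z ^ k = X := by
    rw [hZ, ← Real.rpow_natCast, ← Real.rpow_mul (by positivity)]
    rw [one_div_mul_cancel hk0.ne', Real.rpow_one]
  have hZ0 : 0 ≤ Z := Real.rpow_nonneg (by positivity) _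
  have hBZ : 64 * (k : ℝ) ^ 4 ≤ Z := by
    refine le_of_pow_le_pow_left₀ hkne hZ0 ?_
    rw [hZk]
    exact hX
  have hZ1 : 1 ≤ Z := hB.trans hBZ
  obtain ⟨p, hp, hnp, hp2⟩ := Nat.exists_prime_lt_and_le_two_mul ⌈Z⌉₊ (by
    have : 0 < ⌈Z⌉₊ := Nat.ceil_pos.2 (by linarith only [hB, hBZ])
    omega)
  have hnpR : (⌈Z⌉₊ : ℝ) < p := by exact_mod_cast hnp
  have hZn := Nat.le_ceil Z
  have hnZ := Nat.ceil_lt_add_one hZ0
  have hp2R : (p : ℝ) ≤ 2 * ⌈Z⌉₊ := by exact_mod_cast hp2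
  refine ⟨p, hp, ?_, ?_, ?_, ?_⟩
  · have h3 : (k : ℝ) < p := by
      have : (k : ℝ) ≤ 64 * (k : ℝ) ^ 4 := by
        have h4 : (1 : ℝ) ≤ (k : ℝ) ^ 3 := one_le_pow₀ (by linarith only [h2])
        nlinarith only [h2, h4]
      linarith only [hBZ, hnpR, hZn, this]
    exact_mod_cast h3
  · have h3 : (X : ℝ) ≤ (p : ℝ) ^ k := by
      rw [← hZk]
      exact pow_le_pow_left₀ hZ0 (by linarith only [hnpR, hZn]) _
    exact_mod_cast h3
  · linarith only [hBZ, hnpR, hZn]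
  · linarith only [hB, hBZ, hnZ, hp2R]

end aux

theorem vmvt_step (k : ℕ) (hk : 2 ≤ k) (l : ℕ) (hl : 1 ≤ l) (hlk : l + 1 ≤ k ^ 2)
    (ih : ∀ X : ℕ, 1 ≤ X → (J (k * l) k X : ℝ) ≤ (64 * (k : ℝ) ^ 4) ^ (k ^ 3 * l) *
      (X : ℝ) ^ ev k l) (X : ℕ) (hX : 1 ≤ X) :
    (J (k * (l + 1)) k X : ℝ) ≤ (64 * (k : ℝ) ^ 4) ^ (k ^ 3 * (l + 1)) * (X : ℝ) ^ ev k (l + 1) := by
  induction X using Nat.strong_induction_on with
  | _ X ihX =>
  have h2 := kR hk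
  have hk0 : (0 : ℝ) < k := by linarith
  have hB : (1 : ℝ) ≤ 64 * (k : ℝ) ^ 4 := by
    have : (1 : ℝ) ≤ (k : ℝ) ^ 4 := one_le_pow₀ (by linarith)
    linarith
  have hX1 : (1 : ℝ) ≤ X := by exact_mod_cast hX
  have hX0 : (0 : ℝ) < X := by linarith
  rcases lt_or_ge (X : ℝ) ((64 * (k : ℝ) ^ 4) ^ k) with hlt | hge
  · have h1 : (J (k * (l + 1)) k X : ℝ) ≤ (X : ℝ) ^ (2 * (k * (l + 1))) := by
      have := vin_le (k * (l + 1)) k (ivl X)
      rw [card_ivl] at this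
      exact_mod_cast this
    have h3 : (X : ℝ) ^ (2 * (k * (l + 1))) =
        (X : ℝ) ^ ((k : ℝ) * (k + 1) / 2 - eta k (l + 1)) * (X : ℝ) ^ ev k (l + 1) := by
      rw [← Real.rpow_natCast, ← Real.rpow_add hX0]
      congr 1
      unfold ev
      push_cast
      ring
    have h4 : (X : ℝ) ^ ((k : ℝ) * (k + 1) / 2 - eta k (l + 1)) ≤
        (64 * (k : ℝ) ^ 4) ^ (k ^ 3 * (l + 1)) := by
      calc (X : ℝ) ^ ((k : ℝ) * (k + 1) / 2 - eta k (l + 1)) ≤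
          (X : ℝ) ^ ((k : ℝ) ^ 2) := by
            refine Real.rpow_le_rpow_of_exponent_le hX1 ?_
            have := eta_nonneg hk (l + 1)
            nlinarith only [h2, this]
        _ = (X : ℝ) ^ (k ^ 2) := by
            have h9 := Real.rpow_natCast (X : ℝ) (k ^ 2)
            push_cast at h9
            exact h9
        _ ≤ ((64 * (k : ℝ) ^ 4) ^ k) ^ (k ^ 2) := pow_le_pow_left₀ hX0.le hlt.le _
        _ = (64 * (k : ℝ) ^ 4) ^ (k ^ 3) := by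
            rw [← pow_mul]
            congr 1
            ring
        _ ≤ _ := pow_le_pow_right₀ hB (Nat.le_mul_of_pos_right _ (by omega))
    rw [h3] at h1
    exact h1.trans (mul_le_mul_of_nonneg_right h4 (Real.rpow_nonneg hX0.le _))
  · obtain ⟨p, hp, hkp, hXp, hBp, hpX⟩ := exists_p hk hge
    have hpR : (0 : ℝ) < p := by exact_mod_cast hp.pos
    -- `p ≤ X`
    have hZX : (X : ℝ) ^ (1 / (k : ℝ)) * 4 ≤ X := by
      have h4 : (4 : ℝ) ≤ (X : ℝ) ^ (1 - 1 / (k : ℝ)) := by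
        have h5 : (64 * (k : ℝ) ^ 4) ^ (k : ℝ) ≤ X := by
          rw [Real.rpow_natCast]
          exact hge
        have h6 : ((64 * (k : ℝ) ^ 4) ^ (k : ℝ)) ^ (1 - 1 / (k : ℝ)) ≤
            (X : ℝ) ^ (1 - 1 / (k : ℝ)) :=
          Real.rpow_le_rpow (by positivity) h5 (base_nonneg hk)
        refine le_trans ?_ h6
        rw [← Real.rpow_mul (by positivity)]
        have h7 : (k : ℝ) * (1 - 1 / (k : ℝ)) = k - 1 := by
          field_simp
        rw [h7]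
        calc (4 : ℝ) ≤ 64 * (k : ℝ) ^ 4 := by
              have : (1 : ℝ) ≤ (k : ℝ) ^ 4 := one_le_pow₀ (by linarith only [h2])
              linarith only [this]
          _ = (64 * (k : ℝ) ^ 4) ^ (1 : ℝ) := (Real.rpow_one _).symm
          _ ≤ _ := Real.rpow_le_rpow_of_exponent_le hB (by linarith only [h2])
      calc (X : ℝ) ^ (1 / (k : ℝ)) * 4 ≤
          (X : ℝ) ^ (1 / (k : ℝ)) * (X : ℝ) ^ (1 - 1 / (k : ℝ)) := by
            gcongr
        _ = X := by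
            rw [← Real.rpow_add hX0]
            simp
    have hpleX : (p : ℝ) ≤ X := by linarith only [hpX, hZX]
    have hpleXn : p ≤ X := by exact_mod_cast hpleX
    set Y : ℕ := X / p + 1 with hY
    have hY1 : 1 ≤ Y := Nat.le_add_left 1 _
    have hp2 : 2 ≤ p := hp.two_le
    have hYX : Y < X := by
      have h3 : X / p ≤ X / 2 := Nat.div_le_div_left hp2 two_pos
      have h4 : 2 < X := by omega
      omega
    have hYR : (Y : ℝ) ≤ 2 * X / p := by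
      have h3 : ((X / p : ℕ) : ℝ) ≤ (X : ℝ) / p := Nat.cast_div_le
      have h4 : 1 ≤ (X : ℝ) / p := by
        rw [le_div_iff₀ hpR]
        linarith only [hpX, hZX]
      rw [hY]
      push_cast
      calc ((X / p : ℕ) : ℝ) + 1 ≤ (X : ℝ) / p + (X : ℝ) / p := by linarith only [h3, h4]
        _ = 2 * X / p := by ring
    have hrec := recursion k (k * l) p X hk hp hkp hXp
    have hrecR : (J (k * l + k) k X : ℝ) ≤
        2 * (((k * l + k : ℕ) : ℝ) ^ (2 * k) *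
          ((p : ℝ) ^ (2 * (k * l)) * ((X : ℝ) ^ k * ((k.factorial : ℝ) * (p : ℝ) ^ (k * (k - 1) / 2)) *
            (J (k * l) k Y : ℝ)))) +
        2 * ((p : ℝ) ^ (2 * (k - 1)) * (((k - 1 : ℕ) : ℝ) ^ (2 * (k * l + k)) *
          (J (k * l + k) k Y : ℝ))) := by
      exact_mod_cast hrec
    have hJ1 : (J (k * l) k Y : ℝ) ≤ (64 * (k : ℝ) ^ 4) ^ (k ^ 3 * l) * (2 * X / p) ^ ev k l := by
      refine (ih Y hY1).trans ?_
      gcongr
      exact ev_nonneg hk hl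
    have hJ2 : (J (k * l + k) k Y : ℝ) ≤
        (64 * (k : ℝ) ^ 4) ^ (k ^ 3 * (l + 1)) * (2 * X / p) ^ ev k (l + 1) := by
      have h3 := ihX Y hYX hY1
      rw [Nat.mul_succ] at h3
      refine h3.trans ?_
      gcongr
      exact ev_nonneg hk (by omega)
    have ht1 := term_one hk hl hlk (p := (p : ℝ)) (X := (X : ℝ))
      (C := (64 * (k : ℝ) ^ 4) ^ (k ^ 3 * l)) hpR hX0 (by (clear * - hk; positivity)) hpX
    have ht2 := term_two hk hl (p := (p : ℝ)) (X := (X : ℝ))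
      (C := (64 * (k : ℝ) ^ 4) ^ (k ^ 3 * (l + 1))) hBp hX0 (by (clear * - hk; positivity))
    have hCC : (64 * (k : ℝ) ^ 4) ^ (k ^ 3) * (64 * (k : ℝ) ^ 4) ^ (k ^ 3 * l) =
        (64 * (k : ℝ) ^ 4) ^ (k ^ 3 * (l + 1)) := by
      rw [← pow_add]
      congr 1
      ring
    rw [hCC] at ht1
    rw [Nat.mul_succ]
    refine hrecR.trans ?_
    have hs1 : 2 * (((k * l + k : ℕ) : ℝ) ^ (2 * k) *
          ((p : ℝ) ^ (2 * (k * l)) * ((X : ℝ) ^ k * ((k.factorial : ℝ) * (p : ℝ) ^ (k * (k - 1) / 2)) *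
            (J (k * l) k Y : ℝ)))) ≤
        (64 * (k : ℝ) ^ 4) ^ (k ^ 3 * (l + 1)) * (X : ℝ) ^ ev k (l + 1) / 2 := by
      refine le_trans ?_ ht1
      gcongr
    have hs2 : 2 * ((p : ℝ) ^ (2 * (k - 1)) * (((k - 1 : ℕ) : ℝ) ^ (2 * (k * l + k)) *
          (J (k * l + k) k Y : ℝ))) ≤
        (64 * (k : ℝ) ^ 4) ^ (k ^ 3 * (l + 1)) * (X : ℝ) ^ ev k (l + 1) / 2 := by
      refine le_trans ?_ ht2
      gcongr
    linarith only [hs1, hs2]

theorem vmvt_ind (k : ℕ) (hk : 2 ≤ k) (l : ℕ) (hl : 1 ≤ l) (hlk : l ≤ k ^ 2) (X : ℕ) (hX : 1 ≤ X) :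
    (J (k * l) k X : ℝ) ≤ (64 * (k : ℝ) ^ 4) ^ (k ^ 3 * l) *
      (X : ℝ) ^ (2 * (k : ℝ) * l - k * (k + 1) / 2 + (k * (k + 1) / 2) * (1 - 1 / (k : ℝ)) ^ (l - 1)) := by
  have key : ∀ l : ℕ, 1 ≤ l → l ≤ k ^ 2 → ∀ X : ℕ, 1 ≤ X →
      (J (k * l) k X : ℝ) ≤ (64 * (k : ℝ) ^ 4) ^ (k ^ 3 * l) * (X : ℝ) ^ ev k l := by
    intro l hl
    induction l, hl using Nat.le_induction with
    | base =>
      intro _ X hX
      have hX1 : (1 : ℝ) ≤ X := by exact_mod_cast hX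
      have h1 : (J (k * 1) k X : ℝ) ≤ (X : ℝ) ^ (2 * (k * 1)) := by
        have := vin_le (k * 1) k (ivl X)
        rw [card_ivl] at this
        exact_mod_cast this
      have h2 : (X : ℝ) ^ (2 * (k * 1)) = (X : ℝ) ^ ev k 1 := by
        rw [ev_one hk, ← Real.rpow_natCast]
        push_cast
        rw [mul_one]
      rw [h2] at h1
      have hB : (1 : ℝ) ≤ (64 * (k : ℝ) ^ 4) ^ (k ^ 3 * 1) := by
        refine one_le_pow₀ ?_
        have h3 := kR hk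
        have : (1 : ℝ) ≤ (k : ℝ) ^ 4 := one_le_pow₀ (by linarith)
        linarith
      have h4 : (0 : ℝ) ≤ (X : ℝ) ^ ev k 1 := Real.rpow_nonneg (by linarith) _
      nlinarith only [h1, hB]
    | succ l hl ih =>
      intro hlk X hX
      exact vmvt_step k hk l hl hlk (ih (by omega)) X hX
  exact key l hl hlk X hX

end Pool.Agent.VK
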