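import Pool.Agent.Lib.VK.ResSum
import Pool.Agent.Lib.VK.SmoothSum
import Pool.Agent.Lib.VK.Approx

/-!
# Upper bound for L-functions close to the line `Re s = 1`

PROOF SKETCH. `ℓ = log T`, `s = σ + i v`, `B = 2A + 20`, `|v| ≥ ℓ^B`, `q ≤ ℓ^A`, `δ = ℓ^(-9/10)`, `σ ≥ 1 - δ` (`≥ 1/2`). Take
`N1 = ⌈(q (|v| + 4))^2⌉`; `approx` gives `|L| ≤ |sum_(n ≤ N1) χ(n) n^(-s)| + N1^(1-σ)/|v| + C q |s| N1^(-σ)`, the last two terms
are `≤ 1` (`N1^δ ≤ |v|^(1/2)`, since `log N1 ≤ 3 log |v| + 10`, `δ log N1 ≤ (log |v|)/2`).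
Terms with `n ≤ M0 = ⌊exp (ℓ^(9/10))⌋`: `n^(-σ) ≤ n^(-1) n^δ ≤ e / n`, total `≤ e (1 + ℓ^(9/10))`.
The rest: at most `C ℓ` dyadic blocks `(M, min (2M, N1)]`, `M ≥ M0`. By Abel summation (the function `n^(-σ)` is decreasing and
positive) a block is at most `2 M^(-σ) max_(N' ≤ 2M) |sum_(M < n ≤ N') χ(n) n^(-iv)|`.
(1) `M ≤ v^2`: `res_sum` with `t = -v`, `K = ⌈ℓ / log M⌉` (so `|v| ≤ T ≤ M^K`; `q^2 ≤ M`): block
`≤ 2 C M^(1-σ) M^(-1/(C K^6)) ≤ 2 C exp (δ λ - λ/(C K^6))`, `λ = log M ≥ ℓ^(9/10)/2`, `K ≤ 3 ℓ/λ` (note `λ ≤ 2 ℓ`), so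
`λ/(C K^6) ≥ λ^7/(729 C ℓ^6) ≥ λ ℓ^(-6/10)/(C')`, which is `≥ 2 δ λ` and `≥ ℓ^(3/10)/C''`: block `≤ 2 C exp (-ℓ^(3/10)/C'')`, `≤ ℓ^(-1)`.
(2) `M > v^2`: `smooth_sum`: block `≤ 2 C M^(1-σ) (1/|v| + q |v|/M) ≤ 4 C q M^δ/|v| ≤ 4 C q |v|^(-1/2) ≤ ℓ^(-1)` (for `M ≤ N1`: `M^δ ≤ |v|^(1/2)`).
Total `≤ C ℓ^(9/10) ≤ ℓ^2` for `T` large. (`DirichletCharacter.LFunction χ` is by definition `ZMod.LFunction (χ ·)`.)
-/

set_option autoImplicit false

open Finset Filter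

namespace Pool.Agent.VK

/-- Abel summation with a decreasing weight -/
lemma lu_abel (a : ℕ → ℂ) (w : ℕ → ℝ) (M N : ℕ) (D : ℝ) (hMN : M < N)
    (hD : ∀ N', M ≤ N' → N' ≤ N → ‖∑ n ∈ Ioc M N', a n‖ ≤ D)
    (hw : ∀ n, M < n → n < N → w (n + 1) ≤ w n) (hw0 : ∀ n, M < n → n ≤ N → 0 ≤ w n) :
    ‖∑ n ∈ Ioc M N, a n * (w n : ℂ)‖ ≤ D * w (M + 1) := by
  have hD0 : 0 ≤ D := (norm_nonneg _).trans (hD M le_rfl hMN.le)
  have key : ∀ k, M + 1 + k ≤ N →
      ‖∑ n ∈ Ioc M (M + 1 + k), a n * (w n : ℂ) -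
        (∑ n ∈ Ioc M (M + 1 + k), a n) * (w (M + 1 + k) : ℂ)‖ ≤
        D * (w (M + 1) - w (M + 1 + k)) := by
    intro k
    induction k with
    | zero =>
      intro _
      rw [add_zero, Finset.sum_Ioc_succ_top (Nat.le_refl M), Finset.sum_Ioc_succ_top (Nat.le_refl M)]
      simp
    | succ k ih =>
      intro hk
      have ih' := ih (by omega)
      have e1 : M + 1 + (k + 1) = (M + 1 + k) + 1 := by ring
      rw [e1, Finset.sum_Ioc_succ_top (by omega), Finset.sum_Ioc_succ_top (by omega)]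
      set S := ∑ n ∈ Ioc M (M + 1 + k), a n * (w n : ℂ)
      set A := ∑ n ∈ Ioc M (M + 1 + k), a n
      have e2 : S + a (M + 1 + k + 1) * (w (M + 1 + k + 1) : ℂ) -
          (A + a (M + 1 + k + 1)) * (w (M + 1 + k + 1) : ℂ) =
          (S - A * (w (M + 1 + k) : ℂ)) + A * ((w (M + 1 + k) - w (M + 1 + k + 1) : ℝ) : ℂ) := by
        push_cast
        ring
      rw [e2]
      have h1 : w (M + 1 + k + 1) ≤ w (M + 1 + k) := hw _ (by omega) (by omega)
      have h2 : ‖A * ((w (M + 1 + k) - w (M + 1 + k + 1) : ℝ) : ℂ)‖ ≤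
          D * (w (M + 1 + k) - w (M + 1 + k + 1)) := by
        rw [norm_mul, Complex.norm_real, Real.norm_eq_abs, abs_of_nonneg (by linarith)]
        exact mul_le_mul_of_nonneg_right (hD _ (by omega) (by omega)) (by linarith)
      calc _ ≤ _ := norm_add_le _ _
        _ ≤ D * (w (M + 1) - w (M + 1 + k)) + D * (w (M + 1 + k) - w (M + 1 + k + 1)) :=
          add_le_add ih' h2
        _ = _ := by ring
  obtain ⟨k, rfl⟩ : ∃ k, N = M + 1 + k := ⟨N - (M + 1), by omega⟩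
  have h1 := key k le_rfl
  have h2 : ‖(∑ n ∈ Ioc M (M + 1 + k), a n) * (w (M + 1 + k) : ℂ)‖ ≤ D * w (M + 1 + k) := by
    rw [norm_mul, Complex.norm_real, Real.norm_eq_abs,
      abs_of_nonneg (hw0 _ (by omega) le_rfl)]
    exact mul_le_mul_of_nonneg_right (hD _ (by omega) le_rfl) (hw0 _ (by omega) le_rfl)
  have h3 := norm_add_le (∑ n ∈ Ioc M (M + 1 + k), a n * (w n : ℂ) -
        (∑ n ∈ Ioc M (M + 1 + k), a n) * (w (M + 1 + k) : ℂ))
        ((∑ n ∈ Ioc M (M + 1 + k), a n) * (w (M + 1 + k) : ℂ))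
  rw [sub_add_cancel] at h3
  calc _ ≤ _ := h3
    _ ≤ D * (w (M + 1) - w (M + 1 + k)) + D * w (M + 1 + k) := add_le_add h1 h2
    _ = _ := by ring

lemma lu_term (s : ℂ) (n : ℕ) (hn : 1 ≤ n) :
    (n : ℂ) ^ (-s) = ((n : ℝ) : ℂ) ^ (((-s.im : ℝ) : ℂ) * Complex.I) *
      (((n : ℝ) ^ (-s.re) : ℝ) : ℂ) := by
  have hn0 : (n : ℂ) ≠ 0 := by
    have : n ≠ 0 := by omega
    exact_mod_cast this
  rw [Complex.ofReal_cpow (by positivity)]
  push_cast
  rw [← Complex.cpow_add _ _ hn0]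
  congr 1
  apply Complex.ext <;> simp

lemma lu_split (F : ℕ → ℂ) (M0 J : ℕ) :
    ∑ n ∈ Icc 1 (2 ^ J * M0), F n = ∑ n ∈ Icc 1 M0, F n +
      ∑ j ∈ range J, ∑ n ∈ Ioc (2 ^ j * M0) (2 * (2 ^ j * M0)), F n := by
  have hI : ∀ N : ℕ, Icc 1 N = Ioc 0 N := by
    intro N
    ext n
    simp [Nat.lt_iff_add_one_le]
  simp only [hI]
  induction J with
  | zero => simp
  | succ J ih =>
    rw [Finset.sum_range_succ, ← add_assoc, ← ih]
    have e : 2 ^ (J + 1) * M0 = 2 * (2 ^ J * M0) := by ring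
    rw [e, Finset.sum_Ioc_consecutive F (Nat.zero_le _) (by omega)]

lemma lu_small (M0 : ℕ) (σ E : ℝ) (hE1 : 1 ≤ E) (hE : ∀ n : ℕ, 1 ≤ n → n ≤ M0 → (n : ℝ) ^ (1 - σ) ≤ E) :
    ∑ n ∈ Icc 1 M0, (n : ℝ) ^ (-σ) ≤ E * (1 + Real.log M0) := by
  have h1 : ∑ n ∈ Icc 1 M0, (n : ℝ) ^ (-σ) ≤ ∑ n ∈ Icc 1 M0, E * (n : ℝ)⁻¹ := by
    refine Finset.sum_le_sum fun n hn => ?_
    rw [mem_Icc] at hn
    have hn0 : (0 : ℝ) < n := by exact_mod_cast hn.1
    have : (n : ℝ) ^ (-σ) = (n : ℝ) ^ (1 - σ) * (n : ℝ)⁻¹ := by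
      rw [← Real.rpow_neg_one, ← Real.rpow_add hn0]
      congr 1
      ring
    rw [this]
    exact mul_le_mul_of_nonneg_right (hE n hn.1 hn.2) (by positivity)
  refine h1.trans ?_
  rw [← Finset.mul_sum]
  refine mul_le_mul_of_nonneg_left ?_ (by linarith)
  have h2 := harmonic_le_one_add_log M0
  rw [harmonic_eq_sum_Icc] at h2
  push_cast at h2
  exact h2


/-- one block -/
lemma lu_block (q : ℕ) (χ : DirichletCharacter ℂ q) (s : ℂ) (hσ : 0 ≤ s.re) (M : ℕ)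
    (hM : 1 ≤ M) (D : ℝ)
    (hD : ∀ N', M ≤ N' → N' ≤ 2 * M → ‖∑ n ∈ Ioc M N', χ (n : ZMod q) *
      ((n : ℝ) : ℂ) ^ (((-s.im : ℝ) : ℂ) * Complex.I)‖ ≤ D) :
    ‖∑ n ∈ Ioc M (2 * M), χ (n : ZMod q) * (n : ℂ) ^ (-s)‖ ≤ D * (M : ℝ) ^ (-s.re) := by
  have hM0 : (0 : ℝ) < M := by exact_mod_cast hM
  have hD0 : 0 ≤ D := (norm_nonneg _).trans (hD M le_rfl (by omega))
  have h1 : ∑ n ∈ Ioc M (2 * M), χ (n : ZMod q) * (n : ℂ) ^ (-s) =
      ∑ n ∈ Ioc M (2 * M), (χ (n : ZMod q) *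
        ((n : ℝ) : ℂ) ^ (((-s.im : ℝ) : ℂ) * Complex.I)) * (((n : ℝ) ^ (-s.re) : ℝ) : ℂ) := by
    refine Finset.sum_congr rfl fun n hn => ?_
    rw [mem_Ioc] at hn
    rw [lu_term s n (by omega), mul_assoc]
  rw [h1]
  refine (lu_abel _ (fun n => (n : ℝ) ^ (-s.re)) M (2 * M) D (by omega) hD ?_ ?_).trans ?_
  · intro n hn _
    have hn0 : (0 : ℝ) < n := by
      have : 0 < n := by omega
      exact_mod_cast this
    exact Real.rpow_le_rpow_of_nonpos hn0 (by push_cast; linarith) (by linarith)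
  · intro n _ _
    positivity
  · refine mul_le_mul_of_nonneg_left ?_ hD0
    exact Real.rpow_le_rpow_of_nonpos hM0 (by push_cast; linarith) (by linarith)

theorem l_upper (A : ℕ) : ∃ B : ℕ, ∀ᶠ T : ℝ in atTop, ∀ (q : ℕ) [NeZero q] (χ : DirichletCharacter ℂ q),
    (q : ℝ) ≤ Real.log T ^ A → ∀ s : ℂ, 1 - Real.log T ^ (-(9 / 10) : ℝ) ≤ s.re → s.re ≤ 3 →
    Real.log T ^ B ≤ |s.im| → |s.im| ≤ T → ‖χ.LFunction s‖ ≤ Real.log T ^ 2 := by
  obtain ⟨C1, hC1, hres⟩ := res_sum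
  obtain ⟨C2, hC2, hsm⟩ := smooth_sum
  obtain ⟨C3, hC3, happ⟩ := approx
  obtain ⟨D, hD⟩ : ∃ D : ℝ, D = C1 + 2 * C2 * Real.exp 2 := ⟨_, rfl⟩
  obtain ⟨K0, hK0⟩ : ∃ K0 : ℝ, K0 = 4 * Real.exp 2 + 2 * C3 + 9 * D := ⟨_, rfl⟩
  have hexp2 : (0 : ℝ) < Real.exp 2 := Real.exp_pos 2
  have hexp2' : (4 : ℝ) ≤ Real.exp 2 := by
    have h1 : (2 : ℝ) ≤ Real.exp 1 := by
      have := Real.add_one_le_exp (1 : ℝ)
      linarith
    have h2 : Real.exp 2 = Real.exp 1 * Real.exp 1 := by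
      rw [← Real.exp_add]; norm_num
    rw [h2]
    calc (4 : ℝ) = 2 * 2 := by norm_num
      _ ≤ Real.exp 1 * Real.exp 1 := mul_le_mul h1 h1 (by norm_num) (Real.exp_pos 1).le
  have hD0 : 0 ≤ D := by rw [hD]; positivity
  refine ⟨2 * A + 1, ?_⟩
  have key : ∀ᶠ l : ℝ in atTop, 14 ≤ l ∧ l ^ (-(9 / 10) : ℝ) ≤ 1 / 10 ∧
      2 ≤ l ^ (9 / 10 : ℝ) ∧ l ^ (2 * A) ≤ Real.exp (l ^ (9 / 10 : ℝ)) ∧
      64 * C1 ≤ l ^ (3 / 10 : ℝ) ∧ K0 ≤ l := by
    have e1 := (tendsto_rpow_neg_atTop (show (0 : ℝ) < 9 / 10 by norm_num)).eventually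
      (ge_mem_nhds (show (0 : ℝ) < 1 / 10 by norm_num))
    have e2 := (tendsto_rpow_atTop (show (0 : ℝ) < 9 / 10 by norm_num)).eventually_ge_atTop 2
    have e3 : ∀ᶠ l : ℝ in atTop, l ^ (2 * A) ≤ Real.exp (l ^ (9 / 10 : ℝ)) := by
      have h1 := (tendsto_rpow_atTop (show (0 : ℝ) < 9 / 10 by norm_num)).eventually
        ((Real.tendsto_exp_div_pow_atTop (4 * A)).eventually_ge_atTop 1)
      filter_upwards [h1, eventually_ge_atTop (1 : ℝ)] with l h1 hl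
      have hx1 : (1 : ℝ) ≤ l ^ (9 / 10 : ℝ) := Real.one_le_rpow hl (by norm_num)
      rw [le_div_iff₀ (by positivity), one_mul] at h1
      refine le_trans ?_ h1
      have h2 : l ^ (2 * A) ≤ (l ^ (9 / 10 : ℝ)) ^ (4 * A) := by
        rw [← Real.rpow_natCast, ← Real.rpow_natCast, ← Real.rpow_mul (by linarith only [hl])]
        refine Real.rpow_le_rpow_of_exponent_le hl ?_
        push_cast
        have : (0 : ℝ) ≤ A := Nat.cast_nonneg _
        linarith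
      exact h2
    have e4 := (tendsto_rpow_atTop (show (0 : ℝ) < 3 / 10 by norm_num)).eventually_ge_atTop
      (64 * C1)
    filter_upwards [eventually_ge_atTop (14 : ℝ), e1, e2, e3, e4, eventually_ge_atTop K0]
      with l h1 h2 h3 h4 h5 h6
    exact ⟨h1, h2, h3, h4, h5, h6⟩
  filter_upwards [Real.tendsto_log_atTop.eventually key, eventually_gt_atTop (0 : ℝ)]
    with T hT hT0 q _ χ hq s hs1 hs3 hv1 hv2
  obtain ⟨l, hl⟩ : ∃ l : ℝ, l = Real.log T := ⟨_, rfl⟩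
  rw [← hl] at hT hq hs1 hv1 ⊢
  obtain ⟨h14, hδ, h2l, hexpl, hC1l, hK0l⟩ := hT
  obtain ⟨δ, hδd⟩ : ∃ δ : ℝ, δ = l ^ (-(9 / 10) : ℝ) := ⟨_, rfl⟩
  obtain ⟨σ, hσ⟩ : ∃ σ : ℝ, σ = s.re := ⟨_, rfl⟩
  obtain ⟨V, hV⟩ : ∃ V : ℝ, V = |s.im| := ⟨_, rfl⟩
  rw [← hδd] at hδ hs1
  rw [← hσ] at hs1 hs3
  rw [← hV] at hv1 hv2
  have hl0 : 0 < l := by linarith only [hC3, hK0, hexp2', hD0, hK0l]
  have hδ0 : 0 < δ := by rw [hδd]; (clear * - h14; positivity)
  have hσ2 : 1 / 2 ≤ σ := by linarith only [hδ, hs1, hδ0]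
  have h1σ : 1 - σ ≤ δ := by linarith only [hs1]
  -- size of `V` and `q`
  have hlV : l ≤ V := by
    refine le_trans ?_ hv1
    calc l = l ^ 1 := (pow_one l).symm
      _ ≤ l ^ (2 * A + 1) := pow_le_pow_right₀ (by linarith only [hC3, hK0, hexp2', hD0, hK0l, hδ, hδ0]) (by omega)
  have hV14 : 14 ≤ V := by linarith only [hC3, hK0, hexp2', hD0, hK0l, hδ, hδ0, hlV]
  have hV0 : 0 < V := by linarith only [hC3, hK0, hexp2', hD0, hK0l, hδ, hδ0, hlV]
  have hq1 : (1 : ℝ) ≤ q := by exact_mod_cast NeZero.one_le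
  have hqsq : (q : ℝ) ^ 2 ≤ l ^ (2 * A) := by
    calc (q : ℝ) ^ 2 ≤ (l ^ A) ^ 2 := pow_le_pow_left₀ (by linarith only [hδ, hδ0, hq1]) hq 2
      _ = l ^ (2 * A) := by rw [← pow_mul, mul_comm]
  have hqV : (q : ℝ) ^ 2 ≤ V := hqsq.trans ((pow_le_pow_right₀ (by linarith only [hC3, hK0, hexp2', hD0, hK0l, hδ, hδ0])
    (by omega)).trans hv1)
  obtain ⟨R, hR⟩ : ∃ R : ℝ, R = V ^ (1 / 2 : ℝ) := ⟨_, rfl⟩
  have hR0 : 0 < R := by rw [hR]; (clear * - hV14; positivity)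
  have hRR : R * R = V := by
    rw [hR, ← Real.rpow_add hV0]
    norm_num
  have hR1 : 1 ≤ R := by
    rw [hR]
    exact Real.one_le_rpow (by linarith only [hC3, hK0, hexp2', hD0, hK0l, hδ, hδ0, hlV]) (by norm_num)
  have hqR : (q : ℝ) ≤ R := by
    refine (sq_le_sq₀ (by linarith only [hδ, hδ0, hq1]) hR0.le).1 ?_
    rw [sq R, hRR]
    exact hqV
  -- the starting point
  obtain ⟨M0, hM0⟩ : ∃ M0 : ℕ, M0 = ⌈Real.exp (l ^ (9 / 10 : ℝ))⌉₊ := ⟨_, rfl⟩
  have hM0a : Real.exp (l ^ (9 / 10 : ℝ)) ≤ M0 := by rw [hM0]; exact Nat.le_ceil _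
  have hE2 : Real.exp 2 ≤ Real.exp (l ^ (9 / 10 : ℝ)) := Real.exp_le_exp.2 h2l
  have hM0b : (M0 : ℝ) ≤ 2 * Real.exp (l ^ (9 / 10 : ℝ)) := by
    have := (Nat.ceil_lt_add_one (Real.exp_pos (l ^ (9 / 10 : ℝ))).le).le
    rw [← hM0] at this
    linarith only [hexp2', hδ, hδ0, hE2, this]
  have hM0c : 2 * (M0 : ℝ) ≤ Real.exp (2 * l ^ (9 / 10 : ℝ)) := by
    have h1 : Real.exp (2 * l ^ (9 / 10 : ℝ)) =
        Real.exp (l ^ (9 / 10 : ℝ)) * Real.exp (l ^ (9 / 10 : ℝ)) := by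
      rw [← Real.exp_add]; ring_nf
    rw [h1]
    calc 2 * (M0 : ℝ) ≤ 4 * Real.exp (l ^ (9 / 10 : ℝ)) := by linarith only [hM0b]
      _ ≤ Real.exp (l ^ (9 / 10 : ℝ)) * Real.exp (l ^ (9 / 10 : ℝ)) :=
        mul_le_mul_of_nonneg_right (hexp2'.trans hE2) (Real.exp_pos _).le
  have hM01 : 1 ≤ M0 := by
    have : (0 : ℝ) < M0 := lt_of_lt_of_le (Real.exp_pos _) hM0a
    exact_mod_cast this
  have hM0r : (1 : ℝ) ≤ M0 := by exact_mod_cast hM01
  have hM0δ : (2 * (M0 : ℝ)) ^ δ ≤ Real.exp 2 := by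
    calc (2 * (M0 : ℝ)) ^ δ ≤ (Real.exp (2 * l ^ (9 / 10 : ℝ))) ^ δ :=
          Real.rpow_le_rpow (by (clear * - hM01; positivity)) hM0c hδ0.le
      _ = Real.exp 2 := by
          rw [← Real.exp_mul]
          congr 1
          rw [hδd, mul_assoc, ← Real.rpow_add hl0]
          norm_num
  have hlogM0 : l ^ (9 / 10 : ℝ) ≤ Real.log M0 := by
    rw [Real.le_log_iff_exp_le (by linarith only [hexp2', hδ, hδ0, hM0a, hE2])]
    exact hM0a
  have hl910 : l ^ (9 / 10 : ℝ) ≤ l := by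
    calc l ^ (9 / 10 : ℝ) ≤ l ^ (1 : ℝ) :=
          Real.rpow_le_rpow_of_exponent_le (by linarith only [hC3, hK0, hexp2', hD0, hK0l, hδ, hδ0]) (by norm_num)
      _ = l := Real.rpow_one l
  have hlogM0' : Real.log M0 ≤ 2 * l := by
    rw [Real.log_le_iff_le_exp (by linarith only [hexp2', hδ, hδ0, hM0a, hE2])]
    refine le_trans ?_ ((hM0c).trans (Real.exp_le_exp.2 (by linarith only [hl910])))
    linarith
  -- the number of blocks
  obtain ⟨J, hJ⟩ : ∃ J : ℕ, J = ⌈5 * Real.logb 2 V⌉₊ := ⟨_, rfl⟩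
  have hlogb0 : 0 ≤ 5 * Real.logb 2 V := by
    have := Real.logb_nonneg (b := 2) (by norm_num) (show 1 ≤ V by linarith only [hC3, hK0, hexp2', hD0, hK0l, hδ, hδ0, hlV])
    linarith only [this]
  have hJa : 5 * Real.logb 2 V ≤ J := by rw [hJ]; exact Nat.le_ceil _
  have hJb : (J : ℝ) ≤ 5 * Real.logb 2 V + 1 := by
    rw [hJ]; exact (Nat.ceil_lt_add_one hlogb0).le
  have hV5 : (2 : ℝ) ^ (5 * Real.logb 2 V) = V ^ 5 := by
    rw [mul_comm, Real.rpow_mul (by norm_num), Real.rpow_logb (by norm_num) (by norm_num) hV0]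
    norm_num
  have hPa : V ^ 5 ≤ ((2 ^ J : ℕ) : ℝ) := by
    rw [← hV5]
    push_cast
    rw [← Real.rpow_natCast]
    exact Real.rpow_le_rpow_of_exponent_le (by norm_num) hJa
  have hPb : ((2 ^ J : ℕ) : ℝ) ≤ 2 * V ^ 5 := by
    push_cast
    rw [← Real.rpow_natCast]
    calc (2 : ℝ) ^ (J : ℝ) ≤ 2 ^ (5 * Real.logb 2 V + 1) :=
          Real.rpow_le_rpow_of_exponent_le (by norm_num) hJb
      _ = 2 * V ^ 5 := by
          rw [Real.rpow_add (by norm_num), hV5, Real.rpow_one, mul_comm]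
  have hJl : (J : ℝ) ≤ 9 * l := by
    have h1 : Real.logb 2 V ≤ l * (1 / 0.69) := by
      rw [Real.logb]
      have h2 : Real.log V ≤ l := by
        rw [hl]
        exact Real.log_le_log hV0 hv2
      have h3 : (0.69 : ℝ) ≤ Real.log 2 := by
        have := Real.log_two_gt_d9
        linarith only [hδ, hδ0, this]
      rw [div_le_iff₀ (by linarith only [hδ, hδ0, h3])]
      have : l * (1 / 0.69) * 0.69 ≤ l * (1 / 0.69) * Real.log 2 :=
        mul_le_mul_of_nonneg_left h3 (by (clear * - h14; positivity))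
      linarith only [h2, this]
    have h4 : l * (1 / 0.69) ≤ l * 1.5 := by
      refine mul_le_mul_of_nonneg_left (by norm_num) hl0.le
    linarith only [hC3, hK0, hexp2', hD0, hK0l, hδ, hδ0, hJb, h1]
  obtain ⟨N1, hN1⟩ : ∃ N1 : ℕ, N1 = 2 ^ J * M0 := ⟨_, rfl⟩
  have hN1r : (N1 : ℝ) = ((2 ^ J : ℕ) : ℝ) * M0 := by rw [hN1]; push_cast; ring
  have hV5' : 0 < V ^ 5 := by (clear * - hV14; positivity)
  have hN1a : V ^ 5 ≤ N1 := by
    rw [hN1r]
    exact hPa.trans (le_mul_of_one_le_right (Nat.cast_nonneg _) hM0r)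
  have hN1b : (N1 : ℝ) ≤ (2 * (M0 : ℝ)) * V ^ 5 := by
    rw [hN1r]
    calc ((2 ^ J : ℕ) : ℝ) * M0 ≤ (2 * V ^ 5) * M0 :=
          mul_le_mul_of_nonneg_right hPb (by linarith)
      _ = (2 * (M0 : ℝ)) * V ^ 5 := by ring
  have hV1' : 1 ≤ V := by linarith only [hC3, hK0, hexp2', hD0, hK0l, hδ, hδ0, hlV]
  have hN11 : (1 : ℝ) ≤ N1 := le_trans (one_le_pow₀ hV1') hN1a
  have hN1n : 1 ≤ N1 := by exact_mod_cast hN11
  -- powers
  have hpow : ∀ x : ℝ, 1 ≤ x → x ≤ N1 → x ^ (1 - σ) ≤ Real.exp 2 * R := by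
    intro x hx1 hx2
    calc x ^ (1 - σ) ≤ x ^ δ := Real.rpow_le_rpow_of_exponent_le hx1 h1σ
      _ ≤ ((2 * (M0 : ℝ)) * V ^ 5) ^ δ :=
          Real.rpow_le_rpow (by linarith only [hδ, hδ0, hx1]) (hx2.trans hN1b) hδ0.le
      _ = (2 * (M0 : ℝ)) ^ δ * (V ^ 5) ^ δ := Real.mul_rpow (by (clear * - hM01; positivity)) (by (clear * - hV14; positivity))
      _ ≤ Real.exp 2 * R := by
          refine mul_le_mul hM0δ ?_ (by (clear * - hV14; positivity)) hexp2.le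
          rw [hR, ← Real.rpow_natCast, ← Real.rpow_mul hV0.le]
          refine Real.rpow_le_rpow_of_exponent_le hV1' ?_
          push_cast
          linarith only [hδ]
  have hpow0 : ∀ x : ℝ, 1 ≤ x → x ≤ M0 → x ^ (1 - σ) ≤ Real.exp 2 := by
    intro x hx1 hx2
    calc x ^ (1 - σ) ≤ x ^ δ := Real.rpow_le_rpow_of_exponent_le hx1 h1σ
      _ ≤ (2 * (M0 : ℝ)) ^ δ := Real.rpow_le_rpow (by linarith only [hδ, hδ0, hx1]) (by linarith only [hexp2', hδ, hδ0, hM0a, hE2, hx2]) hδ0.le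
      _ ≤ Real.exp 2 := hM0δ
  -- the blocks
  have hblock : ∀ M : ℕ, M0 ≤ M → M ≤ N1 →
      ‖∑ n ∈ Ioc M (2 * M), χ (n : ZMod q) * (n : ℂ) ^ (-s)‖ ≤ D := by
    intro M hM1 hM2
    have hMr1 : (M0 : ℝ) ≤ M := by exact_mod_cast hM1
    have hMr2 : (M : ℝ) ≤ N1 := by exact_mod_cast hM2
    have hM11 : (1 : ℝ) ≤ M := by linarith only [hexp2', hδ, hδ0, hM0a, hE2, hMr1]
    have hM0' : (0 : ℝ) < M := by linarith only [hexp2', hδ, hδ0, hM0a, hE2, hMr1]
    have habs : |(-s.im : ℝ)| = V := by rw [abs_neg, hV]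
    rcases le_or_gt (M : ℝ) (V ^ 2) with hMV | hMV
    · -- Vinogradov
      obtain ⟨K, hK⟩ : ∃ K : ℕ, K = ⌈l / Real.log M⌉₊ := ⟨_, rfl⟩
      have hlogM : l ^ (9 / 10 : ℝ) ≤ Real.log M :=
        hlogM0.trans (Real.log_le_log (by linarith only [hexp2', hδ, hδ0, hM0a, hE2]) hMr1)
      have hlogM0'' : 0 < Real.log M := by linarith only [h2l, hδ, hδ0, hlogM]
      have hK1 : 1 ≤ K := by
        rw [hK, Nat.one_le_ceil_iff]
        (clear * - h14 hlogM0''; positivity)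
      have hKr : (1 : ℝ) ≤ K := by exact_mod_cast hK1
      have hKa : l / Real.log M ≤ K := by rw [hK]; exact Nat.le_ceil _
      have hKb : (K : ℝ) ≤ 2 * l ^ (1 / 10 : ℝ) := by
        have h1 : (K : ℝ) ≤ l / Real.log M + 1 := by
          rw [hK]; exact (Nat.ceil_lt_add_one (by (clear * - h14 hlogM0''; positivity))).le
        have h2 : l / Real.log M ≤ l ^ (1 / 10 : ℝ) := by
          rw [div_le_iff₀ hlogM0'']
          have h3 : l = l ^ (1 / 10 : ℝ) * l ^ (9 / 10 : ℝ) := by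
            rw [← Real.rpow_add hl0]
            norm_num
          calc l = l ^ (1 / 10 : ℝ) * l ^ (9 / 10 : ℝ) := h3
            _ ≤ l ^ (1 / 10 : ℝ) * Real.log M :=
              mul_le_mul_of_nonneg_left hlogM (by (clear * - h14; positivity))
        have h4 : (1 : ℝ) ≤ l ^ (1 / 10 : ℝ) := Real.one_le_rpow (by linarith only [hC3, hK0, hexp2', hD0, hK0l, hδ, hδ0]) (by norm_num)
        linarith only [h1, h2, h4]
      have hVK : V ≤ (M : ℝ) ^ K := by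
        have h1 : Real.log V ≤ K * Real.log M := by
          have h2 : Real.log V ≤ l := by
            rw [hl]
            exact Real.log_le_log hV0 hv2
          rw [div_le_iff₀ hlogM0''] at hKa
          linarith only [hKa, h2]
        rw [← Real.log_pow] at h1
        exact (Real.log_le_log_iff hV0 (by (clear * - hM11; positivity))).1 h1
      have hMV2 : (M : ℝ) ^ (1 / 2 : ℝ) ≤ V := by
        calc (M : ℝ) ^ (1 / 2 : ℝ) ≤ (V ^ 2) ^ (1 / 2 : ℝ) :=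
              Real.rpow_le_rpow hM0'.le hMV (by norm_num)
          _ = V := by
              rw [← Real.rpow_natCast, ← Real.rpow_mul hV0.le]
              norm_num
      have hqM : q ^ 2 ≤ M := by
        have : (q : ℝ) ^ 2 ≤ M := hqsq.trans (hexpl.trans (hM0a.trans hMr1))
        exact_mod_cast this
      have h1 := lu_block q χ s (by rw [← hσ]; linarith only [hδ, hs1, hδ0]) M (by exact_mod_cast hM11)
        (C1 * (M : ℝ) ^ (1 - 1 / (C1 * (K : ℝ) ^ 6))) (fun N' _ hN' =>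
          hres q K M M N' (fun a => χ a) (-s.im) (by exact_mod_cast hq1) hK1 hqM le_rfl hN'
            (fun a => DirichletCharacter.norm_le_one χ a) (by rw [habs]; exact hMV2)
            (by rw [habs]; exact hVK))
      refine h1.trans ?_
      rw [← hσ, mul_assoc, ← Real.rpow_add hM0']
      have hK6 : (K : ℝ) ^ 6 ≤ 64 * l ^ (6 / 10 : ℝ) := by
        calc (K : ℝ) ^ 6 ≤ (2 * l ^ (1 / 10 : ℝ)) ^ 6 := pow_le_pow_left₀ (by linarith only [hδ, hδ0, hKr]) hKb 6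
          _ = 64 * l ^ (6 / 10 : ℝ) := by
            rw [mul_pow, ← Real.rpow_natCast (l ^ (1 / 10 : ℝ)), ← Real.rpow_mul hl0.le]
            norm_num
      have hδK : δ ≤ 1 / (C1 * (K : ℝ) ^ 6) := by
        rw [le_div_iff₀ (by (clear * - hC1 hK1; positivity))]
        have h3 : δ * (C1 * (K : ℝ) ^ 6) ≤ δ * (C1 * (64 * l ^ (6 / 10 : ℝ))) :=
          mul_le_mul_of_nonneg_left (mul_le_mul_of_nonneg_left hK6 (by linarith only [hC1, hδ, hδ0])) hδ0.le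
        refine h3.trans ?_
        have h4 : δ * (C1 * (64 * l ^ (6 / 10 : ℝ))) = (64 * C1) * l ^ (-(3 / 10) : ℝ) := by
          have : l ^ (-(3 / 10) : ℝ) = δ * l ^ (6 / 10 : ℝ) := by
            rw [hδd, ← Real.rpow_add hl0]
            norm_num
          rw [this]
          ring
        rw [h4]
        calc (64 * C1) * l ^ (-(3 / 10) : ℝ) ≤ l ^ (3 / 10 : ℝ) * l ^ (-(3 / 10) : ℝ) :=
              mul_le_mul_of_nonneg_right hC1l (by (clear * - h14; positivity))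
          _ = 1 := by
              rw [← Real.rpow_add hl0]
              norm_num
      have h5 : (M : ℝ) ^ (1 - 1 / (C1 * (K : ℝ) ^ 6) + -σ) ≤ 1 :=
        Real.rpow_le_one_of_one_le_of_nonpos hM11 (by linarith only [hs1, hδK])
      have h6 : C1 * (M : ℝ) ^ (1 - 1 / (C1 * (K : ℝ) ^ 6) + -σ) ≤ C1 * 1 :=
        mul_le_mul_of_nonneg_left h5 (by linarith only [hC1, hδ, hδ0])
      rw [hD]
      have : 0 ≤ 2 * C2 * Real.exp 2 := by (clear * - hC2; positivity)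
      linarith only [h6, this]
    · -- elementary bound
      have h1 := lu_block q χ s (by rw [← hσ]; linarith only [hδ, hs1, hδ0]) M (by exact_mod_cast hM11)
        (C2 * ((M : ℝ) / V + q * V)) (fun N' _ hN' => by
          have := hsm q M N' (fun a => χ a) (-s.im) (by exact_mod_cast hq1)
            (by exact_mod_cast hM11) hN'
            (fun a => DirichletCharacter.norm_le_one χ a) (by rw [habs]; linarith only [hC3, hK0, hexp2', hD0, hK0l, hδ, hδ0, hlV])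
          rw [habs] at this
          exact this)
      refine h1.trans ?_
      rw [← hσ]
      have h2 : (M : ℝ) ^ (-σ) ≤ Real.exp 2 * R / M := by
        rw [le_div_iff₀ hM0']
        have h3 : (M : ℝ) ^ (-σ) * M = (M : ℝ) ^ (1 - σ) := by
          rw [sub_eq_add_neg, add_comm, Real.rpow_add hM0', Real.rpow_one]
        rw [h3]
        exact hpow _ hM11 hMr2
      have h3 : (M : ℝ) / V + q * V ≤ (1 + q) * M / V := by
        rw [div_add' _ _ _ hV0.ne', div_le_div_iff_of_pos_right hV0]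
        have h3' : (q : ℝ) * V ^ 2 ≤ q * M := mul_le_mul_of_nonneg_left hMV.le (by linarith only [hδ, hδ0, hq1])
        have h3'' : (q : ℝ) * V * V = q * V ^ 2 := by ring
        rw [h3'', add_mul, one_mul]
        linarith only [h3']
      have h4 : (1 + q : ℝ) ≤ 2 * R := by linarith only [hR1, hqR]
      have h5 : C2 * ((M : ℝ) / V + q * V) * (M : ℝ) ^ (-σ) ≤
          C2 * ((2 * R) * M / V) * (Real.exp 2 * R / M) := by
        refine mul_le_mul ?_ h2 (by (clear * - hM11; positivity)) (by (clear * - hC2 hV14 hR0 hM11; positivity))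
        refine mul_le_mul_of_nonneg_left (h3.trans ?_) (by linarith only [hC2, hδ, hδ0])
        rw [div_le_div_iff_of_pos_right hV0]
        exact mul_le_mul_of_nonneg_right h4 hM0'.le
      refine h5.trans (le_of_eq_of_le (b := 2 * C2 * Real.exp 2) ?_ ?_)
      · rw [← hRR]
        field_simp
      · rw [hD]; linarith only [hC1, hδ, hδ0]
  -- the partial sum
  have hsum : ‖∑ n ∈ Icc 1 N1, χ (n : ZMod q) * (n : ℂ) ^ (-s)‖ ≤
      Real.exp 2 * (1 + 2 * l) + 9 * l * D := by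
    rw [hN1, lu_split]
    refine (norm_add_le _ _).trans (add_le_add ?_ ?_)
    · have h1 : ‖∑ n ∈ Icc 1 M0, χ (n : ZMod q) * (n : ℂ) ^ (-s)‖ ≤
          ∑ n ∈ Icc 1 M0, (n : ℝ) ^ (-σ) := by
        refine norm_sum_le_of_le _ fun n hn => ?_
        rw [mem_Icc] at hn
        have hn0 : (0 : ℝ) < n := by exact_mod_cast hn.1
        rw [norm_mul, Complex.norm_natCast_cpow_of_pos hn.1, Complex.neg_re, ← hσ]
        exact mul_le_of_le_one_left (by (clear * - hn0; positivity)) (DirichletCharacter.norm_le_one χ _)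
      refine h1.trans ((lu_small M0 σ (Real.exp 2) (by linarith only [hexp2', hδ, hδ0]) ?_).trans ?_)
      · intro n hn1 hn2
        exact hpow0 _ (by exact_mod_cast hn1) (by exact_mod_cast hn2)
      · refine mul_le_mul_of_nonneg_left ?_ hexp2.le
        linarith only [hlogM0']
    · refine (norm_sum_le_of_le (n := fun _ => D) _ fun j hj => ?_).trans ?_
      · rw [mem_range] at hj
        refine hblock _ ?_ ?_
        · exact Nat.le_mul_of_pos_left _ (by (clear * -; positivity))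
        · rw [hN1]
          exact Nat.mul_le_mul_right _ (Nat.pow_le_pow_right (by norm_num) hj.le)
      · rw [Finset.sum_const, card_range, nsmul_eq_mul]
        exact mul_le_mul_of_nonneg_right hJl hD0
  -- the approximation
  have hs1' : s ≠ 1 := by
    intro h
    rw [h] at hV
    simp at hV
    linarith only [hC3, hK0, hexp2', hD0, hK0l, hδ, hδ0, hlV, hV]
  have hV2N : V ^ 2 ≤ (N1 : ℝ) ^ σ := by
    calc V ^ 2 = (V ^ 4) ^ (1 / 2 : ℝ) := by
          rw [← Real.rpow_natCast, ← Real.rpow_natCast, ← Real.rpow_mul hV0.le]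
          norm_num
      _ ≤ (N1 : ℝ) ^ (1 / 2 : ℝ) := by
          refine Real.rpow_le_rpow (by (clear * - hV14; positivity)) (le_trans ?_ hN1a) (by norm_num)
          exact pow_le_pow_right₀ hV1' (by norm_num)
      _ ≤ (N1 : ℝ) ^ σ := Real.rpow_le_rpow_of_exponent_le hN11 hσ2
  have happ' := happ q (fun a => χ a) N1 s (fun a => DirichletCharacter.norm_le_one χ a) hN1n
    (by rw [← hσ]; exact hσ2) hs1'
  have hthird : C3 * q * ‖s‖ * (N1 : ℝ) ^ (-s.re) ≤ 2 * C3 := by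
    rw [← hσ]
    have h1 : ‖s‖ ≤ 2 * V := by
      have := Complex.norm_le_abs_re_add_abs_im s
      rw [← hσ, ← hV, abs_of_nonneg (by linarith only [hδ, hs1, hδ0])] at this
      linarith only [hC3, hK0, hexp2', hD0, hK0l, hδ, hs3, hδ0, hlV, this]
    have h2 : (N1 : ℝ) ^ (-σ) ≤ (V ^ 2)⁻¹ := by
      rw [Real.rpow_neg (by linarith only [hδ, hδ0, hN11])]
      exact inv_anti₀ (by (clear * - hV14; positivity)) hV2N
    have h3 : (q : ℝ) ≤ V := (le_self_pow₀ hq1 (by norm_num)).trans hqV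
    calc C3 * q * ‖s‖ * (N1 : ℝ) ^ (-σ) ≤ C3 * V * (2 * V) * (V ^ 2)⁻¹ := by
          refine mul_le_mul (mul_le_mul (mul_le_mul_of_nonneg_left h3 (by linarith only [hC3, hδ, hδ0])) h1
            (norm_nonneg _) (by (clear * - hC3 hV14; positivity))) h2 (by (clear * - hN1n; positivity)) (by (clear * - hC3 hV14; positivity))
      _ = 2 * C3 := by field_simp
  have hmain : ‖(∑ a : ZMod q, χ a) / q * ((N1 : ℂ) ^ (1 - s) / (s - 1))‖ ≤ Real.exp 2 := by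
    have h1 : ‖(∑ a : ZMod q, χ a) / (q : ℂ)‖ ≤ 1 := by
      rw [norm_div, Complex.norm_natCast, div_le_one (by linarith only [hδ, hδ0, hq1])]
      refine (norm_sum_le_of_le (n := fun _ => (1 : ℝ)) _
        fun a _ => DirichletCharacter.norm_le_one χ a).trans ?_
      rw [Finset.sum_const, nsmul_eq_mul, mul_one, Finset.card_univ, ZMod.card]
    have h2 : ‖(N1 : ℂ) ^ (1 - s) / (s - 1)‖ ≤ Real.exp 2 * R / V := by
      rw [norm_div, Complex.norm_natCast_cpow_of_pos (by omega)]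
      have h3 : V ≤ ‖s - 1‖ := by
        have := Complex.abs_im_le_norm (s - 1)
        simpa [← hV] using this
      have h4 : (1 - s).re = 1 - σ := by simp [hσ]
      rw [h4]
      exact div_le_div₀ (by (clear * - hR0; positivity)) (hpow _ hN11 le_rfl) hV0 h3
    rw [norm_mul]
    have h5 : Real.exp 2 * R / V ≤ Real.exp 2 := by
      rw [div_le_iff₀ hV0]
      refine mul_le_mul_of_nonneg_left ?_ hexp2.le
      rw [← hRR]
      exact le_mul_of_one_le_left hR0.le hR1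
    calc _ ≤ 1 * (Real.exp 2 * R / V) := mul_le_mul h1 h2 (norm_nonneg _) (by norm_num)
      _ ≤ Real.exp 2 := by rw [one_mul]; exact h5
  have hL : χ.LFunction s = ZMod.LFunction (fun a => χ a) s := rfl
  rw [hL]
  have h1 : ‖ZMod.LFunction (fun a => χ a) s‖ ≤ 2 * C3 + (Real.exp 2 * (1 + 2 * l) + 9 * l * D) +
      Real.exp 2 := by
    have e : ZMod.LFunction (fun a => χ a) s =
        (ZMod.LFunction (fun a => χ a) s - ∑ n ∈ Icc 1 N1, χ (n : ZMod q) * (n : ℂ) ^ (-s) -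
          (∑ a, χ a) / q * ((N1 : ℂ) ^ (1 - s) / (s - 1))) +
        (∑ n ∈ Icc 1 N1, χ (n : ZMod q) * (n : ℂ) ^ (-s)) +
        (∑ a, χ a) / q * ((N1 : ℂ) ^ (1 - s) / (s - 1)) := by ring
    rw [e]
    refine (norm_add_le _ _).trans (add_le_add ((norm_add_le _ _).trans
      (add_le_add (happ'.trans hthird) hsum)) hmain)
  refine h1.trans ?_
  have h2 : 2 * C3 + (Real.exp 2 * (1 + 2 * l) + 9 * l * D) + Real.exp 2 ≤ K0 * l := by
    rw [hK0]
    have h3 : (1 : ℝ) ≤ l := by linarith only [hC3, hK0, hexp2', hD0, hK0l, hδ, hδ0]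
    have h4 := mul_le_mul_of_nonneg_left h3 hexp2.le
    have h5 := mul_le_mul_of_nonneg_left h3 (show (0 : ℝ) ≤ C3 by linarith only [hC3, hδ, hδ0])
    have h6 : (4 * Real.exp 2 + 2 * C3 + 9 * D) * l - (2 * C3 + (Real.exp 2 * (1 + 2 * l) +
        9 * l * D) + Real.exp 2) = 2 * (Real.exp 2 * l - Real.exp 2 * 1) +
        2 * (C3 * l - C3 * 1) := by ring
    linarith only [h4, h5]
  refine h2.trans ?_
  rw [pow_two]
  exact mul_le_mul_of_nonneg_right hK0l hl0.le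

end Pool.Agent.VK
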