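import Pool.Agent.Lib.VK.DefsC
import Pool.Agent.Lib.HLT.NuAP
import Pool.Agent.Lib.HL.PntAux
import Pool.Agent.Lib.HLT.FinalPoly
import Pool.Agent.Lib.HLU.Base

/-!
# The sieve model in short intervals

PROOF SKETCH. `nu_win`: copy the proof of `HLT.nu_ap` (file `HLT/NuAP.lean`) with the interval `(u, u + h]`: its elements `≡ b mod q` are
`n0 + q m`, `0 ≤ m < M`, `M = h/q + O(1)`, `n0` the least one. `nuz z n ≠ 0` iff for all primes `p ≤ z`, `p ∤ q`: `p ∤ n0 + q m`: so `brun_det` with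
`y = M`, `r = 1` (the set `apF n0 q p` of `NuAP`, shifted by one since `m` starts from `0`; or start from `n0 - q`), the `k` of `brun_param 1 A (B + 3)`: the error is
`≤ 2 M/L^(B+3) + √x`, main term `M ∏_(p ≤ z, p ∤ q) (1 - 1/p) = M (q/φ(q)) DZ z` (see `NuAP.prod_apF`), times `(DZ z)⁻¹ ≤ L` (`DZ_inv_le`): main term
`h/φ(q) + O(q L...)`: precisely `M q/φ(q) = h/φ(q) + O(q/φ(q))`, `≤ q ≤ zA A x`. All errors are `≤ h/L^B` since `h ≥ x^(1/2+ε)`.
-/

set_option autoImplicit false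

open Finset Filter Pool.Agent.HLT

namespace Pool.Agent.VK

namespace NuWinAux

open Pool.Agent.HLB

lemma sum_win_split {z q b u h : ℕ} (hq1 : 1 ≤ q) :
    |∑ n ∈ (Ioc u (u + h)).filter (fun n => n % q = b % q), nuz z n -
      ∑ m ∈ Icc 1 ((u + h - b % q) / q - (u - b % q) / q),
        nuz z (b % q + q * ((u - b % q) / q) + q * m)| ≤ (DZ z)⁻¹ := by
  classical
  set b0 := b % q with hb0
  have hb0q : b0 < q := Nat.mod_lt _ hq1
  set M1 := (u - b0) / q with hM1
  set M2 := (u + h - b0) / q with hM2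
  rw [← Finset.sum_filter_add_sum_filter_not ((Ioc u (u + h)).filter (fun n => n % q = b0))
    (fun n => b0 < n)]
  have h1 : (((Ioc u (u + h)).filter (fun n => n % q = b0)).filter (fun n => b0 < n)) =
      (Icc 1 (M2 - M1)).image (fun m => b0 + q * M1 + q * m) := by
    ext n
    rw [Finset.mem_filter, Finset.mem_filter, Finset.mem_Ioc, Finset.mem_image]
    constructor
    · rintro ⟨⟨⟨h1, h2⟩, h3⟩, h4⟩
      have h5 := Nat.div_add_mod n q
      rw [h3] at h5
      have h6 : M1 < n / q := by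
        rw [hM1, Nat.div_lt_iff_lt_mul hq1, Nat.mul_comm]
        omega
      have h7 : n / q ≤ M2 := by
        rw [hM2, Nat.le_div_iff_mul_le hq1, Nat.mul_comm]
        omega
      refine ⟨n / q - M1, ?_, ?_⟩
      · rw [Finset.mem_Icc]
        omega
      · have h8 : q * M1 + q * (n / q - M1) = q * (n / q) := by
          rw [← Nat.mul_add]
          congr 1
          omega
        omega
    · rintro ⟨m, hm, rfl⟩
      rw [Finset.mem_Icc] at hm
      have h5 : b0 + q * M1 + q * m = b0 + q * (M1 + m) := by ring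
      rw [h5]
      have h6 : u - b0 < (M1 + m) * q := by
        have h7 : M1 < M1 + m := by omega
        rw [hM1] at h7 ⊢
        exact (Nat.div_lt_iff_lt_mul hq1).1 h7
      have h7 : (M1 + m) * q ≤ u + h - b0 := by
        have h8 : M1 + m ≤ M2 := by omega
        exact (Nat.le_div_iff_mul_le hq1).1 h8
      rw [Nat.mul_comm] at h6 h7
      have h8 : 1 ≤ q * (M1 + m) := Nat.mul_pos hq1 (Nat.add_pos_right M1 hm.1)
      refine ⟨⟨⟨by omega, by omega⟩, ?_⟩, by omega⟩
      rw [Nat.add_mul_mod_self_left, Nat.mod_eq_of_lt hb0q]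
  rw [h1, Finset.sum_image (by
    intro m1 _ m2 _ h
    simp only at h
    have h2 : q * m1 = q * m2 := by omega
    exact Nat.eq_of_mul_eq_mul_left hq1 h2)]
  have h2 : (((Ioc u (u + h)).filter (fun n => n % q = b0)).filter (fun n => ¬ b0 < n)) ⊆ {b0} := by
    intro n hn
    rw [Finset.mem_filter, Finset.mem_filter, Finset.mem_Ioc] at hn
    obtain ⟨⟨_, h3⟩, h4⟩ := hn
    rw [Finset.mem_singleton]
    rw [Nat.mod_eq_of_lt (by omega)] at h3
    exact h3
  have h3 : (0 : ℝ) ≤ ∑ n ∈ ((Ioc u (u + h)).filter (fun n => n % q = b0)).filter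
      (fun n => ¬ b0 < n), nuz z n := Finset.sum_nonneg fun n _ => nuz_nonneg z n
  have h4 : ∑ n ∈ ((Ioc u (u + h)).filter (fun n => n % q = b0)).filter (fun n => ¬ b0 < n),
      nuz z n ≤ (DZ z)⁻¹ := by
    refine (Finset.sum_le_sum_of_subset_of_nonneg h2 fun n _ _ => nuz_nonneg z n).trans ?_
    rw [Finset.sum_singleton]
    exact nuz_le z b0
  rw [add_sub_cancel_left, abs_of_nonneg h3]
  exact h4

end NuWinAux

open NuWinAux Pool.Agent.HLB in
theorem nu_win (A B : ℕ) (ε : ℝ) (hε : 0 < ε) : ∀ᶠ x : ℕ in atTop, ∀ u h : ℕ, (x : ℝ) ^ (1 / 2 + ε) ≤ h → h ≤ 4 * x →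
    ∀ q b : ℕ, 1 ≤ q → q ≤ zA A x → b.Coprime q →
    |∑ n ∈ (Ioc u (u + h)).filter (fun n => n % q = b % q), nuz (zA A x) n - h / (q.totient : ℝ)| ≤
      h / Real.log x ^ B := by
  have hlogT : Tendsto (fun x : ℕ => Real.log x) atTop atTop :=
    Real.tendsto_log_atTop.comp tendsto_natCast_atTop_atTop
  have hlogbig : ∀ᶠ x : ℕ in atTop, 16 ≤ Real.log x := hlogT.eventually_ge_atTop 16
  -- `√x` is much smaller than `h`
  have hsmall : ∀ᶠ x : ℕ in atTop, 8 * Real.log x ^ (B + 1) * Real.sqrt x ≤ (x : ℝ) ^ (1 / 2 + ε) := by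
    have h1 : (fun x : ℝ => Real.log x ^ ((B + 1 : ℕ) : ℝ)) =o[atTop] (fun x : ℝ => x ^ ε) :=
      isLittleO_log_rpow_rpow_atTop _ hε
    have h2 := (h1.bound (show (0 : ℝ) < 1 / 8 by norm_num))
    have h3 := tendsto_natCast_atTop_atTop.eventually h2
    filter_upwards [h3, hlogbig, eventually_ge_atTop 1] with x hx hl hx1
    have hx0 : (0 : ℝ) < x := by exact_mod_cast hx1
    rw [Real.rpow_natCast, Real.norm_eq_abs, Real.norm_eq_abs, abs_of_nonneg (by positivity),
      abs_of_nonneg (by positivity)] at hx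
    rw [Real.rpow_add hx0, ← Real.sqrt_eq_rpow]
    have h4 : 0 ≤ Real.sqrt (x : ℝ) := Real.sqrt_nonneg _
    nlinarith only [hx, h4]
  filter_upwards [brun_param 1 A (B + 2), DZ_inv_le A, hlogbig, hsmall, eventually_ge_atTop 1]
    with x hbr hD hl hsm hx1 u h hxh hhx q b hq1 hq hb
  obtain ⟨k, hk, hk1, hk2⟩ := hbr
  set L := Real.log x with hLdef
  set z := zA A x with hz
  have hL0 : 0 < L := by linarith only [hl]
  have hx0 : (0 : ℝ) < x := by exact_mod_cast hx1
  have hx1' : (1 : ℝ) ≤ x := by exact_mod_cast hx1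
  have hs1 : 1 ≤ Real.sqrt x := by
    rw [Real.one_le_sqrt]
    exact hx1'
  have hh0 : (0 : ℝ) ≤ h := Nat.cast_nonneg h
  set b0 := b % q with hb0
  set M1 := (u - b0) / q with hM1
  set M2 := (u + h - b0) / q with hM2
  set Y := M2 - M1 with hY
  set b1 := b0 + q * M1 with hb1
  have hb0q : b0 < q := Nat.mod_lt _ hq1
  have hcop : b1.Coprime q := by
    have h1 : b0.Coprime q := by
      have h := (Nat.mod_modEq b q).gcd_eq
      rw [Nat.Coprime, hb0, h]
      exact hb
    rw [hb1]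
    exact (Nat.coprime_add_mul_left_left b0 q M1).2 h1
  have hinv : 0 ≤ (DZ z)⁻¹ := inv_nonneg.mpr (DZ_pos z).le
  have hDpos := DZ_pos z
  have hM12 : M1 ≤ M2 := Nat.div_le_div_right (by omega)
  have h1 := sum_win_split (z := z) (b := b) (u := u) (h := h) hq1
  rw [← hb0, ← hM1, ← hM2, ← hY, ← hb1, sum_ap_eq hcop Y] at h1
  have h2 := brun_det 1 z k Y hk (apF b1 q) (fun p hp => by
    refine ⟨apF_subset _ _ _, ?_⟩
    rw [card_apF (Nat.mem_primesLE.1 hp).2]
    split_ifs <;> omega)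
  rw [prod_apF b1 hq1 hq] at h2
  set N : ℝ := (((Icc 1 Y).filter (fun m => ∀ p ∈ Nat.primesLE z, m % p ∉ apF b1 q p)).card : ℝ)
    with hN
  have hq0 : (0 : ℝ) < q := by exact_mod_cast hq1
  have hq1' : (1 : ℝ) ≤ q := by exact_mod_cast hq1
  have hφ0 : (0 : ℝ) < q.totient := by exact_mod_cast Nat.totient_pos.mpr hq1
  -- `q / φ q ≤ (DZ z)⁻¹`
  have h5 : (q : ℝ) / q.totient ≤ (DZ z)⁻¹ := by
    have h6 := prod_apF (z := z) b1 hq1 hq
    have h7 : ∏ p ∈ Nat.primesLE z, (1 - ((apF b1 q p).card : ℝ) / p) ≤ 1 := by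
      refine Finset.prod_le_one (fun p hp => ?_) (fun p hp => ?_)
      · have hp2 := (Nat.mem_primesLE.1 hp).2
        rw [card_apF hp2]
        have hp1 : (1 : ℝ) ≤ p := by exact_mod_cast hp2.one_le
        split_ifs
        · simp
        · push_cast
          have : 1 / (p : ℝ) ≤ 1 := by rw [div_le_one (by linarith only [hp1])]; exact hp1
          linarith only [this]
      · have : (0 : ℝ) ≤ ((apF b1 q p).card : ℝ) / p := by (clear * -; positivity)
        linarith only [this]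
    rw [h6] at h7
    rw [← one_div, le_div_iff₀ hDpos]
    linarith only [h7]
  -- the main term
  have h6 : |(Y : ℝ) * q - h| ≤ 2 * q := by
    have h7 := Nat.div_add_mod (u - b0) q
    have h8 : (u - b0) % q < q := Nat.mod_lt _ hq1
    have h9 := Nat.div_add_mod (u + h - b0) q
    have h10 : (u + h - b0) % q < q := Nat.mod_lt _ hq1
    rw [← hM1] at h7
    rw [← hM2] at h9
    have h11 : Y * q = q * M2 - q * M1 := by
      rw [hY, Nat.sub_mul, Nat.mul_comm, Nat.mul_comm M1]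
    have h12 : q * M1 ≤ q * M2 := Nat.mul_le_mul_left _ hM12
    have h13 : Y * q ≤ h + 2 * q := by omega
    have h14 : h ≤ Y * q + 2 * q := by omega
    have h13' : (Y : ℝ) * q ≤ h + 2 * q := by exact_mod_cast h13
    have h14' : (h : ℝ) ≤ Y * q + 2 * q := by exact_mod_cast h14
    rw [abs_le]
    constructor <;> linarith only [h14', h13']
  have hYh : (Y : ℝ) ≤ h + 2 := by
    have h7 := (abs_le.mp h6).2
    have h8 : (Y : ℝ) * q ≤ (h + 2) * q := by nlinarith only [hq1', h7]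
    exact le_of_mul_le_mul_right h8 hq0
  have hsqh : Real.sqrt x ≤ h := by
    refine le_trans ?_ hxh
    rw [Real.sqrt_eq_rpow]
    exact Real.rpow_le_rpow_of_exponent_le hx1' (by linarith only [hε])
  have hYh3 : (Y : ℝ) ≤ 3 * h := by linarith only [hs1, hYh, hsqh]
  have hk1' : ((1 : ℕ) * ∑ p ∈ Nat.primesLE z, 1 / (p : ℝ)) ^ (k + 1) / ((k + 1).factorial : ℝ) ≤
      1 / L ^ (B + 2) := hk1
  have h2' : |N - Y * (DZ z * (q / (q.totient : ℝ)))| ≤ 6 * h * (1 / L ^ (B + 2)) + Real.sqrt x := by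
    refine h2.trans (add_le_add ?_ hk2)
    have h7 : 2 * (Y : ℝ) ≤ 6 * h := by linarith only [hs1, hYh, hsqh]
    have h8 : 0 ≤ ((1 : ℕ) * ∑ p ∈ Nat.primesLE z, 1 / (p : ℝ)) ^ (k + 1) /
        ((k + 1).factorial : ℝ) := by (clear * -; positivity)
    exact mul_le_mul h7 hk1' h8 (by (clear * -; positivity))
  have h7 : |(DZ z)⁻¹ * N - Y * (q / (q.totient : ℝ))| ≤
      L * (6 * h * (1 / L ^ (B + 2)) + Real.sqrt x) := by
    have h8 : (DZ z)⁻¹ * N - Y * (q / (q.totient : ℝ)) =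
        (DZ z)⁻¹ * (N - Y * (DZ z * (q / (q.totient : ℝ)))) := by
      field_simp
    rw [h8, abs_mul, abs_of_nonneg hinv]
    exact mul_le_mul hD h2' (abs_nonneg _) (hinv.trans hD)
  have h8 : |(Y : ℝ) * (q / (q.totient : ℝ)) - h / (q.totient : ℝ)| ≤ 2 * L := by
    have h9 : (Y : ℝ) * (q / (q.totient : ℝ)) - h / (q.totient : ℝ) =
        (Y * q - h) / (q.totient : ℝ) := by ring
    rw [h9, abs_div, abs_of_pos hφ0]
    calc |(Y : ℝ) * q - h| / (q.totient : ℝ) ≤ 2 * q / (q.totient : ℝ) := by gcongr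
      _ = 2 * (q / (q.totient : ℝ)) := by ring
      _ ≤ 2 * L := by linarith only [hD, h5, h5.trans hD]
  have h9 : L * (6 * h * (1 / L ^ (B + 2)) + Real.sqrt x) = h / L ^ B * (6 / L) + L * Real.sqrt x := by
    rw [pow_succ L (B + 1), pow_succ L B]
    field_simp
  have hLB : 0 < L ^ B := by (clear * - hl; positivity)
  have h10 : (h : ℝ) / L ^ B * (6 / L) ≤ h / L ^ B * (6 / 16) := by
    apply mul_le_mul_of_nonneg_left _ (by (clear * - hl; positivity))
    rw [div_le_div_iff₀ hL0 (by norm_num)]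
    linarith only [hl]
  have h11 : L * Real.sqrt x ≤ h / L ^ B * (1 / 8) := by
    have h12 : 8 * L ^ (B + 1) * Real.sqrt x ≤ h := hsm.trans hxh
    rw [pow_succ] at h12
    rw [div_mul_eq_mul_div, le_div_iff₀ hLB]
    linarith only [h12]
  calc |∑ n ∈ (Ioc u (u + h)).filter (fun n => n % q = b % q), nuz z n - h / (q.totient : ℝ)|
      ≤ |∑ n ∈ (Ioc u (u + h)).filter (fun n => n % q = b % q), nuz z n - (DZ z)⁻¹ * N| +
        |(DZ z)⁻¹ * N - Y * (q / (q.totient : ℝ))| +
        |(Y : ℝ) * (q / (q.totient : ℝ)) - h / (q.totient : ℝ)| := by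
        refine (abs_sub_le _ ((DZ z)⁻¹ * N) _).trans ?_
        have := abs_sub_le ((DZ z)⁻¹ * N) (Y * (q / (q.totient : ℝ))) (h / (q.totient : ℝ))
        linarith only [this]
    _ ≤ L + (h / L ^ B * (6 / 16) + L * Real.sqrt x) + 2 * L := by
        rw [h9] at h7
        have h12 := h1.trans hD
        linarith only [hD, h1, h7, h8, h10]
    _ ≤ h / L ^ B := by
        have h12 : L ≤ L * Real.sqrt x := le_mul_of_one_le_right hL0.le hs1
        have h13 : 0 ≤ (h : ℝ) / L ^ B := by (clear * - hl; positivity)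
        linarith only [hl, h11, h12]

end Pool.Agent.VK
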