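import Pool.Agent.Lib.VK.VarChi
import Pool.Agent.Lib.VK.NuWin

/-!
# Major arcs in short intervals

PROOF SKETCH. `L = log x`, `z = zA A x`, `q ≤ L^A1 ≤ L^A` so `q ≤ z`. Split in residue classes `b` modulo `q`:
`sum_(u < n ≤ u+h) ff z n e(a n/q) = sum_b e(ab/q) D_b(u)`, `D_b(u) = sum_(n ≡ b) (lp n - nuz z n)`, so `|.|^2 ≤ q sum_b |D_b(u)|^2`.
* `(b, q) > 1`: `nuz z n = 0` (`HLT.nu_zero`), and `lp n ≠ 0` only for primes `n` dividing `q`: `|D_b(u)| ≤ q L`.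
* `(b, q) = 1`: `sum_(n ≡ b) Λ(n) = (1/φ(q)) sum_χ conj χ(b) sum χ(n) Λ(n)` (orthogonality of characters, see how `BV` or `SW/Main.lean` does it), and
  `sum χ(n) Λ(n) = sum cc χ n + δ(χ) h`. So it is `h/φ(q)` up to `max_χ |sum_(u < n ≤ u+h) cc χ n|`; the sum over `u` of the squares (at most
  `(1/φ(q)) sum_χ |..|^2` by Cauchy-Schwarz) is `≤ x h^2/L^A'` by `var_all A' ε` for `A' = 2 A1 + B + 10`. `nu_win` gives `h/φ(q)` up to `h/L^A'` for `nuz`.
  The prime powers: `Λ` and `lp` differ on proper prime powers, with total `sum_(n ≤ 3x) (Λ n - lp n) ≤ C √x L` (Mathlib: Chebyshev psi - theta; see `SW.psiAP_sub_thetaAP` or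
  `HLT.MinorPrime.powers`), so for one window the difference is `≤ C √x L ≤ h/L^A'`.
-/

set_option autoImplicit false

open Finset Filter Pool.Agent.HLT

namespace Pool.Agent.VK

open Pool.Agent.Lib.SW

/-- The sum of `ff` over the class `b` in a window. -/
noncomputable def mjD (z q b u h : ℕ) : ℝ := ∑ n ∈ (Ioc u (u + h)).filter (fun n => n % q = b % q), ff z n

lemma mj_orth (q b u h : ℕ) [NeZero q] (hb : b.Coprime q) :
    (q.totient : ℂ) * ((∑ n ∈ (Ioc u (u + h)).filter (fun n => n % q = b % q), ArithmeticFunction.vonMangoldt n : ℝ) : ℂ) =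
      ∑ χ : DirichletCharacter ℂ q, χ ((b : ZMod q)⁻¹) * ∑ n ∈ Ioc u (u + h), lam (chf χ) n := by
  have hu : IsUnit (b : ZMod q) := (ZMod.isUnit_iff_coprime b q).2 hb
  rw [Finset.sum_filter]
  push_cast
  rw [Finset.mul_sum]
  simp_rw [Finset.mul_sum]
  rw [Finset.sum_comm]
  refine Finset.sum_congr rfl fun n _ => ?_
  have h := DirichletCharacter.sum_char_inv_mul_char_eq ℂ hu (n : ZMod q)
  have h2 : ∑ χ : DirichletCharacter ℂ q, χ ((b : ZMod q)⁻¹) * lam (chf χ) n =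
      (∑ χ : DirichletCharacter ℂ q, χ ((b : ZMod q)⁻¹) * χ (n : ZMod q)) *
        ((ArithmeticFunction.vonMangoldt n : ℝ) : ℂ) := by
    rw [Finset.sum_mul]
    refine Finset.sum_congr rfl fun χ _ => ?_
    simp only [lam, chf]
    ring
  rw [h2, h]
  have h3 : ((b : ZMod q) = (n : ZMod q)) ↔ n % q = b % q := by
    rw [ZMod.natCast_eq_natCast_iff]
    exact ⟨fun h => h.symm, fun h => h.symm⟩
  by_cases hn : n % q = b % q
  · rw [if_pos hn, if_pos (h3.2 hn)]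
  · rw [if_neg hn, if_neg (fun h => hn (h3.1 h))]
    simp

lemma mj_cop (q b u h : ℕ) [NeZero q] (hb : b.Coprime q) :
    (∑ n ∈ (Ioc u (u + h)).filter (fun n => n % q = b % q), ArithmeticFunction.vonMangoldt n - h / (q.totient : ℝ)) ^ 2 ≤
      (1 / (q.totient : ℝ)) * ∑ χ : DirichletCharacter ℂ q, ‖∑ n ∈ Ioc u (u + h), cc χ n‖ ^ 2 := by
  classical
  have hφ : 0 < (q.totient : ℝ) := by exact_mod_cast Nat.totient_pos.mpr (Nat.pos_of_ne_zero (NeZero.ne q))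
  have hφc : (q.totient : ℂ) ≠ 0 := by exact_mod_cast hφ.ne'
  have hu : IsUnit (b : ZMod q) := (ZMod.isUnit_iff_coprime b q).2 hb
  have hui : IsUnit ((b : ZMod q)⁻¹) := by
    obtain ⟨w, hw⟩ := hu
    rw [← hw, ZMod.inv_coe_unit]
    exact Units.isUnit _
  set Ψ : ℝ := ∑ n ∈ (Ioc u (u + h)).filter (fun n => n % q = b % q), ArithmeticFunction.vonMangoldt n with hΨ
  have h1 := mj_orth q b u h hb
  rw [← hΨ] at h1
  have h2 : ∀ χ : DirichletCharacter ℂ q, ∑ n ∈ Ioc u (u + h), lam (chf χ) n =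
      (∑ n ∈ Ioc u (u + h), cc χ n) + (if χ = 1 then (h : ℂ) else 0) := by
    intro χ
    unfold cc
    rw [Finset.sum_sub_distrib]
    by_cases hχ : χ = 1
    · simp [hχ]
    · simp [hχ]
  have h3 : (q.totient : ℂ) * ((Ψ - h / (q.totient : ℝ) : ℝ) : ℂ) =
      ∑ χ : DirichletCharacter ℂ q, χ ((b : ZMod q)⁻¹) * ∑ n ∈ Ioc u (u + h), cc χ n := by
    have h4 : ∑ χ : DirichletCharacter ℂ q, χ ((b : ZMod q)⁻¹) * ∑ n ∈ Ioc u (u + h), lam (chf χ) n =
        ∑ χ : DirichletCharacter ℂ q, χ ((b : ZMod q)⁻¹) * ∑ n ∈ Ioc u (u + h), cc χ n +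
          ∑ χ : DirichletCharacter ℂ q, (if χ = 1 then (h : ℂ) else 0) := by
      rw [← Finset.sum_add_distrib]
      refine Finset.sum_congr rfl fun χ _ => ?_
      rw [h2 χ, mul_add]
      by_cases hχ : χ = 1
      · rw [if_pos hχ, hχ, MulChar.one_apply hui, one_mul, one_mul]
      · rw [if_neg hχ, mul_zero]
    rw [Finset.sum_ite_eq' Finset.univ (1 : DirichletCharacter ℂ q), if_pos (Finset.mem_univ _)] at h4
    rw [h4] at h1
    push_cast
    rw [mul_sub, h1]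
    field_simp
    ring
  have h5 : (q.totient : ℝ) * |Ψ - h / (q.totient : ℝ)| ≤
      ∑ χ : DirichletCharacter ℂ q, ‖∑ n ∈ Ioc u (u + h), cc χ n‖ := by
    have h6 : ‖(q.totient : ℂ) * ((Ψ - h / (q.totient : ℝ) : ℝ) : ℂ)‖ = (q.totient : ℝ) * |Ψ - h / (q.totient : ℝ)| := by
      rw [norm_mul, Complex.norm_natCast, Complex.norm_real, Real.norm_eq_abs]
    rw [← h6, h3]
    refine (norm_sum_le _ _).trans (Finset.sum_le_sum fun χ _ => ?_)
    rw [norm_mul]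
    have := DirichletCharacter.norm_le_one χ ((b : ZMod q)⁻¹)
    have h7 := norm_nonneg (∑ n ∈ Ioc u (u + h), cc χ n)
    nlinarith only [this, h7]
  have hcard : (Fintype.card (DirichletCharacter ℂ q) : ℝ) = q.totient := by
    have := DirichletCharacter.card_eq_totient_of_hasEnoughRootsOfUnity ℂ q
    rw [Nat.card_eq_fintype_card] at this
    exact_mod_cast this
  have h8 : (∑ χ : DirichletCharacter ℂ q, ‖∑ n ∈ Ioc u (u + h), cc χ n‖) ^ 2 ≤
      q.totient * ∑ χ : DirichletCharacter ℂ q, ‖∑ n ∈ Ioc u (u + h), cc χ n‖ ^ 2 := by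
    have := sq_sum_le_card_mul_sum_sq (s := (Finset.univ : Finset (DirichletCharacter ℂ q)))
      (f := fun χ => ‖∑ n ∈ Ioc u (u + h), cc χ n‖)
    rwa [Finset.card_univ, hcard] at this
  have h9 : ((q.totient : ℝ) * |Ψ - h / (q.totient : ℝ)|) ^ 2 ≤
      q.totient * ∑ χ : DirichletCharacter ℂ q, ‖∑ n ∈ Ioc u (u + h), cc χ n‖ ^ 2 := by
    refine le_trans ?_ h8
    have h0 : 0 ≤ (q.totient : ℝ) * |Ψ - h / (q.totient : ℝ)| := by positivity
    exact pow_le_pow_left₀ h0 h5 2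
  rw [mul_pow, sq_abs] at h9
  rw [one_div, inv_mul_eq_div, le_div_iff₀ hφ]
  have h10 : (q.totient : ℝ) * ((Ψ - h / (q.totient : ℝ)) ^ 2 * q.totient) ≤
      q.totient * ∑ χ : DirichletCharacter ℂ q, ‖∑ n ∈ Ioc u (u + h), cc χ n‖ ^ 2 := by
    calc (q.totient : ℝ) * ((Ψ - h / (q.totient : ℝ)) ^ 2 * q.totient)
        = (q.totient : ℝ) ^ 2 * (Ψ - h / (q.totient : ℝ)) ^ 2 := by ring
      _ ≤ _ := h9
  exact le_of_mul_le_mul_left h10 hφ

lemma mj_lp_le (n : ℕ) : lp n ≤ ArithmeticFunction.vonMangoldt n := by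
  unfold HLT.lp
  split_ifs with hp
  · rw [ArithmeticFunction.vonMangoldt_apply_prime hp]
  · exact ArithmeticFunction.vonMangoldt_nonneg

/-- Prime powers in a window. -/
lemma mj_pow {C : ℝ} (hC : ∀ x, Chebyshev.psi x - Chebyshev.theta x ≤ C * √x) (x q b u h : ℕ) (hu : u + h ≤ 3 * x) :
    ∑ n ∈ (Ioc u (u + h)).filter (fun n => n % q = b % q), (ArithmeticFunction.vonMangoldt n - lp n) ≤
      C * √(3 * x) := by
  refine le_trans ?_ (hC (3 * x))
  rw [Chebyshev.psi_sub_theta_eq_sum_not_prime]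
  have hfl : ⌊(3 * x : ℝ)⌋₊ = 3 * x := by
    have : (3 * x : ℝ) = ((3 * x : ℕ) : ℝ) := by push_cast; rfl
    rw [this, Nat.floor_natCast]
  rw [hfl]
  have h1 : ∑ n ∈ (Ioc u (u + h)).filter (fun n => n % q = b % q), (ArithmeticFunction.vonMangoldt n - lp n) =
      ∑ n ∈ ((Ioc u (u + h)).filter (fun n => n % q = b % q)).filter (fun n => ¬ n.Prime),
        ArithmeticFunction.vonMangoldt n := by
    rw [Finset.sum_filter (fun n : ℕ => ¬ n.Prime)]
    refine Finset.sum_congr rfl fun n _ => ?_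
    unfold HLT.lp
    by_cases hp : n.Prime
    · rw [if_pos hp, if_neg (not_not.mpr hp), ArithmeticFunction.vonMangoldt_apply_prime hp, sub_self]
    · rw [if_neg hp, if_pos hp, sub_zero]
  rw [h1]
  refine Finset.sum_le_sum_of_subset_of_nonneg ?_ fun _ _ _ => ArithmeticFunction.vonMangoldt_nonneg
  intro n hn
  rw [Finset.mem_filter, Finset.mem_filter, Finset.mem_Ioc] at hn
  rw [Finset.mem_filter, Finset.mem_Ioc]
  exact ⟨⟨by omega, by omega⟩, hn.2⟩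

lemma mj_noncop {z q b u h : ℕ} (hq1 : 1 ≤ q) (hqz : q ≤ z) (hb : ¬ b.Coprime q) :
    |mjD z q b u h| ≤ (q : ℝ) ^ 2 := by
  have h1 : mjD z q b u h = ∑ n ∈ (Ioc u (u + h)).filter (fun n => n % q = b % q), lp n := by
    unfold mjD
    refine Finset.sum_congr rfl fun n hn => ?_
    rw [Finset.mem_filter] at hn
    unfold ff
    rw [nu_zero hq1 hqz hb hn.2, sub_zero]
  rw [h1, abs_of_nonneg (Finset.sum_nonneg fun n _ => lp_nonneg n)]
  have h2 : ∑ n ∈ (Ioc u (u + h)).filter (fun n => n % q = b % q), lp n ≤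
      ∑ n ∈ Icc 1 q, (q : ℝ) := by
    rw [← Finset.sum_filter_add_sum_filter_not ((Ioc u (u + h)).filter (fun n => n % q = b % q)) (fun n => n ∈ Icc 1 q)]
    have h3 : ∑ n ∈ ((Ioc u (u + h)).filter (fun n => n % q = b % q)).filter (fun n => ¬ n ∈ Icc 1 q), lp n = 0 := by
      refine Finset.sum_eq_zero fun n hn => ?_
      rw [Finset.mem_filter, Finset.mem_filter, Finset.mem_Ioc] at hn
      unfold HLT.lp
      rw [if_neg]
      intro hp
      obtain ⟨p, hpp, hpb, hpq⟩ := Nat.Prime.not_coprime_iff_dvd.mp hb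
      have hpn : p ∣ n := by
        have h1 : n ≡ b [MOD p] := Nat.ModEq.of_dvd hpq hn.1.2
        exact (h1.dvd_iff (dvd_refl p)).mpr hpb
      have hpn2 : p = n := (Nat.prime_dvd_prime_iff_eq hpp hp).mp hpn
      apply hn.2
      rw [Finset.mem_Icc]
      exact ⟨hp.one_lt.le, hpn2 ▸ Nat.le_of_dvd hq1 hpq⟩
    rw [h3, add_zero]
    calc ∑ n ∈ ((Ioc u (u + h)).filter (fun n => n % q = b % q)).filter (fun n => n ∈ Icc 1 q), lp n
        ≤ ∑ n ∈ ((Ioc u (u + h)).filter (fun n => n % q = b % q)).filter (fun n => n ∈ Icc 1 q), (q : ℝ) := by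
          refine Finset.sum_le_sum fun n hn => ?_
          rw [Finset.mem_filter, Finset.mem_Icc] at hn
          refine (lp_le n).trans ?_
          refine (Real.log_le_self (Nat.cast_nonneg n)).trans ?_
          exact_mod_cast hn.2.2
      _ ≤ ∑ n ∈ Icc 1 q, (q : ℝ) := by
          refine Finset.sum_le_sum_of_subset_of_nonneg ?_ fun _ _ _ => Nat.cast_nonneg q
          intro n hn
          rw [Finset.mem_filter] at hn
          exact hn.2
  refine h2.trans ?_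
  rw [Finset.sum_const, Nat.card_Icc, nsmul_eq_mul]
  simp only [Nat.add_sub_cancel]
  exact le_of_eq (by ring)

lemma mj_split (z q : ℕ) (a : ℤ) (u h : ℕ) (hq1 : 1 ≤ q) :
    ‖∑ n ∈ Ioc u (u + h), (ff z n : ℂ) * ex (n * (a / q))‖ ^ 2 ≤ q * ∑ b ∈ range q, mjD z q b u h ^ 2 := by
  have hq0 : (q : ℝ) ≠ 0 := by exact_mod_cast (by omega : q ≠ 0)
  have h1 : ∑ n ∈ Ioc u (u + h), (ff z n : ℂ) * ex (n * (a / q)) =
      ∑ b ∈ range q, (mjD z q b u h : ℂ) * ex (b * (a / q)) := by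
    rw [← Finset.sum_fiberwise_of_maps_to (s := Ioc u (u + h)) (t := range q) (g := fun n => n % q)
      (fun n _ => Finset.mem_range.mpr (Nat.mod_lt n (by omega)))]
    refine Finset.sum_congr rfl fun b hb => ?_
    rw [Finset.mem_range] at hb
    unfold mjD
    rw [Nat.mod_eq_of_lt hb]
    push_cast
    rw [Finset.sum_mul]
    refine Finset.sum_congr rfl fun n hn => ?_
    rw [Finset.mem_filter] at hn
    congr 1
    obtain ⟨k, hk⟩ : ∃ k : ℕ, n = q * k + b := ⟨n / q, by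
      have h3 := Nat.div_add_mod n q
      rw [hn.2] at h3
      exact h3.symm⟩
    have h2 : (n : ℝ) * (a / q) = b * (a / q) + (((k : ℤ) * a : ℤ) : ℝ) := by
      rw [hk]
      push_cast
      field_simp
      ring
    rw [h2, ex_add_int]
  rw [h1]
  have h2 : ‖∑ b ∈ range q, (mjD z q b u h : ℂ) * ex (b * (a / q))‖ ≤ ∑ b ∈ range q, |mjD z q b u h| := by
    refine (norm_sum_le _ _).trans (Finset.sum_le_sum fun b _ => ?_)
    rw [norm_mul, norm_ex, mul_one, Complex.norm_real, Real.norm_eq_abs]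
  refine (pow_le_pow_left₀ (norm_nonneg _) h2 2).trans ?_
  refine (sq_sum_le_card_mul_sum_sq (s := range q) (f := fun b => |mjD z q b u h|)).trans ?_
  rw [Finset.card_range]
  simp only [sq_abs, le_refl]

lemma mj_cls {C : ℝ} (hC : ∀ x, Chebyshev.psi x - Chebyshev.theta x ≤ C * √x) {x q b u h z : ℕ} [NeZero q] {V : ℝ}
    (hq1 : 1 ≤ q) (hqz : q ≤ z) (hu : u + h ≤ 3 * x)
    (hnu : b.Coprime q → |∑ n ∈ (Ioc u (u + h)).filter (fun n => n % q = b % q), nuz z n - h / (q.totient : ℝ)| ≤ V) :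
    mjD z q b u h ^ 2 ≤ 3 * ((1 / (q.totient : ℝ)) * ∑ χ : DirichletCharacter ℂ q, ‖∑ n ∈ Ioc u (u + h), cc χ n‖ ^ 2) +
      (3 * V ^ 2 + 3 * (C ^ 2 * (3 * x)) + (q : ℝ) ^ 4) := by
  have hE0 : 0 ≤ (1 / (q.totient : ℝ)) * ∑ χ : DirichletCharacter ℂ q, ‖∑ n ∈ Ioc u (u + h), cc χ n‖ ^ 2 := by positivity
  have hx0 : (0 : ℝ) ≤ 3 * x := by positivity
  by_cases hb : b.Coprime q
  · have h1 := mj_cop q b u h hb
    have h2 := hnu hb
    have h3 := mj_pow hC x q b u h hu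
    have h30 : 0 ≤ ∑ n ∈ (Ioc u (u + h)).filter (fun n => n % q = b % q), (ArithmeticFunction.vonMangoldt n - HLT.lp n) :=
      Finset.sum_nonneg fun n _ => sub_nonneg.mpr (mj_lp_le n)
    set X := ∑ n ∈ (Ioc u (u + h)).filter (fun n => n % q = b % q), ArithmeticFunction.vonMangoldt n - h / (q.totient : ℝ) with hX
    set Y := ∑ n ∈ (Ioc u (u + h)).filter (fun n => n % q = b % q), nuz z n - h / (q.totient : ℝ) with hY
    set Z := ∑ n ∈ (Ioc u (u + h)).filter (fun n => n % q = b % q), (ArithmeticFunction.vonMangoldt n - HLT.lp n) with hZ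
    have hD : mjD z q b u h = X - Y - Z := by
      unfold mjD ff
      rw [hX, hY, hZ, Finset.sum_sub_distrib, Finset.sum_sub_distrib]
      ring
    have hY2 : Y ^ 2 ≤ V ^ 2 := by
      rw [← sq_abs Y]
      exact pow_le_pow_left₀ (abs_nonneg _) h2 2
    have hZ2 : Z ^ 2 ≤ C ^ 2 * (3 * x) := by
      have := pow_le_pow_left₀ h30 h3 2
      rwa [mul_pow, Real.sq_sqrt hx0] at this
    have hq4 : (0 : ℝ) ≤ (q : ℝ) ^ 4 := by positivity
    rw [hD]
    nlinarith only [h1, hY2, hZ2, hq4, sq_nonneg (X + Y), sq_nonneg (X + Z), sq_nonneg (Y - Z)]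
  · have h1 := mj_noncop (u := u) (h := h) hq1 hqz hb
    have h2 : mjD z q b u h ^ 2 ≤ (q : ℝ) ^ 4 := by
      rw [← sq_abs]
      have := pow_le_pow_left₀ (abs_nonneg _) h1 2
      calc |mjD z q b u h| ^ 2 ≤ ((q : ℝ) ^ 2) ^ 2 := this
        _ = (q : ℝ) ^ 4 := by ring
    have h3 : 0 ≤ 3 * V ^ 2 + 3 * (C ^ 2 * (3 * x)) := by positivity
    linarith only [hE0, h2, h3]

theorem major_win (A1 B : ℕ) (ε : ℝ) (hε : 0 < ε) : ∃ c : ℕ, ∀ A : ℕ, A1 ≤ A → ∀ᶠ x : ℕ in atTop, ∀ (q : ℕ) (a : ℤ),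
    1 ≤ q → (q : ℝ) ≤ Real.log x ^ A1 → ∀ h : ℕ, (x : ℝ) ^ (1 / 2 + ε) ≤ h → (h : ℝ) ≤ x / Real.log x ^ c →
    ∑ u ∈ range (2 * x + 1), ‖∑ n ∈ Ioc u (u + h), (ff (zA A x) n : ℂ) * ex (n * (a / q))‖ ^ 2 ≤
      x * (h : ℝ) ^ 2 / Real.log x ^ B := by
  obtain ⟨c, hvar⟩ := var_all (2 * A1 + B + 10) ε hε
  obtain ⟨C, hC⟩ := Chebyshev.psi_sub_theta_le_mul_sqrt
  refine ⟨c, fun A hA => ?_⟩
  have hnu := nu_win A (A1 + B + 10) ε hε
  have hlog : ∀ᶠ x : ℕ in atTop, 2 ≤ Real.log x := HLU.ev_log 2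
  have hp1 : ∀ᶠ x : ℕ in atTop, (108 * C ^ 2 + 1) * Real.log x ^ (2 * A1 + B) ≤ (x : ℝ) ^ (2 * ε) := by
    have h1 : (fun x : ℝ => Real.log x ^ (2 * A1 + B)) =o[atTop] (fun x : ℝ => x ^ (2 * ε)) := by
      have h := isLittleO_log_rpow_rpow_atTop ((2 * A1 + B : ℕ) : ℝ) (show (0:ℝ) < 2 * ε by linarith)
      simp only [Real.rpow_natCast] at h
      exact h
    have hc0 : 0 < 108 * C ^ 2 + 1 := by positivity
    have h2 := (h1.comp_tendsto tendsto_natCast_atTop_atTop).bound (show (0:ℝ) < (108 * C ^ 2 + 1)⁻¹ by positivity)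
    filter_upwards [h2, hlog] with x hx hL
    simp only [Function.comp_def] at hx
    rw [Real.norm_of_nonneg (by positivity), Real.norm_of_nonneg (by positivity)] at hx
    rwa [inv_mul_eq_div, le_div_iff₀ hc0, mul_comm] at hx
  have hp2 : ∀ᶠ x : ℕ in atTop, 12 * Real.log x ^ (6 * A1 + B) ≤ x := by
    filter_upwards [HLU.ev_pow (6 * A1 + B) 4, hlog] with x hx hL
    have h0 : 0 < Real.log x ^ 4 := by positivity
    rw [le_div_iff₀ h0] at hx
    have h4 : (12 : ℝ) ≤ Real.log x ^ 4 := by nlinarith only [hL, sq_nonneg (Real.log x ^ 2 - 4), pow_le_pow_left₀ (by norm_num : (0:ℝ) ≤ 2) hL 4]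
    calc 12 * Real.log x ^ (6 * A1 + B) ≤ Real.log x ^ 4 * Real.log x ^ (6 * A1 + B) :=
          mul_le_mul_of_nonneg_right h4 (by positivity)
      _ = Real.log x ^ (6 * A1 + B) * Real.log x ^ 4 := mul_comm _ _
      _ ≤ x := hx
  filter_upwards [hvar, hnu, hlog, hp1, hp2, eventually_ge_atTop 1] with x hv hn hL hx1 hx2 hx0
  intro q a hq1 hq h hh1 hh2
  have : NeZero q := ⟨by omega⟩
  set L := Real.log x with hLdef
  have hL0 : 0 < L := by linarith only [hL]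
  have hL1 : 1 ≤ L := by linarith only [hL]
  have hx0' : (1 : ℝ) ≤ x := by exact_mod_cast hx0
  have hxpos : (0 : ℝ) < x := by linarith only [hx0']
  have hqz : q ≤ zA A x := by
    unfold zA
    apply Nat.le_floor
    exact hq.trans (pow_le_pow_right₀ hL1 hA)
  have hhx : (h : ℝ) ≤ x := by
    refine hh2.trans ?_
    rw [div_le_iff₀ (by (clear * - hL; positivity))]
    have : 1 ≤ L ^ c := one_le_pow₀ hL1
    nlinarith only [this]
  have hhx' : h ≤ x := by exact_mod_cast hhx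
  have hφ : 0 < (q.totient : ℝ) := by exact_mod_cast Nat.totient_pos.mpr hq1
  have hqA' : (q : ℝ) ≤ L ^ (2 * A1 + B + 10) := hq.trans (pow_le_pow_right₀ hL1 (by omega))
  set V : ℝ := h / L ^ (A1 + B + 10) with hV
  set E : ℕ → ℝ := fun u => (1 / (q.totient : ℝ)) * ∑ χ : DirichletCharacter ℂ q, ‖∑ n ∈ Ioc u (u + h), cc χ n‖ ^ 2 with hE
  set R : ℝ := 3 * V ^ 2 + 3 * (C ^ 2 * (3 * x)) + (q : ℝ) ^ 4 with hR
  have hR0 : 0 ≤ R := by (clear * - hx0 hq1; positivity)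
  have hq0 : (0 : ℝ) ≤ q := Nat.cast_nonneg q
  -- one window
  have hone : ∀ u ∈ range (2 * x + 1), ‖∑ n ∈ Ioc u (u + h), (ff (zA A x) n : ℂ) * ex (n * (a / q))‖ ^ 2 ≤
      (q : ℝ) ^ 2 * (3 * E u + R) := by
    intro u hu
    rw [Finset.mem_range] at hu
    refine (mj_split (zA A x) q a u h hq1).trans ?_
    have h1 : ∑ b ∈ range q, mjD (zA A x) q b u h ^ 2 ≤ ∑ b ∈ range q, (3 * E u + R) := by
      refine Finset.sum_le_sum fun b _ => ?_
      exact mj_cls hC hq1 hqz (by omega) (fun hb => hn u h hh1 (by omega) q b hq1 hqz hb)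
    rw [Finset.sum_const, Finset.card_range, nsmul_eq_mul] at h1
    calc (q : ℝ) * ∑ b ∈ range q, mjD (zA A x) q b u h ^ 2 ≤ q * (q * (3 * E u + R)) :=
          mul_le_mul_of_nonneg_left h1 hq0
      _ = (q : ℝ) ^ 2 * (3 * E u + R) := by ring
  -- sum of E
  have hcard : (Fintype.card (DirichletCharacter ℂ q) : ℝ) = q.totient := by
    have := DirichletCharacter.card_eq_totient_of_hasEnoughRootsOfUnity ℂ q
    rw [Nat.card_eq_fintype_card] at this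
    exact_mod_cast this
  have hEs : ∑ u ∈ range (2 * x + 1), E u ≤ x * (h : ℝ) ^ 2 / L ^ (2 * A1 + B + 10) := by
    simp only [hE]
    rw [← Finset.mul_sum, Finset.sum_comm]
    have h1 : ∑ χ : DirichletCharacter ℂ q, ∑ u ∈ range (2 * x + 1), ‖∑ n ∈ Ioc u (u + h), cc χ n‖ ^ 2 ≤
        ∑ χ : DirichletCharacter ℂ q, x * (h : ℝ) ^ 2 / L ^ (2 * A1 + B + 10) :=
      Finset.sum_le_sum fun χ _ => hv q χ hqA' h hh1 hh2
    rw [Finset.sum_const, Finset.card_univ, nsmul_eq_mul, hcard] at h1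
    calc 1 / (q.totient : ℝ) * ∑ χ : DirichletCharacter ℂ q, ∑ u ∈ range (2 * x + 1), ‖∑ n ∈ Ioc u (u + h), cc χ n‖ ^ 2
        ≤ 1 / (q.totient : ℝ) * (q.totient * (x * (h : ℝ) ^ 2 / L ^ (2 * A1 + B + 10))) :=
          mul_le_mul_of_nonneg_left h1 (by (clear * - hq1; positivity))
      _ = x * (h : ℝ) ^ 2 / L ^ (2 * A1 + B + 10) := by
          field_simp
  have htot : ∑ u ∈ range (2 * x + 1), ‖∑ n ∈ Ioc u (u + h), (ff (zA A x) n : ℂ) * ex (n * (a / q))‖ ^ 2 ≤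
      (q : ℝ) ^ 2 * (3 * (x * (h : ℝ) ^ 2 / L ^ (2 * A1 + B + 10)) + 3 * x * R) := by
    refine (Finset.sum_le_sum hone).trans ?_
    rw [← Finset.mul_sum, Finset.sum_add_distrib, ← Finset.mul_sum, Finset.sum_const, Finset.card_range, nsmul_eq_mul]
    refine mul_le_mul_of_nonneg_left ?_ (by (clear * - hq1; positivity))
    have h1 : ((2 * x + 1 : ℕ) : ℝ) ≤ 3 * x := by
      push_cast
      linarith only [hx0']
    have h2 := mul_le_mul_of_nonneg_right h1 hR0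
    linarith only [hEs, h2]
  refine htot.trans ?_
  -- final estimates
  have hq2 : (q : ℝ) ^ 2 ≤ L ^ (2 * A1) := by
    calc (q : ℝ) ^ 2 ≤ (L ^ A1) ^ 2 := pow_le_pow_left₀ hq0 hq 2
      _ = L ^ (2 * A1) := by rw [← pow_mul, mul_comm]
  have hq6 : (q : ℝ) ^ 6 ≤ L ^ (6 * A1) := by
    calc (q : ℝ) ^ 6 ≤ (L ^ A1) ^ 6 := pow_le_pow_left₀ hq0 hq 6
      _ = L ^ (6 * A1) := by rw [← pow_mul, mul_comm]
  have hh0 : (0 : ℝ) ≤ h := Nat.cast_nonneg h
  have hhsq : (x : ℝ) * (x : ℝ) ^ (2 * ε) ≤ (h : ℝ) ^ 2 := by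
    have h1 : ((x : ℝ) ^ (1 / 2 + ε)) ^ 2 ≤ (h : ℝ) ^ 2 := pow_le_pow_left₀ (by (clear * - hx0; positivity)) hh1 2
    refine le_trans (le_of_eq ?_) h1
    rw [← Real.rpow_natCast, ← Real.rpow_mul hxpos.le]
    have : (1 / 2 + ε) * ((2 : ℕ) : ℝ) = 1 + 2 * ε := by
      push_cast
      ring
    rw [this, Real.rpow_add hxpos, Real.rpow_one]
  have hxe : 1 ≤ (x : ℝ) ^ (2 * ε) := Real.one_le_rpow hx0' (by linarith only [hε])
  have hhx2 : (x : ℝ) ≤ (h : ℝ) ^ 2 := by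
    refine le_trans ?_ hhsq
    nlinarith only [hxe]
  have hLB : 0 < L ^ B := by (clear * - hL; positivity)
  have h210 : (1024 : ℝ) ≤ L ^ 10 := by
    calc (1024 : ℝ) = 2 ^ 10 := by norm_num
      _ ≤ L ^ 10 := pow_le_pow_left₀ (by norm_num) hL 10
  -- term 1
  have t1 : (q : ℝ) ^ 2 * (3 * (x * (h : ℝ) ^ 2 / L ^ (2 * A1 + B + 10))) ≤ (1 / 4) * (x * (h : ℝ) ^ 2 / L ^ B) := by
    have e1 : (q : ℝ) ^ 2 * (3 * (x * (h : ℝ) ^ 2 / L ^ (2 * A1 + B + 10))) =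
        ((q : ℝ) ^ 2 / L ^ (2 * A1)) * (3 / L ^ 10) * (x * (h : ℝ) ^ 2 / L ^ B) := by
      rw [pow_add, pow_add]
      field_simp
    rw [e1]
    refine mul_le_mul_of_nonneg_right ?_ (by (clear * - hx0 hL; positivity))
    have e2 : (q : ℝ) ^ 2 / L ^ (2 * A1) ≤ 1 := div_le_one_of_le₀ hq2 (by (clear * - hL; positivity))
    have e3 : 3 / L ^ 10 ≤ 1 / 4 := by
      rw [div_le_div_iff₀ (by (clear * - hL; positivity)) (by norm_num)]
      linarith only [h210]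
    have e4 : 0 ≤ 3 / L ^ 10 := by (clear * - hL; positivity)
    calc (q : ℝ) ^ 2 / L ^ (2 * A1) * (3 / L ^ 10) ≤ 1 * (3 / L ^ 10) := mul_le_mul_of_nonneg_right e2 e4
      _ ≤ 1 / 4 := by linarith only [e3]
  -- term 2
  have t2 : (q : ℝ) ^ 2 * (3 * x * (3 * V ^ 2)) ≤ (1 / 4) * (x * (h : ℝ) ^ 2 / L ^ B) := by
    have e1 : (q : ℝ) ^ 2 * (3 * x * (3 * V ^ 2)) =
        ((q : ℝ) ^ 2 / L ^ (2 * A1)) * (9 / (L ^ 10 * L ^ (10 + B))) * (x * (h : ℝ) ^ 2 / L ^ B) := by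
      rw [hV, div_pow, ← pow_mul]
      have e0 : L ^ ((A1 + B + 10) * 2) = L ^ (2 * A1) * (L ^ 10 * L ^ (10 + B)) * L ^ B := by
        rw [← pow_add, ← pow_add, ← pow_add]
        congr 1
        ring
      rw [e0]
      field_simp
      ring
    rw [e1]
    refine mul_le_mul_of_nonneg_right ?_ (by (clear * - hx0 hL; positivity))
    have e2 : (q : ℝ) ^ 2 / L ^ (2 * A1) ≤ 1 := div_le_one_of_le₀ hq2 (by (clear * - hL; positivity))
    have e5 : 1 ≤ L ^ (10 + B) := one_le_pow₀ hL1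
    have e3 : 9 / (L ^ 10 * L ^ (10 + B)) ≤ 1 / 4 := by
      rw [div_le_div_iff₀ (by (clear * - hL; positivity)) (by norm_num)]
      nlinarith only [h210, e5]
    have e4 : 0 ≤ 9 / (L ^ 10 * L ^ (10 + B)) := by (clear * - hL; positivity)
    calc (q : ℝ) ^ 2 / L ^ (2 * A1) * (9 / (L ^ 10 * L ^ (10 + B))) ≤ 1 * (9 / (L ^ 10 * L ^ (10 + B))) :=
          mul_le_mul_of_nonneg_right e2 e4
      _ ≤ 1 / 4 := by linarith only [e3]
  -- term 3
  have t3 : (q : ℝ) ^ 2 * (3 * x * (3 * (C ^ 2 * (3 * x)))) ≤ (1 / 4) * (x * (h : ℝ) ^ 2 / L ^ B) := by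
    rw [mul_div_assoc', le_div_iff₀ hLB]
    have e1 : (108 * C ^ 2) * (L ^ (2 * A1) * L ^ B) ≤ (x : ℝ) ^ (2 * ε) := by
      rw [← pow_add]
      refine le_trans ?_ hx1
      refine mul_le_mul_of_nonneg_right (by linarith) (by (clear * - hL; positivity))
    have e2 : (q : ℝ) ^ 2 * (27 * C ^ 2) * L ^ B ≤ (1 / 4) * (x : ℝ) ^ (2 * ε) := by
      have : (q : ℝ) ^ 2 * ((27 * C ^ 2) * L ^ B) ≤ L ^ (2 * A1) * ((27 * C ^ 2) * L ^ B) :=
        mul_le_mul_of_nonneg_right hq2 (by (clear * - hL; positivity))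
      calc (q : ℝ) ^ 2 * (27 * C ^ 2) * L ^ B = (q : ℝ) ^ 2 * ((27 * C ^ 2) * L ^ B) := by ring
        _ ≤ L ^ (2 * A1) * ((27 * C ^ 2) * L ^ B) := this
        _ = (1 / 4) * ((108 * C ^ 2) * (L ^ (2 * A1) * L ^ B)) := by ring
        _ ≤ (1 / 4) * (x : ℝ) ^ (2 * ε) := by linarith only [e1]
    calc (q : ℝ) ^ 2 * (3 * x * (3 * (C ^ 2 * (3 * x)))) * L ^ B = ((q : ℝ) ^ 2 * (27 * C ^ 2) * L ^ B) * (x * x) := by ring
      _ ≤ ((1 / 4) * (x : ℝ) ^ (2 * ε)) * (x * x) := mul_le_mul_of_nonneg_right e2 (by (clear * - hx0; positivity))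
      _ = (1 / 4) * (x * (x * (x : ℝ) ^ (2 * ε))) := by ring
      _ ≤ (1 / 4) * (x * (h : ℝ) ^ 2) := by
          refine mul_le_mul_of_nonneg_left ?_ (by norm_num)
          exact mul_le_mul_of_nonneg_left hhsq hxpos.le
  -- term 4
  have t4 : (q : ℝ) ^ 2 * (3 * x * (q : ℝ) ^ 4) ≤ (1 / 4) * (x * (h : ℝ) ^ 2 / L ^ B) := by
    rw [mul_div_assoc', le_div_iff₀ hLB]
    have e1 : (q : ℝ) ^ 6 * L ^ B ≤ L ^ (6 * A1 + B) := by
      rw [pow_add]
      exact mul_le_mul_of_nonneg_right hq6 hLB.le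
    calc (q : ℝ) ^ 2 * (3 * x * (q : ℝ) ^ 4) * L ^ B = 3 * x * ((q : ℝ) ^ 6 * L ^ B) := by ring
      _ ≤ 3 * x * L ^ (6 * A1 + B) := mul_le_mul_of_nonneg_left e1 (by (clear * - hx0; positivity))
      _ = (1 / 4) * (x * (12 * L ^ (6 * A1 + B))) := by ring
      _ ≤ (1 / 4) * (x * (h : ℝ) ^ 2) := by
          refine mul_le_mul_of_nonneg_left ?_ (by norm_num)
          exact mul_le_mul_of_nonneg_left (hx2.trans hhx2) hxpos.le
  have hsum : (q : ℝ) ^ 2 * (3 * (x * (h : ℝ) ^ 2 / L ^ (2 * A1 + B + 10)) + 3 * x * R) =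
      (q : ℝ) ^ 2 * (3 * (x * (h : ℝ) ^ 2 / L ^ (2 * A1 + B + 10))) + (q : ℝ) ^ 2 * (3 * x * (3 * V ^ 2)) +
      (q : ℝ) ^ 2 * (3 * x * (3 * (C ^ 2 * (3 * x)))) + (q : ℝ) ^ 2 * (3 * x * (q : ℝ) ^ 4) := by
    rw [hR]
    ring
  rw [hsum]
  linarith only [t1, t2, t3, t4]

end Pool.Agent.VK
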