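import Pool.Agent.Lib.VK.DefsC
import Pool.Agent.Lib.P4f18dfS.MV

/-!
# Mean value theorem for Dirichlet polynomials

PROOF SKETCH. We may assume `T ≥ 1` (enlarge `T`). For `t` in `[t0, t0 + T]`, with `τ = t0 + T/2`: `1 ≤ e · exp (-((t-τ)/T)^2)`. Expand the square:
`∫ exp (-((t-τ)/T)^2) (m/n)^(-it) dt` has absolute value `√π T exp (-T^2 λ^2/4)`, `λ = log (m/n)` (`P4f18dfS.MVAux.gauss_int`), and
`|λ| ≥ |m - n|/N` for `m, n ≤ N`. By `|a m||a n| ≤ (|a m|^2 + |a n|^2)/2` the total is at most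
`e √π T sum |a n|^2 · sup_n sum_m exp (-T^2 (m-n)^2/(4 N^2)) ≤ C T (1 + N/T) sum |a n|^2`: `sum_(k ≥ 1) exp (-(T k/(2N))^2)`, e.g.
`exp (-y^2) ≤ 1/(1 + y^2)` and `sum_(k≥1) 1/(1 + c^2 k^2) ≤ ∫_0^∞ dy/(1 + c^2 y^2) = π/(2c)`, `c = T/(2N)`.
-/

set_option autoImplicit false

open Finset MeasureTheory

namespace Pool.Agent.VK

namespace MeanValAux

open Pool.Agent.P4f18dfS Pool.Agent.P4f18dfS.MVAux

/-- one-sided Gaussian sum -/
theorem gsum {c : ℝ} (hc : 0 < c) (K : ℕ) :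
    ∑ k ∈ Icc 1 K, Real.exp (-(c ^ 2 * (k : ℝ) ^ 2)) ≤ (2 / c) * (1 - 1 / (1 + c * K)) := by
  induction K with
  | zero => simp
  | succ K ih =>
    rw [sum_Icc_succ_top (by omega)]
    have hK : (0 : ℝ) ≤ K := Nat.cast_nonneg K
    have h1 : Real.exp (-(c ^ 2 * ((K + 1 : ℕ) : ℝ) ^ 2)) ≤ 1 / (1 + c ^ 2 * ((K : ℝ) + 1) ^ 2) := by
      rw [Real.exp_neg, ← one_div]
      push_cast
      refine one_div_le_one_div_of_le (by positivity) ?_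
      have := Real.add_one_le_exp (c ^ 2 * ((K : ℝ) + 1) ^ 2)
      linarith
    have h2 : 1 / (1 + c ^ 2 * ((K : ℝ) + 1) ^ 2) ≤ 2 / ((1 + c * K) * (1 + c * (K + 1))) := by
      rw [div_le_div_iff₀ (by positivity) (by positivity)]
      nlinarith [sq_nonneg (1 - c * ((K : ℝ) + 1)), mul_nonneg hc.le hK, mul_pos hc hc]
    have h3 : (2 / c) * (1 - 1 / (1 + c * ((K + 1 : ℕ) : ℝ))) =
        (2 / c) * (1 - 1 / (1 + c * K)) + 2 / ((1 + c * K) * (1 + c * (K + 1))) := by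
      push_cast
      have e1 : (1 + c * (K : ℝ)) ≠ 0 := by positivity
      have e2 : (1 + c * ((K : ℝ) + 1)) ≠ 0 := by positivity
      field_simp
      ring
    rw [h3]
    linarith

theorem gsum' {c : ℝ} (hc : 0 < c) (K : ℕ) :
    ∑ k ∈ Icc 1 K, Real.exp (-(c ^ 2 * (k : ℝ) ^ 2)) ≤ 2 / c := by
  refine (gsum hc K).trans ?_
  have h1 : 0 ≤ 1 / (1 + c * (K : ℝ)) := by positivity
  have h2 : 0 < 2 / c := by positivity
  nlinarith

/-- two-sided Gaussian sum -/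
theorem gsum2 {c : ℝ} (hc : 0 < c) (N n : ℕ) (hn : n ≤ N) :
    ∑ m ∈ Icc 1 N, Real.exp (-(c ^ 2 * ((m : ℝ) - n) ^ 2)) ≤ 1 + 4 / c := by
  have hsub : Icc 1 N ⊆ ((Icc 1 N).filter (fun m => m < n)) ∪ ({n} ∪ (Icc 1 N).filter (fun m => n < m)) := by
    intro m hm
    rw [mem_union, mem_union, mem_filter, mem_filter, mem_singleton]
    rcases lt_trichotomy m n with h | h | h
    · exact Or.inl ⟨hm, h⟩
    · exact Or.inr (Or.inl h)
    · exact Or.inr (Or.inr ⟨hm, h⟩)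
  have hpos : ∀ m : ℕ, 0 ≤ Real.exp (-(c ^ 2 * ((m : ℝ) - n) ^ 2)) := fun m => (Real.exp_pos _).le
  refine (sum_le_sum_of_subset_of_nonneg hsub fun m _ _ => hpos m).trans ?_
  have hU : ∀ (s t : Finset ℕ), ∑ m ∈ s ∪ t, Real.exp (-(c ^ 2 * ((m : ℝ) - n) ^ 2)) ≤
      ∑ m ∈ s, Real.exp (-(c ^ 2 * ((m : ℝ) - n) ^ 2)) +
      ∑ m ∈ t, Real.exp (-(c ^ 2 * ((m : ℝ) - n) ^ 2)) := by
    intro s t
    rw [← sum_union_inter]
    exact le_add_of_nonneg_right (sum_nonneg fun m _ => hpos m)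
  have hA : ∑ m ∈ (Icc 1 N).filter (fun m => m < n), Real.exp (-(c ^ 2 * ((m : ℝ) - n) ^ 2)) ≤
      2 / c := by
    refine le_trans ?_ (gsum' hc N)
    have e : ∑ m ∈ (Icc 1 N).filter (fun m => m < n), Real.exp (-(c ^ 2 * ((m : ℝ) - n) ^ 2)) =
        ∑ k ∈ ((Icc 1 N).filter (fun m => m < n)).image (fun m => n - m),
          Real.exp (-(c ^ 2 * (k : ℝ) ^ 2)) := by
      rw [sum_image]
      · refine sum_congr rfl fun m hm => ?_
        rw [mem_filter] at hm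
        rw [Nat.cast_sub hm.2.le]
        congr 3
        ring
      · intro a ha b hb hab
        rw [mem_coe, mem_filter] at ha hb
        simp only at hab
        omega
    rw [e]
    refine sum_le_sum_of_subset_of_nonneg ?_ fun k _ _ => (Real.exp_pos _).le
    intro k hk
    rw [mem_image] at hk
    obtain ⟨m, hm, rfl⟩ := hk
    rw [mem_filter, mem_Icc] at hm
    rw [mem_Icc]
    omega
  have hB : ∑ m ∈ (Icc 1 N).filter (fun m => n < m), Real.exp (-(c ^ 2 * ((m : ℝ) - n) ^ 2)) ≤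
      2 / c := by
    refine le_trans ?_ (gsum' hc N)
    have e : ∑ m ∈ (Icc 1 N).filter (fun m => n < m), Real.exp (-(c ^ 2 * ((m : ℝ) - n) ^ 2)) =
        ∑ k ∈ ((Icc 1 N).filter (fun m => n < m)).image (fun m => m - n),
          Real.exp (-(c ^ 2 * (k : ℝ) ^ 2)) := by
      rw [sum_image]
      · refine sum_congr rfl fun m hm => ?_
        rw [mem_filter] at hm
        rw [Nat.cast_sub hm.2.le]
      · intro a ha b hb hab
        rw [mem_coe, mem_filter] at ha hb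
        simp only at hab
        omega
    rw [e]
    refine sum_le_sum_of_subset_of_nonneg ?_ fun k _ _ => (Real.exp_pos _).le
    intro k hk
    rw [mem_image] at hk
    obtain ⟨m, hm, rfl⟩ := hk
    rw [mem_filter, mem_Icc] at hm
    rw [mem_Icc]
    omega
  have hC : ∑ m ∈ ({n} : Finset ℕ), Real.exp (-(c ^ 2 * ((m : ℝ) - n) ^ 2)) = 1 := by simp
  have e4 : 1 + 4 / c = 2 / c + (1 + 2 / c) := by ring
  rw [e4]
  refine (hU _ _).trans (add_le_add hA ((hU _ _).trans (add_le_add hC.le hB)))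

/-- separation of logarithms -/
theorem log_diff {m n N : ℕ} (hm : 1 ≤ m) (hn : 1 ≤ n) (hmN : m ≤ N) (hnN : n ≤ N) :
    (((m : ℝ) - n) / N) ^ 2 ≤ (Real.log m - Real.log n) ^ 2 := by
  have main : ∀ a b : ℕ, 1 ≤ a → a ≤ b → b ≤ N →
      ((b : ℝ) - a) / N ≤ Real.log b - Real.log a ∧ 0 ≤ ((b : ℝ) - a) / N := by
    intro a b ha hab hb
    have ha0 : (0 : ℝ) < a := by exact_mod_cast ha
    have hab' : (a : ℝ) ≤ b := by exact_mod_cast hab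
    have hb0 : (0 : ℝ) < b := by linarith
    have hbN : (b : ℝ) ≤ N := by exact_mod_cast hb
    have h1 := Real.one_sub_inv_le_log_of_pos (x := (b : ℝ) / a) (by positivity)
    rw [Real.log_div hb0.ne' ha0.ne', inv_div] at h1
    have h2 : 1 - (a : ℝ) / b = (b - a) / b := by field_simp
    rw [h2] at h1
    have h3 : ((b : ℝ) - a) / N ≤ (b - a) / b :=
      div_le_div_of_nonneg_left (by linarith) hb0 hbN
    exact ⟨h3.trans h1, div_nonneg (by linarith) (by linarith)⟩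
  rcases le_total m n with h | h
  · obtain ⟨h1, h2⟩ := main m n hm h hnN
    have e1 : (((m : ℝ) - n) / N) ^ 2 = (((n : ℝ) - m) / N) ^ 2 := by ring
    have e2 : (Real.log m - Real.log n) ^ 2 = (Real.log n - Real.log m) ^ 2 := by ring
    rw [e1, e2]
    exact pow_le_pow_left₀ h2 h1 2
  · obtain ⟨h1, h2⟩ := main n m hn h hmN
    exact pow_le_pow_left₀ h2 h1 2

/-- the coefficients, normalised -/
noncomputable def bb (a : ℕ → ℂ) : ArithmeticFunction ℂ :=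
  ⟨fun n => if n = 0 then 0 else a n * ((1 / rt n : ℝ) : ℂ), if_pos rfl⟩

theorem bb_rt (a : ℕ → ℂ) {n : ℕ} (hn : 1 ≤ n) : ‖bb a n‖ * rt n = ‖a n‖ := by
  have h1 : bb a n = a n * ((1 / rt n : ℝ) : ℂ) := if_neg (by omega)
  have h2 := rt_pos n
  rw [h1, norm_mul, Complex.norm_real, Real.norm_eq_abs, abs_of_pos (by positivity)]
  field_simp

theorem dp_bb (a : ℕ → ℂ) (N : ℕ) (t : ℝ) : dp (bb a) N t = ∑ n ∈ Icc 1 N, a n * nit n t := by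
  unfold dp
  refine sum_congr rfl fun n hn => ?_
  rw [mem_Icc] at hn
  have h0 : (n : ℂ) ≠ 0 := by exact_mod_cast (by omega : n ≠ 0)
  have h1 : bb a n = a n * ((1 / rt n : ℝ) : ℂ) := if_neg (by omega)
  have h2 := rt_pos n
  have h3 : nit n t = Complex.exp (-(Complex.I * (Real.log n : ℂ) * t)) := by
    unfold nit
    push_cast
    rw [Complex.cpow_def_of_ne_zero h0]
    congr 1
    rw [← Complex.natCast_log]
    ring
  rw [cpow_eq hn.1, h1, h3]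
  have h4 : ((1 / rt n : ℝ) : ℂ) * (rt n : ℂ) = 1 := by
    rw [← Complex.ofReal_mul]
    have : 1 / rt n * rt n = 1 := by field_simp
    rw [this, Complex.ofReal_one]
  linear_combination (a n * Complex.exp (-(Complex.I * (Real.log n : ℂ) * t))) * h4

theorem weighted {Δ : ℝ} (hΔ : 0 < Δ) (τ : ℝ) (a : ℕ → ℂ) {N : ℕ} (hN : 1 ≤ N) :
    ∫ t : ℝ, wt τ Δ t * ‖∑ n ∈ Icc 1 N, a n * nit n t‖ ^ 2 ≤
      Real.sqrt Real.pi * (Δ + 8 * N) * ∑ n ∈ Icc 1 N, ‖a n‖ ^ 2 := by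
  have hN0 : (0 : ℝ) < N := by exact_mod_cast hN
  have h1 : ((∫ t : ℝ, wt τ Δ t * ‖∑ n ∈ Icc 1 N, a n * nit n t‖ ^ 2 : ℝ) : ℂ) =
      ∫ t : ℝ, (wt τ Δ t : ℂ) * (dp (bb a) N t * (starRingEnd ℂ) (dp (bb a) N t)) := by
    rw [← integral_complex_ofReal]
    refine integral_congr_ae (Filter.Eventually.of_forall fun t => ?_)
    simp only
    rw [dp_bb, Complex.mul_conj, Complex.normSq_eq_norm_sq]
    push_cast
    ring
  have h2 : ∫ t : ℝ, wt τ Δ t * ‖∑ n ∈ Icc 1 N, a n * nit n t‖ ^ 2 ≤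
      ‖((∫ t : ℝ, wt τ Δ t * ‖∑ n ∈ Icc 1 N, a n * nit n t‖ ^ 2 : ℝ) : ℂ)‖ := by
    rw [Complex.norm_real]
    exact le_abs_self _
  refine h2.trans ?_
  rw [h1, expand hΔ]
  set c : ℝ := Δ / (2 * N) with hc
  have hc0 : 0 < c := by positivity
  have h3 : ∀ n ∈ Icc 1 N, ∀ m ∈ Icc 1 N,
      ‖(bb a m * (starRingEnd ℂ) (bb a n) * ((rt m * rt n : ℝ) : ℂ)) *
        ∫ t : ℝ, (wt τ Δ t : ℂ) *
          Complex.exp (-(Complex.I * ((Real.log m - Real.log n : ℝ) : ℂ) * t))‖ ≤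
      Real.sqrt Real.pi * Δ * ((‖a m‖ ^ 2 + ‖a n‖ ^ 2) / 2 *
        Real.exp (-(c ^ 2 * ((m : ℝ) - n) ^ 2))) := by
    intro n hn m hm
    rw [mem_Icc] at hn hm
    rw [norm_mul, norm_gauss hΔ, norm_mul, norm_mul, RCLike.norm_conj, Complex.norm_real,
      Real.norm_eq_abs, abs_of_pos (mul_pos (rt_pos m) (rt_pos n))]
    have e1 : ‖bb a m‖ * ‖bb a n‖ * (rt m * rt n) = ‖a m‖ * ‖a n‖ := by
      rw [← bb_rt a hm.1, ← bb_rt a hn.1]
      ring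
    rw [e1]
    have h4 : ‖a m‖ * ‖a n‖ ≤ (‖a m‖ ^ 2 + ‖a n‖ ^ 2) / 2 := by
      nlinarith [sq_nonneg (‖a m‖ - ‖a n‖)]
    have h5 : Real.exp (-(Δ ^ 2 * (Real.log m - Real.log n) ^ 2 / 4)) ≤
        Real.exp (-(c ^ 2 * ((m : ℝ) - n) ^ 2)) := by
      refine Real.exp_le_exp.2 ?_
      have h6 := log_diff hm.1 hn.1 hm.2 hn.2
      have e2 : c ^ 2 * ((m : ℝ) - n) ^ 2 = Δ ^ 2 * (((m : ℝ) - n) / N) ^ 2 / 4 := by
        rw [hc]
        field_simp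
        ring
      rw [e2]
      have : Δ ^ 2 * (((m : ℝ) - n) / N) ^ 2 ≤ Δ ^ 2 * (Real.log m - Real.log n) ^ 2 :=
        mul_le_mul_of_nonneg_left h6 (by positivity)
      linarith
    calc ‖a m‖ * ‖a n‖ * (Real.sqrt Real.pi * Δ *
          Real.exp (-(Δ ^ 2 * (Real.log m - Real.log n) ^ 2 / 4)))
        ≤ (‖a m‖ ^ 2 + ‖a n‖ ^ 2) / 2 * (Real.sqrt Real.pi * Δ *
          Real.exp (-(c ^ 2 * ((m : ℝ) - n) ^ 2))) :=
          mul_le_mul h4 (mul_le_mul_of_nonneg_left h5 (by positivity)) (by positivity)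
            (by positivity)
      _ = _ := by ring
  refine (norm_sum_le _ _).trans ((sum_le_sum fun n hn => (norm_sum_le _ _).trans
    (sum_le_sum fun m hm => h3 n hn m hm)).trans ?_)
  have hG : ∀ n ∈ Icc 1 N, ∑ m ∈ Icc 1 N, Real.exp (-(c ^ 2 * ((m : ℝ) - n) ^ 2)) ≤ 1 + 4 / c :=
    fun n hn => gsum2 hc0 N n (mem_Icc.1 hn).2
  have e3 : ∑ n ∈ Icc 1 N, ∑ m ∈ Icc 1 N, Real.sqrt Real.pi * Δ * ((‖a m‖ ^ 2 + ‖a n‖ ^ 2) / 2 *
        Real.exp (-(c ^ 2 * ((m : ℝ) - n) ^ 2))) =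
      Real.sqrt Real.pi * Δ * ∑ n ∈ Icc 1 N, ‖a n‖ ^ 2 *
        ∑ m ∈ Icc 1 N, Real.exp (-(c ^ 2 * ((m : ℝ) - n) ^ 2)) := by
    have e4 : ∑ n ∈ Icc 1 N, ∑ m ∈ Icc 1 N, ‖a m‖ ^ 2 * Real.exp (-(c ^ 2 * ((m : ℝ) - n) ^ 2)) =
        ∑ n ∈ Icc 1 N, ∑ m ∈ Icc 1 N, ‖a n‖ ^ 2 * Real.exp (-(c ^ 2 * ((m : ℝ) - n) ^ 2)) := by
      rw [sum_comm]
      refine sum_congr rfl fun n _ => sum_congr rfl fun m _ => ?_
      congr 3
      ring
    have e5 : ∑ n ∈ Icc 1 N, ∑ m ∈ Icc 1 N, Real.sqrt Real.pi * Δ *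
        ((‖a m‖ ^ 2 + ‖a n‖ ^ 2) / 2 * Real.exp (-(c ^ 2 * ((m : ℝ) - n) ^ 2))) =
        Real.sqrt Real.pi * Δ / 2 *
          (∑ n ∈ Icc 1 N, ∑ m ∈ Icc 1 N, ‖a m‖ ^ 2 * Real.exp (-(c ^ 2 * ((m : ℝ) - n) ^ 2)) +
          ∑ n ∈ Icc 1 N, ∑ m ∈ Icc 1 N, ‖a n‖ ^ 2 * Real.exp (-(c ^ 2 * ((m : ℝ) - n) ^ 2))) := by
      rw [← sum_add_distrib, mul_sum]
      refine sum_congr rfl fun n _ => ?_
      rw [← sum_add_distrib, mul_sum]
      refine sum_congr rfl fun m _ => ?_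
      ring
    rw [e5, e4]
    have e6 : ∑ n ∈ Icc 1 N, ∑ m ∈ Icc 1 N, ‖a n‖ ^ 2 * Real.exp (-(c ^ 2 * ((m : ℝ) - n) ^ 2)) =
        ∑ n ∈ Icc 1 N, ‖a n‖ ^ 2 * ∑ m ∈ Icc 1 N, Real.exp (-(c ^ 2 * ((m : ℝ) - n) ^ 2)) :=
      sum_congr rfl fun n _ => (mul_sum _ _ _).symm
    rw [e6]
    ring
  rw [e3]
  have h7 : ∑ n ∈ Icc 1 N, ‖a n‖ ^ 2 * ∑ m ∈ Icc 1 N, Real.exp (-(c ^ 2 * ((m : ℝ) - n) ^ 2)) ≤
      (1 + 4 / c) * ∑ n ∈ Icc 1 N, ‖a n‖ ^ 2 := by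
    rw [mul_sum]
    refine sum_le_sum fun n hn => ?_
    rw [mul_comm (1 + 4 / c)]
    exact mul_le_mul_of_nonneg_left (hG n hn) (by positivity)
  have h8 := mul_le_mul_of_nonneg_left h7 (show 0 ≤ Real.sqrt Real.pi * Δ by positivity)
  refine h8.trans (le_of_eq ?_)
  rw [hc]
  field_simp
  ring

end MeanValAux

open MeanValAux Pool.Agent.P4f18dfS Pool.Agent.P4f18dfS.MVAux in
theorem mean_value : ∃ C : ℝ, 1 ≤ C ∧ ∀ (N : ℕ) (a : ℕ → ℂ) (t0 T : ℝ), 1 ≤ N → 0 ≤ T →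
    ∫ t in t0..(t0 + T), ‖∑ n ∈ Icc 1 N, a n * nit n t‖ ^ 2 ≤ C * (1 + T + N) * ∑ n ∈ Icc 1 N, ‖a n‖ ^ 2 := by
  refine ⟨32, by norm_num, ?_⟩
  intro N a t0 T hN hT
  have hN0 : (1 : ℝ) ≤ N := by exact_mod_cast hN
  set Δ : ℝ := T + 1 with hΔ
  set τ : ℝ := t0 + T / 2 with hτ
  have hΔ0 : 0 < Δ := by linarith
  have hS : ∀ t, ∑ n ∈ Icc 1 N, a n * nit n t = dp (bb a) N t := fun t => (dp_bb a N t).symm
  have hcont : Continuous fun t : ℝ => ‖∑ n ∈ Icc 1 N, a n * nit n t‖ ^ 2 := by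
    simp_rw [hS]
    exact (dp_continuous (bb a) N).norm.pow 2
  have hint : Integrable fun t : ℝ => wt τ Δ t * ‖∑ n ∈ Icc 1 N, a n * nit n t‖ ^ 2 := by
    have h1 := (mv_integrable hΔ0 τ (bb a) (bb a) N N).re
    refine h1.congr (Filter.Eventually.of_forall fun t => ?_)
    simp only
    rw [hS, Complex.mul_conj, Complex.normSq_eq_norm_sq, ← Complex.ofReal_mul]
    exact Complex.ofReal_re _
  have hw : ∀ t ∈ Set.Icc t0 (t0 + T), ‖∑ n ∈ Icc 1 N, a n * nit n t‖ ^ 2 ≤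
      2 * (wt τ Δ t * ‖∑ n ∈ Icc 1 N, a n * nit n t‖ ^ 2) := by
    intro t ht
    have h1 : 1 / 2 ≤ wt τ Δ t := by
      unfold wt
      have h2 : ((t - τ) / Δ) ^ 2 ≤ 1 / 4 := by
        rw [div_pow, div_le_iff₀ (by positivity)]
        have h3 : |t - τ| ≤ T / 2 := by
          rw [abs_le]
          constructor <;> linarith [ht.1, ht.2]
        have h4 : (t - τ) ^ 2 ≤ (T / 2) ^ 2 := by
          rw [← sq_abs (t - τ)]
          exact pow_le_pow_left₀ (abs_nonneg _) h3 2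
        nlinarith
      have h5 := Real.add_one_le_exp (-((t - τ) / Δ) ^ 2)
      linarith
    have h2 : 0 ≤ ‖∑ n ∈ Icc 1 N, a n * nit n t‖ ^ 2 := by positivity
    nlinarith
  have h1 : ∫ t in t0..(t0 + T), ‖∑ n ∈ Icc 1 N, a n * nit n t‖ ^ 2 ≤
      ∫ t in t0..(t0 + T), 2 * (wt τ Δ t * ‖∑ n ∈ Icc 1 N, a n * nit n t‖ ^ 2) :=
    intervalIntegral.integral_mono_on (by linarith) (hcont.intervalIntegrable _ _)
      ((hint.const_mul 2).intervalIntegrable) hw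
  refine h1.trans ?_
  rw [intervalIntegral.integral_const_mul, intervalIntegral.integral_of_le (by linarith)]
  have h2 : ∫ t in Set.Ioc t0 (t0 + T), wt τ Δ t * ‖∑ n ∈ Icc 1 N, a n * nit n t‖ ^ 2 ≤
      ∫ t : ℝ, wt τ Δ t * ‖∑ n ∈ Icc 1 N, a n * nit n t‖ ^ 2 :=
    setIntegral_le_integral hint (Filter.Eventually.of_forall fun t => by
      have := wt_pos τ Δ t
      positivity)
  have h3 := weighted hΔ0 τ a hN
  have hpi : Real.sqrt Real.pi ≤ 2 := by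
    rw [Real.sqrt_le_left (by norm_num)]
    have := Real.pi_lt_four
    linarith
  have hsum : 0 ≤ ∑ n ∈ Icc 1 N, ‖a n‖ ^ 2 := sum_nonneg fun _ _ => by positivity
  have h4 : Real.sqrt Real.pi * (Δ + 8 * N) * ∑ n ∈ Icc 1 N, ‖a n‖ ^ 2 ≤
      2 * (Δ + 8 * N) * ∑ n ∈ Icc 1 N, ‖a n‖ ^ 2 := by
    refine mul_le_mul_of_nonneg_right (mul_le_mul_of_nonneg_right hpi ?_) hsum
    linarith
  have h5 : 2 * (2 * (Δ + 8 * N) * ∑ n ∈ Icc 1 N, ‖a n‖ ^ 2) ≤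
      32 * (1 + T + N) * ∑ n ∈ Icc 1 N, ‖a n‖ ^ 2 := by
    have h6 : 4 * (Δ + 8 * N) ≤ 32 * (1 + T + N) := by
      rw [hΔ]
      linarith
    have := mul_le_mul_of_nonneg_right h6 hsum
    linarith
  linarith

end Pool.Agent.VK
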