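import Pool.Agent.Lib.VK.Defs

/-!
# Newton's identities modulo a prime power

PROOF SKETCH.
* `prod_eq`: by Newton's identities (`MvPolynomial.mul_esymm_eq_sum`, mapped to `ZMod (p ^ m)` by `aeval x`) the
  elementary symmetric functions `e_j (x)`, `j ≤ k`, are determined by the power sums of degrees `1..k`, since
  `j ≤ k < p` is a unit modulo `p ^ m` (strong induction on `j`). The coefficients of `prod (X - x_i)` are
  `± e_j` (`Multiset.prod_X_sub_C_eq_sum_esymm` or `MvPolynomial.prod_C_add_X_eq_sum_esymm`...). It suffices to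
  have the evaluated form stated here (`prod_i (z - x_i) = prod_i (z - y_i)` for all `z`).
* `perm_of_power_sums`: put `z = y_i`: `prod_j (y_i - x_j) = 0` in `ZMod (p ^ m)`. As the `x_j` are distinct
  modulo `p`, at most one factor is not a unit (a unit of `ZMod (p ^ m)` is an element not `≡ 0 mod p`; for
  `m = 0` everything is trivial, the ring is zero), so one factor vanishes: `y_i = x_j`. This defines
  `σ i = j`; it is injective as the `y_i` are distinct modulo `p`, so bijective.
* `card_power_sums`: if the set is nonempty fix one element `x`; all others are `x ∘ σ`, at most `k!`.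
-/

set_option autoImplicit false

open Finset

namespace Pool.Agent.VK

theorem prod_eq {k p : ℕ} (hp : p.Prime) (hkp : k < p) (m : ℕ) (x y : Fin k → ZMod (p ^ m))
    (h : ∀ j ∈ Icc 1 k, ∑ i, x i ^ j = ∑ i, y i ^ j) (z : ZMod (p ^ m)) :
    ∏ i, (z - x i) = ∏ i, (z - y i) := by
  classical
  have hunit : ∀ j : ℕ, 1 ≤ j → j ≤ k → IsUnit ((j : ℕ) : ZMod (p ^ m)) := by
    intro j h1 h2
    rw [ZMod.isUnit_iff_coprime]
    apply Nat.Coprime.pow_right
    exact (Nat.coprime_of_lt_prime (by omega) (by omega) hp).symm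
  have hes : ∀ j : ℕ, j ≤ k → MvPolynomial.aeval x (MvPolynomial.esymm (Fin k) ℤ j) =
      MvPolynomial.aeval y (MvPolynomial.esymm (Fin k) ℤ j) := by
    intro j
    induction j using Nat.strong_induction_on with
    | _ j ih =>
      intro hj
      rcases Nat.eq_zero_or_pos j with h0 | hpos
      · subst h0
        simp [MvPolynomial.esymm_zero]
      · have hx := congrArg (MvPolynomial.aeval x) (MvPolynomial.mul_esymm_eq_sum (Fin k) ℤ j)
        have hy := congrArg (MvPolynomial.aeval y) (MvPolynomial.mul_esymm_eq_sum (Fin k) ℤ j)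
        simp only [map_mul, map_natCast, map_sum, map_pow, map_neg, map_one] at hx hy
        apply (hunit j hpos hj).mul_left_cancel
        rw [hx, hy]
        congr 1
        apply Finset.sum_congr rfl
        intro a ha
        rw [mem_filter, Finset.HasAntidiagonal.mem_antidiagonal] at ha
        rw [ih a.1 ha.2 (by omega)]
        congr 1
        simp only [MvPolynomial.psum, map_sum, map_pow, MvPolynomial.aeval_X]
        exact h a.2 (by rw [mem_Icc]; omega)
  have key : ∀ w : Fin k → ZMod (p ^ m), ∏ i, (z - w i) =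
      ∑ j ∈ Finset.range (k + 1), (-1) ^ j * (MvPolynomial.aeval w (MvPolynomial.esymm (Fin k) ℤ j) *
        z ^ (k - j)) := by
    intro w
    have h1 := congrArg (Polynomial.eval z)
      (Multiset.prod_X_sub_X_eq_sum_esymm ((univ : Finset (Fin k)).val.map w))
    rw [Multiset.map_map] at h1
    have h2 : Polynomial.eval z (Multiset.map ((fun t => Polynomial.X - Polynomial.C t) ∘ w)
        (univ : Finset (Fin k)).val).prod = ∏ i, (z - w i) := by
      change Polynomial.eval z (∏ i, (Polynomial.X - Polynomial.C (w i))) = _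
      rw [Polynomial.eval_prod]
      simp
    rw [← h2, h1, Polynomial.eval_finsetSum]
    have hc : Multiset.card (Multiset.map w (univ : Finset (Fin k)).val) = k := by simp
    rw [hc]
    apply Finset.sum_congr rfl
    intro j _
    rw [MvPolynomial.aeval_esymm_eq_multiset_esymm]
    simp
  rw [key x, key y]
  apply Finset.sum_congr rfl
  intro j hj
  rw [hes j (by rw [mem_range] at hj; omega)]

/-- An element of `ZMod (p ^ m)` not divisible by `p` is a unit. -/
lemma isUnit_of_cast_ne {p : ℕ} (hp : p.Prime) (m : ℕ) (hm : m ≠ 0) (a : ZMod (p ^ m))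
    (ha : (ZMod.castHom (dvd_pow_self p hm) (ZMod p)) a ≠ 0) : IsUnit a := by
  have : NeZero (p ^ m) := ⟨pow_ne_zero _ hp.ne_zero⟩
  have h1 : ((a.val : ℕ) : ZMod (p ^ m)) = a := ZMod.natCast_zmod_val a
  rw [← h1] at ha ⊢
  rw [map_natCast] at ha
  rw [ZMod.isUnit_iff_coprime]
  apply Nat.Coprime.pow_right
  rw [Nat.coprime_comm, hp.coprime_iff_not_dvd]
  intro h2
  exact ha ((ZMod.natCast_eq_zero_iff _ _).mpr h2)

theorem perm_of_power_sums {k p : ℕ} (hp : p.Prime) (hkp : k < p) (m : ℕ) (hm : 1 ≤ m)
    (x y : Fin k → ZMod (p ^ m))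
    (hx : Function.Injective (fun i => (ZMod.castHom (dvd_pow_self p (by omega : m ≠ 0)) (ZMod p)) (x i)))
    (hy : Function.Injective (fun i => (ZMod.castHom (dvd_pow_self p (by omega : m ≠ 0)) (ZMod p)) (y i)))
    (h : ∀ j ∈ Icc 1 k, ∑ i, x i ^ j = ∑ i, y i ^ j) : ∃ σ : Equiv.Perm (Fin k), ∀ i, y i = x (σ i) := by
  classical
  have hm0 : m ≠ 0 := by omega
  have hnt : Nontrivial (ZMod (p ^ m)) := by
    have : Fact (1 < p ^ m) := ⟨Nat.one_lt_pow hm0 hp.one_lt⟩
    infer_instance
  have hex : ∀ i : Fin k, ∃ j : Fin k, y i = x j := by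
    intro i
    have h0 : ∏ j, (y i - x j) = 0 := by
      rw [prod_eq hp hkp m x y h (y i)]
      exact Finset.prod_eq_zero (Finset.mem_univ i) (sub_self _)
    have h1 : ∃ j, (ZMod.castHom (dvd_pow_self p hm0) (ZMod p)) (y i - x j) = 0 := by
      by_contra hcon
      push Not at hcon
      have h2 : IsUnit (∏ j, (y i - x j)) := by
        rw [IsUnit.prod_univ_iff]
        intro j
        exact isUnit_of_cast_ne hp m hm0 _ (hcon j)
      rw [h0] at h2
      exact not_isUnit_zero h2
    obtain ⟨j, hj⟩ := h1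
    refine ⟨j, ?_⟩
    have h3 : IsUnit (∏ l ∈ univ.erase j, (y i - x l)) := by
      rw [IsUnit.prod_iff]
      intro l hl
      apply isUnit_of_cast_ne hp m hm0
      intro h4
      apply (Finset.mem_erase.mp hl).1
      apply hx
      change (ZMod.castHom (dvd_pow_self p hm0) (ZMod p)) (x l) =
        (ZMod.castHom (dvd_pow_self p hm0) (ZMod p)) (x j)
      rw [map_sub, sub_eq_zero] at h4 hj
      rw [← h4, hj]
    rw [← Finset.mul_prod_erase univ (fun l => y i - x l) (Finset.mem_univ j)] at h0
    have h5 := (h3.mul_left_eq_zero).mp h0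
    exact sub_eq_zero.mp h5
  choose f hf using hex
  have hfi : Function.Injective f := by
    intro a b hab
    apply hy
    change (ZMod.castHom (dvd_pow_self p hm0) (ZMod p)) (y a) =
      (ZMod.castHom (dvd_pow_self p hm0) (ZMod p)) (y b)
    rw [hf a, hf b, hab]
  refine ⟨Equiv.ofBijective f (Finite.injective_iff_bijective.mp hfi), fun i => ?_⟩
  rw [hf i]
  rfl

/-- At most `k!` tuples of integers from a complete residue system modulo `p ^ m`, pairwise incongruent modulo
`p`, have given power sums modulo `p ^ m`. -/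
theorem card_power_sums {k p : ℕ} (hp : p.Prime) (hkp : k < p) (m : ℕ) (hm : 1 ≤ m) (X : ℕ) (hX : X ≤ p ^ m)
    (c : ℤ) (n : Fin k → ZMod (p ^ m)) :
    ((dtup k p (ivl X)).filter
      (fun x => ∀ j : Fin k, ((∑ i, (x i - c) ^ (j.val + 1) : ℤ) : ZMod (p ^ m)) = n j)).card ≤ k.factorial := by
  classical
  have hm0 : m ≠ 0 := by omega
  set F := (dtup k p (ivl X)).filter
      (fun x => ∀ j : Fin k, ((∑ i, (x i - c) ^ (j.val + 1) : ℤ) : ZMod (p ^ m)) = n j) with hF
  rcases F.eq_empty_or_nonempty with h0 | ⟨x, hxF⟩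
  · rw [h0]
    simp
  have hinj : ∀ w ∈ F, Function.Injective (fun i =>
      (ZMod.castHom (dvd_pow_self p hm0) (ZMod p)) (((w i - c : ℤ)) : ZMod (p ^ m))) := by
    intro w hw a b hab
    rw [hF, mem_filter] at hw
    unfold dtup at hw
    rw [mem_filter] at hw
    apply hw.1.2
    simp only [map_intCast] at hab
    push_cast at hab
    exact sub_left_injective hab
  have hsub : F ⊆ (univ : Finset (Equiv.Perm (Fin k))).image (fun σ => fun i => x (σ i)) := by
    intro y hyF
    obtain ⟨σ, hσ⟩ := perm_of_power_sums hp hkp m hm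
      (fun i => ((x i - c : ℤ) : ZMod (p ^ m))) (fun i => ((y i - c : ℤ) : ZMod (p ^ m)))
      (hinj x hxF) (hinj y hyF) (by
        intro j hj
        rw [mem_Icc] at hj
        have h1 := (mem_filter.mp hxF).2 ⟨j - 1, by omega⟩
        have h2 := (mem_filter.mp hyF).2 ⟨j - 1, by omega⟩
        have h3 : j - 1 + 1 = j := by omega
        simp only [h3] at h1 h2
        rw [← h2] at h1
        push_cast at h1 ⊢
        exact h1)
    rw [mem_image]
    refine ⟨σ, Finset.mem_univ _, ?_⟩
    funext i
    have h4 := hσ i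
    rw [eq_comm, ZMod.intCast_eq_intCast_iff_dvd_sub] at h4
    have h5 : ((p ^ m : ℕ) : ℤ) ∣ y i - x (σ i) := by
      have h6 : y i - c - (x (σ i) - c) = y i - x (σ i) := by ring
      rw [h6] at h4
      exact h4
    have hx1 : x (σ i) ∈ ivl X := by
      have := (mem_filter.mp hxF).1
      unfold dtup at this
      exact mem_tup.mp (mem_filter.mp this).1 (σ i)
    have hy1 : y i ∈ ivl X := by
      have := (mem_filter.mp hyF).1
      unfold dtup at this
      exact mem_tup.mp (mem_filter.mp this).1 i
    rw [mem_ivl] at hx1 hy1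
    have hXz : (X : ℤ) ≤ ((p ^ m : ℕ) : ℤ) := by exact_mod_cast hX
    have h7 : y i - x (σ i) = 0 := by
      apply Int.eq_zero_of_abs_lt_dvd h5
      rw [abs_lt]
      constructor <;> linarith [hx1.1, hx1.2, hy1.1, hy1.2]
    linarith
  calc F.card ≤ ((univ : Finset (Equiv.Perm (Fin k))).image (fun σ => fun i => x (σ i))).card :=
        Finset.card_le_card hsub
    _ ≤ (univ : Finset (Equiv.Perm (Fin k))).card := Finset.card_image_le
    _ = k.factorial := by
        rw [Finset.card_univ, Fintype.card_perm, Fintype.card_fin]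

end Pool.Agent.VK
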