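import Pool.Agent.Lib.VK.BrunFine
import Pool.Agent.Lib.HLT.NuAP

/-!
# The sieve model in progressions with smooth moduli

PROOF SKETCH. Copy of `HLT.nu_ap` (`HLT/NuAP.lean`): the only use of `q ≤ zA A x` there is that all prime factors of `q` are `≤ z`. The numbers `n ≤ y`, `n ≡ b mod d` are `n = b0 + d m`, at most `y/d + 1` values of `m`;
`brun_det` with `y = #m`, `r = 1` and the `k` of `brun_fine 1 A (B + 2)` gives the count up to `2 (y/d + 1)/L^(B+2) + x^(1/20)`, main term `(y/d + O(1)) (d/φ(d)) DZ z`; multiply by `(DZ z)⁻¹ ≤ L`. So the error is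
`≤ (4 x + d)/(d L^(B+1))·2 + L x^(1/20) + L d/φ(d)·...`; crude: `d/φ(d) ≤ (DZ z)⁻¹ ≤ L` for `d` with all prime factors `≤ z`. All errors together are at most `x/(d L^B) + x^(1/10)`.
-/

set_option autoImplicit false

open Finset Filter

namespace Pool.Agent.VK

open Pool.Agent.HLT

namespace NuSmoothAux

open Pool.Agent.HLB

lemma prod_apF' {z q : ℕ} (b : ℕ) (hq1 : 1 ≤ q) (hq : ∀ p : ℕ, p.Prime → p ∣ q → p ≤ z) :
    ∏ p ∈ Nat.primesLE z, (1 - ((apF b q p).card : ℝ) / p) = DZ z * (q / (q.totient : ℝ)) := by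
  have hphi : ((q.totient : ℕ) : ℝ) = q * ∏ p ∈ q.primeFactors, (1 - (p : ℝ)⁻¹) := by
    have h := Nat.totient_eq_mul_prod_factors q
    have h2 : (((q.totient : ℕ) : ℚ) : ℝ) = ((q * ∏ p ∈ q.primeFactors, (1 - (p : ℚ)⁻¹) : ℚ) : ℝ) := by
      rw [h]
    push_cast at h2
    exact h2
  have hq0 : (0 : ℝ) < q := by exact_mod_cast hq1
  have hφ0 : (0 : ℝ) < q.totient := by exact_mod_cast Nat.totient_pos.mpr hq1
  have hset : (Nat.primesLE z).filter (fun p => p ∣ q) = q.primeFactors := by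
    ext p
    rw [Finset.mem_filter, Nat.mem_primesLE, Nat.mem_primeFactors]
    constructor
    · rintro ⟨⟨_, h2⟩, h3⟩
      exact ⟨h2, h3, by omega⟩
    · rintro ⟨h1, h2, _⟩
      exact ⟨⟨hq p h1 h2, h1⟩, h2⟩
  have h3 : (∏ p ∈ Nat.primesLE z, (1 - ((apF b q p).card : ℝ) / p)) *
      ∏ p ∈ q.primeFactors, (1 - (p : ℝ)⁻¹) = DZ z := by
    rw [← hset, Finset.prod_filter, ← Finset.prod_mul_distrib]
    unfold DZ
    refine Finset.prod_congr rfl fun p hp => ?_
    rw [card_apF (Nat.mem_primesLE.1 hp).2]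
    split_ifs
    · simp
    · simp
  have h4 : ∏ p ∈ q.primeFactors, (1 - (p : ℝ)⁻¹) = (q.totient : ℝ) / q := by
    rw [hphi]; field_simp
  rw [h4] at h3
  rw [← h3]
  field_simp

end NuSmoothAux

open Pool.Agent.HLB in
theorem nu_smooth (A B : ℕ) : ∀ᶠ x : ℕ in atTop, ∀ y d b : ℕ, y ≤ 2 * x → 1 ≤ d → (d : ℝ) ≤ (x : ℝ) ^ (1 / 20 : ℝ) →
    (∀ p : ℕ, p.Prime → p ∣ d → p ≤ zA A x) → b.Coprime d →
    |∑ n ∈ (Icc 1 y).filter (fun n => n % d = b % d), nuz (zA A x) n - y / (d.totient : ℝ)| ≤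
      x / (d * Real.log x ^ B) + (x : ℝ) ^ (1 / 10 : ℝ) := by
  have hlogbig : ∀ᶠ x : ℕ in atTop, 4 ≤ Real.log x := by
    have h1 : Tendsto (fun x : ℕ => Real.log x) atTop atTop :=
      Real.tendsto_log_atTop.comp tendsto_natCast_atTop_atTop
    exact h1.eventually_ge_atTop 4
  have hsmall : ∀ᶠ x : ℕ in atTop, 4 * Real.log x ≤ (x : ℝ) ^ (1 / 20 : ℝ) := by
    have h1 : (fun x : ℝ => Real.log x) =o[atTop] (fun x : ℝ => x ^ (1 / 20 : ℝ)) :=
      isLittleO_log_rpow_atTop (by norm_num)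
    have h2 := (h1.bound (show (0 : ℝ) < 1 / 4 by norm_num))
    have h3 := tendsto_natCast_atTop_atTop.eventually h2
    filter_upwards [h3, hlogbig] with x hx hl
    rw [Real.norm_eq_abs, Real.norm_eq_abs, abs_of_nonneg (by positivity),
      abs_of_nonneg (by positivity)] at hx
    linarith
  filter_upwards [brun_fine 1 A (B + 2), DZ_inv_le A, hlogbig, hsmall, eventually_ge_atTop 1] with
    x hbr hD hl hsm hx1 y q b hy hq1 _ hq hb
  obtain ⟨k, hk, hk1, hk2⟩ := hbr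
  set z := zA A x with hz
  set b0 := b % q with hb0
  set Y := (y - b0) / q with hY
  have hb0q : b0 < q := Nat.mod_lt _ hq1
  have hcop : b0.Coprime q := by
    have h := (Nat.mod_modEq b q).gcd_eq
    rw [Nat.Coprime, hb0, h]
    exact hb
  have hinv : 0 ≤ (DZ z)⁻¹ := inv_nonneg.mpr (DZ_pos z).le
  have hDpos := DZ_pos z
  have h1 := sum_ap_split (z := z) (b := b) (y := y) hq1
  rw [← hb0, ← hY, sum_ap_eq hcop Y] at h1
  have h2 := brun_det 1 z k Y hk (apF b0 q) (fun p hp => by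
    refine ⟨apF_subset _ _ _, ?_⟩
    rw [card_apF (Nat.mem_primesLE.1 hp).2]
    split_ifs <;> omega)
  rw [NuSmoothAux.prod_apF' b0 hq1 hq] at h2
  set N : ℝ := (((Icc 1 Y).filter (fun m => ∀ p ∈ Nat.primesLE z, m % p ∉ apF b0 q p)).card : ℝ)
    with hN
  have hq0 : (0 : ℝ) < q := by exact_mod_cast hq1
  have hφ0 : (0 : ℝ) < q.totient := by exact_mod_cast Nat.totient_pos.mpr hq1
  have hlog0 : 0 < Real.log x := by linarith only [hl]
  -- `q / φ q ≤ (DZ z)⁻¹`
  have h5 : (q : ℝ) / q.totient ≤ (DZ z)⁻¹ := by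
    have h6 := NuSmoothAux.prod_apF' (z := z) b0 hq1 hq
    have h7 : ∏ p ∈ Nat.primesLE z, (1 - ((apF b0 q p).card : ℝ) / p) ≤ 1 := by
      refine Finset.prod_le_one (fun p hp => ?_) (fun p hp => ?_)
      · have hp2 := (Nat.mem_primesLE.1 hp).2
        rw [card_apF hp2]
        have hp1 : (1 : ℝ) ≤ p := by exact_mod_cast hp2.one_le
        split_ifs
        · simp
        · push_cast
          have : 1 / (p : ℝ) ≤ 1 := by rw [div_le_one (by linarith only [hp1])]; exact hp1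
          linarith only [this]
      · have : (0 : ℝ) ≤ ((apF b0 q p).card : ℝ) / p := by (clear * -; positivity)
        linarith only [this]
    rw [h6] at h7
    rw [← one_div, le_div_iff₀ hDpos]
    linarith only [h7]
  have hYq : (Y : ℝ) * q ≤ y := by
    have h7 : Y * q ≤ y - b0 := Nat.div_mul_le_self _ _
    have : Y * q ≤ y := by omega
    exact_mod_cast this
  -- the main term
  have h6 : |(Y : ℝ) * q - y| ≤ 2 * q := by
    have h7 := Nat.div_add_mod (y - b0) q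
    rw [← hY] at h7
    have h8 : (y - b0) % q < q := Nat.mod_lt _ hq1
    have h9 : (q * Y + (y - b0) % q : ℕ) = y - b0 := h7
    have h11 : y ≤ Y * q + 2 * q := by
      rw [Nat.mul_comm Y q]; omega
    rw [abs_le]
    constructor
    · have : (y : ℝ) ≤ Y * q + 2 * q := by exact_mod_cast h11
      linarith only [this]
    · have : (0 : ℝ) ≤ 2 * q := by (clear * - hq1; positivity)
      linarith only [hq0, hYq]
  have hYx : (Y : ℝ) ≤ 2 * x / q := by
    rw [le_div_iff₀ hq0]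
    have : (y : ℝ) ≤ 2 * x := by exact_mod_cast hy
    linarith only [hYq, this]
  have hxx : (0 : ℝ) < x := by exact_mod_cast hx1
  have h2' : |N - Y * (DZ z * (q / (q.totient : ℝ)))| ≤
      4 * x / q * (1 / Real.log x ^ (B + 2)) + (x : ℝ) ^ (1 / 20 : ℝ) := by
    refine h2.trans (add_le_add ?_ hk2)
    have h3 : 0 ≤ (((1 : ℕ) : ℝ) * ∑ p ∈ Nat.primesLE z, 1 / (p : ℝ)) ^ (k + 1) / ((k + 1).factorial : ℝ) := by
      (clear * -; positivity)
    have h4 : 2 * (Y : ℝ) ≤ 4 * x / q := by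
      calc 2 * (Y : ℝ) ≤ 2 * (2 * x / q) := by linarith only [hYx]
        _ = 4 * x / q := by ring
    exact mul_le_mul h4 hk1 h3 (by (clear * - hx1 hq1; positivity))
  have h7 : |(DZ z)⁻¹ * N - Y * (q / (q.totient : ℝ))| ≤
      Real.log x * (4 * x / q * (1 / Real.log x ^ (B + 2)) + (x : ℝ) ^ (1 / 20 : ℝ)) := by
    have h8 : (DZ z)⁻¹ * N - Y * (q / (q.totient : ℝ)) =
        (DZ z)⁻¹ * (N - Y * (DZ z * (q / (q.totient : ℝ)))) := by
      field_simp
    rw [h8, abs_mul, abs_of_nonneg hinv]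
    exact mul_le_mul hD h2' (abs_nonneg _) (hinv.trans hD)
  have h8 : |(Y : ℝ) * (q / (q.totient : ℝ)) - y / (q.totient : ℝ)| ≤ 2 * Real.log x := by
    have h9 : (Y : ℝ) * (q / (q.totient : ℝ)) - y / (q.totient : ℝ) =
        (Y * q - y) / (q.totient : ℝ) := by ring
    rw [h9, abs_div, abs_of_pos hφ0]
    calc |(Y : ℝ) * q - y| / (q.totient : ℝ) ≤ 2 * q / (q.totient : ℝ) := by gcongr
      _ = 2 * (q / (q.totient : ℝ)) := by ring
      _ ≤ 2 * Real.log x := by linarith only [hD, h5, h5.trans hD]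
  have h9 : Real.log x * (4 * x / q * (1 / Real.log x ^ (B + 2))) ≤ x / (q * Real.log x ^ B) := by
    have e : Real.log x * (4 * x / q * (1 / Real.log x ^ (B + 2))) =
        x / (q * Real.log x ^ B) * (4 / Real.log x) := by
      rw [pow_add]
      field_simp
    rw [e]
    have h10 : 4 / Real.log x ≤ 1 := by rw [div_le_one hlog0]; exact hl
    exact mul_le_of_le_one_right (by (clear * - hl hx1 hq1; positivity)) h10
  have hpow : (x : ℝ) ^ (1 / 10 : ℝ) = (x : ℝ) ^ (1 / 20 : ℝ) * (x : ℝ) ^ (1 / 20 : ℝ) := by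
    rw [← Real.rpow_add hxx]
    norm_num
  have hp1 : 1 ≤ (x : ℝ) ^ (1 / 20 : ℝ) := by linarith only [hl, hsm]
  have h11 : 3 * Real.log x + Real.log x * (x : ℝ) ^ (1 / 20 : ℝ) ≤ (x : ℝ) ^ (1 / 10 : ℝ) := by
    rw [hpow]
    nlinarith only [hl, hsm]
  calc |∑ n ∈ (Icc 1 y).filter (fun n => n % q = b % q), nuz z n - y / (q.totient : ℝ)|
      ≤ |∑ n ∈ (Icc 1 y).filter (fun n => n % q = b % q), nuz z n - (DZ z)⁻¹ * N| +
        |(DZ z)⁻¹ * N - Y * (q / (q.totient : ℝ))| +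
        |(Y : ℝ) * (q / (q.totient : ℝ)) - y / (q.totient : ℝ)| := by
        refine (abs_sub_le _ ((DZ z)⁻¹ * N) _).trans ?_
        have := abs_sub_le ((DZ z)⁻¹ * N) (Y * (q / (q.totient : ℝ))) (y / (q.totient : ℝ))
        linarith only [this]
    _ ≤ x / (q * Real.log x ^ B) + (x : ℝ) ^ (1 / 10 : ℝ) := by
        have h12 := h1.trans hD
        have h13 : Real.log x * (4 * x / q * (1 / Real.log x ^ (B + 2)) + (x : ℝ) ^ (1 / 20 : ℝ)) =
            Real.log x * (4 * x / q * (1 / Real.log x ^ (B + 2))) +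
              Real.log x * (x : ℝ) ^ (1 / 20 : ℝ) := by ring
        rw [h13] at h7
        linarith only [hD, h1, h7, h8, h9, h11]

end Pool.Agent.VK
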