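import Pool.Agent.Lib.HLT.Defs

/-!
# Replacing `(u + h)^(it)` by a polynomial phase, and averaging over shifts

PROOF SKETCH.
* `taylor_phase`: `(u+h)^(it) = u^(it) exp (i t log (1 + h/u))` and
  `|log (1 + z) - sum_(j < k) (-1)^j z^(j+1)/(j+1)| ≤ 2 z^(k+1)` for `0 ≤ z ≤ 1/2`
  (`Real.abs_log_sub_add_sum_range_le` with `x = -z`); `|e^(iθ) - e^(iθ')| ≤ |θ - θ'|`. By definition
  `2 π α_j h^(j+1) = t (-1)^j (h/u)^(j+1)/(j+1)`.
* `shift_avg`: for every `h` the sums of `F` over `(N, N']` and over `(N + h, N' + h]` differ by at most `2 h`;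
  average over `h = x y`.
-/

set_option autoImplicit false

open Finset

namespace Pool.Agent.VK

open Pool.Agent.HLT

/-- The coefficients of the phase. -/
noncomputable def phc (t u : ℝ) (j : ℕ) : ℝ := (-1) ^ j * t / (2 * Real.pi * (j + 1) * u ^ (j + 1))

namespace TaylorAux

theorem norm_exp_sub (A B : ℝ) :
    ‖Complex.exp (A * Complex.I) - Complex.exp (B * Complex.I)‖ ≤ |A - B| := by
  have e : Complex.exp (A * Complex.I) - Complex.exp (B * Complex.I) =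
      Complex.exp (B * Complex.I) * (Complex.exp (Complex.I * ((A - B : ℝ) : ℂ)) - 1) := by
    rw [mul_sub, mul_one, ← Complex.exp_add]
    congr 2
    push_cast
    ring
  rw [e, norm_mul, Complex.norm_exp_ofReal_mul_I, one_mul]
  exact Real.norm_exp_I_mul_ofReal_sub_one_le

theorem cpow_it {x : ℝ} (hx : 0 < x) (t : ℝ) :
    ((x : ℝ) : ℂ) ^ ((t : ℂ) * Complex.I) = Complex.exp ((t * Real.log x : ℝ) * Complex.I) := by
  have h0 : (x : ℂ) ≠ 0 := by exact_mod_cast hx.ne'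
  rw [Complex.cpow_def_of_ne_zero h0, ← Complex.ofReal_log hx.le]
  congr 1
  push_cast
  ring

theorem log_taylor (k : ℕ) {z : ℝ} (h0 : 0 ≤ z) (h1 : z ≤ 1 / 2) :
    |Real.log (1 + z) - ∑ j ∈ range k, (-1) ^ j * z ^ (j + 1) / (j + 1)| ≤ 2 * z ^ (k + 1) := by
  have h := Real.abs_log_sub_add_sum_range_le (x := -z) (by rw [abs_neg, abs_of_nonneg h0]; linarith) k
  rw [abs_neg, abs_of_nonneg h0, sub_neg_eq_add] at h
  have e : (∑ i ∈ range k, (-z) ^ (i + 1) / ((i : ℝ) + 1)) =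
      -∑ j ∈ range k, (-1) ^ j * z ^ (j + 1) / (j + 1) := by
    rw [← sum_neg_distrib]
    refine sum_congr rfl fun j _ => ?_
    rw [neg_pow, pow_succ (-1 : ℝ) j]
    ring
  rw [e, neg_add_eq_sub] at h
  refine h.trans ?_
  rw [div_le_iff₀ (by linarith)]
  have hz : 0 ≤ z ^ (k + 1) := by positivity
  nlinarith

theorem sum_shift (F : ℕ → ℂ) (hF : ∀ n, ‖F n‖ ≤ 1) (N N' h : ℕ) (hN : N ≤ N') :
    ‖∑ n ∈ Ioc N N', F n - ∑ n ∈ Ioc N N', F (n + h)‖ ≤ 2 * h := by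
  have e : ∑ n ∈ Ioc N N', F (n + h) = ∑ n ∈ Ioc (N + h) (N' + h), F n := by
    rw [← map_add_right_Ioc, sum_map]
    rfl
  have h1 := sum_Ioc_consecutive F hN (Nat.le_add_right N' h)
  have h2 := sum_Ioc_consecutive F (Nat.le_add_right N h) (Nat.add_le_add_right hN h)
  have h3 : ∑ n ∈ Ioc N N', F n - ∑ n ∈ Ioc (N + h) (N' + h), F n =
      ∑ n ∈ Ioc N (N + h), F n - ∑ n ∈ Ioc N' (N' + h), F n := by
    rw [sub_eq_sub_iff_add_eq_add, h1, h2]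
  have h4 : ∀ M : ℕ, ‖∑ n ∈ Ioc M (M + h), F n‖ ≤ h := by
    intro M
    refine (norm_sum_le _ _).trans ((sum_le_sum fun n _ => hF n).trans ?_)
    simp
  rw [e, h3]
  refine (norm_sub_le _ _).trans ?_
  linarith [h4 N, h4 N']

end TaylorAux

open TaylorAux

theorem taylor_phase (k : ℕ) (t u h : ℝ) (hu : 0 < u) (hh : 0 ≤ h) (h2 : h ≤ u / 2) :
    ‖((u + h : ℝ) : ℂ) ^ ((t : ℂ) * Complex.I) -
        ((u : ℝ) : ℂ) ^ ((t : ℂ) * Complex.I) * ex (∑ j : Fin k, phc t u j.val * h ^ (j.val + 1))‖ ≤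
      2 * |t| * (h / u) ^ (k + 1) := by
  set z : ℝ := h / u with hz
  have hz0 : 0 ≤ z := div_nonneg hh hu.le
  have hz1 : z ≤ 1 / 2 := by
    rw [hz, div_le_iff₀ hu]
    linarith
  have huh : u + h = u * (1 + z) := by
    rw [hz]
    field_simp
  have hlog : Real.log (u + h) = Real.log u + Real.log (1 + z) := by
    rw [huh, Real.log_mul hu.ne' (by linarith)]
  have hS : 2 * Real.pi * ∑ j : Fin k, phc t u j.val * h ^ (j.val + 1) =
      t * ∑ j ∈ range k, (-1) ^ j * z ^ (j + 1) / (j + 1) := by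
    rw [← Fin.sum_univ_eq_sum_range (fun j => (-1 : ℝ) ^ j * z ^ (j + 1) / (j + 1)), mul_sum,
      mul_sum]
    refine sum_congr rfl fun j _ => ?_
    unfold phc
    rw [hz, div_pow]
    have h1 := Real.pi_pos.ne'
    have h3 : u ^ (j.val + 1) ≠ 0 := pow_ne_zero _ hu.ne'
    have h4 : ((j.val : ℝ) + 1) ≠ 0 := by positivity
    field_simp
  rw [cpow_it (by linarith) t, cpow_it hu t]
  have e1 : Complex.exp ((t * Real.log u : ℝ) * Complex.I) *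
      ex (∑ j : Fin k, phc t u j.val * h ^ (j.val + 1)) =
      Complex.exp ((t * Real.log u + t * ∑ j ∈ range k, (-1) ^ j * z ^ (j + 1) / (j + 1) : ℝ) *
        Complex.I) := by
    unfold ex
    rw [← Complex.exp_add, ← hS]
    congr 1
    push_cast
    ring
  rw [e1]
  refine (norm_exp_sub _ _).trans ?_
  have e2 : t * Real.log (u + h) -
      (t * Real.log u + t * ∑ j ∈ range k, (-1) ^ j * z ^ (j + 1) / (j + 1)) =
      t * (Real.log (1 + z) - ∑ j ∈ range k, (-1) ^ j * z ^ (j + 1) / (j + 1)) := by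
    rw [hlog]
    ring
  rw [e2, abs_mul]
  have h3 := mul_le_mul_of_nonneg_left (log_taylor k hz0 hz1) (abs_nonneg t)
  linarith

theorem shift_avg (F : ℕ → ℂ) (hF : ∀ n, ‖F n‖ ≤ 1) (N N' X : ℕ) (hN : N ≤ N') (hX : 1 ≤ X) :
    ‖∑ n ∈ Ioc N N', F n‖ ≤
      ((X : ℝ) ^ 2)⁻¹ * ∑ n ∈ Ioc N N', ‖∑ x ∈ Icc 1 X, ∑ y ∈ Icc 1 X, F (n + x * y)‖ + 2 * (X : ℝ) ^ 2 := by
  have hX0 : (0 : ℝ) < X := by exact_mod_cast hX
  set S : ℂ := ∑ n ∈ Ioc N N', F n with hS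
  have h1 : ∑ x ∈ Icc 1 X, ∑ y ∈ Icc 1 X, (S - ∑ n ∈ Ioc N N', F (n + x * y)) =
      ((X : ℂ) ^ 2) * S - ∑ n ∈ Ioc N N', ∑ x ∈ Icc 1 X, ∑ y ∈ Icc 1 X, F (n + x * y) := by
    simp only [sum_sub_distrib, sum_const, Nat.card_Icc, Nat.add_sub_cancel, nsmul_eq_mul]
    congr 1
    · ring
    · rw [sum_comm]
      have : ∀ y ∈ Icc 1 X, ∑ x ∈ Icc 1 X, ∑ n ∈ Ioc N N', F (n + x * y) =
          ∑ n ∈ Ioc N N', ∑ x ∈ Icc 1 X, F (n + x * y) := fun y _ => sum_comm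
      rw [sum_congr rfl this, sum_comm]
      refine sum_congr rfl fun n _ => ?_
      rw [sum_comm]
  have h2 : ‖∑ x ∈ Icc 1 X, ∑ y ∈ Icc 1 X, (S - ∑ n ∈ Ioc N N', F (n + x * y))‖ ≤
      2 * (X : ℝ) ^ 4 := by
    have h3 : ∀ x ∈ Icc 1 X, ∀ y ∈ Icc 1 X, ‖S - ∑ n ∈ Ioc N N', F (n + x * y)‖ ≤
        2 * (X : ℝ) ^ 2 := by
      intro x hx y hy
      refine (sum_shift F hF N N' (x * y) hN).trans ?_
      have h4 : (x : ℝ) ≤ X := by exact_mod_cast (mem_Icc.1 hx).2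
      have h5 : (y : ℝ) ≤ X := by exact_mod_cast (mem_Icc.1 hy).2
      have h6 : (0 : ℝ) ≤ y := Nat.cast_nonneg _
      push_cast
      nlinarith
    refine (norm_sum_le _ _).trans ?_
    have h7 : ∀ x ∈ Icc 1 X, ‖∑ y ∈ Icc 1 X, (S - ∑ n ∈ Ioc N N', F (n + x * y))‖ ≤
        X * (2 * (X : ℝ) ^ 2) := by
      intro x hx
      refine (norm_sum_le _ _).trans ((sum_le_sum fun y hy => h3 x hx y hy).trans ?_)
      simp
    refine (sum_le_sum h7).trans ?_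
    simp only [sum_const, Nat.card_Icc, Nat.add_sub_cancel, nsmul_eq_mul]
    apply le_of_eq
    ring
  rw [h1] at h2
  have h8 : (X : ℝ) ^ 2 * ‖S‖ ≤
      ∑ n ∈ Ioc N N', ‖∑ x ∈ Icc 1 X, ∑ y ∈ Icc 1 X, F (n + x * y)‖ + 2 * (X : ℝ) ^ 4 := by
    have h9 : ‖((X : ℂ) ^ 2) * S‖ = (X : ℝ) ^ 2 * ‖S‖ := by
      rw [norm_mul, norm_pow, Complex.norm_natCast]
    rw [← h9]
    have h10 := norm_sum_le (Ioc N N') (fun n => ∑ x ∈ Icc 1 X, ∑ y ∈ Icc 1 X, F (n + x * y))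
    have h11 : ‖((X : ℂ) ^ 2) * S‖ ≤ ‖((X : ℂ) ^ 2) * S -
        ∑ n ∈ Ioc N N', ∑ x ∈ Icc 1 X, ∑ y ∈ Icc 1 X, F (n + x * y)‖ +
        ‖∑ n ∈ Ioc N N', ∑ x ∈ Icc 1 X, ∑ y ∈ Icc 1 X, F (n + x * y)‖ := by
      have := norm_add_le (((X : ℂ) ^ 2) * S -
        ∑ n ∈ Ioc N N', ∑ x ∈ Icc 1 X, ∑ y ∈ Icc 1 X, F (n + x * y))
        (∑ n ∈ Ioc N N', ∑ x ∈ Icc 1 X, ∑ y ∈ Icc 1 X, F (n + x * y))
      rwa [sub_add_cancel] at this
    linarith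
  have hX2 : (0 : ℝ) < (X : ℝ) ^ 2 := by positivity
  have h12 : ‖S‖ ≤ ((X : ℝ) ^ 2)⁻¹ *
      (∑ n ∈ Ioc N N', ‖∑ x ∈ Icc 1 X, ∑ y ∈ Icc 1 X, F (n + x * y)‖ + 2 * (X : ℝ) ^ 4) := by
    rw [inv_mul_eq_div, le_div_iff₀ hX2, mul_comm]
    exact h8
  refine h12.trans (le_of_eq ?_)
  rw [mul_add]
  congr 1
  field_simp

end Pool.Agent.VK
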