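import Pool.Agent.Lib.VK.Induct

/-!
# Vinogradov's mean value theorem

PROOF SKETCH. `vmvt_ind` with `l = k^2` (so `k * l = k^3`). `(1-1/k)^(k^2-1) ≤ exp (-(k^2-1)/k) ≤ exp (1 - k)`, and
`(k(k+1)/2) exp (1-k) ≤ 1/100` for `k ≥ 12` (e.g. `exp (k - 1) ≥ (k-1)^6/720 · ...` or `exp y ≥ y^8/8!` for `y ≥ 11`, or induction on
`k`). `(64k^4)^(k^5) = exp (k^5 log (64 k^4)) ≤ exp (10 k^6)` (`log (64 k^4) ≤ 4 (3 + log k) ≤ 10 k`, using
`log k ≤ k - 1`: `log 64 + 4 log k ≤ 4.2 + 4 (k - 1) ≤ 10 k`). `X ≥ 1` and the exponent is monotone.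
-/

set_option autoImplicit false

open Finset

namespace Pool.Agent.VK

namespace VmvtAux

theorem exp_ge (m : ℕ) : 50 * ((m : ℝ) + 12) * (m + 13) ≤ Real.exp (m + 11) := by
  induction m with
  | zero =>
    have h1 : (2.7 : ℝ) ≤ Real.exp 1 := by
      have := Real.exp_one_gt_d9
      linarith
    have h2 : Real.exp ((0 : ℕ) + 11) = Real.exp 1 ^ 11 := by
      rw [← Real.exp_nat_mul]
      norm_num
    rw [h2]
    have h3 : (2.7 : ℝ) ^ 11 ≤ Real.exp 1 ^ 11 := pow_le_pow_left₀ (by norm_num) h1 11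
    refine le_trans ?_ h3
    norm_num
  | succ m ih =>
    have h1 : (2 : ℝ) ≤ Real.exp 1 := by
      have := Real.exp_one_gt_d9
      linarith
    have h2 : Real.exp ((m + 1 : ℕ) + 11) = Real.exp (m + 11) * Real.exp 1 := by
      rw [← Real.exp_add]
      congr 1
      push_cast
      ring
    rw [h2]
    have h0 : (0 : ℝ) ≤ m := Nat.cast_nonneg _
    have h3 : 50 * ((m : ℝ) + 12) * (m + 13) * 2 ≤ Real.exp (m + 11) * Real.exp 1 :=
      mul_le_mul ih h1 (by norm_num) (Real.exp_pos _).le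
    push_cast
    nlinarith

theorem small (k : ℕ) (hk : 12 ≤ k) :
    ((k : ℝ) * (k + 1) / 2) * (1 - 1 / (k : ℝ)) ^ (k ^ 2 - 1) ≤ 1 / 100 := by
  have hk0 : (12 : ℝ) ≤ k := by exact_mod_cast hk
  have h1 : (0 : ℝ) ≤ 1 - 1 / (k : ℝ) := by
    rw [sub_nonneg, div_le_one (by linarith)]
    linarith
  have h2 : 1 - 1 / (k : ℝ) ≤ Real.exp (-(1 / (k : ℝ))) := by
    have := Real.add_one_le_exp (-(1 / (k : ℝ)))
    linarith
  have h3 : (1 - 1 / (k : ℝ)) ^ (k ^ 2 - 1) ≤ Real.exp (1 - k) := by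
    refine (pow_le_pow_left₀ h1 h2 _).trans ?_
    rw [← Real.exp_nat_mul]
    refine Real.exp_le_exp.2 ?_
    have h4 : ((k ^ 2 - 1 : ℕ) : ℝ) = (k : ℝ) ^ 2 - 1 := by
      rw [Nat.cast_sub (Nat.one_le_pow _ _ (by omega))]
      push_cast
      ring
    rw [h4]
    have h5 : ((k : ℝ) ^ 2 - 1) * -(1 / (k : ℝ)) = 1 / (k : ℝ) - k := by
      field_simp
      ring
    rw [h5]
    have : 1 / (k : ℝ) ≤ 1 := by
      rw [div_le_one (by linarith)]
      linarith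
    linarith
  have h6 := exp_ge (k - 12)
  rw [Nat.cast_sub hk] at h6
  push_cast at h6
  have e1 : ((k : ℝ) - 12 + 12) = k := by ring
  have e2 : ((k : ℝ) - 12 + 13) = k + 1 := by ring
  have e3 : ((k : ℝ) - 12 + 11) = k - 1 := by ring
  rw [e1, e2, e3] at h6
  have h7 : Real.exp (1 - k) * Real.exp (k - 1) = 1 := by
    rw [← Real.exp_add]
    simp
  have h8 : 0 < Real.exp (1 - (k : ℝ)) := Real.exp_pos _
  have h9 : ((k : ℝ) * (k + 1) / 2) * (1 - 1 / (k : ℝ)) ^ (k ^ 2 - 1) ≤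
      ((k : ℝ) * (k + 1) / 2) * Real.exp (1 - k) := by
    apply mul_le_mul_of_nonneg_left h3
    positivity
  refine h9.trans ?_
  have h10 : (50 * (k : ℝ) * (k + 1)) * Real.exp (1 - k) ≤ Real.exp (k - 1) * Real.exp (1 - k) :=
    mul_le_mul_of_nonneg_right h6 h8.le
  rw [mul_comm (Real.exp ((k : ℝ) - 1)), h7] at h10
  linarith

theorem const (k : ℕ) (hk : 12 ≤ k) :
    (64 * (k : ℝ) ^ 4) ^ (k ^ 3 * k ^ 2) ≤ Real.exp (10 * (k : ℝ) ^ 6) := by
  have hk0 : (12 : ℝ) ≤ k := by exact_mod_cast hk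
  have h1 : 64 * (k : ℝ) ^ 4 ≤ Real.exp (10 * k) := by
    have e : Real.exp (10 * (k : ℝ)) = Real.exp (6 * k) * Real.exp k ^ 4 := by
      rw [← Real.exp_nat_mul, ← Real.exp_add]
      congr 1
      push_cast
      ring
    rw [e]
    refine mul_le_mul ?_ ?_ (by positivity) (Real.exp_pos _).le
    · have := Real.add_one_le_exp (6 * (k : ℝ))
      linarith
    · refine pow_le_pow_left₀ (by linarith) ?_ 4
      have := Real.add_one_le_exp (k : ℝ)
      linarith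
  refine (pow_le_pow_left₀ (by positivity) h1 _).trans ?_
  rw [← Real.exp_nat_mul]
  refine le_of_eq ?_
  congr 1
  push_cast
  ring

end VmvtAux

open VmvtAux

theorem vmvt (k : ℕ) (hk : 12 ≤ k) (X : ℕ) (hX : 1 ≤ X) :
    (J (k ^ 3) k X : ℝ) ≤ Real.exp (10 * (k : ℝ) ^ 6) *
      (X : ℝ) ^ (2 * (k : ℝ) ^ 3 - k * (k + 1) / 2 + 1 / 100) := by
  have h := vmvt_ind k (by omega) (k ^ 2) (Nat.one_le_pow _ _ (by omega)) le_rfl X hX
  have e : k * k ^ 2 = k ^ 3 := by ring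
  rw [e] at h
  refine h.trans ?_
  have hX1 : (1 : ℝ) ≤ X := by exact_mod_cast hX
  refine mul_le_mul (const k hk) ?_ (by positivity) (Real.exp_pos _).le
  refine Real.rpow_le_rpow_of_exponent_le hX1 ?_
  have h1 := small k hk
  push_cast
  nlinarith

end Pool.Agent.VK
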