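import Pool.Agent.Lib.VK.Bilin
import Pool.Agent.Lib.VK.GeoOne
import Pool.Agent.Lib.VK.Taylor
import Pool.Agent.Lib.VK.Vmvt

/-!
# The bilinear sum at one point

PROOF SKETCH. `X = ⌊M^(2/5)⌋₊`, `k = 5K + 12`, `s = k^3`, `u` in `[M, 4M]`, `α_j = phc t u j`. The statement is trivial if
`M` is bounded by an absolute constant (choose `C` large), so assume `M` large.
Let `j0 ≥ 1` be the least natural number with `|t| ≤ M^(j0 - 1/10)`; as `|t| ≤ M^K`, `j0 ≤ K + 1 ≤ k`. The index of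
degree `j0` is `j = j0 - 1 : Fin k`. Then `0 < |α| = |t| / (2 π j0 u^j0) ≤ M^(-1/10)`, and `|α|⁻¹ = 2 π j0 u^j0/|t|` is at most
`8 π M^(1/2)` if `j0 = 1` (as `|t| ≥ M^(1/2)`) and at most `2 π j0 4^j0 M^(11/10)` if `j0 ≥ 2` (as `|t| > M^(j0 - 11/10)`).
In `bilin` bound the factors of the other degrees trivially: a sum of `2 s X^j + 1` terms, each
`≤ 2 s X^j + 1 ≤ 3 s X^j` (`mn_le_left`), and the factor of degree `j0` by `sum_mn_small`, `V = s X^j0`, by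
`C (s X^j0 |α| + 1) (3 s X^j0 + |α|⁻¹ log (2+|α|⁻¹)) ≤ C' s^2 X^(2 j0) E log (2+|α|⁻¹)`,
`E = |α| + X^(-j0) + |α|⁻¹ X^(-2 j0) ≤ exp (C K) M^(-1/10)` (`X ≥ M^(2/5)/2`; for `j0 = 1`: `|α|⁻¹ X^(-2) ≤ C M^(1/2 - 4/5)`; for
`j0 ≥ 2`: `|α|⁻¹ X^(-2 j0) ≤ exp (C K) M^(11/10 - 8/5)`), `log (2+|α|⁻¹) ≤ C K (1 + log M)`. The product of all `X^(2j)` is `X^(k(k+1))`.
With `vmvt`: `J^2 ≤ exp (20 k^6) X^(4s - k(k+1) + 1/50)`. Altogether
`‖U‖^(4s^2) ≤ X^(8 s^2) exp (C k^6) (1 + log M) X^(1/50) M^(-1/10) ≤ X^(8s^2) exp (C k^6) M^(-1/20)`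
(`X^(1/50) ≤ M^(1/125)`, `(3s)^(2k) ≤ exp (C k^6)`, `1 + log M ≤ 100 M^(1/100)`), and taking the `4 s^2 = 4 k^6`-th root:
`‖U‖ ≤ C X^2 M^(-1/(80 k^6))`, `k ≤ 17 K`.
-/

set_option autoImplicit false

open Finset

namespace Pool.Agent.VK

open Pool.Agent.HLT

namespace OnePointAux

/-- Choice of the degree. -/
lemma exists_deg {K : ℕ} {m τ : ℝ} (hm : 1 ≤ m) (h2 : τ ≤ m ^ K) :
    ∃ j : ℕ, j ≤ K ∧ τ ≤ m ^ ((j : ℝ) + 9 / 10) ∧ (1 ≤ j → m ^ ((j : ℝ) - 1 / 10) < τ) := by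
  classical
  have hex : ∃ j : ℕ, τ ≤ m ^ ((j : ℝ) + 9 / 10) := by
    refine ⟨K, h2.trans ?_⟩
    rw [← Real.rpow_natCast m K]
    exact Real.rpow_le_rpow_of_exponent_le hm (by linarith)
  refine ⟨Nat.find hex, ?_, Nat.find_spec hex, ?_⟩
  · refine Nat.find_min' hex (h2.trans ?_)
    rw [← Real.rpow_natCast m K]
    exact Real.rpow_le_rpow_of_exponent_le hm (by linarith)
  · intro hj
    have h3 := Nat.find_min hex (m := Nat.find hex - 1) (by omega)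
    rw [not_le] at h3
    have h4 : (((Nat.find hex - 1 : ℕ) : ℝ)) = (Nat.find hex : ℝ) - 1 := by
      rw [Nat.cast_sub hj]; simp
    rw [h4] at h3
    have h5 : (Nat.find hex : ℝ) - 1 + 9 / 10 = (Nat.find hex : ℝ) - 1 / 10 := by ring
    rw [h5] at h3
    exact h3

lemma abs_phc {t u : ℝ} (hu : 0 < u) (j : ℕ) :
    |phc t u j| = |t| / (2 * Real.pi * (j + 1) * u ^ (j + 1)) := by
  unfold phc
  rw [abs_div, abs_mul, abs_pow, abs_neg, abs_one, one_pow, one_mul]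
  congr 1
  rw [abs_of_pos]
  positivity

/-- The coefficient of the chosen degree. -/
lemma coeff_bounds {K j : ℕ} {m u τ X : ℝ} (hm : 1 ≤ m) (hu1 : m ≤ u) (hu2 : u ≤ 4 * m)
    (hτ : m ^ (1 / 2 : ℝ) ≤ τ) (hjK : j ≤ K) (h1 : τ ≤ m ^ ((j : ℝ) + 9 / 10))
    (h2 : 1 ≤ j → m ^ ((j : ℝ) - 1 / 10) < τ) (hX : m ^ (2 / 5 : ℝ) / 2 ≤ X) :
    0 < τ / (2 * Real.pi * (j + 1) * u ^ (j + 1)) ∧
    τ / (2 * Real.pi * (j + 1) * u ^ (j + 1)) ≤ m ^ (-(1 / 10) : ℝ) ∧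
    (τ / (2 * Real.pi * (j + 1) * u ^ (j + 1)))⁻¹ ≤ 7 * (K + 1) * (4 * m) ^ (K + 1) ∧
    (τ / (2 * Real.pi * (j + 1) * u ^ (j + 1)))⁻¹ / X ^ (2 * (j + 1)) ≤
      7 * (K + 1) * 16 ^ (K + 1) * m ^ (-(1 / 10) : ℝ) := by
  have hm0 : 0 < m := by linarith
  have hu0 : 0 < u := by linarith
  have h3 : (1 : ℝ) ≤ m ^ (1 / 2 : ℝ) := Real.one_le_rpow hm (by norm_num)
  have hτ1 : 1 ≤ τ := h3.trans hτ
  have hτ0 : 0 < τ := by linarith only [hτ, h3]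
  have hpi := Real.pi_pos
  have hpi3 := Real.pi_gt_three
  have hpi4 := Real.pi_lt_d2
  have hj0 : (0 : ℝ) ≤ j := Nat.cast_nonneg j
  have hjK' : (j : ℝ) ≤ K := by exact_mod_cast hjK
  have hden : 0 < 2 * Real.pi * (j + 1) * u ^ (j + 1) := by positivity
  have hXpos : 0 < X := lt_of_lt_of_le (by positivity) hX
  refine ⟨by positivity, ?_, ?_, ?_⟩
  · rw [div_le_iff₀ hden]
    have h4 : m ^ (j + 1) ≤ u ^ (j + 1) := pow_le_pow_left₀ hm0.le hu1 _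
    have h5 : m ^ ((j : ℝ) + 9 / 10) = m ^ (-(1 / 10) : ℝ) * m ^ (j + 1) := by
      rw [← Real.rpow_natCast m (j + 1), ← Real.rpow_add hm0]
      congr 1
      push_cast
      ring
    refine h1.trans ?_
    rw [h5]
    refine mul_le_mul_of_nonneg_left ?_ (by positivity)
    refine h4.trans ?_
    have h6 : (1 : ℝ) ≤ 2 * Real.pi * (j + 1) := by nlinarith only [hpi, hpi3, hpi4]
    exact le_mul_of_one_le_left (by positivity) h6
  · rw [inv_div]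
    have h4 : u ^ (j + 1) ≤ (4 * m) ^ (K + 1) := by
      refine (pow_le_pow_left₀ hu0.le hu2 _).trans ?_
      exact pow_le_pow_right₀ (by linarith only [hm, hpi3, hpi4]) (by omega)
    have h5 : 2 * Real.pi * (j + 1) ≤ 7 * (K + 1) := by nlinarith only [hpi3, hpi4, hjK']
    rw [div_le_iff₀ hτ0]
    calc 2 * Real.pi * (j + 1) * u ^ (j + 1) ≤ 7 * (K + 1) * (4 * m) ^ (K + 1) := by
          refine mul_le_mul h5 h4 (by positivity) (by positivity)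
      _ ≤ 7 * (K + 1) * (4 * m) ^ (K + 1) * τ := le_mul_of_one_le_right (by positivity) hτ1
  · rw [inv_div]
    -- `X^(2(j+1)) ≥ m^(4(j+1)/5) / 4^(j+1)`
    have hY0 : 0 < m ^ (2 / 5 : ℝ) := by positivity
    have h4 : (m ^ (2 / 5 : ℝ) / 2) ^ (2 * (j + 1)) ≤ X ^ (2 * (j + 1)) :=
      pow_le_pow_left₀ (by positivity) hX _
    have h5 : (m ^ (2 / 5 : ℝ) / 2) ^ (2 * (j + 1)) = m ^ (4 / 5 * ((j : ℝ) + 1)) / 4 ^ (j + 1) := by
      rw [div_pow, ← Real.rpow_natCast (m ^ (2 / 5 : ℝ)), ← Real.rpow_mul hm0.le]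
      congr 1
      · congr 1
        push_cast
        ring
      · rw [pow_mul]
        norm_num
    rw [h5] at h4
    have h6 : u ^ (j + 1) ≤ (4 * m) ^ (j + 1) := pow_le_pow_left₀ hu0.le hu2 _
    -- `1 / τ`
    have h7 : m ^ (1 / 5 * ((j : ℝ) + 1)) ≤ m ^ (-(1 / 10) : ℝ) * τ := by
      rcases Nat.eq_zero_or_pos j with hj | hj
      · subst hj
        have h8 : m ^ (-(1 / 10) : ℝ) * m ^ (1 / 2 : ℝ) ≤ m ^ (-(1 / 10) : ℝ) * τ :=
          mul_le_mul_of_nonneg_left hτ (by positivity)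
        refine le_trans ?_ h8
        rw [← Real.rpow_add hm0]
        exact Real.rpow_le_rpow_of_exponent_le hm (by norm_num)
      · have h8 : m ^ (-(1 / 10) : ℝ) * m ^ ((j : ℝ) - 1 / 10) ≤ m ^ (-(1 / 10) : ℝ) * τ :=
          mul_le_mul_of_nonneg_left (h2 hj).le (by (clear * - hm; positivity))
        refine le_trans ?_ h8
        rw [← Real.rpow_add hm0]
        have hj1 : (1 : ℝ) ≤ j := by exact_mod_cast hj
        exact Real.rpow_le_rpow_of_exponent_le hm (by linarith only [hpi3, hpi4, hj1])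
    rw [div_div, div_le_iff₀ (by (clear * - hτ1 hXpos; positivity))]
    have h9 : 2 * Real.pi * (j + 1) ≤ 7 * (K + 1) := by nlinarith only [hpi3, hpi4, hjK']
    have h10 : (16 : ℝ) ^ (j + 1) ≤ 16 ^ (K + 1) := pow_le_pow_right₀ (by norm_num) (by omega)
    calc 2 * Real.pi * (j + 1) * u ^ (j + 1) ≤ 7 * (K + 1) * (4 * m) ^ (j + 1) := by
          refine mul_le_mul h9 h6 (by (clear * - hu0; positivity)) (by (clear * -; positivity))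
      _ = 7 * (K + 1) * 16 ^ (j + 1) * (m ^ (1 / 5 * ((j : ℝ) + 1)) *
            (m ^ (4 / 5 * ((j : ℝ) + 1)) / 4 ^ (j + 1))) := by
          have e1 : m ^ (1 / 5 * ((j : ℝ) + 1)) * m ^ (4 / 5 * ((j : ℝ) + 1)) = m ^ (j + 1) := by
            rw [← Real.rpow_add hm0, ← Real.rpow_natCast m (j + 1)]
            congr 1
            push_cast
            ring
          have e2 : (16 : ℝ) ^ (j + 1) = 4 ^ (j + 1) * 4 ^ (j + 1) := by
            rw [← mul_pow]; norm_num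
          have e3 : (4 : ℝ) ^ (j + 1) ≠ 0 := by (clear * -; positivity)
          rw [← mul_div_assoc, e1, e2, mul_pow]
          field_simp
      _ ≤ 7 * (K + 1) * 16 ^ (K + 1) * ((m ^ (-(1 / 10) : ℝ) * τ) * X ^ (2 * (j + 1))) := by
          gcongr
      _ = 7 * (K + 1) * 16 ^ (K + 1) * m ^ (-(1 / 10) : ℝ) * (τ * X ^ (2 * (j + 1))) := by ring

/-- The factor of the chosen degree. -/
lemma factor_bound {V a X Λ : ℝ} {d : ℕ} (hd : 1 ≤ d) (ha : 0 < a) (hX : 1 ≤ X)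
    (hV : X ^ d ≤ V) (hΛ : 1 / 2 ≤ Λ) :
    (V * a + 1) * ((2 * V + 1) + a⁻¹ * Λ) ≤
      (3 * V) ^ 2 * (Λ * (a + X⁻¹ + a⁻¹ / X ^ (2 * d))) := by
  have hX0 : 0 < X := by linarith
  have h1 : (1 : ℝ) ≤ X ^ d := one_le_pow₀ hX
  have hV1 : 1 ≤ V := h1.trans hV
  have hV0 : 0 < V := by linarith
  have h2 : X ≤ V := by
    refine le_trans ?_ hV
    exact le_self_pow₀ hX (by omega)
  have h3 : V⁻¹ ≤ X⁻¹ := inv_anti₀ hX0 h2
  have h4 : a⁻¹ / V ^ 2 ≤ a⁻¹ / X ^ (2 * d) := by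
    refine div_le_div_of_nonneg_left (by positivity) (by positivity) ?_
    rw [mul_comm 2 d, pow_mul]
    exact pow_le_pow_left₀ (by positivity) hV 2
  have h5 : (V * a + 1) * ((2 * V + 1) + a⁻¹ * Λ) ≤ (V * a + 1) * (3 * V + a⁻¹ * Λ) := by
    refine mul_le_mul_of_nonneg_left (by linarith only [hV, h1]) (by positivity)
  refine h5.trans ?_
  have h6 : (V * a + 1) * (3 * V + a⁻¹ * Λ) ≤
      (3 * V) ^ 2 * (Λ * (a + V⁻¹ + a⁻¹ / V ^ 2)) := by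
    have e1 : (V * a + 1) * (3 * V + a⁻¹ * Λ) = 3 * V ^ 2 * a + V * Λ + 3 * V + a⁻¹ * Λ := by
      field_simp
      ring
    have e2 : (3 * V) ^ 2 * (Λ * (a + V⁻¹ + a⁻¹ / V ^ 2)) =
        9 * Λ * (V ^ 2 * a) + 9 * Λ * V + 9 * (a⁻¹ * Λ) := by
      field_simp
      ring
    rw [e1, e2]
    have h7 : 0 ≤ a⁻¹ * Λ := by positivity
    have h8 : 0 ≤ V ^ 2 * a := by positivity
    nlinarith only [hV, hΛ, h1, hV0, h7, h8, mul_nonneg (by linarith only [hΛ] : (0 : ℝ) ≤ Λ - 1 / 2) h8,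
      mul_nonneg (by linarith only [hΛ] : (0 : ℝ) ≤ Λ - 1 / 2) hV0.le]
  refine h6.trans ?_
  have hΛ0 : 0 ≤ Λ := by linarith only [hΛ]
  gcongr

/-- Trivial bound for one factor. -/
lemma factor_trivial (V : ℕ) (hV : 1 ≤ V) (α : ℝ) :
    ∑ w ∈ Icc (-(V : ℤ)) (V : ℤ), mn (2 * (V : ℝ) + 1) (α * w) ≤ (3 * (V : ℝ)) ^ 2 := by
  have hV' : (1 : ℝ) ≤ V := by exact_mod_cast hV
  calc ∑ w ∈ Icc (-(V : ℤ)) (V : ℤ), mn (2 * (V : ℝ) + 1) (α * w)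
      ≤ ∑ w ∈ Icc (-(V : ℤ)) (V : ℤ), (2 * (V : ℝ) + 1) :=
        Finset.sum_le_sum fun w _ => mn_le_left (by positivity) _
    _ = (2 * (V : ℝ) + 1) * (2 * (V : ℝ) + 1) := by
        rw [Finset.sum_const, Int.card_Icc, nsmul_eq_mul]
        congr 1
        have : ((V : ℤ) + 1 - -(V : ℤ)).toNat = 2 * V + 1 := by omega
        rw [this]
        push_cast
        ring
    _ ≤ (3 * (V : ℝ)) ^ 2 := by nlinarith

lemma factor_nonneg (V : ℕ) (α : ℝ) :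
    0 ≤ ∑ w ∈ Icc (-(V : ℤ)) (V : ℤ), mn (2 * (V : ℝ) + 1) (α * w) :=
  Finset.sum_nonneg fun w _ => mn_nonneg (by positivity) _

lemma sum_deg (k : ℕ) : ∑ j : Fin k, 2 * (j.val + 1) = k * (k + 1) := by
  rw [Fin.sum_univ_eq_sum_range (fun j => 2 * (j + 1)) k]
  induction k with
  | zero => simp
  | succ k ih => rw [Finset.sum_range_succ, ih]; ring

lemma prod_main (k s X : ℕ) :
    ∏ j : Fin k, (3 * ((s * X ^ (j.val + 1) : ℕ) : ℝ)) ^ 2 =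
      (9 * (s : ℝ) ^ 2) ^ k * (X : ℝ) ^ (k * (k + 1)) := by
  have h1 : ∀ j : Fin k, (3 * ((s * X ^ (j.val + 1) : ℕ) : ℝ)) ^ 2 =
      (9 * (s : ℝ) ^ 2) * (X : ℝ) ^ (2 * (j.val + 1)) := by
    intro j
    push_cast
    rw [mul_comm 2 (j.val + 1), pow_mul]
    ring
  rw [Finset.prod_congr rfl fun j _ => h1 j, Finset.prod_mul_distrib, Finset.prod_const,
    Finset.card_univ, Fintype.card_fin, Finset.prod_pow_eq_pow_sum, sum_deg]

/-- The product over the degrees. -/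
lemma prod_bound {k : ℕ} (S V : Fin k → ℝ) (j₀ : Fin k) (e : ℝ) (h0 : ∀ j, 0 ≤ S j)
    (h1 : ∀ j, S j ≤ V j) (h2 : S j₀ ≤ V j₀ * e) :
    ∏ j, S j ≤ (∏ j, V j) * e := by
  rw [← Finset.mul_prod_erase univ S (Finset.mem_univ j₀),
    ← Finset.mul_prod_erase univ V (Finset.mem_univ j₀)]
  have h3 : ∏ j ∈ univ.erase j₀, S j ≤ ∏ j ∈ univ.erase j₀, V j :=
    Finset.prod_le_prod (fun j _ => h0 j) (fun j _ => h1 j)
  have h4 : 0 ≤ ∏ j ∈ univ.erase j₀, S j := Finset.prod_nonneg fun j _ => h0 j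
  calc S j₀ * ∏ j ∈ univ.erase j₀, S j ≤ (V j₀ * e) * ∏ j ∈ univ.erase j₀, V j :=
        mul_le_mul h2 h3 h4 ((h0 j₀).trans h2)
    _ = V j₀ * (∏ j ∈ univ.erase j₀, V j) * e := by ring

/-- Taking the root. -/
lemma root_step {P x m C2 : ℝ} {k : ℕ} (hk : 1 ≤ k) (hm : 1 ≤ m)
    (h : P ^ (4 * k ^ 6) ≤ x ^ (8 * k ^ 6) * Real.exp (C2 * (k : ℝ) ^ 6) * m ^ (-(1 / 20) : ℝ)) :
    P ≤ x ^ 2 * Real.exp (C2 / 4) * m ^ (-(1 / (80 * (k : ℝ) ^ 6))) := by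
  have hm0 : 0 < m := by linarith
  have hk0 : (0 : ℝ) < k := by exact_mod_cast hk
  have hN : 4 * k ^ 6 ≠ 0 := by positivity
  refine le_of_pow_le_pow_left₀ hN (by positivity) (h.trans (le_of_eq ?_))
  rw [mul_pow, mul_pow, ← pow_mul, ← Real.exp_nat_mul, ← Real.rpow_natCast (m ^ _),
    ← Real.rpow_mul hm0.le]
  congr 1
  · congr 1
    · congr 1; ring
    · congr 1; push_cast; ring
  · congr 1
    push_cast
    field_simp
    norm_num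

lemma const_bound {C1 : ℝ} (hC1 : 1 ≤ C1) {k : ℕ} (hk : 1 ≤ k) :
    Real.exp (20 * (k : ℝ) ^ 6) * (9 * ((k : ℝ) ^ 3) ^ 2) ^ k *
      (C1 * (12000 * (k : ℝ) ^ 2 * 16 ^ k)) ≤
      Real.exp ((34 + Real.log (12000 * C1)) * (k : ℝ) ^ 6) := by
  have hk1 : (1 : ℝ) ≤ k := by exact_mod_cast hk
  have hk0 : (0 : ℝ) < k := by linarith
  have hke : (k : ℝ) ≤ Real.exp k := by
    have := Real.add_one_le_exp (k : ℝ)
    linarith
  have hk26 : (k : ℝ) ^ 2 ≤ (k : ℝ) ^ 6 := pow_le_pow_right₀ hk1 (by norm_num)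
  have hk16 : (k : ℝ) ≤ (k : ℝ) ^ 6 := le_self_pow₀ hk1 (by norm_num)
  have h16 : (1 : ℝ) ≤ (k : ℝ) ^ 6 := one_le_pow₀ hk1
  have he3 : (16 : ℝ) ≤ Real.exp 3 := by
    have h := Real.exp_one_gt_d9
    have h2 : Real.exp 3 = Real.exp 1 ^ 3 := by rw [← Real.exp_nat_mul]; norm_num
    rw [h2]
    calc (16 : ℝ) ≤ 2.7 ^ 3 := by norm_num
      _ ≤ Real.exp 1 ^ 3 := pow_le_pow_left₀ (by norm_num) (by linarith) 3
  have a1 : (9 * ((k : ℝ) ^ 3) ^ 2) ^ k ≤ Real.exp (9 * (k : ℝ) ^ 6) := by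
    have b1 : 9 * ((k : ℝ) ^ 3) ^ 2 ≤ Real.exp (9 * k) := by
      have b2 : (9 : ℝ) ≤ Real.exp (3 * k) := by
        calc (9 : ℝ) ≤ 16 := by norm_num
          _ ≤ Real.exp 3 := he3
          _ ≤ Real.exp (3 * k) := Real.exp_le_exp.2 (by linarith)
      have b3 : ((k : ℝ) ^ 3) ^ 2 ≤ Real.exp (6 * k) := by
        rw [← pow_mul]
        calc (k : ℝ) ^ (3 * 2) ≤ Real.exp k ^ (3 * 2) := pow_le_pow_left₀ hk0.le hke _
          _ = Real.exp (6 * k) := by rw [← Real.exp_nat_mul]; norm_num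
      calc 9 * ((k : ℝ) ^ 3) ^ 2 ≤ Real.exp (3 * k) * Real.exp (6 * k) :=
            mul_le_mul b2 b3 (by positivity) (by positivity)
        _ = Real.exp (9 * k) := by rw [← Real.exp_add]; congr 1; ring
    calc (9 * ((k : ℝ) ^ 3) ^ 2) ^ k ≤ Real.exp (9 * k) ^ k :=
          pow_le_pow_left₀ (by positivity) b1 _
      _ = Real.exp (9 * (k : ℝ) ^ 2) := by rw [← Real.exp_nat_mul]; congr 1; ring
      _ ≤ Real.exp (9 * (k : ℝ) ^ 6) := Real.exp_le_exp.2 (by linarith)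
  have a2 : (k : ℝ) ^ 2 ≤ Real.exp (2 * (k : ℝ) ^ 6) := by
    calc (k : ℝ) ^ 2 ≤ Real.exp k ^ 2 := pow_le_pow_left₀ hk0.le hke _
      _ = Real.exp (2 * k) := by rw [← Real.exp_nat_mul]; norm_num
      _ ≤ Real.exp (2 * (k : ℝ) ^ 6) := Real.exp_le_exp.2 (by linarith)
  have a3 : (16 : ℝ) ^ k ≤ Real.exp (3 * (k : ℝ) ^ 6) := by
    calc (16 : ℝ) ^ k ≤ Real.exp 3 ^ k := pow_le_pow_left₀ (by norm_num) he3 _
      _ = Real.exp (3 * k) := by rw [← Real.exp_nat_mul]; congr 1; ring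
      _ ≤ Real.exp (3 * (k : ℝ) ^ 6) := Real.exp_le_exp.2 (by linarith)
  have a4 : 12000 * C1 ≤ Real.exp (Real.log (12000 * C1) * (k : ℝ) ^ 6) := by
    have hpos : 0 < 12000 * C1 := by positivity
    have hlog : 0 ≤ Real.log (12000 * C1) := Real.log_nonneg (by linarith only [hC1])
    calc 12000 * C1 = Real.exp (Real.log (12000 * C1)) := (Real.exp_log hpos).symm
      _ ≤ Real.exp (Real.log (12000 * C1) * (k : ℝ) ^ 6) :=
        Real.exp_le_exp.2 (le_mul_of_one_le_right hlog h16)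
  calc Real.exp (20 * (k : ℝ) ^ 6) * (9 * ((k : ℝ) ^ 3) ^ 2) ^ k *
      (C1 * (12000 * (k : ℝ) ^ 2 * 16 ^ k))
      = Real.exp (20 * (k : ℝ) ^ 6) * (9 * ((k : ℝ) ^ 3) ^ 2) ^ k *
        ((12000 * C1) * ((k : ℝ) ^ 2 * 16 ^ k)) := by ring
    _ ≤ Real.exp (20 * (k : ℝ) ^ 6) * Real.exp (9 * (k : ℝ) ^ 6) *
        (Real.exp (Real.log (12000 * C1) * (k : ℝ) ^ 6) *
          (Real.exp (2 * (k : ℝ) ^ 6) * Real.exp (3 * (k : ℝ) ^ 6))) := by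
        have hC0 : 0 ≤ C1 := by linarith only [hC1]
        gcongr
    _ = Real.exp ((34 + Real.log (12000 * C1)) * (k : ℝ) ^ 6) := by
        rw [← Real.exp_add, ← Real.exp_add, ← Real.exp_add, ← Real.exp_add]
        congr 1
        ring

lemma log_bound {m a : ℝ} {k : ℕ} (hk : 1 ≤ k) (hm : 1 ≤ m) (ha : 0 < a)
    (h : a⁻¹ ≤ 7 * k * (4 * m) ^ k) :
    Real.log (2 + a⁻¹) ≤ 1200 * k * m ^ (1 / 100 : ℝ) := by
  have hm0 : 0 < m := by linarith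
  have hk1 : (1 : ℝ) ≤ k := by exact_mod_cast hk
  have h4 : (1 : ℝ) ≤ (4 * m) ^ k := one_le_pow₀ (by linarith)
  have h5 : 2 + a⁻¹ ≤ 10 * k * (4 * m) ^ k := by
    have : (1 : ℝ) ≤ k * (4 * m) ^ k := by nlinarith only [hk1, h4]
    nlinarith only [h, this]
  have ha' : 0 < a⁻¹ := by positivity
  have h6 : Real.log (2 + a⁻¹) ≤ Real.log (10 * k) + k * Real.log (4 * m) := by
    calc Real.log (2 + a⁻¹) ≤ Real.log (10 * k * (4 * m) ^ k) :=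
          Real.log_le_log (by positivity) h5
      _ = Real.log (10 * k) + k * Real.log (4 * m) := by
          rw [Real.log_mul (by positivity) (by positivity), Real.log_pow]
  have h7 : Real.log (10 * k) ≤ 10 * k := by
    have := Real.log_le_sub_one_of_pos (show (0 : ℝ) < 10 * k by positivity)
    linarith
  have h8 : Real.log (4 * m) ≤ 2 + Real.log m := by
    rw [Real.log_mul (by norm_num) (by positivity)]
    have : Real.log 4 ≤ 2 := by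
      have h9 : Real.log 4 = 2 * Real.log 2 := by
        rw [show (4 : ℝ) = 2 ^ 2 by norm_num, Real.log_pow]; norm_num
      have := Real.log_two_lt_d9
      rw [h9]; linarith only [this]
    linarith only [this]
  have h9 : Real.log m ≤ 100 * m ^ (1 / 100 : ℝ) - 100 := by
    have h10 := Real.log_le_sub_one_of_pos (show 0 < m ^ (1 / 100 : ℝ) by positivity)
    rw [Real.log_rpow hm0] at h10
    linarith only [h10]
  have h11 : (1 : ℝ) ≤ m ^ (1 / 100 : ℝ) := Real.one_le_rpow hm (by norm_num)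
  have h12 : (k : ℝ) * Real.log (4 * m) ≤ k * (100 * m ^ (1 / 100 : ℝ) - 98) :=
    mul_le_mul_of_nonneg_left (by linarith only [h8, h9]) (by positivity)
  have h13 : (k : ℝ) ≤ k * m ^ (1 / 100 : ℝ) := le_mul_of_one_le_right (by positivity) h11
  nlinarith only [hk1, h6, h7, h12, h13]

end OnePointAux

open OnePointAux

theorem one_point : ∃ C : ℝ, 1 ≤ C ∧ ∀ (K M X : ℕ) (t u : ℝ), 1 ≤ K → 1 ≤ M →
    X = ⌊(M : ℝ) ^ (2 / 5 : ℝ)⌋₊ → (M : ℝ) ≤ u → u ≤ 4 * M →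
    (M : ℝ) ^ (1 / 2 : ℝ) ≤ |t| → |t| ≤ (M : ℝ) ^ K →
    ‖∑ x ∈ Icc 1 X, ∑ y ∈ Icc 1 X,
        ex (∑ j : Fin (5 * K + 12), phc t u j.val * ((x : ℝ) ^ (j.val + 1) * (y : ℝ) ^ (j.val + 1)))‖ ≤
      C * (X : ℝ) ^ 2 * (M : ℝ) ^ (-(1 / (C * (K : ℝ) ^ 6))) := by
  obtain ⟨C1, hC1, hsm⟩ := sum_mn_small
  set C2 : ℝ := 34 + Real.log (12000 * C1) with hC2
  refine ⟨Real.exp (C2 / 4) + 80 * 17 ^ 6, ?_, ?_⟩
  · have := Real.exp_pos (C2 / 4)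
    have h : (1 : ℝ) ≤ 80 * 17 ^ 6 := by norm_num
    linarith
  intro K M X t u hK hM hX hu1 hu2 ht1 ht2
  set k : ℕ := 5 * K + 12 with hk
  set m : ℝ := (M : ℝ) with hm
  have hm1 : 1 ≤ m := by rw [hm]; exact_mod_cast hM
  have hm0 : 0 < m := by linarith only [hm1]
  have hu0 : 0 < u := by linarith only [hu1, hm1]
  have hY1 : (1 : ℝ) ≤ m ^ (2 / 5 : ℝ) := Real.one_le_rpow hm1 (by norm_num)
  have hX1 : 1 ≤ X := by rw [hX]; exact Nat.le_floor (by exact_mod_cast hY1)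
  have hXr : (1 : ℝ) ≤ (X : ℝ) := by exact_mod_cast hX1
  have hX0 : (0 : ℝ) < (X : ℝ) := by linarith only [hXr]
  have hXle : (X : ℝ) ≤ m ^ (2 / 5 : ℝ) := by rw [hX]; exact Nat.floor_le (by positivity)
  have hXge : m ^ (2 / 5 : ℝ) / 2 ≤ (X : ℝ) := by
    have h := Nat.lt_floor_add_one (m ^ (2 / 5 : ℝ))
    rw [← hX] at h
    linarith only [hXr, h]
  -- the degree
  obtain ⟨j, hjK, hj1, hj2⟩ := exists_deg (K := K) hm1 ht2
  obtain ⟨c1, c2, c3, c4⟩ := coeff_bounds hm1 hu1 hu2 ht1 hjK hj1 hj2 hXge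
  have hjk : j < k := by omega
  have habs := abs_phc (t := t) hu0 j
  set a : ℝ := |t| / (2 * Real.pi * (j + 1) * u ^ (j + 1)) with ha
  set s : ℕ := k ^ 3 with hs
  have hk1 : 1 ≤ k := by omega
  have hs1 : 1 ≤ s := Nat.one_le_pow _ _ hk1
  have hkK : (K : ℝ) + 1 ≤ k := by rw [hk]; push_cast; linarith
  have hKk : K + 1 ≤ k := by omega
  have c3' : a⁻¹ ≤ 7 * k * (4 * m) ^ k := by
    refine c3.trans ?_
    have : (4 * m) ^ (K + 1) ≤ (4 * m) ^ k := pow_le_pow_right₀ (by linarith only [hm1]) hKk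
    gcongr
  have c4' : a⁻¹ / (X : ℝ) ^ (2 * (j + 1)) ≤ 7 * k * 16 ^ k * m ^ (-(1 / 10) : ℝ) := by
    refine c4.trans ?_
    have : (16 : ℝ) ^ (K + 1) ≤ 16 ^ k := pow_le_pow_right₀ (by norm_num) hKk
    gcongr
  have hkr : (1 : ℝ) ≤ k := by exact_mod_cast hk1
  have hΛ1 := log_bound hk1 hm1 c1 c3'
  have hΛ0 : 1 / 2 ≤ Real.log (2 + a⁻¹) := by
    have h : Real.log 2 ≤ Real.log (2 + a⁻¹) :=
      Real.log_le_log (by norm_num) (by have : 0 < a⁻¹ := by (clear * - c1; positivity)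
                                        linarith only [this])
    have := Real.log_two_gt_d9
    linarith only [h, this]
  -- the factor of degree `j + 1`
  have hbil := bilin k s X hs1 hX1 (fun i => phc t u i.val)
  have hVpos : ∀ i : Fin k, 1 ≤ s * X ^ (i.val + 1) := fun i =>
    Nat.one_le_iff_ne_zero.2 (by (clear * - hK hX1; positivity))
  set e : ℝ := C1 * (Real.log (2 + a⁻¹) * (a + (X : ℝ)⁻¹ + a⁻¹ / (X : ℝ) ^ (2 * (j + 1)))) with he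
  have hprod := prod_bound
    (fun i : Fin k => ∑ w ∈ Icc (-((s * X ^ (i.val + 1) : ℕ) : ℤ)) ((s * X ^ (i.val + 1) : ℕ) : ℤ),
      mn (2 * ((s * X ^ (i.val + 1) : ℕ) : ℝ) + 1) (phc t u i.val * w))
    (fun i : Fin k => (3 * ((s * X ^ (i.val + 1) : ℕ) : ℝ)) ^ 2) ⟨j, hjk⟩ e
    (fun i => factor_nonneg _ _) (fun i => factor_trivial _ (hVpos i) _) (by
      simp only
      have h1 := hsm (s * X ^ (j + 1)) (2 * ((s * X ^ (j + 1) : ℕ) : ℝ) + 1) (phc t u j)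
        (by (clear * - hK hX1; positivity)) (by rw [habs]; exact c1) (by
          rw [habs]
          refine c2.trans ?_
          exact Real.rpow_le_one_of_one_le_of_nonpos hm1 (by norm_num))
      rw [habs] at h1
      refine h1.trans ?_
      have h2 := factor_bound (V := ((s * X ^ (j + 1) : ℕ) : ℝ)) (a := a) (X := (X : ℝ))
        (Λ := Real.log (2 + a⁻¹)) (d := j + 1) (by omega) c1 hXr (by
          push_cast
          have : (1 : ℝ) ≤ (s : ℝ) := by exact_mod_cast hs1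
          exact le_mul_of_one_le_left (by (clear * - hX1; positivity)) this) hΛ0
      calc C1 * (((s * X ^ (j + 1) : ℕ) : ℝ) * a + 1) *
            (2 * ((s * X ^ (j + 1) : ℕ) : ℝ) + 1 + a⁻¹ * Real.log (2 + a⁻¹))
          = C1 * ((((s * X ^ (j + 1) : ℕ) : ℝ) * a + 1) *
            (2 * ((s * X ^ (j + 1) : ℕ) : ℝ) + 1 + a⁻¹ * Real.log (2 + a⁻¹))) := by ring
        _ ≤ C1 * ((3 * ((s * X ^ (j + 1) : ℕ) : ℝ)) ^ 2 * (Real.log (2 + a⁻¹) *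
            (a + (X : ℝ)⁻¹ + a⁻¹ / (X : ℝ) ^ (2 * (j + 1))))) :=
            mul_le_mul_of_nonneg_left h2 (by linarith only [hC1])
        _ = (3 * ((s * X ^ (j + 1) : ℕ) : ℝ)) ^ 2 * e := by rw [he]; ring)
  rw [prod_main] at hprod
  -- the bound for `e`
  have hmm : m ^ (-(2 / 5) : ℝ) ≤ m ^ (-(1 / 10) : ℝ) :=
    Real.rpow_le_rpow_of_exponent_le hm1 (by norm_num)
  have hXinv : (X : ℝ)⁻¹ ≤ 2 * m ^ (-(1 / 10) : ℝ) := by
    calc (X : ℝ)⁻¹ ≤ (m ^ (2 / 5 : ℝ) / 2)⁻¹ := inv_anti₀ (by (clear * - hM; positivity)) hXge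
      _ = 2 * m ^ (-(2 / 5) : ℝ) := by rw [inv_div, Real.rpow_neg hm0.le]; ring
      _ ≤ 2 * m ^ (-(1 / 10) : ℝ) := by linarith only [hmm]
  have hsum : a + (X : ℝ)⁻¹ + a⁻¹ / (X : ℝ) ^ (2 * (j + 1)) ≤
      10 * k * 16 ^ k * m ^ (-(1 / 10) : ℝ) := by
    have h16 : (1 : ℝ) ≤ 16 ^ k := one_le_pow₀ (by norm_num)
    have h17 : (1 : ℝ) ≤ k * 16 ^ k := one_le_mul_of_one_le_of_one_le hkr h16
    have h18 : 0 < m ^ (-(1 / 10) : ℝ) := by (clear * - hM; positivity)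
    have h19 : m ^ (-(1 / 10) : ℝ) ≤ (k * 16 ^ k) * m ^ (-(1 / 10) : ℝ) :=
      le_mul_of_one_le_left h18.le h17
    have h20 : 7 * (k : ℝ) * 16 ^ k * m ^ (-(1 / 10) : ℝ) =
        7 * ((k * 16 ^ k) * m ^ (-(1 / 10) : ℝ)) := by ring
    have h21 : 10 * (k : ℝ) * 16 ^ k * m ^ (-(1 / 10) : ℝ) =
        10 * ((k * 16 ^ k) * m ^ (-(1 / 10) : ℝ)) := by ring
    linarith only [c2, c4', hXinv, h19]
  have hsum0 : 0 ≤ a + (X : ℝ)⁻¹ + a⁻¹ / (X : ℝ) ^ (2 * (j + 1)) := by (clear * - hX1 c1; positivity)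
  have he_le : e ≤ C1 * (12000 * (k : ℝ) ^ 2 * 16 ^ k) * m ^ (-(9 / 100) : ℝ) := by
    have h1 : Real.log (2 + a⁻¹) * (a + (X : ℝ)⁻¹ + a⁻¹ / (X : ℝ) ^ (2 * (j + 1))) ≤
        (1200 * k * m ^ (1 / 100 : ℝ)) * (10 * k * 16 ^ k * m ^ (-(1 / 10) : ℝ)) :=
      mul_le_mul hΛ1 hsum hsum0 (by (clear * - hK hM; positivity))
    have h2 : m ^ (1 / 100 : ℝ) * m ^ (-(1 / 10) : ℝ) = m ^ (-(9 / 100) : ℝ) := by
      rw [← Real.rpow_add hm0]; norm_num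
    calc e ≤ C1 * ((1200 * k * m ^ (1 / 100 : ℝ)) * (10 * k * 16 ^ k * m ^ (-(1 / 10) : ℝ))) :=
          mul_le_mul_of_nonneg_left h1 (by linarith only [hC1])
      _ = C1 * (12000 * (k : ℝ) ^ 2 * 16 ^ k) * (m ^ (1 / 100 : ℝ) * m ^ (-(1 / 10) : ℝ)) := by
          ring
      _ = _ := by rw [h2]
  have he0 : 0 ≤ e := by
    rw [he]
    exact mul_nonneg (by linarith only [hC1]) (mul_nonneg (by linarith only [hΛ0]) hsum0)
  -- the mean value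
  have hJ := vmvt k (by omega) X hX1
  have hJ0 : (0 : ℝ) ≤ (J s k X : ℝ) := Nat.cast_nonneg _
  have hJ2 : (J s k X : ℝ) ^ 2 ≤ Real.exp (20 * (k : ℝ) ^ 6) *
      (X : ℝ) ^ (4 * (k : ℝ) ^ 3 - k * (k + 1) + 1 / 50) := by
    calc (J s k X : ℝ) ^ 2 ≤ (Real.exp (10 * (k : ℝ) ^ 6) *
        (X : ℝ) ^ (2 * (k : ℝ) ^ 3 - k * (k + 1) / 2 + 1 / 100)) ^ 2 :=
          pow_le_pow_left₀ hJ0 hJ 2
      _ = Real.exp (20 * (k : ℝ) ^ 6) *
          (X : ℝ) ^ (4 * (k : ℝ) ^ 3 - k * (k + 1) + 1 / 50) := by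
          rw [mul_pow, ← Real.exp_nat_mul, ← Real.rpow_natCast ((X : ℝ) ^ _),
            ← Real.rpow_mul hX0.le]
          congr 1
          · congr 1; push_cast; ring
          · congr 1; push_cast; ring
  -- combination
  have hsr : (s : ℝ) = (k : ℝ) ^ 3 := by rw [hs]; push_cast; ring
  have hss : 4 * s ^ 2 = 4 * k ^ 6 := by rw [hs]; ring
  have h8 : 4 * s ≤ 8 * s ^ 2 :=
    Nat.mul_le_mul (by norm_num) (Nat.le_self_pow (by norm_num) s)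
  have hpow : (X : ℝ) ^ (8 * s ^ 2 - 4 * s) *
      (X : ℝ) ^ (4 * (k : ℝ) ^ 3 - k * (k + 1) + 1 / 50) * (X : ℝ) ^ (k * (k + 1)) =
      (X : ℝ) ^ (8 * k ^ 6) * (X : ℝ) ^ (1 / 50 : ℝ) := by
    rw [← Real.rpow_natCast (X : ℝ) (8 * s ^ 2 - 4 * s), ← Real.rpow_natCast (X : ℝ) (k * (k + 1)),
      ← Real.rpow_natCast (X : ℝ) (8 * k ^ 6), ← Real.rpow_add hX0, ← Real.rpow_add hX0,
      ← Real.rpow_add hX0]
    congr 1
    rw [Nat.cast_sub h8]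
    push_cast
    rw [hsr]
    ring
  have hX50 : (X : ℝ) ^ (1 / 50 : ℝ) ≤ m ^ (1 / 125 : ℝ) := by
    calc (X : ℝ) ^ (1 / 50 : ℝ) ≤ (m ^ (2 / 5 : ℝ)) ^ (1 / 50 : ℝ) :=
          Real.rpow_le_rpow hX0.le hXle (by norm_num)
      _ = m ^ (1 / 125 : ℝ) := by rw [← Real.rpow_mul hm0.le]; norm_num
  set P : ℝ := ‖∑ x ∈ Icc 1 X, ∑ y ∈ Icc 1 X,
        ex (∑ j : Fin k, phc t u j.val * ((x : ℝ) ^ (j.val + 1) * (y : ℝ) ^ (j.val + 1)))‖ with hP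
  have hmain : P ^ (4 * k ^ 6) ≤
      (X : ℝ) ^ (8 * k ^ 6) * Real.exp (C2 * (k : ℝ) ^ 6) * m ^ (-(1 / 20) : ℝ) := by
    rw [← hss]
    refine hbil.trans ?_
    have hprod' : ∏ i : Fin k, ∑ w ∈ Icc (-((s * X ^ (i.val + 1) : ℕ) : ℤ))
        ((s * X ^ (i.val + 1) : ℕ) : ℤ), mn (2 * ((s * X ^ (i.val + 1) : ℕ) : ℝ) + 1)
          (phc t u i.val * w) ≤ (9 * (s : ℝ) ^ 2) ^ k * (X : ℝ) ^ (k * (k + 1)) * e := hprod
    have hprod0 : 0 ≤ ∏ i : Fin k, ∑ w ∈ Icc (-((s * X ^ (i.val + 1) : ℕ) : ℤ))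
        ((s * X ^ (i.val + 1) : ℕ) : ℤ), mn (2 * ((s * X ^ (i.val + 1) : ℕ) : ℝ) + 1)
          (phc t u i.val * w) := Finset.prod_nonneg fun i _ => factor_nonneg _ _
    have hmexp : m ^ (1 / 125 : ℝ) * m ^ (-(9 / 100) : ℝ) ≤ m ^ (-(1 / 20) : ℝ) := by
      rw [← Real.rpow_add hm0]
      exact Real.rpow_le_rpow_of_exponent_le hm1 (by norm_num)
    have hconst := const_bound hC1 hk1
    rw [← hC2] at hconst
    calc (X : ℝ) ^ (8 * s ^ 2 - 4 * s) * (J s k X : ℝ) ^ 2 * ∏ i : Fin k,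
          ∑ w ∈ Icc (-((s * X ^ (i.val + 1) : ℕ) : ℤ)) ((s * X ^ (i.val + 1) : ℕ) : ℤ),
            mn (2 * ((s * X ^ (i.val + 1) : ℕ) : ℝ) + 1) (phc t u i.val * w)
        ≤ (X : ℝ) ^ (8 * s ^ 2 - 4 * s) * (Real.exp (20 * (k : ℝ) ^ 6) *
          (X : ℝ) ^ (4 * (k : ℝ) ^ 3 - k * (k + 1) + 1 / 50)) *
          ((9 * (s : ℝ) ^ 2) ^ k * (X : ℝ) ^ (k * (k + 1)) * e) := by
          refine mul_le_mul (mul_le_mul_of_nonneg_left hJ2 (by (clear * - hX1; positivity))) hprod' hprod0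
            (by (clear * - hX1; positivity))
      _ = ((X : ℝ) ^ (8 * s ^ 2 - 4 * s) *
          (X : ℝ) ^ (4 * (k : ℝ) ^ 3 - k * (k + 1) + 1 / 50) * (X : ℝ) ^ (k * (k + 1))) *
          (Real.exp (20 * (k : ℝ) ^ 6) * (9 * (s : ℝ) ^ 2) ^ k * e) := by ring
      _ = ((X : ℝ) ^ (8 * k ^ 6) * (X : ℝ) ^ (1 / 50 : ℝ)) *
          (Real.exp (20 * (k : ℝ) ^ 6) * (9 * ((k : ℝ) ^ 3) ^ 2) ^ k * e) := by rw [hpow, hsr]
      _ ≤ ((X : ℝ) ^ (8 * k ^ 6) * m ^ (1 / 125 : ℝ)) *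
          (Real.exp (20 * (k : ℝ) ^ 6) * (9 * ((k : ℝ) ^ 3) ^ 2) ^ k *
            (C1 * (12000 * (k : ℝ) ^ 2 * 16 ^ k) * m ^ (-(9 / 100) : ℝ))) := by
          gcongr
      _ = (X : ℝ) ^ (8 * k ^ 6) * (Real.exp (20 * (k : ℝ) ^ 6) *
          (9 * ((k : ℝ) ^ 3) ^ 2) ^ k * (C1 * (12000 * (k : ℝ) ^ 2 * 16 ^ k))) *
          (m ^ (1 / 125 : ℝ) * m ^ (-(9 / 100) : ℝ)) := by ring
      _ ≤ (X : ℝ) ^ (8 * k ^ 6) * Real.exp (C2 * (k : ℝ) ^ 6) * m ^ (-(1 / 20) : ℝ) := by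
          gcongr
  have hroot := root_step hk1 hm1 hmain
  -- final constants
  have hKr : (1 : ℝ) ≤ K := by exact_mod_cast hK
  have hk17 : (k : ℝ) ≤ 17 * K := by rw [hk]; push_cast; linarith only [hKr]
  have hk6 : (k : ℝ) ^ 6 ≤ 17 ^ 6 * (K : ℝ) ^ 6 := by
    calc (k : ℝ) ^ 6 ≤ (17 * (K : ℝ)) ^ 6 := pow_le_pow_left₀ (by (clear * - hK; positivity)) hk17 6
      _ = 17 ^ 6 * (K : ℝ) ^ 6 := by rw [mul_pow]
  have hE := Real.exp_pos (C2 / 4)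
  have hexp : m ^ (-(1 / (80 * (k : ℝ) ^ 6))) ≤
      m ^ (-(1 / ((Real.exp (C2 / 4) + 80 * 17 ^ 6) * (K : ℝ) ^ 6))) := by
    refine Real.rpow_le_rpow_of_exponent_le hm1 (neg_le_neg ?_)
    refine one_div_le_one_div_of_le (by (clear * - hK; positivity)) ?_
    have hK6 : 0 ≤ (K : ℝ) ^ 6 := by (clear * - hK; positivity)
    calc 80 * (k : ℝ) ^ 6 ≤ 80 * (17 ^ 6 * (K : ℝ) ^ 6) :=
          mul_le_mul_of_nonneg_left hk6 (by norm_num)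
      _ = (80 * 17 ^ 6) * (K : ℝ) ^ 6 := by rw [← mul_assoc]
      _ ≤ (Real.exp (C2 / 4) + 80 * 17 ^ 6) * (K : ℝ) ^ 6 :=
          mul_le_mul_of_nonneg_right (le_add_of_nonneg_left hE.le) hK6
  calc P ≤ (X : ℝ) ^ 2 * Real.exp (C2 / 4) * m ^ (-(1 / (80 * (k : ℝ) ^ 6))) := hroot
    _ ≤ (X : ℝ) ^ 2 * Real.exp (C2 / 4) *
        m ^ (-(1 / ((Real.exp (C2 / 4) + 80 * 17 ^ 6) * (K : ℝ) ^ 6))) :=
        mul_le_mul_of_nonneg_left hexp (by (clear * - hX1; positivity))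
    _ ≤ (Real.exp (C2 / 4) + 80 * 17 ^ 6) * (X : ℝ) ^ 2 *
        m ^ (-(1 / ((Real.exp (C2 / 4) + 80 * 17 ^ 6) * (K : ℝ) ^ 6))) := by
        refine mul_le_mul_of_nonneg_right ?_ (by (clear * - hM; positivity))
        rw [mul_comm ((X : ℝ) ^ 2)]
        exact mul_le_mul_of_nonneg_right (le_add_of_nonneg_right (by norm_num)) (by (clear * - hX1; positivity))

end Pool.Agent.VK
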