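import Pool.Agent.Lib.VK.GoodA
import Pool.Agent.Lib.VK.Bad

/-!
# The recursion for the Vinogradov mean value

`tup n A` is the union of `good` and `bad`; `pr_union`, `pr_good`, `cnt_dist`, `pr_bad`.
-/

set_option autoImplicit false

open Finset

namespace Pool.Agent.VK

theorem recursion (k s p X : ℕ) (hk : 2 ≤ k) (hp : p.Prime) (hkp : k < p) (hX : X ≤ p ^ k) :
    J (s + k) k X ≤
      2 * ((s + k) ^ (2 * k) *
        (p ^ (2 * s) * (X ^ k * (k.factorial * p ^ (k * (k - 1) / 2)) * J s k (X / p + 1)))) +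
      2 * (p ^ (2 * (k - 1)) * ((k - 1) ^ (2 * (s + k)) * J (s + k) k (X / p + 1))) := by
  have h1 : tup (s + k) (ivl X) = good (s + k) k p (ivl X) ∪ bad (s + k) k p (ivl X) := by
    unfold good bad
    rw [← Finset.filter_or]
    rw [Finset.filter_true_of_mem]
    intro x _
    exact le_or_gt _ _
  have h2 := pr_union k (good (s + k) k p (ivl X)) (bad (s + k) k p (ivl X)) (mom k)
  rw [← h1] at h2
  have h3 : J (s + k) k X = pr k (tup (s + k) (ivl X)) (mom k) (tup (s + k) (ivl X)) (mom k) := rfl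
  rw [h3]
  refine h2.trans ?_
  refine Nat.add_le_add ?_ ?_
  · refine Nat.mul_le_mul_left 2 ?_
    refine (pr_good k s p (ivl X)).trans ?_
    exact Nat.mul_le_mul_left _ (cnt_dist k s p X (by omega) hp hkp hX)
  · refine Nat.mul_le_mul_left 2 ?_
    exact pr_bad (s + k) k p X (by omega) hk hp.pos

end Pool.Agent.VK
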