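import Pool.Agent.Lib.VK.FullL2
import Pool.Agent.Lib.VK.GaussWin
import Pool.Agent.Lib.VK.SharpWin

/-!
# Almost all short intervals, one character

PROOF SKETCH (`var_chi`). `L = log X`, `δ = h/X`. `sharp_win` with `c = cc χ` (`‖cc χ n‖ ≤ log n + 1 ≤ 2 L`), `K = 2L`, `Λ = 2 L`, `σ = δ L^(-(A+10))`: the error is
`X (2L)^2 (1 + 2 h L^(-(A+9)) + X exp (-2L^2))^2 ≤ X h^2 L^(-A-1)` (`h ≥ X^(1/2)`). `gauss_win` with `T = X^(1/2 - ε/2)`: `σ T ≥ X^(ε/2) L^(-(A+10)) ≥ L`, so the second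
term is at most `(6 X L)^2 exp (-L^2/2)/σ ≤ 1`; the first by `full_l2 (A + 2) (ε/2)`: `X^2/L^(A+2)`. Total `(h^2/X) X^2/L^(A+2) + ...`.

PROOF SKETCH (`var_all`). `c = A + 12`. For `u ≥ x L^(-(A+8))` use `var_chi (A+4) (ε/2)` on the dyadic ranges `[X, 2X]`, `X = ⌈x L^(-(A+8))⌉ 2^j ≤ 2x` (at most `2 log log x·(A+8) + 4 ≤ L` ranges;
`h ≤ X`, `X^(1/2+ε/2) ≤ h` as `X ≤ 2x`, `log X ≥ L/2`, `q ≤ L^A ≤ (log X)^(A+4)`). For smaller `u` (including `u = 0`) the trivial bound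
`‖sum‖ ≤ h (log (3x) + 1) ≤ 2 h L`: total `x L^(-(A+8)) 4 h^2 L^2·2`.
-/

set_option autoImplicit false

open Finset Filter

namespace Pool.Agent.VK

namespace VarChiAux

open Pool.Agent.Lib.SW

theorem ev_log_ge (c : ℝ) : ∀ᶠ x : ℕ in atTop, c ≤ Real.log x :=
  (Real.tendsto_log_atTop.comp tendsto_natCast_atTop_atTop).eventually_ge_atTop c

theorem ev_pow (k : ℕ) {s : ℝ} (hs : 0 < s) {c : ℝ} (hc : 0 < c) :
    ∀ᶠ x : ℕ in atTop, c * Real.log x ^ k ≤ (x : ℝ) ^ s := by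
  have h := (isLittleO_log_rpow_rpow_atTop (k : ℝ) hs).def (c := c⁻¹) (by positivity)
  filter_upwards [tendsto_natCast_atTop_atTop.eventually h, ev_log_ge 0] with x hx hl
  rw [Real.norm_of_nonneg (by positivity), Real.norm_of_nonneg (by positivity),
    Real.rpow_natCast] at hx
  calc c * Real.log x ^ k ≤ c * (c⁻¹ * (x : ℝ) ^ s) := mul_le_mul_of_nonneg_left hx hc.le
    _ = (x : ℝ) ^ s := by field_simp

theorem norm_cc_le {q : ℕ} (χ : DirichletCharacter ℂ q) {n : ℕ} (hn : 1 ≤ n) :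
    ‖cc χ n‖ ≤ Real.log n + 1 := by
  classical
  unfold cc
  refine (norm_sub_le _ _).trans ?_
  have h1 : ‖lam (chf χ) n‖ ≤ Real.log n := by
    unfold lam
    rw [norm_mul, Complex.norm_real, Real.norm_of_nonneg ArithmeticFunction.vonMangoldt_nonneg]
    calc ‖chf χ n‖ * ArithmeticFunction.vonMangoldt n
        ≤ 1 * ArithmeticFunction.vonMangoldt n :=
          mul_le_mul_of_nonneg_right (norm_chf_le χ n) ArithmeticFunction.vonMangoldt_nonneg
      _ ≤ Real.log n := by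
          rw [one_mul]
          exact ArithmeticFunction.vonMangoldt_le_log
  have h2 : ‖(if χ = 1 then (1 : ℂ) else 0)‖ ≤ 1 := by
    split_ifs <;> simp
  linarith

theorem norm_cc_le' {q : ℕ} (χ : DirichletCharacter ℂ q) {X n : ℕ} (hX : 1 ≤ X) (hn : 1 ≤ n)
    (hnX : n ≤ 3 * X) (hL : 3 ≤ Real.log X) : ‖cc χ n‖ ≤ 2 * Real.log X := by
  have h1 := norm_cc_le χ hn
  have hX0 : (0 : ℝ) < X := by exact_mod_cast hX
  have hn0 : (0 : ℝ) < n := by exact_mod_cast hn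
  have h2 : Real.log n ≤ Real.log (3 * X) := by
    apply Real.log_le_log hn0
    exact_mod_cast hnX
  rw [Real.log_mul (by norm_num) hX0.ne'] at h2
  have h3 : Real.log 3 ≤ 2 := by
    have := Real.log_le_sub_one_of_pos (by norm_num : (0 : ℝ) < 3)
    linarith
  linarith

end VarChiAux

open VarChiAux in
theorem var_chi (A : ℕ) (ε : ℝ) (hε : 0 < ε) : ∀ᶠ X : ℕ in atTop, ∀ (q : ℕ) [NeZero q]
    (χ : DirichletCharacter ℂ q), (q : ℝ) ≤ Real.log X ^ A → ∀ h : ℕ, (X : ℝ) ^ (1 / 2 + ε) ≤ h → h ≤ X →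
    ∑ u ∈ Icc X (2 * X), ‖∑ n ∈ Ioc u (u + h), cc χ n‖ ^ 2 ≤ X * (h : ℝ) ^ 2 / Real.log X ^ A := by
  obtain ⟨C, hC1, hC⟩ := sharp_win
  filter_upwards [full_l2 (A + 2) (ε / 2) (by positivity), ev_log_ge (100 * C),
    ev_pow (A + 10) (by norm_num : (0 : ℝ) < 1 / 2) one_pos,
    ev_pow (A + 11) (by positivity : (0 : ℝ) < ε / 2) two_pos, eventually_ge_atTop 1]
    with X hfull hLC hp1 hp2 hX1
  intro q _ χ hq h hh hhX
  set L := Real.log X with hLdef
  have hL100 : 100 ≤ L := by linarith only [hC1, hLC]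
  have hL1 : 1 ≤ L := by linarith only [hC1, hLC]
  have hL0 : 0 < L := by linarith only [hC1, hLC]
  have hX0 : (0 : ℝ) < X := by exact_mod_cast hX1
  have hX1' : (1 : ℝ) ≤ X := by exact_mod_cast hX1
  have hLX : L ≤ X := (Real.log_le_sub_one_of_pos hX0).trans (by linarith)
  have hX100 : (100 : ℝ) ≤ X := hL100.trans hLX
  rw [one_mul] at hp1
  have hsqX : (X : ℝ) ^ (1 / 2 : ℝ) ≤ X := by
    calc (X : ℝ) ^ (1 / 2 : ℝ) ≤ (X : ℝ) ^ (1 : ℝ) :=
          Real.rpow_le_rpow_of_exponent_le hX1' (by norm_num)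
      _ = X := Real.rpow_one _
  have hsqh : (X : ℝ) ^ (1 / 2 : ℝ) ≤ h :=
    (Real.rpow_le_rpow_of_exponent_le hX1' (by linarith only [hε])).trans hh
  have hh1' : (1 : ℝ) ≤ h := (Real.one_le_rpow hX1' (by norm_num)).trans hsqh
  have hh1 : 1 ≤ h := by exact_mod_cast hh1'
  have hh0 : (0 : ℝ) < h := by linarith only [hh1']
  have hhX' : (h : ℝ) ≤ X := by exact_mod_cast hhX
  have hP0 : 0 < L ^ (A + 10) := by (clear * - hL100; positivity)
  have hPX : L ^ (A + 10) ≤ X := hp1.trans hsqX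
  -- the parameters
  set σ : ℝ := h / X / L ^ (A + 10) with hσdef
  have hσ0 : 0 < σ := by (clear * - hX1 hL100 hh1; positivity)
  have hK : ∀ n ∈ Ioc X (3 * X), ‖cc χ n‖ ≤ 2 * L := by
    intro n hn
    rw [mem_Ioc] at hn
    exact norm_cc_le' χ hX1 (by omega) hn.2 (by linarith only [hC1, hLC])
  have hσΛ : σ * (2 * L) ≤ 1 := by
    have h1 : σ ≤ 1 / L ^ (A + 10) := by
      rw [hσdef]
      apply div_le_div_of_nonneg_right _ hP0.le
      rw [div_le_one hX0]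
      exact hhX'
    have h2 : L ^ 2 ≤ L ^ (A + 10) := pow_le_pow_right₀ hL1 (by omega)
    calc σ * (2 * L) ≤ 1 / L ^ (A + 10) * (2 * L) := mul_le_mul_of_nonneg_right h1 (by (clear * - hL100; positivity))
      _ = (2 * L) / L ^ (A + 10) := by ring
      _ ≤ 1 := by
          rw [div_le_one hP0]
          nlinarith only [hC1, hLC, h2]
  set T : ℝ := (X : ℝ) ^ (1 / 2 - ε / 2) with hTdef
  have hT0 : 0 < T := by (clear * - hX1; positivity)
  obtain ⟨hint, hbd⟩ := gauss_win (Ioc X (3 * X)) (fun n hn => by rw [mem_Ioc] at hn; omega)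
    (cc χ) σ T hσ0 hT0
  have hq' : (q : ℝ) ≤ L ^ (A + 2) := hq.trans (pow_le_pow_right₀ hL1 (by omega))
  have hfull' := hfull q χ hq'
  -- the second term
  have hσT : 2 * L ≤ σ * T := by
    have e1 : σ * T = (h : ℝ) * ((X : ℝ) ^ (-(1 : ℝ)) * T) / L ^ (A + 10) := by
      rw [hσdef, Real.rpow_neg_one]
      field_simp
    have e2 : (X : ℝ) ^ (-(1 : ℝ)) * T = (X : ℝ) ^ (-(1 / 2) - ε / 2) := by
      rw [hTdef, ← Real.rpow_add hX0]
      congr 1
      ring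
    have e3 : (X : ℝ) ^ (ε / 2) ≤ (h : ℝ) * (X : ℝ) ^ (-(1 / 2) - ε / 2) := by
      calc (X : ℝ) ^ (ε / 2) = (X : ℝ) ^ (1 / 2 + ε) * (X : ℝ) ^ (-(1 / 2) - ε / 2) := by
            rw [← Real.rpow_add hX0]
            congr 1
            ring
        _ ≤ _ := mul_le_mul_of_nonneg_right hh (by (clear * - hX1; positivity))
    rw [e1, e2, le_div_iff₀ hP0]
    calc 2 * L * L ^ (A + 10) = 2 * L ^ (A + 11) := by ring
      _ ≤ (X : ℝ) ^ (ε / 2) := hp2
      _ ≤ _ := e3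
  have hexp : Real.exp (-(σ ^ 2 * T ^ 2 / 2)) ≤ ((X : ℝ) ^ 8)⁻¹ := by
    have h1 : 8 * L ≤ σ ^ 2 * T ^ 2 / 2 := by
      have h2 : (2 * L) ^ 2 ≤ (σ * T) ^ 2 := pow_le_pow_left₀ (by (clear * - hL100; positivity)) hσT 2
      nlinarith only [hC1, hLC, h2]
    have h3 : ((X : ℝ) ^ 8)⁻¹ = Real.exp (-(8 * L)) := by
      rw [Real.exp_neg, show (8 : ℝ) * L = ((8 : ℕ) : ℝ) * L by norm_num, Real.exp_nat_mul,
        hLdef, Real.exp_log hX0]
    rw [h3]
    exact Real.exp_le_exp.2 (by linarith only [h1])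
  have hS1 : ∑ n ∈ Ioc X (3 * X), ‖cc χ n‖ ≤ 4 * X * L := by
    calc ∑ n ∈ Ioc X (3 * X), ‖cc χ n‖ ≤ ∑ n ∈ Ioc X (3 * X), 2 * L := sum_le_sum hK
      _ = 4 * X * L := by
          rw [sum_const, Nat.card_Ioc, nsmul_eq_mul, show 3 * X - X = 2 * X by omega]
          push_cast
          ring
  have hσinv : 1 / σ ≤ (X : ℝ) * X := by
    have e1 : 1 / σ = X * L ^ (A + 10) / h := by
      rw [hσdef]
      field_simp
    rw [e1, div_le_iff₀ hh0]
    calc (X : ℝ) * L ^ (A + 10) ≤ X * X := mul_le_mul_of_nonneg_left hPX hX0.le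
      _ ≤ X * X * h := le_mul_of_one_le_right (by (clear * - hX1; positivity)) hh1'
  have hsec : (∑ n ∈ Ioc X (3 * X), ‖cc χ n‖) ^ 2 *
      (Real.exp (-(σ ^ 2 * T ^ 2 / 2)) / σ) ≤ 1 := by
    have h1 : (∑ n ∈ Ioc X (3 * X), ‖cc χ n‖) ^ 2 ≤ (4 * X * X) ^ 2 := by
      apply pow_le_pow_left₀ (sum_nonneg fun _ _ => norm_nonneg _)
      refine hS1.trans ?_
      exact mul_le_mul_of_nonneg_left hLX (by (clear * - hX1; positivity))
    have h2 : Real.exp (-(σ ^ 2 * T ^ 2 / 2)) / σ ≤ ((X : ℝ) ^ 8)⁻¹ * (X * X) := by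
      rw [div_eq_mul_one_div]
      exact mul_le_mul hexp hσinv (by (clear * - hX1 hL100 hh1; positivity)) (by (clear * - hX1; positivity))
    calc _ ≤ (4 * (X : ℝ) * X) ^ 2 * (((X : ℝ) ^ 8)⁻¹ * (X * X)) :=
          mul_le_mul h1 h2 (by (clear * - hX1 hL100 hh1; positivity)) (by (clear * - hX1; positivity))
      _ = 16 / (X : ℝ) ^ 2 := by
          field_simp
          ring
      _ ≤ 1 := by
          rw [div_le_one (by (clear * - hX1; positivity))]
          nlinarith only [hC1, hLC, hX1', hLX]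
  -- the mean square of the Gaussian windows
  set J : ℝ := ∫ v : ℝ, ‖∑ n ∈ Ioc X (3 * X), cc χ n * (gs σ (v - Real.log n) : ℂ)‖ ^ 2 with hJ
  have hQ0 : 0 < L ^ (A + 2) := by (clear * - hL100; positivity)
  have hJle : J ≤ 2 * ((X : ℝ) ^ 2 / L ^ (A + 2)) := by
    have h1 : 1 ≤ (X : ℝ) ^ 2 / L ^ (A + 2) := by
      rw [le_div_iff₀ hQ0, one_mul]
      calc L ^ (A + 2) ≤ L ^ (A + 10) := pow_le_pow_right₀ hL1 (by omega)
        _ ≤ X := hPX
        _ ≤ (X : ℝ) ^ 2 := by nlinarith only [hX1']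
    linarith only [hfull', hsec, hbd, h1]
  have hsw := hC X h (cc χ) (2 * L) σ (2 * L) hX1 hh1 hhX hσ0 (by linarith only [hC1, hLC]) hσΛ hK hint
  refine hsw.trans ?_
  set M : ℝ := X * (h : ℝ) ^ 2 / L ^ (A + 2) with hM
  have hM0 : 0 ≤ M := by (clear * - hX1 hL100 hh1; positivity)
  have ht1 : (h : ℝ) ^ 2 / X * J ≤ 2 * M := by
    calc (h : ℝ) ^ 2 / X * J ≤ (h : ℝ) ^ 2 / X * (2 * ((X : ℝ) ^ 2 / L ^ (A + 2))) :=
          mul_le_mul_of_nonneg_left hJle (by (clear * - hX1 hh1; positivity))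
      _ = 2 * M := by
          rw [hM]
          field_simp
  have hHH : L ^ (A + 9) ≤ h :=
    (pow_le_pow_right₀ hL1 (by omega : A + 9 ≤ A + 10)).trans (hp1.trans hsqh)
  have hR0 : 0 < L ^ (A + 9) := by (clear * - hL100; positivity)
  have hH1 : 1 ≤ (h : ℝ) / L ^ (A + 9) := by
    rw [le_div_iff₀ hR0, one_mul]
    exact hHH
  have hbr : 1 + X * σ * (2 * L) + X * Real.exp (-((2 * L) ^ 2 / 2)) ≤
      4 * ((h : ℝ) / L ^ (A + 9)) := by
    have e1 : X * σ * (2 * L) = 2 * ((h : ℝ) / L ^ (A + 9)) := by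
      rw [hσdef, show A + 10 = (A + 9) + 1 by omega, pow_succ]
      field_simp
    have e2 : X * Real.exp (-((2 * L) ^ 2 / 2)) ≤ 1 := by
      have h1 : Real.exp (-((2 * L) ^ 2 / 2)) ≤ Real.exp (-L) := Real.exp_le_exp.2 (by nlinarith only [hC1, hLC])
      have h2 : Real.exp (-L) = (X : ℝ)⁻¹ := by
        rw [Real.exp_neg, hLdef, Real.exp_log hX0]
      calc X * Real.exp (-((2 * L) ^ 2 / 2)) ≤ X * (X : ℝ)⁻¹ := by
            apply mul_le_mul_of_nonneg_left _ hX0.le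
            rw [← h2]
            exact h1
        _ = 1 := mul_inv_cancel₀ hX0.ne'
    rw [e1]
    linarith only [hH1, e2]
  have hbr0 : 0 ≤ 1 + X * σ * (2 * L) + X * Real.exp (-((2 * L) ^ 2 / 2)) := by (clear * - hX1 hL100 hh1; positivity)
  have ht2 : X * (2 * L) ^ 2 * (1 + X * σ * (2 * L) + X * Real.exp (-((2 * L) ^ 2 / 2))) ^ 2 ≤
      M := by
    calc _ ≤ X * (2 * L) ^ 2 * (4 * ((h : ℝ) / L ^ (A + 9))) ^ 2 := by
          apply mul_le_mul_of_nonneg_left _ (by (clear * - hX1 hL100; positivity))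
          exact pow_le_pow_left₀ hbr0 hbr 2
      _ = M * (64 / L ^ (A + 14)) := by
          rw [hM, show A + 9 = A + 9 from rfl]
          have e1 : L ^ (A + 9) * L ^ (A + 9) = L ^ (A + 2) * L ^ (A + 14) * L ^ 2 := by
            rw [← pow_add, ← pow_add, ← pow_add]
            congr 1
            omega
          field_simp
          linear_combination (-64 : ℝ) * e1
      _ ≤ M * 1 := by
          apply mul_le_mul_of_nonneg_left _ hM0
          rw [div_le_one (by (clear * - hL100; positivity))]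
          calc (64 : ℝ) ≤ L := by linarith only [hC1, hLC]
            _ = L ^ 1 := (pow_one L).symm
            _ ≤ L ^ (A + 14) := pow_le_pow_right₀ hL1 (by omega)
      _ = M := mul_one M
  calc C * ((h : ℝ) ^ 2 / X * J + X * (2 * L) ^ 2 *
        (1 + X * σ * (2 * L) + X * Real.exp (-((2 * L) ^ 2 / 2))) ^ 2) ≤ C * (3 * M) := by
        apply mul_le_mul_of_nonneg_left _ (by linarith only [hC1])
        linarith only [ht1, ht2]
    _ ≤ L ^ 2 * M := by
        have : C * 3 ≤ L ^ 2 := by nlinarith only [hC1, hLC]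
        nlinarith only [hM0, this]
    _ = X * (h : ℝ) ^ 2 / L ^ A := by
        rw [hM, pow_add]
        field_simp

open VarChiAux in
theorem var_all (A : ℕ) (ε : ℝ) (hε : 0 < ε) : ∃ c : ℕ, ∀ᶠ x : ℕ in atTop, ∀ (q : ℕ) [NeZero q]
    (χ : DirichletCharacter ℂ q), (q : ℝ) ≤ Real.log x ^ A → ∀ h : ℕ, (x : ℝ) ^ (1 / 2 + ε) ≤ h →
    (h : ℝ) ≤ x / Real.log x ^ c →
    ∑ u ∈ range (2 * x + 1), ‖∑ n ∈ Ioc u (u + h), cc χ n‖ ^ 2 ≤ x * (h : ℝ) ^ 2 / Real.log x ^ A := by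
  refine ⟨A + 12, ?_⟩
  obtain ⟨N0, hN0⟩ := eventually_atTop.1 (var_chi (A + 4) (ε / 2) (by positivity))
  have hsq : ∀ᶠ x : ℕ in atTop, (N0 : ℝ) ≤ (x : ℝ) ^ (1 / 2 : ℝ) :=
    ((tendsto_rpow_atTop (by norm_num : (0 : ℝ) < 1 / 2)).comp
      tendsto_natCast_atTop_atTop).eventually_ge_atTop _
  have h2e : ∀ᶠ x : ℕ in atTop, (2 : ℝ) ^ (1 / 2 + ε / 2) ≤ (x : ℝ) ^ (ε / 2) :=
    ((tendsto_rpow_atTop (by positivity : (0 : ℝ) < ε / 2)).comp
      tendsto_natCast_atTop_atTop).eventually_ge_atTop _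
  filter_upwards [hsq, h2e, ev_log_ge ((2 : ℝ) ^ (A + 7) + 100),
    ev_pow (A + 8) (by norm_num : (0 : ℝ) < 1 / 2) one_pos, eventually_ge_atTop 1]
    with x hxN hx2 hxL hp1 hx1
  intro q _ χ hq h hh hhx
  set L := Real.log x with hLdef
  have h2A : (0 : ℝ) < 2 ^ (A + 7) := by positivity
  have hL100 : 100 ≤ L := by linarith only [hxL, h2A]
  have hL1 : 1 ≤ L := by linarith only [hxL, h2A]
  have hL0 : 0 < L := by linarith only [hxL, h2A]
  have hx0 : (0 : ℝ) < x := by exact_mod_cast hx1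
  have hx1' : (1 : ℝ) ≤ x := by exact_mod_cast hx1
  rw [one_mul] at hp1
  have hP0 : 0 < L ^ (A + 8) := by positivity
  have hL4 : (2 : ℝ) ^ (A + 7) ≤ L ^ 4 := by
    calc (2 : ℝ) ^ (A + 7) ≤ L := by linarith only [hxL]
      _ = L ^ 1 := (pow_one L).symm
      _ ≤ L ^ 4 := pow_le_pow_right₀ hL1 (by norm_num)
  -- the first point of the dyadic ranges
  set X0 : ℕ := ⌈(x : ℝ) / L ^ (A + 8)⌉₊ with hX0def
  have hX0ge : (x : ℝ) / L ^ (A + 8) ≤ X0 := Nat.le_ceil _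
  have hsqx : (x : ℝ) ^ (1 / 2 : ℝ) ≤ (x : ℝ) / L ^ (A + 8) := by
    rw [le_div_iff₀ hP0]
    calc (x : ℝ) ^ (1 / 2 : ℝ) * L ^ (A + 8) ≤ (x : ℝ) ^ (1 / 2 : ℝ) * (x : ℝ) ^ (1 / 2 : ℝ) :=
          mul_le_mul_of_nonneg_left hp1 (by positivity)
      _ = x := by
          rw [← Real.rpow_add hx0]
          norm_num
  have hsq1 : (1 : ℝ) ≤ (x : ℝ) ^ (1 / 2 : ℝ) := Real.one_le_rpow hx1' (by norm_num)
  have hX0le : (X0 : ℝ) ≤ 2 * (x / L ^ (A + 8)) := by
    have h1 : (X0 : ℝ) < (x : ℝ) / L ^ (A + 8) + 1 := Nat.ceil_lt_add_one (by (clear * - hx1 hL100; positivity))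
    linarith only [hsqx, hsq1, h1]
  have hX0sq : (x : ℝ) ^ (1 / 2 : ℝ) ≤ X0 := hsqx.trans hX0ge
  have hX0N : N0 ≤ X0 := by exact_mod_cast hxN.trans hX0sq
  have hX01 : 1 ≤ X0 := by exact_mod_cast hsq1.trans hX0sq
  have hX0x : X0 ≤ 2 * x := by
    have h1 : (X0 : ℝ) ≤ 2 * x := by
      refine hX0le.trans ?_
      apply mul_le_mul_of_nonneg_left _ (by norm_num)
      exact div_le_self hx0.le (one_le_pow₀ hL1)
    exact_mod_cast h1
  have hhX0 : h ≤ X0 := by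
    have h1 : (h : ℝ) ≤ X0 := by
      refine hhx.trans (le_trans ?_ hX0ge)
      apply div_le_div_of_nonneg_left hx0.le hP0
      exact pow_le_pow_right₀ hL1 (by omega)
    exact_mod_cast h1
  have hhx' : h ≤ x := by
    have h1 : (h : ℝ) ≤ x := hhx.trans (div_le_self hx0.le (one_le_pow₀ hL1))
    exact_mod_cast h1
  set f : ℕ → ℝ := fun u => ‖∑ n ∈ Ioc u (u + h), cc χ n‖ ^ 2 with hf
  have hf0 : ∀ u, 0 ≤ f u := fun u => by (clear * -; positivity)
  set M : ℝ := (h : ℝ) ^ 2 * (2 ^ (A + 4) / L ^ (A + 4)) with hM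
  have hM0 : 0 ≤ M := by (clear * - hL100; positivity)
  -- one dyadic range
  have hstep : ∀ X : ℕ, X0 ≤ X → X ≤ 2 * x → ∑ u ∈ Icc X (2 * X), f u ≤ X * M := by
    intro X hX0X hX2x
    have hXr : (X0 : ℝ) ≤ X := by exact_mod_cast hX0X
    have hX2r : (X : ℝ) ≤ 2 * x := by exact_mod_cast hX2x
    have hXpos : (0 : ℝ) < X := lt_of_lt_of_le (by exact_mod_cast hX01) hXr
    have hlog : L / 2 ≤ Real.log X := by
      have h1 : Real.log ((x : ℝ) ^ (1 / 2 : ℝ)) ≤ Real.log X :=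
        Real.log_le_log (by (clear * - hx1; positivity)) (hX0sq.trans hXr)
      rw [Real.log_rpow hx0] at h1
      linarith only [h1]
    have hL2 : 0 < L / 2 := by (clear * - hL100; positivity)
    have hpow : (L / 2) ^ (A + 4) ≤ Real.log X ^ (A + 4) := pow_le_pow_left₀ hL2.le hlog _
    have hqX : (q : ℝ) ≤ Real.log X ^ (A + 4) := by
      refine hq.trans (le_trans ?_ hpow)
      rw [div_pow, le_div_iff₀ (by (clear * -; positivity)), pow_add L A 4]
      apply mul_le_mul_of_nonneg_left _ (by (clear * - hL100; positivity))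
      calc (2 : ℝ) ^ (A + 4) ≤ 2 ^ (A + 7) := pow_le_pow_right₀ (by norm_num) (by omega)
        _ ≤ L ^ 4 := hL4
    have hXh : (X : ℝ) ^ (1 / 2 + ε / 2) ≤ h := by
      calc (X : ℝ) ^ (1 / 2 + ε / 2) ≤ (2 * x : ℝ) ^ (1 / 2 + ε / 2) :=
            Real.rpow_le_rpow hXpos.le hX2r (by (clear * - hε; positivity))
        _ = 2 ^ (1 / 2 + ε / 2) * (x : ℝ) ^ (1 / 2 + ε / 2) :=
            Real.mul_rpow (by norm_num) hx0.le
        _ ≤ (x : ℝ) ^ (ε / 2) * (x : ℝ) ^ (1 / 2 + ε / 2) :=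
            mul_le_mul_of_nonneg_right hx2 (by (clear * - hx1; positivity))
        _ = (x : ℝ) ^ (1 / 2 + ε) := by
            rw [← Real.rpow_add hx0]
            congr 1
            ring
        _ ≤ h := hh
    refine (hN0 X (hX0N.trans hX0X) q χ hqX h hXh (hhX0.trans hX0X)).trans ?_
    rw [hM, mul_div_assoc]
    apply mul_le_mul_of_nonneg_left _ hXpos.le
    calc (h : ℝ) ^ 2 / Real.log X ^ (A + 4) ≤ (h : ℝ) ^ 2 / (L / 2) ^ (A + 4) :=
          div_le_div_of_nonneg_left (by (clear * -; positivity)) (by (clear * - hL100; positivity)) hpow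
      _ = (h : ℝ) ^ 2 * (2 ^ (A + 4) / L ^ (A + 4)) := by
          rw [div_pow]
          field_simp
  -- all dyadic ranges
  have hdy : ∀ i : ℕ, 2 ^ i * X0 ≤ 4 * x →
      ∑ u ∈ Ico X0 (2 ^ i * X0), f u ≤ ((2 ^ i * X0 : ℕ) : ℝ) * M := by
    intro i
    induction i with
    | zero =>
      intro _
      rw [pow_zero, one_mul, Ico_self, sum_empty]
      (clear * - hx1 hL100; positivity)
    | succ i ih =>
      intro hi
      have hi' : 2 ^ i * X0 ≤ 2 * x := by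
        rw [pow_succ] at hi
        nlinarith only [hi]
      have h1 := ih (by omega)
      have hle1 : X0 ≤ 2 ^ i * X0 := Nat.le_mul_of_pos_left _ (by (clear * -; positivity))
      have hle2 : 2 ^ i * X0 ≤ 2 ^ (i + 1) * X0 :=
        Nat.mul_le_mul_right _ (Nat.pow_le_pow_right (by norm_num) (Nat.le_succ i))
      rw [← sum_Ico_consecutive f hle1 hle2]
      have h2 := hstep (2 ^ i * X0) hle1 hi'
      have e1 : 2 ^ (i + 1) * X0 = 2 * (2 ^ i * X0) := by rw [pow_succ]; ring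
      have h3 : ∑ u ∈ Ico (2 ^ i * X0) (2 ^ (i + 1) * X0), f u ≤
          ∑ u ∈ Icc (2 ^ i * X0) (2 * (2 ^ i * X0)), f u := by
        rw [e1]
        exact sum_le_sum_of_subset_of_nonneg Ico_subset_Icc_self fun u _ _ => hf0 u
      rw [e1]
      rw [e1] at h3
      push_cast at h1 h2 ⊢
      linarith only [h3, h1, h2]
  have hex : ∃ i : ℕ, 2 * x < 2 ^ i * X0 := by
    refine ⟨2 * x, ?_⟩
    calc 2 * x < 2 ^ (2 * x) := Nat.lt_two_pow_self
      _ ≤ 2 ^ (2 * x) * X0 := Nat.le_mul_of_pos_right _ hX01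
  classical
  set i0 := Nat.find hex with hi0
  have hi1 : 2 * x < 2 ^ i0 * X0 := Nat.find_spec hex
  have hi2 : 2 ^ i0 * X0 ≤ 4 * x := by
    rcases Nat.eq_zero_or_pos i0 with h0 | h0
    · rw [h0, pow_zero, one_mul]
      omega
    · have h1 := Nat.find_min hex (m := i0 - 1) (by omega)
      rw [not_lt] at h1
      have e1 : 2 ^ i0 = 2 * 2 ^ (i0 - 1) := by
        rw [← pow_succ']
        congr 1
        omega
      rw [e1, mul_assoc]
      omega
  have hbig := hdy i0 hi2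
  have hbig2 : ∑ u ∈ Ico X0 (2 * x + 1), f u ≤ 4 * x * M := by
    calc ∑ u ∈ Ico X0 (2 * x + 1), f u ≤ ∑ u ∈ Ico X0 (2 ^ i0 * X0), f u :=
          sum_le_sum_of_subset_of_nonneg (Ico_subset_Ico_right (by omega)) fun u _ _ => hf0 u
      _ ≤ ((2 ^ i0 * X0 : ℕ) : ℝ) * M := hbig
      _ ≤ 4 * x * M := by
          apply mul_le_mul_of_nonneg_right _ hM0
          exact_mod_cast hi2
  -- the small values
  have hsmall : ∀ u ∈ range X0, f u ≤ (h * (2 * L)) ^ 2 := by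
    intro u hu
    rw [mem_range] at hu
    apply pow_le_pow_left₀ (norm_nonneg _)
    calc ‖∑ n ∈ Ioc u (u + h), cc χ n‖ ≤ ∑ n ∈ Ioc u (u + h), ‖cc χ n‖ := norm_sum_le _ _
      _ ≤ ∑ n ∈ Ioc u (u + h), 2 * L := by
          refine sum_le_sum fun n hn => ?_
          rw [mem_Ioc] at hn
          exact norm_cc_le' χ hx1 (by omega) (by omega) (by linarith only [hxL, h2A])
      _ = h * (2 * L) := by
          rw [sum_const, Nat.card_Ioc, nsmul_eq_mul, Nat.add_sub_cancel_left]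
  have hsmall2 : ∑ u ∈ range X0, f u ≤ X0 * (h * (2 * L)) ^ 2 := by
    calc ∑ u ∈ range X0, f u ≤ ∑ u ∈ range X0, (h * (2 * L)) ^ 2 := sum_le_sum hsmall
      _ = X0 * (h * (2 * L)) ^ 2 := by rw [sum_const, card_range, nsmul_eq_mul]
  have hsplit : ∑ u ∈ range (2 * x + 1), f u =
      ∑ u ∈ range X0, f u + ∑ u ∈ Ico X0 (2 * x + 1), f u := by
    rw [← sum_range_add_sum_Ico f (by omega : X0 ≤ 2 * x + 1)]
  rw [hsplit]
  set W : ℝ := x * (h : ℝ) ^ 2 / L ^ A with hW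
  have hW0 : 0 ≤ W := by (clear * - hx1 hL100; positivity)
  have hA1 : X0 * (h * (2 * L)) ^ 2 ≤ W / 2 := by
    calc X0 * (h * (2 * L)) ^ 2 ≤ 2 * (x / L ^ (A + 8)) * (h * (2 * L)) ^ 2 :=
          mul_le_mul_of_nonneg_right hX0le (by (clear * -; positivity))
      _ = W * (8 / L ^ 6) := by
          rw [hW, pow_add L A 8]
          field_simp
          ring
      _ ≤ W * (1 / 2) := by
          apply mul_le_mul_of_nonneg_left _ hW0
          rw [div_le_iff₀ (by (clear * - hL100; positivity))]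
          have h1 : L ^ 1 ≤ L ^ 6 := pow_le_pow_right₀ hL1 (by norm_num)
          rw [pow_one] at h1
          linarith only [hxL, h2A, h1]
      _ = W / 2 := by ring
  have hA2 : 4 * x * M ≤ W / 2 := by
    have e1 : 4 * x * M = W * (2 ^ (A + 6) / L ^ 4) := by
      rw [hM, hW, pow_add L A 4, pow_add 2 A 4, pow_add 2 A 6]
      field_simp
      ring
    rw [e1, div_eq_mul_one_div W 2]
    apply mul_le_mul_of_nonneg_left _ hW0
    rw [div_le_iff₀ (by (clear * - hL100; positivity))]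
    have e2 : (2 : ℝ) ^ (A + 7) = 2 * 2 ^ (A + 6) := by rw [← pow_succ']
    linarith only [hL4, e2]
  linarith only [hbig2, hsmall2, hA1, hA2]

end Pool.Agent.VK
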